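import Pool.Agent.H66.D2.Pair
import Pool.Agent.H4.D2.Rpl

/-!
# D2: reading a variable of positive rate in the law of a pair with copies

`NoCov p E Z K c`: the variable `E` is not covered by `K` values which depend on `Z`, outside an event
of probability at least `1 - c`. `nocov_of_ev`: it follows from a rate on large events.
`ev_of_nocov`: it gives a rate on the large events of every extension of the law.
`read_pl`: a variable of the first sample of the pair which lies in a small set that depends on the data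
of the copies and on the record. `cop_sep`: a copy is not in a small set which depends on the pair
and on the other copies.
-/

set_option autoImplicit false

namespace Pool.D2T

open Finset Real
open Pool.Agent.H49.Ent Pool.Agent.H32.Dense Pool.STK Pool.D2A
open Pool.KM7 (P2 P2_isLaw P2_fst P2_snd P2_pos P2_CH)

section

variable {Ω W V T : Type} [Fintype Ω] [Fintype W]

/-- The variable `E` is not covered by `K` values which depend on `Z`. -/
def NoCov (p : Ω → ℝ) (E : Ω → V) (Z : Ω → T) (K : ℕ) (c : ℝ) : Prop :=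
  ∀ S : T → Finset V, (∀ z, (S z).card ≤ K) → law p (fun ω => E ω ∈ S (Z ω)) True ≤ c

/-- A rate on the large events excludes covers. -/
theorem nocov_of_ev {p : Ω → ℝ} (hp : IsLaw p) (E : Ω → V) (Z : Ω → T) {K : ℕ} {c r : ℝ}
    (hc : 0 < c) (h : ∀ G : Ω → Prop, c ≤ law p G True → r ≤ CH (cond p G True) E Z)
    (hK : Real.log K < r) : NoCov p E Z K c := by
  intro S hS
  by_contra hcon
  rw [not_le] at hcon
  have h1 := h (fun ω => E ω ∈ S (Z ω)) hcon.le
  have hG0 : 0 < law p (fun ω => E ω ∈ S (Z ω)) True := hc.trans hcon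
  have hq : IsLaw (cond p (fun ω => E ω ∈ S (Z ω)) True) :=
    ⟨cond_nonneg hp.nonneg _ True, sum_cond p _ hG0.ne'⟩
  have h2 := Pool.D2P.CH_card hq E Z S K (fun ω hω => by
    have h3 := ((cond_pos_iff hp.nonneg _ True ω).mp hω).2
    simpa using h3) (fun ω _ => hS _)
  linarith

theorem NoCov.mono {p : Ω → ℝ} {E : Ω → V} {Z : Ω → T} {K K' : ℕ} {c c' : ℝ}
    (h : NoCov p E Z K c) (hK : K' ≤ K) (hc : c ≤ c') : NoCov p E Z K' c' :=
  fun S hS => (h S fun z => (hS z).trans hK).trans hc

/-- The exact formula. -/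
theorem CH_sum {p : Ω → ℝ} (X : Ω → V) (Z : Ω → T) :
    CH p X Z = ∑ ω, p ω * (Real.log (law p Z (Z ω)) -
      Real.log (law p (fun ω => (X ω, Z ω)) (X ω, Z ω))) := by
  unfold CH H
  rw [neg_sub_neg, ← Finset.sum_sub_distrib]
  exact Finset.sum_congr rfl fun ω _ => by ring

open Classical in
/-- The entropy of a variable which is not covered. -/
theorem CH_ge_of_nocov {q : Ω → ℝ} (hq : IsLaw q) (E : Ω → V) (Z : Ω → T) {K : ℕ} (hK : 1 ≤ K)
    {c : ℝ} (h : NoCov q E Z K c) : (1 - c) * Real.log K ≤ CH q E Z := by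
  have h0 := hq.nonneg
  obtain ⟨J, hJ⟩ : ∃ J : Ω → V × T, J = fun ω => (E ω, Z ω) := ⟨_, rfl⟩
  obtain ⟨S, hS⟩ : ∃ S : T → Finset V, S = fun z => (univ.image E).filter fun x =>
    law q Z z < K * law q J (x, z) := ⟨_, rfl⟩
  have hK0 : (0 : ℝ) < K := by exact_mod_cast hK
  have hcard : ∀ z, (S z).card ≤ K := by
    intro z
    by_contra hcon
    rw [not_le] at hcon
    have hne : (S z).Nonempty := Finset.card_pos.mp (lt_of_le_of_lt (Nat.zero_le _) hcon)
    have h1 : ∑ x ∈ S z, law q Z z < ∑ x ∈ S z, K * law q J (x, z) := by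
      refine Finset.sum_lt_sum_of_nonempty hne fun x hx => ?_
      rw [hS] at hx
      exact (Finset.mem_filter.mp hx).2
    rw [Finset.sum_const, nsmul_eq_mul, ← Finset.mul_sum] at h1
    have h2 : ∑ x ∈ S z, law q J (x, z) ≤ law q Z z := by
      have h3 : ∑ x ∈ S z, law q J (x, z) ≤ ∑ x ∈ univ.image E, law q J (x, z) :=
        Finset.sum_le_sum_of_subset_of_nonneg (by rw [hS]; exact Finset.filter_subset _ _)
          fun x _ _ => law_nonneg h0 J _
      refine h3.trans (le_of_eq ?_)
      unfold law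
      rw [Finset.sum_comm]
      refine Finset.sum_congr rfl fun ω _ => ?_
      rw [Finset.sum_eq_single (E ω)]
      · rw [hJ]
        simp
      · intro x _ hx
        rw [hJ]
        simp only [Prod.mk.injEq]
        rw [if_neg]
        tauto
      · intro hh
        exact absurd (Finset.mem_image_of_mem E (Finset.mem_univ ω)) hh
    have h4 : (K : ℝ) * ∑ x ∈ S z, law q J (x, z) ≤ K * law q Z z :=
      mul_le_mul_of_nonneg_left h2 hK0.le
    have h5 : ((S z).card : ℝ) * law q Z z < K * law q Z z := h1.trans_le h4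
    have h6 : (0 : ℝ) ≤ law q Z z := law_nonneg h0 Z z
    have h7 : (K : ℝ) < (S z).card := by exact_mod_cast hcon
    nlinarith
  have h1 := h S hcard
  rw [CH_sum]
  have h2 : ∑ ω, q ω * ((if E ω ∈ S (Z ω) then 0 else 1) * Real.log K) ≤
      ∑ ω, q ω * (Real.log (law q Z (Z ω)) - Real.log (law q (fun ω => (E ω, Z ω)) (E ω, Z ω))) := by
    refine Finset.sum_le_sum fun ω _ => ?_
    rcases (h0 ω).eq_or_lt with hz | hz
    · rw [← hz, zero_mul, zero_mul]
    · refine mul_le_mul_of_nonneg_left ?_ (h0 ω)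
      have hl1 : 0 < law q Z (Z ω) := law_pos h0 Z hz
      have hl2 : 0 < law q J (J ω) := law_pos h0 J hz
      have hle : law q J (J ω) ≤ law q Z (Z ω) := by
        refine law_mono_of_det h0 (X := J) (Y := Z) (fun a b _ _ hab => ?_) hz
        rw [hJ] at hab
        exact (Prod.ext_iff.mp hab).2
      have e : (fun ω => (E ω, Z ω)) = J := hJ.symm
      have e2 : (E ω, Z ω) = J ω := by rw [hJ]
      rw [e, e2]
      by_cases hm : E ω ∈ S (Z ω)
      · rw [if_pos hm, zero_mul, sub_nonneg]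
        exact Real.log_le_log hl2 hle
      · rw [if_neg hm, one_mul]
        have h3 : K * law q J (J ω) ≤ law q Z (Z ω) := by
          by_contra hcon
          rw [not_le] at hcon
          apply hm
          rw [hS]
          refine Finset.mem_filter.mpr ⟨Finset.mem_image_of_mem E (Finset.mem_univ ω), ?_⟩
          rw [← e2] at hcon
          exact hcon
        have h4 := Real.log_le_log (by positivity) h3
        rw [Real.log_mul hK0.ne' hl2.ne'] at h4
        linarith
  refine le_trans ?_ h2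
  have h3 : ∑ ω, q ω * ((if E ω ∈ S (Z ω) then 0 else 1) * Real.log K) =
      (1 - law q (fun ω => E ω ∈ S (Z ω)) True) * Real.log K := by
    have e1 : (1 : ℝ) - law q (fun ω => E ω ∈ S (Z ω)) True =
        ∑ ω, q ω * (if E ω ∈ S (Z ω) then 0 else 1) := by
      have e2 : (1 : ℝ) = ∑ ω, q ω := hq.sum_one.symm
      calc (1 : ℝ) - law q (fun ω => E ω ∈ S (Z ω)) True
          = ∑ ω, q ω - law q (fun ω => E ω ∈ S (Z ω)) True := by rw [← e2]
        _ = ∑ ω, q ω * (if E ω ∈ S (Z ω) then 0 else 1) := by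
            unfold law
            rw [← Finset.sum_sub_distrib]
            refine Finset.sum_congr rfl fun ω _ => ?_
            by_cases hm : E ω ∈ S (Z ω)
            · simp [hm]
            · simp [hm]
    rw [e1, Finset.sum_mul]
    exact Finset.sum_congr rfl fun ω _ => by ring
  rw [h3]
  exact mul_le_mul_of_nonneg_right (by linarith) (Real.log_nonneg (by exact_mod_cast hK))

/-- **Transport**: a rate on the large events of an extension. -/
theorem ev_of_nocov {p : Ω → ℝ} {q : W → ℝ} (hq : IsLaw q) {pr : W → Ω} (hm : Marg q p pr)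
    (E : Ω → V) (Z : Ω → T) {K : ℕ} (hK : 1 ≤ K) {c c₁ : ℝ} (hc : 0 ≤ c) (h : NoCov p E Z K c)
    (hc₁ : 0 < c₁) (G : W → Prop) (hG : c₁ ≤ law q G True) :
    (1 - c / c₁) * Real.log K ≤
      CH (cond q G True) (fun w => E (pr w)) (fun w => Z (pr w)) := by
  classical
  have hG0 : 0 < law q G True := hc₁.trans_le hG
  have hq' : IsLaw (cond q G True) := ⟨cond_nonneg hq.nonneg G True, sum_cond q G hG0.ne'⟩
  refine CH_ge_of_nocov hq' _ _ hK fun S hS => ?_
  have h1 := h S hS
  rw [← hm.law (fun ω => E ω ∈ S (Z ω)) True] at h1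
  have h2 : law (cond q G True) (fun w => E (pr w) ∈ S (Z (pr w))) True ≤
      law q (fun w => E (pr w) ∈ S (Z (pr w))) True / law q G True := by
    unfold law
    rw [Finset.sum_div]
    refine Finset.sum_le_sum fun w _ => ?_
    have h3 : cond q G True w ≤ q w / law q G True := by
      unfold Pool.Agent.H49.Ent.cond
      split_ifs
      · exact le_rfl
      · exact div_nonneg (hq.nonneg w) hG0.le
    split_ifs
    · exact h3
    · exact (zero_div _).ge
  refine h2.trans ?_
  rw [div_le_div_iff₀ hG0 hc₁]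
  calc law q (fun w => E (pr w) ∈ S (Z (pr w))) True * c₁ ≤ c * c₁ :=
        mul_le_mul_of_nonneg_right h1 hc₁.le
    _ ≤ c * law q G True := mul_le_mul_of_nonneg_left hG hc

end

section

variable {Ω σ ζ ζ' ε β V : Type} [Fintype Ω] {N : ℕ}

/-- **Reading in the law of the pair with copies.** -/
theorem read_pl {p : Ω → ℝ} (hp : IsLaw p) {S : Ω → σ} {z : Ω → ζ} {z' : Ω → ζ'}
    (hz' : Det p z' z) (hS : Det p S z) (sd : Fin N → Bool) (e : Ω → ε) (B : Ω → β) {ηF ηH : ℝ}
    (hF : CH p e z ≤ CH p e z' + ηF) (hH : CH p B (fun ω => (e ω, z ω)) ≤ ηH)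
    (E : Ω → V) {K K' : ℕ} (hK : 1 ≤ K) {c c₁ : ℝ} (hc : 0 ≤ c) (hE : NoCov p E z' K c)
    (hc₁ : 0 < c₁) (G : (Ω × Ω) × (Fin N → Ω × Ω) → Prop)
    (F : (Fin N → ε × β) → ζ' → Finset V)
    (hFm : ∀ w, 0 < PL p S z' sd w → G w →
      E w.1.1 ∈ F (fun r => (e (cp sd r w), B (cp sd r w))) (z' w.1.1) ∧
      (F (fun r => (e (cp sd r w), B (cp sd r w))) (z' w.1.1)).card ≤ K')
    (hn : (N * (ηF + ηH) + Real.log 2) / c₁ + Real.log K' < (1 - c / c₁) * Real.log K) :
    law (PL p S z' sd) G True < c₁ := by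
  have hq := PL_isLaw hp S z' sd
  have h0 := hq.nonneg
  refine Pool.D2P.read_cov hq (fun w => E w.1.1)
    (fun w => fun r => (e (cp sd r w), B (cp sd r w))) (fun w => z' w.1.1) G F K' hc₁ ?_
    (fun hG => ev_of_nocov hq (PL_fst hp S z' sd) E z' hK hc hE hc₁ G hG) hFm hn
  have h1 := pair_budget hp hz' hS sd e B hF hH (fun v => E v.1) (fun v => z' v.1)
  have h2 : CH (PL p S z' sd) (fun w => E w.1.1) (fun w => z' w.1.1) ≤
      CH (PL p S z' sd) (fun w => E w.1.1) (fun w => (z' w.1.1, z w.1.1)) := by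
    refine CH_mono_cond h0 fun w w' a b h => ?_
    simp only [Prod.mk.injEq]
    refine ⟨h, hz' _ _ ?_ ?_ h⟩
    · exact (PL_pos hp S z' sd a).1
    · exact (PL_pos hp S z' sd b).1
  have h3 : CH (PL p S z' sd) (fun w => E w.1.1)
      (fun w => (z' w.1.1, ((fun r => (e (cp sd r w), B (cp sd r w))), z w.1.1))) ≤
      CH (PL p S z' sd) (fun w => E w.1.1)
        (fun w => ((fun r => (e (cp sd r w), B (cp sd r w))), z' w.1.1)) := by
    refine CH_mono_cond h0 fun w w' a b h => ?_
    simp only [Prod.mk.injEq] at h ⊢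
    exact ⟨h.2.1, h.1⟩
  linarith

/-- **The copies are separated**: a copy is not in a small set which depends on the pair and on the
other copies. -/
theorem cop_sep {p : Ω → ℝ} (hp : IsLaw p) (S : Ω → σ) (z' : Ω → ζ') (sd : Fin N → Bool)
    (r : Fin N) (E : Ω → V) {K K' : ℕ} (hK : 1 ≤ K) {c c₁ : ℝ} (hc : 0 ≤ c)
    (hE : NoCov p E z' K c) (hc₁ : 0 < c₁) (G : (Ω × Ω) × (Fin N → Ω × Ω) → Prop)
    (F : (Ω × Ω) × ({j : Fin N // j ≠ r} → Ω) → Finset V)
    (hFm : ∀ w, 0 < PL p S z' sd w → G w →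
      E (cp sd r w) ∈ F (w.1, fun j => cp sd j.1 w) ∧
      (F (w.1, fun j => cp sd j.1 w)).card ≤ K')
    (hn : Real.log 2 / c₁ + Real.log K' < (1 - c / c₁) * Real.log K) :
    law (PL p S z' sd) G True < c₁ := by
  have hq := PL_isLaw hp S z' sd
  have h0 := hq.nonneg
  refine Pool.D2P.read_cov hq (fun w => E (cp sd r w))
    (fun w => (w.1, fun j : {j : Fin N // j ≠ r} => cp sd j.1 w)) (fun w => z' (cp sd r w)) G
    (fun y _ => F y) K' (i := 0) hc₁ ?_
    (fun hG => ev_of_nocov hq (PL_cp hp S z' sd r) E z' hK hc hE hc₁ G hG) hFm (by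
      rw [zero_add]
      exact hn)
  rw [sub_zero]
  have h1 := cop_one hp S z' sd r E
  have h2 : CH (PL p S z' sd) (fun w => E (cp sd r w)) (fun w => z' (cp sd r w)) = CH p E z' :=
    (PL_cp hp S z' sd r).CH E z'
  rw [h2]
  refine h1.trans (CH_mono_cond h0 fun w w' a b h => ?_)
  have e1 := ((PL_pos hp S z' sd a).2.2.2 r).2
  have e2 := ((PL_pos hp S z' sd b).2.2.2 r).2
  simp only [Prod.mk.injEq] at h ⊢
  refine ⟨h, ?_⟩
  rw [← e1, ← e2, h.1]

end

end Pool.D2T
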