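import Pool.Agent.H73.D2.Rdp

/-!
# The step in law form

`step_law`: polynomials `P i` (the charts of the closed balls at several times of one line, in the
coordinates of the tube); the cells of their gradients at the nodes are few bits given `W`, the
weights `μ` are functions of `W`, the parameter `ξ` is nearly full given `W`; on the event the
combinations of the gradients and of the values at `ξ` are small. Then the combination of the `P i`
is small on the whole cube, outside a small part of the event.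
-/

set_option autoImplicit false

namespace Pool.D2G30

open Finset Real
open Pool.Agent.H49.Ent Pool.Agent.H32.Dense Pool.STK
open Pool.BFL (Pb)

section

variable {Ω τ ι : Type} [Fintype Ω] [Fintype ι]

open Classical in
theorem Pb_union {q : Ω → ℝ} (h0 : ∀ ω, 0 ≤ q ω) {κ : Type} [Fintype κ] (A : κ → Ω → Prop)
    (B : Ω → Prop) (h : ∀ ω, 0 < q ω → B ω → ∃ o, A o ω) : Pb q B ≤ ∑ o, Pb q (A o) := by
  unfold Pb
  rw [Finset.sum_comm]
  refine Finset.sum_le_sum fun ω _ => ?_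
  by_cases hb : B ω
  · rw [if_pos hb]
    rcases (h0 ω).eq_or_lt with hz | hz
    · rw [← hz]
      refine Finset.sum_nonneg fun o _ => ?_
      split_ifs
      · exact le_refl _
      · exact le_refl _
    · obtain ⟨o, ho⟩ := h ω hz hb
      calc q ω = if A o ω then q ω else 0 := by rw [if_pos ho]
        _ ≤ _ := Finset.single_le_sum (f := fun o => if A o ω then q ω else 0)
          (fun o _ => by split_ifs; exacts [h0 ω, le_refl _]) (Finset.mem_univ o)
  · rw [if_neg hb]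
    refine Finset.sum_nonneg fun o _ => ?_
    split_ifs
    · exact h0 ω
    · exact le_refl _

/-- The gradient at the nodes. -/
noncomputable def grn (K : ℕ) {d : ℕ} (P : MvPolynomial (Fin d) ℝ)
    (b : (Fin d → Fin (K + 1)) × Fin d) : ℝ :=
  MvPolynomial.eval (nd K b.1) (MvPolynomial.pderiv b.2 P)

/-- **The step, in law form.** -/
theorem step_law {K d k g : ℕ} (hK : 1 ≤ K) (hd : 1 ≤ d) (hg : g ≤ k) {q : Ω → ℝ} (hq : IsLaw q)
    (W : Ω → τ) (ξ : Ω → Fin d → ℕ) (hξ : ∀ ω, 0 < q ω → ∀ i, ξ ω i < 2 ^ k)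
    (P : Ω → ι → MvPolynomial (Fin d) ℝ) (hP : ∀ ω i, (P ω i).totalDegree ≤ K)
    (μ : Ω → ι → ℝ) {σ lam A M e : ℝ} (e' : ι → ℝ) (hM : 0 ≤ M)
    (hμ : ∀ ω, 0 < q ω → ∀ i, |μ ω i| ≤ M)
    (hμW : ∀ ω ω', 0 < q ω → 0 < q ω' → W ω = W ω' → μ ω = μ ω')
    (hfull : d * (k * Real.log 2) - e ≤ CH q ξ W)
    (hcell : ∀ i, CH q (fun ω => cel σ (grn K (P ω i))) W ≤ e' i) (Ev : Ω → Prop)
    (hgr : ∀ ω, 0 < q ω → Ev ω → ∀ o, σ * |∑ i, μ ω i *
      MvPolynomial.eval (pt k (ξ ω)) (MvPolynomial.pderiv o (P ω i))| ≤ lam)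
    (hval : ∀ ω, 0 < q ω → Ev ω →
      σ * |∑ i, μ ω i * MvPolynomial.eval (pt k (ξ ω)) (P ω i)| ≤ lam) (hσ : 0 < σ)
    (hA : (lam + (K + 1) ^ d * lgC K ^ d) * (2 * 2 ^ ((K * g + K + 1) * d)) + 1 ≤ A) :
    Pb q (fun ω => Ev ω ∧ ∃ x : Fin d → ℝ, (∀ i, -1 ≤ x i ∧ x i ≤ 2) ∧
      cbC K d * A < σ * |∑ i, μ ω i * MvPolynomial.eval x (P ω i)|) *
        (g * Real.log 2 - Real.log (d * K)) ≤
      d * (e + (∑ i, e' i + (K + 1) ^ d * d *
        Real.log (2 * (Fintype.card ι * M + 1) + 1)) + Real.log 2) := by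
  classical
  have h0 := hq.nonneg
  have hC := one_le_lgC K
  obtain ⟨R, hR⟩ : ∃ R : ℝ, R = (K + 1) ^ d * d *
    Real.log (2 * (Fintype.card ι * M + 1) + 1) := ⟨_, rfl⟩
  obtain ⟨s, hs⟩ : ∃ s : ℝ, s = g * Real.log 2 - Real.log (d * K) := ⟨_, rfl⟩
  rw [← hR, ← hs]
  have hR0 : 0 ≤ R := by
    rw [hR]
    refine mul_nonneg (by positivity) (Real.log_nonneg ?_)
    have : (0 : ℝ) ≤ Fintype.card ι * M := mul_nonneg (Nat.cast_nonneg _) hM
    linarith
  have hN1 : (1 : ℝ) ≤ (K + 1) ^ d * lgC K ^ d := by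
    have h1 : (1 : ℝ) ≤ (K + 1) ^ d :=
      one_le_pow₀ (by have : (0 : ℝ) ≤ K := Nat.cast_nonneg _; linarith)
    have h2 : (1 : ℝ) ≤ lgC K ^ d := one_le_pow₀ hC
    nlinarith
  have he'0 : 0 ≤ ∑ i, e' i := Finset.sum_nonneg fun i _ => (CH_nonneg h0 _ _).trans (hcell i)
  -- the full variable
  have he0 : 0 ≤ e := by
    have h1 : CH q ξ W ≤ d * (k * Real.log 2) := by
      have h2 := CH_le_card h0 hq.sum_one ξ W (fun _ => gbx d k)
        (fun ω hω => mem_gbx.2 (hξ ω hω))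
      rw [Ex_const hq.sum_one, card_gbx] at h2
      push_cast at h2
      rw [Real.log_pow] at h2
      push_cast at h2
      linarith
    linarith
  have hL2 : 0 ≤ Real.log 2 := Real.log_nonneg (by norm_num)
  have hrhs : 0 ≤ d * (e + (∑ i, e' i + R) + Real.log 2) := by positivity
  -- the trivial case
  have hPb0 : ∀ B : Ω → Prop, 0 ≤ Pb q B := fun B => by
    unfold Pb
    exact Finset.sum_nonneg fun ω _ => by split_ifs; exacts [h0 ω, le_refl _]
  by_cases hs0 : 0 ≤ s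
  swap
  · exact (mul_nonpos_of_nonneg_of_nonpos (hPb0 _) (not_le.1 hs0).le).trans hrhs
  -- the combinations of the gradients
  obtain ⟨G, hG⟩ : ∃ G : Fin d → Ω → (Fin d → Fin (K + 1)) → ℝ, G = fun o ω β =>
    ∑ i, μ ω i * grn K (P ω i) (β, o) := ⟨_, rfl⟩
  have hcG : ∀ o, CH q (fun ω => cel σ (G o ω)) W ≤ ∑ i, e' i + R := by
    intro o
    have h1 := CH_comb hq W (fun ω i => grn K (P ω i)) μ (σ := σ) hM hμ hμW
    have h2 : CH q (fun ω => cel σ (G o ω)) W ≤
        CH q (fun ω => cel σ fun b => ∑ i, μ ω i * grn K (P ω i) b) W := by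
      refine CH_mono_left h0 ?_
      intro ω ω' _ _ h
      simp only [Prod.mk.injEq] at h
      funext β
      rw [hG]
      exact congrFun h.1 (β, o)
    have h3 : ∑ i, CH q (fun ω => cel σ (grn K (P ω i))) W ≤ ∑ i, e' i :=
      Finset.sum_le_sum fun i _ => hcell i
    have e3 : ((Fintype.card ((Fin d → Fin (K + 1)) × Fin d) : ℕ) : ℝ) = (K + 1) ^ d * d := by
      rw [Fintype.card_prod, card_grid, Fintype.card_fin]
      push_cast
      ring
    rw [e3, ← hR] at h1
    linarith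
  have hdeg : ∀ ω i o, (MvPolynomial.pderiv o (P ω i)).totalDegree ≤ K := fun ω i o =>
    (deg_pd _ _).trans (hP ω i)
  have hitp : ∀ o ω x, itp (G o ω) x =
      ∑ i, μ ω i * MvPolynomial.eval x (MvPolynomial.pderiv o (P ω i)) := by
    intro o ω x
    unfold itp
    rw [hG]
    calc ∑ β, ell K β x * ∑ i, μ ω i * grn K (P ω i) (β, o)
        = ∑ β, ∑ i, μ ω i * (ell K β x * grn K (P ω i) (β, o)) := by
          refine Finset.sum_congr rfl fun β _ => ?_
          rw [Finset.mul_sum]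
          exact Finset.sum_congr rfl fun i _ => by ring
      _ = ∑ i, ∑ β, μ ω i * (ell K β x * grn K (P ω i) (β, o)) := Finset.sum_comm
      _ = _ := by
          refine Finset.sum_congr rfl fun i _ => ?_
          rw [← Finset.mul_sum, ell_interp hK _ (hdeg ω i o) x]
          rfl
  have hrd : ∀ o, Pb q (fun ω => Ev ω ∧ ∃ β, A ≤ σ * |G o ω β|) * s ≤
      e + (∑ i, e' i + R) + Real.log 2 := by
    intro o
    rw [hs]
    exact read_grid hK hd hg hq W ξ hξ (G o) hfull (hcG o) Ev (fun ω hω hE => by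
      rw [hitp]
      exact hgr ω hω hE o) hσ hA
  -- the union
  have hun := Pb_union h0 (fun (o : Fin d) ω => Ev ω ∧ ∃ β, A ≤ σ * |G o ω β|)
    (fun ω => Ev ω ∧ ∃ x : Fin d → ℝ, (∀ i, -1 ≤ x i ∧ x i ≤ 2) ∧
      cbC K d * A < σ * |∑ i, μ ω i * MvPolynomial.eval x (P ω i)|) (fun ω hω hb => by
    obtain ⟨hE, x, hx, hbig⟩ := hb
    by_contra hcon
    rw [not_exists] at hcon
    have hsm : ∀ (β : Fin d → Fin (K + 1)) (o : Fin d), |∑ i, μ ω i *
        MvPolynomial.eval (nd K β) (MvPolynomial.pderiv o (P ω i))| ≤ A / σ := by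
      intro β o
      by_contra hc2
      refine hcon o ⟨hE, β, ?_⟩
      rw [not_le, div_lt_iff₀ hσ] at hc2
      rw [hG]
      dsimp only
      rw [mul_comm]
      exact hc2.le
    have hpt := pt_mem (hξ ω hω)
    have hlamA : lam ≤ A := by
      by_cases hl : 0 ≤ lam
      · have h1 : lam ≤ (lam + (K + 1) ^ d * lgC K ^ d) *
            (2 * 2 ^ ((K * g + K + 1) * d)) := by
          have h2 : (1 : ℝ) ≤ 2 * 2 ^ ((K * g + K + 1) * d) := by
            have : (1 : ℝ) ≤ 2 ^ ((K * g + K + 1) * d) := one_le_pow₀ (by norm_num)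
            linarith
          nlinarith
        linarith
      · have h3 := hval ω hω hE
        have h4 : 0 ≤ σ * |∑ i, μ ω i * MvPolynomial.eval (pt k (ξ ω)) (P ω i)| :=
          mul_nonneg hσ.le (abs_nonneg _)
        linarith
    have hv : |∑ i, μ ω i * MvPolynomial.eval (pt k (ξ ω)) (P ω i)| ≤ A / σ := by
      rw [le_div_iff₀ hσ, mul_comm]
      exact (hval ω hω hE).trans hlamA
    have h5 := comb_small hK (P ω) (hP ω) (μ ω) hsm (fun i => by linarith [(hpt i).1])
      (fun i => by linarith [(hpt i).2]) hv (fun i => (hx i).1) (fun i => (hx i).2)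
    have h6 : σ * |∑ i, μ ω i * MvPolynomial.eval x (P ω i)| ≤ cbC K d * A := by
      calc σ * |∑ i, μ ω i * MvPolynomial.eval x (P ω i)| ≤ σ * (cbC K d * (A / σ)) :=
            mul_le_mul_of_nonneg_left h5 hσ.le
        _ = cbC K d * A := by field_simp
    linarith)
  calc _ ≤ (∑ o : Fin d, Pb q (fun ω => Ev ω ∧ ∃ β, A ≤ σ * |G o ω β|)) * s :=
        mul_le_mul_of_nonneg_right hun hs0
    _ = ∑ o : Fin d, Pb q (fun ω => Ev ω ∧ ∃ β, A ≤ σ * |G o ω β|) * s := Finset.sum_mul _ _ _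
    _ ≤ ∑ _o : Fin d, (e + (∑ i, e' i + R) + Real.log 2) :=
        Finset.sum_le_sum fun o _ => hrd o
    _ = _ := by rw [Finset.sum_const, Finset.card_univ, Fintype.card_fin, nsmul_eq_mul]

end

end Pool.D2G30
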