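import Pool.Agent.H73.D2.Tsm
import Pool.Agent.H95.D2.Wts
import Pool.Agent.H98.D2.Tgr

/-!
# The closed polynomials of the balls

`ball_wts`: from the letters, the tube labels to `M` digits, the jets of the centre and the gradients
of the balls: closed polynomials near the values of the charts of the balls at the nodes of the tube,
to `M'` digits.
-/

set_option autoImplicit false

namespace Pool.V1E

open Finset Real
open Pool.Agent.H49.Ent Pool.Agent.H32.Dense Pool.STK Pool.D2A Pool.D2Con Pool.KAF Pool.KVA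
open Pool.BFL (Pb)
open Pool.D2G30 Pool.SLO Pool.D2N
open MvPolynomial (eval pderiv)

theorem lw_wgt (D : ℕ) : Wgt D (D + 1) (lw D) :=
  ⟨fun _ hu _ hP => lw_kill hu hP, fun _ _ ht hinj i => lw_bd ht hinj i⟩

/-- **The closed polynomials.** -/
theorem ball_wts (K d D CM : ℕ) {ε : ℝ} (hε : 0 < ε) : ∃ δ : ℝ, 0 < δ ∧ ∃ Q₀ : ℕ,
    ∀ {Q MB k N₀ M M' : ℕ}, Q₀ ≤ Q → Q ≤ M → M ≤ MB → Q ≤ M' → M' ≤ M + Q → M' ≤ MB →
    ∀ {Ω Λ ζ α ε' κ : Type} [Fintype Ω] {q : Ω → ℝ} {L : Ω → Λ} {T : Ω → ℕ} {Z : Ω → ζ}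
      {a : Ω → α} {E : Ω → ε'} {X : ε' → Fin (d + 1) → ℝ} {Pf : ζ → MvPolynomial (Fin d) ℝ}
      {Pg : ζ → Fin (d + 1) → MvPolynomial (Fin d) ℝ} {c : Λ → κ} {s : Ω → Fin d → ℝ}
      {ξ : Λ → Fin d → ℝ} {n : Λ → Polynomial ℝ} {Θ : Λ → Fin d → Polynomial ℝ}
      {P : Λ → Gr K d → Polynomial ℝ},
    TL K d D CM Q MB k N₀ δ q L T Z a E X Pf Pg c s ξ n Θ →
    Im K d D Q M N₀ δ q L T Z a E Pf c s ξ n P → Jets K d D Q M δ q L Z a E Pf P →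
    GradF K d Q M M' δ q Z a Pf Pg →
    ∃ Pt : Λ → Gr K d → Polynomial ℝ, (∀ l β, (Pt l β).natDegree ≤ D) ∧
      (∀ l β j, |(Pt l β).coeff j| ≤ 2 ^ (ε * Q)) ∧
      Pb q (fun ω => ∃ β, 2 ^ (ε * Q) / 2 ^ M' <
        |vt K Z Pf s ω β - (Pt (L ω) β).eval (uu N₀ T ω)|) ≤ ε := by
  obtain ⟨δ₁, hδ₁, Q₁, hw⟩ := wts D hε
  obtain ⟨δ₂, hδ₂, Q₂, ht⟩ := tup_small K d D CM (D + 1) (lw_wgt D) hδ₁
  obtain ⟨δ₃, hδ₃, Q₃, hg⟩ := tup_grad K d D CM hδ₂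
  have hiC := one_le_iC K d
  obtain ⟨Q₄, hQ₄⟩ := exists_nat_ge (Real.log (iC K d) / (δ₁ / 2 * Real.log 2))
  have hL : 0 < Real.log 2 := Real.log_pos (by norm_num)
  obtain ⟨δ, hδ⟩ : ∃ δ : ℝ, δ = min (min δ₂ δ₃) (min δ₁ (δ₁ / 2)) := ⟨_, rfl⟩
  have hδ0 : 0 < δ := by
    rw [hδ]
    exact lt_min (lt_min hδ₂ hδ₃) (lt_min hδ₁ (by linarith))
  have d2 : δ ≤ δ₂ := by
    rw [hδ]
    exact (min_le_left _ _).trans (min_le_left _ _)
  have d3 : δ ≤ δ₃ := by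
    rw [hδ]
    exact (min_le_left _ _).trans (min_le_right _ _)
  have d1 : δ ≤ δ₁ := by
    rw [hδ]
    exact (min_le_right _ _).trans (min_le_left _ _)
  have d1' : δ ≤ δ₁ / 2 := by
    rw [hδ]
    exact (min_le_right _ _).trans (min_le_right _ _)
  refine ⟨δ, hδ0, max (max Q₁ Q₂) (max Q₃ Q₄), ?_⟩
  intro Q MB k N₀ M M' hQ hQM hMB hQM' hM'1 hM'2 Ω Λ ζ α ε' κ _ q L T Z a E X Pf Pg c s ξ n Θ P
    hT hI hJ hG
  have e1 : Q₁ ≤ Q := ((le_max_left _ _).trans (le_max_left _ _)).trans hQ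
  have e2 : Q₂ ≤ Q := ((le_max_right _ _).trans (le_max_left _ _)).trans hQ
  have e3 : Q₃ ≤ Q := ((le_max_left _ _).trans (le_max_right _ _)).trans hQ
  have e4 : Q₄ ≤ Q := ((le_max_right _ _).trans (le_max_right _ _)).trans hQ
  have hq := hT.law
  have h0 := hq.nonneg
  have hQ0 : (0 : ℝ) ≤ Q := Nat.cast_nonneg Q
  obtain ⟨g1, g2⟩ := hg e3 hQM hMB hQM' hM'1 hM'2 (hT.mono d3) (hI.mono h0 d3)
    (hJ.trans (mul_le_mul_of_nonneg_right d3 hQ0)) (hG.trans (mul_le_mul_of_nonneg_right d3 hQ0))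
  have t1 := ht e2 hQM' hM'2 (hT.mono d2) g1 g2
  refine hw e1 hT.hN hq hT.Tlt ((by
    have := mul_le_mul_of_nonneg_right d1 hQ0
    linarith [hT.Tfull])) ?_ t1
  intro ω hω β
  have h1 := val_small hT.hK (Pf (Z ω)) (hT.dgf _) (ε := 2 ^ (δ * (Q : ℝ))) (hT.bdf ω hω)
    (x := fun i => s ω i + nd K β i)
    (fun i => by
      have h2 := abs_le.1 (hT.s1 ω hω i)
      have h3 := nd_nonneg β i
      linarith [h2.1])
    (fun i => by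
      have h2 := abs_le.1 (hT.s1 ω hω i)
      have h3 := nd_le_one β i
      linarith [h2.2])
  unfold vt
  refine h1.trans ?_
  show iC K d * 2 ^ (δ * (Q : ℝ)) ≤ 2 ^ (δ₁ * (Q : ℝ))
  have h4 : iC K d ≤ 2 ^ (δ₁ / 2 * (Q : ℝ)) := by
    rw [← Real.log_le_log_iff (by linarith) (by positivity), Real.log_rpow (by norm_num)]
    have h5 : Real.log (iC K d) / (δ₁ / 2 * Real.log 2) ≤ Q :=
      hQ₄.trans (by exact_mod_cast e4)
    rw [div_le_iff₀ (by positivity)] at h5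
    linarith
  have h6 : (2 : ℝ) ^ (δ * (Q : ℝ)) ≤ 2 ^ (δ₁ / 2 * (Q : ℝ)) :=
    Real.rpow_le_rpow_of_exponent_le (by norm_num) (mul_le_mul_of_nonneg_right d1' hQ0)
  calc iC K d * 2 ^ (δ * (Q : ℝ)) ≤ 2 ^ (δ₁ / 2 * (Q : ℝ)) * 2 ^ (δ₁ / 2 * (Q : ℝ)) :=
        mul_le_mul h4 h6 (by positivity) (by positivity)
    _ = _ := by
        rw [← Real.rpow_add (by norm_num)]
        congr 1
        ring

end Pool.V1E
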