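import Pool.Agent.H73.D2.Tma
import Pool.Agent.H69.CD.End
import Pool.Agent.H92.D2.Him

/-!
# The hypotheses of the end with the frame and the ball in a chain

`HImF`: the labels of the tubes of the precision of the balls. `NhF`: the velocities are in no
hyperplane of the record. `VfW`: the velocity of the target is dead. All for the windows `WF`: `o 0`
the window of the target, `o 1` deep, `o 2` the frame, `o 3` the ball.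
-/

set_option autoImplicit false

namespace Pool.V1E

open Finset Real MvPolynomial
open Pool.KA Pool.KSAT Pool.PB Pool.GEN Pool.D2R Pool.D2G30 Pool.ISO Pool.CHT Pool.CHX
open Pool.PB.Trl (rt rt_mem t_rt)
open Pool.Agent.H49.Ent Pool.Agent.H32.Dense Pool.STK Pool.K2S Pool.LA91 Pool.OWN68
open Pool.UNJ (ceI)
open Pool.S6C Pool.RCD Pool.D2Con

variable {m : ℕ}

/-- **The labels of the tubes of the precision of the balls** exist on a part of mass at least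
`1 / K₂` of each event with the windows `WF`. -/
def HImF (S : PCl m) (c : ℕ → Fin m) (r D Dr K D' N₂ : ℕ) (C a Eb ε₀ η₀ ζ mb : ℝ)
    (Pt : ℝ → ℝ → ℝ) (o : ℕ → ℝ) (lv be : ℕ → ℕ → ℝ) (κ : ℝ) (qf : ℕ → Fin r → ℕ)
    (δ K₂ : ℝ) : Prop :=
  Bas S (fun J F B => ∀ (b : ℕ → ℕ → ℝ) (z : ℕ → ℕ → ℕ) (gc gT g₀ : ℕ → ℕ → ℕ)
    (G : ℕ → PtT F → ℕ → MvPolynomial (Option (Fin m)) ℝ)
    (H : ℕ → LnT F → ℕ → MvPolynomial (Option (Fin m)) ℝ)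
    (T : ℕ → PtT F → ℕ → MvPolynomial (Option (Fin m)) ℝ)
    (TH : ℕ → LnT F → ℕ → MvPolynomial (Option (Fin m)) ℝ)
    (Gt : ℕ → PtT F → MvPolynomial (Option (Fin m)) ℝ)
    (Ht : ℕ → LnT F → MvPolynomial (Option (Fin m)) ℝ),
    WF c r D Dr N₂ C a Eb ε₀ η₀ ζ mb Pt o lv be F b κ z (qf J) B gc gT g₀ G H T TH Gt Ht →
    ∃ (B₂ : F.Ω → Prop) (V V' : Type) (v : F.Ω → V) (v' : F.Ω → V') (ξ : LnT F → Fin r → ℝ)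
      (np : LnT F → Polynomial ℝ) (Pn : LnT F → Gr K r → Polynomial ℝ), Sub B₂ B ∧
      Pe F.p B ≤ K₂ * Pe F.p B₂ ∧
      ImC K r D' (⌊o 3 * J⌋₊ - ⌊o 0 * J⌋₊) ⌊mb * J⌋₊ (2 ^ (J - ⌊o 0 * J⌋₊)) δ
        (Pool.Agent.H49.Ent.cond F.p B₂ True) (slam F ⌊o 0 * J⌋₊) (twF F ⌊o 0 * J⌋₊)
        (kzF F c (fun l => ⌊lv 0 l * J⌋₊) r ⌊o 0 * J⌋₊ (⌊o 3 * J⌋₊ - ⌊o 0 * J⌋₊) v v' (G 2)
          (fun y => G 0 y r) (fun y => G 3 y r))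
        (Pfz c (fun l => ⌊lv 0 l * J⌋₊) r (⌊o 3 * J⌋₊ - ⌊o 0 * J⌋₊) J D)
        (scF F c (fun l => ⌊lv 0 l * J⌋₊) r ⌊o 0 * J⌋₊ (⌊o 0 * J⌋₊ - ⌊o 2 * J⌋₊)
          (⌊o 3 * J⌋₊ - ⌊o 0 * J⌋₊) (qf J) (G 2) (H 2)) ξ np Pn)

/-- **The velocities are in no hyperplane of the record.** -/
def NhF (S : PCl m) (c : ℕ → Fin m) (r D Dr N₂ : ℕ) (C a Eb ε₀ η₀ ζ mb : ℝ) (Pt : ℝ → ℝ → ℝ)
    (o : ℕ → ℝ) (lv be : ℕ → ℕ → ℝ) (κ : ℝ) (qf : ℕ → Fin r → ℕ) (δ : ℝ) : Prop :=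
  Bas S (fun J F A => ∀ (b : ℕ → ℕ → ℝ) (z : ℕ → ℕ → ℕ) (gc gT g₀ : ℕ → ℕ → ℕ)
    (G : ℕ → PtT F → ℕ → MvPolynomial (Option (Fin m)) ℝ)
    (H : ℕ → LnT F → ℕ → MvPolynomial (Option (Fin m)) ℝ)
    (T : ℕ → PtT F → ℕ → MvPolynomial (Option (Fin m)) ℝ)
    (TH : ℕ → LnT F → ℕ → MvPolynomial (Option (Fin m)) ℝ)
    (Gt : ℕ → PtT F → MvPolynomial (Option (Fin m)) ℝ)
    (Ht : ℕ → LnT F → MvPolynomial (Option (Fin m)) ℝ),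
    WF c r D Dr N₂ C a Eb ε₀ η₀ ζ mb Pt o lv be F b κ z (qf J) A gc gT g₀ G H T TH Gt Ht →
    ∀ (V V' : Type) (v : F.Ω → V) (v' : F.Ω → V'), Cl2 (ptr F J) (vg (o 0) J F) A v →
    Cl2 (ptr F J) (vg (o 3) J F) A v' →
    NoHyp (Pool.Agent.H49.Ent.cond F.p A True) (fun ω => Xe r (qf J)
      (eL c (fun l => ⌊lv 0 l * J⌋₊) r ⌊o 0 * J⌋₊ (qf J)
        (frH F r (⌊o 0 * J⌋₊ - ⌊o 2 * J⌋₊) (H 2) (slam F ⌊o 0 * J⌋₊ ω)) (slam F ⌊o 0 * J⌋₊ ω)))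
      (kzF F c (fun l => ⌊lv 0 l * J⌋₊) r ⌊o 0 * J⌋₊ (⌊o 3 * J⌋₊ - ⌊o 0 * J⌋₊) v v' (G 2)
        (fun y => G 0 y r) (fun y => G 3 y r))
      (2 ^ (-(δ * (⌊o 3 * J⌋₊ - ⌊o 0 * J⌋₊ : ℕ)))) δ)

/-- **The velocity of the target is dead** on a part of mass at least `1 / K₂` of each event with the
windows `WF`, for all almost maximal records `v` of the window `o 0`. `kk`: the precision of the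
positions, `kk ≥ mb`. -/
def VfW (S : PCl m) (c : ℕ → Fin m) (r D Dr N₂ : ℕ) (C a Eb ε₀ η₀ ζ mb kk : ℝ) (Pt : ℝ → ℝ → ℝ)
    (o : ℕ → ℝ) (lv be : ℕ → ℕ → ℝ) (κ : ℝ) (qf : ℕ → Fin r → ℕ) (δ K₂ : ℝ) : Prop :=
  ∃ k₂ : ℝ, 0 < k₂ ∧ Bas S (fun J F B => ∀ (b : ℕ → ℕ → ℝ) (z : ℕ → ℕ → ℕ) (gc gT g₀ : ℕ → ℕ → ℕ)
    (G : ℕ → PtT F → ℕ → MvPolynomial (Option (Fin m)) ℝ)
    (H : ℕ → LnT F → ℕ → MvPolynomial (Option (Fin m)) ℝ)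
    (T : ℕ → PtT F → ℕ → MvPolynomial (Option (Fin m)) ℝ)
    (TH : ℕ → LnT F → ℕ → MvPolynomial (Option (Fin m)) ℝ)
    (Gt : ℕ → PtT F → MvPolynomial (Option (Fin m)) ℝ)
    (Ht : ℕ → LnT F → MvPolynomial (Option (Fin m)) ℝ),
    WF c r D Dr N₂ C a Eb ε₀ η₀ ζ mb Pt o lv be F b κ z (qf J) B gc gT g₀ G H T TH Gt Ht →
    ∃ B₂ : F.Ω → Prop, Sub B₂ B ∧ Pe F.p B ≤ K₂ * Pe F.p B₂ ∧
      ∀ (V : Type) (v : F.Ω → V) (vL : LnT F → V),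
      Mx (fun J F => ptr F J) (vg (o 0)) k₂ F B₂ v →
      (∀ ω, B₂ ω → v ω = vL (slam F ⌊o 0 * J⌋₊ ω)) → (∀ ω ω', v ω = v ω' → F.Z ω = F.Z ω') →
      VelF (⌊o 3 * J⌋₊ - ⌊o 0 * J⌋₊) ⌊mb * J⌋₊ ⌊kk * J⌋₊ (2 ^ (J - ⌊o 0 * J⌋₊)) δ
        (Pool.Agent.H49.Ent.cond F.p B₂ True) (slam F ⌊o 0 * J⌋₊) (twF F ⌊o 0 * J⌋₊)
        (kaF F c (fun l => ⌊lv 0 l * J⌋₊) r ⌊o 0 * J⌋₊ (⌊o 3 * J⌋₊ - ⌊o 0 * J⌋₊) v (G 2)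
          (fun y => G 0 y r))
        (fun ω => eL c (fun l => ⌊lv 0 l * J⌋₊) r ⌊o 0 * J⌋₊ (qf J)
          (frH F r (⌊o 0 * J⌋₊ - ⌊o 2 * J⌋₊) (H 2) (slam F ⌊o 0 * J⌋₊ ω)) (slam F ⌊o 0 * J⌋₊ ω))
        (ctF F c (fun l => ⌊lv 0 l * J⌋₊) r ⌊o 0 * J⌋₊ (⌊o 0 * J⌋₊ - ⌊o 2 * J⌋₊)
          (⌊o 3 * J⌋₊ - ⌊o 0 * J⌋₊) (qf J) (H 2) (fun L => H 0 L r) vL)
        (fun L => xL c (fun l => ⌊lv 0 l * J⌋₊) r ⌊o 0 * J⌋₊ (⌊o 3 * J⌋₊ - ⌊o 0 * J⌋₊)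
          (frH F r (⌊o 0 * J⌋₊ - ⌊o 2 * J⌋₊) (H 2) L) L)
        (fun L => nL c (fun l => ⌊lv 0 l * J⌋₊) r ⌊o 0 * J⌋₊ (H 0 L r) L))

end Pool.V1E
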