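import Pool.Agent.H73.D2.Tlp
import Pool.Agent.H91.D2.Tlc7
import Pool.Agent.H69.CD.End

/-!
# The code of the tube is few bits given velocity and corner; the end on one event

`wd_cfew`: the code of the tube, given the velocity and the record with time and corner. `wd_tl`: the
structure `TL` from `Wdat`, `TlO` and the spanning field. `x10_law`: with a dead velocity, the label
of the target.
-/

set_option autoImplicit false

namespace Pool.V1E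

open Finset Real MvPolynomial
open Pool.KA Pool.KSAT Pool.PB Pool.GEN Pool.D2R Pool.D2G30 Pool.ISO Pool.CHT Pool.CHX
open Pool.PB.Trl (rt rt_mem t_rt)
open Pool.Agent.H49.Ent Pool.Agent.H32.Dense Pool.STK Pool.K2S Pool.END18 Pool.D2Con
open Pool.NLB46 (Lab)
open Pool.LA91 (TlO)

/-- The relative time is a function of the time. -/
theorem rt_congr {m J : ℕ} (F : Fam m J) {w : ℕ} (hw : w ≤ J) {ω ω' : F.Ω} (h : F.T ω = F.T ω') :
    rt F w ω = rt F w ω' := by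
  have h1 := t_rt F hw ω
  have h2 := t_rt F hw ω'
  have h3 : F.t ω = F.t ω' := by
    unfold Fam.t
    rw [h]
  have h4 : (slam F w ω).2.2 = (slam F w ω').2.2 := by
    show F.T1 w ω = F.T1 w ω'
    unfold Fam.T1
    rw [h]
  rw [h3, h2, h4] at h1
  have h5 : (0 : ℝ) < 2 ^ w := by positivity
  field_simp at h1
  linarith

theorem sC_le {r : ℕ} (Q : ℕ) (qe : Fin r → ℕ) (cl e : Fin r → ℤ) (u : ℝ) (k : Fin r → ℤ)
    (i : Fin r) : |sC r Q qe cl e u k i| ≤ 1 := by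
  unfold sC
  rw [abs_le]
  exact ⟨le_max_left _ _, max_le (by norm_num) (min_le_left _ _)⟩

/-- **The code of the tube** is few bits given the velocity, the record, the time and the corner. -/
theorem wd_cfew (D r : ℕ) : ∃ C : ℕ, ∀ {m J : ℕ} {F : Fam m J} {c : ℕ → Fin m}
    {n M ar MB q₀ Q x u p e : ℕ} {s : ℕ → ℕ} {qe : Fin r → ℕ} {o : ℕ → ℕ}
    {z g gc gT g₀ : ℕ → ℕ → ℕ} {A : F.Ω → Prop}
    {G T : ℕ → PtT F → ℕ → MvPolynomial (Option (Fin m)) ℝ}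
    {H TH : ℕ → LnT F → ℕ → MvPolynomial (Option (Fin m)) ℝ}
    {Ht : LnT F → MvPolynomial (Option (Fin m)) ℝ},
    Wdat F c r D n M ar MB q₀ Q x u p e s qe o z g gc gT g₀ A G T H TH Ht →
    C * (u + x + 1) ≤ MB → ∀ {V : Type} {v : F.Ω → V} {vL : LnT F → V},
    (∀ ω, A ω → v ω = vL (slam F (o 1) ω)) → ∀ {q : F.Ω → ℝ}, IsLaw q → (∀ ω, 0 < q ω → A ω) →
    CH q (fun ω => ctF F c s r (o 1) q₀ Q qe (H 0) (fun L => H 1 L r) vL (slam F (o 1) ω))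
      (fun ω => (eL c s r (o 1) qe (frH F r q₀ (H 0) (slam F (o 1) ω)) (slam F (o 1) ω),
        kaF F c s r (o 1) Q v (G 0) (fun y => G 1 y r) ω)) ≤ r * Real.log 13 := by
  obtain ⟨C₁, htu⟩ := W_tube D
  refine ⟨C₁, ?_⟩
  intro m J F c n M ar MB q₀ Q x u p e s qe o z g gc gT g₀ A G T H TH Ht W hMB V v vL hvL q hq hqA
  have h1J : o 1 ≤ J := by have := W.oJ; have := W.o3; have := W.o2; omega
  obtain ⟨N, hN⟩ : ∃ N : F.Ω → Fin r → ℤ, N = fun ω =>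
    cL c s r (o 1) Q (frH F r q₀ (H 0) (slam F (o 1) ω)) (slam F (o 1) ω) 0 := ⟨_, rfl⟩
  -- the code is a function of the cell and of the condition
  have h1 := CH_mono_left hq.nonneg (X' := N) (X := fun ω => ctF F c s r (o 1) q₀ Q qe (H 0)
    (fun L => H 1 L r) vL (slam F (o 1) ω)) (W := fun ω =>
      (eL c s r (o 1) qe (frH F r q₀ (H 0) (slam F (o 1) ω)) (slam F (o 1) ω),
        kaF F c s r (o 1) Q v (G 0) (fun y => G 1 y r) ω)) (by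
    intro ω ω' hω hω' h
    simp only [Prod.mk.injEq] at h
    obtain ⟨hNN, hE, hk⟩ := h
    have k0 : v ω = v ω' := congrArg (fun y => y.1.1) hk
    have k1 : trn r (G 0 (ptr F J ω)) = trn r (G 0 (ptr F J ω')) :=
      congrArg (fun y => y.1.2.1) hk
    have k2 : G 1 (ptr F J ω) r = G 1 (ptr F J ω') r := congrArg (fun y => y.1.2.2) hk
    have k3 : F.T ω = F.T ω' := congrArg (fun y => y.2.1) hk
    have k4 : (slam F (o 1) ω).2.2 = (slam F (o 1) ω').2.2 := by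
      show F.T1 (o 1) ω = F.T1 (o 1) ω'
      unfold Fam.T1
      rw [k3]
    have k5 : frH F r q₀ (H 0) (slam F (o 1) ω) = frH F r q₀ (H 0) (slam F (o 1) ω') := by
      rw [W.fr (hqA ω hω), W.fr (hqA ω' hω'), k1]
    have k6 : H 1 (slam F (o 1) ω) r = H 1 (slam F (o 1) ω') r := by
      rw [← W.cl1 ω (hqA ω hω), ← W.cl1 ω' (hqA ω' hω'), k2]
    have k7 : vL (slam F (o 1) ω) = vL (slam F (o 1) ω') := by
      rw [← hvL ω (hqA ω hω), ← hvL ω' (hqA ω' hω'), k0]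
    have k8 : cL c s r (o 1) Q (frH F r q₀ (H 0) (slam F (o 1) ω)) (slam F (o 1) ω) 0 =
        cL c s r (o 1) Q (frH F r q₀ (H 0) (slam F (o 1) ω')) (slam F (o 1) ω') 0 := by
      rw [hN] at hNN
      exact hNN
    show ctF F c s r (o 1) q₀ Q qe (H 0) (fun L => H 1 L r) vL (slam F (o 1) ω) =
      ctF F c s r (o 1) q₀ Q qe (H 0) (fun L => H 1 L r) vL (slam F (o 1) ω')
    unfold ctF
    beta_reduce
    rw [k7, k6, k4, hE, k8, k5])
  refine h1.trans ?_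
  have h2 := CH_le_vec hq.nonneg hq.sum_one N (fun ω =>
      (eL c s r (o 1) qe (frH F r q₀ (H 0) (slam F (o 1) ω)) (slam F (o 1) ω),
        kaF F c s r (o 1) Q v (G 0) (fun y => G 1 y r) ω)) (fun _ => 6) (by
    intro ω ω' hω hω' h i
    simp only [Prod.mk.injEq] at h
    obtain ⟨hE, hk⟩ := h
    have k3 : F.T ω = F.T ω' := congrArg (fun y => y.2.1) hk
    have k4 : crF F c s r (o 1) Q (G 0) ω = crF F c s r (o 1) Q (G 0) ω' :=
      congrArg (fun y => y.2.2) hk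
    have k5 := rt_congr F h1J k3
    have hb : (2 : ℝ) ^ (C₁ * (u + x + 1)) / 2 ^ MB ≤ 1 := by
      rw [div_le_one (by positivity)]
      exact pow_le_pow_right₀ (by norm_num) hMB
    have e1 := abs_le.1 (((htu W ω (hqA ω hω) i).2).trans hb)
    have e2 := abs_le.1 (((htu W ω' (hqA ω' hω') i).2).trans hb)
    have hs1 : |scF F c s r (o 1) q₀ Q qe (G 0) (H 0) ω i| ≤ 1 := by
      unfold scF
      exact sC_le _ _ _ _ _ _ _
    have hs2 : |scF F c s r (o 1) q₀ Q qe (G 0) (H 0) ω' i| ≤ 1 := by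
      unfold scF
      exact sC_le _ _ _ _ _ _ _
    rw [← hE, ← k4, ← k5] at e2
    have a1 := abs_le.1 hs1
    have a2 := abs_le.1 hs2
    rw [hN]
    push_cast
    rw [abs_le]
    constructor <;> linarith [e1.1, e1.2, e2.1, e2.2, a1.1, a1.2, a2.1, a2.2])
  refine h2.trans (le_of_eq ?_)
  rw [Ex_const hq.sum_one]
  norm_num

/-- **`TL` from `Wdat`, `TlO` and the spanning field.** -/
theorem wd_tl (D r K D' CM : ℕ) (hr : 1 ≤ r) (hK : 1 ≤ K) (hDK : D * (D + 1) ^ r ≤ K)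
    (hD1 : K * (D + 1) ≤ D') (hD2 : D + 1 ≤ D') : ∃ C : ℕ, ∀ {m J : ℕ} {F : Fam m J} {c : ℕ → Fin m}
    {n M ar MB q₀ Q x u p e : ℕ} {s : ℕ → ℕ} {qe : Fin r → ℕ} {o : ℕ → ℕ}
    {z g gc gT g₀ : ℕ → ℕ → ℕ} {A : F.Ω → Prop}
    {G T : ℕ → PtT F → ℕ → MvPolynomial (Option (Fin m)) ℝ}
    {H TH : ℕ → LnT F → ℕ → MvPolynomial (Option (Fin m)) ℝ}
    {Ht : LnT F → MvPolynomial (Option (Fin m)) ℝ} {V V' : Type} {v : F.Ω → V} {v' : F.Ω → V'}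
    {vL : LnT F → V} {k : ℕ} {δ : ℝ} {q : F.Ω → ℝ},
    Wdat F c r D n M ar MB q₀ Q x u p e s qe o z g gc gT g₀ A G T H TH Ht →
    IsLaw q → (∀ ω, 0 < q ω → A ω) → 0 ≤ δ → (C : ℝ) * (u + x + 1) ≤ δ * Q → MB ≤ CM * Q →
    MB ≤ k → o 1 + Q ≤ J →
    TlO F q c s r (o 0) (o 1) Q k qe v vL v' (G 0) (fun y => G 1 y r) (fun y => G 2 y r) (H 0)
      (fun L => H 1 L r) (δ * Q) →
    NoHyp q (fun ω => Xe r qe (eL c s r (o 1) qe (frH F r q₀ (H 0) (slam F (o 1) ω))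
      (slam F (o 1) ω))) (kzF F c s r (o 1) Q v v' (G 0) (fun y => G 1 y r) (fun y => G 2 y r))
      (2 ^ (-(δ * Q))) δ →
    TL K r D' CM Q MB k (2 ^ (J - o 1)) δ q (slam F (o 1)) (twF F (o 1))
      (kzF F c s r (o 1) Q v v' (G 0) (fun y => G 1 y r) (fun y => G 2 y r))
      (kaF F c s r (o 1) Q v (G 0) (fun y => G 1 y r))
      (fun ω => eL c s r (o 1) qe (frH F r q₀ (H 0) (slam F (o 1) ω)) (slam F (o 1) ω))
      (Xe r qe) (Pfz c s r Q J D) (Pgz c s r (o 1) Q J D)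
      (ctF F c s r (o 1) q₀ Q qe (H 0) (fun L => H 1 L r) vL)
      (scF F c s r (o 1) q₀ Q qe (G 0) (H 0))
      (fun L => xL c s r (o 1) Q (frH F r q₀ (H 0) L) L)
      (fun L => nL c s r (o 1) (H 1 L r) L)
      (fun L => gL c s r (o 1) (frH F r q₀ (H 0) L) (Ht L - H 1 L r) L) := by
  obtain ⟨C, htl⟩ := tl_det D r K hK hDK
  refine ⟨C, ?_⟩
  intro m J F c n M ar MB q₀ Q x u p e s qe o z g gc gT g₀ A G T H TH Ht V V' v v' vL k δ q W hq hqA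
    hδ hC hMB hk hJQ hO hnh
  have hq0 : o 1 - o 0 = q₀ := by have := W.o1; omega
  have hfr := hO.fr
  have hT := hO.Tfull
  have haf := hO.afew
  have hfu := hO.full
  rw [hq0] at hfr haf hfu
  refine (htl W v v' vL D' hD1 hD2).toTL hq hqA ?_ hδ hK hr W.QM hMB hk
    (Nat.pow_le_pow_right (by norm_num) (by omega)) hT hnh hfr haf hfu
  rw [← Real.rpow_natCast]
  refine Real.rpow_le_rpow_of_exponent_le (by norm_num) ?_
  push_cast
  exact hC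

/-- **The end on one event**: entropy fields, spanning, dead velocity ⟹ a label of the target. -/
theorem x10_law (D r K D' CM : ℕ) (hr : 1 ≤ r) (hD : 1 ≤ D) (hK : 1 ≤ K)
    (hDK : D * (D + 1) ^ r ≤ K) (hD1 : K * (D + 1) ≤ D') (hD2 : D + 1 ≤ D') {ε : ℝ} (hε : 0 < ε) :
    ∃ C₀ C₁ : ℕ, ∃ δ : ℝ, 0 < δ ∧ δ ≤ ε ∧ ∃ Q₀ : ℕ, ∀ {m J : ℕ} {F : Fam m J} {c : ℕ → Fin m}
    {n M ar MB q₀ Q x u p e : ℕ} {s : ℕ → ℕ} {qe : Fin r → ℕ} {o : ℕ → ℕ}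
    {z g gc gT g₀ : ℕ → ℕ → ℕ} {A : F.Ω → Prop}
    {G T : ℕ → PtT F → ℕ → MvPolynomial (Option (Fin m)) ℝ}
    {H TH : ℕ → LnT F → ℕ → MvPolynomial (Option (Fin m)) ℝ}
    {Ht : LnT F → MvPolynomial (Option (Fin m)) ℝ}
    {V V' : Type} {v : F.Ω → V} {v' : F.Ω → V'} {vL : LnT F → V} {k e' p' : ℕ},
    Wdat F c r D n M ar MB q₀ Q x u p e s qe o z g gc gT g₀ A G T H TH Ht → Q₀ ≤ Q →
    (C₁ : ℝ) * (u + x + 1) ≤ δ * Q → MB ≤ CM * Q → MB ≤ k → o 1 + 2 * Q ≤ J → 0 < Pe F.p A →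
    (∀ ω, A ω → v ω = vL (slam F (o 1) ω)) →
    TlO F (Pool.Agent.H49.Ent.cond F.p A True) c s r (o 0) (o 1) Q k qe v vL v' (G 0)
      (fun y => G 1 y r) (fun y => G 2 y r) (H 0) (fun L => H 1 L r) (δ * Q) →
    NoHyp (Pool.Agent.H49.Ent.cond F.p A True) (fun ω => Xe r qe
      (eL c s r (o 1) qe (frH F r q₀ (H 0) (slam F (o 1) ω)) (slam F (o 1) ω)))
      (kzF F c s r (o 1) Q v v' (G 0) (fun y => G 1 y r) (fun y => G 2 y r))
      (2 ^ (-(δ * Q))) δ →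
    VelF Q MB k (2 ^ (J - o 1)) δ (Pool.Agent.H49.Ent.cond F.p A True) (slam F (o 1))
      (twF F (o 1)) (kaF F c s r (o 1) Q v (G 0) (fun y => G 1 y r))
      (fun ω => eL c s r (o 1) qe (frH F r q₀ (H 0) (slam F (o 1) ω)) (slam F (o 1) ω))
      (ctF F c s r (o 1) q₀ Q qe (H 0) (fun L => H 1 L r) vL)
      (fun L => xL c s r (o 1) Q (frH F r q₀ (H 0) L) L)
      (fun L => nL c s r (o 1) (H 1 L r) L) →
    (J : ℝ) * Real.log 2 - δ * Q ≤ CH (Pool.Agent.H49.Ent.cond F.p A True) F.T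
      (fun ω => (F.l ω, F.Z ω)) →
    p' ≤ g₀ 2 r → e + C₁ * (u + x + 1) + (g₀ 2 r - g₀ 1 r) + 1 ≤ e' →
    (p' : ℝ) + (2 * x * K * r + C₀ : ℕ) + ε * Q ≤ s r + MB →
    ((e + C₁ * (u + x + 1) + (g₀ 2 r - g₀ 1 r) : ℕ) : ℝ) + p' + (2 * x * K * r + C₀ : ℕ) + ε * Q ≤
      e' + s r →
    ∃ (B : F.Ω → Prop) (Ht' : LnT F → MvPolynomial (Option (Fin m)) ℝ), Sub B A ∧
      Pe F.p A ≤ 2 * Pe F.p B ∧
      ChOK F c r (fun _ => D) (o 1 + Q + 1) (o 1) e' (fun l => g 0 l + (o 2 - o 0)) B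
        (Gf F c (G 0)) (fun L l => Hf F c (H 0) (co q₀ L) l) ∧
      Lab F c r (D + r * (K * D) + D') (o 1 + Q + 1) (o 1) e' p' (fun l => g 0 l + (o 2 - o 0))
        (Gf F c (G 0)) B (fun y => G 2 y r) Ht' := by
  obtain ⟨C₀, C₁, δ₁, δ₁0, δ₁ε, Q₁, hend⟩ := wd_end D r K D' hr hD hK hDK hD1 hD2 hε
  obtain ⟨δ₂, δ₂0, δ₂₁, Q₂, hvel⟩ := vel_end K r D' CM δ₁0
  obtain ⟨C₂, htl⟩ := wd_tl D r K D' CM hr hK hDK hD1 hD2
  obtain ⟨C₃, hcf⟩ := wd_cfew D r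
  obtain ⟨Q₃, hQ₃⟩ := exists_nat_ge (r * Real.log 13 / δ₂)
  refine ⟨C₀, C₁ + C₂ + C₃, min δ₂ 1, lt_min δ₂0 one_pos, (min_le_left _ _).trans (δ₂₁.trans δ₁ε),
    max Q₁ (max Q₂ Q₃), ?_⟩
  intro m J F c n M ar MB q₀ Q x u p e s qe o z g gc gT g₀ A G T H TH Ht V V' v v' vL k e' p' W
    hQ hC hMB hk hJQ hA hvL hO hnh hv htf hp' he' h1 h2
  have hQ0 : (0 : ℝ) ≤ Q := Nat.cast_nonneg Q
  have q1 : Q₁ ≤ Q := (le_max_left _ _).trans hQ
  have q2 : Q₂ ≤ Q := ((le_max_left _ _).trans (le_max_right _ _)).trans hQ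
  have q3 : Q₃ ≤ Q := ((le_max_right _ _).trans (le_max_right _ _)).trans hQ
  have hδ2 : min δ₂ 1 * Q ≤ δ₂ * Q := mul_le_mul_of_nonneg_right (min_le_left _ _) hQ0
  have hδ1 : min δ₂ 1 * Q ≤ δ₁ * Q := hδ2.trans (mul_le_mul_of_nonneg_right δ₂₁ hQ0)
  have hδQ : min δ₂ 1 * (Q : ℝ) ≤ Q := by
    have := mul_le_mul_of_nonneg_right (min_le_right δ₂ 1) hQ0
    linarith
  have hN : (0 : ℝ) ≤ (u : ℝ) + x + 1 := by positivity
  have hCN : ∀ {k : ℕ}, k ≤ C₁ + C₂ + C₃ → (k : ℝ) * ((u : ℝ) + x + 1) ≤ min δ₂ 1 * Q := by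
    intro k hk
    have h3 : (k : ℝ) ≤ ((C₁ + C₂ + C₃ : ℕ) : ℝ) := by exact_mod_cast hk
    exact (mul_le_mul_of_nonneg_right h3 hN).trans hC
  have hMBC : C₃ * (u + x + 1) ≤ MB := by
    have h3 : ((C₃ * (u + x + 1) : ℕ) : ℝ) ≤ Q := by
      push_cast
      exact (hCN (k := C₃) (by omega)).trans hδQ
    exact (by exact_mod_cast h3 : C₃ * (u + x + 1) ≤ Q).trans W.QM
  have hql : IsLaw (Pool.Agent.H49.Ent.cond F.p A True) := isLaw_cond F.isLaw hA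
  have hqA : ∀ ω, 0 < Pool.Agent.H49.Ent.cond F.p A True ω → A ω := fun ω hω =>
    of_eq_true ((cond_pos_iff F.isLaw.nonneg A True ω).1 hω).2
  have ht := htl W hql hqA (lt_min δ₂0 one_pos).le (hCN (k := C₂) (by omega)) hMB hk (by omega)
    hO hnh
  have hcfew := (hcf W hMBC hvL hql hqA).trans (show (r : ℝ) * Real.log 13 ≤ δ₂ * Q by
    rw [div_le_iff₀ δ₂0] at hQ₃
    have h3 : (Q₃ : ℝ) ≤ Q := by exact_mod_cast q3
    nlinarith)
  obtain ⟨Pt, hIm⟩ := hvel q2 (ht.mono (min_le_left _ _)) hcfew (le_trans hv hδ2)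
  have hk1 : C₁ * (u + x + 1) ≤ (C₁ + C₂ + C₃) * (u + x + 1) :=
    Nat.mul_le_mul_right _ (by omega)
  obtain ⟨B, hB1, hB2, hB3, hB4⟩ := hend (e' := e') (p' := p') W q1 ((hCN (k := C₁) (by omega)).trans hδ1) hJQ hA hIm
    (by linarith) hp' (by omega) h1 (by
      refine le_trans ?_ h2
      have h3 : ((e + C₁ * (u + x + 1) + (g₀ 2 r - g₀ 1 r) : ℕ) : ℝ) ≤
        ((e + (C₁ + C₂ + C₃) * (u + x + 1) + (g₀ 2 r - g₀ 1 r) : ℕ) : ℝ) := by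
        exact_mod_cast (by omega : e + C₁ * (u + x + 1) + (g₀ 2 r - g₀ 1 r) ≤
          e + (C₁ + C₂ + C₃) * (u + x + 1) + (g₀ 2 r - g₀ 1 r))
      linarith)
  exact ⟨B, _, hB1, hB2, hB3, hB4⟩

end Pool.V1E
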