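import Pool.Agent.H73.D2.Tmb
import Pool.Agent.H73.D2.Tlv

/-!
# The end in a class, the frame and the ball in a chain

`x10f_con`: as `x10_con`, for the windows `WF` and the labels of the tubes `HImF`.
-/

set_option autoImplicit false

namespace Pool.V1E

open Finset Real MvPolynomial
open Pool.Agent.H49.Ent Pool.Agent.H32.Dense Pool.STK Pool.KA Pool.KSAT Pool.K2S Pool.PB Pool.S6C
open Pool.GEN Pool.CHT Pool.CHX Pool.ISO Pool.D2R Pool.D2G30 Pool.END18 Pool.D2Con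
open Pool.LBT (ThrOf)
open Pool.LEV (Law)
open Pool.NLB46 (Lab lab_no)

variable {m : ℕ}

/-- **The end, in a class**, the frame and the ball in a chain. -/
theorem x10f_con (m r S₀ : ℕ) (hr : 1 ≤ r) (hS₀ : 1 ≤ S₀) : ∃ D : ℕ, 1 ≤ D ∧ ∀ Dr : ℕ, D ≤ Dr →
    ∃ (K D' : ℕ) (C : ℝ), 1 ≤ K ∧ 1 ≤ C ∧ D * (D + 1) ^ r ≤ K ∧ K * (D + 1) ≤ D' ∧
    D + 1 ≤ D' ∧ ∀ ε : ℝ, 0 < ε → ε ≤ 1 / 2 → ∃ δ C' : ℝ, 0 < δ ∧ δ ≤ 1 / 4 ∧ 1 ≤ C' ∧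
    ∀ {S : PCl m} {P P₂ : List (Fin m) × Fin m → ℝ → ℝ → ℝ} {θ θ₂ : ℝ} {c : ℕ → Fin m}
    {Pt : ℝ → ℝ → ℝ} {a Eb ε₀ η₀ mb ζ h e₂ κ K₂ : ℝ} {o : ℕ → ℝ} {a₂ w₂ : ℚ}
    {qf : ℕ → Fin r → ℕ} (N₂ : ℕ), 3 ≤ N₂ → S.Ne → ThrOf (chsys m θ) S P →
    ThrOf (chsys m θ₂) S P₂ → 0 < θ → TmH S → Set.InjOn c (Set.Iio (r + 1)) → Law Pt → 0 ≤ Eb →
    (∀ k ≤ 1, WinD S P θ c r Pt a (o k) S₀ Eb ε₀ (fun _ => True)) →
    (∀ k, 1 < k → k ≤ N₂ → BalD S P θ c r Pt a (o k) S₀ Eb) → C * ε₀ < η₀ →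
    (∀ k ≤ 1, 3 * (C * η₀) ≤ o k ∧ 3 * (C * η₀) ≤ Pt a (o k) ∧
      3 * (C * η₀) ≤ lvN P c r Pt r (o k) (o k)) → (∀ k ≤ N₂, o k + 4 * (C * η₀) ≤ a) → a ≤ 1 →
    (∀ k ≤ 1, ∀ l ≤ r, lvN P c r Pt l (o k) (o k) + (a - o k) + (Eb + 2 * η₀) < 1) →
    (∀ k ≤ 1, ∀ l < r, bet P c l a (o k) + (Eb + 2 * η₀) < 1) →
    mb + (o 3 - o 0) < o 0 - o 2 → o 3 - o 0 < mb → η₀ ≤ o 1 - o 3 → 0 ≤ ζ →
    (∀ k ≤ 3, ∀ j < r, |lvN P c r Pt j (o k) (o k) - o k -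
      (lvN P c r Pt j (o 0) (o 0) - o 0)| ≤ ζ) →
    |lvN P c r Pt r (o 3) (o 3) - lvN P c r Pt r (o 0) (o 0) - mb| ≤ ζ →
    lvN P c r Pt r (o 0) (o 0) + (o 1 - o 0) + (mb - (o 3 - o 0)) ≤
      lvN P c r Pt r (o 1) (o 1) + ζ →
    lvN P c r Pt r (o 0) (o 0) + (a - o 0) + (mb - (o 3 - o 0)) ≤ Pt a (o 0) + ζ →
    C' * (ζ + η₀) < δ * (o 3 - o 0) → o 0 ≤ w₂ → o 3 < a₂ → w₂ ≤ a₂ → a₂ ≤ 1 → e₂ < θ₂ * w₂ →
    0 < h → bet P₂ c r a₂ w₂ + h ≤ 1 → Eb + 2 * mb + C' * (ζ + η₀) ≤ e₂ →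
    (∀ l < r, lvN P c r Pt l (o 0) (o 0) + (o 3 - o 0) + C' * (ζ + η₀) ≤ 1) →
    lvN P c r Pt r (o 0) (o 0) + mb ≤ 1 → o 0 + 2 * (o 3 - o 0) + η₀ ≤ 1 →
    bet P₂ c r a₂ w₂ + h + o 3 + ε * (o 3 - o 0) + C' * (ζ + η₀) ≤
      lvN P c r Pt r (o 0) (o 0) + mb + a₂ →
    (∀ (J : ℕ) (i : Fin r), ⌊mb * J⌋₊ + (⌊o 3 * J⌋₊ - ⌊o 0 * J⌋₊) ≤ qf J i) → 0 < κ → 0 ≤ K₂ →
    ¬ HImF S c r D Dr K D' N₂ C a Eb ε₀ η₀ ζ mb Pt o (fun k l => lvN P c r Pt l (o k) (o k))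
      (fun k l => bet P c l a (o k)) κ qf δ K₂ := by
  obtain ⟨D, hD, hwin⟩ := wf_con m r S₀ hr hS₀
  refine ⟨D, hD, fun Dr hDr => ?_⟩
  obtain ⟨C, hC, hwin⟩ := hwin Dr hDr
  obtain ⟨K, hK⟩ : ∃ K, K = D * (D + 1) ^ r := ⟨_, rfl⟩
  have hK1 : 1 ≤ K := by
    rw [hK]
    exact Nat.one_le_iff_ne_zero.2 (Nat.mul_ne_zero (by omega) (pow_ne_zero _ (by omega)))
  obtain ⟨D', hD'⟩ : ∃ D', D' = K * (D + 1) := ⟨_, rfl⟩
  have hD2 : D + 1 ≤ D' := by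
    rw [hD']
    exact Nat.le_mul_of_pos_left _ hK1
  refine ⟨K, D', C, hK1, hC, hK.ge, hD'.ge, hD2, fun ε hε hε2 => ?_⟩
  obtain ⟨C₀, C₁, δ₀, δ₀0, δ₀ε, Q₀, hend⟩ := wd_end D r K D' hr hD hK1 hK.ge hD'.ge hD2 hε
  obtain ⟨δ, hδ⟩ : ∃ δ : ℝ, δ = min δ₀ (1 / 4) := ⟨_, rfl⟩
  have δ0 : 0 < δ := by rw [hδ]; exact lt_min δ₀0 (by norm_num)
  have δ4 : δ ≤ 1 / 4 := by rw [hδ]; exact min_le_right _ _
  have δδ₀ : δ ≤ δ₀ := by rw [hδ]; exact min_le_left _ _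
  obtain ⟨C', hC'⟩ : ∃ C' : ℝ, C' = 8 * C * (C₁ + 2 * (K * r) + 4) + 8 := ⟨_, rfl⟩
  have hC₁0 : (0 : ℝ) ≤ C₁ := Nat.cast_nonneg _
  have hKr0 : (0 : ℝ) ≤ K * r := by positivity
  have hC'1 : 1 ≤ C' := by
    rw [hC']
    have : 0 ≤ 8 * C * (C₁ + 2 * (K * r) + 4) := by positivity
    linarith
  refine ⟨δ, C', δ0, δ4, hC'1, ?_⟩
  intro S P P₂ θ θ₂ c Pt a Eb ε₀ η₀ mb ζ h e₂ κ K₂ o a₂ w₂ qf N₂ hN hne hP hP₂ hθ hS hinj hPt hEb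
    hW hWb hεη h3o hoa ha1 htop hbet h01 h12 h23 hζ hn h2 h3 hPa hsm h1w h2a hwa ha₂ he₂ hh hb2 hE
    hrm hrm' h1J hlab hqf hκ hK₂ hIm
  have hε₀ : 0 ≤ ε₀ := (hW 0 (by norm_num)).ε0
  have hη0 : 0 < η₀ := lt_of_le_of_lt (mul_nonneg (by linarith) hε₀) hεη
  have hCη : η₀ ≤ C * η₀ := le_mul_of_one_le_left hη0.le hC
  have ho0' : ∀ k ≤ 3, 0 < o k := fun k hk => by
    rcases Nat.lt_or_ge 1 k with h | h
    · obtain ⟨ρ, vs, e, e₀, E, sg, Q, d1, -⟩ := (hWb k h (by omega)).dw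
      exact d1.w0
    · obtain ⟨ρ, vs, e, e₀, E, sg, Q, d1, -⟩ := (hW k h).dw
      exact d1.w0
  have hoa0 := hoa 0 (by omega)
  have hoa1 := hoa 1 (by omega)
  have hoa2 := hoa 2 (by omega)
  have hoa3 := hoa 3 (by omega)
  obtain ⟨X, hX⟩ : ∃ X : ℝ, X = ζ + η₀ := ⟨_, rfl⟩
  have hX0 : 0 < X := by rw [hX]; linarith
  have hηX : η₀ ≤ X := by rw [hX]; linarith
  have hζX : ζ ≤ X := by rw [hX]; linarith
  have hCX : X ≤ C * X := le_mul_of_one_le_left hX0.le hC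
  have hCηX : C * η₀ ≤ C * X := mul_le_mul_of_nonneg_left hηX (by linarith)
  rw [← hX] at hsm hE hlab
  simp only [← hX] at hrm
  have hQ12 : 0 < o 3 - o 0 := by
    by_contra hcon
    push Not at hcon
    have h4 : δ * (o 3 - o 0) ≤ 0 := mul_nonpos_of_nonneg_of_nonpos δ0.le hcon
    have h5 : 0 < C' * X := by positivity
    linarith
  have hδQ4 : δ * (o 3 - o 0) ≤ (o 3 - o 0) / 4 := by
    have h4 := mul_le_mul_of_nonneg_right δ4 hQ12.le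
    linarith
  have hη12 : η₀ ≤ o 3 - o 0 := by
    have h4 : η₀ ≤ C' * X := hηX.trans (le_mul_of_one_le_left hX0.le hC'1)
    linarith
  obtain ⟨K₁, b, hK₁, hwin⟩ := hwin N₂ hN hP hθ hS hinj hPt hEb hW hWb hεη h3o hoa ha1 htop hbet
    h01 h12 hη12 h23 hζ hn h2 h3 hPa hqf
  obtain ⟨lv, hlv⟩ : ∃ lv : ℕ → ℕ → ℝ, lv = fun k l => lvN P c r Pt l (o k) (o k) := ⟨_, rfl⟩
  have hlve : ∀ k l, lvN P c r Pt l (o k) (o k) = lv k l := fun k l => by rw [hlv]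
  simp only [hlve] at h3o htop hn h2 h3 hPa hrm hrm' hlab
  have h2' := abs_le.1 h2
  -- the constants
  have hC'X : C' * X = 8 * C * C₁ * X + 16 * (K * r) * (C * X) + 32 * (C * X) + 8 * X := by
    rw [hC']
    ring
  have hC'a : 8 * C * C₁ * X + 16 * (K * r) * (C * X) + 32 * (C * X) ≤ C' * X := by
    linarith
  have hKrX : 0 ≤ 16 * (K * r) * (C * X) := by positivity
  have hC₁X : 0 ≤ 8 * C * C₁ * X := by positivity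
  -- the events
  have hw₂0 : (0 : ℝ) ≤ w₂ := le_trans (ho0' 0 (by norm_num)).le h1w
  have hdq : 0 < δ * (o 3 - o 0) / 2 := by positivity
  obtain ⟨δl, hδl, hln⟩ := lab_no hP₂ c r (D + r * (K * D) + D') a₂ w₂ e₂ h
    (by exact_mod_cast hw₂0) hwa ha₂ he₂ hh hb2
  obtain ⟨τ, hτ, J₁, hall⟩ := ((hwin κ hκ).and (bas_big hIm K₁)).and
    ((bas_big (tmh_cond hS hdq) (K₁ * K₂)).and (bas_big hln (K₁ * K₂)))
  obtain ⟨W₀, hW₀⟩ : ∃ W₀ : ℝ, W₀ = 22 * C₁ + 40 * (K * r) + C₀ + Q₀ + 100 := ⟨_, rfl⟩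
  have big : ∀ {x y : ℝ}, 0 < x → ∃ J₀ : ℕ, ∀ J : ℕ, J₀ ≤ J → y ≤ x * J := by
    intro x y hx
    refine ⟨⌈y / x⌉₊, fun J hJ => ?_⟩
    have h1 : y / x ≤ J := (Nat.le_ceil _).trans (by exact_mod_cast hJ)
    rw [div_le_iff₀ hx] at h1
    linarith
  obtain ⟨J₂, hJ₂⟩ := big (x := η₀) (y := W₀) hη0
  obtain ⟨J₃, hJ₃⟩ := big (x := (a₂ : ℝ) - o 3) (y := 2) (by linarith)
  obtain ⟨J₄, hJ₄⟩ := big (x := δl) (y := Real.log 2) hδl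
  obtain ⟨J, hJ, F, A, hA⟩ := hne τ hτ (max J₁ (max J₂ (max J₃ J₄)))
  obtain ⟨⟨w1, w2⟩, w3, w4⟩ := hall J ((le_max_left _ _).trans hJ) F A hA
  have j2 := hJ₂ J ((le_max_left _ _).trans ((le_max_right _ _).trans hJ))
  have j3 := hJ₃ J ((le_max_left _ _).trans ((le_max_right _ _).trans ((le_max_right _ _).trans hJ)))
  have j4 := hJ₄ J ((le_max_right _ _).trans ((le_max_right _ _).trans ((le_max_right _ _).trans hJ)))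
  have hJ0 : (0 : ℝ) ≤ J := Nat.cast_nonneg J
  have mulJ : ∀ {x y : ℝ}, x ≤ y → x * J ≤ y * J := fun h => mul_le_mul_of_nonneg_right h hJ0
  have hC₀0 : (0 : ℝ) ≤ C₀ := Nat.cast_nonneg _
  have hQ₀0 : (0 : ℝ) ≤ Q₀ := Nat.cast_nonneg _
  have ho0 : ∀ k ≤ 3, 0 ≤ o k * J := fun k hk =>
    mul_nonneg (ho0' k hk).le hJ0
  have fo := fun k hk => flo (ho0 k hk)
  have f0 := fo 2 (by norm_num)
  have f1 := fo 0 (by norm_num)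
  have f2 := fo 3 (by norm_num)
  have f3 := fo 1 (by norm_num)
  have fa := flo (mul_nonneg (by linarith [ho0' 0 (by norm_num)] : (0 : ℝ) ≤ a) hJ0)
  have l01 : ⌊o 2 * J⌋₊ ≤ ⌊o 0 * J⌋₊ := Nat.floor_le_floor (mulJ (by linarith))
  have l12 : ⌊o 0 * J⌋₊ ≤ ⌊o 3 * J⌋₊ := Nat.floor_le_floor (mulJ (by linarith))
  have l23 : ⌊o 3 * J⌋₊ ≤ ⌊o 1 * J⌋₊ := Nat.floor_le_floor (mulJ (by linarith))
  have l3a : ⌊o 1 * J⌋₊ ≤ ⌊a * J⌋₊ := Nat.floor_le_floor (mulJ (by linarith))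
  obtain ⟨B, z, gc, gT, g₀, G, H, T, TH, Gt, Ht, hB, hPB, W⟩ := w1
  obtain ⟨B₂, V, V', v, v', ξ, np, Pn, hB₂, hPB₂, him⟩ := w2 B hB hPB b z gc gT g₀ G H T TH Gt Ht W
  have hB₂A : Sub B₂ A := fun ω hω => hB ω (hB₂ ω hω)
  have hPA : Pe F.p A ≤ K₁ * K₂ * Pe F.p B₂ := by
    rw [mul_assoc]
    exact hPB.trans (mul_le_mul_of_nonneg_left hPB₂ hK₁.le)
  obtain ⟨hP0, htf⟩ := w3 B₂ hB₂A hPA
  have Wd' := W.wd.sub hB₂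
  obtain ⟨Q, hQ⟩ : ∃ Q : ℕ, Q = ⌊o 3 * J⌋₊ - ⌊o 0 * J⌋₊ := ⟨_, rfl⟩
  obtain ⟨x, hx⟩ : ∃ x : ℕ, x = ⌊(2 * (ζ + 3 * (C * η₀)) + η₀) * J⌋₊ + 20 := ⟨_, rfl⟩
  obtain ⟨u, hu⟩ : ∃ u : ℕ, u = ⌊C * (η₀ * J)⌋₊ + 1 := ⟨_, rfl⟩
  obtain ⟨e, he⟩ : ∃ e : ℕ, e = ⌊(Eb + 2 * η₀) * J⌋₊ := ⟨_, rfl⟩
  obtain ⟨MB, hMB⟩ : ∃ MB : ℕ, MB = ⌊mb * J⌋₊ := ⟨_, rfl⟩
  obtain ⟨sr, hsr⟩ : ∃ sr : ℕ, sr = ⌊lvN P c r Pt r (o 0) (o 0) * J⌋₊ := ⟨_, rfl⟩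
  rw [← hQ, ← hx, ← hu, ← he, ← hMB] at Wd'
  rw [← hQ, ← hMB] at him
  have hQr : (Q : ℝ) = ⌊o 3 * J⌋₊ - ⌊o 0 * J⌋₊ := by rw [hQ, Nat.cast_sub l12]
  have hQl : (o 3 - o 0) * J - 1 ≤ Q := by rw [hQr]; linarith [f1.2, f2.2, f1.1, f2.1]
  have hQu : (Q : ℝ) ≤ (o 3 - o 0) * J + 1 := by rw [hQr]; linarith [f1.2, f2.2, f1.1, f2.1]
  have hMl : mb * J - 1 ≤ MB := by
    rw [hMB]
    exact (flo (mul_nonneg (by linarith) hJ0)).2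
  have hMu : (MB : ℝ) ≤ mb * J := by
    rw [hMB]
    exact (flo (mul_nonneg (by linarith) hJ0)).1
  have hCJ : η₀ * J ≤ C * X * J := mulJ (hηX.trans hCX)
  have hW0J : W₀ ≤ C * X * J := j2.trans hCJ
  have hKr40 : 0 ≤ 40 * ((K : ℝ) * r) := by positivity
  have h22 : 0 ≤ 22 * (C₁ : ℝ) := by positivity
  have hxu : (x : ℝ) ≤ 8 * (C * X) * J + 20 := by
    rw [hx]
    push_cast
    have h4 := (flo (mul_nonneg (by linarith : (0 : ℝ) ≤ 2 * (ζ + 3 * (C * η₀)) + η₀) hJ0)).1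
    have h5 : 2 * (ζ + 3 * (C * η₀)) + η₀ ≤ 8 * (C * X) := by
      have h6 : C * X = C * ζ + C * η₀ := by rw [hX]; ring
      have h7 : ζ ≤ C * ζ := le_mul_of_one_le_left hζ hC
      linarith
    linarith [mulJ h5]
  have huu : (u : ℝ) + x + 1 ≤ 8 * (C * X) * J + 22 := by
    rw [hx, hu]
    push_cast
    have h4 := (flo (mul_nonneg (by linarith : (0 : ℝ) ≤ 2 * (ζ + 3 * (C * η₀)) + η₀) hJ0)).1
    have h8 := (flo (mul_nonneg (by linarith : (0 : ℝ) ≤ C) (mul_nonneg hη0.le hJ0))).1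
    have h5 : C * η₀ + (2 * (ζ + 3 * (C * η₀)) + η₀) ≤ 8 * (C * X) := by
      have h6 : C * X = C * ζ + C * η₀ := by rw [hX]; ring
      have h7 : ζ ≤ C * ζ := le_mul_of_one_le_left hζ hC
      linarith
    have h9 := mulJ h5
    linarith
  have hC1u : (C₁ : ℝ) * (u + x + 1) ≤ 8 * C * C₁ * X * J + 22 * C₁ := by
    have h4 := mul_le_mul_of_nonneg_left huu hC₁0
    linarith
  have hsmJ : C' * X * J ≤ δ * (o 3 - o 0) * J := mulJ hsm.le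
  have hC'aJ := mulJ hC'a
  have hδQl : δ * (o 3 - o 0) * J - 1 ≤ δ * Q := by
    have h4 := mul_le_mul_of_nonneg_left hQl δ0.le
    linarith
  have hδ0Q : δ * Q ≤ δ₀ * Q := mul_le_mul_of_nonneg_right δδ₀ (Nat.cast_nonneg _)
  have hKXJ : 0 ≤ 16 * (K * r) * (C * X) * J := mul_nonneg hKrX hJ0
  have hCXJ : 0 ≤ C * X * J := by positivity
  have c1 : Q₀ ≤ Q := by
    have h4 : (Q₀ : ℝ) ≤ Q := by
      have h5 := mulJ hη12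
      rw [hW₀] at j2
      linarith
    exact_mod_cast h4
  have c2 : (C₁ : ℝ) * (u + x + 1) ≤ δ₀ * Q := by
    rw [hW₀] at hW0J
    linarith
  have c3 : ⌊o 0 * J⌋₊ + 2 * Q ≤ J := by
    have h4 : ((⌊o 0 * J⌋₊ + 2 * Q : ℕ) : ℝ) ≤ J := by
      push_cast
      have h5 := mulJ h1J
      rw [hW₀] at j2
      linarith [f1.1]
    exact_mod_cast h4
  have c6 : (J : ℝ) * Real.log 2 - δ₀ * Q ≤ CH (Pool.Agent.H49.Ent.cond F.p B₂ True) F.T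
      (fun ω => (F.l ω, F.Z ω)) := by
    refine le_trans ?_ htf
    have h5 := mulJ hη12
    rw [hW₀] at j2
    have h6 : (o 3 - o 0) * J / 2 ≤ Q := by linarith
    have h7 := mul_le_mul_of_nonneg_left h6 δ0.le
    linarith
  obtain ⟨εQ, hεQ⟩ : ∃ k : ℕ, k = ⌈ε * Q⌉₊ := ⟨_, rfl⟩
  have hεQ0 : 0 ≤ ε * (Q : ℝ) := by positivity
  have hεQl : ε * (Q : ℝ) ≤ εQ := by rw [hεQ]; exact Nat.le_ceil _
  have hεQu : (εQ : ℝ) ≤ ε * Q + 1 := by rw [hεQ]; exact (Nat.ceil_lt_add_one hεQ0).le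
  have hεu : ε * (Q : ℝ) ≤ ε * (o 3 - o 0) * J + 1 := by
    have h4 := mul_le_mul_of_nonneg_left hQu hε.le
    linarith
  have hε2u : ε * (o 3 - o 0) * J ≤ (o 3 - o 0) * J / 2 := by
    have h4 := mul_le_mul_of_nonneg_right hε2 (mul_nonneg hQ12.le hJ0)
    linarith
  obtain ⟨sm, hsm'⟩ : ∃ k : ℕ, k = 2 * x * K * r + C₀ := ⟨_, rfl⟩
  have hsmu : (sm : ℝ) ≤ 16 * (K * r) * (C * X) * J + 40 * (K * r) + C₀ := by
    rw [hsm']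
    push_cast
    have h4 := mul_le_mul_of_nonneg_left hxu hKr0
    linarith
  obtain ⟨p', hp'⟩ : ∃ p' : ℕ, p' = sr + MB - (sm + εQ) := ⟨_, rfl⟩
  have hδJ : δ * (o 3 - o 0) * J ≤ (o 3 - o 0) * J / 4 := by
    have h4 := mulJ hδQ4
    linarith
  have hple : sm + εQ ≤ sr + MB := by
    have h4 : ((sm + εQ : ℕ) : ℝ) ≤ ((sr + MB : ℕ) : ℝ) := by
      push_cast
      have h5 := mulJ h12.le
      have h6 : (0 : ℝ) ≤ sr := Nat.cast_nonneg _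
      have h7 : 0 ≤ 8 * C * C₁ * X * J := mul_nonneg hC₁X hJ0
      rw [hW₀] at hW0J
      linarith
    exact_mod_cast h4
  have hpe : (p' : ℝ) + (sm + εQ) = sr + MB := by
    have : p' + (sm + εQ) = sr + MB := by rw [hp']; omega
    exact_mod_cast this
  obtain ⟨e', he'⟩ : ∃ e' : ℕ, e' = e + C₁ * (u + x + 1) + (g₀ 3 r - g₀ 0 r) + MB + 1 := ⟨_, rfl⟩
  have hxKr : x ≤ 2 * x * K * r := by
    have h4 : x ≤ x * K := Nat.le_mul_of_pos_right _ hK1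
    have h5 : x * K ≤ x * K * r := Nat.le_mul_of_pos_right _ hr
    have h6 : 2 * x * K * r = 2 * (x * K * r) := by ring
    omega
  have c7 : p' ≤ g₀ 3 r := by
    have h4 : sr + MB ≤ g₀ 3 r + x := by
      have := Wd'.m2
      rw [← hsr] at this
      exact this
    omega
  have c8 : e + C₁ * (u + x + 1) + (g₀ 3 r - g₀ 0 r) + 1 ≤ e' := by omega
  have c9 : (p' : ℝ) + (2 * x * K * r + C₀ : ℕ) + ε * Q ≤ sr + MB := by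
    rw [← hsm']
    linarith
  have c10 : ((e + C₁ * (u + x + 1) + (g₀ 3 r - g₀ 0 r) : ℕ) : ℝ) + p' +
      (2 * x * K * r + C₀ : ℕ) + ε * Q ≤ e' + sr := by
    have h4 : (e' : ℝ) = ((e + C₁ * (u + x + 1) + (g₀ 3 r - g₀ 0 r) : ℕ) : ℝ) + MB + 1 := by
      rw [he']
      push_cast
      ring
    rw [h4]
    linarith
  obtain ⟨B₃, hB₃, hPB₃, hch, hla⟩ := hend (e' := e') (p' := p') Wd' c1 c2 c3 hP0
    (him.mono (cond_nonneg F.isLaw.nonneg _ True) δδ₀) c6 c7 c8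
    (by
      show _ ≤ ((⌊lvN P c r Pt r (o 0) (o 0) * (J : ℝ)⌋₊ : ℕ) : ℝ) + MB
      rw [← hsr]
      exact c9)
    (by
      show _ ≤ (e' : ℝ) + ((⌊lvN P c r Pt r (o 0) (o 0) * (J : ℝ)⌋₊ : ℕ) : ℝ)
      rw [← hsr]
      exact c10)
  -- the contradiction
  have g1 : sr ≤ g₀ 0 r + x := by
    have := Wd'.m1'
    rw [hsr]
    exact this
  obtain ⟨-, -, g2l, g2u⟩ := W.wb.g_num (k := 3) (l := r) (by omega) le_rfl
  obtain ⟨-, -, g1l, g1u⟩ := W.wb.g_num (k := 0) (l := r) (by omega) le_rfl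
  rw [hlve] at g2l g2u g1l g1u
  have hlv1r : η₀ ≤ lv 0 r := by linarith [(h3o 0 (by norm_num)).2.2]
  have hsrl : lv 0 r * J - 1 ≤ sr := by
    rw [hsr, hlve]
    exact (flo (mul_nonneg (by linarith) hJ0)).2
  have hsru : (sr : ℝ) ≤ lv 0 r * J := by
    rw [hsr, hlve]
    exact (flo (mul_nonneg (by linarith) hJ0)).1
  have hηXJ : η₀ * J ≤ X * J := mulJ hηX
  have hXCJ : X * J ≤ C * X * J := mulJ hCX
  have hδlJ : Real.exp (-(δl * J)) ≤ 1 / 2 := by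
    rw [Real.exp_neg, inv_eq_one_div]
    refine one_div_le_one_div_of_le two_pos ?_
    have h4 := Real.exp_le_exp.2 j4
    rwa [Real.exp_log two_pos] at h4
  refine w4 B₂ hB₂A hPA (⌊o 0 * J⌋₊ + Q + 1) ⌊o 0 * J⌋₊ e' p' (fun _ => D) _ _ _ _ _ (by omega)
    ?_ ?_ ?_ (fun _ => by omega) ?_ ?_ ?_ B₃ hB₃ ?_ hch hla
  · refine Nat.le_floor ?_
    push_cast
    rw [hQr]
    linarith [f2.1]
  · exact Nat.floor_le_floor (mulJ h1w)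
  · refine Nat.le_floor ?_
    have h4 : ((g₀ 3 r - g₀ 0 r : ℕ) : ℝ) ≤ (mb + ζ + η₀) * J := by
      rcases le_total (g₀ 0 r) (g₀ 3 r) with h5 | h5
      · rw [Nat.cast_sub h5]
        have h6 : lv 3 r ≤ lv 0 r + mb + ζ := by linarith
        linarith [mulJ h6]
      · rw [Nat.sub_eq_zero_of_le h5, Nat.cast_zero]
        exact mul_nonneg (by linarith) hJ0
    have h5 : (e : ℝ) ≤ (Eb + 2 * η₀) * J := by
      rw [he]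
      exact (flo (mul_nonneg (by linarith) hJ0)).1
    rw [he']
    push_cast
    have h6 : C' * X * J ≥ (8 * C * C₁ * X + 16 * (K * r) * (C * X) + 32 * (C * X)) * J := hC'aJ
    have h7 := mulJ hE
    have h8 := mulJ hζX
    rw [hW₀] at hW0J
    linarith
  · intro l hl
    have h4 := Wd'.n2d l hl
    have h5 := mulJ (hrm l hl)
    have h6 : ((⌊lvN P c r Pt l (o 0) (o 0) * J⌋₊ : ℕ) : ℝ) ≤ lv 0 l * J ∨
        ((⌊lvN P c r Pt l (o 0) (o 0) * J⌋₊ : ℕ) : ℝ) ≤ 0 := by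
      rw [hlve]
      rcases le_or_gt 0 (lv 0 l * J) with h7 | h7
      · exact Or.inl (flo h7).1
      · refine Or.inr ?_
        rw [Nat.floor_of_nonpos h7.le, Nat.cast_zero]
    have h8 : (((⌊lvN P c r Pt l (o 0) (o 0) * J⌋₊ + Q + x : ℕ) : ℕ) : ℝ) ≤ J := by
      push_cast
      have h9 : 0 ≤ 8 * C * C₁ * X * J := mul_nonneg hC₁X hJ0
      have h10 := mulJ h1J
      have h11 := mulJ hCη
      have h12 := mulJ (h3o 0 (by norm_num)).1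
      rw [hW₀] at hW0J
      rcases h6 with h6 | h6
      · linarith
      · linarith
    have h9 : ⌊lvN P c r Pt l (o 0) (o 0) * J⌋₊ + Q + x ≤ J := by exact_mod_cast h8
    exact h4.trans h9
  · have h4 : (p' : ℝ) ≤ J := by
      have h5 := mulJ hrm'
      have h6 : (0 : ℝ) ≤ sm := Nat.cast_nonneg _
      have h7 : (0 : ℝ) ≤ εQ := Nat.cast_nonneg _
      linarith
    exact_mod_cast h4
  · have ha2l : (a₂ : ℝ) * J - 1 ≤ (⌊(a₂ : ℝ) * J⌋₊ : ℝ) := by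
      linarith [Nat.lt_floor_add_one ((a₂ : ℝ) * J)]
    have ha0 : ⌊o 0 * J⌋₊ + Q + 1 ≤ ⌊(a₂ : ℝ) * J⌋₊ := by
      refine Nat.le_floor ?_
      push_cast
      rw [hQr]
      linarith [f2.1]
    rcases le_or_gt 0 ((bet P₂ c r a₂ w₂ + h) * (J : ℝ)) with h4 | h4
    · have h5 : ((⌊(bet P₂ c r a₂ w₂ + h) * J⌋₊ + (⌊o 0 * J⌋₊ + Q + 1) : ℕ) : ℝ) ≤
          ((p' + ⌊(a₂ : ℝ) * J⌋₊ : ℕ) : ℝ) := by
        push_cast
        have h6 := (flo h4).1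
        have h7 := mulJ hlab
        rw [hQr]
        have h8 : 0 ≤ 8 * C * C₁ * X * J := mul_nonneg hC₁X hJ0
        rw [hW₀] at hW0J
        linarith [f2.1]
      exact_mod_cast h5
    · rw [Nat.floor_of_nonpos h4.le]
      omega
  · refine le_trans (mul_le_mul_of_nonneg_right hδlJ (Pe_nonneg F.isLaw B₂)) ?_
    linarith

end Pool.V1E
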