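import Pool.Agent.H73.D2.Tlu
import Pool.Agent.H73.D2.Tmc

/-!
# The end at one scale, the frame and the ball in a chain

`RecFr`: as `RecE`, with rows only at `t` and `t + 3 q / 2`; the frame `t - k₁ q`, the ball `t + q` and
further windows `t + vw k q`, `4 ≤ k ≤ N₂`, have balls only. `x10f_q`: with the labels of the tubes
(`HImF`) the closed labels are as good as the balls.
-/

set_option autoImplicit false

namespace Pool.V1E

open Finset Real MvPolynomial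
open Pool.Agent.H49.Ent Pool.Agent.H32.Dense Pool.STK Pool.KA Pool.KSAT Pool.K2S Pool.PB Pool.S6C
open Pool.GEN Pool.CHT Pool.CHX Pool.ISO Pool.D2R Pool.D2G30 Pool.END18 Pool.D2Con
open Pool.LBT (ThrOf)
open Pool.LEV (Law)

/-- The windows in units of the scale: target, deep ball, frame, ball, further windows. -/
noncomputable def vF (k₁ : ℝ) (vw : ℕ → ℝ) (k : ℕ) : ℝ :=
  if k = 0 then 0 else if k = 1 then 3 / 2 else if k = 2 then -k₁ else if k = 3 then 1 else vw k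

theorem vF_ge {k₁ : ℝ} {vw : ℕ → ℝ} {k : ℕ} (hk : 4 ≤ k) : vF k₁ vw k = vw k := by
  unfold vF
  rw [if_neg (by omega), if_neg (by omega), if_neg (by omega), if_neg (by omega)]

/-- **The record of the end** at one scale `q`, the frame and the ball in a chain. -/
structure RecFr {m : ℕ} (S : PCl m) (P P₂ : List (Fin m) × Fin m → ℝ → ℝ → ℝ) (θ θ₂ : ℝ)
    (c : ℕ → Fin m) (r : ℕ) (Pt : ℝ → ℝ → ℝ) (S₂ N₂ : ℕ) (vw : ℕ → ℝ)
    (s k₁ K Eb e₂ ε q t : ℝ) : Prop where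
  ne : S.Ne
  thr : ThrOf (chsys m θ) S P
  th0 : 0 < θ
  thr₂ : ThrOf (chsys m θ₂) S P₂
  tmh : TmH S
  inj : Set.InjOn c (Set.Iio (r + 1))
  law : Law Pt
  Eb0 : 0 ≤ Eb
  q0 : 0 < q
  ε0 : 0 ≤ ε
  kk : s + 2 ≤ k₁
  kK : 2 * s + k₁ + 6 ≤ K
  t0 : 0 < t - K * q
  t1 : t + K * q < 1
  n3 : 3 ≤ N₂
  win : ∀ k ≤ 1, WinD S P θ c r Pt (t + (s + 1) * q) (t + vF k₁ vw k * q) S₂ Eb (3 * ε * q)
    (fun _ => True)
  bal : ∀ k, 1 < k → k ≤ N₂ → BalD S P θ c r Pt (t + (s + 1) * q) (t + vF k₁ vw k * q) S₂ Eb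
  vw2 : ∀ k, 4 ≤ k → k ≤ N₂ → vw k ≤ 2
  lv : ∀ l < r, ∀ x : ℝ, |x - t| ≤ K * q →
    |lvN P c r Pt l x x - lvN P c r Pt l t t - (x - t)| ≤ ε * q
  lvr : ∀ x : ℝ, |x - t| ≤ K * q → |Pt x x - Pt t t - s * (x - t)| ≤ ε * q
  room : ∀ l ≤ r, ∀ x : ℝ, |x - t| ≤ K * q → lvN P c r Pt l x x + Eb + 3 * K * q < 1
  e₂θ : ∀ x : ℝ, |x - t| ≤ K * q → e₂ < θ₂ * x
  Ebe : Eb + 3 * K * q < e₂
  stp : Pt t t + 2 * ((s + 1) * q) ≤ Pt (t + (s + 1) * q) t + 2 * (ε * q)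
  low : ∀ k ≤ 1, t + vF k₁ vw k * q ≤ Pt (t + vF k₁ vw k * q) (t + vF k₁ vw k * q) ∧
    t + (s + 1) * q ≤ Pt (t + (s + 1) * q) (t + vF k₁ vw k * q)
  rat : ∀ e : ℝ, 0 < e → ∃ d : ℝ, 0 < d ∧ ∀ a' w' : ℝ, t + q ≤ a' → a' ≤ t + q + d → t ≤ w' →
    w' ≤ t + d → w' ≤ a' → bet P₂ c r a' w' ≤ Pt (t + q) t + e

/-- **The end at one scale**, the frame and the ball in a chain. -/
theorem x10f_q (m r S₂ : ℕ) (hr : 1 ≤ r) (hS₂ : 1 ≤ S₂) (s : ℝ) (hs : 2 < s) : ∃ D : ℕ, 1 ≤ D ∧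
    ∀ Dr : ℕ, D ≤ Dr → ∃ (K' D' : ℕ) (C : ℝ), 1 ≤ K' ∧ 1 ≤ C ∧
    D * (D + 1) ^ r ≤ K' ∧ K' * (D + 1) ≤ D' ∧ D + 1 ≤ D' ∧ ∀ del : ℝ, 0 < del → ∃ δ : ℝ, 0 < δ ∧ δ ≤ 1 / 4 ∧
    ∃ h₀ : ℝ, 0 < h₀ ∧ ∀ h : ℝ, 0 < h → h ≤ h₀ →
    ∀ {S : PCl m} {P P₂ : List (Fin m) × Fin m → ℝ → ℝ → ℝ} {θ θ₂ : ℝ} {c : ℕ → Fin m}
    {Pt : ℝ → ℝ → ℝ} {N₂ : ℕ} {vw : ℕ → ℝ} {k₁ K Eb e₂ ε q t κ K₂ : ℝ} {qf : ℕ → Fin r → ℕ},
    RecFr S P P₂ θ θ₂ c r Pt S₂ N₂ vw s k₁ K Eb e₂ ε q t → 3 * C * ε < h → 2 * ε ≤ h →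
    (∀ (J : ℕ) (i : Fin r), ⌊s * q * J⌋₊ + (⌊(t + q) * J⌋₊ - ⌊t * J⌋₊) ≤ qf J i) → 0 < κ →
    0 ≤ K₂ →
    HImF S c r D Dr K' D' N₂ C (t + (s + 1) * q) Eb (3 * ε * q) (h * q) (h * q) (s * q) Pt
      (fun k => t + vF k₁ vw k * q)
      (fun k l => lvN P c r Pt l (t + vF k₁ vw k * q) (t + vF k₁ vw k * q))
      (fun k l => bet P c l (t + (s + 1) * q) (t + vF k₁ vw k * q)) κ qf δ K₂ →
    Pt (t + q) (t + q) ≤ Pt (t + q) t + del * q := by
  obtain ⟨D, hD, hx⟩ := x10f_con m r S₂ hr hS₂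
  refine ⟨D, hD, fun Dr hDr => ?_⟩
  obtain ⟨K', D', C, hK', hC, hDK, hKD, hDD, hx⟩ := hx Dr hDr
  refine ⟨K', D', C, hK', hC, hDK, hKD, hDD, fun del hdel => ?_⟩
  obtain ⟨δ, C', hδ, hδ4, hC', hx⟩ := hx (min (del / 4) (1 / 2))
    (lt_min (by linarith) (by norm_num)) (min_le_right _ _)
  have hC0 : 0 < C := by linarith
  have hC'0 : 0 < C' := by linarith
  refine ⟨δ, hδ, hδ4, min (δ / (4 * C')) (min (del / (16 * C')) (1 / (4 * C))), by positivity,
    fun h hh hh0 => ?_⟩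
  have a1 : 4 * C' * h ≤ δ := by
    have := hh0.trans (min_le_left _ _)
    rw [le_div_iff₀ (by positivity)] at this
    linarith
  have a2 : 16 * C' * h ≤ del := by
    have := hh0.trans ((min_le_right _ _).trans (min_le_left _ _))
    rw [le_div_iff₀ (by positivity)] at this
    linarith
  have a3 : 4 * C * h ≤ 1 := by
    have := hh0.trans ((min_le_right _ _).trans (min_le_right _ _))
    rw [le_div_iff₀ (by positivity)] at this
    linarith
  have a4 : h ≤ C * h := le_mul_of_one_le_left hh.le hC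
  have a5 : h ≤ C' * h := le_mul_of_one_le_left hh.le hC'
  intro S P P₂ θ θ₂ c Pt N₂ vw k₁ K Eb e₂ ε q t κ K₂ qf R hε1 hε2 hqf hκ hK₂ hIm
  by_contra hcon
  push Not at hcon
  have hq := R.q0
  have hε0 := R.ε0
  have hkk := R.kk
  have hkK := R.kK
  have hsq : 2 * q < s * q := mul_lt_mul_of_pos_right hs hq
  have hk1q : s * q + 2 * q ≤ k₁ * q := by
    have := mul_le_mul_of_nonneg_right hkk hq.le
    linarith
  have hKq : 2 * (s * q) + k₁ * q + 6 * q ≤ K * q := by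
    have := mul_le_mul_of_nonneg_right hkK hq.le
    linarith
  have hεq : 0 ≤ ε * q := mul_nonneg hε0 hq.le
  have hεq2 : 2 * (ε * q) ≤ h * q := by
    have := mul_le_mul_of_nonneg_right hε2 hq.le
    linarith
  have hhq : 0 < h * q := mul_pos hh hq
  have b1 : 4 * (C' * (h * q)) ≤ δ * q := by
    have := mul_le_mul_of_nonneg_right a1 hq.le
    linarith
  have b2 : 16 * (C' * (h * q)) ≤ del * q := by
    have := mul_le_mul_of_nonneg_right a2 hq.le
    linarith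
  have b3 : 4 * (C * (h * q)) ≤ q := by
    have := mul_le_mul_of_nonneg_right a3 hq.le
    linarith
  have b4 : h * q ≤ C * (h * q) := by
    have := mul_le_mul_of_nonneg_right a4 hq.le
    linarith
  have b5 : h * q ≤ C' * (h * q) := by
    have := mul_le_mul_of_nonneg_right a5 hq.le
    linarith
  have b6 : δ * q ≤ q / 4 := by
    have := mul_le_mul_of_nonneg_right hδ4 hq.le
    linarith
  have hdq : 0 < del * q := mul_pos hdel hq
  obtain ⟨o, ho⟩ : ∃ o : ℕ → ℝ, o = fun k => t + vF k₁ vw k * q := ⟨_, rfl⟩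
  have hoE : ∀ k, o k = t + vF k₁ vw k * q := fun k => by rw [ho]
  have o2 : o 2 = t - k₁ * q := by rw [hoE 2]; simp [vF]; ring
  have o0 : o 0 = t := by rw [hoE 0]; simp [vF]
  have o3 : o 3 = t + q := by rw [hoE 3]; simp [vF]
  have o1 : o 1 = t + 3 / 2 * q := by rw [hoE 1]; simp [vF]
  obtain ⟨a, ha⟩ : ∃ a : ℝ, a = t + (s + 1) * q := ⟨_, rfl⟩
  have ha' : a = t + s * q + q := by rw [ha]; ring
  have R1 : ∀ k ≤ 1, WinD S P θ c r Pt a (o k) S₂ Eb (3 * ε * q) (fun _ => True) := fun k hk => by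
    rw [hoE k, ha]
    exact R.win k hk
  have R2 : ∀ k ≤ 1, o k ≤ Pt (o k) (o k) ∧ a ≤ Pt a (o k) := fun k hk => by
    rw [hoE k, ha]
    exact R.low k hk
  have R4 : ∀ k, 1 < k → k ≤ N₂ → BalD S P θ c r Pt a (o k) S₂ Eb := fun k hk hk' => by
    rw [hoE k, ha]
    exact R.bal k hk hk'
  have R3 := R.stp
  have hot : ∀ k, t + vF k₁ vw k * q = o k := fun k => by rw [ho]
  have hot2 : (fun k => t + vF k₁ vw k * q) = o := ho.symm
  rw [hot2] at hIm
  simp only [hot, ← ha] at R3 hIm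
  have hlr : ∀ x y : ℝ, lvN P c r Pt r x y = Pt x y := fun x y => by
    unfold lvN
    rw [if_neg (lt_irrefl r)]
  have hlb : ∀ l < r, ∀ x y : ℝ, lvN P c r Pt l x y = bet P c l x y := fun l hl x y => by
    unfold lvN
    rw [if_pos hl]
  have hbx : ∀ k ≤ 3, |o k - t| ≤ K * q := by
    intro k hk
    rw [abs_le]
    interval_cases k
    · rw [o0]; constructor <;> linarith
    · rw [o1]; constructor <;> linarith
    · rw [o2]; constructor <;> linarith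
    · rw [o3]; constructor <;> linarith
  have hol : ∀ k ≤ 3, t - k₁ * q ≤ o k ∧ o k ≤ t + 3 / 2 * q := by
    intro k hk
    interval_cases k
    · rw [o0]; constructor <;> linarith
    · rw [o1]; constructor <;> linarith
    · rw [o2]; constructor <;> linarith
    · rw [o3]; constructor <;> linarith
  have hax : |a - t| ≤ K * q := by
    rw [abs_le, ha']
    constructor <;> linarith
  have ht0 := R.t0
  have ht1 := R.t1
  have hlt := R.lvr
  have e1 := abs_le.1 (hlt (o 3) (hbx 3 (by norm_num)))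
  have e2 := abs_le.1 (hlt (o 1) (hbx 1 (by norm_num)))
  rw [o3] at e1
  rw [o1] at e2
  have hrt := R.room r le_rfl (t + q) (by rw [← o3]; exact hbx 3 (by norm_num))
  have hr1 := R.room r le_rfl t (by rw [sub_self, abs_zero]; linarith)
  rw [hlr] at hrt hr1
  have hEb0 := R.Eb0
  -- the rational pair
  obtain ⟨d, hd, hrat⟩ := R.rat (del * q / 8) (by positivity)
  have hmd : 0 < min d q := lt_min hd hq
  obtain ⟨a₂, ha1, ha2⟩ : ∃ x : ℚ, t + q < x ∧ (x : ℝ) < t + q + min d q :=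
    exists_rat_btwn (by linarith)
  obtain ⟨w₂, hw1, hw2⟩ : ∃ x : ℚ, t < x ∧ (x : ℝ) < t + min d q :=
    exists_rat_btwn (by linarith)
  have md1 := min_le_left d q
  have md2 := min_le_right d q
  have hb := hrat a₂ w₂ ha1.le (by linarith) hw1.le (by linarith) (by linarith)
  refine hx (S := S) (P := P) (P₂ := P₂) (θ := θ) (θ₂ := θ₂) (c := c) (Pt := Pt) (a := a)
    (Eb := Eb) (ε₀ := 3 * ε * q) (η₀ := h * q) (mb := s * q) (κ := κ) (ζ := h * q)
    (h := del * q / 8) (e₂ := e₂) (K₂ := K₂) (o := o) (a₂ := a₂) (w₂ := w₂) (qf := qf) N₂ R.n3 R.ne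
    R.thr R.thr₂ R.th0 R.tmh R.inj R.law hEb0 R1 R4 ?_ ?_ ?_ ?_ ?_ ?_ ?_ ?_ ?_ hhq.le ?_ ?_ ?_ ?_ ?_ ?_ ?_
    ?_ ?_ ?_ ?_ ?_ ?_ ?_ ?_ ?_ ?_ ?_ hκ hK₂ hIm
  · have := mul_lt_mul_of_pos_right hε1 hq
    linarith
  · intro k hk
    obtain ⟨k1, k2⟩ := hol k (by omega)
    obtain ⟨k3, k4⟩ := R2 k hk
    rw [hlr]
    refine ⟨by linarith, by linarith, by linarith⟩
  · intro k hk
    have k1 : o k ≤ t + 2 * q := by
      rcases Nat.lt_or_ge 3 k with h4 | h4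
      · rw [hoE k, vF_ge (by omega)]
        have := mul_le_mul_of_nonneg_right (R.vw2 k (by omega) hk) hq.le
        linarith
      · linarith [(hol k h4).2]
    linarith
  · linarith
  · intro k hk l hl
    have := R.room l hl (o k) (hbx k (by omega))
    obtain ⟨k1, k2⟩ := hol k (by omega)
    linarith
  · intro k hk l hl
    have k0 := R.room l hl.le a hax
    obtain ⟨k1, k2⟩ := hol k (by omega)
    rw [hlb l hl] at k0
    have k3 : bet P c l a (o k) ≤ bet P c l a a := (R.thr.law _).mono_w a (o k) a (by linarith)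
      (by linarith) le_rfl (by linarith)
    linarith
  · rw [o2, o0, o3]; linarith
  · rw [o0, o3]; linarith
  · rw [o1, o3]; linarith
  · intro k hk j hj
    have k0 := abs_le.1 (R.lv j hj (o k) (hbx k hk))
    rw [o0, abs_le]
    constructor <;> linarith
  · rw [hlr, hlr, o0, o3, abs_le]
    constructor <;> linarith
  · rw [hlr, hlr, o0, o3, o1]
    linarith
  · rw [hlr, o0, o3]
    linarith
  · rw [o0, o3]
    linarith
  · rw [o0]; exact hw1.le
  · rw [o3]; exact ha1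
  · have : (w₂ : ℝ) ≤ a₂ := by linarith
    exact_mod_cast this
  · have : (a₂ : ℝ) ≤ ((1 : ℚ) : ℝ) := by
      push_cast
      linarith
    exact_mod_cast this
  · refine R.e₂θ w₂ ?_
    rw [abs_le]
    constructor <;> linarith
  · positivity
  · linarith
  · have := R.Ebe
    linarith
  · intro l hl
    have k0 := R.room l hl.le t (by rw [sub_self, abs_zero]; linarith)
    rw [o0, o3]
    linarith
  · rw [hlr, o0]
    linarith
  · rw [o0, o3]
    linarith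
  · rw [hlr, o0, o3]
    have : min (del / 4) (1 / 2) * (t + q - t) ≤ del / 4 * q := by
      rw [add_sub_cancel_left]
      exact mul_le_mul_of_nonneg_right (min_le_left _ _) hq.le
    linarith
  · intro J i
    rw [o0, o3]
    exact hqf J i

end Pool.V1E
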