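import Pool.Agent.H73.D2.Tng
import Pool.Agent.H92.D2.Nwf

/-!
# The hypotheses of the end for the target `N - P(p, u)` without the row label

`WNU`, `WgCU`, `SlHU`, `HImNU`, `NhNU`, `VfNU`: as `WN`, `WgC`, `SlH`, `HImN`, `NhN`, `VfN` without the
field `hCt`. `XiCl`: the closed gradient `ClU` as a property of the windows.
-/

set_option autoImplicit false

namespace Pool.V1E

open Finset Real MvPolynomial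
open Pool.KA Pool.KSAT Pool.PB Pool.GEN Pool.D2R Pool.D2G30 Pool.ISO Pool.CHT Pool.CHX
open Pool.PB.Trl (rt rt_mem t_rt)
open Pool.Agent.H49.Ent Pool.Agent.H32.Dense Pool.STK Pool.K2S Pool.LA91 Pool.OWN68
open Pool.UNJ (ceI)
open Pool.S6C Pool.RCD Pool.D2Con
open Pool.LBT (ThrOf)
open Pool.LEV (Law)

variable {m : ℕ}

/-- **The windows and the target `N - P(p, u)`**, on one event. -/
structure WNU (c : ℕ → Fin m) (r D Dw Dr N N₂ : ℕ) (R : ℕ → Prop) (C a Eb ε₀ η₀ χ mb : ℝ)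
    (Pt : ℝ → ℝ → ℝ) (o : ℕ → ℝ) (lv be : ℕ → ℕ → ℝ) {J : ℕ} (F : Fam m J) (b : ℕ → ℕ → ℝ) (κ : ℝ)
    (z : ℕ → ℕ → ℕ) (qe : Fin r → ℕ) (B : F.Ω → Prop) (gc gT g₀ : ℕ → ℕ → ℕ)
    (G : ℕ → PtT F → ℕ → MvPolynomial (Option (Fin m)) ℝ)
    (H : ℕ → LnT F → ℕ → MvPolynomial (Option (Fin m)) ℝ)
    (T : ℕ → PtT F → ℕ → MvPolynomial (Option (Fin m)) ℝ)
    (TH : ℕ → LnT F → ℕ → MvPolynomial (Option (Fin m)) ℝ)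
    (Gt : ℕ → PtT F → MvPolynomial (Option (Fin m)) ℝ)
    (Ht : ℕ → LnT F → MvPolynomial (Option (Fin m)) ℝ)
    (CL : LnT F → MvPolynomial (Option (Fin m)) ℝ)
    (Cp : PtT F → MvPolynomial (Option (Fin m)) ℝ) : Prop where
  n1 : 1 ≤ N
  n3 : 3 ≤ N₂
  DD : D ≤ Dw
  wg : WG c (r + 1) D Dr N N₂ R C a Eb ε₀ η₀ Pt o lv be F b κ z B gc gT g₀ G H T TH Gt Ht
  nw : NwDU F c r Dw 3 N₂ ⌊a * J⌋₊ ⌊mb * J⌋₊ (⌊o 0 * J⌋₊ - ⌊o 2 * J⌋₊)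
    (⌊o 3 * J⌋₊ - ⌊o 0 * J⌋₊) ⌊χ * J⌋₊ ⌊prF C a η₀ Pt (fun k => lv k (r + 1)) o * J⌋₊
    ⌊(Eb + 2 * η₀) * J⌋₊ ⌊lv 0 r * J⌋₊ (sN (lv 0) J r) qe
    (fun k => ⌊o (fr4 k) * J⌋₊) (fun k => z (fr4 k)) (fun k l => ⌊b (fr4 k) l * J⌋₊)
    (gX gc) (gX gT) (fun k => g₀ (fr4 k)) B (fun k => G (fr4 k)) (tX F c G T)
    (fun k => H (fr4 k)) (fun k => TH (fr4 k)) (Ht 0) CL Cp

/-- From the windows with the row label. -/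
theorem WN.toU {c : ℕ → Fin m} {r D Dw Dr N N₂ : ℕ} {R : ℕ → Prop}
    {C a Eb ε₀ η₀ χ mb : ℝ}
    {Pt : ℝ → ℝ → ℝ} {o : ℕ → ℝ} {lv be : ℕ → ℕ → ℝ} {J : ℕ} {F : Fam m J} {b : ℕ → ℕ → ℝ} {κ : ℝ}
    {z : ℕ → ℕ → ℕ} {qe : Fin r → ℕ} {B : F.Ω → Prop} {gc gT g₀ : ℕ → ℕ → ℕ}
    {G : ℕ → PtT F → ℕ → MvPolynomial (Option (Fin m)) ℝ}
    {H : ℕ → LnT F → ℕ → MvPolynomial (Option (Fin m)) ℝ}
    {T : ℕ → PtT F → ℕ → MvPolynomial (Option (Fin m)) ℝ}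
    {TH : ℕ → LnT F → ℕ → MvPolynomial (Option (Fin m)) ℝ}
    {Gt : ℕ → PtT F → MvPolynomial (Option (Fin m)) ℝ}
    {Ht : ℕ → LnT F → MvPolynomial (Option (Fin m)) ℝ}
    {CL : LnT F → MvPolynomial (Option (Fin m)) ℝ} {Cp : PtT F → MvPolynomial (Option (Fin m)) ℝ}
    (W : WN c r D Dw Dr N N₂ R C a Eb ε₀ η₀ χ mb Pt o lv be F b κ z qe B gc gT g₀ G H T TH Gt Ht
      CL Cp) :
    WNU c r D Dw Dr N N₂ R C a Eb ε₀ η₀ χ mb Pt o lv be F b κ z qe B gc gT g₀ G H T TH Gt Ht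
      CL Cp :=
  ⟨W.n1, W.n3, W.DD, W.wg, W.nw.toNvP, W.nw.toNwC.toU⟩

/-- **The closed gradient** as a property of the windows. `CT`: its loss. -/
def XiCl (c : ℕ → Fin m) (r Dw CT : ℕ) (χ mb : ℝ) (o : ℕ → ℝ) (lv : ℕ → ℕ → ℝ) : XiN m :=
  fun J F B _ G _ _ _ Cp => ClU F c (sN (lv 0) J r) r Dw CT ⌊mb * J⌋₊ (⌊o 3 * J⌋₊ - ⌊o 0 * J⌋₊)
    ⌊χ * J⌋₊ (fun k => ⌊o (fr4 k) * J⌋₊) B (fun k => G (fr4 k)) Cp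

/-- **`WG` and the closed polynomial `P`** with the property `Ξ`, on a part of mass at least `1 / K₁` of each event of the
class. -/
def WgCU (S : PCl m) (c : ℕ → Fin m) (r D Dw Dr N N₂ : ℕ) (R : ℕ → Prop) (C a Eb ε₀ η₀ χ mb : ℝ)
    (Pt : ℝ → ℝ → ℝ) (o : ℕ → ℝ) (lv be b : ℕ → ℕ → ℝ) (κ K₁ : ℝ) (Ξ : XiN m) : Prop :=
  Bas S (fun J F A => ∃ (B : F.Ω → Prop) (z gc gT g₀ : ℕ → ℕ → ℕ)
    (G : ℕ → PtT F → ℕ → MvPolynomial (Option (Fin m)) ℝ)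
    (H : ℕ → LnT F → ℕ → MvPolynomial (Option (Fin m)) ℝ)
    (T : ℕ → PtT F → ℕ → MvPolynomial (Option (Fin m)) ℝ)
    (TH : ℕ → LnT F → ℕ → MvPolynomial (Option (Fin m)) ℝ)
    (Gt : ℕ → PtT F → MvPolynomial (Option (Fin m)) ℝ)
    (Ht : ℕ → LnT F → MvPolynomial (Option (Fin m)) ℝ)
    (CL : LnT F → MvPolynomial (Option (Fin m)) ℝ)
    (Cp : PtT F → MvPolynomial (Option (Fin m)) ℝ), Sub B A ∧ Pe F.p A ≤ K₁ * Pe F.p B ∧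
    WG c (r + 1) D Dr N N₂ R C a Eb ε₀ η₀ Pt o lv be F b κ z B gc gT g₀ G H T TH Gt Ht ∧
    NwCU F c r Dw ⌊mb * J⌋₊ (⌊o 3 * J⌋₊ - ⌊o 0 * J⌋₊) ⌊χ * J⌋₊ ⌊lv 0 r * J⌋₊
      ⌊lv 0 (r + 1) * J⌋₊ (fun k => ⌊o (fr4 k) * J⌋₊) (fun k => g₀ (fr4 k)) B
      (fun k => G (fr4 k)) (Ht 0) CL Cp ∧ Ξ J F B g₀ G H Ht CL Cp)

/-- **The slope hypothesis**: on a part of mass at least `1 / K₃` of each event with the windows `WG`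
at the level `r + 1` there is a closed polynomial `P` of the frame and `u` whose derivative in the
direction `u` is near the derivatives of the charts of `N`, with the property `Ξ`. -/
def SlHU (S : PCl m) (c : ℕ → Fin m) (r D Dw Dr N N₂ : ℕ) (R : ℕ → Prop) (C a Eb ε₀ η₀ χ mb : ℝ)
    (Pt : ℝ → ℝ → ℝ) (o : ℕ → ℝ) (lv be : ℕ → ℕ → ℝ) (κ K₃ : ℝ) (Ξ : XiN m) : Prop :=
  Bas S (fun J F B => ∀ (b : ℕ → ℕ → ℝ) (z : ℕ → ℕ → ℕ) (gc gT g₀ : ℕ → ℕ → ℕ)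
    (G : ℕ → PtT F → ℕ → MvPolynomial (Option (Fin m)) ℝ)
    (H : ℕ → LnT F → ℕ → MvPolynomial (Option (Fin m)) ℝ)
    (T : ℕ → PtT F → ℕ → MvPolynomial (Option (Fin m)) ℝ)
    (TH : ℕ → LnT F → ℕ → MvPolynomial (Option (Fin m)) ℝ)
    (Gt : ℕ → PtT F → MvPolynomial (Option (Fin m)) ℝ)
    (Ht : ℕ → LnT F → MvPolynomial (Option (Fin m)) ℝ),
    WG c (r + 1) D Dr N N₂ R C a Eb ε₀ η₀ Pt o lv be F b κ z B gc gT g₀ G H T TH Gt Ht →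
    ∃ (B₂ : F.Ω → Prop) (CL : LnT F → MvPolynomial (Option (Fin m)) ℝ)
      (Cp : PtT F → MvPolynomial (Option (Fin m)) ℝ), Sub B₂ B ∧
      Pe F.p B ≤ K₃ * Pe F.p B₂ ∧
      NwCU F c r Dw ⌊mb * J⌋₊ (⌊o 3 * J⌋₊ - ⌊o 0 * J⌋₊) ⌊χ * J⌋₊ ⌊lv 0 r * J⌋₊
        ⌊lv 0 (r + 1) * J⌋₊ (fun k => ⌊o (fr4 k) * J⌋₊) (fun k => g₀ (fr4 k)) B₂
        (fun k => G (fr4 k)) (Ht 0) CL Cp ∧ Ξ J F B₂ g₀ G H Ht CL Cp)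

/-- **`WgCU` from `WG` in the class and the slope hypothesis.** -/
theorem wgcU_of {S : PCl m} {c : ℕ → Fin m} {r D Dw Dr N N₂ : ℕ} {R : ℕ → Prop}
    {C a Eb ε₀ η₀ χ mb : ℝ} {Pt : ℝ → ℝ → ℝ} {o : ℕ → ℝ} {lv be b : ℕ → ℕ → ℝ}
    {κ κ₁ K₁ K₃ : ℝ} {Ξ : XiN m} (hK₁ : 0 ≤ K₁) (hK₃ : 0 < K₃) (hκ : 0 ≤ κ) (hκ₁ : κ₁ * K₃ ≤ κ)
    (hW : Bas S (fun J F A =>
      ∃ (B : F.Ω → Prop) (z gc gT g₀ : ℕ → ℕ → ℕ)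
        (G : ℕ → PtT F → ℕ → MvPolynomial (Option (Fin m)) ℝ)
        (H : ℕ → LnT F → ℕ → MvPolynomial (Option (Fin m)) ℝ)
        (T : ℕ → PtT F → ℕ → MvPolynomial (Option (Fin m)) ℝ)
        (TH : ℕ → LnT F → ℕ → MvPolynomial (Option (Fin m)) ℝ)
        (Gt : ℕ → PtT F → MvPolynomial (Option (Fin m)) ℝ)
        (Ht : ℕ → LnT F → MvPolynomial (Option (Fin m)) ℝ), Sub B A ∧
        Pe F.p A ≤ K₁ * Pe F.p B ∧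
        WG c (r + 1) D Dr N N₂ R C a Eb ε₀ η₀ Pt o lv be F b κ₁ z B gc gT g₀ G H T TH Gt Ht))
    (hS : SlHU S c r D Dw Dr N N₂ R C a Eb ε₀ η₀ χ mb Pt o lv be κ₁ K₃ Ξ) :
    WgCU S c r D Dw Dr N N₂ R C a Eb ε₀ η₀ χ mb Pt o lv be b κ (K₁ * K₃) Ξ := by
  refine Bas.mono 0 (hW.and (bas_big hS K₁)) ?_
  rintro J - F A ⟨⟨B, z, gc, gT, g₀, G, H, T, TH, Gt, Ht, hB, hPB, W⟩, w2⟩
  obtain ⟨B₂, CL, Cp, hB₂, hPB₂, hN, hΞ⟩ := w2 B hB hPB b z gc gT g₀ G H T TH Gt Ht W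
  refine ⟨B₂, z, gc, gT, g₀, G, H, T, TH, Gt, Ht, CL, Cp, fun ω hω => hB ω (hB₂ ω hω), ?_, ?_, hN,
    hΞ⟩
  · rw [mul_assoc]
    exact hPB.trans (mul_le_mul_of_nonneg_left hPB₂ hK₁)
  · refine W.res (κ₁ := 1 / K₃) hB₂ ?_ hκ ?_
    · rw [one_div_mul_eq_div, div_le_iff₀ hK₃, mul_comm]
      exact hPB₂
    · rw [mul_one_div, le_div_iff₀ hK₃]
      exact hκ₁

/-- **`WNU` in a class**, from `WgCU`. -/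
theorem wnU_con {S : PCl m} {c : ℕ → Fin m} {r D Dw Dr N N₂ : ℕ} {R : ℕ → Prop}
    {C a Eb ε₀ η₀ ζ χ mb : ℝ} {Pt : ℝ → ℝ → ℝ} {o : ℕ → ℝ} {lv be b : ℕ → ℕ → ℝ} {κ K₁ : ℝ}
    {Ξ : XiN m} {qf : ℕ → Fin r → ℕ} (hN1 : 1 ≤ N) (hN : 3 ≤ N₂) (hDD : D ≤ Dw)
    (hc : Set.InjOn c (Set.Iio (r + 2))) (hR : ∀ l < r, R l) (hC : 1 ≤ C) (hη₀ : 0 < η₀)
    (hPt0 : 3 * (C * η₀) ≤ Pt a (o 0)) (hlv1 : 0 ≤ lv 1 (r + 1))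
    (hoa : o 1 + 4 * (C * η₀) ≤ a) (ha : a ≤ 1)
    (hbe : ¬ R r → lv 1 r + (a - o 1) ≤ be 1 r + ζ)
    (h01 : mb + (o 3 - o 0) < o 0 - o 2) (h12 : o 3 - o 0 < mb) (h12' : η₀ ≤ o 3 - o 0)
    (h23 : η₀ ≤ o 1 - o 3) (hζ : 0 ≤ ζ)
    (hχ : C * η₀ + 2 * (ζ + 3 * (C * η₀)) + η₀ < χ)
    (hn : ∀ k ≤ 3, ∀ j < r, |lv k j - o k - (lv 0 j - o 0)| ≤ ζ)
    (hu2 : lv 0 r + (o 3 - o 0) ≤ lv 3 r + ζ) (hu3 : lv 3 r + (o 1 - o 3) ≤ lv 1 r + ζ)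
    (h2 : lv 0 (r + 1) + mb ≤ lv 3 (r + 1) + ζ)
    (h3 : lv 0 (r + 1) + (o 1 - o 0) + (mb - (o 3 - o 0)) ≤ lv 1 (r + 1) + ζ)
    (hPa : lv 0 (r + 1) + (a - o 0) + (mb - (o 3 - o 0)) ≤ Pt a (o 0) + ζ)
    (hqf : ∀ (J : ℕ) (i : Fin r), ⌊mb * J⌋₊ + (⌊o 3 * J⌋₊ - ⌊o 0 * J⌋₊) ≤ qf J i)
    (hW : WgCU S c r D Dw Dr N N₂ R C a Eb ε₀ η₀ χ mb Pt o lv be b κ K₁ Ξ) :
    Bas S (fun J F A => ∃ (B : F.Ω → Prop) (z gc gT g₀ : ℕ → ℕ → ℕ)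
      (G : ℕ → PtT F → ℕ → MvPolynomial (Option (Fin m)) ℝ)
      (H : ℕ → LnT F → ℕ → MvPolynomial (Option (Fin m)) ℝ)
      (T : ℕ → PtT F → ℕ → MvPolynomial (Option (Fin m)) ℝ)
      (TH : ℕ → LnT F → ℕ → MvPolynomial (Option (Fin m)) ℝ)
      (Gt : ℕ → PtT F → MvPolynomial (Option (Fin m)) ℝ)
      (Ht : ℕ → LnT F → MvPolynomial (Option (Fin m)) ℝ)
      (CL : LnT F → MvPolynomial (Option (Fin m)) ℝ)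
      (Cp : PtT F → MvPolynomial (Option (Fin m)) ℝ), Sub B A ∧ Pe F.p A ≤ K₁ * Pe F.p B ∧
      WNU c r D Dw Dr N N₂ R C a Eb ε₀ η₀ χ mb Pt o lv be F b κ z (qf J) B gc gT g₀ G H T TH Gt
        Ht CL Cp ∧ Ξ J F B g₀ G H Ht CL Cp) := by
  have hCη0 : 0 < C * η₀ := by positivity
  obtain ⟨pr, hpr⟩ : ∃ pr : ℝ, pr = prF C a η₀ Pt (fun k => lv k (r + 1)) o := ⟨_, rfl⟩
  have hprd : pr = min (Pt a (o 0) - 3 * (C * η₀)) (lv 1 (r + 1) + (a - o 1) - 3 * (C * η₀)) := hpr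
  have hpr1 : pr ≤ Pt a (o 0) - 3 * (C * η₀) := by rw [hprd]; exact min_le_left _ _
  have hpr2 : pr ≤ lv 1 (r + 1) + (a - o 1) - 3 * (C * η₀) := by rw [hprd]; exact min_le_right _ _
  have hpr0 : 0 ≤ pr := by
    rw [hprd]
    exact le_min (by linarith) (by linarith)
  have hprg : lv 0 (r + 1) + (a - o 0) + (mb - (o 3 - o 0)) ≤ pr + (ζ + 3 * (C * η₀)) := by
    rcases min_choice (Pt a (o 0) - 3 * (C * η₀))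
      (lv 1 (r + 1) + (a - o 1) - 3 * (C * η₀)) with h4 | h4
    · rw [hprd, h4]
      linarith
    · rw [hprd, h4]
      linarith
  have big : ∀ {x y : ℝ}, 0 < x → ∃ J₀ : ℕ, ∀ J : ℕ, J₀ ≤ J → y ≤ x * J := by
    intro x y hx
    refine ⟨⌈y / x⌉₊, fun J hJ => ?_⟩
    have h1 : y / x ≤ J := (Nat.le_ceil _).trans (by exact_mod_cast hJ)
    rw [div_le_iff₀ hx] at h1
    linarith
  obtain ⟨J₁, hJ₁⟩ := big (x := lv 1 (r + 1) + (a - o 1) - (pr + C * η₀ + η₀)) (y := 2) (by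
    have : η₀ ≤ C * η₀ := le_mul_of_one_le_left hη₀.le hC
    linarith)
  obtain ⟨J₂, hJ₂⟩ := big (x := mb - (o 3 - o 0)) (y := 2) (by linarith)
  obtain ⟨J₃, hJ₃⟩ := big (x := o 0 - o 2 - (mb + (o 3 - o 0))) (y := 3) (by linarith)
  obtain ⟨J₄, hJ₄⟩ := big (x := χ - (C * η₀ + 2 * (ζ + 3 * (C * η₀)) + η₀)) (y := 31)
    (by linarith)
  refine Bas.mono (max (max J₁ J₂) (max J₃ J₄)) hW ?_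
  rintro J hJ F A ⟨B, z, gc, gT, g₀, G, H, T, TH, Gt, Ht, CL, Cp, hB, hPB, W, WC, hΞ⟩
  have j1 := hJ₁ J (by omega)
  have j2 := hJ₂ J (by omega)
  have j3 := hJ₃ J (by omega)
  have j4 := hJ₄ J (by omega)
  have hJ0 : (0 : ℝ) ≤ J := Nat.cast_nonneg J
  refine ⟨B, z, gc, gT, g₀, G, H, T, TH, Gt, Ht, CL, Cp, hB, hPB, ?_, hΞ⟩
  have hP := W.nvp (x := ⌊χ * J⌋₊) (s := sN (lv 0) J r) (qe := qf J) (ξ := ζ + 3 * (C * η₀))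
    (mb := mb) (pr := pr) hN1 hN (fun l hl => sN_lt hl) sN_r hc hR
    (fun h => by linarith [hbe h])
    (by
      have h4 := (flo (mul_nonneg (by linarith : (0 : ℝ) ≤ χ) hJ0)).2
      linarith)
    ha (by linarith) (by linarith) (by linarith) (by linarith) (by linarith) hpr0
    (fun k hk j hj => by linarith [hn k hk j hj]) (by linarith) (by linarith) (by linarith)
    (by linarith) (by linarith) j1 hprg j2 j3 (hqf J)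
  rw [hpr] at hP
  refine ⟨hN1, hN, hDD, W, ?_⟩
  have hC' : NwCU F c r Dw ⌊mb * J⌋₊ (⌊o 3 * J⌋₊ - ⌊o 0 * J⌋₊) ⌊χ * J⌋₊ ⌊lv 0 r * J⌋₊
      (sN (lv 0) J r r) (fun k => ⌊o (fr4 k) * J⌋₊) (fun k => g₀ (fr4 k)) B
      (fun k => G (fr4 k)) (Ht 0) CL Cp := by
    rw [sN_r]
    exact WC
  exact ⟨hP.deg hDD, hC'⟩

/-- **The labels of the tubes of the precision of the balls** of `N - P(p, u)` exist on a part of mass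
at least `1 / K₂` of each event with the windows `WNU`. -/
def HImNU (S : PCl m) (c : ℕ → Fin m) (r D Dw Dr K D' N N₂ : ℕ) (R : ℕ → Prop)
    (C a Eb ε₀ η₀ χ mb : ℝ) (Pt : ℝ → ℝ → ℝ) (o : ℕ → ℝ) (lv be : ℕ → ℕ → ℝ) (κ : ℝ)
    (qf : ℕ → Fin r → ℕ) (δ K₂ : ℝ) (Ξ : XiN m) : Prop :=
  Bas S (fun J F B => ∀ (b : ℕ → ℕ → ℝ) (z : ℕ → ℕ → ℕ) (gc gT g₀ : ℕ → ℕ → ℕ)
    (G : ℕ → PtT F → ℕ → MvPolynomial (Option (Fin m)) ℝ)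
    (H : ℕ → LnT F → ℕ → MvPolynomial (Option (Fin m)) ℝ)
    (T : ℕ → PtT F → ℕ → MvPolynomial (Option (Fin m)) ℝ)
    (TH : ℕ → LnT F → ℕ → MvPolynomial (Option (Fin m)) ℝ)
    (Gt : ℕ → PtT F → MvPolynomial (Option (Fin m)) ℝ)
    (Ht : ℕ → LnT F → MvPolynomial (Option (Fin m)) ℝ)
    (CL : LnT F → MvPolynomial (Option (Fin m)) ℝ)
    (Cp : PtT F → MvPolynomial (Option (Fin m)) ℝ),
    WNU c r D Dw Dr N N₂ R C a Eb ε₀ η₀ χ mb Pt o lv be F b κ z (qf J) B gc gT g₀ G H T TH Gt Ht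
      CL Cp → Ξ J F B g₀ G H Ht CL Cp →
    ∃ (B₂ : F.Ω → Prop) (V V' : Type) (v : F.Ω → V) (v' : F.Ω → V') (ξ : LnT F → Fin r → ℝ)
      (np : LnT F → Polynomial ℝ) (Pn : LnT F → Gr K r → Polynomial ℝ), Sub B₂ B ∧
      Pe F.p B ≤ K₂ * Pe F.p B₂ ∧
      ImC K r D' (⌊o 3 * J⌋₊ - ⌊o 0 * J⌋₊) ⌊mb * J⌋₊ (2 ^ (J - ⌊o 0 * J⌋₊)) δ
        (Pool.Agent.H49.Ent.cond F.p B₂ True) (slam F ⌊o 0 * J⌋₊) (twF F ⌊o 0 * J⌋₊)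
        (kzF F c (sN (lv 0) J r) r ⌊o 0 * J⌋₊ (⌊o 3 * J⌋₊ - ⌊o 0 * J⌋₊) v v' (G 2)
          (fun y => nW c r (G 0 y) (Cp y)) (fun y => nW c r (G 3 y) (Cp y)))
        (Pfz c (sN (lv 0) J r) r (⌊o 3 * J⌋₊ - ⌊o 0 * J⌋₊) J ((Dw + 1) * (Dw + 1)))
        (scF F c (sN (lv 0) J r) r ⌊o 0 * J⌋₊ (⌊o 0 * J⌋₊ - ⌊o 2 * J⌋₊)
          (⌊o 3 * J⌋₊ - ⌊o 0 * J⌋₊) (qf J) (G 2) (H 2)) ξ np Pn)

/-- **The velocities are in no hyperplane of the record**, for the windows `WNU`. -/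
def NhNU (S : PCl m) (c : ℕ → Fin m) (r D Dw Dr N N₂ : ℕ) (R : ℕ → Prop)
    (C a Eb ε₀ η₀ χ mb : ℝ) (Pt : ℝ → ℝ → ℝ) (o : ℕ → ℝ) (lv be : ℕ → ℕ → ℝ) (κ : ℝ)
    (qf : ℕ → Fin r → ℕ) (δ : ℝ) : Prop :=
  Bas S (fun J F A => ∀ (b : ℕ → ℕ → ℝ) (z : ℕ → ℕ → ℕ) (gc gT g₀ : ℕ → ℕ → ℕ)
    (G : ℕ → PtT F → ℕ → MvPolynomial (Option (Fin m)) ℝ)
    (H : ℕ → LnT F → ℕ → MvPolynomial (Option (Fin m)) ℝ)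
    (T : ℕ → PtT F → ℕ → MvPolynomial (Option (Fin m)) ℝ)
    (TH : ℕ → LnT F → ℕ → MvPolynomial (Option (Fin m)) ℝ)
    (Gt : ℕ → PtT F → MvPolynomial (Option (Fin m)) ℝ)
    (Ht : ℕ → LnT F → MvPolynomial (Option (Fin m)) ℝ)
    (CL : LnT F → MvPolynomial (Option (Fin m)) ℝ)
    (Cp : PtT F → MvPolynomial (Option (Fin m)) ℝ),
    WNU c r D Dw Dr N N₂ R C a Eb ε₀ η₀ χ mb Pt o lv be F b κ z (qf J) A gc gT g₀ G H T TH Gt Ht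
      CL Cp →
    ∀ (V V' : Type) (v : F.Ω → V) (v' : F.Ω → V'), Cl2 (ptr F J) (vg (o 0) J F) A v →
    Cl2 (ptr F J) (vg (o 3) J F) A v' →
    NoHyp (Pool.Agent.H49.Ent.cond F.p A True) (fun ω => Xe r (qf J)
      (eL c (sN (lv 0) J r) r ⌊o 0 * J⌋₊ (qf J)
        (frH F r (⌊o 0 * J⌋₊ - ⌊o 2 * J⌋₊) (H 2) (slam F ⌊o 0 * J⌋₊ ω)) (slam F ⌊o 0 * J⌋₊ ω)))
      (kzF F c (sN (lv 0) J r) r ⌊o 0 * J⌋₊ (⌊o 3 * J⌋₊ - ⌊o 0 * J⌋₊) v v' (G 2)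
        (fun y => nW c r (G 0 y) (Cp y)) (fun y => nW c r (G 3 y) (Cp y)))
      (2 ^ (-(δ * (⌊o 3 * J⌋₊ - ⌊o 0 * J⌋₊ : ℕ)))) δ)

/-- **The velocity of the target `N - P(p, u)` is dead** on a part of mass at least `1 / K₂` of each
event with the windows `WNU`, for all almost maximal records `v` of the window `o 0`. `kk`: the
precision of the positions, `kk ≥ mb`. -/
def VfNU (S : PCl m) (c : ℕ → Fin m) (r D Dw Dr N N₂ : ℕ) (R : ℕ → Prop)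
    (C a Eb ε₀ η₀ χ mb kk : ℝ) (Pt : ℝ → ℝ → ℝ) (o : ℕ → ℝ) (lv be : ℕ → ℕ → ℝ) (κ : ℝ)
    (qf : ℕ → Fin r → ℕ) (δ K₂ : ℝ) (Ξ : XiN m) : Prop :=
  ∃ k₂ : ℝ, 0 < k₂ ∧ Bas S (fun J F B => ∀ (b : ℕ → ℕ → ℝ) (z : ℕ → ℕ → ℕ) (gc gT g₀ : ℕ → ℕ → ℕ)
    (G : ℕ → PtT F → ℕ → MvPolynomial (Option (Fin m)) ℝ)
    (H : ℕ → LnT F → ℕ → MvPolynomial (Option (Fin m)) ℝ)
    (T : ℕ → PtT F → ℕ → MvPolynomial (Option (Fin m)) ℝ)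
    (TH : ℕ → LnT F → ℕ → MvPolynomial (Option (Fin m)) ℝ)
    (Gt : ℕ → PtT F → MvPolynomial (Option (Fin m)) ℝ)
    (Ht : ℕ → LnT F → MvPolynomial (Option (Fin m)) ℝ)
    (CL : LnT F → MvPolynomial (Option (Fin m)) ℝ)
    (Cp : PtT F → MvPolynomial (Option (Fin m)) ℝ),
    WNU c r D Dw Dr N N₂ R C a Eb ε₀ η₀ χ mb Pt o lv be F b κ z (qf J) B gc gT g₀ G H T TH Gt Ht
      CL Cp → Ξ J F B g₀ G H Ht CL Cp →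
    ∃ B₂ : F.Ω → Prop, Sub B₂ B ∧ Pe F.p B ≤ K₂ * Pe F.p B₂ ∧
      ∀ (V : Type) (v : F.Ω → V) (vL : LnT F → V),
      Mx (fun J F => ptr F J) (vg (o 0)) k₂ F B₂ v →
      (∀ ω, B₂ ω → v ω = vL (slam F ⌊o 0 * J⌋₊ ω)) → (∀ ω ω', v ω = v ω' → F.Z ω = F.Z ω') →
      VelF (⌊o 3 * J⌋₊ - ⌊o 0 * J⌋₊) ⌊mb * J⌋₊ ⌊kk * J⌋₊ (2 ^ (J - ⌊o 0 * J⌋₊)) δ
        (Pool.Agent.H49.Ent.cond F.p B₂ True) (slam F ⌊o 0 * J⌋₊) (twF F ⌊o 0 * J⌋₊)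
        (kaF F c (sN (lv 0) J r) r ⌊o 0 * J⌋₊ (⌊o 3 * J⌋₊ - ⌊o 0 * J⌋₊) v (G 2)
          (fun y => nW c r (G 0 y) (Cp y)))
        (fun ω => eL c (sN (lv 0) J r) r ⌊o 0 * J⌋₊ (qf J)
          (frH F r (⌊o 0 * J⌋₊ - ⌊o 2 * J⌋₊) (H 2) (slam F ⌊o 0 * J⌋₊ ω)) (slam F ⌊o 0 * J⌋₊ ω))
        (ctF F c (sN (lv 0) J r) r ⌊o 0 * J⌋₊ (⌊o 0 * J⌋₊ - ⌊o 2 * J⌋₊)
          (⌊o 3 * J⌋₊ - ⌊o 0 * J⌋₊) (qf J) (H 2) (fun L => nW c r (H 0 L) (CL L)) vL)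
        (fun L => xL c (sN (lv 0) J r) r ⌊o 0 * J⌋₊ (⌊o 3 * J⌋₊ - ⌊o 0 * J⌋₊)
          (frH F r (⌊o 0 * J⌋₊ - ⌊o 2 * J⌋₊) (H 2) L) L)
        (nT F (sN (lv 0) J r) r ⌊o 0 * J⌋₊ (nwp F c r ⌊o 0 * J⌋₊ CL)
          (fun L => nW c r (H 0 L) (CL L))))

/-- The slope hypothesis without the row label. -/
theorem SlH.toU {S : PCl m} {c : ℕ → Fin m} {r D Dw Dr N N₂ : ℕ} {R : ℕ → Prop}
    {C a Eb ε₀ η₀ χ mb : ℝ} {Pt : ℝ → ℝ → ℝ} {o : ℕ → ℝ} {lv be : ℕ → ℕ → ℝ} {κ K₃ : ℝ} {Ξ : XiN m}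
    (h : SlH S c r D Dw Dr N N₂ R C a Eb ε₀ η₀ χ mb Pt o lv be κ K₃ Ξ) :
    SlHU S c r D Dw Dr N N₂ R C a Eb ε₀ η₀ χ mb Pt o lv be κ K₃ Ξ := by
  refine Bas.mono 0 h ?_
  intro J _ F B w b z gc gT g₀ G H T TH Gt Ht W
  obtain ⟨B₂, CL, Cp, h1, h2, h3, h4⟩ := w b z gc gT g₀ G H T TH Gt Ht W
  exact ⟨B₂, CL, Cp, h1, h2, h3.toU, h4⟩

/-- `NhN` from `NhNU`. -/
theorem NhNU.toN {S : PCl m} {c : ℕ → Fin m} {r D Dw Dr N N₂ : ℕ} {R : ℕ → Prop}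
    {C a Eb ε₀ η₀ χ mb : ℝ} {Pt : ℝ → ℝ → ℝ} {o : ℕ → ℝ} {lv be : ℕ → ℕ → ℝ} {κ : ℝ}
    {qf : ℕ → Fin r → ℕ} {δ : ℝ}
    (h : NhNU S c r D Dw Dr N N₂ R C a Eb ε₀ η₀ χ mb Pt o lv be κ qf δ) :
    NhN S c r D Dw Dr N N₂ R C a Eb ε₀ η₀ χ mb Pt o lv be κ qf δ := by
  refine Bas.mono 0 h ?_
  intro J _ F B w b z gc gT g₀ G H T TH Gt Ht CL Cp W
  exact w b z gc gT g₀ G H T TH Gt Ht CL Cp W.toU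

/-- `VfN` from `VfNU`. -/
theorem VfNU.toN {S : PCl m} {c : ℕ → Fin m} {r D Dw Dr N N₂ : ℕ} {R : ℕ → Prop}
    {C a Eb ε₀ η₀ χ mb kk : ℝ} {Pt : ℝ → ℝ → ℝ} {o : ℕ → ℝ} {lv be : ℕ → ℕ → ℝ} {κ : ℝ}
    {qf : ℕ → Fin r → ℕ} {δ K₂ : ℝ} {Ξ : XiN m}
    (h : VfNU S c r D Dw Dr N N₂ R C a Eb ε₀ η₀ χ mb kk Pt o lv be κ qf δ K₂ Ξ) :
    VfN S c r D Dw Dr N N₂ R C a Eb ε₀ η₀ χ mb kk Pt o lv be κ qf δ K₂ Ξ := by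
  obtain ⟨k₂, hk₂, h⟩ := h
  refine ⟨k₂, hk₂, Bas.mono 0 h ?_⟩
  intro J _ F B w b z gc gT g₀ G H T TH Gt Ht CL Cp W
  exact w b z gc gT g₀ G H T TH Gt Ht CL Cp W.toU

/-- **`NwEU` from `WNU`.** -/
theorem WNU.nwe {m : ℕ} {c : ℕ → Fin m} {r D Dw Dr N N₂ : ℕ} {R : ℕ → Prop} {C a Eb ε₀ η₀ χ mb : ℝ}
    {Pt : ℝ → ℝ → ℝ} {o : ℕ → ℝ} {lv be : ℕ → ℕ → ℝ} {J : ℕ} {F : Fam m J} {b : ℕ → ℕ → ℝ} {κ : ℝ}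
    {z : ℕ → ℕ → ℕ} {qe : Fin r → ℕ} {B : F.Ω → Prop} {gc gT g₀ : ℕ → ℕ → ℕ}
    {G : ℕ → PtT F → ℕ → MvPolynomial (Option (Fin m)) ℝ}
    {H : ℕ → LnT F → ℕ → MvPolynomial (Option (Fin m)) ℝ}
    {T : ℕ → PtT F → ℕ → MvPolynomial (Option (Fin m)) ℝ}
    {TH : ℕ → LnT F → ℕ → MvPolynomial (Option (Fin m)) ℝ}
    {Gt : ℕ → PtT F → MvPolynomial (Option (Fin m)) ℝ}
    {Ht : ℕ → LnT F → MvPolynomial (Option (Fin m)) ℝ}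
    {CL : LnT F → MvPolynomial (Option (Fin m)) ℝ} {Cp : PtT F → MvPolynomial (Option (Fin m)) ℝ}
    (W : WNU c r D Dw Dr N N₂ R C a Eb ε₀ η₀ χ mb Pt o lv be F b κ z qe B gc gT g₀ G H T TH Gt Ht
      CL Cp) (h20 : o 2 + η₀ ≤ o 0) (h23 : o 2 + η₀ ≤ o 3) :
    NwEU F c r Dw 3 N₂ ⌊a * J⌋₊ ⌊mb * J⌋₊ (⌊o 0 * J⌋₊ - ⌊o 2 * J⌋₊)
    (⌊o 3 * J⌋₊ - ⌊o 0 * J⌋₊) ⌊χ * J⌋₊ ⌊prF C a η₀ Pt (fun k => lv k (r + 1)) o * J⌋₊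
    ⌊(Eb + 2 * η₀) * J⌋₊ ⌊lv 0 r * J⌋₊ (sN (lv 0) J r) qe
    (fun k => ⌊o (fr4 k) * J⌋₊) (fun k => z (fr4 k)) (fun k l => ⌊b (fr4 k) l * J⌋₊)
    (gX gc) (gX gT) (fun k => g₀ (fr4 k)) B (fun k => G (fr4 k)) (tX F c G T)
    (fun k => H (fr4 k)) (fun k => TH (fr4 k)) (Ht 0) CL Cp where
  toNwDU := W.nw
  cl2 := fun ω hω l hl => (W.wg.wb.ev 3 W.n3).cls ω hω l (by omega)
  rad0 := by
    have hn3 := W.n3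
    have h1 := (W.wg.wb.ev 2 (by omega)).rad 3 (by omega)
    have h2 := W.wg.zz 2 (by omega) 3 (by omega) h23
    have hη0 : 0 ≤ η₀ := (W.wg.wb.hη 0 (by omega)).1
    have hJ : (0 : ℝ) ≤ J := Nat.cast_nonneg J
    have h3 : ⌊o 2 * J⌋₊ ≤ ⌊o 3 * J⌋₊ :=
      Nat.floor_le_floor (mul_le_mul_of_nonneg_right (by linarith) hJ)
    rw [h2] at h1
    have h4 : ⌊o 2 * J⌋₊ + (⌊o 3 * J⌋₊ - ⌊o 2 * J⌋₊) = ⌊o 3 * J⌋₊ := by omega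
    rw [h4] at h1
    refine h1.mono (by omega) (fun _ => W.DD) le_rfl ?_
    refine Nat.floor_le_floor (mul_le_mul_of_nonneg_right ?_ hJ)
    linarith
  z01 := by
    have hn3 := W.n3
    exact ⟨0, by omega, W.wg.zz 2 (by omega) 0 (by omega) h20⟩

/-- Smaller events. -/
theorem WNU.res {m : ℕ} {c : ℕ → Fin m} {r D Dw Dr N N₂ : ℕ} {R : ℕ → Prop}
    {C a Eb ε₀ η₀ χ mb : ℝ}
    {Pt : ℝ → ℝ → ℝ} {o : ℕ → ℝ} {lv be : ℕ → ℕ → ℝ} {J : ℕ} {F : Fam m J} {b : ℕ → ℕ → ℝ} {κ : ℝ}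
    {z : ℕ → ℕ → ℕ} {qe : Fin r → ℕ} {B : F.Ω → Prop} {gc gT g₀ : ℕ → ℕ → ℕ}
    {G : ℕ → PtT F → ℕ → MvPolynomial (Option (Fin m)) ℝ}
    {H : ℕ → LnT F → ℕ → MvPolynomial (Option (Fin m)) ℝ}
    {T : ℕ → PtT F → ℕ → MvPolynomial (Option (Fin m)) ℝ}
    {TH : ℕ → LnT F → ℕ → MvPolynomial (Option (Fin m)) ℝ}
    {Gt : ℕ → PtT F → MvPolynomial (Option (Fin m)) ℝ}
    {Ht : ℕ → LnT F → MvPolynomial (Option (Fin m)) ℝ}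
    {CL : LnT F → MvPolynomial (Option (Fin m)) ℝ} {Cp : PtT F → MvPolynomial (Option (Fin m)) ℝ}
    (W : WNU c r D Dw Dr N N₂ R C a Eb ε₀ η₀ χ mb Pt o lv be F b κ z qe B gc gT g₀ G H T TH Gt Ht
      CL Cp) {B' : F.Ω → Prop} {κ₁ κ₂ : ℝ} (hB : Sub B' B) (hP : κ₁ * Pe F.p B ≤ Pe F.p B')
    (h2 : 0 ≤ κ₂) (hκ : κ ≤ κ₂ * κ₁) :
    WNU c r D Dw Dr N N₂ R C a Eb ε₀ η₀ χ mb Pt o lv be F b κ₂ z qe B' gc gT g₀ G H T TH Gt Ht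
      CL Cp :=
  ⟨W.n1, W.n3, W.DD, W.wg.res hB hP h2 hκ, W.nw.toNvP.sub hB, W.nw.toNwCU.mono hB le_rfl le_rfl⟩

/-- `NwEU` on smaller events. -/
theorem NwEU.sub {J : ℕ} {F : Fam m J} {c : ℕ → Fin m}
    {r D n M ar MB q₀ Q x p e su : ℕ} {s : ℕ → ℕ} {qe : Fin r → ℕ} {o : ℕ → ℕ}
    {z g gc gT g₀ : ℕ → ℕ → ℕ} {B B' : F.Ω → Prop}
    {G T : ℕ → PtT F → ℕ → MvPolynomial (Option (Fin m)) ℝ}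
    {H TH : ℕ → LnT F → ℕ → MvPolynomial (Option (Fin m)) ℝ}
    {Ht CL : LnT F → MvPolynomial (Option (Fin m)) ℝ}
    {Cp : PtT F → MvPolynomial (Option (Fin m)) ℝ}
    (W : NwEU F c r D n M ar MB q₀ Q x p e su s qe o z g gc gT g₀ B G T H TH Ht CL Cp)
    (hB : Sub B' B) :
    NwEU F c r D n M ar MB q₀ Q x p e su s qe o z g gc gT g₀ B' G T H TH Ht CL Cp :=
  { W.toNvP.sub hB, W.toNwCU.mono hB le_rfl le_rfl with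
    cl2 := fun ω hω => W.cl2 ω (hB ω hω)
    rad0 := W.rad0.sub hB
    z01 := W.z01 }

end Pool.V1E
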