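import Pool.Agent.H3.D2G.RecN
import Pool.Agent.H73.D2.Tmx

/-!
# The record of the end of the target `N - P(p, u)`, the deep window and the radius free
-/

set_option autoImplicit false

namespace Pool.PKG

open Finset Real
open Pool.Agent.H49.Ent Pool.Agent.H32.Dense Pool.STK Pool.KA Pool.KSAT Pool.K2S Pool.PB
open Pool.GEN Pool.S6C Pool.STAT Pool.CHT Pool.GRW Pool.ONE Pool.STA
open Pool.LBT (LSys ThrOf)
open Pool.LEV (Law)
open Pool.ALL (RateOf)
open Pool.ISO (PtD lvN WinD)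
open Pool.V1E (RecNy vG vG_ge)
open Pool.D2R (BalD)

variable {m : ℕ} {S : PCl m} {al : ℝ} {g₀ : ℝ → ℝ} {P : List (Fin m) × Fin m → ℝ → ℝ → ℝ}
  {θ : ℝ} {P₂ : ℕ → List (Fin m) × Fin m → ℝ → ℝ → ℝ} {θ₂ Eb e₂ : ℕ → ℝ}
  {c : ℕ → Fin m} {Pt : ℝ → ℝ → ℝ} {rt : ℝ → ℝ} {h K₀ g : ℝ} {L T : ℕ → ℝ → ℝ → ℝ}
  {Sl : ℕ → ℝ} {κ : ℕ → Kg} {G : Set ℝ} {S₀ N : ℕ} {A V : ℕ → ℝ} {S₂ N' : ℕ} {V' : ℕ → ℝ}
  {K ε q t : ℝ}
  (R : RecG S al g₀ P θ P₂ θ₂ Eb e₂ c Pt rt h K₀ g L T Sl κ G S₀ N A V S₂ N' V' K ε q t)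
include R

/-- **The record of the end** of the target `N - P(p, u)` at the place `r + 1`. -/
theorem RecG.recNy {r : ℕ} (hr : r + 1 < m) (hκ : ∀ l < r, κ l = .one) (hκu : κ r ≠ .any)
    (hκt : κ (r + 1) = .stp) {Rg : ℕ → Prop} (hRg : ∀ l ≤ r, Rg l → κ l = .one ∨ κ l = .thin)
    (hRg1 : ∀ l < r, Rg l) (hRgu : κ r = .thin ∨ κ r = .one → Rg r) {N₁ N₂ : ℕ} (hN1 : 1 ≤ N₁)
    (hN12 : N₁ ≤ N₂) (hN2 : 3 ≤ N₂) {y a k₁ : ℝ} {vw : ℕ → ℝ} (hy : 3 / 2 ≤ y)
    (hya : y + 1 / 2 ≤ a) (hsa : Sl (r + 1) + 1 ≤ a) (hS : S₀ ≤ S₂)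
    (hw : ∀ k ≤ N₁, ∃ j < N, A j = a ∧ V j = vG y k₁ vw k)
    (hb : ∀ k, N₁ < k → k ≤ N₂ → ∃ j < N', V' j = vG y k₁ vw k)
    (hr' : ∃ j < N, A j = 1 ∧ V j = 0) (hε : 0 ≤ ε) (hε1 : ε ≤ 1)
    (hvw : ∀ k, 4 ≤ k → k ≤ N₂ → -K ≤ vw k ∧ vw k ≤ a - 1 / 2)
    (hvwl : ∀ k, 4 ≤ k → k ≤ N₁ → -k₁ ≤ vw k)
    (hkk : a + 1 ≤ k₁) (hkK : 2 * a + k₁ + 4 ≤ K) :
    RecNy S P (P₂ (r + 1)) θ (θ₂ (r + 1)) c r (L (r + 1)) Rg S₂ N₁ N₂ vw (Sl r) (Sl (r + 1)) y a k₁
      K (Eb (r + 1)) (e₂ (r + 1)) ε q t := by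
  have W := R.tg (r + 1) (by omega) hr
  have hkd := R.kd (r + 1) hr
  rw [hκt] at hkd
  obtain ⟨s, hs⟩ : ∃ s, s = Sl (r + 1) := ⟨_, rfl⟩
  rw [← hs] at hsa ⊢
  have hs2 : 2 < s := by
    rw [hs]
    exact hkd.1
  have hq := R.q0
  have hlv : ∀ l ≤ r + 1, ∀ a w : ℝ, lvN P c (r + 1) (L (r + 1)) l a w = L l a w :=
    fun l hl a w => by rw [← R.lv_at hr hl]
  have hvF : ∀ k ≤ N₂, -K ≤ vG y k₁ vw k ∧ vG y k₁ vw k ≤ a - 1 / 2 := by
    intro k hk
    rcases Nat.lt_or_ge k 4 with h4 | h4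
    · interval_cases k
      · norm_num [vG]
        constructor <;> linarith
      · norm_num [vG]
        constructor <;> linarith
      · norm_num [vG]
        constructor <;> linarith
      · norm_num [vG]
        constructor <;> linarith
    · rw [vG_ge h4]
      exact hvw k h4 hk
  have hvFl : ∀ k ≤ N₁, -k₁ ≤ vG y k₁ vw k := by
    intro k hk
    rcases Nat.lt_or_ge k 4 with h4 | h4
    · interval_cases k
      · norm_num [vG]
        linarith
      · norm_num [vG]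
        linarith
      · norm_num [vG]
      · norm_num [vG]
        linarith
    · rw [vG_ge h4]
      exact hvwl k h4 hk
  have hK0 : 0 ≤ K := by linarith
  have hKq : 0 ≤ K * q := mul_nonneg hK0 hq.le
  have hkq : k₁ * q + 2 * (a * q) + 4 * q ≤ K * q := by
    have := mul_le_mul_of_nonneg_right hkK hq.le
    linarith
  have hs2q : 2 * q < s * q := mul_lt_mul_of_pos_right hs2 hq
  have hyq : 3 / 2 * q ≤ y * q := mul_le_mul_of_nonneg_right hy hq.le
  have hyaq : y * q + q / 2 ≤ a * q := by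
    have := mul_le_mul_of_nonneg_right hya hq.le
    linarith
  have hsaq : s * q + q ≤ a * q := by
    have := mul_le_mul_of_nonneg_right hsa hq.le
    linarith
  have hk₁q : a * q + q ≤ k₁ * q := by
    have := mul_le_mul_of_nonneg_right hkk hq.le
    linarith
  have htt : |t - t| ≤ K * q := by
    rw [sub_self, abs_zero]
    exact hKq
  have ht0 := R.t0
  have ht1 := R.t1
  have hεq : 0 ≤ ε * q := mul_nonneg hε hq.le
  have hε1q : ε * q ≤ q := by
    have := mul_le_mul_of_nonneg_right hε1 hq.le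
    linarith
  obtain ⟨jw, hjw⟩ : ∃ j : ℕ → ℕ, ∀ k ≤ N₁, j k < N ∧ A (j k) = a ∧ V (j k) = vG y k₁ vw k := by
    choose! j hj using hw
    exact ⟨j, hj⟩
  refine ⟨R.ne, R.thr, R.th0, W.thr₂, R.tmh, R.inj.mono fun x hx => ?_, R.lawL _ hr, W.Eb0.le, hq,
    hε, ⟨hy, hya, hsa⟩, hkk, hkK, ht0, ht1, hN1, hN12, hN2, fun k hk => ?_, fun k hk hk' => ?_,
    fun k hk hk' => (hvw k hk hk').2, hvwl, hRg1, fun l hl x hx => ?_, fun x hx => ?_,
    fun x hx => ?_, fun l hl x hx => ?_, W.eθ, W.Ebe, fun hRr => ?_, ?_, fun k hk => ?_,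
    fun e he => ?_⟩
  · rw [Set.mem_Iio] at hx ⊢
    omega
  · obtain ⟨k1, k2, k3⟩ := hjw k hk
    obtain ⟨h1, h2⟩ := hvF k (hk.trans hN12)
    have h3 := R.winD (i := r + 1) (by omega) hr k1 (by rw [k3]; exact h1)
      (by rw [k2, k3]; linarith) (by rw [k2]; linarith) (ε' := 3 * ε * q) le_rfl hε (Rg := Rg)
      (fun l hl hRl => hRg l (by omega) hRl)
    rw [k2, k3] at h3
    exact h3
  · obtain ⟨j, hj, hjV⟩ := hb k hk hk'
    obtain ⟨h1, h2⟩ := hvF k hk'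
    have h3 := R.balD_at (i := r + 1) (by omega) hr hS hj (x := a) (by rw [hjV]; linarith)
      (by rw [hjV]; linarith) (by
        rw [hjV, abs_le]
        constructor <;> linarith)
    rw [hjV] at h3
    exact h3
  · have h1 := R.dL l (by omega) x hx
    have h2 := R.kd l (by omega)
    rw [hκ l hl] at h2
    have h3 : Sl l = 1 := h2
    rw [h3, one_mul] at h1
    rw [hlv l (by omega), hlv l (by omega)]
    exact h1
  · have h1 := R.dL r (by omega) x hx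
    rw [hlv r (by omega), hlv r (by omega)]
    exact h1
  · rw [hs]
    exact R.dL (r + 1) hr x hx
  · have h1 := W.room l hl x hx
    rw [hlv l hl]
    exact h1
  · -- the level of `u` at the deep ball
    have hx1 : |t + y * q - t| ≤ K * q := by
      rw [add_sub_cancel_left, abs_of_pos (by linarith)]
      linarith
    have hx2 : |t + a * q - t| ≤ K * q := by
      rw [add_sub_cancel_left, abs_of_pos (by linarith)]
      linarith
    have h1 := abs_le.1 (R.dL r (by omega) _ hx1)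
    have h2 := abs_le.1 (R.dL r (by omega) _ hx2)
    have h3 := abs_le.1 (R.dT r (by omega) _ hx1)
    have h4 := R.kd r (by omega)
    have e1 : lvN P c (r + 1) (L (r + 1)) r (t + y * q) (t + y * q) =
        L r (t + y * q) (t + y * q) := hlv r (by omega) _ _
    rw [e1, ← R.lv_lt (l := r) (by omega)]
    have e2 : t + y * q - t = y * q := by ring
    have e3 : t + a * q - t = a * q := by ring
    rw [e2] at h1 h3
    rw [e3] at h2
    rcases hk : κ r with _ | _ | _ | _ | _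
    · exact absurd (hRgu (Or.inr hk)) hRr
    · exact absurd (hRgu (Or.inl hk)) hRr
    · rw [hk] at h4
      have h5 := h4.2 (t + a * q) (t + y * q) (by linarith) (by linarith) (by linarith)
      have h6 : 2 * (a * q - y * q) ≤ Sl r * (a * q - y * q) :=
        mul_le_mul_of_nonneg_right h4.1 (by linarith)
      have e4 : Sl r * (a * q - y * q) = Sl r * (a * q) - Sl r * (y * q) := by ring
      linarith [h1.1, h1.2, h2.1, h2.2]
    · rw [hk] at h4
      have h5 := h4.2 (t + a * q) (t + y * q) (by linarith) (by linarith) (by linarith)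
      obtain ⟨k1, k2, k3⟩ := hjw 1 hN1
      have h6 := (R.TL _ k1 r (by omega)).1
      rw [k2, k3] at h6
      have e4 : vG y k₁ vw 1 = y := by norm_num [vG]
      rw [e4] at h6
      linarith [h1.1, h1.2, h3.1, h3.2]
    · exact absurd hk hκu
  · have h1 := hkd.2 (t + a * q) t (by linarith) (by linarith) (by linarith)
    obtain ⟨k1, k2, k3⟩ := hjw 0 (by omega)
    have h2 := (R.TL _ k1 (r + 1) hr).1
    have h3 := abs_le.1 (R.dT (r + 1) hr t htt)
    have e1 : vG y k₁ vw 0 = 0 := by norm_num [vG]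
    rw [k2, k3, e1] at h2
    simp only [zero_mul, add_zero] at h2
    linarith [h3.1]
  · obtain ⟨h1, h2⟩ := hvF k (hk.trans hN12)
    have h3 := mul_le_mul_of_nonneg_right h1 hq.le
    have h4 := mul_le_mul_of_nonneg_right h2 hq.le
    have h5 : 0 ≤ t + vG y k₁ vw k * q := by linarith
    exact ⟨R.low_at hr h5 le_rfl (by linarith), R.low_at hr h5 (by linarith) (by linarith)⟩
  · obtain ⟨j, hj, hjA, hjV⟩ := hr'
    obtain ⟨d, hd, h1⟩ := W.ratN hj e he
    refine ⟨d, hd, fun a' w' k1 k2 k3 k4 k5 => ?_⟩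
    rw [hjA, hjV, one_mul, zero_mul, add_zero] at h1
    exact h1 a' w' k1 k2 k3 k4 k5

end Pool.PKG
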