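import Pool.Agent.H73.D2.Tlf

/-!
# The heights along the line are almost affine

The frame is closed on the window `w - q₀`: the heights, in natural units of the window `w`, are
affine in the relative time of the window `w`, up to `2 ^ (-q₀)`.
-/

set_option autoImplicit false

namespace Pool.V1E

open Finset Real
open Pool.KA Pool.KSAT Pool.PB Pool.GEN Pool.D2R Pool.D2G30
open Pool.PB.Trl (rt rt_mem t_rt)

/-- **Taylor on a small interval.** -/
theorem sub_tay (K : ℕ) : ∃ C : ℝ, 1 ≤ C ∧ ∀ (f : Polynomial ℝ) (M a b : ℝ), f.natDegree ≤ K →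
    0 ≤ a → 0 ≤ b → a + b ≤ 1 → (∀ t ∈ Set.Icc (0 : ℝ) 1, |f.eval t| ≤ M) →
    ∀ u ∈ Set.Icc (0 : ℝ) 1,
    |(Polynomial.derivative (f.comp (Polynomial.C a + Polynomial.C b * Polynomial.X))).eval u| ≤
      C * M * b ∧
    |(Polynomial.derivative (f.comp (Polynomial.C a + Polynomial.C b * Polynomial.X))).eval u -
      (Polynomial.derivative (f.comp (Polynomial.C a + Polynomial.C b * Polynomial.X))).eval 0| ≤
      C * M * b ^ 2 ∧
    |(f.comp (Polynomial.C a + Polynomial.C b * Polynomial.X)).eval u -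
      (f.comp (Polynomial.C a + Polynomial.C b * Polynomial.X)).eval 0 -
      u * (Polynomial.derivative (f.comp (Polynomial.C a + Polynomial.C b * Polynomial.X))).eval 0| ≤
      C * M * b ^ 2 := by
  obtain ⟨C₁, hC₁, hder⟩ := der_one K
  obtain ⟨C₂, hC₂, hlip⟩ := Pool.Agent.H40.SLP.lip_one K
  refine ⟨C₂ * C₁, by nlinarith, ?_⟩
  intro f M a b hf ha hb hab hM
  have hM0 : 0 ≤ M := (abs_nonneg _).trans (hM 0 ⟨le_rfl, zero_le_one⟩)
  obtain ⟨g, hg⟩ : ∃ g, g = f.comp (Polynomial.C a + Polynomial.C b * Polynomial.X) := ⟨_, rfl⟩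
  rw [← hg]
  have hg' : ∀ u, (Polynomial.derivative g).eval u =
      b * (Polynomial.derivative f).eval (a + b * u) := by
    intro u
    rw [hg, Polynomial.derivative_comp]
    simp
  have hmem : ∀ u ∈ Set.Icc (0 : ℝ) 1, a + b * u ∈ Set.Icc (0 : ℝ) 1 := by
    intro u hu
    constructor
    · nlinarith [hu.1]
    · nlinarith [hu.2]
  have hf' : ∀ t ∈ Set.Icc (0 : ℝ) 1, |(Polynomial.derivative f).eval t| ≤ C₁ * M := by
    intro t ht
    exact hder f M hf hM t (by rw [abs_of_nonneg ht.1]; exact ht.2)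
  have hfd : (Polynomial.derivative f).natDegree ≤ K := (Polynomial.natDegree_derivative_le f).trans
    (by omega)
  have h2 : ∀ u ∈ Set.Icc (0 : ℝ) 1, |(Polynomial.derivative g).eval u -
      (Polynomial.derivative g).eval 0| ≤ C₂ * C₁ * M * b ^ 2 := by
    intro u hu
    have h3 := hmem u hu
    have h4 := hmem 0 ⟨le_rfl, zero_le_one⟩
    have h5 := hlip (Polynomial.derivative f) (C₁ * M) hfd hf' (a + b * u) (a + b * 0)
      (by rw [abs_of_nonneg h3.1]; linarith [h3.2]) (by rw [abs_of_nonneg h4.1]; linarith [h4.2])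
    rw [hg', hg', ← mul_sub, abs_mul, abs_of_nonneg hb]
    have e1 : a + b * u - (a + b * 0) = b * u := by ring
    rw [e1, abs_of_nonneg (mul_nonneg hb hu.1)] at h5
    calc b * |(Polynomial.derivative f).eval (a + b * u) -
        (Polynomial.derivative f).eval (a + b * 0)| ≤ b * (C₂ * (C₁ * M) * (b * u)) :=
          mul_le_mul_of_nonneg_left h5 hb
      _ = C₂ * C₁ * M * b ^ 2 * u := by ring
      _ ≤ C₂ * C₁ * M * b ^ 2 * 1 := by
          refine mul_le_mul_of_nonneg_left hu.2 ?_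
          positivity
      _ = _ := by ring
  intro u hu
  refine ⟨?_, h2 u hu, ?_⟩
  · rw [hg', abs_mul, abs_of_nonneg hb]
    have h3 := hf' _ (hmem u hu)
    calc b * |(Polynomial.derivative f).eval (a + b * u)| ≤ b * (C₁ * M) :=
          mul_le_mul_of_nonneg_left h3 hb
      _ ≤ C₂ * C₁ * M * b := by
          have : 0 ≤ C₁ * M * b := by positivity
          nlinarith
  · obtain ⟨q, hq⟩ : ∃ q : Polynomial ℝ, q = g - Polynomial.C ((Polynomial.derivative g).eval 0) *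
        Polynomial.X := ⟨_, rfl⟩
    have hqd : ∀ x : ℝ, deriv (fun x => q.eval x) x = (Polynomial.derivative g).eval x -
        (Polynomial.derivative g).eval 0 := by
      intro x
      rw [Polynomial.deriv, hq]
      simp
    have h3 := Convex.norm_image_sub_le_of_norm_deriv_le (f := fun x : ℝ => q.eval x)
      (C := C₂ * C₁ * M * b ^ 2) (s := Set.Icc (0 : ℝ) 1) (x := 0) (y := u)
      (fun x _ => q.differentiable.differentiableAt) (fun x hx => by
        rw [hqd x, Real.norm_eq_abs]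
        exact h2 x hx) (convex_Icc 0 1) ⟨le_rfl, zero_le_one⟩ hu
    rw [Real.norm_eq_abs, Real.norm_eq_abs, sub_zero, abs_of_nonneg hu.1] at h3
    have e1 : q.eval u - q.eval 0 = g.eval u - g.eval 0 -
        u * (Polynomial.derivative g).eval 0 := by
      rw [hq]
      simp
      ring
    rw [← e1]
    refine h3.trans ?_
    have : 0 ≤ C₂ * C₁ * M * b ^ 2 := by positivity
    nlinarith [hu.2]

section line

variable {m J : ℕ}

/-- The line on a shorter window. -/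
theorem lc_co {F : Fam m J} (wb q₀ : ℕ) (L : LnT F) (o : Option (Fin m)) :
    lc (wb + q₀) L o = (lc wb (co q₀ L) o).comp
      (Polynomial.C (((L.2.2 % 2 ^ q₀ : ℕ) : ℝ) / 2 ^ q₀) +
        Polynomial.C (1 / 2 ^ q₀) * Polynomial.X) := by
  have h1 : (L.2.2 : ℝ) = 2 ^ q₀ * ((L.2.2 / 2 ^ q₀ : ℕ) : ℝ) + ((L.2.2 % 2 ^ q₀ : ℕ) : ℝ) := by
    exact_mod_cast (Nat.div_add_mod L.2.2 (2 ^ q₀)).symm
  have key : ∀ u : ℝ, (L.2.2 : ℝ) / 2 ^ (wb + q₀) + 1 / 2 ^ (wb + q₀) * u =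
      ((L.2.2 / 2 ^ q₀ : ℕ) : ℝ) / 2 ^ wb + 1 / 2 ^ wb *
        (((L.2.2 % 2 ^ q₀ : ℕ) : ℝ) / 2 ^ q₀ + 1 / 2 ^ q₀ * u) := by
    intro u
    rw [h1, pow_add]
    field_simp
    ring
  refine Polynomial.funext fun u => ?_
  cases o with
  | none =>
    simp only [lc, co, Polynomial.eval_comp, Polynomial.eval_add, Polynomial.eval_mul,
      Polynomial.eval_C, Polynomial.eval_X]
    exact key u
  | some j =>
    simp only [lc, co, Polynomial.eval_comp, Polynomial.eval_add, Polynomial.eval_mul,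
      Polynomial.eval_C, Polynomial.eval_X]
    rw [key u]

theorem aeval_comp' {σ : Type} (p : σ → Polynomial ℝ) (φ : Polynomial ℝ)
    (F : MvPolynomial σ ℝ) :
    MvPolynomial.aeval (fun o => (p o).comp φ) F = (MvPolynomial.aeval p F).comp φ := by
  refine Polynomial.funext fun t => ?_
  rw [eval_aev, Polynomial.eval_comp, eval_aev]
  simp only [Polynomial.eval_comp]

/-- The heights over the frame of a longer window. -/
theorem hL_comp {F : Fam m J} (c : ℕ → Fin m) (s : ℕ → ℕ) (d wb q₀ : ℕ)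
    (H₀ : LnT F → ℕ → MvPolynomial (Option (Fin m)) ℝ) (L : LnT F) (i : Fin d) :
    hL c s d (wb + q₀) (frH F d q₀ H₀ L) L (some i) = Polynomial.C (2 ^ s i) *
      (dv wb (fun s _ => H₀ s i) (c i) (co q₀ L)).comp
      (Polynomial.C (((L.2.2 % 2 ^ q₀ : ℕ) : ℝ) / 2 ^ q₀) +
        Polynomial.C (1 / 2 ^ q₀) * Polynomial.X) := by
  have e1 : frH F d q₀ H₀ L i = H₀ (co q₀ L) i := by
    unfold frH trn
    rw [if_pos i.2]
  show Polynomial.C (2 ^ s i) * (lc (wb + q₀) L (some (c i)) -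
    MvPolynomial.aeval (lc (wb + q₀) L) (frH F d q₀ H₀ L i)) = _
  unfold dv
  beta_reduce
  rw [e1, Polynomial.sub_comp, ← aeval_comp', ← lc_co]
  have e2 : lc (wb + q₀) L = fun o => (lc wb (co q₀ L) o).comp
      (Polynomial.C (((L.2.2 % 2 ^ q₀ : ℕ) : ℝ) / 2 ^ q₀) +
        Polynomial.C (1 / 2 ^ q₀) * Polynomial.X) := funext (lc_co wb q₀ L)
  rw [← e2]

/-- **The heights are almost affine.** -/
theorem hL_near (D : ℕ) : ∃ C : ℝ, 1 ≤ C ∧ ∀ {m J : ℕ} {F : Fam m J} {c : ℕ → Fin m} {s : ℕ → ℕ}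
    {d wb q₀ : ℕ} {H₀ : LnT F → ℕ → MvPolynomial (Option (Fin m)) ℝ} {L : LnT F} {M : ℝ}
    {i : Fin d}, (H₀ (co q₀ L) i).totalDegree ≤ D →
    (∀ τ ∈ Set.Icc (0 : ℝ) 1, |(dv wb (fun s _ => H₀ s i) (c i) (co q₀ L)).eval τ| ≤ M) →
    ∀ u ∈ Set.Icc (0 : ℝ) 1,
    |(Polynomial.derivative (hL c s d (wb + q₀) (frH F d q₀ H₀ L) L (some i))).eval u| ≤
      C * (2 ^ s i * M / 2 ^ q₀) ∧
    |(Polynomial.derivative (hL c s d (wb + q₀) (frH F d q₀ H₀ L) L (some i))).eval u -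
      (Polynomial.derivative (hL c s d (wb + q₀) (frH F d q₀ H₀ L) L (some i))).eval 0| ≤
      C * (2 ^ s i * M / 2 ^ q₀) / 2 ^ q₀ ∧
    |(hL c s d (wb + q₀) (frH F d q₀ H₀ L) L (some i)).eval u -
      (hL c s d (wb + q₀) (frH F d q₀ H₀ L) L (some i)).eval 0 -
      u * (Polynomial.derivative (hL c s d (wb + q₀) (frH F d q₀ H₀ L) L (some i))).eval 0| ≤
      C * (2 ^ s i * M / 2 ^ q₀) / 2 ^ q₀ := by
  obtain ⟨C, hC, hst⟩ := sub_tay (D + 1)
  refine ⟨C, hC, ?_⟩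
  intro m J F c s d wb q₀ H₀ L M i hdeg hM u hu
  have hdv : (dv wb (fun s _ => H₀ s i) (c i) (co q₀ L)).natDegree ≤ D + 1 := by
    unfold dv
    refine (Polynomial.natDegree_sub_le _ _).trans (max_le ((natDegree_lc wb _ _).trans
      (by omega)) ?_)
    exact (Pool.KBX.natDegree_aeval_le _ _ (natDegree_lc wb _) hdeg).trans (by omega)
  have hq : (0 : ℝ) < 2 ^ q₀ := by positivity
  have h1 : ((L.2.2 % 2 ^ q₀ : ℕ) : ℝ) / 2 ^ q₀ + 1 / 2 ^ q₀ ≤ 1 := by
    rw [← add_div, div_le_one hq]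
    have h2 : L.2.2 % 2 ^ q₀ + 1 ≤ 2 ^ q₀ := Nat.mod_lt _ (by positivity)
    exact_mod_cast h2
  obtain ⟨a1, a2, a3⟩ := hst _ M _ _ hdv (by positivity : (0 : ℝ) ≤
    ((L.2.2 % 2 ^ q₀ : ℕ) : ℝ) / 2 ^ q₀) (by positivity : (0 : ℝ) ≤ 1 / 2 ^ q₀) h1 hM u hu
  rw [hL_comp]
  have hs : (0 : ℝ) < 2 ^ s i := by positivity
  simp only [Polynomial.derivative_C_mul, Polynomial.eval_mul, Polynomial.eval_C]
  refine ⟨?_, ?_, ?_⟩
  · rw [abs_mul, abs_of_pos hs]
    refine (mul_le_mul_of_nonneg_left a1 hs.le).trans (le_of_eq ?_)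
    ring
  · rw [← mul_sub, abs_mul, abs_of_pos hs]
    refine (mul_le_mul_of_nonneg_left a2 hs.le).trans (le_of_eq ?_)
    field_simp
  · have e1 : ∀ x y z : ℝ, 2 ^ s i * x - 2 ^ s i * y - u * (2 ^ s i * z) =
        2 ^ s i * (x - y - u * z) := fun x y z => by ring
    rw [e1, abs_mul, abs_of_pos hs]
    refine (mul_le_mul_of_nonneg_left a3 hs.le).trans (le_of_eq ?_)
    field_simp

end line

end Pool.V1E
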