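import Pool.Agent.H71.AJX.Nsx
import Pool.Agent.H83.OWN.AddC

/-!
# The context of one more coordinate from its first jet

`jts_few`: the jets of the chain of small order, from the context. `ctx_f1`: the context of the chain
with one more coordinate is few bits, if its value is few bits and its first jet is few bits given the
first jets of the chain over the labels of the window: then all its jets are few bits (`all_jets` for
the derivative of the path).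
-/

set_option autoImplicit false

namespace Pool.AJX

open Finset Real MvPolynomial
open Pool.Agent.H49.Ent Pool.Agent.H32.Dense Pool.STK Pool.KA Pool.KSAT Pool.K2S Pool.PB Pool.GEN
open Pool.S6C Pool.RCD Pool.LA91 Pool.OWN68 Pool.CHT Pool.AJW Pool.AJ18
open Pool.GRD (LbP)
open Pool.UNJ (ceI Tub)

/-- **The jets of the chain, from the context**, to bounded error. -/
theorem jts_few (K j₀ r : ℕ) : ∃ C : ℝ, 0 ≤ C ∧ ∀ {m J : ℕ} {F : Fam m J} {c : ℕ → Fin m}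
    {r₀ : ℕ} {w : ℝ} (_ : 0 ≤ w) (_ : w ≤ 1) {V : Type} {z' : LnT F → V}
    {g : V → ℕ → MvPolynomial (Option (Fin m)) ℝ} {n N : ℕ → ℝ}
    (_ : ∀ l, r₀ ≤ l → l < r → N l ≤ n l)
    (_ : ∀ l, r₀ ≤ l → l < r → ∀ v, (g v l).totalDegree ≤ K) {q' : F.Ω → ℝ} (_ : IsLaw q')
    {Γ : Type} (Y : F.Ω → Γ) (ca : F.Ω → (Fin m → ℤ × ℤ) × (ℕ → ℕ → ℤ)) {Un : ℕ}
    (_ : ∀ ω, ca ω = ctxN F c r₀ r ⌊w * J⌋₊ Un K z' g n (slam F ⌊w * J⌋₊ ω))
    (_ : ∀ ω ω', Y ω = Y ω' → F.T ω = F.T ω' ∧ ca ω = ca ω'),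
    CH q' (fun ω (i j : ℕ) => if r₀ ≤ i ∧ i < r ∧ j ≤ j₀ then
      ⌊(2 : ℝ) ^ ((N i - (j : ℕ) * w) * J) *
        ojet F (c i) j (g (z' (slam F ⌊w * J⌋₊ ω)) i) ω⌋ else 0) Y ≤ C := by
  obtain ⟨C, hC, hder⟩ := der_small (K + 2)
  have hC2 : 0 ≤ 2 ^ j₀ * C := by positivity
  refine ⟨∑ _x : Fin r × Fin (j₀ + 1), Real.log (2 * ((⌈2 ^ j₀ * C⌉₊ + 1 : ℕ) : ℝ) + 1),
    Finset.sum_nonneg fun _ _ => Real.log_nonneg (by
      have : (0 : ℝ) ≤ ((⌈2 ^ j₀ * C⌉₊ + 1 : ℕ) : ℝ) := Nat.cast_nonneg _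
      linarith), ?_⟩
  intro m J F c r₀ w hw0 hw1 V z' g n N hN hdeg q' hq' Γ Y ca Un hca hY
  have h0 := hq'.nonneg
  have hW : ⌊w * J⌋₊ ≤ J := floor_le hw1 J
  have hJ0 : (0 : ℝ) ≤ J := Nat.cast_nonneg J
  refine le_trans (CH_mono_left h0 (X' := fun ω (x : Fin r × Fin (j₀ + 1)) => if r₀ ≤ (x.1 : ℕ) then
      ⌊(2 : ℝ) ^ ((N x.1 - ((x.2 : ℕ) : ℝ) * w) * J) *
        ojet F (c x.1) x.2 (g (z' (slam F ⌊w * J⌋₊ ω)) x.1) ω⌋ else 0)
    fun ω ω' _ _ e => funext fun i => funext fun j => ?_) ?_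
  · by_cases h : r₀ ≤ i ∧ i < r ∧ j ≤ j₀
    · have h1 := congrFun (Prod.ext_iff.mp e).1 (⟨i, h.2.1⟩, ⟨j, by omega⟩)
      simp only [if_pos h.1] at h1
      rw [if_pos h, if_pos h]
      exact h1
    · rw [if_neg h, if_neg h]
  refine (CH_pis h0 _ _).trans (Finset.sum_le_sum fun x _ => ?_)
  by_cases hl0 : r₀ ≤ (x.1 : ℕ)
  · simp only [if_pos hl0]
    refine CH_pair hq' _ _ fun ω ω' hω hω' e => floor_sub_le ?_
    obtain ⟨hT, hc⟩ := hY ω ω' e
    rw [hca, hca] at hc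
    have hc2 := congrFun (Prod.ext_iff.mp hc).2 x.1
    have hu : uw F ⌊w * J⌋₊ ω' = uw F ⌊w * J⌋₊ ω := by
      unfold uw tw
      rw [hT]
    obtain ⟨σ, hσ⟩ : ∃ σ : ℝ, σ = 2 ^ (n x.1 * J) := ⟨_, rfl⟩
    have hd : ∀ v, (X (some (c x.1)) - g v x.1).totalDegree ≤ K + 2 := fun v => by
      refine (MvPolynomial.totalDegree_sub _ _).trans (max_le ?_ ?_)
      · exact (totalDegree_X _).le.trans (by omega)
      · exact (hdeg x.1 hl0 x.1.2 v).trans (by omega)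
    have hdR : ∀ y, (jR F ⌊w * J⌋₊ σ (c x.1) z' (fun v => g v x.1) y).natDegree ≤ K + 2 :=
      fun y => natDegree_jR hd y
    have h1 := hder (jR F ⌊w * J⌋₊ σ (c x.1) z' (fun v => g v x.1) (slam F ⌊w * J⌋₊ ω) -
      jR F ⌊w * J⌋₊ σ (c x.1) z' (fun v => g v x.1) (slam F ⌊w * J⌋₊ ω')) x.2
      (uw F ⌊w * J⌋₊ ω) 1 ((Polynomial.natDegree_sub_le _ _).trans (max_le (hdR _) (hdR _)))
      (uw_abs _ _ _) (fun i _ => by
        rw [Polynomial.coeff_sub]
        by_cases hi : i < K + 3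
        · have h2 := congrFun hc2 i
          dsimp only [ctxN] at h2
          rw [if_pos ⟨⟨hl0, x.1.2⟩, hi⟩, if_pos ⟨⟨hl0, x.1.2⟩, hi⟩, ← hσ] at h2
          unfold jr at h2
          exact of_floor_div (m := 1) one_pos (by simp only [div_one]; exact h2)
        · rw [Polynomial.coeff_eq_zero_of_natDegree_lt (lt_of_le_of_lt (hdR _) (by omega)),
            Polynomial.coeff_eq_zero_of_natDegree_lt (lt_of_le_of_lt (hdR _) (by omega)), sub_zero,
            abs_zero]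
          exact zero_le_one)
    have e1 := jR_jet (σ := σ) (κ := c x.1) (zl := z') (G := fun v => g v x.1) hW ω x.2
    have e2 := jR_jet (σ := σ) (κ := c x.1) (zl := z') (G := fun v => g v x.1) hW ω' x.2
    rw [hu] at e2
    rw [Polynomial.iterate_derivative_sub, Polynomial.eval_sub, e1, e2, ← mul_sub, abs_mul,
      mul_one] at h1
    have hs0 : 0 < σ * (1 / 2 ^ (⌊w * J⌋₊ + 1)) ^ (x.2 : ℕ) := by
      have : 0 < σ := by
        rw [hσ]
        exact Real.rpow_pos_of_pos (by norm_num) _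
      positivity
    rw [abs_of_pos hs0] at h1
    have h3 : (2 : ℝ) ^ ((N x.1 - ((x.2 : ℕ) : ℝ) * w) * J) ≤
        2 ^ j₀ * (σ * (1 / 2 ^ (⌊w * J⌋₊ + 1)) ^ (x.2 : ℕ)) := by
      refine (Real.rpow_le_rpow_of_exponent_le (by norm_num) (mul_le_mul_of_nonneg_right
        (sub_le_sub_right (hN x.1 hl0 x.1.2) _) hJ0)).trans
        (((scale_le (s := n x.1) hw0 J x.2).2).trans ?_)
      rw [← hσ]
      refine mul_le_mul_of_nonneg_right ?_ hs0.le
      exact pow_le_pow_right₀ (by norm_num) (by omega)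
    rw [← mul_sub, abs_mul, abs_of_pos (Real.rpow_pos_of_pos (by norm_num) _)]
    calc _ ≤ 2 ^ j₀ * (σ * (1 / 2 ^ (⌊w * J⌋₊ + 1)) ^ (x.2 : ℕ)) *
        |ojet F (c x.1) x.2 (g (z' (slam F ⌊w * J⌋₊ ω)) x.1) ω -
          ojet F (c x.1) x.2 (g (z' (slam F ⌊w * J⌋₊ ω')) x.1) ω'| :=
          mul_le_mul_of_nonneg_right h3 (abs_nonneg _)
      _ = 2 ^ j₀ * ((σ * (1 / 2 ^ (⌊w * J⌋₊ + 1)) ^ (x.2 : ℕ)) *
        |ojet F (c x.1) x.2 (g (z' (slam F ⌊w * J⌋₊ ω)) x.1) ω -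
          ojet F (c x.1) x.2 (g (z' (slam F ⌊w * J⌋₊ ω')) x.1) ω'|) := by ring
      _ ≤ 2 ^ j₀ * C := mul_le_mul_of_nonneg_left h1 (by positivity)
      _ ≤ (⌈2 ^ j₀ * C⌉₊ : ℝ) := Nat.le_ceil _
  · simp only [if_neg hl0]
    rw [CH_eq_zero h0 fun _ _ _ _ _ => rfl]
    exact Real.log_nonneg (by
      have : (0 : ℝ) ≤ ((⌈2 ^ j₀ * C⌉₊ + 1 : ℕ) : ℝ) := Nat.cast_nonneg _
      linarith)

/-- From coarse units to fine units. -/
theorem ch_fine {Ω Γ : Type} [Fintype Ω] {q : Ω → ℝ} (hq : IsLaw q) (f : Ω → ℝ) (Y : Ω → Γ)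
    {E : ℝ} (hE : 1 ≤ E) :
    CH q (fun ω => ⌊f ω⌋) Y ≤ CH q (fun ω => ⌊f ω / E⌋) Y + (Real.log 7 + Real.log E) := by
  have h1 := CH_le_add hq.nonneg (fun ω => ⌊f ω⌋) (fun ω => ⌊f ω / E⌋) Y
  have h2 : CH q (fun ω => ⌊f ω⌋) (fun ω => (⌊f ω / E⌋, Y ω)) ≤
      Real.log (2 * ((⌈E⌉₊ + 1 : ℕ) : ℝ) + 1) := by
    refine CH_pair hq _ _ fun ω ω' _ _ e => ?_
    have e2 := of_floor_div (zero_lt_one.trans_le hE) (Prod.ext_iff.mp e).1
    exact floor_sub_le (e2.trans (Nat.le_ceil E))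
  have h3 := Nat.ceil_lt_add_one (zero_le_one.trans hE)
  have h4 : 2 * ((⌈E⌉₊ + 1 : ℕ) : ℝ) + 1 ≤ 7 * E := by
    push_cast
    linarith
  have h5 := Real.log_le_log (by positivity) h4
  rw [Real.log_mul (by norm_num) (by positivity)] at h5
  linarith

/-- **The context of one more coordinate** is few bits, if its value is few bits and its first jet is
few bits given the jets of order `0` and `1` of the chain over the labels of the window. -/
theorem ctx_f1 (K : ℕ) {ε : ℝ} (hε : 0 < ε) : ∃ δ : ℝ, 0 < δ ∧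
    ∀ {m : ℕ} {S : PCl m} {C₀ : ℝ} (_ : TmC S C₀) {c : ℕ → Fin m} {r₀ r R : ℕ} (_ : r₀ ≤ r)
      (_ : r + 1 ≤ R) {w a lam μ σ₀ e N₁ : ℝ} {E rd p n N : ℕ → ℝ}
      (_ : ∀ i, r₀ ≤ i → i < r + 1 → E i ≤ 1) (_ : 0 ≤ w) (_ : w ≤ a) (_ : a ≤ 1) (_ : 0 < μ)
      (_ : w + μ ≤ 1) (_ : 0 < σ₀) (_ : 0 < e) (_ : e ≤ σ₀ / 4) (_ : n r + σ₀ ≤ p r + μ)
      (_ : ∀ i, r₀ ≤ i → i < r + 1 → 0 ≤ rd i) (_ : ∀ i, r₀ ≤ i → i < r → N i ≤ n i)
      (_ : n r - w ≤ N₁) {U : Type} {Q : Qt m U} {α γ : ∀ J : ℕ, Fam m J → Type}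
      {f : ∀ (J : ℕ) (F : Fam m J), F.Ω → α J F} {y : ∀ (J : ℕ) (F : Fam m J), F.Ω → γ J F}
      (_ : ∀ (J : ℕ) (F : Fam m J), ∃ φ : α J F → PtT F, ∀ ω, ptr F J ω = φ (f J F ω))
      (_ : ∀ (J : ℕ) (F : Fam m J), ∃ φ : γ J F → ℕ, ∀ ω, F.T ω = φ (y J F ω)),
      FwX S f (vg a) y Q c r₀ R K E w rd p (ctx c r₀ r K w lam n) e (δ * μ) →
      F1 S f (vg w) (fun _ F => F.T)
        (qJets m c r₀ r 1 (fun _ _ => w) (fun l _ => p l) (fun l j => N l - (j : ℕ) * w))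
        (qJet m ((range r).image c) (c r) 1 w (p r) N₁) e (δ * μ) →
      F1 S f (vg a) y Q (qJet m ((range r).image c) (c r) 0 w (p r) (n r)) e (δ * μ) →
      FwX S f (vg a) y Q c r₀ R K E w rd p (ctx c r₀ (r + 1) K w lam n) e (ε * μ) := by
  classical
  have hK0 : (0 : ℝ) ≤ K := Nat.cast_nonneg K
  obtain ⟨ε₁, hε₁⟩ : ∃ ε₁ : ℝ, ε₁ = ε / (8 * (K + 4)) := ⟨_, rfl⟩
  have hε10 : 0 < ε₁ := by
    rw [hε₁]
    positivity
  have hεe : 2 * (K + 3) * ε₁ ≤ ε / 4 := by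
    rw [hε₁]
    have h1 : 2 * ((K : ℝ) + 3) * (ε / (8 * (K + 4))) = ε / 4 * ((K + 3) / (K + 4)) := by
      field_simp
      ring
    have h2 : ((K : ℝ) + 3) / (K + 4) ≤ 1 := by
      rw [div_le_one (by positivity)]
      linarith
    rw [h1]
    exact mul_le_of_le_one_right (by positivity) h2
  obtain ⟨δ₁, hδ₁, c₀, hc₀, N₀, hN₀, H⟩ := Pool.AJ18.all_jets (K + 2) (by omega) (h := 1 / 2)
    (by norm_num) (by norm_num) hε10
  obtain ⟨δ, hδ⟩ : ∃ δ : ℝ, δ = min (ε / (8 * (K + 4))) (min (δ₁ / 4) (c₀ * δ₁ / 4)) := ⟨_, rfl⟩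
  have hδ0 : 0 < δ := by rw [hδ]; positivity
  have hδε : (K + 4) * δ ≤ ε / 8 := by
    have h1 : δ ≤ ε / (8 * (K + 4)) := by rw [hδ]; exact min_le_left _ _
    rw [le_div_iff₀ (by positivity)] at h1
    linarith
  have hδ1 : δ ≤ δ₁ / 4 := by rw [hδ]; exact (min_le_right _ _).trans (min_le_left _ _)
  have hδc : δ ≤ c₀ * δ₁ / 4 := by rw [hδ]; exact (min_le_right _ _).trans (min_le_right _ _)
  refine ⟨δ, hδ0, ?_⟩
  intro m S C₀ htm c r₀ r R hr hR w a lam μ σ₀ e N₁ E rd p n N hE hw0 hwa ha hμ hwμ hσ₀ he heσ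
    hnp hrd hNn hN₁ U Q α γ f y hf hy hctx h1 hval K₀
  have hw1 : w < 1 := by linarith
  obtain ⟨C₁, hC₁, Hts⟩ := jts_few K 1 r
  obtain ⟨C₂, hC₂, Hjr⟩ := jr_few (K + 2)
  obtain ⟨J₃, H⟩ := H hw0 hμ hwμ
  have l7 : 0 ≤ Real.log 7 := Real.log_nonneg (by norm_num)
  have l57 : Real.log 5 ≤ Real.log 7 := Real.log_le_log (by norm_num) (by norm_num)
  -- the number of values
  obtain ⟨Nc, hNc⟩ : ∃ Nc : ℕ → ℕ → ℝ, Nc = fun i j => if i < r then N i - (j : ℕ) * w else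
    if j = 0 then n r else if j = 1 then N₁ else n r - μ - (j : ℕ) * w := ⟨_, rfl⟩
  obtain ⟨M, J₁, hcnt⟩ := cnt_jets2 m K (e := e + 1) (w := w) (by linarith) Nc
    (fun i => max (rd i) 0) (r + 1) (K + 3) (fun i _ => le_max_right _ _)
  obtain ⟨J₂, hJ₂⟩ := exists_nat_ge ((2 * C₁ + 2 * Real.log 7) / (δ₁ / 4 * μ) +
    (C₁ + Real.log 7) / (c₀ * δ₁ / 4 * μ) + ((K + 3) * Real.log 7 + C₂) / (ε / 8 * μ))
  obtain ⟨K', hK'⟩ : ∃ K' : ℕ, K' = max K₀ (max K M) := ⟨_, rfl⟩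
  have hK0' : K₀ ≤ K' := by rw [hK']; exact le_max_left _ _
  have hKK' : K ≤ K' := by rw [hK']; exact (le_max_left _ _).trans (le_max_right _ _)
  have hMK' : M ≤ K' := by rw [hK']; exact (le_max_right _ _).trans (le_max_right _ _)
  -- the natural jets
  have hnat : ∀ j : ℕ, F1 S f (vg a) y Q
      (qJet m ((range r).image c) (c r) j w (p r) (n r - μ - (j : ℕ) * w)) e (δ * μ) := fun j =>
    F1.of0 htm ((few0_room htm hw0 hw1 hσ₀ (by linarith) f (vg a) y (by positivity)).mono heσ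
      le_rfl)
  have hFa : Bas S (fun J F A => ∀ j < K + 3, ∀ (u : F.Ω → U) (u' : F.Ω → ℤ),
      Q.P K' e J F A u →
      (qJet m ((range r).image c) (c r) j w (p r) (n r - μ - (j : ℕ) * w)).P K' e J F A u' →
      ∃ (V : Type) (z : F.Ω → V), Cl2 (f J F) (vg a J F) A z ∧
        CH (Pool.Agent.H49.Ent.cond F.p A True) u' (fun ω => (u ω, (z ω, y J F ω))) ≤
          δ * μ * J) := by
    refine Bas.all (K + 3) fun j hj => ?_
    refine Bas.mono 0 (hnat j K') ?_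
    intro J _ F A h
    exact h
  refine Bas.mono (max (max J₁ J₂) J₃) (((hctx K₀).and (h1 K')).and (((hval K').and hFa).and
    (Pool.GRW.tmc_bas htm (ψ := δ₁ * μ) (by positivity)))) ?_
  rintro J hJ F A ⟨⟨Hc, H1⟩, ⟨HV, HN⟩, hA, hT⟩ V z z' g hlb u₀ hu₀
  have hJ1 : J₁ ≤ J := (le_max_left _ _).trans ((le_max_left _ _).trans hJ)
  have hJ2 : (J₂ : ℝ) ≤ J := by
    exact_mod_cast (le_max_right _ _).trans ((le_max_left _ _).trans hJ)
  have hJ3 : J₃ ≤ J := (le_max_right _ _).trans hJ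
  have hJ0 : (0 : ℝ) ≤ J := Nat.cast_nonneg J
  have t1 : 0 ≤ (2 * C₁ + 2 * Real.log 7) / (δ₁ / 4 * μ) := by positivity
  have t2 : 0 ≤ (C₁ + Real.log 7) / (c₀ * δ₁ / 4 * μ) := by positivity
  have t3 : 0 ≤ ((K + 3) * Real.log 7 + C₂) / (ε / 8 * μ) := by positivity
  have f1 : 2 * C₁ + 2 * Real.log 7 ≤ δ₁ / 4 * μ * J := by
    have h2 : (2 * C₁ + 2 * Real.log 7) / (δ₁ / 4 * μ) ≤ J := by linarith
    rw [div_le_iff₀ (by positivity)] at h2
    linarith
  have f2 : C₁ + Real.log 7 ≤ c₀ * δ₁ / 4 * μ * J := by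
    have h2 : (C₁ + Real.log 7) / (c₀ * δ₁ / 4 * μ) ≤ J := by linarith
    rw [div_le_iff₀ (by positivity)] at h2
    linarith
  have f3 : (K + 3) * Real.log 7 + C₂ ≤ ε / 8 * μ * J := by
    have h2 : ((K + 3) * Real.log 7 + C₂) / (ε / 8 * μ) ≤ J := by linarith
    rw [div_le_iff₀ (by positivity)] at h2
    linarith
  have hμJ : 0 ≤ μ * J := by positivity
  have d1 : δ * μ * J ≤ δ₁ / 4 * μ * J := by
    have := mul_le_mul_of_nonneg_right hδ1 hμJ
    linarith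
  have d2 : δ * μ * J ≤ c₀ * δ₁ / 4 * μ * J := by
    have := mul_le_mul_of_nonneg_right hδc hμJ
    linarith
  have d3 : (K + 4) * (δ * μ * J) ≤ ε / 8 * μ * J := by
    have := mul_le_mul_of_nonneg_right hδε hμJ
    linarith
  obtain ⟨W, hW⟩ : ∃ W : ℕ, W = ⌊w * J⌋₊ := ⟨_, rfl⟩
  have hWJ : W ≤ J := by
    rw [hW]
    exact floor_le (hwa.trans ha) J
  obtain ⟨Un, hUn⟩ : ∃ Un : ℕ, Un = ⌊(w + lam) * J⌋₊ := ⟨_, rfl⟩
  obtain ⟨σ, hσ⟩ : ∃ σ : ℝ, σ = 2 ^ (n r * J) := ⟨_, rfl⟩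
  have hσ0 : 0 < σ := by
    rw [hσ]
    exact Real.rpow_pos_of_pos (by norm_num) _
  obtain ⟨q', hq'⟩ : ∃ q' : F.Ω → ℝ, q' = Pool.Agent.H49.Ent.cond F.p A True := ⟨_, rfl⟩
  have hq'l : IsLaw q' := by
    rw [hq']
    exact isLaw_cond F.isLaw hA
  have h0 := hq'l.nonneg
  have hq'A : ∀ ω, 0 < q' ω → A ω := fun ω hω => by
    rw [hq'] at hω
    exact of_cond_pos hω
  have hvg : ∀ ω, vg w J F ω = slam F W ω := fun ω => by rw [hW]; rfl
  have hlbr := hlb.wk hr (by omega : r < R) (hE r hr (by omega))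
  have hlbP : ∀ i, r₀ ≤ i → i < R → LbP F ((range i).image c) (c i) K' J ⌊w * J⌋₊
      ⌊(p i - e) * J⌋₊ A z z' (fun v => g v i) := fun i a b =>
    (LbP.of (hlb i a b)).mono (Finset.Subset.refl _) hKK' le_rfl
  have hcn : ∀ i, r₀ ≤ i → i < r + 1 → ∀ j < K + 3, (cnt F.p (fun ω => ⌊(2 : ℝ) ^ (Nc i j * J) *
      ojet F (c i) j (g (z' (slam F ⌊w * J⌋₊ ω)) i) ω⌋) A : ℝ) ≤ Real.exp (K' * J) := by
    intro i a b j hj
    have h2 := hcnt i b j hj J hJ1 F _ _ _ A V z z' (fun v => g v i) (by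
      rw [max_eq_left (hrd i a b)]
      exact hlb.wk a (by omega) (hE i a b))
    refine h2.trans (Real.exp_le_exp.2 (mul_le_mul_of_nonneg_right ?_ hJ0))
    exact_mod_cast hMK'
  -- the jets of the chain over the labels of the window
  obtain ⟨Uv, hUv⟩ : ∃ Uv : F.Ω → ℕ → ℕ → ℤ, Uv = fun ω i j => if r₀ ≤ i ∧ i < r ∧ j ≤ 1 then
      ⌊(2 : ℝ) ^ ((N i - (j : ℕ) * w) * J) *
        ojet F (c i) j (g (z' (slam F ⌊w * J⌋₊ ω)) i) ω⌋ else 0 := ⟨_, rfl⟩
  have hUvP : (qJets m c r₀ r 1 (fun _ _ => w) (fun l _ => p l)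
      (fun l j => N l - (j : ℕ) * w)).P K' e J F A Uv := by
    refine ⟨fun i a b j hj => ?_, fun ω _ i j h => ?_⟩
    · have e1 : (fun ω => Uv ω i j) = fun ω => ⌊(2 : ℝ) ^ ((N i - (j : ℕ) * w) * J) *
          ojet F (c i) j (g (z' (slam F ⌊w * J⌋₊ ω)) i) ω⌋ := by
        funext ω
        rw [hUv]
        exact if_pos ⟨a, b, hj⟩
      rw [e1]
      refine ⟨?_, V, z, z', fun v => g v i, hlbP i a (by omega), fun ω _ => rfl⟩
      have h2 := hcn i a (by omega) j (by omega)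
      have e2 : Nc i j = N i - (j : ℕ) * w := by rw [hNc]; exact if_pos b
      rw [e2] at h2
      exact h2
    · rw [hUv]
      exact if_neg h
  -- the first jet
  obtain ⟨u1, hu1⟩ : ∃ u1 : F.Ω → ℤ, u1 = fun ω => ⌊(2 : ℝ) ^ (N₁ * J) *
    ojet F (c r) 1 (g (z' (slam F ⌊w * J⌋₊ ω)) r) ω⌋ := ⟨_, rfl⟩
  have hu1P : (qJet m ((range r).image c) (c r) 1 w (p r) N₁).P K' e J F A u1 := by
    refine ⟨?_, V, z, z', fun v => g v r, hlbP r hr (by omega), fun ω _ => by rw [hu1]⟩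
    have h2 := hcn r hr (by omega) 1 (by omega)
    have e2 : Nc r 1 = N₁ := by rw [hNc]; simp
    rw [e2] at h2
    rw [hu1]
    exact h2
  obtain ⟨VA, zA, ⟨⟨φA, hφA⟩, ψA, hψA⟩, h1A⟩ := H1 Uv u1 hUvP hu1P
  -- the value
  obtain ⟨U0, hU0⟩ : ∃ U0 : F.Ω → ℤ, U0 = fun ω => ⌊(2 : ℝ) ^ (n r * J) *
    ojet F (c r) 0 (g (z' (slam F ⌊w * J⌋₊ ω)) r) ω⌋ := ⟨_, rfl⟩
  obtain ⟨V0, z0, hz0, h0A⟩ := HV u₀ U0 (Q.mono hK0' le_rfl hu₀) (by
    refine ⟨?_, V, z, z', fun v => g v r, hlbP r hr (by omega), fun ω _ => by rw [hU0]⟩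
    have h2 := hcn r hr (by omega) 0 (by omega)
    have e2 : Nc r 0 = n r := by rw [hNc]; simp
    rw [e2] at h2
    rw [hU0]
    exact h2)
  -- the natural jets
  obtain ⟨Uj, hUj⟩ : ∃ Uj : ℕ → F.Ω → ℤ, Uj = fun (j : ℕ) ω =>
    ⌊(2 : ℝ) ^ ((n r - μ - (j : ℕ) * w) * J) *
      ojet F (c r) j (g (z' (slam F ⌊w * J⌋₊ ω)) r) ω⌋ := ⟨_, rfl⟩
  have hz : ∀ j : ℕ, ∃ (V₂ : Type) (z₂ : F.Ω → V₂), Cl2 (f J F) (vg a J F) A z₂ ∧
      (2 ≤ j → j < K + 3 → CH q' (Uj j) (fun ω => (u₀ ω, (z₂ ω, y J F ω))) ≤ δ * μ * J) := by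
    intro j
    by_cases hj : 2 ≤ j ∧ j < K + 3
    · obtain ⟨V₂, z₂, hz₂, h2⟩ := HN j hj.2 u₀ (Uj j) (Q.mono hK0' le_rfl hu₀) (by
        refine ⟨?_, V, z, z', fun v => g v r, hlbP r hr (by omega), fun ω _ => by rw [hUj]⟩
        have h2 := hcn r hr (by omega) j hj.2
        have e2 : Nc r j = n r - μ - (j : ℕ) * w := by
          rw [hNc]
          simp only [lt_irrefl, if_false]
          rw [if_neg (by omega), if_neg (by omega)]
        rw [e2] at h2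
        rw [hUj]
        exact h2)
      rw [← hq'] at h2
      exact ⟨V₂, z₂, hz₂, fun _ _ => h2⟩
    · exact ⟨Unit, fun _ => (), ⟨⟨fun _ => (), fun _ _ => rfl⟩, fun _ => (), fun _ _ => rfl⟩,
        fun a b => absurd ⟨a, b⟩ hj⟩
  choose Vz zz hzz hCz using hz
  -- the context of the chain
  obtain ⟨Vc, zc, hzc, hc⟩ := Hc V z z' g hlb u₀ hu₀
  rw [← hq'] at h1A h0A hc hT ⊢
  obtain ⟨ca, hca⟩ : ∃ ca : LnT F → (Fin m → ℤ × ℤ) × (ℕ → ℕ → ℤ), ca = fun x =>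
    ctxN F c r₀ r ⌊w * J⌋₊ Un K z' g n x := ⟨_, rfl⟩
  have hcV : CH q' (fun ω => ca (slam F W ω)) (fun ω => (u₀ ω, (zc ω, y J F ω))) ≤
      δ * μ * J := by
    rw [hca, hUn]
    refine le_trans (le_of_eq ?_) hc
    unfold ctx
    simp only [hvg]
  obtain ⟨φa, hφa⟩ := vg_mono hwa ha J F
  obtain ⟨φf, hφf⟩ := hf J F
  obtain ⟨φy, hφy⟩ := hy J F
  -- the record
  obtain ⟨Y, hY⟩ : ∃ Y : F.Ω → U × (((V × (F.ζ × ℕ)) × (Vc × (V0 × ((∀ j, Vz j) × VA)))) ×
      γ J F), Y = fun ω => (u₀ ω, (((z' (slam F W ω), (slam F W ω).2), (zc ω, (z0 ω,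
        ((fun j => zz j ω), zA ω)))), y J F ω)) := ⟨_, rfl⟩
  have hYc : CH q' (fun ω => ca (slam F W ω)) Y ≤ δ * μ * J := by
    refine le_trans (CH_mono_cond h0 fun ω ω' _ _ hh => ?_) hcV
    rw [hY] at hh
    simp only [Prod.mk.injEq] at hh ⊢
    exact ⟨hh.1, hh.2.1.2.1, hh.2.2⟩
  have hY0 : CH q' U0 Y ≤ δ * μ * J := by
    refine le_trans (CH_mono_cond h0 fun ω ω' _ _ hh => ?_) h0A
    rw [hY] at hh
    simp only [Prod.mk.injEq] at hh ⊢
    exact ⟨hh.1, hh.2.1.2.2.1, hh.2.2⟩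
  have hYj : ∀ j, 2 ≤ j → j < K + 3 → CH q' (Uj j) Y ≤ δ * μ * J := by
    intro j hj hj'
    refine le_trans (CH_mono_cond h0 fun ω ω' _ _ hh => ?_) (hCz j hj hj')
    rw [hY] at hh
    simp only [Prod.mk.injEq] at hh ⊢
    exact ⟨hh.1, congrFun hh.2.1.2.2.2.1 j, hh.2.2⟩
  -- the jets of the chain from a context
  have hUvc : ∀ {Γ : Type} (Z : F.Ω → Γ), (∀ ω ω', Z ω = Z ω' → F.T ω = F.T ω' ∧
      ca (slam F W ω) = ca (slam F W ω')) → CH q' Uv Z ≤ C₁ := by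
    intro Γ Z hZ
    rw [hUv]
    refine Hts hw0 hw1.le (n := n) (Un := Un) hNn (fun l a b v => (hlb l a (by omega)).deg v) hq'l
      Z (fun ω => ca (slam F W ω)) (fun ω => ?_) hZ
    rw [hca, ← hW]
  have hY1 : CH q' u1 Y ≤ 2 * (δ * μ * J) + C₁ := by
    have s1 := CH_le_add h0 u1 Uv Y
    have s2 := CH_le_add h0 Uv (fun ω => ca (slam F W ω)) Y
    have s3 := hUvc (fun ω => (ca (slam F W ω), Y ω)) (fun ω ω' e => by
      rw [hY] at e
      simp only [Prod.mk.injEq] at e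
      refine ⟨?_, e.1⟩
      rw [hφy, hφy, e.2.2.2])
    have s4 : CH q' u1 (fun ω => (Uv ω, Y ω)) ≤ δ * μ * J := by
      refine le_trans (CH_mono_cond h0 fun ω ω' _ _ e => ?_) h1A
      rw [hY] at e
      simp only [Prod.mk.injEq] at e ⊢
      refine ⟨e.1, e.2.2.1.2.2.2.2, ?_⟩
      rw [hφy, hφy, e.2.2.2]
    linarith
  -- the paths
  obtain ⟨G, hG⟩ : ∃ G : V → MvPolynomial (Option (Fin m)) ℝ, G = fun v => g v r := ⟨_, rfl⟩
  have hd : ∀ v, (X (some (c r)) - G v).totalDegree ≤ K + 2 := fun v => by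
    rw [hG]
    refine (MvPolynomial.totalDegree_sub _ _).trans (max_le ?_ ?_)
    · exact (totalDegree_X _).le.trans (by omega)
    · exact (hlbr.deg v).trans (by omega)
  have hpj : ∀ (j : ℕ) (ω : F.Ω), pj F (fun x => Polynomial.derivative (jR F W σ (c r) z' G x)) W j
      ω = σ * (1 / 2 ^ (W + 1)) ^ (j + 1) * ojet F (c r) (j + 1) (G (z' (slam F W ω))) ω := by
    intro j ω
    unfold pj
    rw [← Function.iterate_succ_apply]
    exact jR_jet hWJ ω (j + 1)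
  have hn1 : ∀ ω ω', u1 ω = u1 ω' →
      |pj F (fun x => Polynomial.derivative (jR F W σ (c r) z' G x)) W 0 ω -
        pj F (fun x => Polynomial.derivative (jR F W σ (c r) z' G x)) W 0 ω'| ≤ 1 := by
    intro ω ω' e
    rw [hu1] at e
    rw [hpj, hpj, hG, hW]
    refine fl_scale (t := 2 ^ (N₁ * J)) (by positivity) ?_
      (Real.rpow_pos_of_pos (by norm_num) _) e
    rw [one_mul, hσ]
    refine ((scale_le (s := n r) hw0 J 1).1).trans
      (Real.rpow_le_rpow_of_exponent_le (by norm_num) (mul_le_mul_of_nonneg_right ?_ hJ0))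
    rw [Nat.cast_one, one_mul]
    exact hN₁
  have hnj : ∀ j, ∀ ω ω', Uj (j + 1) ω = Uj (j + 1) ω' →
      |pj F (fun x => Polynomial.derivative (jR F W σ (c r) z' G x)) W j ω -
        pj F (fun x => Polynomial.derivative (jR F W σ (c r) z' G x)) W j ω'| ≤ 2 ^ (μ * J) := by
    intro j ω ω' e
    rw [hUj] at e
    rw [hpj, hpj, hG, hW]
    refine fl_scale (by positivity) ?_ (Real.rpow_pos_of_pos (by norm_num) _) e
    have h2 := (scale_le (s := n r) hw0 J (j + 1)).1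
    rw [← hσ] at h2
    refine h2.trans (le_of_eq ?_)
    rw [← Real.rpow_add (by norm_num)]
    congr 1
    ring
  obtain ⟨cc, hcc⟩ : ∃ cc : LnT F → (V × (F.ζ × ℕ)) × (((Fin m → ℤ × ℤ) × (ℕ → ℕ → ℤ)) × VA),
    cc = fun x => ((z' x, x.2), (ca x, ψA x)) := ⟨_, rfl⟩
  have hfin := H J hJ3 F A hA (fun x => Polynomial.derivative (jR F W σ (c r) z' G x)) cc Y
  rw [← hq', ← hW] at hfin
  have hfin := hfin ⟨?_, ?_, ?_, ?_, ?_, ?_⟩ ?_
  · -- the end
    have hYT : ∀ ω ω', Y ω = Y ω' → F.T ω = F.T ω' := fun ω ω' e => by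
      rw [hY] at e
      simp only [Prod.mk.injEq] at e
      rw [hφy, hφy, e.2.2]
    obtain ⟨E₁, hE₁⟩ : ∃ E₁ : ℝ, E₁ = 2 ^ (ε₁ * μ * J) := ⟨_, rfl⟩
    have hE1 : 1 ≤ E₁ := by
      rw [hE₁]
      exact Real.one_le_rpow (by norm_num) (by positivity)
    have hlE : Real.log E₁ ≤ ε₁ * μ * J := by
      rw [hE₁, Real.log_rpow (by norm_num)]
      have h7 : Real.log 2 ≤ 1 := by
        have := Real.log_two_lt_d9
        linarith
      have h8 : 0 ≤ ε₁ * μ * J := by positivity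
      nlinarith
    rw [← hE₁] at hfin
    -- the jets in units of the last digit
    obtain ⟨Wj, hWj⟩ : ∃ Wj : F.Ω → Fin (K + 2 + 1) → ℤ, Wj = fun ω (j : Fin (K + 2 + 1)) =>
      if (j : ℕ) = 0 then U0 ω
      else ⌊pj F (fun x => Polynomial.derivative (jR F W σ (c r) z' G x)) W ((j : ℕ) - 1) ω⌋ :=
      ⟨_, rfl⟩
    have g1 : CH q' Wj Y ≤ (K + 3) * (2 * (ε₁ * μ * J) + Real.log 7 + δ * μ * J) := by
      refine (CH_pis h0 Wj Y).trans ?_
      have h2 : ∀ j ∈ (univ : Finset (Fin (K + 2 + 1))), CH q' (fun ω => Wj ω j) Y ≤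
          2 * (ε₁ * μ * J) + Real.log 7 + δ * μ * J := by
        intro j _
        have p1 : 0 ≤ ε₁ * μ * J := by positivity
        have p2 : 0 ≤ δ * μ * J := by positivity
        by_cases hj0 : (j : ℕ) = 0
        · have e1 : (fun ω => Wj ω j) = U0 := by
            funext ω
            rw [hWj]
            exact if_pos hj0
          rw [e1]
          linarith
        · have e1 : (fun ω => Wj ω j) = fun ω => ⌊pj F (fun x => Polynomial.derivative
              (jR F W σ (c r) z' G x)) W ((j : ℕ) - 1) ω⌋ := by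
            funext ω
            rw [hWj]
            exact if_neg hj0
          rw [e1]
          have h3 := ch_fine hq'l (fun ω => pj F (fun x => Polynomial.derivative
              (jR F W σ (c r) z' G x)) W ((j : ℕ) - 1) ω) Y hE1
          have h4 : CH q' (fun ω => ⌊pj F (fun x => Polynomial.derivative
              (jR F W σ (c r) z' G x)) W ((j : ℕ) - 1) ω / E₁⌋) Y ≤ ε₁ * μ * J :=
            le_trans (CH_mono_left h0 fun ω ω' _ _ e => by
              exact congrFun (Prod.ext_iff.mp (Prod.ext_iff.mp e).1).1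
                (⟨(j : ℕ) - 1, by omega⟩ : Fin (K + 2 + 1))) hfin
          linarith
      refine (Finset.sum_le_sum h2).trans (le_of_eq ?_)
      rw [Finset.sum_const, Finset.card_univ, Fintype.card_fin, nsmul_eq_mul]
      push_cast
      ring
    have g2 := Hjr hWJ (σ := σ) (κ := c r) (zl := z') (G := G) hq'l hd Y Wj
      (fun ω ω' _ _ e => hYT ω ω' e) (fun ω ω' j e => by
        rw [hWj] at e
        by_cases hj0 : (j : ℕ) = 0
        · simp only [if_pos hj0] at e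
          rw [hU0] at e
          have e1 : (j : ℕ) = 0 := hj0
          rw [e1, pow_zero, mul_one, hG, hW]
          refine fl_scale hσ0.le ?_ (Real.rpow_pos_of_pos (by norm_num) _) e
          rw [one_mul, hσ]
        · simp only [if_neg hj0] at e
          have h2 := hpj ((j : ℕ) - 1) ω
          have h3 := hpj ((j : ℕ) - 1) ω'
          have h4 : (j : ℕ) - 1 + 1 = j := by omega
          rw [h4] at h2 h3
          rw [← h2, ← h3]
          exact of_floor_div (m := 1) one_pos (by simp only [div_one]; exact e))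
    refine ⟨_, fun ω => ((z' (slam F W ω), (slam F W ω).2), (zc ω, (z0 ω,
        ((fun j => zz j ω), zA ω)))), Cl2.join ⟨?_, ?_⟩ (Cl2.join hzc (Cl2.join hz0
        (Cl2.join (Cl2.pi hzz) ⟨⟨φA, hφA⟩, ?_⟩))), ?_⟩
    · refine ⟨fun x => (z (φf x), ((φf x).2.2, (φf x).2.1 / 2 ^ (J - W))), fun ω hω => ?_⟩
      dsimp only
      rw [← hφf ω, hlbr.cls ω hω, hW]
      rfl
    · refine ⟨fun x => (z' (φa x), (φa x).2), fun ω _ => ?_⟩
      dsimp only
      rw [← hφa ω, hvg ω]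
    · refine ⟨fun x => ψA (φa x), fun ω hω => ?_⟩
      dsimp only
      rw [← hφa ω]
      exact hψA ω hω
    · have g3 := CH_subadd h0 (fun ω => ca (slam F W ω))
        (fun ω (j : Fin (K + 2 + 1)) => ⌊jr F W σ (c r) z' G j (slam F W ω)⌋) Y
      have g4 : CH q' (ctx c r₀ (r + 1) K w lam n J F V z' g) Y ≤
          CH q' (fun ω => (ca (slam F W ω), fun (j : Fin (K + 2 + 1)) =>
            ⌊jr F W σ (c r) z' G j (slam F W ω)⌋)) Y := by
        refine CH_mono_left h0 fun ω ω' _ _ e => ?_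
        have h2 := (Prod.ext_iff.mp e).1
        simp only [Prod.mk.injEq] at h2
        obtain ⟨h3, h4⟩ := h2
        rw [hca] at h3
        dsimp only at h3
        rw [← hW] at h3
        show ctxN F c r₀ (r + 1) ⌊w * J⌋₊ ⌊(w + lam) * J⌋₊ K z' g n (vg w J F ω) =
          ctxN F c r₀ (r + 1) ⌊w * J⌋₊ ⌊(w + lam) * J⌋₊ K z' g n (vg w J F ω')
        rw [hvg, hvg, ← hUn, ← hW]
        unfold ctxN at h3 ⊢
        obtain ⟨h5, h6⟩ := Prod.ext_iff.mp h3
        refine Prod.ext h5 ?_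
        funext l j
        dsimp only
        by_cases hl : (r₀ ≤ l ∧ l < r + 1) ∧ j < K + 3
        · rw [if_pos hl, if_pos hl]
          rcases Nat.lt_or_ge l r with h7 | h7
          · have h8 := congrFun (congrFun h6 l) j
            dsimp only at h8
            rw [if_pos ⟨⟨hl.1.1, h7⟩, hl.2⟩, if_pos ⟨⟨hl.1.1, h7⟩, hl.2⟩] at h8
            exact h8
          · obtain rfl : l = r := by omega
            have h8 := congrFun h4 ⟨j, hl.2⟩
            rw [hG, hσ] at h8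
            exact h8
        · rw [if_neg hl, if_neg hl]
      have g5 : (K + 3) * (2 * (ε₁ * μ * J)) ≤ ε / 4 * (μ * J) := by
        have := mul_le_mul_of_nonneg_right hεe hμJ
        linarith
      have g6 : 0 ≤ ε * (μ * J) := by positivity
      have g7 : CH q' (ctx c r₀ (r + 1) K w lam n J F V z' g) Y ≤ ε * μ * J := by
        linarith
      rw [hY] at g7
      exact g7
  · -- the degree
    intro x
    refine (Polynomial.natDegree_derivative_le _).trans ?_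
    have h2 := natDegree_jR (F := F) (w := W) (σ := σ) (κ := c r) (zl := z') (G := G) hd x
    omega
  · -- the time
    rw [← hq']
    exact hT
  · -- the key
    intro ω ω' _ _ e
    rw [hY] at e
    simp only [Prod.mk.injEq] at e
    refine ⟨?_, (Prod.ext_iff.mp e.2.1.1.2).1⟩
    rw [hφy, hφy, e.2.2]
  · -- the context
    rw [← hq']
    have h2 : CH q' (fun ω => cc (slam F W ω)) Y ≤ CH q' (fun ω => ca (slam F W ω)) Y := by
      refine CH_mono_left h0 fun ω ω' hω hω' e => ?_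
      obtain ⟨e1, e2⟩ := Prod.ext_iff.mp e
      rw [hY] at e2
      simp only [Prod.mk.injEq] at e2
      rw [hcc]
      have e3 : ψA (slam F W ω) = ψA (slam F W ω') := by
        have a1 := hψA ω (hq'A ω hω)
        have a2 := hψA ω' (hq'A ω' hω')
        rw [hvg] at a1 a2
        rw [← a1, ← a2]
        exact e2.2.1.2.2.2.2
      simp only [Prod.mk.injEq]
      exact ⟨⟨e2.2.1.1.1, e2.2.1.1.2⟩, e1, e3⟩
    have : 0 ≤ δ₁ * μ * J := by positivity
    linarith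
  · -- the value
    rw [← hq']
    have s1 := CH_le_add h0 (fun ω => ⌊pj F (fun x => Polynomial.derivative
      (jR F W σ (c r) z' G x)) W 0 ω⌋) u1 Y
    have s2 := CH_pair (D := 1 + 1) hq'l (fun ω => ⌊pj F (fun x => Polynomial.derivative
      (jR F W σ (c r) z' G x)) W 0 ω⌋) (fun ω => (u1 ω, Y ω)) (fun ω ω' _ _ e => by
        have h3 := hn1 ω ω' (Prod.ext_iff.mp e).1
        exact floor_sub_le (by push_cast; exact h3))
    have s4 : Real.log (2 * ((1 + 1 : ℕ) : ℝ) + 1) = Real.log 5 := by norm_num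
    rw [s4] at s2
    have : 0 ≤ δ₁ / 4 * μ * J := by positivity
    linarith
  · -- the natural jets
    intro j hjD hj0
    rw [← hq']
    by_cases hj : j + 1 < K + 3
    · have hqJp : (0 : ℝ) < 2 ^ (μ * J) := Real.rpow_pos_of_pos (by norm_num) _
      have s1 := CH_le_add h0 (fun ω => ⌊pj F (fun x => Polynomial.derivative
        (jR F W σ (c r) z' G x)) W j ω / 2 ^ (μ * J)⌋) (Uj (j + 1)) Y
      have s2 := CH_pair (D := 1 + 1) hq'l (fun ω => ⌊pj F (fun x => Polynomial.derivative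
        (jR F W σ (c r) z' G x)) W j ω / 2 ^ (μ * J)⌋) (fun ω => (Uj (j + 1) ω, Y ω))
        (fun ω ω' _ _ e => by
          have h3 := hnj j ω ω' (Prod.ext_iff.mp e).1
          refine floor_sub_le ?_
          rw [← sub_div, abs_div, abs_of_pos hqJp, div_le_iff₀ hqJp]
          push_cast
          linarith)
      have s3 := hYj (j + 1) (by omega) hj
      have s4 : Real.log (2 * ((1 + 1 : ℕ) : ℝ) + 1) = Real.log 5 := by norm_num
      rw [s4] at s2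
      have : 0 ≤ δ₁ / 4 * μ * J := by positivity
      linarith
    · have e1 : ∀ ω, pj F (fun x => Polynomial.derivative (jR F W σ (c r) z' G x)) W j ω = 0 := by
        intro ω
        have h2 := natDegree_jR (F := F) (w := W) (σ := σ) (κ := c r) (zl := z') (G := G) hd
          (slam F W ω)
        have h3 := Polynomial.natDegree_derivative_le (jR F W σ (c r) z' G (slam F W ω))
        show (Polynomial.derivative^[j] (Polynomial.derivative
          (jR F W σ (c r) z' G (slam F W ω)))).eval (uw F W ω) = 0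
        rw [Polynomial.iterate_derivative_eq_zero (by omega), Polynomial.eval_zero]
      rw [CH_eq_zero h0 fun ω ω' _ _ _ => by rw [e1, e1]]
      positivity
  · -- the rows
    intro B hBA hPB i j hij hj
    have hPB0 : 0 < Pe F.p B := lt_of_lt_of_le (by positivity) hPB
    have hBl : IsLaw (Pool.Agent.H49.Ent.cond F.p B True) := isLaw_cond F.isLaw hPB0
    have hij' : (i : ℝ) ≤ j := by exact_mod_cast hij
    have hN0 : (0 : ℝ) < N₀ := by exact_mod_cast hN₀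
    have hge : 0 ≤ (1 - 1 / 2) * (μ * j / N₀ - μ * i / N₀) * Real.log 2 := by
      have h2 : μ * i / N₀ ≤ μ * j / N₀ := by gcongr
      have h3 : 0 ≤ Real.log 2 := Real.log_nonneg (by norm_num)
      have h4 : 0 ≤ μ * j / N₀ - μ * i / N₀ := by linarith
      positivity
    have hx0 : 0 ≤ (μ * i / N₀) * J := by positivity
    have hx1 : (1 : ℝ) ≤ 2 ^ ((μ * i / N₀) * J) := Real.one_le_rpow (by norm_num) hx0
    obtain ⟨Xi, hXi⟩ : ∃ Xi : F.Ω → ℤ, Xi = fun ω => ⌊pj F (fun x => Polynomial.derivative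
      (jR F W σ (c r) z' G x)) W 0 ω / 2 ^ ((μ * i / N₀) * J)⌋ := ⟨_, rfl⟩
    obtain ⟨Zc, hZc⟩ : ∃ Zc : F.Ω → ((V × (F.ζ × ℕ)) × (((Fin m → ℤ × ℤ) × (ℕ → ℕ → ℤ)) × VA)) ×
        (ℕ × F.ζ), Zc = fun ω => (cc (slam F W ω), F.W ω) := ⟨_, rfl⟩
    have hZA : CH q' Xi Zc ≤ c₀ * (δ₁ * μ * J) := by
      have s1 := CH_le_add h0 Xi u1 Zc
      have s2 : CH q' Xi (fun ω => (u1 ω, Zc ω)) ≤ Real.log 5 := by
        have s4 : Real.log (2 * ((1 + 1 : ℕ) : ℝ) + 1) = Real.log 5 := by norm_num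
        rw [← s4, hXi]
        refine CH_pair hq'l _ _ fun ω ω' _ _ e => ?_
        have h3 := hn1 ω ω' (Prod.ext_iff.mp e).1
        refine floor_sub_le ?_
        have hxp : (0 : ℝ) < 2 ^ ((μ * i / N₀) * J) := zero_lt_one.trans_le hx1
        rw [← sub_div, abs_div, abs_of_pos hxp, div_le_iff₀ hxp]
        push_cast
        linarith
      have s3 := CH_le_add h0 u1 Uv Zc
      have s5 := hUvc Zc (fun ω ω' e => by
        rw [hZc] at e
        simp only [Prod.mk.injEq] at e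
        obtain ⟨e1, e2⟩ := e
        rw [hcc] at e1
        simp only [Prod.mk.injEq] at e1
        exact ⟨(Prod.ext_iff.mp e2).1, e1.2.1⟩)
      have s6 : CH q' u1 (fun ω => (Uv ω, Zc ω)) ≤ δ * μ * J := by
        refine le_trans (CH_mono_cond h0 fun ω ω' hω hω' e => ?_) h1A
        rw [hZc] at e
        simp only [Prod.mk.injEq] at e ⊢
        obtain ⟨e0, e1, e2⟩ := e
        rw [hcc] at e1
        simp only [Prod.mk.injEq] at e1
        refine ⟨e0, ?_, (Prod.ext_iff.mp e2).1⟩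
        have a1 := hψA ω (hq'A ω hω)
        have a2 := hψA ω' (hq'A ω' hω')
        rw [hvg] at a1 a2
        rw [a1, a2]
        exact e1.2.2
      have : 0 ≤ c₀ * δ₁ / 4 * μ * J := by positivity
      linarith
    rw [hq'] at hZA
    have h2 := Pool.OWN83.ch_part F.isLaw hBA hA hc₀ hPB Xi Zc hZA
    have h3 : CH (Pool.Agent.H49.Ent.cond F.p B True) (fun ω => ⌊pj F (fun x =>
        Polynomial.derivative (jR F W σ (c r) z' G x)) W 0 ω / 2 ^ ((μ * i / N₀) * J)⌋)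
        (fun ω => (⌊pj F (fun x => Polynomial.derivative (jR F W σ (c r) z' G x)) W 0 ω /
          2 ^ ((μ * j / N₀) * J)⌋, (cc (slam F W ω), F.W ω))) ≤
        CH (Pool.Agent.H49.Ent.cond F.p B True) Xi Zc := by
      rw [hXi, hZc]
      exact CH_mono_cond hBl.nonneg fun ω ω' _ _ e => (Prod.ext_iff.mp e).2
    have h4 : ((1 - 1 / 2) * (μ * j / N₀ - μ * i / N₀) * Real.log 2 + δ₁ * μ) * J =
      (1 - 1 / 2) * (μ * j / N₀ - μ * i / N₀) * Real.log 2 * J + δ₁ * μ * J := by ring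
    rw [h4]
    have h5 : 0 ≤ (1 - 1 / 2) * (μ * j / N₀ - μ * i / N₀) * Real.log 2 * J :=
      mul_nonneg hge hJ0
    linarith

end Pool.AJX
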