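import Pool.Agent.H73.D2.Tlq

/-!
# The end in a class

`bas_big`: a statement on the events of a class holds on all their large parts. `tmh_cond`: time is
full on the events. `WW`: the windows with `Wins` and `Wdat`. `x10_con`: if the labels of the tubes of
the precision of the balls exist on a large part of each such event, then there is no gap between
the thresholds of the balls and of the closed labels.
-/

set_option autoImplicit false

namespace Pool.V1E

open Finset Real MvPolynomial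
open Pool.Agent.H49.Ent Pool.Agent.H32.Dense Pool.STK Pool.KA Pool.KSAT Pool.K2S Pool.PB Pool.S6C
open Pool.GEN Pool.CHT Pool.CHX Pool.ISO Pool.D2R Pool.D2G30 Pool.END18 Pool.D2Con
open Pool.LBT (ThrOf)
open Pool.LEV (Law)
open Pool.NLB46 (Lab lab_no)

variable {m : ℕ}

/-- **All large parts.** -/
theorem bas_big {S : PCl m} {Φ : Stat m} (h : Bas S Φ) (K₁ : ℝ) :
    Bas S (fun J F A => ∀ B : F.Ω → Prop, Sub B A → Pe F.p A ≤ K₁ * Pe F.p B → Φ J F B) := by
  obtain ⟨τ, hτ, J₁, h⟩ := h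
  obtain ⟨J₂, hJ₂⟩ := exists_nat_ge (Real.log (max K₁ 1) / (τ / 2))
  refine ⟨τ / 2, by linarith, max J₁ J₂, fun J hJ F A hA B hBA hB => ?_⟩
  refine h J ((le_max_left _ _).trans hJ) F B ?_
  have h0 : (0 : ℝ) < max K₁ 1 := lt_max_of_lt_right one_pos
  have h1 : Real.log (max K₁ 1) ≤ τ / 2 * J := by
    have h2 : Real.log (max K₁ 1) / (τ / 2) ≤ J :=
      hJ₂.trans (by exact_mod_cast (le_max_right _ _).trans hJ)
    rw [div_le_iff₀ (by linarith)] at h2
    linarith
  have h3 : max K₁ 1 ≤ Real.exp (τ / 2 * J) := by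
    rw [← Real.log_le_iff_le_exp h0]
    exact h1
  have hB0 : 0 ≤ Pe F.p B := Pe_nonneg F.isLaw B
  have h4 : Real.exp (-(τ / 2 * J)) * Pe F.p A ≤ Pe F.p B := by
    rw [Real.exp_neg]
    rw [inv_mul_le_iff₀ (Real.exp_pos _)]
    refine hB.trans ?_
    exact mul_le_mul_of_nonneg_right ((le_max_left _ _).trans h3) hB0
  have h5 := S.res (by linarith : (0 : ℝ) ≤ τ / 2) hA hBA h4
  rwa [add_halves] at h5

/-- **Time is full** on the events of a class. -/
theorem tmh_cond {S : PCl m} (hS : TmH S) {κ : ℝ} (hκ : 0 < κ) :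
    Bas S (fun J F A => 0 < Pe F.p A ∧ (J : ℝ) * Real.log 2 - κ * J ≤
      CH (Pool.Agent.H49.Ent.cond F.p A True) F.T (fun ω => (F.l ω, F.Z ω))) := by
  obtain ⟨τ, hτ, J₁, h⟩ := hS.2 κ hκ
  refine ⟨τ, hτ, J₁, fun J hJ F A hA => ?_⟩
  have h0 := hS.1 τ J F A hA
  have h2 := Pool.FLF.sub_CH (hA := h0) F.T (fun ω => (F.l ω, F.Z ω))
  exact ⟨h0, le_trans (h J hJ F A hA h0) h2.le⟩

end Pool.V1E
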