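import Pool.Agent.H23.D2.Nat

/-!
# Coordinates by the time and the heights over closed charts

`hpt c s g t h n`: the point with the time `t` whose coordinate `c i`, `i < n`, is the value of the
chart `g i` plus `h i / 2 ^ s i`. `hpo`: the same as polynomials; `pull F` the polynomial `F` in the
coordinates `(t, h)`, with its partial derivatives (`pd_pull`): they are the derivatives of `F` in
the direction of the natural vectors of the frame (`vec_none`, `vec_nat`). `pull_path`: along a
curve. `tub`: the restriction to a box around a point `(T, y)`.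
-/

set_option autoImplicit false

namespace Pool.D2G30

open Finset Real MvPolynomial
open Pool.GEN Pool.CHT Pool.D2R

/-! ### Composition -/

theorem pd_bind {σ τ : Type} [Fintype σ] (f : σ → MvPolynomial τ ℝ) (P : MvPolynomial σ ℝ)
    (i : τ) : pderiv i (bind₁ f P) = ∑ o, bind₁ f (pderiv o P) * pderiv i (f o) := by
  classical
  induction P using MvPolynomial.induction_on with
  | C r => simp
  | add p q hp hq =>
    rw [map_add, map_add, hp, hq, ← Finset.sum_add_distrib]
    refine Finset.sum_congr rfl fun o _ => ?_
    rw [map_add, map_add]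
    ring
  | mul_X p j hp =>
    rw [map_mul, bind₁_X_right, Derivation.leibniz, smul_eq_mul, smul_eq_mul, hp]
    have e : ∀ o, bind₁ f (pderiv o (p * X j)) * pderiv i (f o) =
        (if o = j then bind₁ f p * pderiv i (f j) else 0) +
          f j * (bind₁ f (pderiv o p) * pderiv i (f o)) := by
      intro o
      rw [Derivation.leibniz, smul_eq_mul, smul_eq_mul, map_add, map_mul, map_mul, bind₁_X_right,
        pderiv_X]
      by_cases h : o = j
      · subst h
        rw [if_pos rfl, Pi.single_eq_same, map_one]
        ring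
      · rw [if_neg h, Pi.single_eq_of_ne (fun hh => h hh.symm), map_zero]
        ring
    rw [Finset.sum_congr rfl fun o _ => e o, Finset.sum_add_distrib, Finset.sum_ite_eq',
      if_pos (Finset.mem_univ j), Finset.mul_sum]

theorem deg_bind {σ τ : Type} (f : σ → MvPolynomial τ ℝ) {K : ℕ}
    (hf : ∀ i, (f i).totalDegree ≤ K) (G : MvPolynomial σ ℝ) :
    (bind₁ f G).totalDegree ≤ G.totalDegree * K := by
  classical
  rw [← aeval_eq_bind₁, aeval_def, eval₂_eq]
  refine (totalDegree_finsetSum _ _).trans (Finset.sup_le fun s hs => ?_)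
  refine (totalDegree_mul _ _).trans ?_
  have h1 : (algebraMap ℝ (MvPolynomial τ ℝ) (coeff s G)).totalDegree = 0 := totalDegree_C _
  rw [h1, zero_add]
  refine (totalDegree_finsetProd _ _).trans ?_
  have h2 := le_totalDegree hs
  calc ∑ i ∈ s.support, (f i ^ s i).totalDegree ≤ ∑ i ∈ s.support, s i * K := by
        refine Finset.sum_le_sum fun i _ => ?_
        exact (totalDegree_pow _ _).trans (Nat.mul_le_mul_left _ (hf i))
    _ = (s.sum fun _ e => e) * K := by rw [Finsupp.sum, Finset.sum_mul]
    _ ≤ _ := Nat.mul_le_mul_right _ h2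

theorem eval_bind {σ τ : Type} (f : σ → MvPolynomial τ ℝ) (G : MvPolynomial σ ℝ) (y : τ → ℝ) :
    eval y (bind₁ f G) = eval (fun o => eval y (f o)) G := by
  induction G using MvPolynomial.induction_on with
  | C r => simp
  | add a b ha hb => rw [map_add, map_add, ha, hb, map_add]
  | mul_X a i ha => rw [map_mul, map_mul, ha, bind₁_X_right, map_mul, eval_X]

variable {m d : ℕ}

section def_

variable (c : ℕ → Fin m) (s : ℕ → ℕ) (g : ℕ → MvPolynomial (Option (Fin m)) ℝ)

/-- The point with the time `t` and the heights `h`. -/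
noncomputable def hpt (t : ℝ) (h : ℕ → ℝ) : ℕ → Option (Fin m) → ℝ
  | 0 => fun o => if o = none then t else 0
  | n + 1 => fun o => if o = some (c n) then eval (hpt t h n) (g n) + h n / 2 ^ s n
      else hpt t h n o

/-- The same as polynomials. -/
noncomputable def hpo (d : ℕ) : ℕ → Option (Fin m) → MvPolynomial (Option (Fin d)) ℝ
  | 0 => fun o => if o = none then X none else 0
  | n + 1 => fun o => if o = some (c n) then
      bind₁ (hpo d n) (g n) + C (1 / 2 ^ s n) * (if h : n < d then X (some ⟨n, h⟩) else 0)
      else hpo d n o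

/-- The heights as a sequence. -/
noncomputable def ext (y : Option (Fin d) → ℝ) : ℕ → ℝ :=
  fun n => if h : n < d then y (some ⟨n, h⟩) else 0

theorem eval_hpo (y : Option (Fin d) → ℝ) : ∀ (n : ℕ) (o : Option (Fin m)),
    eval y (hpo c s g d n o) = hpt c s g (y none) (ext y) n o := by
  intro n
  induction n with
  | zero =>
    intro o
    unfold hpo hpt
    split_ifs
    · rw [eval_X]
    · rw [map_zero]
  | succ n ih =>
    intro o
    unfold hpo hpt
    by_cases h : o = some (c n)
    · rw [if_pos h, if_pos h, map_add, eval_bind, map_mul, eval_C]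
      have e : (fun o => eval y (hpo c s g d n o)) = hpt c s g (y none) (ext y) n := funext ih
      rw [e]
      congr 1
      unfold ext
      split_ifs with hn
      · rw [eval_X]
        ring
      · rw [map_zero]
        ring
    · rw [if_neg h, if_neg h, ih]

variable {c s g}

theorem hpt_none (t : ℝ) (h : ℕ → ℝ) (n : ℕ) : hpt c s g t h n none = t := by
  induction n with
  | zero => unfold hpt; simp
  | succ n ih =>
    unfold hpt
    rw [if_neg (by simp)]
    exact ih

theorem hpt_stab (t : ℝ) (h : ℕ → ℝ) {n : ℕ} (hc : Set.InjOn c (Set.Iio n)) :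
    ∀ k, k ≤ n → ∀ l < k, hpt c s g t h n (some (c l)) = hpt c s g t h k (some (c l)) := by
  intro k hk l hl
  induction n with
  | zero => omega
  | succ n ih =>
    rcases Nat.lt_or_ge k (n + 1) with h1 | h1
    · have h2 : c l ≠ c n := fun he => by
        have := hc (show l ∈ Set.Iio (n + 1) from Set.mem_Iio.2 (by omega))
          (show n ∈ Set.Iio (n + 1) from Set.mem_Iio.2 (by omega)) he
        omega
      have h3 := ih (hc.mono fun x hx => Set.mem_Iio.2 (by have := Set.mem_Iio.1 hx; omega))
        (by omega)
      rw [← h3]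
      show (if some (c l) = some (c n) then _ else _) = _
      rw [if_neg (fun he => h2 (Option.some_injective _ he))]
    · have : k = n + 1 := by omega
      rw [this]

theorem hpt_eval (t : ℝ) (h : ℕ → ℝ) {n : ℕ} (hc : Set.InjOn c (Set.Iio n)) {k : ℕ} (hk : k ≤ n)
    {G : MvPolynomial (Option (Fin m)) ℝ} (hG : DepC c k G) :
    eval (hpt c s g t h n) G = eval (hpt c s g t h k) G :=
  hG _ _ (by rw [hpt_none, hpt_none]) fun l hl => hpt_stab t h hc k hk l hl

theorem hpt_c (t : ℝ) (h : ℕ → ℝ) {n : ℕ} (hc : Set.InjOn c (Set.Iio n))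
    (hdep : ∀ l, DepC c l (g l)) {i : ℕ} (hi : i < n) :
    hpt c s g t h n (some (c i)) = eval (hpt c s g t h n) (g i) + h i / 2 ^ s i := by
  rw [hpt_stab t h hc (i + 1) hi i (Nat.lt_succ_self i), hpt_eval t h hc hi.le (hdep i)]
  show (if some (c i) = some (c i) then _ else _) = _
  rw [if_pos rfl]

/-- The heights of a point give back the point. -/
theorem hpt_self (b : Option (Fin m) → ℝ) {h : ℕ → ℝ} {n : ℕ} (hc : Set.InjOn c (Set.Iio n))
    (hdep : ∀ l, DepC c l (g l))
    (hh : ∀ i < n, h i = 2 ^ s i * (b (some (c i)) - eval b (g i))) :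
    ∀ i < n, hpt c s g (b none) h n (some (c i)) = b (some (c i)) := by
  intro i
  induction i using Nat.strong_induction_on with
  | _ i ih =>
    intro hi
    rw [hpt_c _ _ hc hdep hi, hh i hi]
    have e : eval (hpt c s g (b none) h n) (g i) = eval b (g i) :=
      hdep i _ _ (hpt_none _ _ _) fun l hl => ih l hl (by omega)
    rw [e]
    have : (2 : ℝ) ^ s i ≠ 0 := by positivity
    field_simp
    ring

theorem eval_self (b : Option (Fin m) → ℝ) {h : ℕ → ℝ} {n : ℕ} (hc : Set.InjOn c (Set.Iio n))
    (hdep : ∀ l, DepC c l (g l))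
    (hh : ∀ i < n, h i = 2 ^ s i * (b (some (c i)) - eval b (g i)))
    {F : MvPolynomial (Option (Fin m)) ℝ} (hF : DepC c n F) :
    eval (hpt c s g (b none) h n) F = eval b F :=
  hF _ _ (hpt_none _ _ _) (hpt_self b hc hdep hh)

theorem deg_hpo {K : ℕ} (hg : ∀ l, (g l).totalDegree ≤ K) : ∀ (n : ℕ) (o : Option (Fin m)),
    (hpo c s g d n o).totalDegree ≤ (K + 1) ^ n := by
  intro n
  induction n with
  | zero =>
    intro o
    unfold hpo
    rw [pow_zero]
    split_ifs
    · rw [totalDegree_X]
    · rw [totalDegree_zero]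
      exact Nat.zero_le _
  | succ n ih =>
    intro o
    have h1 : 1 ≤ (K + 1) ^ n := Nat.one_le_pow _ _ (Nat.succ_pos K)
    have h2 : (K + 1) ^ n ≤ (K + 1) ^ (n + 1) := Nat.pow_le_pow_right (Nat.succ_pos K) (by omega)
    unfold hpo
    split_ifs with h hn
    · refine (totalDegree_add _ _).trans (max_le ?_ ?_)
      · refine (deg_bind _ ih _).trans ?_
        calc (g n).totalDegree * (K + 1) ^ n ≤ (K + 1) * (K + 1) ^ n :=
              Nat.mul_le_mul_right _ ((hg n).trans (Nat.le_succ K))
          _ = (K + 1) ^ (n + 1) := by ring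
      · refine (totalDegree_mul _ _).trans ?_
        rw [totalDegree_C, totalDegree_X]
        omega
    · refine (totalDegree_add _ _).trans (max_le ?_ ?_)
      · refine (deg_bind _ ih _).trans ?_
        calc (g n).totalDegree * (K + 1) ^ n ≤ (K + 1) * (K + 1) ^ n :=
              Nat.mul_le_mul_right _ ((hg n).trans (Nat.le_succ K))
          _ = (K + 1) ^ (n + 1) := by ring
      · rw [mul_zero, totalDegree_zero]
        exact Nat.zero_le _
    · exact (ih o).trans h2

end def_

/-! ### A polynomial in the coordinates `(t, h)` -/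

section pull

variable (c : ℕ → Fin m) (s : ℕ → ℕ) (g : ℕ → MvPolynomial (Option (Fin m)) ℝ)

/-- The polynomial in the coordinates `(t, h)`. -/
noncomputable def pull (d : ℕ) (F : MvPolynomial (Option (Fin m)) ℝ) :
    MvPolynomial (Option (Fin d)) ℝ := bind₁ (hpo c s g d d) F

/-- The point with the coordinates `y`. -/
noncomputable def hp (y : Option (Fin d) → ℝ) : Option (Fin m) → ℝ :=
  hpt c s g (y none) (ext y) d

/-- The vectors of the frame. -/
noncomputable def vec (y : Option (Fin d) → ℝ) (o' : Option (Fin d)) : Option (Fin m) → ℝ :=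
  fun k => eval y (pderiv o' (hpo c s g d d k))

theorem eval_pull (F : MvPolynomial (Option (Fin m)) ℝ) (y : Option (Fin d) → ℝ) :
    eval y (pull c s g d F) = eval (hp c s g y) F := by
  unfold pull hp
  rw [eval_bind]
  congr 1
  congr 1
  funext o
  exact eval_hpo c s g y d o

/-- **The partial derivatives.** -/
theorem pd_pull (F : MvPolynomial (Option (Fin m)) ℝ) (y : Option (Fin d) → ℝ)
    (o' : Option (Fin d)) :
    eval y (pderiv o' (pull c s g d F)) = dd F (hp c s g y) (vec c s g y o') := by
  unfold pull
  rw [pd_bind, map_sum]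
  unfold dd
  refine Finset.sum_congr rfl fun o _ => ?_
  rw [map_mul]
  have h := eval_pull c s g (pderiv o F) y
  unfold pull at h
  rw [h]
  rfl

variable {c s g}

theorem deg_pull {K D : ℕ} (hg : ∀ l, (g l).totalDegree ≤ K)
    {F : MvPolynomial (Option (Fin m)) ℝ} (hF : F.totalDegree ≤ D) :
    (pull c s g d F).totalDegree ≤ D * (K + 1) ^ d :=
  (deg_bind _ (deg_hpo hg d) F).trans (Nat.mul_le_mul_right _ hF)

theorem hpo_none (n : ℕ) : hpo c s g d n none = X none := by
  induction n with
  | zero => unfold hpo; simp
  | succ n ih =>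
    unfold hpo
    rw [if_neg (by simp)]
    exact ih

theorem vec_none (y : Option (Fin d) → ℝ) (o' : Option (Fin d)) :
    vec c s g y o' none = if o' = none then 1 else 0 := by
  classical
  unfold vec
  rw [hpo_none, pderiv_X]
  by_cases h : o' = none
  · rw [h, Pi.single_eq_same, if_pos rfl, map_one]
  · rw [Pi.single_eq_of_ne (fun hh => h hh.symm), if_neg h, map_zero]

theorem hpo_stab {n : ℕ} (hc : Set.InjOn c (Set.Iio n)) :
    ∀ k, k ≤ n → ∀ l < k, hpo c s g d n (some (c l)) = hpo c s g d k (some (c l)) := by
  intro k hk l hl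
  induction n with
  | zero => omega
  | succ n ih =>
    rcases Nat.lt_or_ge k (n + 1) with h1 | h1
    · have h2 : c l ≠ c n := fun he => by
        have := hc (show l ∈ Set.Iio (n + 1) from Set.mem_Iio.2 (by omega))
          (show n ∈ Set.Iio (n + 1) from Set.mem_Iio.2 (by omega)) he
        omega
      have h3 := ih (hc.mono fun x hx => Set.mem_Iio.2 (by have := Set.mem_Iio.1 hx; omega))
        (by omega)
      rw [← h3]
      show (if some (c l) = some (c n) then _ else _) = _
      rw [if_neg (fun he => h2 (Option.some_injective _ he))]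
    · have : k = n + 1 := by omega
      rw [this]

/-- **The vectors of the frame are natural.** -/
theorem vec_nat (hc : Set.InjOn c (Set.Iio d)) (hdep : ∀ l, DepC c l (g l))
    (y : Option (Fin d) → ℝ) (o' : Option (Fin d)) {j : ℕ} (hj : j < d) :
    vec c s g y o' (some (c j)) - dd (g j) (hp c s g y) (vec c s g y o') =
      if o' = some ⟨j, hj⟩ then 1 / 2 ^ s j else 0 := by
  classical
  have e1 : hpo c s g d d (some (c j)) = bind₁ (hpo c s g d j) (g j) +
      C (1 / 2 ^ s j) * X (some ⟨j, hj⟩) := by
    rw [hpo_stab hc (j + 1) hj j (Nat.lt_succ_self j)]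
    show (if some (c j) = some (c j) then _ else _) = _
    rw [if_pos rfl, dif_pos hj]
  have e2 : vec c s g y o' (some (c j)) =
      ∑ o, eval y (bind₁ (hpo c s g d j) (pderiv o (g j))) *
        eval y (pderiv o' (hpo c s g d j o)) + (if o' = some ⟨j, hj⟩ then 1 / 2 ^ s j else 0) := by
    unfold vec
    rw [e1, map_add, pd_bind, map_add, map_sum, pderiv_C_mul, map_mul, eval_C, pderiv_X]
    congr 1
    · exact Finset.sum_congr rfl fun o _ => by rw [map_mul]
    · by_cases h : o' = some ⟨j, hj⟩
      · rw [h, Pi.single_eq_same, if_pos rfl, map_one, mul_one]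
      · rw [Pi.single_eq_of_ne (fun hh => h hh.symm), if_neg h, map_zero, mul_zero]
  rw [e2]
  have e3 : ∑ o, eval y (bind₁ (hpo c s g d j) (pderiv o (g j))) *
      eval y (pderiv o' (hpo c s g d j o)) = dd (g j) (hp c s g y) (vec c s g y o') := by
    unfold dd
    refine Finset.sum_congr rfl fun o _ => ?_
    have hx : eval y (bind₁ (hpo c s g d j) (pderiv o (g j))) =
        eval (hp c s g y) (pderiv o (g j)) := by
      rw [eval_bind]
      have e4 : (fun o => eval y (hpo c s g d j o)) = hpt c s g (y none) (ext y) j :=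
        funext (eval_hpo c s g y j)
      rw [e4]
      unfold hp
      exact (hpt_eval _ _ hc hj.le (depC_pderiv (hdep j) o)).symm
    rw [hx]
    by_cases h0 : eval (hp c s g y) (pderiv o (g j)) = 0
    · rw [h0, zero_mul, zero_mul]
    · congr 1
      -- `o` is the time or one of the earlier coordinates
      rcases o with _ | k
      · unfold vec
        rw [hpo_none, hpo_none]
      · have hk : ∃ l < j, c l = k := by
          by_contra hcon
          apply h0
          refine pd_zero (hdep j) (fun l hl he => hcon ⟨l, hl, he⟩) _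
        obtain ⟨l, hl, rfl⟩ := hk
        unfold vec
        rw [← hpo_stab hc j hj.le l hl]
  rw [e3]
  ring

/-! ### Curves -/

/-- The coordinates of a curve. -/
noncomputable def hcur (c : ℕ → Fin m) (s : ℕ → ℕ) (g : ℕ → MvPolynomial (Option (Fin m)) ℝ)
    (d : ℕ) (p : Option (Fin m) → Polynomial ℝ) : Option (Fin d) → Polynomial ℝ
  | none => p none
  | some i => Polynomial.C (2 ^ s i) * (p (some (c i)) - aeval p (g i))

theorem eval_aev {σ : Type} (p : σ → Polynomial ℝ) (F : MvPolynomial σ ℝ) (t : ℝ) :
    (aeval p F).eval t = eval (fun o => (p o).eval t) F := by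
  induction F using MvPolynomial.induction_on with
  | C r => simp
  | add a b ha hb => rw [map_add, Polynomial.eval_add, ha, hb, map_add]
  | mul_X a i ha => rw [map_mul, Polynomial.eval_mul, ha, map_mul]; simp

/-- **Along a curve.** -/
theorem pull_path (hc : Set.InjOn c (Set.Iio d)) (hdep : ∀ l, DepC c l (g l))
    (p : Option (Fin m) → Polynomial ℝ) {F : MvPolynomial (Option (Fin m)) ℝ} (hF : DepC c d F) :
    aeval (hcur c s g d p) (pull c s g d F) = aeval p F := by
  refine Polynomial.funext fun t => ?_
  rw [eval_aev, eval_aev, eval_pull]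
  unfold hp
  refine eval_self (fun o => (p o).eval t) hc hdep (fun i hi => ?_) hF
  unfold ext
  rw [dif_pos hi]
  show ((hcur c s g d p) (some ⟨i, hi⟩)).eval t = _
  unfold hcur
  rw [Polynomial.eval_mul, Polynomial.eval_C, Polynomial.eval_sub, eval_aev]

/-- The chain rule for a curve. -/
theorem der_aev {σ : Type} [Fintype σ] (p : σ → Polynomial ℝ) (F : MvPolynomial σ ℝ) :
    Polynomial.derivative (aeval p F) =
      ∑ o, aeval p (pderiv o F) * Polynomial.derivative (p o) := by
  classical
  induction F using MvPolynomial.induction_on with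
  | C r => simp
  | add a b ha hb =>
    rw [map_add, Polynomial.derivative_add, ha, hb, ← Finset.sum_add_distrib]
    refine Finset.sum_congr rfl fun o _ => ?_
    rw [map_add, map_add]
    ring
  | mul_X a j ha =>
    rw [map_mul, Polynomial.derivative_mul, ha, aeval_X]
    have e : ∀ o, aeval p (pderiv o (a * X j)) * Polynomial.derivative (p o) =
        (if o = j then aeval p a * Polynomial.derivative (p j) else 0) +
          aeval p (pderiv o a) * Polynomial.derivative (p o) * p j := by
      intro o
      rw [Derivation.leibniz, smul_eq_mul, smul_eq_mul, map_add, map_mul, map_mul, aeval_X,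
        pderiv_X]
      by_cases h : o = j
      · subst h
        rw [if_pos rfl, Pi.single_eq_same, map_one]
        ring
      · rw [if_neg h, Pi.single_eq_of_ne (fun hh => h hh.symm), map_zero]
        ring
    rw [Finset.sum_congr rfl fun o _ => e o, Finset.sum_add_distrib, Finset.sum_ite_eq',
      if_pos (Finset.mem_univ j), Finset.sum_mul]
    ring

end pull

/-! ### The tube -/

/-- The substitution `t = T`, `h i = y i + δ X i`. -/
noncomputable def tsub (T : ℝ) (y : Fin d → ℝ) (δ : ℝ) : Option (Fin d) → MvPolynomial (Fin d) ℝ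
  | none => C T
  | some i => C (y i) + C δ * X i

/-- The restriction to a box. -/
noncomputable def tub (T : ℝ) (y : Fin d → ℝ) (δ : ℝ) (G : MvPolynomial (Option (Fin d)) ℝ) :
    MvPolynomial (Fin d) ℝ := bind₁ (tsub T y δ) G

/-- The point of the box. -/
noncomputable def tpt (T : ℝ) (y : Fin d → ℝ) (δ : ℝ) (β : Fin d → ℝ) : Option (Fin d) → ℝ
  | none => T
  | some i => y i + δ * β i

theorem eval_tub (T : ℝ) (y : Fin d → ℝ) (δ : ℝ) (G : MvPolynomial (Option (Fin d)) ℝ)
    (β : Fin d → ℝ) : eval β (tub T y δ G) = eval (tpt T y δ β) G := by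
  unfold tub
  rw [eval_bind]
  congr 1
  congr 1
  funext o
  rcases o with _ | i
  · show eval β (C T) = T
    rw [eval_C]
  · show eval β (C (y i) + C δ * X i) = y i + δ * β i
    rw [map_add, map_mul, eval_C, eval_C, eval_X]

theorem deg_tub (T : ℝ) (y : Fin d → ℝ) (δ : ℝ) (G : MvPolynomial (Option (Fin d)) ℝ) :
    (tub T y δ G).totalDegree ≤ G.totalDegree := by
  have h := deg_bind (tsub T y δ) (K := 1) (fun o => by
    rcases o with _ | i
    · show (C T : MvPolynomial (Fin d) ℝ).totalDegree ≤ 1
      rw [totalDegree_C]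
      exact Nat.zero_le _
    · show (C (y i) + C δ * X i : MvPolynomial (Fin d) ℝ).totalDegree ≤ 1
      refine (totalDegree_add _ _).trans (max_le ?_ ?_)
      · rw [totalDegree_C]
        exact Nat.zero_le _
      · refine (totalDegree_mul _ _).trans ?_
        rw [totalDegree_C, totalDegree_X]) G
  rwa [Nat.mul_one] at h

/-- The gradient on the box. -/
theorem pd_tub (T : ℝ) (y : Fin d → ℝ) (δ : ℝ) (G : MvPolynomial (Option (Fin d)) ℝ)
    (i : Fin d) : pderiv i (tub T y δ G) = C δ * tub T y δ (pderiv (some i) G) := by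
  classical
  unfold tub
  rw [pd_bind, Finset.sum_eq_single (some i)]
  · have e : pderiv i (tsub T y δ (some i)) = C δ := by
      show pderiv i (C (y i) + C δ * X i) = C δ
      rw [map_add, pderiv_C, pderiv_C_mul, pderiv_X, Pi.single_eq_same]
      simp
    rw [e, mul_comm]
  · intro o _ ho
    have e : pderiv i (tsub T y δ o) = 0 := by
      rcases o with _ | j
      · show pderiv i (C T) = 0
        rw [pderiv_C]
      · show pderiv i (C (y j) + C δ * X j) = 0
        have hij : i ≠ j := fun h => ho (by rw [h])
        rw [map_add, pderiv_C, pderiv_C_mul, pderiv_X, Pi.single_eq_of_ne hij.symm]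
        simp
    rw [e, mul_zero]
  · intro h
    exact absurd (Finset.mem_univ _) h

end Pool.D2G30
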