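import Pool.Agent.H98.D2.Shf
import Pool.Agent.H73.D2.Hgt

/-!
# The polynomial with given values at the nodes

`gpl K v`: the polynomial in `d` variables, of degree at most `K` in each, with the values `v` at
the nodes of the grid. If a polynomial has values near `v` at the nodes, then it is near `gpl K v`
on the cube, together with its partial derivatives.
-/

set_option autoImplicit false

namespace Pool.D2G30

open Finset Real MvPolynomial

variable {K d : ℕ}

/-- The weight of the node as a polynomial. -/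
noncomputable def elp (K : ℕ) {d : ℕ} (β : Fin d → Fin (K + 1)) : MvPolynomial (Fin d) ℝ :=
  ∏ i, Polynomial.aeval (X i : MvPolynomial (Fin d) ℝ) (lgP K (β i) 0)

theorem eval_uni (p : Polynomial ℝ) (i : Fin d) (x : Fin d → ℝ) :
    eval x (Polynomial.aeval (X i : MvPolynomial (Fin d) ℝ) p) = p.eval (x i) := by
  induction p using Polynomial.induction_on' with
  | add p q hp hq => rw [map_add, map_add, hp, hq, Polynomial.eval_add]
  | monomial n a =>
    rw [Polynomial.aeval_monomial, map_mul, map_pow, eval_X, Polynomial.eval_monomial,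
      algebraMap_eq, eval_C]

theorem eval_elp (β : Fin d → Fin (K + 1)) (x : Fin d → ℝ) : eval x (elp K β) = ell K β x := by
  unfold elp ell
  rw [map_prod]
  refine Finset.prod_congr rfl fun i _ => ?_
  rw [eval_uni, eval_lgP, zero_add]

theorem deg_uni (p : Polynomial ℝ) (i : Fin d) :
    (Polynomial.aeval (X i : MvPolynomial (Fin d) ℝ) p).totalDegree ≤ p.natDegree := by
  classical
  rw [Polynomial.aeval_eq_sum_range]
  refine (totalDegree_finsetSum _ _).trans (Finset.sup_le fun n hn => ?_)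
  refine (totalDegree_smul_le _ _).trans ?_
  refine (totalDegree_pow _ _).trans ?_
  rw [totalDegree_X, mul_one]
  exact Nat.lt_succ_iff.1 (Finset.mem_range.1 hn)

theorem deg_elp (β : Fin d → Fin (K + 1)) : (elp K β).totalDegree ≤ K * d := by
  unfold elp
  refine (totalDegree_finsetProd _ _).trans ?_
  calc ∑ i, (Polynomial.aeval (X i : MvPolynomial (Fin d) ℝ) (lgP K (β i) 0)).totalDegree
      ≤ ∑ _i : Fin d, K := Finset.sum_le_sum fun i _ => (deg_uni _ _).trans (deg_lgP K _ _)
    _ = K * d := by rw [Finset.sum_const, Finset.card_univ, Fintype.card_fin, smul_eq_mul, mul_comm]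

/-- The polynomial with the values `v`. -/
noncomputable def gpl (K : ℕ) {d : ℕ} (v : (Fin d → Fin (K + 1)) → ℝ) : MvPolynomial (Fin d) ℝ :=
  ∑ β, C (v β) * elp K β

theorem eval_gpl (v : (Fin d → Fin (K + 1)) → ℝ) (x : Fin d → ℝ) :
    eval x (gpl K v) = ∑ β, ell K β x * v β := by
  unfold gpl
  rw [map_sum]
  refine Finset.sum_congr rfl fun β _ => ?_
  rw [map_mul, eval_C, eval_elp, mul_comm]

theorem gpl_node (hK : 1 ≤ K) (v : (Fin d → Fin (K + 1)) → ℝ) (β : Fin d → Fin (K + 1)) :
    eval (nd K β) (gpl K v) = v β := by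
  rw [eval_gpl, Finset.sum_eq_single β]
  · rw [ell_node hK, if_pos rfl, one_mul]
  · intro β' _ hb
    rw [ell_node hK, if_neg hb, zero_mul]
  · intro h
    exact absurd (Finset.mem_univ _) h

theorem deg_gpl (v : (Fin d → Fin (K + 1)) → ℝ) : (gpl K v).totalDegree ≤ K * d := by
  unfold gpl
  refine (totalDegree_finsetSum _ _).trans (Finset.sup_le fun β _ => ?_)
  refine (totalDegree_mul _ _).trans ?_
  rw [totalDegree_C, zero_add]
  exact deg_elp β

/-- A polynomial with the values `v` at the nodes, of degree at most `K`. -/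
theorem gpl_self (hK : 1 ≤ K) (P : MvPolynomial (Fin d) ℝ) (hP : P.totalDegree ≤ K) :
    gpl K (fun β => eval (nd K β) P) = P := by
  refine MvPolynomial.funext fun x => ?_
  rw [eval_gpl, ← ell_interp hK P hP x]

theorem gpl_sub (v w : (Fin d → Fin (K + 1)) → ℝ) :
    gpl K v - gpl K w = gpl K fun β => v β - w β := by
  refine MvPolynomial.funext fun x => ?_
  rw [map_sub, eval_gpl, eval_gpl, eval_gpl, ← Finset.sum_sub_distrib]
  exact Finset.sum_congr rfl fun β _ => by ring

/-- The value. -/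
theorem gpl_val (v : (Fin d → Fin (K + 1)) → ℝ) {ε : ℝ} (h : ∀ β, |v β| ≤ ε) {x : Fin d → ℝ}
    (h0 : ∀ i, -1 ≤ x i) (h1 : ∀ i, x i ≤ 2) :
    |eval x (gpl K v)| ≤ (K + 1) ^ d * lgC K ^ d * ε := by
  have hC := one_le_lgC K
  rw [eval_gpl]
  refine (Finset.abs_sum_le_sum_abs _ _).trans ?_
  calc ∑ β : Fin d → Fin (K + 1), |ell K β x * v β| ≤ ∑ _β : Fin d → Fin (K + 1), lgC K ^ d * ε := by
        refine Finset.sum_le_sum fun β _ => ?_
        rw [abs_mul]
        exact mul_le_mul (ell_bd β h0 h1) (h β) (abs_nonneg _) (by positivity)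
    _ = _ := by
        rw [Finset.sum_const, Finset.card_univ, card_grid, nsmul_eq_mul]
        push_cast
        ring

/-- The bound of the partial derivatives of the weights of the nodes. -/
noncomputable def pdC (K d : ℕ) : ℝ :=
  ∑ β : Fin d → Fin (K + 1), ∑ i : Fin d, ∑ β' : Fin d → Fin (K * d + 1 + 1),
    lgC (K * d + 1) ^ d * |eval (nd (K * d + 1) β') (pderiv i (elp K β))|

theorem pdC_nonneg (K d : ℕ) : 0 ≤ pdC K d := by
  have h := one_le_lgC (K * d + 1)
  unfold pdC
  positivity

/-- **The partial derivatives.** -/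
theorem gpl_pd (v : (Fin d → Fin (K + 1)) → ℝ) {ε : ℝ} (h : ∀ β, |v β| ≤ ε) (i : Fin d)
    {x : Fin d → ℝ} (h0 : ∀ i, -1 ≤ x i) (h1 : ∀ i, x i ≤ 2) :
    |eval x (pderiv i (gpl K v))| ≤ pdC K d * ε := by
  have hC := one_le_lgC (K * d + 1)
  have hε : 0 ≤ ε := (abs_nonneg _).trans (h fun _ => 0)
  have e1 : eval x (pderiv i (gpl K v)) = ∑ β, v β * eval x (pderiv i (elp K β)) := by
    unfold gpl
    rw [map_sum, map_sum]
    refine Finset.sum_congr rfl fun β _ => ?_
    rw [pderiv_C_mul, map_mul, eval_C]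
  rw [e1]
  refine (Finset.abs_sum_le_sum_abs _ _).trans ?_
  have h2 : ∀ β : Fin d → Fin (K + 1), |v β * eval x (pderiv i (elp K β))| ≤
      ε * ∑ j : Fin d, ∑ β' : Fin d → Fin (K * d + 1 + 1),
        lgC (K * d + 1) ^ d * |eval (nd (K * d + 1) β') (pderiv j (elp K β))| := by
    intro β
    rw [abs_mul]
    refine mul_le_mul (h β) ?_ (abs_nonneg _) hε
    have h3 : (pderiv i (elp K β)).totalDegree ≤ K * d + 1 :=
      (deg_pd _ _).trans ((deg_elp β).trans (Nat.le_succ _))
    rw [ell_interp (Nat.succ_pos _) (pderiv i (elp K β)) h3 x]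
    refine (Finset.abs_sum_le_sum_abs _ _).trans ?_
    refine le_trans (Finset.sum_le_sum fun β' _ => ?_) (Finset.single_le_sum
      (f := fun j : Fin d => ∑ β' : Fin d → Fin (K * d + 1 + 1),
        lgC (K * d + 1) ^ d * |eval (nd (K * d + 1) β') (pderiv j (elp K β))|)
      (fun j _ => by positivity) (Finset.mem_univ i))
    rw [abs_mul]
    exact mul_le_mul_of_nonneg_right (ell_bd β' h0 h1) (abs_nonneg _)
  refine (Finset.sum_le_sum fun β _ => h2 β).trans (le_of_eq ?_)
  rw [← Finset.mul_sum]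
  unfold pdC
  ring

end Pool.D2G30
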