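import Pool.Agent.H73.D2.Tld

/-!
# The windows of `TL`

`Wdat`: four windows `o 0 = w - q₀` (frame), `o 1 = w`, `o 2 = w + Q` (ball), `o 3` (deep), with the
balls of `BalE`, the row label against the deep ball (`ROut1`), and the numbers. The letters at one
sample.
-/

set_option autoImplicit false

namespace Pool.V1E

open Finset Real MvPolynomial
open Pool.KA Pool.KSAT Pool.PB Pool.GEN Pool.D2R Pool.D2G30 Pool.ISO Pool.CHT Pool.CHX
open Pool.PB.Trl (rt rt_mem t_rt)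
open Pool.K2S (Sub)

/-- **The data of four windows.** -/
structure Wdat {m J : ℕ} (F : Fam m J) (c : ℕ → Fin m) (r D n M ar MB q₀ Q x u p e : ℕ)
    (s : ℕ → ℕ) (qe : Fin r → ℕ) (o : ℕ → ℕ) (z g gc gT g₀ : ℕ → ℕ → ℕ) (B : F.Ω → Prop)
    (G T : ℕ → PtT F → ℕ → MvPolynomial (Option (Fin m)) ℝ)
    (H TH : ℕ → LnT F → ℕ → MvPolynomial (Option (Fin m)) ℝ)
    (Ht : LnT F → MvPolynomial (Option (Fin m)) ℝ) : Prop where
  hc : Set.InjOn c (Set.Iio (r + 1))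
  bal : BalE F c r n M ar o z g gc gT g₀ (2 ^ u) B G T
  n3 : 3 ≤ n
  o1 : o 1 = o 0 + q₀
  o2 : o 2 = o 1 + Q
  o3 : o 2 ≤ o 3
  oa : o 3 ≤ ar
  oJ : o 3 ≤ J
  z02 : ∃ q ≤ M, z 0 q = o 2 - o 0
  z03 : ∃ q ≤ M, z 0 q = o 3 - o 0
  z12 : ∃ q ≤ M, z 1 q = o 2 - o 1
  z23 : ∃ q ≤ M, z 2 q = o 3 - o 2
  dG : ∀ k y l, (G k y l).totalDegree ≤ D
  pG : ∀ k y l, DepC c l (G k y l)
  dH : ∀ k s l, (H k s l).totalDegree ≤ D
  pH : ∀ k s l, DepC c l (H k s l)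
  dt : ∀ s, (Ht s).totalDegree ≤ D
  pt : ∀ s, DepC c r (Ht s)
  ch3 : ChOK F c (r + 1) (fun _ => D) (o 3) (o 3) e (g₀ 3) B (G 3) (H 3)
  ro : ROut1 F c r (o 1) (o 3) (ar - o 3) (g₀ 3) (gT 3) p (2 ^ u) B (G 3) (H 3) (T 3) (TH 3) Ht
  hTH : ∀ j < r, ∀ s, TH 3 s j = Hno (c j) (fun s => H 3 s j) s
  cl0 : ∀ ω, B ω → ∀ l < r, G 0 (ptr F J ω) l = H 0 (slam F (o 0) ω) l
  cl1 : ∀ ω, B ω → G 1 (ptr F J ω) r = H 1 (slam F (o 1) ω) r
  own0 : ∀ ω, B ω → ∀ l < r, ∀ τ ∈ Set.Icc (0 : ℝ) 1,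
    |(dv (o 0) (fun s _ => H 0 s l) (c l) (slam F (o 0) ω)).eval τ| ≤ 2 ^ u / 2 ^ g₀ 0 l
  own1 : ∀ ω, B ω → ∀ τ ∈ Set.Icc (0 : ℝ) 1,
    |(dv (o 1) (fun s _ => H 1 s r) (c r) (slam F (o 1) ω)).eval τ| ≤ 2 ^ u / 2 ^ g₀ 1 r
  vel2 : ∀ ω, B ω → |bd F ω (some (c r)) - dd (G 2 (ptr F J ω) r) (bt F ω) (bd F ω)| ≤
    2 ^ u * 2 ^ o 2 / 2 ^ g₀ 2 r
  near1 : ∀ ω, B ω → ∀ b, |eval b (Gno (c r) J J (fun y => G 1 y r) (ptr F J ω)) -
    eval b (G 1 (ptr F J ω) r)| ≤ 2 / 2 ^ g₀ 1 r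
  pos0 : ∀ ω, B ω → ∀ l < r, |F.x ω (c l) -
    eval (bt F ω) (Gno (c l) J J (fun y => G 0 y l) (ptr F J ω))| ≤ 1 / 2 ^ (g 0 l + (o 2 - o 0))
  pos2 : ∀ ω, B ω → |F.x ω (c r) - eval (bt F ω) (G 2 (ptr F J ω) r)| ≤ 1 / 2 ^ g₀ 2 r
  n0 : ∀ j < r, s j ≤ g₀ 0 j + q₀ + x
  n2a : ∀ j < r, g₀ 2 j ≤ s j + Q + x
  n2b : ∀ j < r, s j + Q ≤ g₀ 2 j + x
  n2c : ∀ j < r, g₀ 2 j ≤ g 0 j + (o 2 - o 0) + x
  n3a : ∀ j < r, g₀ 3 j ≤ g 0 j + (o 3 - o 0) + x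
  n3b : ∀ j < r, g₀ 3 j ≤ s j + (o 3 - o 1) + x
  n3c : ∀ j < r, gT 3 j ≤ g₀ 3 j + (ar - o 3) + x
  m1 : s r ≤ g 1 r + x
  m1' : s r ≤ g₀ 1 r + x
  m2 : s r + MB ≤ g₀ 2 r + x
  m2' : s r + MB ≤ g 2 r + x
  m3 : s r + (o 3 - o 1) + (MB - Q) ≤ g₀ 3 r + x
  mp : s r + (ar - o 1) + (MB - Q) ≤ p + x
  QM : Q ≤ MB
  q0M : MB + Q ≤ q₀
  qeM : ∀ i, MB + Q ≤ qe i
  cl2 : ∀ ω, B ω → G 2 (ptr F J ω) r = H 2 (slam F (o 2) ω) r
  ch1 : ChOK F c (r + 1) (fun _ => D) (o 1) (o 1) e (g₀ 1) B (G 1) (H 1)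
  rad0 : ChOK F c (r + 1) (fun _ => D) (o 2) (o 0) e (fun l => g 0 l + (o 2 - o 0)) B
    (fun y l => Gno (c l) J J (fun y => G 0 y l) y) (fun s l => Hno (c l) (fun s => H 0 s l) s)
  n2d : ∀ j < r, g 0 j + (o 2 - o 0) ≤ s j + Q + x
  z01 : ∃ q ≤ M, z 0 q = o 1 - o 0
  n1c : ∀ j < r, g₀ 1 j ≤ g 0 j + (o 1 - o 0) + x
  n1d : ∀ j < r, g₀ 1 j ≤ s j + x
  ch2 : ChOK F c (r + 1) (fun _ => D) (o 2) (o 2) e (g₀ 2) B (G 2) (H 2)
  m1u : g₀ 1 r ≤ s r + x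

section sub

variable {m J : ℕ} {F : Fam m J} {c : ℕ → Fin m} {r D n M ar MB q₀ Q x u p e : ℕ}
  {s : ℕ → ℕ} {qe : Fin r → ℕ} {o : ℕ → ℕ} {z g gc gT g₀ : ℕ → ℕ → ℕ} {B : F.Ω → Prop}
  {G T : ℕ → PtT F → ℕ → MvPolynomial (Option (Fin m)) ℝ}
  {H TH : ℕ → LnT F → ℕ → MvPolynomial (Option (Fin m)) ℝ}
  {Ht : LnT F → MvPolynomial (Option (Fin m)) ℝ}

/-- Smaller events. -/
theorem Wdat.sub (W : Wdat F c r D n M ar MB q₀ Q x u p e s qe o z g gc gT g₀ B G T H TH Ht)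
    {B' : F.Ω → Prop} (h : Sub B' B) :
    Wdat F c r D n M ar MB q₀ Q x u p e s qe o z g gc gT g₀ B' G T H TH Ht where
  hc := W.hc
  bal := ⟨fun k hk ω hω => W.bal.inc k hk ω (h ω hω),
    fun k hk k' hk' q hq h1 h2 ω hω => W.bal.bal k hk k' hk' q hq h1 h2 ω (h ω hω)⟩
  n3 := W.n3
  o1 := W.o1
  o2 := W.o2
  o3 := W.o3
  oa := W.oa
  oJ := W.oJ
  z02 := W.z02
  z03 := W.z03
  z12 := W.z12
  z23 := W.z23
  dG := W.dG
  pG := W.pG
  dH := W.dH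
  pH := W.pH
  dt := W.dt
  pt := W.pt
  ch3 := W.ch3.sub h
  ro := W.ro.sub h
  hTH := W.hTH
  cl0 := fun ω hω => W.cl0 ω (h ω hω)
  cl1 := fun ω hω => W.cl1 ω (h ω hω)
  own0 := fun ω hω => W.own0 ω (h ω hω)
  own1 := fun ω hω => W.own1 ω (h ω hω)
  vel2 := fun ω hω => W.vel2 ω (h ω hω)
  near1 := fun ω hω => W.near1 ω (h ω hω)
  pos0 := fun ω hω => W.pos0 ω (h ω hω)
  pos2 := fun ω hω => W.pos2 ω (h ω hω)
  n0 := W.n0
  n2a := W.n2a
  n2b := W.n2b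
  n2c := W.n2c
  n3a := W.n3a
  n3b := W.n3b
  n3c := W.n3c
  m1 := W.m1
  m1' := W.m1'
  m2 := W.m2
  m2' := W.m2'
  m3 := W.m3
  mp := W.mp
  QM := W.QM
  q0M := W.q0M
  qeM := W.qeM
  cl2 := fun ω hω => W.cl2 ω (h ω hω)
  ch1 := W.ch1.sub h
  rad0 := W.rad0.sub h
  n2d := W.n2d
  z01 := W.z01
  n1c := W.n1c
  n1d := W.n1d
  ch2 := W.ch2.sub h
  m1u := W.m1u

end sub

/-! ### General facts -/

theorem natDegree_aev {σ : Type} (Q : MvPolynomial σ ℝ) (g : σ → Polynomial ℝ) {K D : ℕ}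
    (hg : ∀ i, (g i).natDegree ≤ K) (h : Q.totalDegree ≤ D) :
    (MvPolynomial.aeval g Q).natDegree ≤ D * K := by
  rw [MvPolynomial.aeval_def, MvPolynomial.eval₂_eq]
  refine Polynomial.natDegree_sum_le_of_forall_le _ _ fun α hα => ?_
  refine (Polynomial.natDegree_mul_le).trans ?_
  have h1 : (algebraMap ℝ (Polynomial ℝ) (MvPolynomial.coeff α Q)).natDegree = 0 :=
    Polynomial.natDegree_C _
  have h2 : (∏ i ∈ α.support, g i ^ α i).natDegree ≤ α.degree * K := by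
    refine (Polynomial.natDegree_prod_le _ _).trans ?_
    calc ∑ i ∈ α.support, (g i ^ α i).natDegree ≤ ∑ i ∈ α.support, α i * K := by
          refine Finset.sum_le_sum fun i _ => ?_
          exact (Polynomial.natDegree_pow_le).trans (Nat.mul_le_mul_left _ (hg i))
      _ = α.degree * K := by
          rw [← Finset.sum_mul]
          rfl
  have h3 : α.degree ≤ D := (MvPolynomial.le_totalDegree hα).trans h
  rw [h1, zero_add]
  exact h2.trans (Nat.mul_le_mul_right _ h3)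

theorem dgt_eq {σ : Type} {D : ℕ} {R : MvPolynomial σ ℝ} (h : R.totalDegree ≤ D) :
    dgt D R = R := by
  unfold dgt
  rw [if_pos h]

theorem dgt_deg {σ : Type} (D : ℕ) (R : MvPolynomial σ ℝ) : (dgt D R).totalDegree ≤ D := by
  unfold dgt
  split_ifs with h
  · exact h
  · rw [totalDegree_zero]
    exact Nat.zero_le _

theorem trn_eq {m n : ℕ} {P : ℕ → MvPolynomial (Option (Fin m)) ℝ} {l : ℕ} (h : l < n) :
    trn n P l = P l := by
  unfold trn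
  rw [if_pos h]

theorem trn_deg {m n D : ℕ} {P : ℕ → MvPolynomial (Option (Fin m)) ℝ}
    (h : ∀ l, (P l).totalDegree ≤ D) (l : ℕ) : (trn n P l).totalDegree ≤ D := by
  unfold trn
  split_ifs
  · exact h l
  · rw [totalDegree_zero]
    exact Nat.zero_le _

theorem trn_dep {m n : ℕ} {c : ℕ → Fin m} {P : ℕ → MvPolynomial (Option (Fin m)) ℝ}
    (h : ∀ l, DepC c l (P l)) (l : ℕ) : DepC c l (trn n P l) := by
  unfold trn
  split_ifs
  · exact h l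
  · intro b b' _ _
    rw [map_zero, map_zero]

/-- The derivative in a direction at two points with the same relevant coordinates. -/
theorem dd_pt {m r : ℕ} {c : ℕ → Fin m} {R : MvPolynomial (Option (Fin m)) ℝ} (hR : DepC c r R)
    {x x' : Option (Fin m) → ℝ} (h0 : x none = x' none)
    (h : ∀ l < r, x (some (c l)) = x' (some (c l))) (V : Option (Fin m) → ℝ) :
    dd R x V = dd R x' V := by
  unfold dd
  exact Finset.sum_congr rfl fun o _ => by rw [depC_pderiv hR o x x' h0 h]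

section one

variable {m J : ℕ} {F : Fam m J} {c : ℕ → Fin m} {r D n M ar MB q₀ Q x u p e : ℕ}
  {s : ℕ → ℕ} {qe : Fin r → ℕ} {o : ℕ → ℕ} {z g gc gT g₀ : ℕ → ℕ → ℕ} {B : F.Ω → Prop}
  {G T : ℕ → PtT F → ℕ → MvPolynomial (Option (Fin m)) ℝ}
  {H TH : ℕ → LnT F → ℕ → MvPolynomial (Option (Fin m)) ℝ}
  {Ht : LnT F → MvPolynomial (Option (Fin m)) ℝ}

theorem Wdat.hcr (W : Wdat F c r D n M ar MB q₀ Q x u p e s qe o z g gc gT g₀ B G T H TH Ht) :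
    Set.InjOn c (Set.Iio r) := W.hc.mono fun y hy => by
  rw [Set.mem_Iio] at hy ⊢
  omega

/-- The frame of the line is the frame of the point. -/
theorem Wdat.fr (W : Wdat F c r D n M ar MB q₀ Q x u p e s qe o z g gc gT g₀ B G T H TH Ht)
    {ω : F.Ω} (hω : B ω) :
    frH F r q₀ (H 0) (slam F (o 1) ω) = trn r (G 0 (ptr F J ω)) := by
  have h1 : co q₀ (slam F (o 1) ω) = slam F (o 0) ω := by
    have h2 := co_slam F (w := o 0) (a := o 1) (by rw [W.o1]; omega)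
      (by have := W.oJ; have := W.o3; have := W.o2; omega) ω
    rwa [W.o1, Nat.add_sub_cancel_left, ← W.o1] at h2
  funext l
  unfold frH trn
  split_ifs with hl
  · rw [h1, W.cl0 ω hω l hl]
  · rfl

/-- The coordinates of the sample. -/
noncomputable def yp (c : ℕ → Fin m) (s : ℕ → ℕ) (r : ℕ)
    (P : ℕ → MvPolynomial (Option (Fin m)) ℝ) (b : Option (Fin m) → ℝ) : Option (Fin r) → ℝ
  | none => b none
  | some i => 2 ^ s i * (b (some (c i)) - eval b (P i))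

theorem hL_yp {w : ℕ} (hw : w ≤ J) (P : ℕ → MvPolynomial (Option (Fin m)) ℝ) (ω : F.Ω)
    (o' : Option (Fin r)) :
    (hL c s r w P (slam F w ω) o').eval (rt F w ω) = yp c s r P (bt F ω) o' := by
  have e : (fun o => (lc w (slam F w ω) o).eval (rt F w ω)) = bt F ω :=
    funext fun o => eval_lc F hw ω o
  cases o' with
  | none => exact eval_lc F hw ω none
  | some i =>
    show (Polynomial.C (2 ^ s i) * (lc w (slam F w ω) (some (c i)) -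
      MvPolynomial.aeval (lc w (slam F w ω)) (P i))).eval (rt F w ω) = _
    rw [Polynomial.eval_mul, Polynomial.eval_C, Polynomial.eval_sub, Pool.D2G30.eval_aev, e,
      eval_lc F hw ω]
    rfl

/-- The point of the coordinates. -/
theorem hp_yp (hc : Set.InjOn c (Set.Iio r)) {P : ℕ → MvPolynomial (Option (Fin m)) ℝ}
    (hdep : ∀ l, DepC c l (P l)) (b : Option (Fin m) → ℝ) :
    (hp c s P (yp c s r P b)) none = b none ∧
    ∀ l < r, (hp c s P (yp c s r P b)) (some (c l)) = b (some (c l)) := by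
  unfold hp
  refine ⟨hpt_none _ _ _, fun l hl => ?_⟩
  refine hpt_self b hc hdep (fun i hi => ?_) l hl
  show Pool.D2G30.ext (yp c s r P b) i = _
  unfold Pool.D2G30.ext
  rw [dif_pos hi]
  rfl

/-- The fractional part in the ball. -/
noncomputable def frc (c : ℕ → Fin m) (s : ℕ → ℕ) (r Q : ℕ)
    (P : ℕ → MvPolynomial (Option (Fin m)) ℝ) (b : Option (Fin m) → ℝ) : Fin r → ℝ :=
  fun i => Int.fract (2 ^ Q * yp c s r P b (some i))

theorem tpt_frc (Q : ℕ) (P : ℕ → MvPolynomial (Option (Fin m)) ℝ) (b : Option (Fin m) → ℝ) :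
    tpt (b none) (fun i : Fin r => ((⌊2 ^ Q * yp c s r P b (some i)⌋ : ℤ) : ℝ) / 2 ^ Q)
      (1 / 2 ^ Q) (frc c s r Q P b) = yp c s r P b := by
  funext o'
  cases o' with
  | none => rfl
  | some i =>
    show ((⌊2 ^ Q * yp c s r P b (some i)⌋ : ℤ) : ℝ) / 2 ^ Q +
      1 / 2 ^ Q * Int.fract (2 ^ Q * yp c s r P b (some i)) = _
    have h := Int.floor_add_fract ((2 : ℝ) ^ Q * yp c s r P b (some i))
    have hQ : (2 : ℝ) ^ Q ≠ 0 := by positivity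
    field_simp
    linarith

/-- The corner. -/
theorem Wdat.crn (W : Wdat F c r D n M ar MB q₀ Q x u p e s qe o z g gc gT g₀ B G T H TH Ht)
    (ω : F.Ω) : crF F c s r (o 1) Q (G 0) ω =
      fun i => ⌊2 ^ Q * yp c s r (trn r (G 0 (ptr F J ω))) (bt F ω) (some i)⌋ := by
  have h1J : o 1 ≤ J := by have := W.oJ; have := W.o3; have := W.o2; omega
  funext i
  unfold crF cL
  rw [hL_yp h1J]

/-- The chart of the ball at the position of the sample. -/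
theorem pf_frc (hc : Set.InjOn c (Set.Iio r)) {P : ℕ → MvPolynomial (Option (Fin m)) ℝ}
    (hdep : ∀ l, DepC c l (P l)) (b : Option (Fin m) → ℝ)
    {R : MvPolynomial (Option (Fin m)) ℝ} (hR : DepC c r R) :
    eval (frc c s r Q P b) (PfR c s r Q (b none)
      (fun i => ⌊2 ^ Q * yp c s r P b (some i)⌋) P R) = 2 ^ s r * eval b R := by
  unfold PfR
  rw [map_mul, eval_C, eval_tub, tpt_frc, eval_pull]
  obtain ⟨h0, h1⟩ := hp_yp (s := s) hc hdep b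
  rw [hR _ _ h0 h1]

theorem pg0_frc {w : ℕ} {P : ℕ → MvPolynomial (Option (Fin m)) ℝ} (b : Option (Fin m) → ℝ)
    {R : MvPolynomial (Option (Fin m)) ℝ} :
    eval (frc c s r Q P b) (PgR c s r w Q (b none)
      (fun i => ⌊2 ^ Q * yp c s r P b (some i)⌋) P R 0) =
      2 ^ s r * (eval (yp c s r P b) (pderiv none (pull c s P r R)) * (1 / 2 ^ w)) := by
  show eval _ (C (2 ^ s r / 2 ^ w) * tub _ _ _ (pderiv none (pull c s P r R))) = _
  rw [map_mul, eval_C, eval_tub, tpt_frc]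
  ring

theorem pgs_frc {w : ℕ} {P : ℕ → MvPolynomial (Option (Fin m)) ℝ} (b : Option (Fin m) → ℝ)
    {R : MvPolynomial (Option (Fin m)) ℝ} (i : Fin r) :
    eval (frc c s r Q P b) (PgR c s r w Q (b none)
      (fun i => ⌊2 ^ Q * yp c s r P b (some i)⌋) P R i.succ) =
      2 ^ s r * eval (yp c s r P b) (pderiv (some i) (pull c s P r R)) := by
  show eval _ (C (2 ^ s r) * tub _ _ _ (pderiv (some i) (pull c s P r R))) = _
  rw [map_mul, eval_C, eval_tub, tpt_frc]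

end one

end Pool.V1E
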