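import Pool.Agent.H73.D2.Tns

/-!
# The closed gradient of the target `N - P(p, u)` from closed labels of `N`

`TnH`: closed polynomials of the window, near `P` in the direction `u`, and near the deep chart of `N` in
the natural directions of the deep window. `nvp_ddH`: the deep chart of `N` against the ball. `nu_cloN`:
the closed gradient `ClU` from `TnH`.
-/

set_option autoImplicit false

namespace Pool.V1E

open Finset Real MvPolynomial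
open Pool.KA Pool.KSAT Pool.PB Pool.GEN Pool.D2R Pool.D2G30 Pool.ISO Pool.CHT Pool.CHX
open Pool.PB.Trl (rt rt_mem t_rt)
open Pool.K2S (Sub)

/-- **Closed labels of `N`**: polynomials of the lines of the window `o 1` whose derivative in the
direction `u = c r` is near that of `P`, and whose derivatives in the natural directions of the deep
window `o 3` are near those of the deep chart of `N`. -/
def TnH {m J : ℕ} (F : Fam m J) (c : ℕ → Fin m) (s : ℕ → ℕ) (r D MB Q x su : ℕ) (o : ℕ → ℕ)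
    (B : F.Ω → Prop) (G : ℕ → PtT F → ℕ → MvPolynomial (Option (Fin m)) ℝ)
    (H TH : ℕ → LnT F → ℕ → MvPolynomial (Option (Fin m)) ℝ)
    (Cp : PtT F → MvPolynomial (Option (Fin m)) ℝ) : Prop :=
  ∃ TN : LnT F → MvPolynomial (Option (Fin m)) ℝ, (∀ L, (TN L).totalDegree ≤ D) ∧
    (∀ L, DepC c (r + 1) (TN L)) ∧
    (∀ ω, B ω → |eval (bt F ω) (pderiv (some (c r)) (TN (slam F (o 1) ω))) -
      eval (bt F ω) (pderiv (some (c r)) (Cp (ptr F J ω)))| ≤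
      2 ^ (su + x) / 2 ^ (s r + (MB - Q))) ∧
    ∀ ω, B ω → ∀ V : Option (Fin m) → ℝ, V none = 0 →
      (∀ j < r, |V (some (c j)) - dd (G 0 (ptr F J ω) j) (bt F ω) V| ≤ 1 / 2 ^ s j) →
      ∀ v : ℝ, v = dd (TH 3 (slam F (o 3) ω) r) (bt F ω) V →
      |dd (TN (slam F (o 1) ω)) (bt F ω) (up (c r) V v) -
        dd (Hno (c (r + 1)) (fun s => H 3 s (r + 1)) (slam F (o 3) ω)) (bt F ω)
          (up (c r) V v)| ≤ 2 ^ x / 2 ^ (s r + (MB - Q))

/-- **The deep chart of `N`** in the natural directions of the deep window, against the ball. -/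
theorem nvp_ddH (D r : ℕ) : ∃ C : ℕ, ∀ {m J : ℕ} {F : Fam m J} {c : ℕ → Fin m}
    {n M ar MB q₀ Q x p e su : ℕ} {s : ℕ → ℕ} {qe : Fin r → ℕ} {o : ℕ → ℕ}
    {z g gc gT g₀ : ℕ → ℕ → ℕ} {B : F.Ω → Prop}
    {G T : ℕ → PtT F → ℕ → MvPolynomial (Option (Fin m)) ℝ}
    {H TH : ℕ → LnT F → ℕ → MvPolynomial (Option (Fin m)) ℝ}
    {Ht : LnT F → MvPolynomial (Option (Fin m)) ℝ},
    NvP F c r D n M ar MB q₀ Q x p e su s qe o z g gc gT g₀ B G T H TH Ht → ∀ ω, B ω →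
    ∀ V : Option (Fin m) → ℝ, V none = 0 →
    (∀ j < r, |V (some (c j)) - dd (G 0 (ptr F J ω) j) (bt F ω) V| ≤ 1 / 2 ^ s j) →
    ∀ v : ℝ, v = dd (TH 3 (slam F (o 3) ω) r) (bt F ω) V →
    |dd (Hno (c (r + 1)) (fun s => H 3 s (r + 1)) (slam F (o 3) ω)) (bt F ω) (up (c r) V v) -
      dd (G 2 (ptr F J ω) (r + 1)) (bt F ω) (up (c r) V v)| ≤
      2 ^ (C * (x + 1)) / 2 ^ (s r + (MB - Q)) := by
  obtain ⟨C₁, hnn⟩ := nvp_nrm D r
  obtain ⟨C₂, hbd⟩ := bale_dd D (r + 1)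
  obtain ⟨C₃, hdd⟩ := nvp_dd D r
  refine ⟨C₁ + C₂ + C₃ + 12, ?_⟩
  intro m J F c n M ar MB q₀ Q x p e su s qe o z g gc gT g₀ B G T H TH Ht W ω hω V hV0 hV v hve
  have hv : |v - dd (TH 3 (slam F (o 3) ω) r) (bt F ω) V| ≤
      2 ^ x * 2 ^ (ar - o 1) / 2 ^ gT 3 r := by
    rw [hve, sub_self, abs_zero]
    positivity
  obtain ⟨n2, n3, nT, nu⟩ := hnn W ω hω V hV0 hV
  obtain ⟨-, -, kT2, -⟩ := hdd W ω hω V hV0 hV
  have hn3 := W.n3
  have ho1 := W.o1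
  have ho2 := W.o2
  have ho3 := W.o3
  have hoa := W.oa
  have h3J := W.oJ
  have hQM := W.QM
  have hu3 := W.u3
  have hu4 := W.u4
  have hu5 := W.u5
  obtain ⟨q23, hq23, hz23⟩ := W.z23
  obtain ⟨Y₁, hY₁⟩ : ∃ Y₁ : ℝ, Y₁ = 2 ^ (C₁ * (x + 1)) := ⟨_, rfl⟩
  rw [← hY₁] at n2 n3 nT nu
  have hY10 : 0 < Y₁ := by rw [hY₁]; positivity
  obtain ⟨Y, hY⟩ : ∃ Y : ℝ, Y = 2 ^ ((C₁ + C₂ + C₃ + 12) * (x + 1)) := ⟨_, rfl⟩
  rw [← hY]
  have hU0 : (0 : ℝ) ≤ 2 ^ x := by positivity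
  have hpw : ∀ {k : ℕ}, k ≤ (C₁ + C₂ + C₃ + 12) * (x + 1) → (2 : ℝ) ^ k ≤ Y := fun hk => by
    rw [hY]
    exact pow_le_pow_right₀ (by norm_num) hk
  obtain ⟨aT, haT⟩ : ∃ aT : ℝ, aT = dd (TH 3 (slam F (o 3) ω) r) (bt F ω) V := ⟨_, rfl⟩
  rw [← haT] at hv kT2 nu
  -- the `u`-component in the ball
  have hv3 : 2 ^ g₀ 3 r * |v - aT| ≤ 2 ^ (3 * x) * 2 ^ (o 3 - o 1) := by
    refine (mul_le_mul_of_nonneg_left hv (by positivity)).trans ?_
    have h1 : (2 : ℝ) ^ (g₀ 3 r + (ar - o 1)) / 2 ^ gT 3 r ≤ 2 ^ (2 * x + (o 3 - o 1)) :=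
      p2_div (by omega)
    calc 2 ^ g₀ 3 r * (2 ^ x * 2 ^ (ar - o 1) / 2 ^ gT 3 r) =
        2 ^ x * (2 ^ (g₀ 3 r + (ar - o 1)) / 2 ^ gT 3 r) := by
          rw [pow_add]
          ring
      _ ≤ 2 ^ x * 2 ^ (2 * x + (o 3 - o 1)) := mul_le_mul_of_nonneg_left h1 hU0
      _ = _ := by
          rw [← pow_add, ← pow_add]
          congr 1
          ring
  have hv2 : |v - aT| ≤ 2 ^ (4 * x) * 2 ^ Q / 2 ^ g₀ 2 r := by
    refine hv.trans ?_
    rw [← pow_add, ← pow_add]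
    exact p2_le' (by omega)
  obtain ⟨Y₅, hY₅⟩ : ∃ Y₅ : ℝ, Y₅ = 2 * Y₁ + 2 ^ (3 * x) := ⟨_, rfl⟩
  have hY50 : 0 < Y₅ := by rw [hY₅]; positivity
  have hY5 : Y₅ ≤ 2 ^ ((C₁ + 5) * (x + 1)) := by
    have h1 : Y₁ ≤ 2 ^ ((C₁ + 3) * (x + 1)) := by
      rw [hY₁]
      exact pow_le_pow_right₀ (by norm_num) (Nat.mul_le_mul_right _ (by omega))
    have h2 : (2 : ℝ) ^ (3 * x) ≤ 2 ^ ((C₁ + 3) * (x + 1)) :=
      pow_le_pow_right₀ (by norm_num) (by nlinarith)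
    have h3 : (2 : ℝ) ^ ((C₁ + 3) * (x + 1) + 2) ≤ 2 ^ ((C₁ + 5) * (x + 1)) :=
      pow_le_pow_right₀ (by norm_num) (by nlinarith)
    rw [pow_add] at h3
    rw [hY₅]
    linarith [show (0 : ℝ) < 2 ^ ((C₁ + 3) * (x + 1)) by positivity]
  -- the row label
  obtain ⟨U, hU⟩ : ∃ U, U = up (c r) V v := ⟨_, rfl⟩
  rw [← hU]
  have hUn : U none = V none := by rw [hU, up_none]
  have hUl : ∀ l < r, U (some (c l)) = V (some (c l)) := fun l hl => by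
    rw [hU]
    exact up_ne (fun he => by
      have := W.hc1 (Set.mem_Iio.2 (show l < r + 1 by omega))
        (Set.mem_Iio.2 (Nat.lt_succ_self r)) he
      omega) _ _
  have hUr : U (some (c r)) = v := by rw [hU, up_self]
  have hdU : ∀ {R : MvPolynomial (Option (Fin m)) ℝ}, DepC c r R →
      dd R (bt F ω) U = dd R (bt F ω) V := fun hR => dd_congr hR _ hUn hUl
  have hnS : ∀ (ψ : ℕ → MvPolynomial (Option (Fin m)) ℝ) (g' : ℕ → ℕ) (a : ℕ),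
      (∀ l, DepC c l (ψ l)) → nrm c ψ g' a (r + 1) (bt F ω) U =
        nrm c ψ g' a r (bt F ω) V + 2 ^ g' r * |v - dd (ψ r) (bt F ω) V| := by
    intro ψ g' a hψ
    rw [← nrm_congr hψ hUn hUl]
    unfold nrm
    rw [Finset.sum_range_succ, add_assoc, hUr, hdU (hψ r)]
  have hNT : nrm c (TH 3 (slam F (o 3) ω)) (gT 3) ar (r + 1) (bt F ω) U ≤
      Y₅ * 2 ^ (ar - o 1) := by
    rw [hnS _ _ _ (W.thin.depH _), ← haT]
    have h1 : 2 ^ gT 3 r * |v - aT| ≤ 2 ^ x * 2 ^ (ar - o 1) := by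
      rw [le_div_iff₀ (by positivity)] at hv
      linarith
    have h2 : (2 : ℝ) ^ x ≤ 2 ^ (3 * x) := pow_le_pow_right₀ (by norm_num) (by omega)
    have h3 := mul_le_mul_of_nonneg_right h2 (show (0 : ℝ) ≤ 2 ^ (ar - o 1) by positivity)
    have h4 : 0 < Y₁ * 2 ^ (ar - o 1) := by positivity
    rw [hY₅]
    linarith
  have hN3 : nrm c (G 3 (ptr F J ω)) (g₀ 3) (o 3) (r + 1) (bt F ω) U ≤
      Y₅ * 2 ^ (o 3 - o 1) := by
    rw [hnS _ _ _ (W.pG 3 _)]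
    have h1 : 2 ^ g₀ 3 r * |aT - dd (G 3 (ptr F J ω) r) (bt F ω) V| ≤
        Y₁ * 2 ^ (o 3 - o 1) := by
      rw [le_div_iff₀ (by positivity)] at nu
      linarith
    have h2 : |v - dd (G 3 (ptr F J ω) r) (bt F ω) V| ≤ |v - aT| +
        |aT - dd (G 3 (ptr F J ω) r) (bt F ω) V| := by
      have e1 : v - dd (G 3 (ptr F J ω) r) (bt F ω) V =
        (v - aT) + (aT - dd (G 3 (ptr F J ω) r) (bt F ω) V) := by ring
      rw [e1]
      exact abs_add_le _ _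
    have h3 := mul_le_mul_of_nonneg_left h2 (show (0 : ℝ) ≤ 2 ^ g₀ 3 r by positivity)
    rw [hY₅]
    linarith
  have d2 : |dd (Hno (c (r + 1)) (fun s => H 3 s (r + 1)) (slam F (o 3) ω)) (bt F ω) U -
      dd (G 3 (ptr F J ω) (r + 1)) (bt F ω) U| ≤
      2 ^ x / 2 ^ g₀ 3 (r + 1) * (Y₅ * 2 ^ (o 3 - o 1)) := by
    have h1 := (W.ro.dif ω hω (r + 1) le_rfl).1 U
    rw [dd_sub] at h1
    exact h1.trans (mul_le_mul_of_nonneg_left hN3 (by positivity))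
  have d3 : |dd (G 2 (ptr F J ω) (r + 1)) (bt F ω) U -
      dd (G 3 (ptr F J ω) (r + 1)) (bt F ω) U| ≤
      2 ^ C₂ * 2 ^ x / 2 ^ min (g 2 (r + 1) + (o 3 - o 2)) (g₀ 3 (r + 1)) *
        (Y₅ * 2 ^ (o 3 - o 1)) := by
    have h1 := hbd W.hc1 W.bal hU0 (show 2 ≤ n by omega) (show 3 ≤ n by omega) hq23 (by omega) hz23
      (W.dG 2) (W.pG 2) W.ch3 ω hω (r + 1) le_rfl U
    exact h1.trans (mul_le_mul_of_nonneg_left hN3 (by positivity))
  have g2 : (2 : ℝ) ^ (o 3 - o 1) / 2 ^ g₀ 3 (r + 1) ≤ 2 ^ x / 2 ^ (s r + (MB - Q)) := by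
    refine p2_le' ?_
    have := W.m3
    omega
  have g3 : (2 : ℝ) ^ (o 3 - o 1) / 2 ^ min (g 2 (r + 1) + (o 3 - o 2)) (g₀ 3 (r + 1)) ≤
      2 ^ x / 2 ^ (s r + (MB - Q)) := by
    refine p2_le' ?_
    have := W.m3
    have := W.m2'
    rcases le_total (g 2 (r + 1) + (o 3 - o 2)) (g₀ 3 (r + 1)) with h | h
    · rw [min_eq_left h]
      omega
    · rw [min_eq_right h]
      omega
  obtain ⟨ι, hι⟩ : ∃ ι : ℝ, ι = 1 / 2 ^ (s r + (MB - Q)) := ⟨_, rfl⟩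
  have hι0 : 0 < ι := by rw [hι]; positivity
  have hxι : (2 : ℝ) ^ x / 2 ^ (s r + (MB - Q)) = 2 ^ x * ι := by rw [hι]; ring
  rw [hxι] at g2 g3
  have hYι : 0 < Y₅ * ι := by positivity
  have hxx : (2 : ℝ) ^ (x + x) ≤ 2 ^ (C₂ + x + x) :=
    pow_le_pow_right₀ (by norm_num) (by omega)
  have d2' : |dd (Hno (c (r + 1)) (fun s => H 3 s (r + 1)) (slam F (o 3) ω)) (bt F ω) U -
      dd (G 3 (ptr F J ω) (r + 1)) (bt F ω) U| ≤ 2 ^ (C₂ + x + x) * (Y₅ * ι) := by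
    refine d2.trans ?_
    calc 2 ^ x / 2 ^ g₀ 3 (r + 1) * (Y₅ * 2 ^ (o 3 - o 1)) =
        2 ^ x * Y₅ * (2 ^ (o 3 - o 1) / 2 ^ g₀ 3 (r + 1)) := by ring
      _ ≤ 2 ^ x * Y₅ * (2 ^ x * ι) := mul_le_mul_of_nonneg_left g2 (by positivity)
      _ = 2 ^ (x + x) * (Y₅ * ι) := by rw [pow_add]; ring
      _ ≤ 2 ^ (C₂ + x + x) * (Y₅ * ι) := mul_le_mul_of_nonneg_right hxx hYι.le
  have d3' : |dd (G 2 (ptr F J ω) (r + 1)) (bt F ω) U -
      dd (G 3 (ptr F J ω) (r + 1)) (bt F ω) U| ≤ 2 ^ (C₂ + x + x) * (Y₅ * ι) := by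
    refine d3.trans ?_
    calc 2 ^ C₂ * 2 ^ x / 2 ^ min (g 2 (r + 1) + (o 3 - o 2)) (g₀ 3 (r + 1)) *
        (Y₅ * 2 ^ (o 3 - o 1)) = 2 ^ C₂ * 2 ^ x * Y₅ * (2 ^ (o 3 - o 1) /
          2 ^ min (g 2 (r + 1) + (o 3 - o 2)) (g₀ 3 (r + 1))) := by ring
      _ ≤ 2 ^ C₂ * 2 ^ x * Y₅ * (2 ^ x * ι) := mul_le_mul_of_nonneg_left g3 (by positivity)
      _ = _ := by
          simp only [pow_add]
          ring
  have e0 : dd (Hno (c (r + 1)) (fun s => H 3 s (r + 1)) (slam F (o 3) ω)) (bt F ω) U -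
      dd (G 2 (ptr F J ω) (r + 1)) (bt F ω) U =
      (dd (Hno (c (r + 1)) (fun s => H 3 s (r + 1)) (slam F (o 3) ω)) (bt F ω) U -
        dd (G 3 (ptr F J ω) (r + 1)) (bt F ω) U) -
      (dd (G 2 (ptr F J ω) (r + 1)) (bt F ω) U -
        dd (G 3 (ptr F J ω) (r + 1)) (bt F ω) U) := by ring
  rw [e0]
  refine (abs_sub _ _).trans ((add_le_add d2' d3').trans ?_)
  have e2 : Y / 2 ^ (s r + (MB - Q)) = Y * ι := by rw [hι]; ring
  rw [e2]
  have h4 : 2 ^ (C₂ + x + x) * (Y₅ * ι) + 2 ^ (C₂ + x + x) * (Y₅ * ι) ≤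
      (2 ^ (C₂ + x + x + 2) * Y₅) * ι := by
    rw [pow_add _ _ 2]
    have : 0 < 2 ^ (C₂ + x + x) * (Y₅ * ι) := by positivity
    linarith
  refine h4.trans (mul_le_mul_of_nonneg_right ?_ hι0.le)
  calc (2 : ℝ) ^ (C₂ + x + x + 2) * Y₅ ≤ 2 ^ (C₂ + x + x + 2) * 2 ^ ((C₁ + 5) * (x + 1)) :=
        mul_le_mul_of_nonneg_left hY5 (by positivity)
    _ = 2 ^ (C₂ + x + x + 2 + (C₁ + 5) * (x + 1)) := by rw [← pow_add]
    _ ≤ Y := hpw (by nlinarith)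

/-- **The closed gradient** from closed labels of `N`. -/
theorem nu_cloN (D r : ℕ) : ∃ C : ℕ, ∀ {m J : ℕ} {F : Fam m J} {c : ℕ → Fin m}
    {n M ar MB q₀ Q x p e su : ℕ} {s : ℕ → ℕ} {qe : Fin r → ℕ} {o : ℕ → ℕ}
    {z g gc gT g₀ : ℕ → ℕ → ℕ} {B : F.Ω → Prop}
    {G T : ℕ → PtT F → ℕ → MvPolynomial (Option (Fin m)) ℝ}
    {H TH : ℕ → LnT F → ℕ → MvPolynomial (Option (Fin m)) ℝ}
    {Ht CL : LnT F → MvPolynomial (Option (Fin m)) ℝ}
    {Cp : PtT F → MvPolynomial (Option (Fin m)) ℝ},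
    NwDU F c r D n M ar MB q₀ Q x p e su s qe o z g gc gT g₀ B G T H TH Ht CL Cp →
    TnH F c s r D MB Q x su o B G H TH Cp → ClU F c s r D C MB Q x o B G Cp := by
  obtain ⟨C₁, hdd⟩ := nvp_dd D r
  obtain ⟨C₀, hdH⟩ := nvp_ddH D r
  obtain ⟨C₂, hC₂, hh⟩ := nu_h D r
  obtain ⟨C₃, hC₃⟩ := pow_unbounded_of_one_lt C₂ (one_lt_two (α := ℝ))
  refine ⟨2 * C₁ + C₀ + C₃ + 7, ?_⟩
  intro m J F c n M ar MB q₀ Q x p e su s qe o z g gc gT g₀ B G T H TH Ht CL Cp W WN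
  obtain ⟨TN, dTN, pTN, hTN1, hTN2⟩ := WN
  refine ⟨nwT F c s r (o 1) q₀ (H 0) (H 1) TN CL, ?_, ?_⟩
  · intro L i
    unfold nwT
    refine (Polynomial.natDegree_C_mul_le _ _).trans ?_
    have hd : ∀ l, (frU r (frH F r q₀ (H 0) L) (H 1 L) l).totalDegree ≤ D :=
      frU_deg (trn_deg (W.dH 0 _)) (W.dH 1 L)
    have h1 : ∀ o', (hL c s (r + 1) (o 1) (frU r (frH F r q₀ (H 0) L) (H 1 L)) L
        o').natDegree ≤ D + 1 := by
      intro o'
      cases o' with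
      | none =>
        show (lc (o 1) L none).natDegree ≤ D + 1
        exact (natDegree_lc _ _ _).trans (by omega)
      | some j =>
        show (Polynomial.C (2 ^ s j) * (lc (o 1) L (some (c j)) -
          MvPolynomial.aeval (lc (o 1) L) (frU r (frH F r q₀ (H 0) L) (H 1 L)
            j))).natDegree ≤ _
        refine (Polynomial.natDegree_C_mul_le _ _).trans
          ((Polynomial.natDegree_sub_le _ _).trans
          (max_le ((natDegree_lc _ _ _).trans (by omega)) ?_))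
        have h1 := natDegree_aev (K := 1) (D := D) (frU r (frH F r q₀ (H 0) L) (H 1 L) j)
          (lc (o 1) L) (natDegree_lc _ _) (hd j)
        omega
    have h2 : (TN L - CL L - nW c r (H 1 L) (CL L)).totalDegree ≤ (D + 1) * (D + 1) := by
      refine (totalDegree_sub _ _).trans (max_le ((totalDegree_sub _ _).trans (max_le
        ((dTN L).trans (by nlinarith)) ((W.dCL L).trans (by nlinarith))))
        (deg_nW (W.dH 1 L) (W.dCL L)))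
    have h3 : (pderiv (some i.castSucc) (pull c s (frU r (frH F r q₀ (H 0) L) (H 1 L))
        (r + 1) (TN L - CL L -
        nW c r (H 1 L) (CL L)))).totalDegree ≤ (D + 1) * (D + 1) * (D + 1) ^ (r + 1) :=
      (pd_deg _ _).trans (deg_pull hd h2)
    refine (natDegree_aev _ _ h1 h3).trans (le_of_eq ?_)
    ring
  intro ω hω i
  have h1J : o 1 ≤ J := by have := W.oJ; have := W.o3; have := W.o2; omega
  have hQM := W.QM
  have Fr := W.toNvP.frd (D' := D) (x' := 2 * x + 2) le_rfl le_rfl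
  have hfr := Fr.fr hω
  obtain ⟨L, hLe⟩ : ∃ L, L = slam F (o 1) ω := ⟨_, rfl⟩
  obtain ⟨P, hP⟩ : ∃ P, P = trn r (G 0 (ptr F J ω)) := ⟨_, rfl⟩
  have hPd : ∀ l, DepC c l (P l) := by
    rw [hP]
    exact trn_dep (W.pG 0 _)
  have hPe : ∀ l < r, P l = G 0 (ptr F J ω) l := fun l hl => by
    rw [hP]
    exact trn_eq hl
  obtain ⟨V, hV⟩ : ∃ V, V = fvec F c s r (G 0) ω i := ⟨_, rfl⟩
  have hVv : V = vec c s P (yp c s r P (bt F ω)) (some i) := by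
    rw [hV, hP]
    rfl
  have hV0 : V none = 0 := by
    rw [hVv, vec_none, if_neg (by simp)]
  obtain ⟨p0, p1⟩ := hp_yp (s := s) W.hcr hPd (bt F ω)
  have hVc : ∀ j < r, |V (some (c j)) - dd (G 0 (ptr F J ω) j) (bt F ω) V| ≤ 1 / 2 ^ s j := by
    intro j hj
    have h1 := vec_nat (s := s) W.hcr hPd (yp c s r P (bt F ω)) (some i) hj
    rw [← hVv, dd_pt (hPd j) p0 (fun l hl => p1 l (by omega)), hPe j hj] at h1
    rw [h1]
    split_ifs
    · rw [abs_of_pos (by positivity)]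
    · rw [abs_zero]
      positivity
  obtain ⟨w0, w1, w2⟩ := vec_ext (s := s) (r := r) W.hc1 hPd (W.pH 1 L) (bt F ω) i
  obtain ⟨V', hV'⟩ : ∃ V', V' = vec c s (frU r P (H 1 L)) (yp c s (r + 1) (frU r P (H 1 L))
    (bt F ω)) (some i.castSucc) := ⟨_, rfl⟩
  rw [← hV', ← hVv] at w0 w1 w2
  have hG1 : H 1 L r = G 1 (ptr F J ω) r := by
    rw [hLe, W.cl1 ω hω r (Nat.le_succ r)]
  rw [hG1] at w2
  -- the closed gradient
  obtain ⟨q0, q1⟩ := hp_yp (s := s) W.hc1 (frU_dep (r := r) hPd (W.pH 1 L)) (bt F ω)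
  have hRd : DepC c (r + 1) (TN L - CL L - nW c r (H 1 L) (CL L)) := by
    intro b b' h0 h1
    rw [map_sub, map_sub, map_sub, map_sub, pTN L b b' h0 h1, W.pCL L b b' h0 h1,
      dep_nW W.hc1 (W.pH 1 L) (W.pCL L) b b' h0 (fun l hl => h1 l (by omega))]
  have eT : (nwT F c s r (o 1) q₀ (H 0) (H 1) TN CL (slam F (o 1) ω) i).eval (rt F (o 1) ω) =
      2 ^ s r * dd (TN L - CL L - nW c r (H 1 L) (CL L)) (bt F ω) V' := by
    unfold nwT
    rw [hfr, ← hP, ← hLe, Polynomial.eval_mul, Polynomial.eval_C, Pool.D2G30.eval_aev]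
    have e2 : (fun o' => (hL c s (r + 1) (o 1) (frU r P (H 1 L)) L o').eval (rt F (o 1) ω)) =
        yp c s (r + 1) (frU r P (H 1 L)) (bt F ω) := by
      rw [hLe]
      exact funext fun o' => hL_yp h1J _ ω o'
    rw [e2, pd_pull, ← hV', dd_pt hRd q0 q1]
  have hdV : ∀ {R : MvPolynomial (Option (Fin m)) ℝ}, DepC c r R →
      dd R (bt F ω) V' = dd R (bt F ω) V := fun hR => dd_congr hR _ w0 w1
  obtain ⟨a1, ha1⟩ : ∃ a : ℝ, a = dd (G 1 (ptr F J ω) r) (bt F ω) V := ⟨_, rfl⟩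
  obtain ⟨a2, ha2⟩ : ∃ a : ℝ, a = dd (G 2 (ptr F J ω) r) (bt F ω) V := ⟨_, rfl⟩
  obtain ⟨aT, haT⟩ : ∃ a : ℝ, a = dd (TH 3 (slam F (o 3) ω) r) (bt F ω) V := ⟨_, rfl⟩
  have hne : ∀ l < r, c l ≠ c r := fun l hl he => by
    have := W.hc1 (Set.mem_Iio.2 (show l < r + 1 by omega))
      (Set.mem_Iio.2 (Nat.lt_succ_self r)) he
    omega
  have hup : ∀ {R : MvPolynomial (Option (Fin m)) ℝ} (v : ℝ), DepC c r R →
      dd R (bt F ω) (up (c r) V v) = dd R (bt F ω) V := fun v hR =>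
    dd_congr hR _ (up_none _ _ _) fun l hl => up_ne (hne l hl) _ _
  have hupup : ∀ v v' : ℝ, up (c r) (up (c r) V v) v' = up (c r) V v' := by
    intro v v'
    funext o'
    unfold up
    split_ifs <;> rfl
  rw [← ha1] at w2
  -- the gradient of the row label
  have eH : ∀ {R : MvPolynomial (Option (Fin m)) ℝ}, DepC c (r + 1) R →
      dd R (bt F ω) V' = dd R (bt F ω) (up (c r) V a1) := by
    intro R hR
    refine dd_congr hR _ (by rw [w0, up_none]) fun l hl => ?_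
    rcases Nat.lt_or_ge l r with h | h
    · rw [w1 l h, up_ne (hne l h)]
    · have : l = r := by omega
      subst this
      rw [w2, up_self]
  have eR : dd (TN L - CL L - nW c r (H 1 L) (CL L)) (bt F ω) V' =
      dd (TN L) (bt F ω) (up (c r) V a1) - dd (Cp (ptr F J ω)) (bt F ω) (up (c r) V a1) -
        dd (nW c r (G 1 (ptr F J ω)) (Cp (ptr F J ω))) (bt F ω) V := by
    rw [dd_sub, dd_sub, hdV (dep_nW W.hc1 (W.pH 1 L) (W.pCL L)), eH (pTN L), eH (W.pCL L), hLe,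
      ← W.clA hω, ← W.clC ω hω]
  obtain ⟨n2, k12, kT2, -⟩ := hdd W.toNvP ω hω V hV0 hVc
  have kH1 := hdH W.toNvP ω hω V hV0 hVc aT haT
  have kH2 := hTN2 ω hω V hV0 hVc aT haT
  have k4 := hh W ω hω V
  rw [← haT] at kT2
  rw [← ha1, ← ha2] at k12
  rw [← ha2] at kT2 k4
  rw [← hLe] at kH2
  have hCt := hTN1 ω hω
  rw [← hLe] at hCt
  have hC2 := W.hC2 ω hω (bt F ω) (bt_box W.ch2 (by omega) hω _)
  obtain ⟨K, hK⟩ : ∃ K : ℝ, K = eval (bt F ω) (pderiv (some (c r)) (Cp (ptr F J ω))) := ⟨_, rfl⟩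
  rw [← hK] at hCt hC2
  have e3 := dd_up (TN L) (c r) (bt F ω) (up (c r) V a1) aT
  rw [hupup, up_self] at e3
  have e4 := dd_up (G 2 (ptr F J ω) (r + 1)) (c r) (bt F ω) (up (c r) V aT) a2
  rw [hupup, up_self] at e4
  have e5 : dd (nfw r (G 2 (ptr F J ω)) (Cp (ptr F J ω))) (bt F ω) (up (c r) V a2) =
      dd (G 2 (ptr F J ω) (r + 1)) (bt F ω) (up (c r) V a2) -
        dd (Cp (ptr F J ω)) (bt F ω) (up (c r) V a2) := dd_nfw _ _
  have e9 := dd_up (Cp (ptr F J ω)) (c r) (bt F ω) (up (c r) V a1) a2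
  rw [hupup, up_self, ← hK] at e9
  rw [eT, eR, dd_sub, ← hV, ← mul_sub, abs_mul, abs_of_pos (show (0 : ℝ) < 2 ^ s r by positivity)]
  obtain ⟨nA, hnA⟩ : ∃ nA : ℝ, nA = dd (nW c r (G 2 (ptr F J ω)) (Cp (ptr F J ω))) (bt F ω) V := ⟨_, rfl⟩
  rw [← hnA] at k4 ⊢
  have e6 : dd (TN L) (bt F ω) (up (c r) V a1) - dd (Cp (ptr F J ω)) (bt F ω) (up (c r) V a1) -
        dd (nW c r (G 1 (ptr F J ω)) (Cp (ptr F J ω))) (bt F ω) V - (nA -
        dd (nW c r (G 1 (ptr F J ω)) (Cp (ptr F J ω))) (bt F ω) V) =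
      (eval (bt F ω) (pderiv (some (c r)) (TN L)) - K) * (a1 - aT) +
      (dd (TN L) (bt F ω) (up (c r) V aT) -
        dd (G 2 (ptr F J ω) (r + 1)) (bt F ω) (up (c r) V aT)) +
      (eval (bt F ω) (pderiv (some (c r)) (G 2 (ptr F J ω) (r + 1))) - K) * (aT - a2) +
      (dd (nfw r (G 2 (ptr F J ω)) (Cp (ptr F J ω))) (bt F ω)
        (up (c r) V a2) - nA) := by
    rw [e5]
    linear_combination e3 + e4 - e9
  rw [e6]
  -- the numbers
  obtain ⟨Y, hY⟩ : ∃ Y : ℝ, Y = 2 ^ ((C₁ + C₀ + 1) * (x + 1)) := ⟨_, rfl⟩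
  have hY1 : (2 : ℝ) ^ (C₁ * (x + 1)) ≤ Y := by
    rw [hY]
    exact pow_le_pow_right₀ (by norm_num) (by nlinarith)
  have hY2 : (2 : ℝ) ^ x + 2 ^ (C₀ * (x + 1)) ≤ Y := by
    have h1 : (2 : ℝ) ^ x ≤ 2 ^ (C₀ * (x + 1) + x) := pow_le_pow_right₀ (by norm_num) (by omega)
    have h2 : (2 : ℝ) ^ (C₀ * (x + 1)) ≤ 2 ^ (C₀ * (x + 1) + x) :=
      pow_le_pow_right₀ (by norm_num) (by omega)
    have h3 : (2 : ℝ) ^ (C₀ * (x + 1) + x + 1) ≤ Y := by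
      rw [hY]
      exact pow_le_pow_right₀ (by norm_num) (by nlinarith)
    rw [pow_succ] at h3
    linarith
  replace n2 := n2.trans (mul_le_mul_of_nonneg_right hY1 (by positivity))
  replace k12 := k12.trans (div_le_div_of_nonneg_right hY1 (by positivity))
  replace kT2 := kT2.trans (div_le_div_of_nonneg_right (mul_le_mul_of_nonneg_right hY1
    (by positivity)) (by positivity))
  have hY0 : 0 < Y := by rw [hY]; positivity
  obtain ⟨ι, hι⟩ : ∃ ι : ℝ, ι = 1 / 2 ^ (s r + (MB - Q)) := ⟨_, rfl⟩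
  have hι0 : 0 < ι := by rw [hι]; positivity
  have hMB : (2 : ℝ) ^ (s r + MB) = 2 ^ (s r + (MB - Q)) * 2 ^ Q := by
    rw [← pow_add]
    congr 1
    omega
  have hQ0 : (0 : ℝ) < 2 ^ Q := by positivity
  have t1 : |(eval (bt F ω) (pderiv (some (c r)) (TN L)) - K) * (a1 - aT)| ≤
      2 ^ (x + x + 1) * Y * ι := by
    have h1 : |a1 - aT| ≤ 2 ^ (x + 1) * Y / 2 ^ su := by
      have e7 : a1 - aT = (a1 - a2) - (aT - a2) := by ring
      have h2 : Y * 2 ^ Q / 2 ^ g₀ 2 r ≤ 2 ^ x * Y / 2 ^ su := by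
        have h3 : (2 : ℝ) ^ Q / 2 ^ g₀ 2 r ≤ 2 ^ x / 2 ^ su := p2_le' W.u2
        calc Y * 2 ^ Q / 2 ^ g₀ 2 r = Y * (2 ^ Q / 2 ^ g₀ 2 r) := by ring
          _ ≤ Y * (2 ^ x / 2 ^ su) := mul_le_mul_of_nonneg_left h3 hY0.le
          _ = _ := by ring
      have h4 : Y / 2 ^ su ≤ 2 ^ x * Y / 2 ^ su := by
        refine div_le_div_of_nonneg_right ?_ (by positivity)
        exact le_mul_of_one_le_left hY0.le (one_le_pow₀ (by norm_num))
      rw [e7]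
      refine (abs_sub _ _).trans ((add_le_add (k12.trans h4) (kT2.trans h2)).trans
        (le_of_eq ?_))
      rw [pow_succ]
      ring
    rw [abs_mul]
    refine (mul_le_mul hCt h1 (abs_nonneg _) (by positivity)).trans (le_of_eq ?_)
    rw [hι, pow_add 2 su x, pow_add 2 x 1, pow_add 2 (x + x) 1, pow_add 2 x x]
    field_simp
  have t3 : |(eval (bt F ω) (pderiv (some (c r)) (G 2 (ptr F J ω) (r + 1))) - K) *
      (aT - a2)| ≤ 2 ^ x * Y * ι := by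
    rw [abs_mul]
    refine (mul_le_mul hC2 kT2 (abs_nonneg _) (by positivity)).trans (le_of_eq ?_)
    rw [hι, hMB, pow_add 2 (g₀ 2 r) x]
    field_simp
  have t4 : |dd (nfw r (G 2 (ptr F J ω)) (Cp (ptr F J ω))) (bt F ω)
        (up (c r) V a2) - nA| ≤ 2 ^ (C₃ + x) * Y * ι := by
    refine (k4.trans (mul_le_mul_of_nonneg_left n2 (by positivity))).trans ?_
    have e7 : C₂ * (2 ^ x / 2 ^ (s r + MB)) * (Y * 2 ^ Q) = C₂ * (2 ^ x * Y * ι) := by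
      rw [hι, hMB]
      field_simp
    rw [e7, pow_add]
    calc C₂ * (2 ^ x * Y * ι) ≤ 2 ^ C₃ * (2 ^ x * Y * ι) :=
          mul_le_mul_of_nonneg_right hC₃.le (by positivity)
      _ = _ := by ring
  have t2 : |dd (TN L) (bt F ω) (up (c r) V aT) -
        dd (G 2 (ptr F J ω) (r + 1)) (bt F ω) (up (c r) V aT)| ≤ Y * ι := by
    have e7 : dd (TN L) (bt F ω) (up (c r) V aT) -
        dd (G 2 (ptr F J ω) (r + 1)) (bt F ω) (up (c r) V aT) =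
        (dd (TN L) (bt F ω) (up (c r) V aT) -
          dd (Hno (c (r + 1)) (fun s => H 3 s (r + 1)) (slam F (o 3) ω)) (bt F ω)
            (up (c r) V aT)) +
        (dd (Hno (c (r + 1)) (fun s => H 3 s (r + 1)) (slam F (o 3) ω)) (bt F ω)
          (up (c r) V aT) - dd (G 2 (ptr F J ω) (r + 1)) (bt F ω) (up (c r) V aT)) := by ring
    rw [e7]
    refine (abs_add_le _ _).trans ((add_le_add kH2 kH1).trans ?_)
    rw [← add_div, hι, mul_one_div]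
    exact div_le_div_of_nonneg_right hY2 (by positivity)
  have hsum := (abs_add_le _ _).trans (add_le_add ((abs_add_le _ _).trans (add_le_add
    ((abs_add_le _ _).trans (add_le_add t1 t2)) t3)) t4)
  refine (mul_le_mul_of_nonneg_left hsum (by positivity)).trans ?_
  have e8 : (2 : ℝ) ^ s r * ι = 1 / 2 ^ (MB - Q) := by
    rw [hι, pow_add]
    field_simp
  obtain ⟨K', hK'⟩ : ∃ K', K' = C₃ + x + x + 1 := ⟨_, rfl⟩
  have hpw : ∀ {a b : ℕ}, a ≤ b → (2 : ℝ) ^ a ≤ 2 ^ b := fun h =>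
    pow_le_pow_right₀ (by norm_num) h
  have b1 : (2 : ℝ) ^ (x + x + 1) ≤ 2 ^ K' := hpw (by omega)
  have b2 : (1 : ℝ) ≤ 2 ^ K' := one_le_pow₀ (by norm_num)
  have b3 : (2 : ℝ) ^ x ≤ 2 ^ K' := hpw (by omega)
  have b4 : (2 : ℝ) ^ (C₃ + x) ≤ 2 ^ K' := hpw (by omega)
  have hYι : 0 < Y * ι := by positivity
  have b5 : 2 ^ (x + x + 1) * Y * ι + Y * ι + 2 ^ x * Y * ι + 2 ^ (C₃ + x) * Y * ι ≤
      2 ^ (K' + 2) * (Y * ι) := by
    rw [pow_add 2 K' 2]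
    nlinarith [mul_le_mul_of_nonneg_right b1 hYι.le, mul_le_mul_of_nonneg_right b2 hYι.le,
      mul_le_mul_of_nonneg_right b3 hYι.le, mul_le_mul_of_nonneg_right b4 hYι.le]
  refine (mul_le_mul_of_nonneg_left b5 (by positivity)).trans ?_
  have e9 : 2 ^ s r * (2 ^ (K' + 2) * (Y * ι)) = 2 ^ (K' + 2) * Y * (2 ^ s r * ι) := by ring
  rw [e9, e8, mul_one_div]
  refine div_le_div_of_nonneg_right ?_ (by positivity)
  rw [hY, ← pow_add]
  exact hpw (by rw [hK']; nlinarith)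

end Pool.V1E
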