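import Pool.Agent.H73.D2.Clrd
import Pool.Agent.H37.STA.Rdd

/-!
# The closed polynomials of families of values at a record

`fv_free`: the row of the free velocities at a window of a record. `clo_rec`: the geometric data and the
closed polynomials at a record.
-/

set_option autoImplicit false

namespace Pool.CLR73

open Finset Real MvPolynomial
open Pool.Agent.H49.Ent Pool.Agent.H32.Dense Pool.STK Pool.KA Pool.KSAT Pool.K2S Pool.PB Pool.S6C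
open Pool.GEN Pool.CHT Pool.CHX Pool.D2Con Pool.D2A Pool.D2F Pool.RCD
open Pool.LA91 Pool.PKG
open Pool.STB (V3 Po Bx box_in)
open Pool.STB82 (nodF_rec)
open Pool.STA37 (u_sc u_rat)
open Pool.RCD (vg)

section

variable {m : ℕ} {S : PCl m} {al : ℝ} {g₀ : ℝ → ℝ} {P₀ : List (Fin m) × Fin m → ℝ → ℝ → ℝ}
  {θ : ℝ} {P₂ : ℕ → List (Fin m) × Fin m → ℝ → ℝ → ℝ} {θ₂ Eb e₂ : ℕ → ℝ}
  {c : ℕ → Fin m} {Pt : ℝ → ℝ → ℝ} {r : ℝ → ℝ} {h K₀ g : ℝ} {L T : ℕ → ℝ → ℝ → ℝ}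
  {Sl : ℕ → ℝ} {κ : ℕ → Kg} {G : Set ℝ} {S₀ N₀ : ℕ} {A V : ℕ → ℝ} {S₂ N' : ℕ} {V' : ℕ → ℝ}
  {K ε q t : ℝ}

/-- **The row of the free velocities at a window `t + V₀ q` of a record.** -/
theorem fv_free (R : RecG S al g₀ P₀ θ P₂ θ₂ Eb e₂ c Pt r h K₀ g L T Sl κ G S₀ N₀ A V S₂ N' V' K ε
    q t) (hm : 2 < m) (hκ1 : κ 1 = .one) (hε1 : ε ≤ 1 / 2) {CF k₀ : ℕ}
    {ν κF x₀ V₀ : ℝ} (hfa : ∀ k ≥ k₀, FreeAt S (fun J F => ptr F J) (fun _ F => F.W) c 2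
      (fun l w => L l w w) G x₀ CF 1 κF k) (hbG : t + (V₀ - (CF + 28)) * q ∈ G) (hν : 0 ≤ ν)
    (hx1 : t + (V₀ - (CF + 13 - ν)) * q ≤ x₀) (hx2 : x₀ ≤ t + (V₀ - (CF / 2 + 28)) * q)
    (hνC : 2 * ν + 40 ≤ CF) (hK : |V₀| + CF + 30 ≤ K) (hq1 : q < (1 / 2) ^ k₀) :
    ∃ (hF : ℝ) (Pq : Fin 2 → ℝ) (eF : ℝ), q / 2 ≤ hF ∧ hF ≤ q ∧ 0 < eF ∧ (∀ i, Pq i ≤ 1) ∧
      (ν + 1) * q ≤ Pq 0 ∧ (ν + 2) * q + L 1 t t - t ≤ Pq 1 ∧
      ∃ k₂ : ℝ, 0 < k₂ ∧ ∀ Kf : ℕ, Bas S (fun J F A =>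
        ∀ (V : Type) (z : F.Ω → V) (V' : Type) (z' : F.Ω → V'),
        Mx (fun J F => ptr F J) (vg (t + V₀ * q)) k₂ F A z →
        Mx (fun J F => ptr F J) (vg (t + (V₀ + ν) * q)) k₂ F A z' →
        ∀ u, (qG m c 2 (fun i x => L i x x - (1 : ℝ) / 20 * hF) (t + (V₀ - (CF + 28)) * q) Pq).P Kf
          eF J F A u →
        CH (Pool.Agent.H49.Ent.cond F.p A True) u (fun ω => (z ω, F.W ω)) ≤
          CH (Pool.Agent.H49.Ent.cond F.p A True) u (fun ω => (z' ω, F.W ω)) + κF * hF * J) := by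
  have hq := R.q0
  obtain ⟨k, hk, hF1, hF2⟩ := u_sc hq hq1
  obtain ⟨H, hH⟩ : ∃ H : ℝ, H = (1 / 2) ^ k := ⟨_, rfl⟩
  have hH0 : 0 < H := by
    rw [hH]
    positivity
  rw [← hH] at hF1 hF2
  have hCF : (0 : ℝ) ≤ CF := Nat.cast_nonneg _
  have hV1 := le_abs_self V₀
  have hV2 := neg_abs_le V₀
  have hVq1 : V₀ * q ≤ |V₀| * q := mul_le_mul_of_nonneg_right hV1 hq.le
  have hVq2 : -|V₀| * q ≤ V₀ * q := mul_le_mul_of_nonneg_right hV2 hq.le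
  have hKq' : (|V₀| + CF + 30) * q ≤ K * q := mul_le_mul_of_nonneg_right hK hq.le
  have hνq : 0 ≤ ν * q := mul_nonneg hν hq.le
  have hCq : 0 ≤ (CF : ℝ) * q := mul_nonneg hCF hq.le
  have hx0t : |x₀ - t| ≤ K * q := by
    rw [abs_le]
    constructor <;> linarith
  have hx00 : 0 < x₀ := by
    have h1 := (abs_le.1 hx0t).1
    have h2 := R.t0
    linarith
  have hx01 : x₀ ≤ 1 := by
    have h1 := (abs_le.1 hx0t).2
    have h2 := R.t1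
    linarith
  have s1 : Sl 1 = 1 := by
    have h1 := R.kd 1 (by omega)
    rw [hκ1] at h1
    exact h1
  have RT := R.tg 2 (by norm_num) hm
  have hroom : ∀ l ≤ 2, L l x₀ x₀ + Eb 2 + 3 * K * q < 1 := fun l hl => RT.room l hl x₀ hx0t
  have hEb := RT.Eb0
  have n0 : 0 ≤ L 0 x₀ x₀ - x₀ := by
    have := R.low_at (i := 0) (by omega) hx00.le le_rfl hx01
    linarith
  have n1 : L 1 t t - t - ε * q ≤ L 1 x₀ x₀ - x₀ := by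
    have h1 := (abs_le.1 (R.dL 1 (by omega) x₀ hx0t)).1
    rw [s1] at h1
    linarith
  -- the precisions
  obtain ⟨p0, hp0, hp0'⟩ := exists_rat_btwn (show L 0 x₀ x₀ - x₀ + (CF - 1 / 4) * H <
    L 0 x₀ x₀ - x₀ + CF * H by linarith)
  obtain ⟨p1, hp1, hp1'⟩ := exists_rat_btwn (show L 1 x₀ x₀ - x₀ + (CF - 3) * H <
    L 1 x₀ x₀ - x₀ + (CF - 5 / 2) * H by linarith)
  have hCH : CF * H ≤ CF * q := mul_le_mul_of_nonneg_left hF2 hCF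
  have hCH' : (CF : ℝ) * (q / 2) ≤ CF * H := mul_le_mul_of_nonneg_left hF1 hCF
  have hVq0 : 0 ≤ |V₀| * q := mul_nonneg (abs_nonneg _) hq.le
  have hKq : 0 ≤ K * q := by linarith
  have hνCq : (2 * ν + 40) * q ≤ CF * q := mul_le_mul_of_nonneg_right hνC hq.le
  have hεq : ε * q ≤ 1 / 2 * q := mul_le_mul_of_nonneg_right hε1 hq.le
  obtain ⟨k₂, hk₂, e₀, he₀, hbas⟩ := hfa k hk ![p0, p1] (t + (V₀ - (CF + 28)) * q) (t + V₀ * q)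
    (t + (V₀ + ν) * q)
    ⟨by
      intro i
      fin_cases i
      · show L 0 x₀ x₀ - x₀ ≤ p0
        linarith
      · show L 1 x₀ x₀ - x₀ ≤ p1
        linarith, by
      intro i
      rw [← hH]
      fin_cases i
      · show (p0 : ℝ) ≤ L 0 x₀ x₀ - x₀ + CF * H
        linarith
      · show (p1 : ℝ) ≤ L 1 x₀ x₀ - x₀ + CF * H
        linarith, by
      intro l i hli
      rw [← hH]
      fin_cases l <;> fin_cases i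
      · exact absurd hli (lt_irrefl _)
      · show (p1 : ℝ) - (L 1 x₀ x₀ - x₀) + 2 * ((1 : ℚ) : ℝ) * H ≤ p0 - (L 0 x₀ x₀ - x₀)
        push_cast
        linarith
      · exact absurd hli (by decide)
      · exact absurd hli (lt_irrefl _)⟩ hbG
    (by
      rw [← hH]
      linarith)
    (by
      show t + (V₀ - (CF + 28)) * q + (CF + 7 * ((2 : ℕ) : ℝ) + 13) * (1 / 2) ^ k ≤ t + V₀ * q
      rw [← hH]
      push_cast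
      linarith)
    (by linarith)
    (by
      show t + (V₀ + ν) * q ≤ x₀ + (2 * CF + 7 * ((2 : ℕ) : ℝ) + 12) * (1 / 2) ^ k
      rw [← hH]
      push_cast
      linarith)
  refine ⟨H, fun i => ((![p0, p1] i : ℚ) : ℝ), e₀, hF1, hF2, he₀, ?_, ?_, ?_, k₂, hk₂, ?_⟩
  · intro i
    fin_cases i
    · show (p0 : ℝ) ≤ 1
      have := hroom 0 (by norm_num)
      linarith
    · show (p1 : ℝ) ≤ 1
      have := hroom 1 (by norm_num)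
      linarith
  · show (ν + 1) * q ≤ p0
    linarith
  · show (ν + 2) * q + L 1 t t - t ≤ p1
    linarith
  · intro Kf
    have h1 := hbas Kf
    rw [← hH] at h1
    have e1 : (fun (i : ℕ) (x : ℝ) => (fun l w => L l w w) i x - ((1 : ℚ) : ℝ) / 20 * H) =
        fun i x => L i x x - (1 : ℝ) / 20 * H := by
      funext i x
      push_cast
      rfl
    rw [e1] at h1
    exact h1

end

/-- **The geometric data and the closed polynomials at a record.** -/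
theorem clo_rec (S₀ : ℕ) (hS₀ : 1 ≤ S₀) : ∃ K₁ : ℕ, ∀ (N q' : ℕ) {c₀ κ' : ℝ}, 0 < c₀ → 0 < κ' →
    ∃ γ e₀ cc : ℝ, 0 < γ ∧ 0 < e₀ ∧ 0 < cc ∧ ∀ ν V₀ ω₁ : ℝ, 0 < ν → 0 < ω₁ →
    ∃ (CF : ℕ) (κF : ℚ) (Kb ε₁ ω : ℝ), 0 < κF ∧ 0 < ε₁ ∧ 0 < ω ∧ ω ≤ ω₁ ∧ 2 * ν + 40 ≤ CF ∧
    ∀ {m : ℕ} {S : PCl m} {al : ℝ} {g₀ : ℝ → ℝ} {P₀ : List (Fin m) × Fin m → ℝ → ℝ → ℝ}
    {θ : ℝ} {P₂ : ℕ → List (Fin m) × Fin m → ℝ → ℝ → ℝ} {θ₂ Eb e₂ : ℕ → ℝ}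
    {c : ℕ → Fin m} {Pt : ℝ → ℝ → ℝ} {r : ℝ → ℝ} {h K₀ g : ℝ} {L T : ℕ → ℝ → ℝ → ℝ}
    {Sl : ℕ → ℝ} {κ : ℕ → Kg} {G : Set ℝ} {N₀ : ℕ} {A V : ℕ → ℝ} {S₂ N' : ℕ} {V' : ℕ → ℝ}
    {K ε q t : ℝ}, RecG S al g₀ P₀ θ P₂ θ₂ Eb e₂ c Pt r h K₀ g L T Sl κ G S₀ N₀ A V S₂ N' V' K ε q
      t → 3 < m → κ 0 = .one → κ 1 = .one → Kb ≤ K → 0 < ε → ε ≤ ε₁ → (∃ k < N', V' k = V₀) →
    (∃ k < N', V' k = V₀ + ν) → (∃ k < N', V' k = V₀ - (CF + 28)) → ∀ {x₀ : ℝ} {k₀ : ℕ},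
    t + (V₀ - (CF + 13 - ν)) * q ≤ x₀ → x₀ ≤ t + (V₀ - (CF / 2 + 28)) * q →
    FaQ (2, CF, 1, κF) k₀ S P₀ θ c Pt r L T κ G x₀ → q < (1 / 2) ^ k₀ →
    ∃ c₁ : ℝ, 0 < c₁ ∧ ∀ c₂ : ℝ, 0 < c₂ → Bas S (fun J F A => ∃ B : F.Ω → Prop, Sub B A ∧
      c₁ * Pe F.p A ≤ Pe F.p B ∧ ∃ (d g1 e₁ y : ℕ) (Kp : ℝ)
      (Pv : PtT F → MvPolynomial (Option (Fin m)) ℝ)
      (Pl : LnT F → MvPolynomial (Option (Fin m)) ℝ) (yt : PtT F → V3) (ctr xo : ℕ → F.Ω → V3)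
      (D₁ : LnT F → V3), ClR F c B K₁ ⌊(t + (V₀ - (CF + 28)) * q) * J⌋₊ d ⌊ν * q * J⌋₊ g1 e₁ y Kp
        Pv Pl yt ctr xo D₁ ∧
      ⌊(t + (V₀ - (CF + 28)) * q) * J⌋₊ + d = ⌊(t + V₀ * q) * J⌋₊ ∧ ⌊ν * q * J⌋₊ ≤ d ∧
      (y : ℝ) ≤ ω * q * J ∧ 1 ≤ y ∧ Kp ≤ ((2 ^ ⌊ν * q * J⌋₊ : ℕ) : ℝ) ^ e₀ ∧
      (g1 : ℝ) ≤ L 1 (t + (V₀ - (CF + 28)) * q) (t + (V₀ - (CF + 28)) * q) * J ∧
      L 1 (t + (V₀ - (CF + 28)) * q) (t + (V₀ - (CF + 28)) * q) * J ≤ g1 + ω * q * J ∧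
      (e₁ : ℝ) ≤ (Eb 2 + ω * q) * J ∧
      ⌊(t + V₀ * q) * J⌋₊ + ⌊ν * q * J⌋₊ ≤ ⌊(t + (V₀ + ν) * q) * J⌋₊ ∧
      e₁ + g1 + (d + ⌊ν * q * J⌋₊) + 4 ≤ J ∧
      ∀ B₂ : F.Ω → Prop, Sub B₂ B → c₂ * Pe F.p A ≤ Pe F.p B₂ →
        CloC F B₂ ⌊(t + V₀ * q) * J⌋₊ ⌊ν * q * J⌋₊ N q' c₀ κ' γ e₀ cc (xo 0)) := by
  obtain ⟨D, hD, hnod⟩ := nodF_rec 2 S₀ (by norm_num) hS₀
  obtain ⟨C, K₁, H⟩ := clr_cls D
  refine ⟨K₁, ?_⟩
  intro N q' c₀ κ' hc₀ hκ'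
  obtain ⟨γ, e₀, cc, Ac, τ, hγ, he₀, hcc, hA, hτ, hτ1, H⟩ := H N q' hc₀ hκ'
  refine ⟨γ, e₀, cc, hγ, he₀, hcc, ?_⟩
  intro ν V₀ ω₁ hν hω₁
  obtain ⟨CF, hCF⟩ := exists_nat_ge (2 * ν + 40)
  have hA0 : 0 < Ac := by linarith
  have hC0 : (0 : ℝ) ≤ C := Nat.cast_nonneg C
  have hCF0 : (0 : ℝ) ≤ CF := Nat.cast_nonneg CF
  obtain ⟨ω, hω⟩ : ∃ ω : ℝ, ω = min ω₁ (min (1 / 100) (τ * ν / (8 * Ac))) := ⟨_, rfl⟩
  have hω0 : 0 < ω := hω ▸ lt_min hω₁ (lt_min (by norm_num) (by positivity))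
  have hω1 : ω ≤ ω₁ := hω ▸ min_le_left _ _
  have hω2 : ω ≤ 1 / 100 := hω ▸ (min_le_right _ _).trans (min_le_left _ _)
  have hω3 : ω * (8 * Ac) ≤ τ * ν := by
    rw [← le_div_iff₀ (by positivity)]
    exact hω ▸ (min_le_right _ _).trans (min_le_right _ _)
  obtain ⟨κF, hκF0, hκF1⟩ := exists_rat_btwn (show (0 : ℝ) < τ * ν / 8 by positivity)
  obtain ⟨ε₁, hε₁⟩ : ∃ ε₁ : ℝ, ε₁ = ω / (32 * (C + 1)) := ⟨_, rfl⟩
  have hε10 : 0 < ε₁ := hε₁ ▸ by positivity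
  have hε1 : ε₁ * (32 * (C + 1)) = ω := by
    rw [hε₁]
    exact div_mul_cancel₀ _ (by positivity)
  refine ⟨CF, κF, |V₀| + CF + ν + 70, ε₁, ω, by exact_mod_cast hκF0, hε10, hω0, hω1, hCF, ?_⟩
  intro m S al g₀ P₀ θ P₂ θ₂ Eb e₂ c Pt r h K₀ g L T Sl κ G N₀ A V S₂ N' V' K ε q t R hm hκ0 hκ1 hKb
    hε hεε hV₀ hVν hVw x₀ k₀ hx1 hx2 hfa hq1
  have hq := R.q0
  obtain ⟨kw, hkw, hVw⟩ := hVw
  obtain ⟨ka, hka, hVa⟩ := hV₀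
  have RT := R.tg 2 (by norm_num) (by omega)
  have RP := R.tgl 2 (by norm_num) (by omega)
  have hEb := RT.Eb0
  have hV1 := le_abs_self V₀
  have hV2 := neg_abs_le V₀
  have hVq1 : V₀ * q ≤ |V₀| * q := mul_le_mul_of_nonneg_right hV1 hq.le
  have hVq2 : -|V₀| * q ≤ V₀ * q := mul_le_mul_of_nonneg_right hV2 hq.le
  have hKq' : (|V₀| + CF + ν + 70) * q ≤ K * q := mul_le_mul_of_nonneg_right hKb hq.le
  have hνq : 0 < ν * q := mul_pos hν hq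
  have hCq : 0 ≤ (CF : ℝ) * q := mul_nonneg hCF0 hq.le
  have hVq0 : 0 ≤ |V₀| * q := mul_nonneg (abs_nonneg _) hq.le
  have hεq : 0 < ε * q := mul_pos hε hq
  have hωq : 0 < ω * q := mul_pos hω0 hq
  have hνC : (2 * ν + 40) * q ≤ CF * q := mul_le_mul_of_nonneg_right hCF hq.le
  have hω2q : ω * q ≤ 1 / 100 * q := mul_le_mul_of_nonneg_right hω2 hq.le
  have hε32 : 32 * (ε * q) ≤ ω * q := by
    have h1 : ε * 32 ≤ ω := by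
      have h2 : ε * (32 * (C + 1)) ≤ ε₁ * (32 * (C + 1)) :=
        mul_le_mul_of_nonneg_right hεε (by positivity)
      have h3 : 0 ≤ ε * C := mul_nonneg hε.le hC0
      rw [hε1] at h2
      linarith only [h2, h3]
    have h4 := mul_le_mul_of_nonneg_right h1 hq.le
    linarith only [h4]
  have hεC : ((C : ℝ) + 1) * (ε * q + 3 * (ε * q)) ≤ ω * q / 8 := by
    have h2 : ε * (32 * (C + 1)) ≤ ε₁ * (32 * (C + 1)) :=
      mul_le_mul_of_nonneg_right hεε (by positivity)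
    rw [hε1] at h2
    have h4 := mul_le_mul_of_nonneg_right h2 hq.le
    linarith only [h4]
  have ht0 := R.t0
  have ht1 := R.t1
  obtain ⟨w, hw⟩ : ∃ w, w = t + (V₀ - (CF + 28)) * q := ⟨_, rfl⟩
  obtain ⟨t₁, ht₁⟩ : ∃ t₁, t₁ = t + V₀ * q := ⟨_, rfl⟩
  obtain ⟨aw, haw⟩ : ∃ aw, aw = t + (V₀ + ν) * q := ⟨_, rfl⟩
  have hwt : |w - t| ≤ K * q := by
    rw [hw, abs_le]
    constructor <;> linarith only [hVq1, hVq2, hKq', hνq, hCq, hVq0, hνC, hq]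
  have htt : |t₁ - t| ≤ K * q := by
    rw [ht₁, abs_le]
    constructor <;> linarith only [hVq1, hVq2, hKq', hνq, hCq, hVq0, hνC, hq]
  have hat : |aw - t| ≤ K * q := by
    rw [haw, abs_le]
    constructor <;> linarith only [hVq1, hVq2, hKq', hνq, hCq, hVq0, hνC, hq]
  have hw0 : 2 * (ω * q) ≤ w := by
    linarith only [hw, hVq1, hVq2, hKq', hνq, hCq, hVq0, hνC, hq, ht0, hω2q]
  have hw1 : w ≤ 1 := by
    have h1 := (abs_le.1 hwt).2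
    linarith only [h1, ht1]
  have ha1 : aw + 2 * (ω * q) < 1 := by
    linarith only [haw, hVq1, hVq2, hKq', hνq, hCq, hVq0, hνC, hq, ht1, hω2q]
  have s1 : Sl 1 = 1 := by
    have h1 := R.kd 1 (by omega)
    rw [hκ1] at h1
    exact h1
  -- the levels
  obtain ⟨l0a, l0b⟩ := abs_le.1 (R.l0 w hwt)
  obtain ⟨l0c, l0d⟩ := abs_le.1 (R.l0 t₁ htt)
  obtain ⟨l0e, l0f⟩ := abs_le.1 (R.l0 aw hat)
  obtain ⟨l1a, l1b⟩ := abs_le.1 (R.dL 1 (by omega) w hwt)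
  obtain ⟨l1c, l1d⟩ := abs_le.1 (R.dL 1 (by omega) t₁ htt)
  obtain ⟨l1e, l1f⟩ := abs_le.1 (R.dL 1 (by omega) aw hat)
  rw [s1] at l1a l1b l1c l1d l1e l1f
  have low1 : w ≤ L 1 w w := R.low_at (by omega) (by linarith only [hw0, hωq]) le_rfl hw1
  obtain ⟨a, ha0, ha2, hbet⟩ := u_rat R hm hε (o := V₀ + ν) (by
    linarith only [hKb, hV2, hCF0, hν]) (by linarith only [hKb, hV1, hCF0, hν]) hVν
  rw [← haw] at ha0 hbet
  have hb0 := hbet 0 (by norm_num)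
  have hb1 := hbet 1 (by norm_num)
  have rm0 := RT.room 0 (by norm_num) aw hat
  have rm1 := RT.room 1 (by norm_num) aw hat
  have rmw := RT.room 1 (by norm_num) w hwt
  obtain ⟨hF, Pq, eF, f1, f2, f3, f4, f5, f6, hfree⟩ := fv_free (CF := CF) (ν := ν) (κF := κF)
    (V₀ := V₀) (x₀ := x₀) R (by omega) hκ1
    (by
      have h1 : ε ≤ ω := le_of_mul_le_mul_right (by linarith only [hε32, hεq]) hq
      linarith only [h1, hω2])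
    (hfa.free (by
      show 2 < m
      omega) (fun l hl => by
      have hl' : l < 2 := hl
      interval_cases l
      · exact hκ0
      · exact hκ1) (by norm_num) le_rfl (by
      show (0 : ℚ) < κF
      exact_mod_cast hκF0)) (hVw ▸ R.memG.2 kw hkw) hν.le hx1 hx2 hCF
    (by linarith only [hKb, hν]) hq1
  obtain ⟨u₁, rd, -, hch⟩ := (hfa.ch 2 (by omega)).ch t₁ (by
    rw [ht₁, ← hVa]
    exact R.memG.2 ka hka)
  have hN := hnod R (by omega) kw hkw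
  rw [hVw, ← hw] at hN
  rw [← hw, ← ht₁, ← haw] at hfree ⊢
  have hinj : Set.InjOn c (Set.Iio 3) := R.inj.mono fun x hx => by
    rw [Set.mem_Iio] at hx ⊢
    omega
  have hωA : 8 * Ac * (ω * q) ≤ τ * (ν * q) := by
    have h1 := mul_le_mul_of_nonneg_right hω3 hq.le
    linarith only [h1]
  have he2 : Eb 2 + 8 * (ω * q) < θ * a := by
    have h1 := RT.Ebe
    have h2 := RT.eθ aw hat
    rw [RP.2] at h2
    have h3 : θ * aw ≤ θ * a := mul_le_mul_of_nonneg_left ha0 R.th0.le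
    linarith only [h1, h2, h3, hKq', hVq0, hCq, hνq, hω2q, hq]
  have hf20 : q / 2 / 20 ≤ 1 / 20 * hF := by linarith only [f1]
  have hκf : κF * hF ≤ τ * (ν * q) / 8 := by
    have h1 : (κF : ℝ) * hF ≤ κF * q := mul_le_mul_of_nonneg_left f2 hκF0.le
    have h2 : (κF : ℝ) * q ≤ τ * ν / 8 * q := mul_le_mul_of_nonneg_right hκF1.le hq.le
    linarith only [h1, h2]
  refine H R.thr R.tmh R.th0 c hinj (β := L) (e := Eb 2) (E := Eb 2) (w := w) (t₁ := t₁) (aw := aw)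
    (kr := ν * q) (ur := ω * q) (s₀ := ε * q) (s := ε * q) (eb := Eb 2 + 8 * (ω * q)) (h := ε * q)
    (a := a) (sf := fun i => L i t₁ t₁) hw0 hN hEb.le hεq.le ?_ ?_ low1 hεq hωq hνq hεC hωA ?_ ?_
    ha0 ha2 hch.ful ?_ ?_ hεq ?_ ?_ ?_ ?_ he2 le_rfl ?_ ha1
    (sn := fun i x => L i x x - 1 / 20 * hF) (Pq := Pq) (eF := eF) (κf := κF * hF) f3 ?_ ?_ ?_ ?_ f4
    hκf hfree
  · linarith only [l0b]
  · linarith only [l0a]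
  · linarith only [hw, ht₁, hνC, hq, hνq]
  · linarith only [ht₁, haw]
  · show L 0 t₁ t₁ ≤ t₁ + ω * q / 4
    linarith only [l0d, hε32, hωq, hεq]
  · show L 1 t₁ t₁ ≤ L 1 w w + (t₁ - w) + ω * q / 4
    linarith only [l1d, l1a, hε32, hωq, hεq]
  · linarith only [hb0, l0f, hε32, hωq, hεq, ha0]
  · linarith only [hb1, l1f, l1a, hε32, hωq, hεq, ha0]
  · linarith only [hb0, rm0, hε32, hω2q, hq, hEb, hKq', hVq0, hCq, hνq]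
  · linarith only [hb1, rm1, hε32, hω2q, hq, hEb, hKq', hVq0, hCq, hνq]
  · linarith only [rmw, hw, haw, hω2q, hq, hKq', hVq0, hCq, hνq]
  · show L 0 w w - 1 / 20 * hF + ω * q ≤ w
    linarith only [l0b, hf20, hω2q, hε32, hωq, hq]
  · show L 1 w w - 1 / 20 * hF + 2 * (ω * q) ≤ L 1 w w
    linarith only [hf20, hω2q, hq]
  · linarith only [f5, hq]
  · linarith only [f6, l1b, hε32, hω2q, hωq, hq]

end Pool.CLR73
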