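import Pool.Agent.H73.D2.Tth
import Pool.Agent.H73.D2.Tvk
import Pool.Agent.H92.ALT.Jt2

/-!
# The last coordinate has no drop, `u` thin of the same slope

`svNC_Y`: `SvNC` from `VbU`, `u` of the same slope. `celT_tie`: `CelTP .thin` for equal slopes under full rates,
from the first jet of `u`.
-/

set_option autoImplicit false

namespace Pool.ALT

open Finset Real MvPolynomial
open Pool.Agent.H49.Ent Pool.Agent.H32.Dense Pool.STK Pool.KA Pool.KSAT Pool.K2S Pool.PB Pool.S6C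
  Pool.GEN Pool.RCD Pool.LA91 Pool.OWN68 Pool.PKG
open Pool.CHT Pool.CHX Pool.ISO Pool.D2R Pool.D2G30 Pool.V1E Pool.CR99 Pool.GRW
open Pool.GRD (LbP)
open Pool.PN18 (Fm2)

/-- A stronger hypothesis on the class. -/
theorem VbU.monoZ {r : ℕ} {y a h : ℝ} {nb : ℕ} {bw : ℕ → ℝ} {Sl : ℕ → ℝ} {κ : ℕ → Kg}
    {ι Λ Λ' : Type} {Q : PropG (r + 2) ι} {Z : PropZ (r + 2) Λ} {Z' : PropZ (r + 2) Λ'}
    (H : VbU r y a h nb bw Sl κ Q Z) (f : Λ → Λ')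
    (hf : ∀ lam S P θ c Pt rt L T κ G g, Z' (f lam) S P θ c Pt rt L T κ G g →
      Z lam S P θ c Pt rt L T κ G g) : VbU r y a h nb bw Sl κ Q Z' := by
  intro al hal K₀ hK₀ S₀ hS₀
  obtain ⟨y₁, Kr, Nr, Ar, Vr, hy₁, hKr, hAV, H⟩ := H al hal K₀ hK₀ S₀ hS₀
  refine ⟨y₁, Kr, Nr, Ar, Vr, hy₁, hKr, hAV, fun S₂ hS₂ D hD Db Dl hDb => ?_⟩
  obtain ⟨Dr₀, Kd, K₁x, d1, d2, H⟩ := H S₂ hS₂ D hD Db Dl hDb
  refine ⟨Dr₀, Kd, K₁x, d1, d2, fun Dr hDr C hC => ?_⟩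
  obtain ⟨Dw₀, H⟩ := H Dr hDr C hC
  refine ⟨Dw₀, fun Dw hDw δ X₀ hδ hδ1 hX₀ => ?_⟩
  obtain ⟨lam, kf, X, h₁, ρ, a1, a2, a3, a4, a5, a6, a7, H⟩ := H Dw hDw δ X₀ hδ hδ1 hX₀
  refine ⟨f lam, kf, X, h₁, ρ, a1, a2, a3, a4, a5, a6, a7, fun hh k₁ b1 b2 b3 b4 => ?_⟩
  obtain ⟨K₁, Nv, Vv, ns, vs, c1, c2, H⟩ := H hh k₁ b1 b2 b3 b4
  refine ⟨K₁, Nv, Vv, ns, vs, c1, c2, fun K' hK' => ?_⟩
  obtain ⟨ε₀, hε₀, H⟩ := H K' hK'
  refine ⟨ε₀, hε₀, fun ε hε hεε S g₀ P θ P₂ θ₂ Eb e₂ c Pt rt L T G g hG hg hd hZ => ?_⟩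
  exact H ε hε hεε S g₀ P θ P₂ θ₂ Eb e₂ c Pt rt L T G g hG hg hd
    (hf lam S P θ c Pt rt L T κ G g hZ)

/-- **The end for a steep coordinate over a thin one of the same slope**, from a blind family with all closed
slopes. -/
theorem svNC_Y {r : ℕ} {y a h : ℝ} {bw : ℕ → ℝ} {Sl : ℕ → ℝ}
    {κ : ℕ → Kg} {ι Λ : Type} {Q : PropG (r + 2) ι} {Z : PropZ (r + 2) Λ}
    (hκ : ∀ l < r, κ l = .one) (hκu : κ r = .thin) (hκt : κ (r + 1) = .stp)
    (hs : 1 < Sl (r + 1)) (hab : Sl r = Sl (r + 1)) (hy : 3 / 2 ≤ y) (hya : y + 1 / 2 ≤ a)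
    (hsa : Sl (r + 1) + 1 ≤ a) (hb0 : bw 0 = 0) (hb1 : bw 1 = 1)
    (hV : VbU r y a h 2 bw Sl κ Q Z) :
    SvNC (r + 2) r y a h Sl κ Q Z := by
  classical
  intro al hal K₀ hK₀ S₀ hS₀
  obtain ⟨y₁, Kr, Nr, Ar, Vr, hy₁, hKr, hAV, hV⟩ := hV al hal K₀ hK₀ S₀ hS₀
  have ha0 : 0 < a := by linarith
  obtain ⟨b, hb⟩ : ∃ b : ℝ, b = Sl (r + 1) := ⟨_, rfl⟩
  have hb1' : 1 < b := by rw [hb]; exact hs
  obtain ⟨Ve, hVe⟩ : ∃ Ve : ℝ, Ve = -y₁ - b := ⟨_, rfl⟩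
  obtain ⟨Rw, hRw⟩ : ∃ Rw : ℝ, Rw = max (y + 1) ((b - 1) * (y - Ve)) := ⟨_, rfl⟩
  have hRw1 : y + 1 ≤ Rw := by rw [hRw]; exact le_max_left _ _
  have hRw2 : (b - 1) * (y - Ve) ≤ Rw := by rw [hRw]; exact le_max_right _ _
  -- the pairs
  obtain ⟨Wv, hWv⟩ : ∃ Wv : ℕ → ℝ, Wv = fun k => if k = 0 then -y₁ else if k = 1 then 0 else
    if k = 2 then 1 else if k = 3 then y else Ve := ⟨_, rfl⟩
  have wv0 : Wv 0 = -y₁ := by rw [hWv]; norm_num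
  have wv1 : Wv 1 = 0 := by rw [hWv]; norm_num
  have wv2 : Wv 2 = 1 := by rw [hWv]; norm_num
  have wv3 : Wv 3 = y := by rw [hWv]; norm_num
  have wv4 : Wv 4 = Ve := by rw [hWv]; norm_num
  have hWb : ∀ k ≤ 3 + 1, Ve ≤ Wv k ∧ Wv k ≤ y := by
    intro k hk
    interval_cases k
    · rw [wv0]
      exact ⟨by linarith, by linarith⟩
    · rw [wv1]
      exact ⟨by linarith, by linarith⟩
    · rw [wv2]
      exact ⟨by linarith, by linarith⟩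
    · rw [wv3]
      exact ⟨by linarith, by linarith⟩
    · rw [wv4]
      exact ⟨by linarith, by linarith⟩
  obtain ⟨Ap, hAp⟩ : ∃ Ap : ℕ → ℝ, Ap = fun k => if k = 0 then a else if k = 1 then a else
    if k = 2 then 1 else Rw := ⟨_, rfl⟩
  obtain ⟨Vp, hVp⟩ : ∃ Vp : ℕ → ℝ, Vp = fun k => if k = 0 then 0 else if k = 1 then y else
    if k = 2 then 0 else Wv (k - 3) := ⟨_, rfl⟩
  have ap0 : Ap 0 = a := by rw [hAp]; norm_num
  have ap1 : Ap 1 = a := by rw [hAp]; norm_num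
  have ap2 : Ap 2 = 1 := by rw [hAp]; norm_num
  have ap3 : ∀ k, Ap (k + 3) = Rw := fun k => by
    rw [hAp]
    simp
  have vp0 : Vp 0 = 0 := by rw [hVp]; norm_num
  have vp1 : Vp 1 = y := by rw [hVp]; norm_num
  have vp2 : Vp 2 = 0 := by rw [hVp]; norm_num
  have vp3 : ∀ k, Vp (k + 3) = Wv k := fun k => by
    rw [hVp]
    simp
  obtain ⟨Km, hKm⟩ : ∃ Km : ℝ, Km = max (max Kr Rw) (max a (-Ve)) := ⟨_, rfl⟩
  have m1 : Kr ≤ Km := by rw [hKm]; exact (le_max_left _ _).trans (le_max_left _ _)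
  have m2 : Rw ≤ Km := by rw [hKm]; exact (le_max_right _ _).trans (le_max_left _ _)
  have m3 : a ≤ Km := by rw [hKm]; exact (le_max_left _ _).trans (le_max_right _ _)
  have m4 : -Ve ≤ Km := by rw [hKm]; exact (le_max_right _ _).trans (le_max_right _ _)
  have hpp : ∀ k < 8, -Km ≤ Vp k ∧ Vp k ≤ Ap k ∧ Ap k ≤ Km := by
    intro k hk
    rcases Nat.lt_or_ge k 3 with h1 | h1
    · interval_cases k
      · rw [ap0, vp0]
        exact ⟨by linarith, by linarith, m3⟩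
      · rw [ap1, vp1]
        exact ⟨by linarith, by linarith, m3⟩
      · rw [ap2, vp2]
        exact ⟨by linarith, by linarith, by linarith⟩
    · obtain ⟨j, rfl⟩ : ∃ j, k = j + 3 := ⟨k - 3, by omega⟩
      rw [ap3, vp3]
      obtain ⟨h2, h3⟩ := hWb j (by omega)
      exact ⟨by linarith, by linarith, m2⟩
  refine ⟨Km, Nr + 8, cmb Nr Ar Ap, cmb Nr Vr Vp, hKr.trans m1, fun k hk => ?_,
    fun S₂ hS₂ D hD => ?_⟩
  · rcases Nat.lt_or_ge k Nr with h1 | h1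
    · rw [cmb_l h1, cmb_l h1]
      obtain ⟨h2, h3, h4⟩ := hAV k h1
      exact ⟨by linarith, h3, by linarith⟩
    · obtain ⟨j, rfl⟩ : ∃ j, k = Nr + j := ⟨k - Nr, by omega⟩
      rw [cmb_r, cmb_r]
      exact hpp j (by omega)
  obtain ⟨Du, hDu, hrw⟩ := rwx_rec (r + 2) r S₂ (hS₀.trans hS₂)
  obtain ⟨Db, hDb⟩ : ∃ Db : ℕ, Db = max D Du := ⟨_, rfl⟩
  have hDb1 : D ≤ Db := by rw [hDb]; exact le_max_left _ _
  have hDb5 : Du ≤ Db := by rw [hDb]; exact le_max_right _ _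
  obtain ⟨C', hC', hrw⟩ := hrw Db hDb5
  have hC'0 : 0 < C' := by linarith
  obtain ⟨Dr₀, Kd, K₁x, hKd, hK₁x, hV⟩ := hV S₂ hS₂ D hD Db (max Du (bmd Du)) hDb1
  have hKd' : bmd Du ≤ Kd := (le_max_right _ _).trans hKd
  have hK₁x' : Du ≤ K₁x := (le_max_left _ _).trans hK₁x
  refine ⟨max Dr₀ (max Db Kd), hDb1.trans ((le_max_left _ _).trans (le_max_right _ _)),
    fun C hC => ?_⟩
  obtain ⟨C₁, hC₁, hhn⟩ := hnx_rec r Db (hDu.trans hDb5) D hDb1 C hC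
  have hC₁0 : 0 < C₁ := by linarith
  obtain ⟨Dw₀, hV⟩ := hV _ (le_max_left Dr₀ (max Db Kd)) C hC
  obtain ⟨Dw, hDw⟩ : ∃ Dw : ℕ, Dw = max Dw₀ (max Db Kd) := ⟨_, rfl⟩
  have hDw1 : Dw₀ ≤ Dw := by rw [hDw]; exact le_max_left _ _
  have hDw2 : Db ≤ Dw := by rw [hDw]; exact (le_max_left _ _).trans (le_max_right _ _)
  have hDw3 : Kd ≤ Dw := by rw [hDw]; exact (le_max_right _ _).trans (le_max_right _ _)
  obtain ⟨CT, hCT⟩ := recNy_slhX Dw r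
  refine ⟨Dw, CT, hDb1.trans hDw2, fun δ X₀ hδ hδ1 hX₀ => ?_⟩
  obtain ⟨lam, kf, X, h₁, ρ, hkf, hX0, hXX, hh₁, hρ0, hρ1, hρX, hV⟩ :=
    hV _ hDw1 δ (min X₀ (1 / 4)) hδ hδ1 (lt_min hX₀ (by norm_num))
  obtain ⟨η₁, hη₁, hrw⟩ := hrw (α := b) (b := b) (ρ := ρ) (a := Rw) (Ve := Ve) (V₀ := -y₁)
    (Vm := y) (μ := b - 1) hρ0 hρ1 (by linarith) (by linarith) hRw1 (by linarith)
    (by rw [sub_self, zero_mul]; linarith) (by linarith) (by linarith)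
  have hXa : X ≤ X₀ := hXX.trans (min_le_left _ _)
  have hXc4 : X ≤ 1 / 4 := hXX.trans (min_le_right _ _)
  have hXc : X ≤ 1 := by linarith
  have hC0 : 0 < C := by linarith
  refine ⟨lam, kf, X, min h₁ (min (X / (20 * C)) (X / C₁)), hkf, hX0, hXa, by positivity,
    fun hh k₁ hhh hhl hk1 hk2 => ?_⟩
  have hhl1 := hhl.trans (min_le_left _ _)
  have hhl3 := hhl.trans ((min_le_right _ _).trans (min_le_left _ _))
  have hhl4 := hhl.trans ((min_le_right _ _).trans (min_le_right _ _))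
  rw [le_div_iff₀ (by positivity)] at hhl3 hhl4
  obtain ⟨K₁, Nv, Vv, ns, vs, hVv, hvs, hV⟩ := hV hh k₁ hhh hhl1 hk1 hk2
  -- the windows
  obtain ⟨Va, hVa⟩ : ∃ Va : ℕ → ℝ, Va = fun k => if k < Nv then Vv k else if k = Nv then 1
    else -k₁ := ⟨_, rfl⟩
  have v0 : ∀ k < Nv, Va k = Vv k := fun k hk => by rw [hVa]; simp only [hk, if_true]
  have v1 : Va Nv = 1 := by rw [hVa]; simp
  have v2 : Va (Nv + 1) = -k₁ := by rw [hVa]; simp
  obtain ⟨K₂, hK₂⟩ : ∃ K₂ : ℝ, K₂ = max (max K₁ (-Ve + 1)) (max Rw (2 * a + k₁ + 4)) := ⟨_, rfl⟩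
  have hKa : K₁ ≤ K₂ := by rw [hK₂]; exact (le_max_left _ _).trans (le_max_left _ _)
  have hKb : -Ve + 1 ≤ K₂ := by rw [hK₂]; exact (le_max_right _ _).trans (le_max_left _ _)
  have hKe : Rw ≤ K₂ := by rw [hK₂]; exact (le_max_left _ _).trans (le_max_right _ _)
  have hKf : 2 * a + k₁ + 4 ≤ K₂ := by
    rw [hK₂]
    exact (le_max_right _ _).trans (le_max_right _ _)
  have hVaK : ∀ k < Nv + 2, -K₂ ≤ Va k ∧ Va k ≤ K₂ := by
    intro k hk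
    rcases Nat.lt_or_ge k Nv with h1 | h1
    · rw [v0 k h1]
      obtain ⟨h2, h3⟩ := hVv k h1
      exact ⟨by linarith, by linarith⟩
    · obtain ⟨j, rfl⟩ : ∃ j, k = Nv + j := ⟨k - Nv, by omega⟩
      have hj : j < 2 := by omega
      interval_cases j
      · rw [Nat.add_zero, v1]
        exact ⟨by linarith, by linarith⟩
      · rw [v2]
        exact ⟨by linarith, by linarith⟩
  obtain ⟨η, hη⟩ : ∃ η : ℝ, η = min η₁ (hh / C') := ⟨_, rfl⟩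
  have hη0 : 0 < η := by rw [hη]; positivity
  have hηa : η ≤ η₁ := by rw [hη]; exact min_le_left _ _
  have hηb : C' * η ≤ hh := by
    have : η ≤ hh / C' := by rw [hη]; exact min_le_right _ _
    rw [le_div_iff₀ hC'0] at this
    linarith
  obtain ⟨ε₁, hε₁, hrw⟩ := hrw η hη0 hηa
  refine ⟨K₂, Nv + 2, Va, ns, vs, hVaK, fun j hj => ?_, fun K' hK' => ?_⟩
  · obtain ⟨h2, h3⟩ := hvs j hj
    exact ⟨by linarith, h3⟩
  obtain ⟨ε₀, hε₀, hV⟩ := hV K' (hKa.trans hK')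
  refine ⟨min (min ε₀ ε₁) (min (X / 16) (min (hh / C₁) (hh / (6 * C)))), by positivity,
    fun ε hε hεε => ?_⟩
  have hεa := hεε.trans ((min_le_left _ _).trans (min_le_left _ _))
  have hεb := hεε.trans ((min_le_left _ _).trans (min_le_right _ _))
  have hεc := hεε.trans ((min_le_right _ _).trans (min_le_left _ _))
  have hεd := hεε.trans ((min_le_right _ _).trans ((min_le_right _ _).trans (min_le_left _ _)))
  have hεe := hεε.trans ((min_le_right _ _).trans ((min_le_right _ _).trans (min_le_right _ _)))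
  rw [le_div_iff₀ (by positivity)] at hεd hεe
  intro S g₀ P θ P₂ θ₂ Eb e₂ c Pt rt L T G g hG hg hder hZ
  obtain ⟨p, M, B₀, B₁, hB, hV⟩ := hV ε hε hεa S g₀ P θ P₂ θ₂ Eb e₂ c Pt rt L T G g hG hg hder hZ
  refine ⟨p, M, B₀, B₁, hB, fun k₀ hk₀ => ?_⟩
  obtain ⟨q₁, hq₁, hV⟩ := hV k₀ hk₀
  refine ⟨q₁, hq₁, fun q t x hq hx N A V N' V' Rc hpr hwn N₁ N₂ vw hN1 hN12 hN2 hvw => ?_⟩
  have hq0 := Rc.q0
  obtain ⟨S', Θ, hne, hsub, hΘs, hΘd, hΘe, hbl, hVf⟩ := hV q t x hq hx N A V N' V'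
    Rc (fun k hk => by
      obtain ⟨j, hj, h4, h5⟩ := hpr k (by omega)
      rw [cmb_l hk] at h4 h5
      exact ⟨j, hj, h4, h5⟩) (fun k hk => by
      obtain ⟨j, hj, h4⟩ := hwn k (by omega)
      rw [v0 k hk] at h4
      exact ⟨j, hj, h4⟩) N₁ N₂ vw hN1 hN12 hN2 hvw
  have R' := Rc.sub hne hsub
  have hlog : 10 * (C * hh) < X := by
    have h1 : hh * (20 * C) = 2 * (10 * (C * hh)) := by ring
    have h2 : 0 < C * hh := mul_pos hC0 hhh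
    linarith only [h1, h2, hhl3]
  have hyq : 0 ≤ y₁ * q := mul_nonneg hy₁.le hq0.le
  -- a member of the family with the slope of the row label
  obtain ⟨K₃, bb, hK₃, hRx⟩ := hrw R' (by omega) hε.le hεb (hab.trans hb.symm) hb.symm (Or.inr hκu)
    (Or.inl hκt) (by linarith only [hKb, hK']) (by linarith only [hKe, hK'])
    (by linarith only [hKf, hK', ha0, hk2]) (W := Wv) (n := 3) wv0 wv4 hWb (fun k hk => by
      obtain ⟨j, hj, h4, h5⟩ := hpr (Nr + (k + 3)) (by omega)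
      rw [cmb_r, ap3] at h4
      rw [cmb_r, vp3] at h5
      exact ⟨j, hj, h4, h5⟩) (Θ := Θ) (nb := 2) (bw := bw) hKd' hK₁x' (fun k hk => by
      interval_cases k
      · exact ⟨1, by norm_num, wv1.trans hb0.symm⟩
      · exact ⟨2, by norm_num, wv2.trans hb1.symm⟩) hΘe
  -- the closed labels of `N`
  have hHn := hhn R' (by omega) hκ (Or.inl hκu) hκt (y := y) (a := a) (au := Rw) (Ve := Ve)
    (μ := b - 1) (ρ := ρ) (k₁ := k₁) (hh := hh) (X := X) (κ' := 1 / 4 / (K₃ * (4 * 16 ^ (r + 1))))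
    (ε₁ := 3 * ε * q) (vw := vw) (W := Wv) (Θ := Θ) (max Dr₀ (max Db Kd)) N₁ N₂ (3 + 1) (3 + 1) 3
    hN1 hN2 hDb5 le_rfl (by norm_num) wv4 wv3 hK₃ hC' hη0 hηb hy hya hsa hk2
    (by linarith only [hKf, hK']) (by linarith) (by linarith only [hKb, hK']) hRw1
    (by linarith only [hKe, hK']) (by rw [← hb]; nlinarith only [hRw2, hVe, hy₁, hb1'])
    (by rw [hab, sub_self, zero_mul, hb]; linarith) hρ0.le (by linarith) (by
      obtain ⟨j, hj, h4, h5⟩ := hpr (Nr + 0) (by omega)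
      rw [cmb_r] at h4 h5
      exact ⟨j, hj, h4.trans ap0, h5.trans vp0⟩) (by
      obtain ⟨j, hj, h4, h5⟩ := hpr (Nr + (4 + 3)) (by omega)
      rw [cmb_r, ap3] at h4
      rw [cmb_r, vp3, wv4] at h5
      exact ⟨j, hj, h4, h5⟩) hhh hε.le (by linarith only [hεd])
    (by linarith only [hhl4]) (by linarith only [hhl4, hXc]) hΘs hRx
  -- the data of every member of the family
  have hNw := nwx_rec (Θ := Θ) (k₁ := k₁) (vw := vw) (y := y) (a := a) (Eb' := Eb (r + 1))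
    (ε' := 3 * ε * q) (Rg := fun l => κ l = .one ∨ κ l = .thin) (N₁ := N₁) (Dw := Dw)
    (Dr := max Dr₀ (max Db Kd)) (Kd := Kd) R' hN2 hDw3
    (hDb1.trans ((le_max_left _ _).trans (le_max_right _ _)))
    ((le_max_right _ _).trans (le_max_right _ _)) hs.le
    (by linarith) hhh hC hlog hε.le (by linarith) (w := t + -y₁ * q) (by linarith) hΘd
    (fun v hv => by
      rcases hv with rfl | rfl
      · have := BlB.deg hDb1 hDb1 (hbl 0 (by norm_num))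
        rwa [hb0] at this
      · have := BlB.deg hDb1 hDb1 (hbl 1 (by norm_num))
        rwa [hb1] at this) (κ₁ := 1 / 4) le_rfl
  -- the four windows
  have hRf := R'.recNy (y := y) (a := a) (k₁ := k₁) (vw := fun _ => 0) (N₁ := 1) (N₂ := 3)
    (Rg := fun l => κ l = .one ∨ κ l = .thin) (by omega) hκ (by rw [hκu]; exact fun h => nomatch h)
    hκt (fun l _ h => h) (fun l hl => Or.inl (hκ l hl)) (fun h => h.symm) le_rfl (by omega) le_rfl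
    hy hya hsa hS₂ (fun k hk => by
      interval_cases k
      · obtain ⟨j, hj, h4, h5⟩ := hpr (Nr + 0) (by omega)
        rw [cmb_r] at h4 h5
        exact ⟨j, hj, h4.trans ap0, by rw [h5, vp0]; norm_num [vG]⟩
      · obtain ⟨j, hj, h4, h5⟩ := hpr (Nr + 1) (by omega)
        rw [cmb_r] at h4 h5
        exact ⟨j, hj, h4.trans ap1, by rw [h5, vp1]; norm_num [vG]⟩)
    (fun k hk hk' => by
      obtain rfl | rfl : k = 2 ∨ k = 3 := by omega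
      · obtain ⟨j, hj, h4⟩ := hwn (Nv + 1) (by omega)
        exact ⟨j, hj, by rw [h4, v2]; norm_num [vG]⟩
      · obtain ⟨j, hj, h4⟩ := hwn Nv (by omega)
        exact ⟨j, hj, by rw [h4, v1]; norm_num [vG]⟩)
    (by
      obtain ⟨j, hj, h4, h5⟩ := hpr (Nr + 2) (by omega)
      rw [cmb_r] at h4 h5
      exact ⟨j, hj, h4.trans ap2, h5.trans vp2⟩) hε.le
    (by linarith only [hεc, hXc]) (fun k hk hk' => by omega) (fun k hk hk' => by omega) hk2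
    (by linarith only [hKf, hK'])
  have hK₃' : (0 : ℝ) < K₃ * (4 * 16 ^ (r + 1)) := by positivity
  refine ⟨S', fun J F B g₀ G H Ht CL Cp => XiF Θ (t + -y₁ * q) J F B g₀ G H Ht CL Cp ∧
    XiCl c r Dw CT (X * q) (Sl (r + 1) * q) (fun k => t + vG y k₁ vw k * q)
      (fun k l => lvN P c (r + 1) (L (r + 1)) l (t + vG y k₁ vw k * q) (t + vG y k₁ vw k * q))
      J F B g₀ G H Ht CL Cp, hsub, R', fun J F B g₀ G H Ht CL Cp h => h.2,
    ⟨1 / 4 / (K₃ * (4 * 16 ^ (r + 1))), K₃ * (4 * 16 ^ (r + 1)) * 8, by positivity,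
      by positivity, ?_⟩, fun κ' qf Pq h1 h2 h3 h4 => ?_⟩
  · exact hCT hRf N₁ N₂ hN1 hN2 (by linarith only [hab, hs]) hs hC hhh
      (by
        have h1 : ε * (6 * C) = 2 * (3 * C * ε) := by ring
        have h2 : 0 < 3 * C * ε := by positivity
        linarith only [h1, h2, hεe]) hlog hXc4 (hDb1.trans hDw2) (hDb5.trans hDw2) hΘs
      (fun J F A V C z z' G₁ G₂ cc h => (hΘd J F A V C z z' G₁ G₂ cc h).2.2)
      hK₃' (by norm_num) (le_of_eq (div_mul_cancel₀ _ hK₃'.ne')) hHn hNw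
  · obtain ⟨K₂, hK, hv⟩ := hVf κ' qf Pq h1 h2 h3 h4
    exact ⟨K₂, hK, hv.xi fun J F B g₀ G H Ht CL Cp h => h.1⟩

end Pool.ALT

namespace Pool.ASM

open MeasureTheory Set Filter Topology
open Pool.GEN Pool.PKG Pool.SW Pool.ALT
open Pool.LA91 (FaQ sumQ HerQ her_sum her_fa aePG_fa aePG_sum)
open Pool.MIC6
open Pool.Agent.H49.Ent Pool.Agent.H32.Dense Pool.STK Pool.KA Pool.KSAT Pool.K2S Pool.PB
open Pool.V0F (ChUQ AttUQ her_chU aePG_chU her_attU aePG_attU)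

/-- **The last coordinate has no drop, the tie**: `u` thin, `N` steep of the same slope, under full rates, from
the first jet of `u`. -/
theorem celT_tie {Φ : (ℕ → ℝ) → Prop} (hΦ : ∀ Sl, Φ Sl → Sl 2 = Sl 3) (hF : F1TP .thin Φ FulB) :
    CelTP .thin Φ FulB := by
  obtain ⟨ι, hι, Q, a1, a2, hF⟩ := hF
  obtain ⟨ι', hι', Q', b1, b2, hB⟩ := bxTP_uni (Z := FulB) (Φ := Φ) fun Sl h => by
    rw [hΦ Sl h]
    linarith
  obtain ⟨Q₂, hQ₂⟩ : ∃ Q₂ : PropG 4 (ι ⊕ (ι' ⊕ (Unit ⊕ Unit))), Q₂ =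
    sumQ Q (sumQ Q' (sumQ (ChUQ : PropG 4 Unit) (AttUQ : PropG 4 Unit))) := ⟨_, rfl⟩
  have c1 : AePG 4 Q₂ := by
    rw [hQ₂]
    exact aePG_sum a1 a2 (aePG_sum b1 b2 (aePG_sum (aePG_chU 4) (her_chU 4) (aePG_attU 4)))
  have c2 : HerQ Q₂ := by
    rw [hQ₂]
    exact her_sum a2 (her_sum b2 (her_sum (her_chU 4) (her_attU 4)))
  refine ⟨(ι ⊕ (ι' ⊕ (Unit ⊕ Unit))) ⊕ (ℕ × ℕ × ℚ × ℚ), inferInstance, sumQ Q₂ FaQ,
    aePG_sum c1 c2 (aePG_fa 4), her_sum c2 (her_fa 4), ?_⟩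
  intro h hh hh1 Sl hS hΦS
  have hκ : ∀ l < 2, (kg4 .one .one .thin .stp) l = .one := fun l hl => by interval_cases l <;> rfl
  have s2 := hS.thin rfl
  have s3 := hS.s3
  obtain ⟨bw, hbw⟩ : ∃ bw : ℕ → ℝ, bw = fun k => if k = 0 then 0 else 1 := ⟨_, rfl⟩
  have w0 : bw 0 = 0 := by rw [hbw]; norm_num
  have w1 : bw 1 = 1 := by rw [hbw]; norm_num
  have ha1 : (3 : ℝ) / 2 + 1 / 2 ≤ Sl 3 + 1 := by linarith
  have H := vbU_of (r := 2) (by norm_num) (y := 3 / 2) (a := Sl 3 + 1) hh hh1 (nb := 2) (bw := bw)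
    ⟨0, by norm_num, w0⟩ hκ (show 1 < Sl 3 by linarith) s2 (hF h hh hh1 Sl hS hΦS)
    (hB h hh hh1 Sl hS hΦS)
  rw [← hQ₂] at H
  have H' : VbU 2 (3 / 2) (Sl 3 + 1) h 2 bw Sl (kg4 .one .one .thin .stp) Q₂ (FulB Sl) :=
    H.monoZ (fun b => (⟨min b.1.1.1 b.2.1.1, lt_min b.1.1.2 b.2.1.2⟩, max b.1.2 b.2.2))
      fun b S P θ c Pt rt L T κ G g hZ => ⟨fulR_mono (min_le_left _ _) (le_max_left _ _) hZ,
        fulR_mono (min_le_right _ _) (le_max_right _ _) hZ⟩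
  have hv := svNC_Y (r := 2) (κ := kg4 .one .one .thin .stp) hκ rfl rfl
    (show 1 < Sl 3 by linarith) (hΦ Sl hΦS) le_rfl ha1 le_rfl w0 w1 H'
  exact celZ_nyc (m := 4) (r := 2) (by norm_num) (by norm_num) hκ
    (show Kg.thin ≠ Kg.any from fun h => nomatch h) rfl (by linarith) s3 le_rfl ha1 le_rfl hv

/-- **The last coordinate has no drop, the tie**, from the first jet of `u` (`CbF`). -/
theorem celT_tieF (hF : CbF .thin (fun Sl => Sl 2 = Sl 3)) :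
    CelTP .thin (fun Sl => Sl 2 = Sl 3) FulB :=
  celT_tie (fun _ h => h) (f1TP_thin hF)

end Pool.ASM
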