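import Pool.Agent.H73.D2.Tvk
import Pool.Agent.H80.HK.Kca

/-!
# The closed slope at all records from the velocity of the path of the slopes

`VlT`: at all scales of the records, the path of (the slope of the row label minus the slope of a closed
polynomial) has the velocity `2 ^ (-(μ q J))` (`VlP` of helper80). `bxT_of_vl`: `BxT` from `VlT`, the slope of
`N` larger than the one of `u`.
-/

set_option autoImplicit false

namespace Pool.ALT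

open Finset Real MvPolynomial
open Pool.Agent.H49.Ent Pool.Agent.H32.Dense Pool.STK Pool.KA Pool.KSAT Pool.K2S Pool.PB Pool.S6C
  Pool.GEN Pool.RCD Pool.LA91 Pool.OWN68 Pool.PKG
open Pool.CHT Pool.CHX Pool.ISO Pool.D2R Pool.D2G30 Pool.V1E Pool.CR99 Pool.GRW
open Pool.GRD (LbP)
open Pool.HK80 (VlP blx_wgp)

/-- **The velocity of the path of the slopes at all records**: for every gain `μ`, every early window
`V₀` and every finite list of later windows `W k`, `k ≤ n`, `W 0 = V₀`, at all scales of the records, the path of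
(the slope of the row label of the window `t + V₀ q` minus the slope of a closed polynomial) has the velocity at
most `2 ^ (-(μ q J))` (`VlP`), for rows of any large radius. -/
def VlT (r : ℕ) (h : ℝ) (Sl : ℕ → ℝ) (κ : ℕ → Kg) {ι Λ : Type} (Q : PropG (r + 2) ι)
    (Z : PropZ (r + 2) Λ) : Prop :=
  ∀ al : ℝ, 0 < al → ∀ K₀ : ℝ, 0 < K₀ → ∀ S₀ : ℕ, 1 ≤ S₀ →
  ∀ (μ V₀ : ℝ) (n : ℕ) (W : ℕ → ℝ), 0 < μ → V₀ < 0 → W 0 = V₀ → (∀ k ≤ n, V₀ ≤ W k) →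
  ∃ a₀ : ℝ, ∀ a : ℝ, a₀ ≤ a →
  ∃ (Kr : ℝ) (Nr : ℕ) (Ar Vr : ℕ → ℝ), 1 ≤ Kr ∧ (∀ k < Nr, -Kr ≤ Vr k ∧ Vr k ≤ Ar k ∧ Ar k ≤ Kr) ∧
  ∀ S₂ : ℕ, S₀ ≤ S₂ → ∃ D Dr Dm : ℕ, D ≤ Dm ∧ 1 ≤ Dm ∧ Dm ≤ Dr ∧ ∃ C : ℝ, 1 ≤ C ∧
  ∃ η₁ : ℝ, 0 < η₁ ∧ ∀ η : ℝ, 0 < η → η ≤ η₁ →
  ∃ (lam : Λ) (K₁ : ℝ) (Nv : ℕ) (Vv : ℕ → ℝ), (∀ j < Nv, -K₁ ≤ Vv j ∧ Vv j ≤ K₁) ∧
  ∀ K' : ℝ, K₁ ≤ K' → ∃ ε₀ : ℝ, 0 < ε₀ ∧ ∀ ε : ℝ, 0 < ε → ε ≤ ε₀ →
  ∀ (S : PCl (r + 2)) (g₀ : ℝ → ℝ) (P : List (Fin (r + 2)) × Fin (r + 2) → ℝ → ℝ → ℝ)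
    (θ : ℝ) (P₂ : ℕ → List (Fin (r + 2)) × Fin (r + 2) → ℝ → ℝ → ℝ) (θ₂ Eb e₂ : ℕ → ℝ)
    (c : ℕ → Fin (r + 2)) (Pt : ℝ → ℝ → ℝ) (rt : ℝ → ℝ) (L T : ℕ → ℝ → ℝ → ℝ) (G : Set ℝ)
    (g : ℝ), IsClosed G → g ∈ G → (∀ l < r + 2, HasDerivAt (fun x => L l x x) (Sl l) g) →
    Z lam S P θ c Pt rt L T κ G g →
    ∃ (p : ℕ → ι) (M : ℕ) (B₀ B₁ : ℕ → ℝ),
    (∀ j < M, B₀ j < B₁ j) ∧ ∀ k₀ : ℕ → ℕ, (∀ j < M, Q (p j) (k₀ j) S P θ c Pt rt L T κ G g) →
    ∃ q₁ : ℝ, 0 < q₁ ∧ ∀ (q t : ℝ) (x : ℕ → ℝ),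
      q < q₁ → (∀ j < M, x j ∈ G ∧ t + B₀ j * q ≤ x j ∧ x j ≤ t + B₁ j * q ∧
        Q (p j) (k₀ j) S P θ c Pt rt L T κ G (x j)) →
      ∀ (N : ℕ) (A V : ℕ → ℝ) (N' : ℕ) (V' : ℕ → ℝ),
      RecG S al g₀ P θ P₂ θ₂ Eb e₂ c Pt rt h K₀ g L T Sl κ G S₀ N A V S₂ N' V' K' ε q t →
      (∀ k < Nr, ∃ j < N, A j = Ar k ∧ V j = Vr k) → (∀ k < Nv, ∃ j < N', V' j = Vv k) →
      ∃ (n' N₂ : ℕ) (W' : ℕ → ℝ) (b : ℕ → ℕ → ℝ) (K₂ K₃ : ℝ), n ≤ n' ∧ (∀ k ≤ n, W' k = W k) ∧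
        (∀ k ≤ n', V₀ ≤ W' k ∧ W' k ≤ a ∧ (Sl (r + 1) - 1) * (W' k - V₀) ≤ a - V₀) ∧ 0 < K₂ ∧
        0 < K₃ ∧
        VlP S c r D Dr Dm n' N₂ (fun l => κ l = .one ∨ κ l = .thin) C (t + a * q) (Eb (r + 1))
          (3 * ε * q) (η * q) (L (r + 1)) (fun k => t + W' k * q)
          (fun k l => lvN P c (r + 1) (L (r + 1)) l (t + W' k * q) (t + W' k * q))
          (fun k l => bet P c l (t + a * q) (t + W' k * q)) b K₂ K₃ (μ * q)

/-- **The closed slope at all records from the velocity of the path of the slopes.** -/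
theorem bxT_of_vl {r : ℕ} {h : ℝ} {Sl : ℕ → ℝ} {κ : ℕ → Kg} {ι Λ : Type}
    {Q : PropG (r + 2) ι} {Z : PropZ (r + 2) Λ} (hab : Sl r < Sl (r + 1))
    (hκu : κ r = .one ∨ κ r = .thin) (hκN : κ (r + 1) = .stp ∨ κ (r + 1) = .sta)
    (hV : VlT r h Sl κ Q Z) : BxT r h Sl κ Q Z := by
  intro al hal K₀ hK₀ S₀ hS₀ y₀ nb bw
  obtain ⟨α, hα⟩ : ∃ α, α = Sl r := ⟨_, rfl⟩
  obtain ⟨s, hs⟩ : ∃ s, s = Sl (r + 1) := ⟨_, rfl⟩
  rw [← hα, ← hs] at hab
  obtain ⟨Bw, hBw⟩ : ∃ Bw : ℝ, Bw = ∑ k ∈ range nb, |bw k| := ⟨_, rfl⟩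
  have hBw0 : 0 ≤ Bw := by
    rw [hBw]
    exact Finset.sum_nonneg fun _ _ => abs_nonneg _
  have hbwk : ∀ k < nb, |bw k| ≤ Bw := fun k hk => by
    rw [hBw]
    exact Finset.single_le_sum (f := fun k => |bw k|) (fun _ _ => abs_nonneg _)
      (mem_range.2 hk)
  obtain ⟨y₁, hy₁⟩ : ∃ y₁ : ℝ, y₁ = max y₀ (Bw + 1) := ⟨_, rfl⟩
  have hy0 : y₀ ≤ y₁ := by rw [hy₁]; exact le_max_left _ _
  have hyB : Bw + 1 ≤ y₁ := by rw [hy₁]; exact le_max_right _ _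
  -- the windows
  obtain ⟨W, hW⟩ : ∃ W : ℕ → ℝ, W = fun k => if k = 0 then -y₁ else if k ≤ nb then bw (k - 1) else
    Bw + 1 := ⟨_, rfl⟩
  have W0 : W 0 = -y₁ := by rw [hW]; simp
  have W1 : ∀ k < nb, W (k + 1) = bw k := fun k hk => by
    rw [hW]
    simp only [Nat.succ_ne_zero, if_false, Nat.add_sub_cancel]
    rw [if_pos (by omega)]
  have W2 : W (nb + 1) = Bw + 1 := by
    rw [hW]
    simp only [Nat.succ_ne_zero, if_false]
    rw [if_neg (by omega)]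
  have hWb : ∀ k ≤ nb, -y₁ ≤ W k ∧ W k ≤ Bw := by
    intro k hk
    rcases Nat.eq_zero_or_pos k with rfl | h1
    · rw [W0]
      constructor <;> linarith
    · obtain ⟨i, rfl⟩ : ∃ i, k = i + 1 := ⟨k - 1, by omega⟩
      rw [W1 i (by omega)]
      have := abs_le.1 (hbwk i (by omega))
      constructor <;> linarith [this.1, this.2]
  obtain ⟨M₁, hM₁⟩ : ∃ M₁ : ℝ, M₁ = (s - α) * (Bw + y₁) := ⟨_, rfl⟩
  have hM0 : 0 ≤ M₁ := by
    rw [hM₁]
    exact mul_nonneg (by linarith) (by linarith)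
  obtain ⟨a₀, hV⟩ := hV al hal K₀ hK₀ S₀ hS₀ (M₁ + 1) (-y₁) (nb + 1) W (by linarith) (by linarith)
    W0 (fun k hk => by
      rcases Nat.lt_or_ge nb k with h1 | h1
      · obtain rfl : k = nb + 1 := by omega
        rw [W2]
        linarith
      · exact (hWb k h1).1)
  obtain ⟨a, ha⟩ : ∃ a : ℝ, a = max a₀ (Bw + 1) := ⟨_, rfl⟩
  have ha1 : a₀ ≤ a := by rw [ha]; exact le_max_left _ _
  have ha2 : Bw + 1 ≤ a := by rw [ha]; exact le_max_right _ _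
  obtain ⟨KrV, NrV, ArV, VrV, hKrV, hAVV, hV⟩ := hV a ha1
  obtain ⟨Kr, hKr⟩ : ∃ Kr : ℝ, Kr = max KrV (max a y₁) := ⟨_, rfl⟩
  have k1 : KrV ≤ Kr := by rw [hKr]; exact le_max_left _ _
  have k2 : a ≤ Kr := by rw [hKr]; exact (le_max_left _ _).trans (le_max_right _ _)
  have k3 : y₁ ≤ Kr := by rw [hKr]; exact (le_max_right _ _).trans (le_max_right _ _)
  refine ⟨y₁, hy0, Kr, NrV + 1, cmb NrV ArV (fun _ => a), cmb NrV VrV (fun _ => -y₁),
    hKrV.trans k1, fun k hk => ?_, fun S₂ hS₂ => ?_⟩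
  · rcases Nat.lt_or_ge k NrV with h1 | h1
    · rw [cmb_l h1, cmb_l h1]
      obtain ⟨h2, h3, h4⟩ := hAVV k h1
      exact ⟨by linarith, h3, by linarith⟩
    · obtain ⟨j, rfl⟩ : ∃ j, k = NrV + j := ⟨k - NrV, by omega⟩
      rw [cmb_r, cmb_r]
      exact ⟨by linarith, by linarith, k2⟩
  obtain ⟨D, Dr, Dm, hD1, hD2, hD3, C, hC, η₁, hη₁, hV⟩ := hV S₂ hS₂
  obtain ⟨C₁, hC₁, hbx⟩ := blx_wgp (r + 2) D Dm r
  refine ⟨bmd Dm, Dm, fun ρ hρ hρ1 => ?_⟩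
  have c1 : (1 : ℝ) ≤ C₁ := by exact_mod_cast hC₁
  have hC0 : 0 < C := by linarith
  obtain ⟨γ, hγ⟩ : ∃ γ : ℝ, γ = min ρ (s - α) := ⟨_, rfl⟩
  have hγ0 : 0 < γ := by
    rw [hγ]
    exact lt_min hρ (by linarith)
  have hγρ : γ ≤ ρ := by rw [hγ]; exact min_le_left _ _
  have hγs : γ ≤ s - α := by rw [hγ]; exact min_le_right _ _
  obtain ⟨η, hη⟩ : ∃ η : ℝ, η = min η₁ (γ / (64 * C₁ * C)) := ⟨_, rfl⟩
  have hη0 : 0 < η := by rw [hη]; positivity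
  have hηa : η ≤ η₁ := by rw [hη]; exact min_le_left _ _
  have hηb : 64 * C₁ * (C * η) ≤ γ := by
    have : η ≤ γ / (64 * C₁ * C) := by rw [hη]; exact min_le_right _ _
    rw [le_div_iff₀ (by positivity)] at this
    linarith
  have hCη0 : 0 < C * η := by positivity
  have x1 : C * η ≤ C₁ * (C * η) := le_mul_of_one_le_left hCη0.le c1
  obtain ⟨lam, K₁, Nv, Vv, hVv, hV⟩ := hV η hη0 hηa
  refine ⟨lam, max K₁ (max a (y₁ + 1)), Nv, Vv, fun j hj => ?_, fun K' hK' => ?_⟩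
  · have m1 := le_max_left K₁ (max a (y₁ + 1))
    obtain ⟨h2, h3⟩ := hVv j hj
    exact ⟨by linarith, by linarith⟩
  have hK1 : K₁ ≤ K' := (le_max_left _ _).trans hK'
  have hKa : a ≤ K' := ((le_max_left _ _).trans (le_max_right _ _)).trans hK'
  have hKy : y₁ + 1 ≤ K' := ((le_max_right _ _).trans (le_max_right _ _)).trans hK'
  obtain ⟨ε₀, hε₀, hV⟩ := hV K' hK1
  refine ⟨min ε₀ (γ / (64 * C₁)), by positivity, fun ε hε hεε => ?_⟩
  have hεa := hεε.trans (min_le_left _ _)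
  have hεb := hεε.trans (min_le_right _ _)
  rw [le_div_iff₀ (by positivity)] at hεb
  intro S g₀ P θ P₂ θ₂ Eb e₂ c Pt rt L T G g hG hg hder hZ
  obtain ⟨p, M, B₀, B₁, hB, hV⟩ := hV ε hε hεa S g₀ P θ P₂ θ₂ Eb e₂ c Pt rt L T G g hG hg hder hZ
  refine ⟨p, M, B₀, B₁, hB, fun k₀ hk₀ => ?_⟩
  obtain ⟨q₁, hq₁, hV⟩ := hV k₀ hk₀
  refine ⟨q₁, hq₁, fun q t x hq hx N A V N' V' Rc hpr hwn => ?_⟩
  obtain ⟨n', N₂, W', b, K₂, K₃, hn', hWW, hW'b, hK₂, hK₃, hV⟩ := hV q t x hq hx N A V N' V' Rc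
    (fun k hk => by
      obtain ⟨j, hj, h4, h5⟩ := hpr k (by omega)
      rw [cmb_l hk] at h4 h5
      exact ⟨j, hj, h4, h5⟩) hwn
  have hej : ∃ j < N, A j = a ∧ V j = -y₁ := by
    obtain ⟨j, hj, h4, h5⟩ := hpr (NrV + 0) (by omega)
    rw [cmb_r] at h4 h5
    exact ⟨j, hj, h4, h5⟩
  have hq0 := Rc.q0
  have ht0 := Rc.t0
  have ht1 := Rc.t1
  have hr : r + 1 < r + 2 := by omega
  have Tg := Rc.tg (r + 1) (by omega) hr
  have hlv : ∀ l ≤ r + 1, ∀ x y : ℝ, lvN P c (r + 1) (L (r + 1)) l x y = L l x y :=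
    fun l hl x y => by rw [← Rc.lv_at hr hl]
  have W'0 : W' 0 = -y₁ := by rw [hWW 0 (by omega), W0]
  have W'd : W' (nb + 1) = Bw + 1 := by rw [hWW (nb + 1) le_rfl, W2]
  have W'k : ∀ k ≤ nb, W' k = W k := fun k hk => hWW k (by omega)
  have W'1 : ∀ k < nb, W' (k + 1) = bw k := fun k hk => by rw [hWW _ (by omega), W1 k hk]
  -- products
  have mq : ∀ {x z : ℝ}, x ≤ z → x * q ≤ z * q := fun h => mul_le_mul_of_nonneg_right h hq0.le
  have hηq : 0 < η * q := by positivity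
  have e0 : 0 < C * (η * q) := by positivity
  have q1 : 64 * (C₁ * (C * (η * q))) ≤ γ * q := by
    have := mq hηb
    linarith
  have q4 : C * (η * q) ≤ C₁ * (C * (η * q)) := le_mul_of_one_le_left e0.le c1
  have q6 : 64 * (C₁ * (ε * q)) ≤ γ * q := by
    have := mq hεb
    linarith
  have hεq : 0 < ε * q := mul_pos hε hq0
  have q7 : ε * q ≤ C₁ * (ε * q) := le_mul_of_one_le_left hεq.le c1
  have hγq : 0 < γ * q := by positivity
  have hγρq : γ * q ≤ ρ * q := mq hγρ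
  have hγsq : γ * q ≤ s * q - α * q := by
    have := mq hγs
    linarith
  have hρq1 : ρ * q ≤ q := by
    have := mq hρ1
    linarith
  have haKq : a * q ≤ K' * q := mq hKa
  have hyKq : y₁ * q + q ≤ K' * q := by
    have := mq hKy
    linarith
  have hyq : q ≤ y₁ * q := le_mul_of_one_le_left hq0.le (by linarith)
  have hW'q : ∀ k ≤ n', -(y₁ * q) ≤ W' k * q ∧ W' k * q ≤ a * q := fun k hk => by
    obtain ⟨h1, h2, -⟩ := hW'b k hk
    have h3 := mq h1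
    exact ⟨by linarith, mq h2⟩
  have hWq : ∀ k ≤ nb, -(y₁ * q) ≤ W k * q ∧ W k * q ≤ Bw * q := fun k hk => by
    obtain ⟨h1, h2⟩ := hWb k hk
    have h3 := mq h1
    exact ⟨by linarith, mq h2⟩
  have hBaq : Bw * q + q ≤ a * q := by
    have := mq ha2
    linarith
  have hbx' : ∀ k ≤ n', |t + W' k * q - t| ≤ K' * q := fun k hk => by
    obtain ⟨h1, h2⟩ := hW'q k hk
    rw [abs_le]
    constructor <;> linarith
  have hlow : ∀ l ≤ r + 1, ∀ k ≤ n', t + W' k * q ≤ L l (t + W' k * q) (t + W' k * q) :=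
    fun l hl k hk => by
    obtain ⟨h1, h2⟩ := hW'q k hk
    exact Rc.low_at (i := l) (by omega) (by linarith) le_rfl (by linarith)
  have hdN : ∀ k ≤ n', |L (r + 1) (t + W' k * q) (t + W' k * q) - L (r + 1) t t -
      s * (W' k * q)| ≤ ε * q := fun k hk => by
    have := Rc.dL (r + 1) hr _ (hbx' k hk)
    rw [← hs] at this
    rwa [show t + W' k * q - t = W' k * q by ring] at this
  have hdU : ∀ k ≤ n', |L r (t + W' k * q) (t + W' k * q) - L r t t -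
      α * (W' k * q)| ≤ ε * q := fun k hk => by
    have := Rc.dL r (by omega) _ (hbx' k hk)
    rw [← hα] at this
    rwa [show t + W' k * q - t = W' k * q by ring] at this
  have d0N := abs_le.1 (hdN 0 (by omega))
  have d0U := abs_le.1 (hdU 0 (by omega))
  have ddN := abs_le.1 (hdN (nb + 1) (by omega))
  have ddU := abs_le.1 (hdU (nb + 1) (by omega))
  rw [W'0] at d0N d0U
  rw [W'd] at ddN ddU
  -- the room
  obtain ⟨Λ, hΛ⟩ : ∃ Λ : ℝ, Λ = 1 - Eb (r + 1) - 3 * K' * q -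
    L (r + 1) (t + (Bw + 1) * q) (t + (Bw + 1) * q) := ⟨_, rfl⟩
  have hroom : ∀ l ≤ r + 1, L l (t + (Bw + 1) * q) (t + (Bw + 1) * q) + Eb (r + 1) +
      3 * K' * q < 1 := fun l hl => Tg.room l hl _ (by
    have := hbx' (nb + 1) (by omega)
    rwa [W'd] at this)
  have hKq0 : 0 < K' * q := by linarith
  have hs2 : 2 ≤ s := by
    have hk := Rc.kd (r + 1) hr
    rw [← hs] at hk
    rcases hκN with h1 | h1
    · rw [h1] at hk
      exact hk.1.le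
    · rw [h1] at hk
      exact hk.1
  have hMq : M₁ * q = (s * q - α * q) * Bw + (s * q - α * q) * y₁ := by rw [hM₁]; ring
  obtain ⟨q8, hq8⟩ : ∃ y : ℝ, y = C₁ * (4 * ε * q + C * (η * q)) := ⟨_, rfl⟩
  have q9 : q8 = 4 * (C₁ * (ε * q)) + C₁ * (C * (η * q)) := by rw [hq8]; ring
  have q10 : 8 * q8 ≤ γ * q := by linarith
  have q11 : ε * q ≤ γ * q / 64 := by linarith
  have hX := hbx (S := S) (C₀ := 6) (c := c) (Dr := Dr) (N := n') (N₂ := N₂)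
    (R := fun l => κ l = .one ∨ κ l = .thin) Rc.tmc (Rc.inj.mono fun x hx => by
      rw [Set.mem_Iio] at hx ⊢
      omega) hκu hD1 hD2 hD3 hK₂ hK₃ hηq hC hV (nb + 1) (nb + 1) (4 * ε * q) (M₁ * q) Λ
    (L (r + 1) (t + -y₁ * q) (t + -y₁ * q) - ρ * q)
    (fun k => L r (t + W' k * q) (t + W' k * q) - L (r + 1) (t + W' k * q) (t + W' k * q) +
      ρ * q) (by linarith) (mul_nonneg hM0 hq0.le) (by
      have := hroom (r + 1) le_rfl
      rw [hΛ]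
      linarith) (by
      have := hlow (r + 1) le_rfl 0 (by omega)
      rw [W'0] at this
      linarith) (fun k hk => by omega) (by omega) (by linarith) (by
      simp only [W'0]
      linarith) (by
      simp only [W'0, W'd]
      have := mq (show -y₁ ≤ Bw + 1 by linarith)
      linarith) (fun k hk => by
      simp only [W'0]
      have := mq (hW'b k (by omega)).1
      linarith) (fun k hk => by
      simp only [hlv _ le_rfl, W'0]
      obtain ⟨h1, h2, h3⟩ := hW'b k hk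
      exact RecG.row_ge Rc hr hκN hε.le hej (by linarith) (by linarith) (by linarith) h2 hKa h3)
    (fun k hk => by
      simp only [hlv _ le_rfl]
      obtain ⟨h1, h2⟩ := hW'q k hk
      have := hlow (r + 1) le_rfl k hk
      linarith) (by
      simp only [hlv r (by omega)]
      obtain ⟨h1, h2⟩ := hW'q 0 (by omega)
      have := hlow r (by omega) 0 (by omega)
      linarith) (fun l hl => by
      simp only [hlv l hl, hlv _ le_rfl, W'd]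
      have := hroom l hl
      rw [hΛ]
      linarith) (by
      simp only [hlv _ le_rfl, W'd]
      rw [hΛ]
      linarith) (by
      simp only [hlv _ le_rfl, hlv r (by omega), W'0, W'd]
      rw [← hq8]
      linarith [ddN.1, ddN.2, ddU.1, ddU.2, d0N.1, d0N.2, d0U.1, d0U.2]) (by
      linarith) (fun k hk => by
      simp only [hlv r (by omega), hlv _ le_rfl]
      linarith) (fun k hk => by
      simp only [hlv r (by omega), hlv _ le_rfl, W'0]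
      have k1 := abs_le.1 (hdN k (by omega))
      have k2 := abs_le.1 (hdU k (by omega))
      have h4 : (s - α) * W' k ≤ (s - α) * Bw := by
        rw [W'k k (by omega)]
        exact mul_le_mul_of_nonneg_left (hWb k (by omega)).2 (by linarith)
      have h5 := mq h4
      linarith [d0N.1, d0N.2, d0U.1, d0U.2, k1.1, k1.2, k2.1, k2.2]) (by
      simp only [hlv _ le_rfl, W'0]
      linarith)
  simp only [W'0] at hX
  refine ⟨8 * (K₃ * K₂), by positivity, blX_mono hX le_rfl le_rfl fun k hk =>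
    ⟨k + 1, by omega, ?_, ?_, ?_⟩⟩
  · simp only [W'1 k hk]
  · simp only [W'1 k hk, hlv _ le_rfl]
    have : η * q ≤ C * (η * q) := le_mul_of_one_le_left hηq.le hC
    linarith
  · simp only [W'1 k hk]
    exact le_rfl

end Pool.ALT

namespace Pool.ASM

open MeasureTheory Set Filter Topology
open Pool.GEN Pool.PKG Pool.SW Pool.ALT
open Pool.LA91 (FaQ sumQ HerQ her_sum her_fa aePG_fa aePG_sum)
open Pool.MIC6
open Pool.Agent.H49.Ent Pool.Agent.H32.Dense Pool.STK Pool.KA Pool.KSAT Pool.K2S Pool.PB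

/-- **The velocity of the path of the slopes**, for the kinds `one, one, k; stp` and the slopes with `Φ`, under
`Z`. -/
def VlTP (k : Kg) (Φ : (ℕ → ℝ) → Prop) {Λ : Type} (Z : (ℕ → ℝ) → PropZ 4 Λ) : Prop :=
  ∃ (ι : Type) (_ : Countable ι) (Q : PropG 4 ι), AePG 4 Q ∧ HerQ Q ∧
    ∀ h : ℝ, 0 < h → h ≤ 1 → ∀ Sl : ℕ → ℝ, SlB k Sl → Φ Sl →
      VlT 2 h Sl (kg4 .one .one k .stp) Q (Z Sl)

/-- **The closed slope** from the velocity of the path of the slopes, `u` thin. -/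
theorem bxTP_vl {Φ : (ℕ → ℝ) → Prop} (hΦ : ∀ Sl, Φ Sl → Sl 2 < Sl 3) {Λ : Type}
    {Z : (ℕ → ℝ) → PropZ 4 Λ} (H : VlTP .thin Φ Z) : BxTP .thin Φ Z := by
  obtain ⟨ι, hι, Q, a1, a2, H⟩ := H
  exact ⟨ι, hι, Q, a1, a2, fun h hh hh1 Sl hS h' =>
    bxT_of_vl (hΦ Sl h') (Or.inr rfl) (Or.inl rfl) (H h hh hh1 Sl hS h')⟩

/-- **The last coordinate has no drop**, `u` thin, the slope of `N` larger than the one of `u`, from the first
jet of `u` and the velocity of the path of the slopes. -/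
theorem celT_vl {Φ : (ℕ → ℝ) → Prop} (hΦ : ∀ Sl, Φ Sl → Sl 2 < Sl 3) (hF : CbF .thin Φ)
    (hV : VlTP .thin Φ FulB) : CelTP .thin Φ FulB :=
  celT_bx (fun Sl h => (hΦ Sl h).ne) hF (bxTP_vl hΦ hV)

end Pool.ASM
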