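import Pool.Agent.H73.D2.Tvl
import Pool.Agent.H99.D2.Thn

/-!
# The supply of the closed slope from the closed slope at all records

`blSup_bxT`: the supply `BlSup` with `R₁ = 0` from `BxT`. `supF_bx`, `supF_vl`: the supply `SupF` from `BxTP`,
and, `u` thin, from the velocity of the path of the slopes.
-/

set_option autoImplicit false

namespace Pool.CR99

open Finset Real MvPolynomial
open Pool.Agent.H49.Ent Pool.Agent.H32.Dense Pool.STK Pool.KA Pool.KSAT Pool.K2S Pool.PB Pool.GEN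
open Pool.S6C Pool.RCD Pool.LA91 Pool.OWN68 Pool.AJW Pool.AJX Pool.CHT Pool.PKG Pool.ALT Pool.PN18
open Pool.D2R Pool.D2G30 Pool.V1E

/-- **The supply of the closed slope** from the closed slope at all records. -/
theorem blSup_bxT {r : ℕ} {h : ℝ} {Sl : ℕ → ℝ} {κ : ℕ → Kg} {ι Λ : Type} {Q : PropG (r + 2) ι}
    {Z : PropZ (r + 2) Λ} (H : BxT r h Sl κ Q Z) : BlSup (r + 2) r h Sl κ Q Z 0 := by
  intro al hal K₀ hK₀ del hdel S₀ hS₀ R₀ hR₀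
  obtain ⟨y₁, hy₁, Kr, Nr, Ar, Vr, hKr, hAV, H⟩ := H al hal K₀ hK₀ S₀ hS₀ R₀ 1 (fun _ => 0)
  refine ⟨-y₁, by linarith, Kr, Nr, Ar, Vr, hKr, hAV, fun S₂ hS₂ => ?_⟩
  obtain ⟨Kx, K₁x, H⟩ := H S₂ hS₂
  refine ⟨max Kx K₁x, fun dd hdd => ⟨1, 0, one_pos, fun φ hφ0 hφ kf hkf ρ hρ => ?_⟩⟩
  obtain ⟨lam, K₁, Nv, Vv, hVv, H⟩ := H (min ρ 1) (lt_min hρ one_pos) (min_le_right _ _)
  refine ⟨lam, K₁, Nv, Vv, hVv, fun K' hK' => ?_⟩
  obtain ⟨ε₀, hε₀, H⟩ := H K' hK'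
  refine ⟨ε₀, hε₀, fun ε hε hεε S g₀ P θ P₂ θ₂ Eb e₂ c Pt rt L T G g hG hg hder hZ => ?_⟩
  obtain ⟨p, M, B₀, B₁, hB, H⟩ := H ε hε hεε S g₀ P θ P₂ θ₂ Eb e₂ c Pt rt L T G g hG hg hder hZ
  refine ⟨p, M, B₀, B₁, hB, fun k₀ hk₀ => ?_⟩
  obtain ⟨q₁, hq₁, H⟩ := H k₀ hk₀
  refine ⟨q₁, hq₁, fun q t x hq hx N A V N' V' R hp hv pf pr Nf hpf hpr1 hpr2 hNf =>
    Or.inr ⟨S, R.ne, fun τ J F A h => h, ?_⟩⟩
  obtain ⟨κ', hκ', hX⟩ := H q t x hq hx N A V N' V' R hp hv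
  have hρq : min ρ 1 * q ≤ ρ * q := mul_le_mul_of_nonneg_right (min_le_left _ _) R.q0.le
  have e0 : t + 0 * q = t - 0 * q := by ring
  refine ⟨κ', hκ', hX.sel (le_max_left _ _) (le_max_right _ _) ?_ (fun _ => 0)
    (fun k _ => by norm_num) (fun k _ => ?_) (fun k _ => ?_) (fun k _ => ?_) le_rfl⟩
  · linarith only [hρq]
  · exact e0.symm
  · show L (r + 1) (t - 0 * q) (t - 0 * q) - ρ * q ≤ L (r + 1) (t + 0 * q) (t + 0 * q) -
      min ρ 1 * q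
    rw [e0]
    linarith only [hρq]
  · show L r (t + 0 * q) (t + 0 * q) - L (r + 1) (t + 0 * q) (t + 0 * q) + min ρ 1 * q ≤
      L r (t - 0 * q) (t - 0 * q) - L (r + 1) (t - 0 * q) (t - 0 * q) + ρ * q
    rw [e0]
    linarith only [hρq]

end Pool.CR99

namespace Pool.ASM

open Finset Real
open Pool.GEN Pool.PKG Pool.SW Pool.ALT Pool.PN18 Pool.CR99
open Pool.LA91 (FaQ sumQ HerQ her_sum her_fa aePG_fa aePG_sum)

variable {k : Kg} {Φ : (ℕ → ℝ) → Prop}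

/-- **The supply of the closed slope** from the closed slope at all records. -/
theorem supF_bx (H : BxTP k Φ FulB) : SupF k Φ (fun _ => 0) := by
  obtain ⟨ι, hι, Q, h1, h2, H⟩ := H
  exact ⟨ι, hι, Q, h1, h2, fun h hh hh1 Sl hS hΦ => ⟨le_rfl, blSup_bxT (H h hh hh1 Sl hS hΦ)⟩⟩

/-- **The supply of the closed slope**, `u` thin, from the velocity of the path of the slopes. -/
theorem supF_vl (H : VlTP .thin (fun Sl => Sl 2 + 1 ≤ Sl 3) FulB) :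
    SupF .thin (fun Sl => Sl 2 + 1 ≤ Sl 3) (fun _ => 0) :=
  supF_bx (bxTP_vl (fun Sl h => by linarith) H)

end Pool.ASM
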