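import Pool.Agent.H73.D2.Tml

/-!
# The slope hypothesis with a smaller constant of the windows
-/

set_option autoImplicit false

namespace Pool.V1E

open Finset Real MvPolynomial
open Pool.KA Pool.KSAT Pool.PB Pool.GEN Pool.D2R Pool.D2G30 Pool.ISO Pool.CHT Pool.CHX
open Pool.Agent.H49.Ent Pool.Agent.H32.Dense Pool.STK Pool.K2S
open Pool.S6C Pool.RCD Pool.D2Con

variable {m : ℕ}

/-- A smaller constant of the windows. -/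
theorem SlH.kap {S : PCl m} {c : ℕ → Fin m} {r D Dw Dr N N₂ : ℕ} {R : ℕ → Prop}
    {C a Eb ε₀ η₀ χ mb : ℝ} {Pt : ℝ → ℝ → ℝ} {o : ℕ → ℝ} {lv be : ℕ → ℕ → ℝ} {κ κ' K₃ : ℝ}
    {Ξ : XiN m} (h : SlH S c r D Dw Dr N N₂ R C a Eb ε₀ η₀ χ mb Pt o lv be κ K₃ Ξ)
    (hκ : κ' ≤ κ) (h0 : 0 ≤ κ') :
    SlH S c r D Dw Dr N N₂ R C a Eb ε₀ η₀ χ mb Pt o lv be κ' K₃ Ξ := by
  refine Bas.mono 0 h ?_
  intro J _ F B w b z gc gT g₀ G H T TH Gt Ht W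
  exact w b z gc gT g₀ G H T TH Gt Ht (W.res (κ₁ := 1) (κ₂ := κ) (fun _ h => h) (by rw [one_mul])
    (h0.trans hκ) (by rw [mul_one]; exact hκ))

end Pool.V1E
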