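import Pool.Agent.H73.D2.Stp
import Pool.Agent.H19.BFL.Stmts

/-!
# A full variable kills a polynomial (grid form)

`sub_one`, `sub_all`: the number of `ξ ∈ [0, 2 ^ k) ^ d` at which `∑ β, ell K β (ξ / 2 ^ k) * G β` is
small is at most `d K 2 ^ (d k - g)`. `read_grid`: if `ξ` is nearly full given `W`, the cells of `G`
are few bits given `W` and the value at `ξ` is small on an event, then `G` is small on most of it.
-/

set_option autoImplicit false

namespace Pool.D2G30

open Finset Real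

/-! ### Spaced subsets -/

theorem mono_gap {n : ℕ} (f : Fin n → ℕ) (hf : StrictMono f) :
    ∀ (k a : ℕ) (h : a + k < n), f ⟨a, by omega⟩ + k ≤ f ⟨a + k, h⟩ := by
  intro k
  induction k with
  | zero => intro a h; exact le_refl _
  | succ k ih =>
    intro a h
    have h1 := ih a (by omega)
    have h2 : f ⟨a + k, by omega⟩ < f ⟨a + (k + 1), h⟩ := hf (by
      rw [Fin.lt_def]
      show a + k < a + (k + 1)
      omega)
    omega

theorem spaced {S : Finset ℕ} {K m : ℕ} (h : K * m + 1 ≤ S.card) :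
    ∃ x : Fin (K + 1) → ℕ, (∀ i, x i ∈ S) ∧ ∀ i j : Fin (K + 1), i < j → x i + m ≤ x j := by
  have hi : ∀ i : Fin (K + 1), (i : ℕ) * m < S.card := fun i => by
    have h1 : (i : ℕ) ≤ K := Nat.lt_succ_iff.1 i.2
    have h2 : (i : ℕ) * m ≤ K * m := Nat.mul_le_mul_right m h1
    omega
  refine ⟨fun i => S.orderEmbOfFin rfl ⟨(i : ℕ) * m, hi i⟩, fun i => S.orderEmbOfFin_mem rfl _,
    fun i j hij => ?_⟩
  have h1 : (i : ℕ) + 1 ≤ j := hij
  obtain ⟨e, he⟩ : ∃ e, (j : ℕ) * m = (i : ℕ) * m + e ∧ m ≤ e := by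
    refine ⟨((j : ℕ) - i) * m, ?_, ?_⟩
    · rw [← Nat.add_mul]
      congr 1
      omega
    · exact Nat.le_mul_of_pos_left m (by omega)
  have h2 := mono_gap (fun a => S.orderEmbOfFin rfl a) (S.orderEmbOfFin rfl).strictMono e
    ((i : ℕ) * m) (by rw [← he.1]; exact hi j)
  have h3 : (⟨(i : ℕ) * m + e, by rw [← he.1]; exact hi j⟩ : Fin S.card) =
      ⟨(j : ℕ) * m, hi j⟩ := Fin.ext he.1.symm
  rw [h3] at h2
  exact le_trans (Nat.add_le_add_left he.2 _) h2

/-! ### One variable -/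

theorem lag_bound {K : ℕ} (P : Polynomial ℝ) (hP : P.natDegree ≤ K) (x : Fin (K + 1) → ℝ)
    {r δ y : ℝ} (hr : 0 < r) (hx : ∀ i j, i ≠ j → r ≤ |x i - x j|) (hy : ∀ i, |y - x i| ≤ 1)
    (hδ : 0 ≤ δ) (h : ∀ i, |P.eval (x i)| ≤ δ) : |P.eval y| ≤ (K + 1) * δ * (1 / r) ^ K := by
  have hinj : Set.InjOn x (univ : Finset (Fin (K + 1))) := by
    intro a _ b _ hab
    by_contra hne
    have := hx a b hne
    rw [hab, sub_self, abs_zero] at this
    linarith
  have hdeg : P.degree < ((univ : Finset (Fin (K + 1))).card : WithBot ℕ) := by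
    rw [Finset.card_univ, Fintype.card_fin]
    refine lt_of_le_of_lt Polynomial.degree_le_natDegree ?_
    exact_mod_cast Nat.lt_succ_of_le hP
  have key := Lagrange.eq_interpolate hinj hdeg
  have h1 := congrArg (Polynomial.eval y) key
  rw [Lagrange.interpolate_apply, Polynomial.eval_finsetSum] at h1
  rw [h1]
  refine (Finset.abs_sum_le_sum_abs _ _).trans ?_
  have hb : ∀ i : Fin (K + 1),
      |(Lagrange.basis (univ : Finset (Fin (K + 1))) x i).eval y| ≤ (1 / r) ^ K := by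
    intro i
    unfold Lagrange.basis
    rw [Polynomial.eval_prod, Finset.abs_prod]
    calc ∏ j ∈ univ.erase i, |(Lagrange.basisDivisor (x i) (x j)).eval y|
        ≤ ∏ _j ∈ (univ : Finset (Fin (K + 1))).erase i, (1 / r) := by
          refine Finset.prod_le_prod (fun _ _ => abs_nonneg _) fun j hj => ?_
          have hij : i ≠ j := fun hh => Finset.ne_of_mem_erase hj hh.symm
          unfold Lagrange.basisDivisor
          rw [Polynomial.eval_mul, Polynomial.eval_C, Polynomial.eval_sub, Polynomial.eval_X,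
            Polynomial.eval_C, abs_mul, abs_inv]
          have h2 := hx i j hij
          have h3 := hy j
          rw [one_div]
          calc |x i - x j|⁻¹ * |y - x j| ≤ r⁻¹ * 1 :=
                mul_le_mul (inv_anti₀ hr h2) h3 (abs_nonneg _) (by positivity)
            _ = r⁻¹ := mul_one _
      _ = (1 / r) ^ K := by rw [Finset.prod_const, card_er]
  calc ∑ i, |(Polynomial.C (P.eval (x i)) * Lagrange.basis univ x i).eval y|
      ≤ ∑ _i : Fin (K + 1), δ * (1 / r) ^ K := by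
        refine Finset.sum_le_sum fun i _ => ?_
        rw [Polynomial.eval_mul, Polynomial.eval_C, abs_mul]
        exact mul_le_mul (h i) (hb i) (abs_nonneg _) hδ
    _ = _ := by
        rw [Finset.sum_const, Finset.card_univ, Fintype.card_fin, nsmul_eq_mul]
        push_cast
        ring

/-- **Small values in one variable.** -/
theorem sub_one {K k g : ℕ} (hg : g ≤ k) (P : Polynomial ℝ) (hP : P.natDegree ≤ K) {A y : ℝ}
    (hA : 0 < A) (hy0 : 0 ≤ y) (hy1 : y ≤ 1) (h : A ≤ |P.eval y|) (S : Finset ℕ)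
    (hS : ∀ ξ ∈ S, ξ < 2 ^ k ∧ |P.eval ((ξ : ℝ) / 2 ^ k)| ≤ A / 2 ^ (K * g + K + 1)) :
    S.card * 2 ^ g ≤ K * 2 ^ k := by
  have e1 : 2 ^ k = 2 ^ (k - g) * 2 ^ g := by rw [← pow_add]; congr 1; omega
  by_contra hcon
  rw [not_le, e1, ← mul_assoc] at hcon
  have h1 : K * 2 ^ (k - g) + 1 ≤ S.card := by
    have := Nat.lt_of_mul_lt_mul_right hcon
    omega
  obtain ⟨x, hx1, hx2⟩ := spaced h1
  have hk : (0 : ℝ) < 2 ^ k := by positivity
  have hgp : (0 : ℝ) < 2 ^ g := by positivity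
  have hxs : ∀ i, ((x i : ℕ) : ℝ) / 2 ^ k ≤ 1 ∧ 0 ≤ ((x i : ℕ) : ℝ) / 2 ^ k := fun i => by
    have h2 := (hS _ (hx1 i)).1
    refine ⟨?_, by positivity⟩
    rw [div_le_one hk]
    exact_mod_cast h2.le
  have hsep : ∀ i j : Fin (K + 1), i < j →
      1 / 2 ^ g ≤ ((x j : ℕ) : ℝ) / 2 ^ k - ((x i : ℕ) : ℝ) / 2 ^ k := fun i j hij => by
    have h2 := hx2 i j hij
    have h3 : ((x i : ℕ) : ℝ) + 2 ^ (k - g) ≤ x j := by exact_mod_cast h2
    have e2 : (2 : ℝ) ^ k = 2 ^ (k - g) * 2 ^ g := by exact_mod_cast e1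
    rw [← sub_div, le_div_iff₀ hk, e2, one_div, mul_comm, mul_assoc, mul_inv_cancel₀ hgp.ne',
      mul_one]
    linarith
  have hb := lag_bound P hP (fun i => ((x i : ℕ) : ℝ) / 2 ^ k) (r := 1 / 2 ^ g)
    (δ := A / 2 ^ (K * g + K + 1)) (y := y) (by positivity) (fun i j hij => by
      rcases lt_or_gt_of_ne hij with h2 | h2
      · rw [abs_sub_comm]
        exact (hsep i j h2).trans (le_abs_self _)
      · exact (hsep j i h2).trans (le_abs_self _)) (fun i => by
      have := hxs i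
      rw [abs_le]
      constructor <;> linarith [this.1, this.2]) (by positivity) (fun i => (hS _ (hx1 i)).2)
  have e3 : (1 / (1 / (2 : ℝ) ^ g)) ^ K = 2 ^ (K * g) := by
    rw [one_div_one_div, ← pow_mul, mul_comm]
  rw [e3] at hb
  have h4 : ((K : ℝ) + 1) * (A / 2 ^ (K * g + K + 1)) * 2 ^ (K * g) < A := by
    have e4 : (2 : ℝ) ^ (K * g + K + 1) = 2 ^ (K * g) * 2 ^ (K + 1) := by
      rw [← pow_add]; congr 1
    have h5 : (K : ℝ) + 1 < 2 ^ (K + 1) := by
      have := Nat.lt_two_pow_self (n := K + 1)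
      exact_mod_cast this
    rw [e4]
    have h6 : ((K : ℝ) + 1) * (A / (2 ^ (K * g) * 2 ^ (K + 1))) * 2 ^ (K * g) =
        ((K : ℝ) + 1) / 2 ^ (K + 1) * A := by
      field_simp
    rw [h6]
    have h7 : ((K : ℝ) + 1) / 2 ^ (K + 1) < 1 := by
      rw [div_lt_one (by positivity)]
      exact h5
    nlinarith
  linarith

/-! ### Several variables -/

/-- The interpolating function. -/
noncomputable def itp {K d : ℕ} (G : (Fin d → Fin (K + 1)) → ℝ) (x : Fin d → ℝ) : ℝ :=
  ∑ β, ell K β x * G β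

theorem sum_cons {α : Type} [Fintype α] {d : ℕ} (f : (Fin (d + 1) → α) → ℝ) :
    ∑ β, f β = ∑ j, ∑ β', f (Fin.cons j β') := by
  rw [← Fintype.sum_prod_type']
  exact (Fintype.sum_equiv (Fin.consEquiv fun _ => α) (fun x => f (Fin.cons x.1 x.2)) f
    fun x => rfl).symm

theorem ellc_cons {K d : ℕ} (j : Fin (K + 1)) (β : Fin d → Fin (K + 1)) (x : ℝ) (y : Fin d → ℝ) :
    ell K (Fin.cons j β : Fin (d + 1) → Fin (K + 1)) (Fin.cons x y : Fin (d + 1) → ℝ) =
      lg K j x * ell K β y := by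
  unfold ell
  rw [Fin.prod_univ_succ]
  simp only [Fin.cons_zero, Fin.cons_succ]

/-- The polynomial through the values at the nodes. -/
noncomputable def lpo (K : ℕ) (r : Fin (K + 1) → ℝ) : Polynomial ℝ :=
  Lagrange.interpolate univ (fun i : Fin (K + 1) => ((i : ℕ) : ℝ) / K) r

theorem eval_lpo {K : ℕ} (hK : 1 ≤ K) (r : Fin (K + 1) → ℝ) (x : ℝ) :
    (lpo K r).eval x = ∑ j, lg K j x * r j := by
  unfold lpo
  rw [Lagrange.interpolate_apply, Polynomial.eval_finsetSum]
  refine Finset.sum_congr rfl fun j _ => ?_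
  rw [Polynomial.eval_mul, Polynomial.eval_C, lg_basis hK, mul_comm]

theorem node_inj {K : ℕ} (hK : 1 ≤ K) : Set.InjOn (fun i : Fin (K + 1) => ((i : ℕ) : ℝ) / K)
    (univ : Finset (Fin (K + 1))) := by
  have hK0 : (K : ℝ) ≠ 0 := by
    have : (1 : ℝ) ≤ K := by exact_mod_cast hK
    linarith
  intro a _ b _ h
  have h1 : ((a : ℕ) : ℝ) / K = ((b : ℕ) : ℝ) / K := h
  have h2 : ((a : ℕ) : ℝ) = (b : ℕ) := by
    field_simp at h1
    exact h1
  exact Fin.ext (by exact_mod_cast h2)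

theorem lpo_node {K : ℕ} (hK : 1 ≤ K) (r : Fin (K + 1) → ℝ) (j : Fin (K + 1)) :
    (lpo K r).eval (((j : ℕ) : ℝ) / K) = r j :=
  Lagrange.eval_interpolate_at_node r (node_inj hK) (Finset.mem_univ j)

theorem deg_lpo {K : ℕ} (hK : 1 ≤ K) (r : Fin (K + 1) → ℝ) : (lpo K r).natDegree ≤ K := by
  have h := Lagrange.degree_interpolate_lt r (node_inj hK)
  rw [Finset.card_univ, Fintype.card_fin] at h
  have h2 : (lpo K r).degree < ((K + 1 : ℕ) : WithBot ℕ) := h
  by_cases h0 : lpo K r = 0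
  · rw [h0]
    simp
  · rw [Polynomial.degree_eq_natDegree h0] at h2
    have h3 : (lpo K r).natDegree < K + 1 := by exact_mod_cast h2
    omega

/-- The point `ξ / 2 ^ k`. -/
noncomputable def pt (k : ℕ) {d : ℕ} (ξ : Fin d → ℕ) : Fin d → ℝ := fun i => (ξ i : ℝ) / 2 ^ k

/-- **Small values in several variables.** -/
theorem sub_all {K k g : ℕ} (hK : 1 ≤ K) (hg : g ≤ k) : ∀ (d : ℕ)
    (G : (Fin d → Fin (K + 1)) → ℝ) {A : ℝ} (_ : 0 < A) (b : Fin d → Fin (K + 1))
    (_ : A ≤ |G b|) (S : Finset (Fin d → ℕ)),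
    (∀ ξ ∈ S, (∀ i, ξ i < 2 ^ k) ∧ |itp G (pt k ξ)| ≤ A / (2 * 2 ^ ((K * g + K + 1) * d))) →
    S.card * 2 ^ g ≤ d * K * 2 ^ (d * k) := by
  classical
  intro d
  induction d with
  | zero =>
    intro G A hA b hb S hS
    have h1 : S = ∅ := by
      rw [Finset.eq_empty_iff_forall_notMem]
      intro ξ hξ
      have h2 := (hS ξ hξ).2
      have e1 : itp G (pt k ξ) = G b := by
        unfold itp
        rw [Fintype.sum_eq_single b (fun β hβ => absurd (Subsingleton.elim β b) hβ)]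
        unfold ell
        simp
      rw [e1, Nat.mul_zero, pow_zero, mul_one] at h2
      linarith
    rw [h1]
    simp
  | succ d ih =>
    intro G A hA b hb S hS
    obtain ⟨D, hD⟩ : ∃ D, D = K * g + K + 1 := ⟨_, rfl⟩
    rw [← hD] at hS
    -- the polynomial in the first variable
    obtain ⟨j₀, b', hbb⟩ : ∃ (j₀ : Fin (K + 1)) (b' : Fin d → Fin (K + 1)),
        b = Fin.cons j₀ b' := ⟨b 0, Fin.tail b, (Fin.cons_self_tail b).symm⟩
    obtain ⟨p, hp⟩ : ∃ p, p = lpo K (fun j => G (Fin.cons j b')) := ⟨_, rfl⟩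
    have hp1 : p.natDegree ≤ K := by rw [hp]; exact deg_lpo hK _
    have hp2 : A ≤ |p.eval (((j₀ : ℕ) : ℝ) / K)| := by
      rw [hp, lpo_node hK, ← hbb]
      exact hb
    obtain ⟨S₁, hS₁⟩ : ∃ S₁ : Finset ℕ, S₁ = (Finset.range (2 ^ k)).filter
      (fun x : ℕ => |p.eval ((x : ℝ) / 2 ^ k)| ≤ A / 2 ^ D) := ⟨_, rfl⟩
    have hn := nd_unit hK (d := 1) (fun _ => j₀) 0
    have c1 : S₁.card * 2 ^ g ≤ K * 2 ^ k := by
      refine sub_one hg p hp1 hA hn.1 hn.2 hp2 S₁ fun x hx => ?_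
      rw [hS₁, Finset.mem_filter, Finset.mem_range, hD] at hx
      exact hx
    -- the fibres
    have hfib : S.card = ∑ x ∈ Finset.range (2 ^ k), (S.filter fun ξ => ξ 0 = x).card :=
      Finset.card_eq_sum_card_fiberwise fun ξ hξ => by
        rw [Finset.coe_range]
        exact (hS ξ hξ).1 0
    have htail : ∀ x : ℕ, Set.InjOn (fun ξ : Fin (d + 1) → ℕ => Fin.tail ξ)
        (S.filter fun ξ => ξ 0 = x : Finset (Fin (d + 1) → ℕ)) := by
      intro x ξ hξ ξ' hξ' he
      have h1 := (Finset.mem_filter.1 (Finset.mem_coe.1 hξ)).2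
      have h2 := (Finset.mem_filter.1 (Finset.mem_coe.1 hξ')).2
      have he' : Fin.tail ξ = Fin.tail ξ' := he
      rw [← Fin.cons_self_tail ξ, ← Fin.cons_self_tail ξ', he', h1, h2]
    have c2 : ∀ x, (S.filter fun ξ => ξ 0 = x).card ≤ 2 ^ (d * k) := by
      intro x
      rw [← Finset.card_image_of_injOn (htail x)]
      refine (Finset.card_le_card (t := Fintype.piFinset fun _ : Fin d => Finset.range (2 ^ k))
        fun y hy => ?_).trans (le_of_eq ?_)
      · obtain ⟨ξ, hξ, rfl⟩ := Finset.mem_image.1 hy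
        rw [Fintype.mem_piFinset]
        intro i
        rw [Finset.mem_range]
        exact (hS ξ (Finset.mem_filter.1 hξ).1).1 i.succ
      · rw [Fintype.card_piFinset, Finset.prod_const, Finset.card_range, Finset.card_univ,
          Fintype.card_fin, ← pow_mul, mul_comm]
    have c3 : ∀ x ∈ Finset.range (2 ^ k), x ∉ S₁ →
        (S.filter fun ξ => ξ 0 = x).card * 2 ^ g ≤ d * K * 2 ^ (d * k) := by
      intro x hx hxS
      rw [← Finset.card_image_of_injOn (htail x)]
      have h1 : A / 2 ^ D < |p.eval ((x : ℝ) / 2 ^ k)| := by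
        by_contra hcon
        exact hxS (by rw [hS₁, Finset.mem_filter]; exact ⟨hx, not_lt.1 hcon⟩)
      refine ih (fun β => ∑ j, lg K j ((x : ℝ) / 2 ^ k) * G (Fin.cons j β)) (A := A / 2 ^ D)
        (by positivity) b' ?_ _ ?_
      · have e1 : p.eval ((x : ℝ) / 2 ^ k) =
            ∑ j, lg K j ((x : ℝ) / 2 ^ k) * G (Fin.cons j b') := by rw [hp, eval_lpo hK]
        rw [← e1]
        exact h1.le
      · intro y hy
        obtain ⟨ξ, hξ, rfl⟩ := Finset.mem_image.1 hy
        obtain ⟨hξ1, hξ2⟩ := Finset.mem_filter.1 hξ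
        refine ⟨fun i => (hS ξ hξ1).1 i.succ, ?_⟩
        have h2 := (hS ξ hξ1).2
        have e2 : pt k ξ = (Fin.cons ((x : ℝ) / 2 ^ k) (pt k (Fin.tail ξ)) : Fin (d + 1) → ℝ) := by
          funext i
          refine Fin.cases ?_ (fun i => ?_) i
          · rw [Fin.cons_zero]
            unfold pt
            rw [hξ2]
          · rw [Fin.cons_succ]
            rfl
        have e3 : itp G (pt k ξ) = itp
            (fun β => ∑ j, lg K j ((x : ℝ) / 2 ^ k) * G (Fin.cons j β)) (pt k (Fin.tail ξ)) := by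
          unfold itp
          rw [sum_cons, Finset.sum_comm]
          refine Finset.sum_congr rfl fun β _ => ?_
          rw [Finset.mul_sum]
          refine Finset.sum_congr rfl fun j _ => ?_
          rw [e2, ellc_cons]
          ring
        rw [e3] at h2
        refine h2.trans (le_of_eq ?_)
        rw [← hD, div_div, ← mul_assoc, mul_comm ((2 : ℝ) ^ D) 2, mul_assoc, ← pow_add]
        congr 3
        ring
    -- the sum
    have h1 : S.card * 2 ^ g ≤ ∑ x ∈ Finset.range (2 ^ k),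
        (if x ∈ S₁ then 2 ^ (d * k) * 2 ^ g else d * K * 2 ^ (d * k)) := by
      rw [hfib, Finset.sum_mul]
      refine Finset.sum_le_sum fun x hx => ?_
      by_cases h : x ∈ S₁
      · rw [if_pos h]
        exact Nat.mul_le_mul_right _ (c2 x)
      · rw [if_neg h]
        exact c3 x hx h
    have h2 : ∑ x ∈ Finset.range (2 ^ k),
        (if x ∈ S₁ then 2 ^ (d * k) * 2 ^ g else d * K * 2 ^ (d * k)) ≤
        S₁.card * (2 ^ (d * k) * 2 ^ g) + 2 ^ k * (d * K * 2 ^ (d * k)) := by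
      have h3 : ∀ x ∈ Finset.range (2 ^ k),
          (if x ∈ S₁ then 2 ^ (d * k) * 2 ^ g else d * K * 2 ^ (d * k)) ≤
          (if x ∈ S₁ then 2 ^ (d * k) * 2 ^ g else 0) + d * K * 2 ^ (d * k) := by
        intro x _
        by_cases h : x ∈ S₁
        · rw [if_pos h, if_pos h]
          omega
        · rw [if_neg h, if_neg h]
          omega
      refine (Finset.sum_le_sum h3).trans ?_
      rw [Finset.sum_add_distrib, Finset.sum_const, Finset.card_range, smul_eq_mul,
        ← Finset.sum_filter, Finset.sum_const, smul_eq_mul]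
      refine Nat.add_le_add_right (Nat.mul_le_mul_right _ (Finset.card_le_card fun x hx => ?_)) _
      exact (Finset.mem_filter.1 hx).2
    refine (h1.trans h2).trans ?_
    calc S₁.card * (2 ^ (d * k) * 2 ^ g) + 2 ^ k * (d * K * 2 ^ (d * k))
        = (S₁.card * 2 ^ g) * 2 ^ (d * k) + 2 ^ k * (d * K * 2 ^ (d * k)) := by ring
      _ ≤ (K * 2 ^ k) * 2 ^ (d * k) + 2 ^ k * (d * K * 2 ^ (d * k)) :=
          Nat.add_le_add_right (Nat.mul_le_mul_right _ c1) _
      _ = (d + 1) * K * 2 ^ ((d + 1) * k) := by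
          rw [Nat.add_mul d 1 k, one_mul, pow_add]
          ring

/-! ### The law -/

section law

open Pool.Agent.H49.Ent Pool.Agent.H32.Dense Pool.STK
open Pool.BFL (Pb)

variable {Ω τ χ V : Type} [Fintype Ω]

open Classical in
/-- A nearly full variable is seldom in a small set which is few bits given the context. -/
theorem cover_ent {q : Ω → ℝ} (hq : IsLaw q) (W : Ω → τ) (X : Ω → χ) (ξ : Ω → V) (bx : Finset V)
    (F : χ → τ → Finset V) (Bd : Ω → Prop) {L e e' s : ℝ}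
    (hbx : ∀ ω, 0 < q ω → ξ ω ∈ bx) (hL : Real.log bx.card ≤ L)
    (hfull : L - e ≤ CH q ξ W) (hX : CH q X W ≤ e')
    (hF : ∀ ω, 0 < q ω → Bd ω → ξ ω ∈ F (X ω) (W ω) ∧
      Real.log (F (X ω) (W ω)).card ≤ L - s) :
    Pb q Bd * s ≤ e + e' + Real.log 2 := by
  have h0 := hq.nonneg
  obtain ⟨Y, hY⟩ : ∃ Y : Ω → Prop × χ, Y = fun ω => (Bd ω, X ω) := ⟨_, rfl⟩
  have c1 : CH q Y W ≤ Real.log 2 + e' := by
    have h1 := CH_subadd h0 Bd X W
    have h2 := CH_le_card h0 hq.sum_one Bd W (fun _ => (Finset.univ : Finset Prop))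
      (fun ω _ => Finset.mem_univ _)
    rw [Ex_const hq.sum_one, Finset.card_univ, Fintype.card_prop] at h2
    push_cast at h2
    rw [hY]
    linarith
  have c2 : CH q ξ (fun ω => (Y ω, W ω)) ≤ L - Pb q Bd * s := by
    have h1 := CH_le_card h0 hq.sum_one ξ (fun ω => (Y ω, W ω))
      (fun y => if y.1.1 then F y.1.2 y.2 else bx) (by
        intro ω hω
        rw [hY]
        dsimp only
        by_cases hb : Bd ω
        · rw [if_pos hb]
          exact (hF ω hω hb).1
        · rw [if_neg hb]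
          exact hbx ω hω)
    refine h1.trans ?_
    unfold Ex
    have h2 : ∀ ω, q ω * Real.log ((((fun y : (Prop × χ) × τ =>
        if y.1.1 then F y.1.2 y.2 else bx) (Y ω, W ω)).card : ℕ) : ℝ) ≤
        q ω * L - (if Bd ω then q ω else 0) * s := by
      intro ω
      rcases (h0 ω).eq_or_lt with hz | hz
      · rw [← hz]
        simp
      · rw [hY]
        dsimp only
        by_cases hb : Bd ω
        · rw [if_pos hb, if_pos hb]
          have := mul_le_mul_of_nonneg_left (hF ω hz hb).2 hz.le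
          linarith
        · rw [if_neg hb, if_neg hb]
          have := mul_le_mul_of_nonneg_left hL hz.le
          linarith
    refine (Finset.sum_le_sum fun ω _ => h2 ω).trans (le_of_eq ?_)
    rw [Finset.sum_sub_distrib, ← Finset.sum_mul, ← Finset.sum_mul, hq.sum_one, one_mul]
    rfl
  have c3 := CH_le_add h0 ξ Y W
  linarith

/-- The box. -/
def gbx (d k : ℕ) : Finset (Fin d → ℕ) := Fintype.piFinset fun _ => Finset.range (2 ^ k)

theorem mem_gbx {d k : ℕ} {ξ : Fin d → ℕ} : ξ ∈ gbx d k ↔ ∀ i, ξ i < 2 ^ k := by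
  unfold gbx
  rw [Fintype.mem_piFinset]
  simp only [Finset.mem_range]

theorem card_gbx (d k : ℕ) : (gbx d k).card = 2 ^ (d * k) := by
  unfold gbx
  rw [Fintype.card_piFinset, Finset.prod_const, Finset.card_range, Finset.card_univ,
    Fintype.card_fin, ← pow_mul, mul_comm]

theorem pt_mem {d k : ℕ} {ξ : Fin d → ℕ} (h : ∀ i, ξ i < 2 ^ k) (i : Fin d) :
    0 ≤ pt k ξ i ∧ pt k ξ i ≤ 1 := by
  unfold pt
  refine ⟨by positivity, ?_⟩
  rw [div_le_one (by positivity)]
  exact_mod_cast (h i).le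

/-- The value changes little if the values at the nodes change little. -/
theorem itp_near {K d : ℕ} {G G' : (Fin d → Fin (K + 1)) → ℝ} {δ : ℝ}
    (h : ∀ β, |G β - G' β| ≤ δ) {x : Fin d → ℝ} (h0 : ∀ i, -1 ≤ x i) (h1 : ∀ i, x i ≤ 2) :
    |itp G x - itp G' x| ≤ (K + 1) ^ d * lgC K ^ d * δ := by
  have hC := one_le_lgC K
  unfold itp
  rw [← Finset.sum_sub_distrib]
  refine (Finset.abs_sum_le_sum_abs _ _).trans ?_
  calc ∑ β : Fin d → Fin (K + 1), |ell K β x * G β - ell K β x * G' β|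
      ≤ ∑ _β : Fin d → Fin (K + 1), lgC K ^ d * δ := by
        refine Finset.sum_le_sum fun β _ => ?_
        rw [← mul_sub, abs_mul]
        exact mul_le_mul (ell_bd β h0 h1) (h β) (abs_nonneg _) (by positivity)
    _ = _ := by
        rw [Finset.sum_const, Finset.card_univ, card_grid, nsmul_eq_mul]
        push_cast
        ring

open Classical in
/-- **A full variable kills a polynomial.** -/
theorem read_grid {K d k g : ℕ} (hK : 1 ≤ K) (hd : 1 ≤ d) (hg : g ≤ k) {q : Ω → ℝ} (hq : IsLaw q)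
    (W : Ω → τ) (ξ : Ω → Fin d → ℕ) (hξ : ∀ ω, 0 < q ω → ∀ i, ξ ω i < 2 ^ k)
    (G : Ω → (Fin d → Fin (K + 1)) → ℝ) {σ lam A e e' : ℝ}
    (hfull : d * (k * Real.log 2) - e ≤ CH q ξ W) (hcell : CH q (fun ω => cel σ (G ω)) W ≤ e')
    (Ev : Ω → Prop) (hev : ∀ ω, 0 < q ω → Ev ω → σ * |itp (G ω) (pt k (ξ ω))| ≤ lam)
    (hσ : 0 < σ)
    (hA : (lam + (K + 1) ^ d * lgC K ^ d) * (2 * 2 ^ ((K * g + K + 1) * d)) + 1 ≤ A) :
    Pb q (fun ω => Ev ω ∧ ∃ β, A ≤ σ * |G ω β|) * (g * Real.log 2 - Real.log (d * K)) ≤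
      e + e' + Real.log 2 := by
  have h0 := hq.nonneg
  have hC := one_le_lgC K
  obtain ⟨N, hN⟩ : ∃ N : ℝ, N = (K + 1) ^ d * lgC K ^ d := ⟨_, rfl⟩
  have hN1 : 1 ≤ N := by
    rw [hN]
    have h1 : (1 : ℝ) ≤ (K + 1) ^ d :=
      one_le_pow₀ (by have : (0 : ℝ) ≤ K := Nat.cast_nonneg _; linarith)
    have h2 : (1 : ℝ) ≤ lgC K ^ d := one_le_pow₀ hC
    nlinarith
  rw [← hN] at hA
  by_cases hlam : 0 ≤ lam
  swap
  · -- the event is empty
    have hz : Pb q (fun ω => Ev ω ∧ ∃ β, A ≤ σ * |G ω β|) = 0 := by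
      unfold Pb
      refine Finset.sum_eq_zero fun ω _ => ?_
      split_ifs with h
      · by_contra hne
        have hp : 0 < q ω := lt_of_le_of_ne (h0 ω) (Ne.symm hne)
        have h1 := hev ω hp h.1
        have h2 : 0 ≤ σ * |itp (G ω) (pt k (ξ ω))| := mul_nonneg hσ.le (abs_nonneg _)
        linarith
      · rfl
    rw [hz, zero_mul]
    have h1 : CH q ξ W ≤ d * (k * Real.log 2) := by
      have h2 := CH_le_card h0 hq.sum_one ξ W (fun _ => gbx d k)
        (fun ω hω => mem_gbx.2 (hξ ω hω))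
      rw [Ex_const hq.sum_one, card_gbx] at h2
      push_cast at h2
      rw [Real.log_pow] at h2
      push_cast at h2
      linarith
    have h2 : 0 ≤ e' := (CH_nonneg h0 _ _).trans hcell
    have h3 : 0 ≤ Real.log 2 := Real.log_nonneg (by norm_num)
    linarith
  obtain ⟨Fc, hFc⟩ : ∃ Fc : ((Fin d → Fin (K + 1)) → ℤ) → τ → Finset (Fin d → ℕ),
    Fc = fun c _ => (gbx d k).filter
      (fun ξ => |itp (fun β => (c β : ℝ)) (pt k ξ)| ≤ lam + N) := ⟨_, rfl⟩
  have hLog : Real.log ((gbx d k).card : ℝ) ≤ d * (k * Real.log 2) := by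
    rw [card_gbx]
    push_cast
    rw [Real.log_pow]
    push_cast
    linarith
  refine cover_ent hq W (fun ω => cel σ (G ω)) ξ (gbx d k) Fc _
    (fun ω hω => mem_gbx.2 (hξ ω hω)) hLog hfull hcell (fun ω hω hb => ?_)
  obtain ⟨hE, b, hb⟩ := hb
  have hcl : ∀ β, |σ * G ω β - (cel σ (G ω) β : ℤ)| ≤ 1 := fun β => by
    have h1 := Int.floor_le (σ * G ω β)
    have h2 := Int.lt_floor_add_one (σ * G ω β)
    unfold cel
    rw [abs_le]
    constructor <;> linarith
  have hpt := pt_mem (hξ ω hω)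
  have hmem : ξ ω ∈ Fc (cel σ (G ω)) (W ω) := by
    rw [hFc, Finset.mem_filter]
    refine ⟨mem_gbx.2 (hξ ω hω), ?_⟩
    have h1 := itp_near (G := fun β => ((cel σ (G ω) β : ℤ) : ℝ)) (G' := fun β => σ * G ω β)
      (δ := 1) (fun β => by rw [abs_sub_comm]; exact hcl β)
      (x := pt k (ξ ω)) (fun i => by linarith [(hpt i).1]) (fun i => by linarith [(hpt i).2])
    rw [mul_one, ← hN] at h1
    have e1 : itp (fun β => σ * G ω β) (pt k (ξ ω)) = σ * itp (G ω) (pt k (ξ ω)) := by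
      unfold itp
      rw [Finset.mul_sum]
      exact Finset.sum_congr rfl fun β _ => by ring
    have h2 := hev ω hω hE
    rw [e1] at h1
    have h3 : |σ * itp (G ω) (pt k (ξ ω))| ≤ lam := by
      rw [abs_mul, abs_of_pos hσ]
      exact h2
    have h4 := abs_le.1 h1
    have h5 := abs_le.1 h3
    rw [abs_le]
    constructor <;> linarith
  refine ⟨hmem, ?_⟩
  have hA1 : 0 < A - 1 := by
    have : 0 < (lam + N) * (2 * 2 ^ ((K * g + K + 1) * d)) := by positivity
    linarith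
  have hcb : A - 1 ≤ |((cel σ (G ω) b : ℤ) : ℝ)| := by
    have h1 := hcl b
    have h2 : A ≤ |σ * G ω b| := by
      rw [abs_mul, abs_of_pos hσ]
      exact hb
    have h3 : |σ * G ω b| ≤ |σ * G ω b - (cel σ (G ω) b : ℤ)| + |((cel σ (G ω) b : ℤ) : ℝ)| := by
      have := abs_add_le (σ * G ω b - (cel σ (G ω) b : ℤ)) ((cel σ (G ω) b : ℤ) : ℝ)
      rwa [sub_add_cancel] at this
    linarith
  have hcount := sub_all hK hg d (fun β => ((cel σ (G ω) β : ℤ) : ℝ)) hA1 b hcb
    (Fc (cel σ (G ω)) (W ω)) (fun x hx => by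
      rw [hFc, Finset.mem_filter] at hx
      refine ⟨mem_gbx.1 hx.1, hx.2.trans ?_⟩
      rw [le_div_iff₀ (by positivity)]
      linarith)
  have hpos : 0 < (Fc (cel σ (G ω)) (W ω)).card := Finset.card_pos.2 ⟨_, hmem⟩
  have h1 : ((Fc (cel σ (G ω)) (W ω)).card : ℝ) * 2 ^ g ≤ d * K * 2 ^ (d * k) := by
    exact_mod_cast hcount
  have hc0 : (0 : ℝ) < (Fc (cel σ (G ω)) (W ω)).card := by exact_mod_cast hpos
  have hd0 : (0 : ℝ) < d := by exact_mod_cast hd
  have hK0 : (0 : ℝ) < K := by exact_mod_cast hK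
  have h2 := Real.log_le_log (by positivity) h1
  rw [Real.log_mul hc0.ne' (by positivity), Real.log_mul (by positivity) (by positivity),
    Real.log_pow, Real.log_pow] at h2
  push_cast at h2
  linarith

end law

end Pool.D2G30
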