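import Pool.Agent.H73.D2.Tlk

/-!
# `Wdat` and `TLd` with real numbers

`wins_dat2`: `Wdat` from `Wins` with the numbers as multiples of `J`. `wins_tld`: the deterministic
part of `TL` with the constant `2 ^ (δ * Q)`.
-/

set_option autoImplicit false

namespace Pool.V1E

open Finset Real MvPolynomial
open Pool.KA Pool.KSAT Pool.PB Pool.GEN Pool.D2R Pool.D2G30 Pool.ISO Pool.CHT Pool.CHX
open Pool.PB.Trl (rt rt_mem t_rt)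
open Pool.K2S (Sub)

variable {m J : ℕ}

theorem flo {y : ℝ} (h : 0 ≤ y) : (⌊y⌋₊ : ℝ) ≤ y ∧ y - 1 ≤ (⌊y⌋₊ : ℝ) :=
  ⟨Nat.floor_le h, by linarith [Nat.lt_floor_add_one y]⟩

/-- **`Wdat` from `Wins`, numbers as multiples of `J`.** -/
theorem wins_dat2 {F : Fam m J} {c : ℕ → Fin m} {r D Dr N M : ℕ} {R : ℕ → Prop}
    {C₀ a Eb ηm : ℝ} {o ε p' η σ : ℕ → ℝ} {lv be b : ℕ → ℕ → ℝ} {κ : ℝ} {z : ℕ → ℕ → ℕ}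
    {B : F.Ω → Prop} {gc gT g₀ : ℕ → ℕ → ℕ}
    {G : ℕ → PtT F → ℕ → MvPolynomial (Option (Fin m)) ℝ}
    {H : ℕ → LnT F → ℕ → MvPolynomial (Option (Fin m)) ℝ}
    {T : ℕ → PtT F → ℕ → MvPolynomial (Option (Fin m)) ℝ}
    {TH : ℕ → LnT F → ℕ → MvPolynomial (Option (Fin m)) ℝ}
    {Gt : ℕ → PtT F → MvPolynomial (Option (Fin m)) ℝ}
    {Ht : ℕ → LnT F → MvPolynomial (Option (Fin m)) ℝ}
    (W : Wins F c r D Dr N M R C₀ a Eb ηm o ε p' η σ lv be b κ z B gc gT g₀ G H T TH Gt Ht)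
    {f : ℕ → ℕ} {qe : Fin r → ℕ} {ξ mb pr : ℝ}
    (hc : Set.InjOn c (Set.Iio (r + 1))) (hf : ∀ k, f k ≤ N) (hR : ∀ l < r, R l)
    (ha : a ≤ 1) (h01 : o (f 0) ≤ o (f 1)) (h12 : o (f 1) ≤ o (f 2)) (h23 : o (f 2) ≤ o (f 3))
    (z01 : ∃ q ≤ M, z (f 0) q = ⌊o (f 1) * J⌋₊ - ⌊o (f 0) * J⌋₊)
    (z02 : ∃ q ≤ M, z (f 0) q = ⌊o (f 2) * J⌋₊ - ⌊o (f 0) * J⌋₊)
    (z03 : ∃ q ≤ M, z (f 0) q = ⌊o (f 3) * J⌋₊ - ⌊o (f 0) * J⌋₊)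
    (z12 : ∃ q ≤ M, z (f 1) q = ⌊o (f 2) * J⌋₊ - ⌊o (f 1) * J⌋₊)
    (z23 : ∃ q ≤ M, z (f 2) q = ⌊o (f 3) * J⌋₊ - ⌊o (f 2) * J⌋₊)
    (hξ : 0 ≤ ξ) (hmb : 0 ≤ mb) (hpr : 0 ≤ pr)
    (hn : ∀ k ≤ 3, ∀ j < r, |lv (f k) j - o (f k) - (lv (f 1) j - o (f 1))| ≤ ξ)
    (h2 : lv (f 1) r + mb ≤ lv (f 2) r + ξ)
    (h3 : lv (f 1) r + (o (f 3) - o (f 1)) + (mb - (o (f 2) - o (f 1))) ≤ lv (f 3) r + ξ)
    (hp0 : pr + C₀ * ηm ≤ p' (f 1))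
    (hp1 : 2 ≤ (lv (f 3) r + (a - o (f 3)) - (pr + C₀ * ηm + ηm)) * J)
    (hp : lv (f 1) r + (a - o (f 1)) + (mb - (o (f 2) - o (f 1))) ≤ pr + ξ)
    (hQM : 2 ≤ (mb - (o (f 2) - o (f 1))) * J)
    (hq : 3 ≤ (o (f 1) - o (f 0) - (mb + (o (f 2) - o (f 1)))) * J)
    (qeM : ∀ i, ⌊mb * J⌋₊ + (⌊o (f 2) * J⌋₊ - ⌊o (f 1) * J⌋₊) ≤ qe i) :
    Wdat F c r D 3 M ⌊a * J⌋₊ ⌊mb * J⌋₊ (⌊o (f 1) * J⌋₊ - ⌊o (f 0) * J⌋₊)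
      (⌊o (f 2) * J⌋₊ - ⌊o (f 1) * J⌋₊) (⌊(2 * ξ + ηm) * J⌋₊ + 20) (⌊C₀ * (ηm * J)⌋₊ + 1)
      ⌊pr * J⌋₊ ⌊(Eb + 2 * ηm) * J⌋₊ (fun l => ⌊lv (f 1) l * J⌋₊) qe
      (fun k => ⌊o (f k) * J⌋₊) (fun k => z (f k)) (fun k l => ⌊b (f k) l * J⌋₊)
      (fun k => gc (f k)) (fun k => gT (f k)) (fun k => g₀ (f k)) B (fun k => G (f k))
      (fun k => T (f k)) (fun k => H (f k)) (fun k => TH (f k)) (Ht (f 1)) := by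
  have hJ : (0 : ℝ) ≤ J := Nat.cast_nonneg J
  have hC0 : 0 ≤ C₀ := by linarith [W.C1]
  have hηm0 : 0 ≤ ηm := (W.hη (f 0) (hf 0)).1.trans (W.hη (f 0) (hf 0)).2
  have hηJ : 0 ≤ ηm * J := mul_nonneg hηm0 hJ
  have hξJ : 0 ≤ ξ * J := mul_nonneg hξ hJ
  have ho0 : ∀ k, 0 ≤ o (f k) * J := fun k => mul_nonneg (W.ho (f k) (hf k)).1 hJ
  have ha0 : 0 ≤ a * J := mul_nonneg ((W.ho (f 0) (hf 0)).1.trans (W.ho (f 0) (hf 0)).2) hJ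
  have hlv : ∀ k l, l ≤ r → 0 ≤ lv (f k) l * J := fun k l hl =>
    (Nat.cast_nonneg (g₀ (f k) l)).trans (W.g_num (hf k) hl).2.2.2.1
  have fo := fun k => flo (ho0 k)
  have fa := flo ha0
  have fm := flo (mul_nonneg hmb hJ)
  have fp := flo (mul_nonneg hpr hJ)
  have fx := flo (mul_nonneg (show 0 ≤ 2 * ξ + ηm by linarith) hJ)
  have fu := flo (mul_nonneg hC0 hηJ)
  have fl01 : ⌊o (f 0) * J⌋₊ ≤ ⌊o (f 1) * J⌋₊ :=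
    Nat.floor_le_floor (mul_le_mul_of_nonneg_right h01 hJ)
  have fl12 : ⌊o (f 1) * J⌋₊ ≤ ⌊o (f 2) * J⌋₊ :=
    Nat.floor_le_floor (mul_le_mul_of_nonneg_right h12 hJ)
  have c12 : ((⌊o (f 2) * J⌋₊ - ⌊o (f 1) * J⌋₊ : ℕ) : ℝ) =
      (⌊o (f 2) * J⌋₊ : ℝ) - (⌊o (f 1) * J⌋₊ : ℝ) := Nat.cast_sub fl12
  have c01 : ((⌊o (f 1) * J⌋₊ - ⌊o (f 0) * J⌋₊ : ℕ) : ℝ) =
      (⌊o (f 1) * J⌋₊ : ℝ) - (⌊o (f 0) * J⌋₊ : ℝ) := Nat.cast_sub fl01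
  have mulJ : ∀ {x y : ℝ}, x ≤ y → x * J ≤ y * J := fun h => mul_le_mul_of_nonneg_right h hJ
  refine wins_dat W (X := ξ * J + 8) hc hf hR ?_ ha h12 h23 (by omega) (by omega) z01 z02 z03 z12 z23
    (by linarith) ?_ ?_ ?_ ?_ ?_ ?_ ?_ ?_ ?_ ?_ ?_ qeM
  · push_cast
    linarith [fu.2]
  · push_cast
    linarith [fx.2]
  · intro k hk j hj
    have e1 := flo (hlv 1 j hj.le)
    have e2 := mulJ (hn k hk j hj)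
    rw [← abs_of_nonneg hJ, ← abs_mul] at e2
    rw [abs_of_nonneg hJ] at e2
    have e3 := abs_le.1 e2
    have e4 := fo k
    have e5 := fo 1
    rw [abs_le]
    constructor <;> linarith [e3.1, e3.2, e1.1, e1.2, e4.1, e4.2, e5.1, e5.2]
  · have e1 := flo (hlv 1 r le_rfl)
    linarith [e1.1]
  · have e1 := flo (hlv 1 r le_rfl)
    linarith [e1.2]
  · have e1 := flo (hlv 1 r le_rfl)
    have e2 := mulJ h2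
    linarith [e1.1, fm.1]
  · have e1 := flo (hlv 1 r le_rfl)
    have e2 := mulJ h3
    rw [c12]
    linarith [e1.1, fm.1, (fo 1).1, (fo 1).2, (fo 2).1, (fo 2).2, (fo 3).1, (fo 3).2]
  · have e2 := mulJ hp0
    linarith [fp.1]
  · linarith [fp.1, fa.1, fa.2, (fo 3).1, (fo 3).2]
  · have e1 := flo (hlv 1 r le_rfl)
    have e2 := mulJ hp
    rw [c12]
    linarith [e1.1, fm.1, (fo 1).1, (fo 1).2, (fo 2).1, (fo 2).2, fa.1, fa.2, fp.1, fp.2]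
  · refine nat_le ?_
    rw [c12]
    linarith [fm.1, fm.2, (fo 1).1, (fo 1).2, (fo 2).1, (fo 2).2]
  · refine nat_le ?_
    rw [Nat.cast_add, c12, c01]
    linarith [fm.1, fm.2, (fo 1).1, (fo 1).2, (fo 2).1, (fo 2).2, (fo 0).1, (fo 0).2]

/-- **The constant of `TLd` is small.** -/
theorem Y_le {C C' : ℕ} {C₀ ηm ξ δ v w : ℝ} {J : ℕ} (hC : (C : ℝ) ≤ C') (hC0 : 0 ≤ C₀) (hη : 0 ≤ ηm)
    (hξ : 0 ≤ ξ) (hδ : 0 ≤ δ) (h0 : 0 ≤ v) (hvw : v ≤ w)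
    (h : (C' : ℝ) * ((C₀ * ηm + 2 * ξ + ηm) * J + 22) ≤ δ * ((w - v) * J - 1)) :
    (2 : ℝ) ^ (C * (⌊C₀ * (ηm * J)⌋₊ + 1 + (⌊(2 * ξ + ηm) * J⌋₊ + 20) + 1)) ≤
      2 ^ (δ * ((⌊w * J⌋₊ - ⌊v * J⌋₊ : ℕ) : ℝ)) := by
  have hJ : (0 : ℝ) ≤ J := Nat.cast_nonneg J
  have fu := flo (mul_nonneg hC0 (mul_nonneg hη hJ))
  have fx := flo (mul_nonneg (show 0 ≤ 2 * ξ + ηm by linarith) hJ)
  have fv := flo (mul_nonneg h0 hJ)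
  have fw := flo (mul_nonneg (h0.trans hvw) hJ)
  have fl : ⌊v * J⌋₊ ≤ ⌊w * J⌋₊ := Nat.floor_le_floor (mul_le_mul_of_nonneg_right hvw hJ)
  rw [← Real.rpow_natCast]
  refine Real.rpow_le_rpow_of_exponent_le (by norm_num) ?_
  rw [Nat.cast_sub fl]
  push_cast
  have h1 : (C : ℝ) * (⌊C₀ * (ηm * J)⌋₊ + 1 + (⌊(2 * ξ + ηm) * J⌋₊ + 20) + 1) ≤
      C' * ((C₀ * ηm + 2 * ξ + ηm) * J + 22) := by
    refine mul_le_mul hC ?_ (by positivity) (Nat.cast_nonneg _)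
    linarith [fu.1, fx.1]
  refine h1.trans (h.trans (mul_le_mul_of_nonneg_left ?_ hδ))
  linarith [fv.1, fw.2]

end Pool.V1E
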