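import Pool.Agent.H37.STA.Sud
import Pool.Agent.H80.CLO.Cls
import Pool.Agent.H77.STB.Nic

/-!
# The closed chart of the second coordinate at a window of a class

`ch1_cls`: closed labels of `c 0` and `c 1` at one window, with the class losses. `far_cls`: the event
`FaE` of one chart.
-/

set_option autoImplicit false

namespace Pool.CLR73

open Finset Real MvPolynomial
open Pool.Agent.H49.Ent Pool.Agent.H32.Dense Pool.STK Pool.KA Pool.KSAT Pool.K2S Pool.PB Pool.S6C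
open Pool.GEN Pool.CHT Pool.CHX Pool.D2Con Pool.D2A Pool.D2F Pool.RCD
open Pool.STB (V3 Po Bx cv PosR posR_of cnt_int)
open Pool.STB77 (Inc Nls NodW NodF inc_cls)
open Pool.STB82 (yv hgP yp inp_cls)
open Pool.STB65 (InpP PosO)
open Pool.STA37 (FaT FaE)
open Pool.PB.Trl (rt rt_mem t_rt)

variable {m : ℕ}

/-- **The closed labels of `c 0` and `c 1` at one window.** -/
theorem ch1_cls (D : ℕ) : ∃ C D' : ℕ, D ≤ D' ∧ ∀ {m : ℕ} {S : PCl m} {c : ℕ → Fin m}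
    {β : ℕ → ℝ → ℝ → ℝ} {e E : ℝ} (_ : TmH S) (_ : Set.InjOn c (Set.Iio 3)) {w s₀ s : ℝ}
    (_ : 0 ≤ w) (_ : w < 1) (_ : NodF S c 2 D β e E w w) (_ : 0 ≤ s₀) (_ : β 0 w w ≤ w + s₀)
    (_ : w ≤ β 0 w w + s₀) (_ : w ≤ β 1 w w) (_ : 0 < s),
    ∃ K₁ d : ℝ, 0 < K₁ ∧ 0 < d ∧ d ≤ s ∧ Bas S (fun J F A => ∃ (B : F.Ω → Prop)
      (xP : PtT F → ℝ) (xH : LnT F → ℝ) (pP : PtT F → MvPolynomial (Option (Fin m)) ℝ)
      (pH : LnT F → MvPolynomial (Option (Fin m)) ℝ), Sub B A ∧ Pe F.p A ≤ K₁ * Pe F.p B ∧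
      (∀ y, (pP y).totalDegree ≤ D') ∧ (∀ z, (pH z).totalDegree ≤ D') ∧ (∀ y, DepC c 1 (pP y)) ∧
      (∀ z, DepC c 1 (pH z)) ∧ (∀ ω, B ω → pP (ptr F J ω) = pH (slam F ⌊w * J⌋₊ ω)) ∧
      (∀ ω, B ω → |F.x ω (c 1) - eval (bt F ω) (pP (ptr F J ω))| ≤
        2 ^ (C * (⌊(s₀ + 3 * s) * J⌋₊ + 1)) / 2 ^ ⌊(β 1 w w - d) * J⌋₊) ∧
      (∀ ω, B ω → xP (ptr F J ω) = xH (slam F ⌊w * J⌋₊ ω)) ∧
      (∀ ω, B ω → |F.x ω (c 0) - xP (ptr F J ω)| ≤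
        2 ^ (C * (⌊(s₀ + 3 * s) * J⌋₊ + 1)) / 2 ^ ⌊w * J⌋₊) ∧
      ∀ ω, B ω → ∀ b : Option (Fin m) → ℝ, |b none - F.t ω| ≤ 1 / 2 ^ ⌊w * J⌋₊ →
        |b (some (c 0)) - F.x ω (c 0)| ≤ 1 / 2 ^ ⌊w * J⌋₊ →
        |eval b (pderiv (some (c 0)) (pP (ptr F J ω)))| ≤
          2 ^ (C * (⌊(s₀ + 3 * s) * J⌋₊ + 1) + ⌊e * J⌋₊)) := by
  obtain ⟨C, D', hDD, hinc⟩ := inc_cls D
  refine ⟨C + 1, D', hDD, ?_⟩
  intro m S c β e E hS hc w s₀ s hw0 hw1 hN hs₀ h1 h2 h3 hs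
  obtain ⟨K₁, d, ψ, hK₁, hψ, hd, hbas⟩ := hinc (S := S) (c := c) (r := 2) (β := β) (e := e) (E := E)
    le_rfl hS hc 1 (fun _ => w) (fun _ => w) (fun _ _ => hw0) (fun _ _ => le_rfl) (fun _ _ => hw1)
    (fun _ _ _ _ _ _ => le_rfl) (fun _ _ => hN) 0 (fun _ => 0) (fun _ _ => one_pos)
    (fun _ _ => rfl) (fun k hk => absurd hk (Nat.not_lt_zero k)) 0 s₀
    (fun k hk => absurd hk (Nat.not_lt_zero k)) hs₀ (fun _ _ => h1) h2 h3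
    (fun _ _ => by linarith) (fun _ _ => by linarith) 0 s s hs hs
  refine ⟨K₁, d 0 1, hK₁, (hd 0 one_pos 1 (by norm_num)).1, (hd 0 one_pos 1 (by norm_num)).2.1,
    Bas.mono 0 hbas ?_⟩
  rintro J - F A ⟨B, G, H, xP, xH, pP, pH, b1, b2, b3, b4, b5, b6, b7, b8, b9⟩
  beta_reduce at b4 b5 b7 b8 b9
  obtain ⟨n, hn⟩ : ∃ n, n = ⌊(s₀ + 3 * s) * (J : ℝ)⌋₊ + 1 := ⟨_, rfl⟩
  rw [← hn] at b4 b5 b8 b9 ⊢
  have hn1 : 1 ≤ n := by omega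
  have hCn : C * n + 1 ≤ (C + 1) * n := by
    have : (C + 1) * n = C * n + n := by ring
    omega
  have hpw : (2 : ℝ) ^ (C * n + 1) ≤ 2 ^ ((C + 1) * n) := pow_le_pow_right₀ one_le_two hCn
  have hpw0 : (2 : ℝ) ^ (C * n) ≤ 2 ^ ((C + 1) * n) := pow_le_pow_right₀ one_le_two (by omega)
  have h2W : (0 : ℝ) < 2 ^ ⌊w * (J : ℝ)⌋₊ := by positivity
  refine ⟨B, fun y => xP y / 2 ^ ⌊w * (J : ℝ)⌋₊, fun z => xH z / 2 ^ ⌊w * (J : ℝ)⌋₊, fun y => pP y 1,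
    fun z => pH z 1, b1, b2, fun y => b4.pd y 1, fun z => b4.hd z 1, fun y => b4.pe y 1,
    fun z => b6 z 1, fun ω hω => b4.pc ω hω 1, fun ω hω => ?_, fun ω hω => ?_, fun ω hω => ?_,
    fun ω hω b hb hb' => ?_⟩
  · have hok := b4.ok 0 le_rfl
    have hp0 := hok.pos ω hω 0 (by norm_num)
    have hp1 := hok.pos ω hω 1 (by norm_num)
    have hnb : NBx c (G 0 (ptr F J ω)) (fun l => ⌊(β l w w - d 0 l) * (J : ℝ)⌋₊) ⌊w * (J : ℝ)⌋₊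
        (F.t ω) 1 (bt F ω) := by
      refine ⟨?_, fun l hl => ?_⟩
      · show |F.t ω - F.t ω| ≤ _
        rw [sub_self, abs_zero]
        positivity
      · have : l = 0 := by omega
        subst this
        exact hp0
    have hn := b4.pn ω hω 1 one_pos (by norm_num) (bt F ω) hnb
    have e1 : F.x ω (c 1) - eval (bt F ω) (pP (ptr F J ω) 1) =
        (F.x ω (c 1) - eval (bt F ω) (G 0 (ptr F J ω) 1)) -
          (eval (bt F ω) (pP (ptr F J ω) 1) - eval (bt F ω) (G 0 (ptr F J ω) 1)) := by ring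
    rw [e1]
    refine (abs_sub _ _).trans ((add_le_add hp1 hn).trans ?_)
    rw [← add_div]
    refine div_le_div_of_nonneg_right ?_ (by positivity)
    have h4 : (1 : ℝ) ≤ 2 ^ (C * n) := one_le_pow₀ one_le_two
    rw [pow_succ] at hpw
    linarith
  · show xP (ptr F J ω) / _ = xH _ / _
    rw [b7 ω hω]
  · have h4 := b8 ω hω
    have e1 : F.x ω (c 0) - xP (ptr F J ω) / 2 ^ ⌊w * (J : ℝ)⌋₊ =
        -(xP (ptr F J ω) - 2 ^ ⌊w * (J : ℝ)⌋₊ * F.x ω (c 0)) / 2 ^ ⌊w * (J : ℝ)⌋₊ := by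
      field_simp
      ring
    rw [e1, abs_div, abs_neg, abs_of_pos h2W]
    exact div_le_div_of_nonneg_right (h4.trans hpw0) h2W.le
  · refine (b9 ω hω b hb hb').trans ?_
    exact pow_le_pow_right₀ one_le_two (by omega)

end Pool.CLR73
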