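import Pool.Agent.H73.D2.Clra
import Pool.Agent.H37.STA.Suv

/-!
# The direction in the closed coordinates is free

`ClR`: the geometric data of a closed chart with positions. `clr_free`: the rounded direction is free of the
later record, law level.
-/

set_option autoImplicit false

namespace Pool.CLR73

open Finset Real MvPolynomial
open Pool.Agent.H49.Ent Pool.Agent.H32.Dense Pool.STK Pool.KA Pool.KSAT Pool.K2S Pool.PB Pool.S6C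
open Pool.GEN Pool.CHT Pool.CHX Pool.D2Con Pool.D2A Pool.D2F Pool.RCD
open Pool.STB (V3 Po Bx cv PosR posR_of cnt_int)
open Pool.STB77 (Inc Nls NodW NodF inc_cls)
open Pool.STB82 (yv hgP yp inp_cls Fst cond_pos_B)
open Pool.STB65 (InpP PosO)
open Pool.STA37 (FaT FaE LowP ul ul_eq d1f_few ug_lab' mx_fst free_all fl_le2)
open Pool.LA91 (qG Mx)
open Pool.PB.Trl (rt rt_mem t_rt)

variable {m : ℕ}

/-- **The geometric data**: the closed chart of the second coordinate at the window `W₀`, the positions in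
closed coordinates at the window `W₀ + d`, `k` digits, losses `2 ^ y`. -/
structure ClR {J : ℕ} (F : Fam m J) (c : ℕ → Fin m) (B : F.Ω → Prop) (K₁ W₀ d k g1 e₁ y : ℕ) (Kp : ℝ)
    (Pv : PtT F → MvPolynomial (Option (Fin m)) ℝ) (Pl : LnT F → MvPolynomial (Option (Fin m)) ℝ)
    (yt : PtT F → V3) (ctr xo : ℕ → F.Ω → V3) (D₁ : LnT F → V3) : Prop where
  inp : InpP F B W₀ d k 1 (K₁ + 1) (2 ^ y) (yv F c W₀ g1 Pl) yt (hgP c W₀ g1 Pl)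
  pos : PosO F B W₀ d k 1 ((2 ^ y) ^ 2) Kp (yv F c W₀ g1 Pl) (hgP c W₀ g1 Pl) ctr xo D₁
  Pd : ∀ z, (Pv z).totalDegree ≤ K₁
  Ld : ∀ z, (Pl z).totalDegree ≤ K₁
  Pp : ∀ z, DepC c 1 (Pv z)
  Lp : ∀ z, DepC c 1 (Pl z)
  Pc : ∀ ω, B ω → Pv (ptr F J ω) = Pl (slam F W₀ ω)
  Pg : ∀ ω, B ω → ∀ b : Option (Fin m) → ℝ, |b none - F.t ω| ≤ 1 / 2 ^ W₀ →
    |b (some (c 0)) - F.x ω (c 0)| ≤ 1 / 2 ^ W₀ →
    |eval b (pderiv (some (c 0)) (Pv (ptr F J ω)))| ≤ 2 ^ e₁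
  Pn : ∀ ω, B ω → |F.x ω (c 1) - eval (bt F ω) (Pv (ptr F J ω))| ≤ 2 ^ y / 2 ^ g1

theorem ClR.sub {J : ℕ} {F : Fam m J} {c : ℕ → Fin m} {B B' : F.Ω → Prop} {K₁ W₀ d k g1 e₁ y : ℕ}
    {Kp : ℝ} {Pv : PtT F → MvPolynomial (Option (Fin m)) ℝ}
    {Pl : LnT F → MvPolynomial (Option (Fin m)) ℝ} {yt : PtT F → V3} {ctr xo : ℕ → F.Ω → V3}
    {D₁ : LnT F → V3} (h : ClR F c B K₁ W₀ d k g1 e₁ y Kp Pv Pl yt ctr xo D₁) (hB : Sub B' B) :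
    ClR F c B' K₁ W₀ d k g1 e₁ y Kp Pv Pl yt ctr xo D₁ where
  inp := h.inp.sub hB
  pos := h.pos.sub hB
  Pd := h.Pd
  Ld := h.Ld
  Pp := h.Pp
  Lp := h.Lp
  Pc := fun ω hω => h.Pc ω (hB ω hω)
  Pg := fun ω hω => h.Pg ω (hB ω hω)
  Pn := fun ω hω => h.Pn ω (hB ω hω)

/-- **The direction is free of the later record.** -/
theorem clr_free (K₁ : ℕ) : ∃ C : ℝ, 1 ≤ C ∧ ∀ {m J : ℕ} {F : Fam m J} {c : ℕ → Fin m}
    {B : F.Ω → Prop} {W₀ d k g1 e₁ y w' Kf : ℕ} {Kp : ℝ}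
    {Pv : PtT F → MvPolynomial (Option (Fin m)) ℝ} {Pl : LnT F → MvPolynomial (Option (Fin m)) ℝ}
    {yt : PtT F → V3} {ctr xo : ℕ → F.Ω → V3} {D₁ : LnT F → V3} {xP : PtT F → ℝ} {xH : LnT F → ℝ}
    {sf : ℕ → ℝ} {r κ eF bb : ℝ} {sn : ℕ → ℝ → ℝ} {Pq : Fin 2 → ℝ}, 0 < Pe F.p B →
    ClR F c B K₁ W₀ d k g1 e₁ y Kp Pv Pl yt ctr xo D₁ →
    (∀ ω, B ω → xP (ptr F J ω) = xH (slam F W₀ ω)) →
    (∀ ω, B ω → |F.x ω (c 0) - xP (ptr F J ω)| ≤ 2 ^ y / 2 ^ W₀) →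
    1 ≤ J → y ≤ J → K₁ ≤ Kf → 5 ≤ Kf → (∀ i, Pq i ≤ 1) → W₀ = ⌊bb * J⌋₊ →
    ⌊(sn 0 bb - eF) * J⌋₊ + y ≤ W₀ → ⌊(sn 1 bb - eF) * J⌋₊ + y ≤ g1 →
    (k : ℝ) ≤ Pq 0 * J → (k : ℝ) + g1 ≤ Pq 1 * J + W₀ → k ≤ d → C ≤ 2 ^ y → W₀ + d + k ≤ w' →
    w' ≤ J → LowP F B c sf (W₀ + d) r →
    (∀ (V : Type) (z : F.Ω → V) (V' : Type) (z' : F.Ω → V'),
        Fst (slam F (W₀ + d)) (fun ω => ptr F J ω) B z → Fst (slam F w') (fun ω => ptr F J ω) B z' →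
        ∀ u, (qG m c 2 sn bb Pq).P Kf eF J F B u →
        CH (Pool.Agent.H49.Ent.cond F.p B True) u (fun ω => (z ω, F.W ω)) ≤
          CH (Pool.Agent.H49.Ent.cond F.p B True) u (fun ω => (z' ω, F.W ω)) + κ) →
    ∀ (Y : Type) (yy : F.Ω → Y), Fst (slam F (W₀ + d)) (fun ω => ptr F J ω) B yy →
      ∀ (Z : Type) (z : F.Ω → Z), Fst (slam F (W₀ + d + k)) (fun ω => ptr F J ω) B z →
      CH (Pool.Agent.H49.Ent.cond F.p B True) (fun ω => D₁ (slam F (W₀ + d) ω)) yy -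
        (κ + 3 * ((y + 3 : ℕ) * Real.log 2) + r) ≤
      CH (Pool.Agent.H49.Ent.cond F.p B True) (fun ω => D₁ (slam F (W₀ + d) ω)) z := by
  obtain ⟨C, hC, hd1⟩ := d1f_few (K₁ + 1)
  refine ⟨C, hC, ?_⟩
  intro m J F c B W₀ d k g1 e₁ y w' Kf Kp Pv Pl yt ctr xo D₁ xP xH sf r κ eF bb sn Pq hB I hxc hxn hJ
    hyJ hKf hKf5 hPq hbb hs0 hs1 hk0 hk1 hkd hCy hw' hw'J L hfr Y yy hyy Z z hz
  have hl := isLaw_cond F.isLaw hB
  have hn := hl.nonneg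
  have hWJ : W₀ + d ≤ J := by omega
  have hd0 : ∀ ω, B ω → |F.d ω (c 0)| ≤ 1 := fun ω _ => F.dir ω (c 0)
  obtain ⟨f, hf⟩ : ∃ f : FaT F, f = ⟨W₀, d, k, g1, Pv, Pl, yt, xP, xH⟩ := ⟨_, rfl⟩
  have hE : FaE F c B K₁ y e₁ W₀ g1 Pl f := by
    subst hf
    refine ⟨I.inp, I.Pd, I.Pp, I.Pc, fun ω hω b h1 h2 => I.Pg ω hω b ?_ ?_, hxc, hxn, I.Pn,
      fun ω hω b h1 h2 => ?_⟩
    · rw [h1, sub_self, abs_zero]
      positivity
    · refine h2.trans (one_div_le_one_div_of_le (by positivity) ?_)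
      exact pow_le_pow_right₀ one_le_two (by omega)
    · show 2 ^ g1 * |eval b (Pl (slam F W₀ ω) - Pl (slam F W₀ ω)) -
        eval (bt F ω) (Pl (slam F W₀ ω) - Pl (slam F W₀ ω))| ≤ 2 ^ y
      rw [sub_self, map_zero, map_zero, sub_zero, abs_zero, mul_zero]
      positivity
  have hlab : (qG m c 2 sn bb Pq).P Kf eF J F B (ul c f Pq) := by
    refine ug_lab' hJ hE (by rw [hf, hbb]) (by rw [← hbb]; omega) hyJ hKf hKf5 hPq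
      (fl_le2 (by rw [hf]; exact hs0)) (fl_le2 (by rw [hf]; exact hs1)) hd0
  -- few bits
  have hk2 : (0 : ℝ) < 2 ^ k := by positivity
  have hy2 : (0 : ℝ) < 2 ^ y := by positivity
  have hy1 : (1 : ℝ) ≤ 2 ^ y := one_le_pow₀ one_le_two
  have e0 : (2 : ℝ) ^ k ≤ (2 : ℝ) ^ (Pq 0 * J) := by
    rw [← Real.rpow_natCast]
    exact Real.rpow_le_rpow_of_exponent_le one_le_two hk0
  have e1 : (2 : ℝ) ^ k * 2 ^ g1 ≤ (2 : ℝ) ^ (Pq 1 * J) * 2 ^ W₀ := by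
    rw [← pow_add, ← Real.rpow_natCast, ← Real.rpow_natCast 2 W₀, ← Real.rpow_add two_pos]
    refine Real.rpow_le_rpow_of_exponent_le one_le_two ?_
    push_cast
    linarith
  have hfew : CH (Pool.Agent.H49.Ent.cond F.p B True) (fun ω => D₁ (slam F (W₀ + d) ω)) (ul c f Pq) ≤
      3 * Real.log ((4 + 2 * C) + 1) := by
    refine hd1 (B := B) (Y := 2 ^ y) (σ' := (2 ^ y) ^ 2) (P0 := 1 / (2 : ℝ) ^ (Pq 0 * J))
      (P1 := 1 / (2 : ℝ) ^ (Pq 1 * J)) hl (fun ω h => cond_pos_B h) I.inp I.pos hWJ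
      (by positivity) (by positivity) (fun ω ω' hω hω' e => ?_) (by positivity) (by positivity) ?_
    · have h1 := ul_eq e
      rw [hf] at h1
      exact h1
    · have p0 : (0 : ℝ) < (2 : ℝ) ^ (Pq 0 * J) := Real.rpow_pos_of_pos two_pos _
      have p1 : (0 : ℝ) < (2 : ℝ) ^ (Pq 1 * J) := Real.rpow_pos_of_pos two_pos _
      have a1 : (2 : ℝ) ^ k * (1 / (2 ^ y) ^ 2 * (2 * (C * 2 ^ y) / 2 ^ d)) ≤ 2 * C := by
        have h1 : (2 : ℝ) ^ k ≤ 2 ^ d := pow_le_pow_right₀ one_le_two hkd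
        have h2 : (2 : ℝ) ^ k * (1 / (2 ^ y) ^ 2 * (2 * (C * 2 ^ y) / 2 ^ d)) =
            2 * C * ((2 ^ k / 2 ^ d) * (1 / 2 ^ y)) := by
          field_simp
        rw [h2]
        have h3 : (2 : ℝ) ^ k / 2 ^ d ≤ 1 := by
          rw [div_le_one (by positivity)]
          exact h1
        have h4 : 1 / (2 : ℝ) ^ y ≤ 1 := by
          rw [div_le_one (by positivity)]
          exact hy1
        have h5 : (2 : ℝ) ^ k / 2 ^ d * (1 / 2 ^ y) ≤ 1 :=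
          mul_le_one₀ h3 (by positivity) h4
        calc 2 * C * ((2 : ℝ) ^ k / 2 ^ d * (1 / 2 ^ y)) ≤ 2 * C * 1 :=
              mul_le_mul_of_nonneg_left h5 (by linarith)
          _ = 2 * C := mul_one _
      have hs : 1 / ((2 : ℝ) ^ y) ^ 2 ≤ 1 := by
        rw [div_le_one (by positivity)]
        exact one_le_pow₀ hy1
      have a2 : (2 : ℝ) ^ k * (1 / (2 ^ y) ^ 2 * (1 / (2 : ℝ) ^ (Pq 0 * J))) ≤ 1 := by
        have h1 : (2 : ℝ) ^ k * (1 / (2 ^ y) ^ 2 * (1 / (2 : ℝ) ^ (Pq 0 * J))) =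
            (1 / (2 ^ y) ^ 2) * (2 ^ k / (2 : ℝ) ^ (Pq 0 * J)) := by ring
        rw [h1]
        refine mul_le_one₀ hs (by positivity) ?_
        rw [div_le_one p0]
        exact e0
      have a3 : (2 : ℝ) ^ k * (1 / (2 ^ y) ^ 2 * (2 ^ g1 / 2 ^ W₀ * (1 / (2 : ℝ) ^ (Pq 1 * J)))) ≤
          1 := by
        have h1 : (2 : ℝ) ^ k * (1 / (2 ^ y) ^ 2 * (2 ^ g1 / 2 ^ W₀ *
            (1 / (2 : ℝ) ^ (Pq 1 * J)))) = (1 / (2 ^ y) ^ 2) *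
              (2 ^ k * 2 ^ g1 / ((2 : ℝ) ^ (Pq 1 * J) * 2 ^ W₀)) := by
          field_simp
        rw [h1]
        refine mul_le_one₀ hs (by positivity) ?_
        rw [div_le_one (by positivity)]
        exact e1
      have h5 : 2 + (2 : ℝ) ^ k * (1 / (2 ^ y) ^ 2 * (2 * (C * 2 ^ y) / 2 ^ d +
          1 / (2 : ℝ) ^ (Pq 0 * J) + 2 ^ g1 / 2 ^ W₀ * (1 / (2 : ℝ) ^ (Pq 1 * J)))) =
          2 + (2 : ℝ) ^ k * (1 / (2 ^ y) ^ 2 * (2 * (C * 2 ^ y) / 2 ^ d)) +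
            (2 : ℝ) ^ k * (1 / (2 ^ y) ^ 2 * (1 / (2 : ℝ) ^ (Pq 0 * J))) +
            (2 : ℝ) ^ k * (1 / (2 ^ y) ^ 2 * (2 ^ g1 / 2 ^ W₀ * (1 / (2 : ℝ) ^ (Pq 1 * J)))) := by
        ring
      rw [h5]
      linarith
  have hlog : Real.log ((4 + 2 * C) + 1) ≤ (y + 3 : ℕ) * Real.log 2 := by
    rw [← Real.log_pow]
    refine Real.log_le_log (by linarith) ?_
    rw [pow_add]
    linarith
  refine le_trans ?_ (free_all hB le_rfl (Nat.le_add_right (W₀ + d) k) hw' hw'J L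
    (u := ul c f Pq) (D := D₁) (κ := κ) (f := 3 * ((y + 3 : ℕ) * Real.log 2))
    (fun V z V' z' h1 h2 => hfr V z V' z' h1 h2 _ hlab) (fun V z _ => ?_) hyy hz)
  · exact le_rfl
  · refine (CH_mono_cond hn fun ω ω' _ _ e => (Prod.ext_iff.mp e).1).trans (hfew.trans ?_)
    linarith

end Pool.CLR73
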