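import Pool.Agent.H73.D2.Clrb

/-!
# The numbers of the closed chart with positions

`clr_lev`: the levels for a chart earlier than the digits.
-/

set_option autoImplicit false

namespace Pool.CLR73

open Finset Real MvPolynomial
open Pool.Agent.H49.Ent Pool.Agent.H32.Dense Pool.STK Pool.KA Pool.KSAT Pool.K2S Pool.PB Pool.S6C
open Pool.GEN Pool.CHT Pool.CHX Pool.D2Con Pool.D2A Pool.D2F Pool.RCD
open Pool.STB82 (LevN)

/-- The levels of the two places of slope one, a chart of an earlier window. -/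
theorem clr_lev {J k d y x W₀ g1 e₁ e₂ : ℕ} {A τ γ₀ C β0 β1 e₀ : ℝ} {a : ℚ}
    (H : A * ((y : ℝ) + x + 1) ≤ τ * k) (hC : C ≤ 2 ^ y) (hC0 : 0 ≤ C) (hτγ : τ ≤ γ₀)
    (hτ : τ ≤ 1) (hA9 : ((9 : ℕ) : ℝ) ≤ A) (hkd : k ≤ d) (aa : W₀ + d + k ≤ ⌊(a : ℝ) * J⌋₊)
    (l0 : ⌊β0 * J⌋₊ ≤ ⌊(a : ℝ) * J⌋₊ + x) (l1 : ⌊β1 * J⌋₊ + W₀ ≤ g1 + ⌊(a : ℝ) * J⌋₊ + x)
    (Wg : W₀ ≤ g1 + x) (e1 : e₁ + 1 ≤ e₂) (e2 : y + 2 * x + 6 ≤ e₂) (e2J : e₂ ≤ ⌊e₀ * J⌋₊)
    (J1 : e₂ + g1 + (d + k) + x + 4 ≤ J) :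
    LevN J β0 β1 a e₀ (W₀ + d + k) W₀ (d + k) d k g1 e₁ e₂ x (2 * y + 1) (y + 1)
      (2 ^ y) ((2 ^ y) ^ 2) ((((2 ^ k : ℕ) : ℝ)) ^ (-γ₀)) C := by
  have hA9' : (9 : ℝ) ≤ A := by exact_mod_cast hA9
  have hyk : 2 * y + 3 ≤ k := Pool.STB6.lin_nat H hτ (a := 2) (b := 0) (c := 3) (by omega)
    (by push_cast; linarith) (by push_cast; linarith) (by push_cast; linarith)
  refine ⟨by omega, by omega, aa, l0, l1, Wg, e1, by omega, e2J, by omega, J1, ?_, ?_, ?_, ?_⟩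
  · rw [← pow_mul, pow_succ, mul_comm y 2]
    exact (mul_comm _ _).le
  · exact Pool.STB6.vn_V H (by linarith) hτ
  · have h := Pool.STB6.vn_N H hA9' hτγ hτ
    have h1 : y + 1 + 2 * x + 6 = y + 2 * x + 7 := by ring
    rw [h1]
    exact h
  · refine le_trans (add_le_add ?_ le_rfl) (Pool.STB6.vn_Er' H hC (by linarith) hτ)
    refine div_le_div_of_nonneg_left (by positivity) (by positivity) ?_
    exact pow_le_pow_right₀ one_le_two hkd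

/-- The losses of the class. -/
theorem st_num {C J : ℕ} {u ur : ℝ} (hu : ((C : ℝ) + 1) * u ≤ ur / 8) (hu0 : 0 ≤ u)
    (hJ : 8 * ((C : ℝ) + 1) ≤ ur * J) : ((C * (⌊u * J⌋₊ + 1) : ℕ) : ℝ) ≤ ur * J / 4 := by
  have hJ0 : (0 : ℝ) ≤ J := Nat.cast_nonneg J
  have hC0 : (0 : ℝ) ≤ C := Nat.cast_nonneg C
  have h1 := Nat.floor_le (mul_nonneg hu0 hJ0)
  have h2 := mul_le_mul_of_nonneg_right hu hJ0
  have h3 : (C : ℝ) * ((⌊u * J⌋₊ : ℕ) : ℝ) ≤ C * (u * J) := mul_le_mul_of_nonneg_left h1 hC0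
  have h4 : 0 ≤ u * J := mul_nonneg hu0 hJ0
  push_cast
  linarith

/-- The size of the velocities. -/
theorem y_num {J st y : ℕ} {ur : ℝ} (hy : y = ⌊ur * J⌋₊) (hst : (st : ℝ) ≤ ur * J / 4)
    (hJ : 4 ≤ ur * J) : (2 : ℝ) ^ st * Real.exp (ur / 8 * J) ≤ 2 ^ y := by
  have hl2 : (1 / 2 : ℝ) ≤ Real.log 2 := by
    have := Real.log_two_gt_d9
    linarith
  have e1 : ∀ n : ℕ, (2 : ℝ) ^ n = Real.exp (n * Real.log 2) := fun n => by
    rw [mul_comm, Real.exp_mul, Real.exp_log two_pos, Real.rpow_natCast]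
  rw [e1, e1, ← Real.exp_add]
  refine Real.exp_le_exp.2 ?_
  have h1 : ur * J < y + 1 := hy ▸ Nat.lt_floor_add_one _
  have h2 : ur / 8 * J ≤ ur * J / 4 * Real.log 2 := by
    have : ur * J / 4 * (1 / 2) ≤ ur * J / 4 * Real.log 2 :=
      mul_le_mul_of_nonneg_left hl2 (by linarith)
    linarith
  have h3 : (st : ℝ) * Real.log 2 ≤ ur * J / 4 * Real.log 2 :=
    mul_le_mul_of_nonneg_right hst (by linarith)
  have h4 : ur * J / 2 * Real.log 2 ≤ y * Real.log 2 :=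
    mul_le_mul_of_nonneg_right (by linarith) (by linarith)
  linarith

/-- A sum of logarithms. -/
theorem lg_num {y x k : ℕ} {A τ e₀ ur J : ℝ} (H : A * ((y : ℝ) + x + 1) ≤ τ * k) (hA : 40 ≤ A)
    (hτ : τ ≤ e₀) (hy : ur * J < y + 1) :
    ((y : ℝ) + y) * Real.log 2 + 3 * Real.log (5 * ((2 : ℝ) ^ y) ^ 2 + 3) + 2 * (ur / 8) * J +
      4 * Real.log 3 ≤ e₀ * Real.log (((2 ^ k : ℕ) : ℝ)) := by
  have hl : 0 < Real.log 2 := Real.log_pos one_lt_two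
  have hl2 : (1 / 2 : ℝ) ≤ Real.log 2 := by
    have := Real.log_two_gt_d9
    linarith
  have hy0 : (0 : ℝ) ≤ y := Nat.cast_nonneg y
  have hx0 : (0 : ℝ) ≤ x := Nat.cast_nonneg x
  have hk0 : (0 : ℝ) ≤ k := Nat.cast_nonneg k
  rw [Pool.STB6.rp_log]
  have h1 : Real.log (5 * ((2 : ℝ) ^ y) ^ 2 + 3) ≤ (2 * y + 3) * Real.log 2 := by
    have e1 : ((2 * y + 3 : ℕ) : ℝ) * Real.log 2 = Real.log (2 ^ (2 * y + 3)) := by
      rw [Real.log_pow]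
    push_cast at e1
    rw [e1]
    refine Real.log_le_log (by positivity) ?_
    have h2 : (1 : ℝ) ≤ (2 ^ y) ^ 2 := one_le_pow₀ (one_le_pow₀ one_le_two)
    have h3 : (2 : ℝ) ^ (2 * y + 3) = 8 * (2 ^ y) ^ 2 := by
      rw [pow_add, ← pow_mul, mul_comm y 2]
      ring
    rw [h3]
    linarith
  have h2 : Real.log 3 ≤ 2 * Real.log 2 := by
    have e1 : 2 * Real.log 2 = Real.log (2 ^ 2) := by
      rw [Real.log_pow]
      norm_num
    rw [e1]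
    exact Real.log_le_log (by norm_num) (by norm_num)
  have h3 : 40 * ((y : ℝ) + x + 1) ≤ τ * k :=
    (mul_le_mul_of_nonneg_right hA (by linarith)).trans H
  have h4 : 40 * ((y : ℝ) + x + 1) * Real.log 2 ≤ τ * k * Real.log 2 :=
    mul_le_mul_of_nonneg_right h3 hl.le
  have h5 : τ * k * Real.log 2 ≤ e₀ * (k * Real.log 2) := by
    rw [mul_assoc]
    exact mul_le_mul_of_nonneg_right hτ (by positivity)
  have h6 : ur / 8 * J ≤ (y + 1) * Real.log 2 := by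
    have : (1 / 2 : ℝ) * (y + 1) ≤ Real.log 2 * (y + 1) :=
      mul_le_mul_of_nonneg_right hl2 (by linarith)
    linarith
  have h7 : 0 ≤ (x : ℝ) * Real.log 2 := by positivity
  have h8 : 0 ≤ (y : ℝ) * Real.log 2 := by positivity
  linarith

/-- The loss of the freeness. -/
theorem fr_num {y x k : ℕ} {A τ e₀ ur kr κf J : ℝ} (H : A * ((y : ℝ) + x + 1) ≤ τ * k)
    (hA : 40 ≤ A) (hτ0 : 0 < τ) (hτ : τ ≤ e₀) (hy : ur * J < y + 1) (hk : kr * J < k + 1)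
    (hk1 : 1 ≤ k) (hJ0 : 0 ≤ J) (hκ : κf ≤ τ * kr / 8) :
    κf * J + 3 * ((y + 3 : ℕ) * Real.log 2) + ur / 8 * J ≤ e₀ * Real.log (((2 ^ k : ℕ) : ℝ)) := by
  have hl : 0 < Real.log 2 := Real.log_pos one_lt_two
  have hl2 : (1 / 2 : ℝ) ≤ Real.log 2 := by
    have := Real.log_two_gt_d9
    linarith
  have hy0 : (0 : ℝ) ≤ y := Nat.cast_nonneg y
  have hx0 : (0 : ℝ) ≤ x := Nat.cast_nonneg x
  have hk0 : (1 : ℝ) ≤ k := by exact_mod_cast hk1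
  rw [Pool.STB6.rp_log]
  have h3 : 40 * ((y : ℝ) + x + 1) ≤ τ * k :=
    (mul_le_mul_of_nonneg_right hA (by linarith)).trans H
  have h4 : 40 * ((y : ℝ) + x + 1) * Real.log 2 ≤ τ * k * Real.log 2 :=
    mul_le_mul_of_nonneg_right h3 hl.le
  have h5 : τ * k * Real.log 2 ≤ e₀ * (k * Real.log 2) := by
    rw [mul_assoc]
    exact mul_le_mul_of_nonneg_right hτ (by positivity)
  have h6 : ur / 8 * J ≤ (y + 1) * Real.log 2 := by
    have : (1 / 2 : ℝ) * (y + 1) ≤ Real.log 2 * (y + 1) :=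
      mul_le_mul_of_nonneg_right hl2 (by linarith)
    linarith
  have h7 : 0 ≤ (x : ℝ) * Real.log 2 := by positivity
  have h8 : 0 ≤ (y : ℝ) * Real.log 2 := by positivity
  have h9 : κf * J ≤ τ * k * Real.log 2 / 2 := by
    have h1 : κf * J ≤ τ * kr / 8 * J := mul_le_mul_of_nonneg_right hκ hJ0
    have h2 : τ * (kr * J) ≤ τ * (2 * k) := mul_le_mul_of_nonneg_left (by linarith) hτ0.le
    have h3' : τ * k * (1 / 2) ≤ τ * k * Real.log 2 :=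
      mul_le_mul_of_nonneg_left hl2 (by positivity)
    have : τ * kr / 8 * J = τ * (kr * J) / 8 := by ring
    linarith
  push_cast
  linarith

end Pool.CLR73
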