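import Pool.Agent.H73.D2.Clrn

/-!
# The closed polynomials of families of values, at two windows of a class

`CloC`: every family of closed values, few given the near position, polynomial along the lines, has exactly
closed polynomials. `clr_cls`: the geometric data and `CloC`, from nodes at an earlier window, fullness of
`c 0`, `c 1`, the thresholds and the freeness of the velocities.
-/

set_option autoImplicit false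

namespace Pool.CLR73

open Finset Real MvPolynomial
open Pool.Agent.H49.Ent Pool.Agent.H32.Dense Pool.STK Pool.KA Pool.KSAT Pool.K2S Pool.PB Pool.S6C
open Pool.GEN Pool.CHT Pool.CHX Pool.D2Con Pool.D2A Pool.D2F Pool.RCD
open Pool.STB (V3 Po Bx cv PosR posR_of cnt_int)
open Pool.STB77 (NodF)
open Pool.STB82 (yv hgP yp inp_cls Fst cond_pos_B dg LevN)
open Pool.STB65 (InpP PosO pos_ev)
open Pool.STA37 (LowP low_cls mx_fst)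
open Pool.LA91 (qG Mx FulC)
open Pool.LBT (ThrOf)
open Pool.BFL (Pb)
open Pool.CLO80 (CloO clo_cls)
open Pool.RCD (vg)

/-- **The closed polynomials of families of values**: every family of `q` closed values at the window `W + k`,
bounded, few given the position `xo` and the record of the window `W`, polynomial of degree `N` along the
lines, has exactly closed polynomials of the window `W`. -/
def CloC {m J : ℕ} (F : Fam m J) (B : F.Ω → Prop) (W k N q : ℕ) (c₀ κ γ e₀ cc : ℝ)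
    (xo : F.Ω → V3) : Prop :=
  ∀ (Vo : ℕ → F.Ω → ℝ) (Q : ℕ → LnT F → Polynomial ℝ),
    (∀ j < q, Cl2 (slam F (W + k)) (fun ω => ptr F J ω) B (Vo j)) →
    (∀ j < q, ∀ ω, B ω → |Vo j ω| ≤ ((2 ^ k : ℕ) : ℝ) ^ e₀) →
    (∀ j < q, ∀ l, (Q j l).natDegree ≤ N) →
    (∀ j < q, ∀ l (s : ℝ), |s| ≤ 2 → |(Q j l).eval s| ≤ ((2 ^ k : ℕ) : ℝ) ^ e₀) →
    (∀ j < q, Pb (Pool.Agent.H49.Ent.cond F.p B True) (fun ω =>
      ¬ |Vo j ω - (Q j (slam F W ω)).eval ((dg F W k ω : ℝ) /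
        ((2 ^ k : ℕ) : ℝ))| ≤ ((2 ^ k : ℕ) : ℝ) ^ e₀ / ((2 ^ k : ℕ) : ℝ)) ≤ cc) →
    (∀ j < q, ∀ (Y : Type) (y : F.Ω → Y), Fst (slam F W) (fun ω => ptr F J ω) B y →
      CH (Pool.Agent.H49.Ent.cond F.p B True) (fun ω => ⌊((2 ^ k : ℕ) : ℝ) * Vo j ω⌋)
        (fun ω => (cv (2 ^ k) (xo ω), y ω)) ≤ e₀ * Real.log ((2 ^ k : ℕ) : ℝ)) →
    ∃ (B' : F.Ω → Prop) (fG : ℕ → PtT F → Po) (fL : ℕ → LnT F → Po),
      CloO F B B' W N q ((2 ^ k : ℕ) : ℝ) c₀ κ γ xo Vo fG fL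

/-- **The geometric data and the closed polynomials**, class form. -/
theorem clr_cls (D : ℕ) : ∃ C K₁ : ℕ, ∀ (N q' : ℕ) {c₀ κ : ℝ}, 0 < c₀ → 0 < κ →
    ∃ γ e₀ cc A τ : ℝ, 0 < γ ∧ 0 < e₀ ∧ 0 < cc ∧ 1 ≤ A ∧ 0 < τ ∧ τ ≤ 1 ∧
    ∀ {m : ℕ} {θ : ℝ} {S : PCl m} {P : List (Fin m) × Fin m → ℝ → ℝ → ℝ}
      (_ : ThrOf (chsys m θ) S P) (_ : TmH S) (_ : 0 < θ) (c : ℕ → Fin m)
      (_ : Set.InjOn c (Set.Iio 3)) {β : ℕ → ℝ → ℝ → ℝ} {e E w t₁ aw kr ur s₀ s eb h : ℝ} {a : ℚ}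
      {sf : ℕ → ℝ} (_ : 2 * ur ≤ w) (_ : NodF S c 2 D β e E w w) (_ : 0 ≤ e) (_ : 0 ≤ s₀)
      (_ : β 0 w w ≤ w + s₀) (_ : w ≤ β 0 w w + s₀) (_ : w ≤ β 1 w w) (_ : 0 < s) (_ : 0 < ur)
      (_ : 0 < kr) (_ : ((C : ℝ) + 1) * (s₀ + 3 * s) ≤ ur / 8) (_ : 8 * A * ur ≤ τ * kr)
      (_ : w + kr < t₁) (_ : t₁ + kr ≤ aw) (_ : aw ≤ a) (_ : (a : ℝ) ≤ 1)
      (_ : FulC S c 0 2 t₁ sf) (_ : sf 0 ≤ t₁ + ur / 4) (_ : sf 1 ≤ β 1 w w + (t₁ - w) + ur / 4)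
      (_ : 0 < h) (_ : bet P c 0 a a + h ≤ a + ur / 2)
      (_ : bet P c 1 a a + h ≤ β 1 w w + (a - w) + ur / 2) (_ : bet P c 0 a a + h ≤ 1)
      (_ : bet P c 1 a a + h ≤ 1) (_ : eb < θ * a) (_ : e + 8 * ur ≤ eb)
      (_ : eb + β 1 w w + (aw - w) + 2 * ur < 1) (_ : aw + 2 * ur < 1) {sn : ℕ → ℝ → ℝ}
      {Pq : Fin 2 → ℝ} {eF κf : ℝ} (_ : 0 < eF) (_ : sn 0 w + ur ≤ w)
      (_ : sn 1 w + 2 * ur ≤ β 1 w w) (_ : kr ≤ Pq 0) (_ : kr + β 1 w w ≤ Pq 1 + w)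
      (_ : ∀ i, Pq i ≤ 1) (_ : κf ≤ τ * kr / 8)
      (_ : ∃ k₂ : ℝ, 0 < k₂ ∧ ∀ Kf : ℕ, Bas S (fun J F A =>
        ∀ (V : Type) (z : F.Ω → V) (V' : Type) (z' : F.Ω → V'),
        Mx (fun J F => ptr F J) (vg t₁) k₂ F A z → Mx (fun J F => ptr F J) (vg aw) k₂ F A z' →
        ∀ u, (qG m c 2 sn w Pq).P Kf eF J F A u →
        CH (Pool.Agent.H49.Ent.cond F.p A True) u (fun ω => (z ω, F.W ω)) ≤
          CH (Pool.Agent.H49.Ent.cond F.p A True) u (fun ω => (z' ω, F.W ω)) + κf * J)),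
      ∃ c₁ : ℝ, 0 < c₁ ∧ ∀ c₂ : ℝ, 0 < c₂ → Bas S (fun J F A => ∃ B : F.Ω → Prop, Sub B A ∧
        c₁ * Pe F.p A ≤ Pe F.p B ∧ ∃ (d g1 e₁ y : ℕ) (Kp : ℝ)
        (Pv : PtT F → MvPolynomial (Option (Fin m)) ℝ)
        (Pl : LnT F → MvPolynomial (Option (Fin m)) ℝ) (yt : PtT F → V3) (ctr xo : ℕ → F.Ω → V3)
        (D₁ : LnT F → V3), ClR F c B K₁ ⌊w * J⌋₊ d ⌊kr * J⌋₊ g1 e₁ y Kp Pv Pl yt ctr xo D₁ ∧
        ⌊w * J⌋₊ + d = ⌊t₁ * J⌋₊ ∧ ⌊kr * J⌋₊ ≤ d ∧ (y : ℝ) ≤ ur * J ∧ 1 ≤ y ∧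
        Kp ≤ ((2 ^ ⌊kr * J⌋₊ : ℕ) : ℝ) ^ e₀ ∧
        (g1 : ℝ) ≤ β 1 w w * J ∧ β 1 w w * J ≤ g1 + ur * J ∧ (e₁ : ℝ) ≤ (e + ur) * J ∧
        ⌊t₁ * J⌋₊ + ⌊kr * J⌋₊ ≤ ⌊aw * J⌋₊ ∧ e₁ + g1 + (d + ⌊kr * J⌋₊) + 4 ≤ J ∧
        ∀ B₂ : F.Ω → Prop, Sub B₂ B → c₂ * Pe F.p A ≤ Pe F.p B₂ →
          CloC F B₂ ⌊t₁ * J⌋₊ ⌊kr * J⌋₊ N q' c₀ κ γ e₀ cc (xo 0)) := by
  classical
  obtain ⟨C, K₁, hDK, hch⟩ := ch1_cls D
  obtain ⟨C₄, hC₄, hpos⟩ := pos_ev (K₁ + 1)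
  obtain ⟨C₅, hC₅, hfre⟩ := clr_free K₁
  refine ⟨C, K₁, ?_⟩
  intro N q' c₀ κ hc₀ hκ
  obtain ⟨γ, γ₀, e₀, cc, Cl, k₀, hγ, hγ₀, he₀, hcc, hCl, hclo⟩ := clo_cls N q' K₁ hc₀ hκ
  obtain ⟨τ, hτ⟩ : ∃ τ : ℝ, τ = min (min γ₀ e₀) 1 := ⟨_, rfl⟩
  have hτ0 : 0 < τ := hτ ▸ lt_min (lt_min hγ₀ he₀) one_pos
  have hτ1 : τ ≤ 1 := hτ ▸ min_le_right _ _
  have hτγ : τ ≤ γ₀ := hτ ▸ (min_le_left _ _).trans (min_le_left _ _)
  have hτe : τ ≤ e₀ := hτ ▸ (min_le_left _ _).trans (min_le_right _ _)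
  refine ⟨γ, e₀, cc, 40, τ, hγ, he₀, hcc, by norm_num, hτ0, hτ1, ?_⟩
  intro m θ S P hP hS hθ c hinj β e E w t₁ aw kr ur s₀ s eb h a sf huw hN he hs₀ b1 b2 b3 hs hur hkr
    hCs hAur hwt hta haa ha1 hful hf0 hf1 hh hb0 hb1 hb0' hb1' hebθ heb hroom hroom2 sn Pq eF κf heF
    hsn0 hsn1 hP0 hP1 hPq hκf hfree
  have hC0 : (0 : ℝ) ≤ C := Nat.cast_nonneg C
  have hw0 : 0 ≤ w := by linarith
  have hkt : 0 < t₁ - w - kr := by linarith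
  have hw1 : w < 1 := by linarith
  have ht1 : t₁ ≤ 1 := by linarith
  have ha0 : (0 : ℝ) < a := by linarith
  have haq0 : 0 < a := by exact_mod_cast ha0
  have haq1 : a ≤ 1 := by exact_mod_cast ha1
  have hs24 : 3 * s ≤ ur / 8 := by
    have h1 : 1 * (s₀ + 3 * s) ≤ ((C : ℝ) + 1) * (s₀ + 3 * s) :=
      mul_le_mul_of_nonneg_right (by linarith) (by linarith)
    linarith
  have hsw : s ≤ w := by linarith
  obtain ⟨Kc, δ, hKc, hδ0, hδs, hch⟩ := hch hS hinj hw0 hw1 hN hs₀ b1 b2 b3 hs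
  have hinp := inp_cls hS K₁ (ε := ur / 8) (w := w) Kc (by positivity) hw1
  obtain ⟨c₁, hc₁⟩ : ∃ c₁ : ℝ, c₁ = 1 / (8 * Kc) := ⟨_, rfl⟩
  have hc₁0 : 0 < c₁ := by rw [hc₁]; positivity
  obtain ⟨k₂, hk₂, hfree⟩ := hfree
  have hcloS := hclo (m := m) (θ := θ) (S := S) (P := P) hP hS c (a := a) (eb := eb) (h := h) haq0 haq1
    hθ hebθ hh hb0' hb1' (a' := t₁) (sf := sf) ht1 hful (ε := ur / 8) (by positivity)
  have hlow := low_cls hS ht1 hful (show 0 < ur / 8 by positivity)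
  refine ⟨c₁, hc₁0, fun c₂ hc₂ => ?_⟩
  -- large numbers
  obtain ⟨cb, hcb⟩ : ∃ cb : ℕ, C₄ + 7 + C₅ + Cl ≤ (2 : ℝ) ^ cb :=
    (pow_unbounded_of_one_lt _ one_lt_two).imp fun _ h => h.le
  obtain ⟨N₁, hN₁⟩ : ∃ N₁ : ℕ, N₁ = 8 * (C + 1) + 112 + cb + k₀ := ⟨_, rfl⟩
  obtain ⟨J₁, hJ₁⟩ := exists_nat_ge (((N₁ : ℝ) + 2) / ur)
  obtain ⟨J₂, hJ₂⟩ := exists_nat_ge (((N₁ : ℝ) + 100 / τ) / kr)
  obtain ⟨J₃, hJ₃⟩ := exists_nat_ge (3 / (t₁ - w - kr))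
  obtain ⟨J₄, hJ₄⟩ := exists_nat_ge (3 / δ)
  obtain ⟨J₅, hJ₅⟩ := exists_nat_ge (3 / eF)
  obtain ⟨Kf, hKf⟩ : ∃ Kf : ℕ, Kf = K₁ + 5 := ⟨_, rfl⟩
  have hall := (hch.and hinp).and (Pool.LBK.Bas.ev ((hcloS.and hlow).and (hfree Kf)) hc₂)
  refine Bas.mono (max (max J₁ J₂) (max J₃ (max J₄ J₅)) + 1) hall ?_
  rintro J hJ F A ⟨⟨⟨B₀, xP, xH, pP, pH, hB₀, hP₀, p1, p2, p3, p4, p5, p6, p7, p8, p9⟩, hI⟩, hEv⟩
  -- the size of `J`
  have hJn : 1 ≤ J := by omega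
  have hJr : (1 : ℝ) ≤ J := by exact_mod_cast hJn
  have hJ0 : (0 : ℝ) ≤ J := by linarith
  have j1 : ((J₁ : ℕ) : ℝ) ≤ J := by exact_mod_cast (show J₁ ≤ J by omega)
  have j2 : ((J₂ : ℕ) : ℝ) ≤ J := by exact_mod_cast (show J₂ ≤ J by omega)
  have j3 : ((J₃ : ℕ) : ℝ) ≤ J := by exact_mod_cast (show J₃ ≤ J by omega)
  have j4 : ((J₄ : ℕ) : ℝ) ≤ J := by exact_mod_cast (show J₄ ≤ J by omega)
  have j5 : ((J₅ : ℕ) : ℝ) ≤ J := by exact_mod_cast (show J₅ ≤ J by omega)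
  have d1 : (N₁ : ℝ) + 2 ≤ ur * J := by
    have := hJ₁.trans j1
    rwa [div_le_iff₀ hur, mul_comm] at this
  have d2 : (N₁ : ℝ) + 100 / τ ≤ kr * J := by
    have := hJ₂.trans j2
    rwa [div_le_iff₀ hkr, mul_comm] at this
  have d3 : 3 ≤ (t₁ - w - kr) * J := by
    have := hJ₃.trans j3
    rwa [div_le_iff₀ hkt, mul_comm] at this
  have d4 : 3 ≤ δ * J := by
    have := hJ₄.trans j4
    rwa [div_le_iff₀ hδ0, mul_comm] at this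
  have d5 : 3 ≤ eF * J := by
    have := hJ₅.trans j5
    rwa [div_le_iff₀ heF, mul_comm] at this
  have hN1r : (N₁ : ℝ) = 8 * (C + 1) + 112 + cb + k₀ := by
    rw [hN₁]
    push_cast
    ring
  have hcb0 : (0 : ℝ) ≤ cb := Nat.cast_nonneg _
  have hk₀0 : (0 : ℝ) ≤ k₀ := Nat.cast_nonneg _
  -- the numbers
  obtain ⟨y, hy⟩ : ∃ y, y = ⌊ur * (J : ℝ)⌋₊ := ⟨_, rfl⟩
  obtain ⟨k, hk⟩ : ∃ k, k = ⌊kr * (J : ℝ)⌋₊ := ⟨_, rfl⟩
  obtain ⟨W₀, hW₀⟩ : ∃ W₀, W₀ = ⌊w * (J : ℝ)⌋₊ := ⟨_, rfl⟩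
  obtain ⟨g1, hg1⟩ : ∃ g1, g1 = ⌊(β 1 w w - δ) * (J : ℝ)⌋₊ := ⟨_, rfl⟩
  obtain ⟨st, hst⟩ : ∃ st, st = C * (⌊(s₀ + 3 * s) * (J : ℝ)⌋₊ + 1) := ⟨_, rfl⟩
  obtain ⟨T₁, hT₁⟩ : ∃ T₁, T₁ = ⌊t₁ * (J : ℝ)⌋₊ := ⟨_, rfl⟩
  obtain ⟨ea, hea⟩ : ∃ ea, ea = ⌊e * (J : ℝ)⌋₊ := ⟨_, rfl⟩
  have y1 : (y : ℝ) ≤ ur * J := hy ▸ Nat.floor_le (by positivity)
  have y2 : ur * J < y + 1 := hy ▸ Nat.lt_floor_add_one _
  have k1 : (k : ℝ) ≤ kr * J := hk ▸ Nat.floor_le (by positivity)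
  have k2 : kr * J < k + 1 := hk ▸ Nat.lt_floor_add_one _
  have w1 : (W₀ : ℝ) ≤ w * J := hW₀ ▸ Nat.floor_le (by positivity)
  have w2 : w * J < W₀ + 1 := hW₀ ▸ Nat.lt_floor_add_one _
  have hβ0 : 0 ≤ β 1 w w - δ := by linarith only [hδs, hsw, b3]
  have hβJ : 0 ≤ (β 1 w w - δ) * (J : ℝ) := mul_nonneg hβ0 hJ0
  have g1u : (g1 : ℝ) ≤ β 1 w w * J - δ * J := by
    rw [← sub_mul]
    exact hg1 ▸ Nat.floor_le hβJ
  have g1l : β 1 w w * J - δ * J < g1 + 1 := by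
    rw [← sub_mul]
    exact hg1 ▸ Nat.lt_floor_add_one _
  have T1 : (T₁ : ℝ) ≤ t₁ * J := hT₁ ▸ Nat.floor_le (mul_nonneg (by linarith only [hwt, hw0, hkr]) hJ0)
  have T2 : t₁ * J < T₁ + 1 := hT₁ ▸ Nat.lt_floor_add_one _
  have E1 : (ea : ℝ) ≤ e * J := hea ▸ Nat.floor_le (mul_nonneg he hJ0)
  have hN1C : 8 * ((C : ℝ) + 1) ≤ ur * J := by linarith only [d1, hN1r, hcb0, hk₀0]
  have hN120 : 120 ≤ ur * J := by linarith only [d1, hN1r, hcb0, hk₀0, hC0]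
  have S1 : (st : ℝ) ≤ ur * J / 4 := hst ▸ st_num hCs (by linarith only [hs₀, hs]) hN1C
  have hsJ : δ * J ≤ ur * J / 24 := by
    have h1 : δ * J ≤ ur / 24 * J := mul_le_mul_of_nonneg_right (by linarith only [hδs, hs24]) hJ0
    linarith only [h1]
  have haw0 : 0 ≤ aw := by linarith only [hta, hwt, hw0, hkr]
  have heb0 : 0 ≤ eb := by linarith only [heb, he, hur]
  have M := clm_of (J := J) (e₂ := ⌊eb * (J : ℝ)⌋₊) (Ta := ⌊aw * (J : ℝ)⌋₊) (aJ := aw * J)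
    (xJ := eb * J) y1 y2 k1 w1 w2 g1u g1l T1 T2 E1 S1 (Nat.floor_le (mul_nonneg haw0 hJ0))
    (Nat.lt_floor_add_one _) (Nat.floor_le (mul_nonneg heb0 hJ0)) (Nat.lt_floor_add_one _) hN120 hsJ
    (by
      have e3 : (t₁ - w - kr) * J = t₁ * J - w * J - kr * J := by ring
      linarith only [d3, e3]) (by
      have h1 := mul_le_mul_of_nonneg_right hta hJ0
      linarith only [h1]) (by
      have h1 := mul_le_mul_of_nonneg_right heb hJ0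
      linarith only [h1]) (by
      have h1 := mul_le_mul_of_nonneg_right hroom.le hJ0
      linarith only [h1]) (by
      have h1 := mul_le_mul_of_nonneg_right hroom2.le hJ0
      linarith only [h1]) (mul_le_mul_of_nonneg_right b3 hJ0) (by linarith only [d4])
  obtain ⟨d, hd⟩ : ∃ d, d = T₁ - W₀ := ⟨_, rfl⟩
  obtain ⟨e₁, he₁⟩ : ∃ e₁, e₁ = st + ea := ⟨_, rfl⟩
  obtain ⟨e₂, he₂⟩ : ∃ e₂, e₂ = ⌊eb * (J : ℝ)⌋₊ := ⟨_, rfl⟩
  obtain ⟨Ta, hTa⟩ : ∃ Ta, Ta = ⌊aw * (J : ℝ)⌋₊ := ⟨_, rfl⟩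
  rw [← hd, ← he₁, ← he₂, ← hTa] at M
  have hy112 : 108 * 1 + 4 ≤ y := by
    refine nat_le ?_
    push_cast
    linarith only [hN120, y2]
  have hky : 100 / τ + k₀ ≤ k + 1 := by linarith only [d2, hN1r, hcb0, hk₀0, hC0, k2]
  have hkk₀ : k₀ ≤ k := by
    refine nat_le ?_
    have : 0 < 100 / τ := by positivity
    linarith only [hky, this]
  have hk100 : 100 ≤ τ * (k + 1) := by
    have h1 : 100 / τ ≤ k + 1 := by linarith only [hky, hk₀0]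
    rw [div_le_iff₀ hτ0] at h1
    linarith only [h1]
  have H : 40 * ((y : ℝ) + y + 1) ≤ τ * k := by
    have h1 := mul_le_mul_of_nonneg_right hAur hJ0
    have h2 : τ * (kr * J) ≤ τ * (k + 1) := mul_le_mul_of_nonneg_left k2.le hτ0.le
    have h3 : τ * kr * J = τ * (kr * J) := by ring
    linarith only [h1, h2, h3, y1, hk100, hτ1]
  have hk2 : 2 ≤ k := by
    refine nat_le ?_
    have h1 : τ * (k + 1) ≤ 1 * ((k : ℝ) + 1) := mul_le_mul_of_nonneg_right hτ1 (by positivity)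
    push_cast
    linarith only [h1, hk100]
  have hcby : C₄ + 7 + C₅ + Cl ≤ 2 ^ y := by
    refine hcb.trans (pow_le_pow_right₀ one_le_two (nat_le ?_))
    linarith only [d1, hN1r, hk₀0, hC0, y2]
  have cy4 : C₄ ≤ 2 ^ y := by linarith only [hcby, hC₅, hCl]
  have cy47 : C₄ + 7 ≤ 2 ^ y := by linarith only [hcby, hC₅, hCl]
  have cy5 : C₅ ≤ 2 ^ y := by linarith only [hcby, hC₄, hCl]
  have cyl : Cl ≤ 2 ^ y := by linarith only [hcby, hC₅, hC₄]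
  have hy0 : (0 : ℝ) < 2 ^ y := by positivity
  have hy1' : (1 : ℝ) ≤ 2 ^ y := one_le_pow₀ one_le_two
  have hsty : st ≤ y := by
    refine nat_le ?_
    linarith only [S1, y2, hN120]
  have hpsty : (2 : ℝ) ^ st ≤ 2 ^ y := pow_le_pow_right₀ one_le_two hsty
  -- the positions
  rw [← hst] at p6 p8 p9
  rw [← hW₀] at p5 p7 p8 p9
  rw [← hg1] at p6
  rw [← hea] at p9
  have hJd : (1 : ℝ) / 2 ^ J ≤ 1 / 2 ^ W₀ := by
    refine one_div_le_one_div_of_le (by positivity) (pow_le_pow_right₀ one_le_two ?_)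
    have h1 := M.Wd
    have h2 := M.kw
    have h3 := M.wJ
    omega
  have hWdk : W₀ + d + 1 * k ≤ J := by
    have h1 := M.Wd
    have h2 := M.kw
    have h3 := M.wJ
    omega
  obtain ⟨B₁, hB₁, hP₁, hPA₀, I₁⟩ := hI B₀ c W₀ d k 1 g1 e₁ st (2 ^ y) pP pH hB₀ hP₀ w1 p2 p3 p5
    (fun ω hω r hr => by
      rw [he₁]
      refine p9 ω hω _ ?_ ?_
      · rw [Function.update_of_ne (by simp)]
        show |F.t ω - F.t ω| ≤ _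
        rw [sub_self, abs_zero]
        positivity
      · rw [Function.update_self]
        have e1 : bt F ω (some (c 0)) + r - F.x ω (c 0) = r := by
          show F.x ω (c 0) + r - F.x ω (c 0) = r
          ring
        rw [e1]
        exact hr.trans hJd) p6 (y_num hy S1 (by linarith only [hN120])) M.i1 hWdk
  have hsig := Pool.STB6.vn_sig (n := 1) hy112
  obtain ⟨B₂, ctr, xo, D₁, hB₂, hP₂, O₂⟩ := hpos F B₁ W₀ d k 1 (2 ^ y) ((2 ^ y) ^ 2)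
    (yv F c W₀ g1 pH) _ (hgP c W₀ g1 pH) I₁ hWdk M.kd hk2 hy1' hsig.1 hsig.2
  have hB₂0 : Sub B₂ B₀ := fun ω hω => hB₁ ω (hB₂ ω hω)
  have hPB : c₁ * Pe F.p A ≤ Pe F.p B₂ := by
    rw [hc₁, div_mul_eq_mul_div, one_mul, div_le_iff₀ (by positivity)]
    have h1 : Kc * Pe F.p B₀ ≤ Kc * (8 * Pe F.p B₂) :=
      mul_le_mul_of_nonneg_left (by linarith only [hP₁, hP₂]) hKc.le
    linarith only [hP₀, h1]
  have hR : ClR F c B₂ K₁ W₀ d k g1 e₁ y (C₄ * 2 ^ y + 7) pP pH (yp F c W₀ g1 pP) ctr xo D₁ :=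
    { inp := I₁.sub hB₂
      pos := O₂
      Pd := p1
      Ld := p2
      Pp := p3
      Lp := p4
      Pc := fun ω hω => p5 ω (hB₂0 ω hω)
      Pg := fun ω hω b h1 h2 => by
        rw [he₁]
        exact p9 ω (hB₂0 ω hω) b h1 h2
      Pn := fun ω hω => (p6 ω (hB₂0 ω hω)).trans
        (div_le_div_of_nonneg_right hpsty (by positivity)) }
  have hKp : C₄ * 2 ^ y + 7 ≤ ((2 ^ k : ℕ) : ℝ) ^ e₀ := by
    refine le_trans ?_ (Pool.STB6.vn_CY' H cy47 (by norm_num) hτe)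
    linarith only [hy1']
  rw [← hk, ← hW₀, ← hT₁, ← hTa]
  refine ⟨B₂, fun ω hω => hB₀ ω (hB₂0 ω hω), hPB, d, g1, e₁, y, C₄ * 2 ^ y + 7, pP, pH, _, ctr, xo,
    D₁, hR, M.Wd, M.kd, y1, by omega, hKp, by linarith only [g1u, d4], by
      linarith only [g1l, hsJ, hN120], by
      rw [he₁]
      push_cast
      linarith only [S1, E1, hN120], M.kw, by
      have h1 := M.L1
      have h2 := M.e12
      omega, fun B₃ hB₃ hP₃ => ?_⟩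
  have hB₃A : Sub B₃ A := fun ω hω => hB₀ ω (hB₂0 ω (hB₃ ω hω))
  obtain ⟨⟨⟨hPB₃, hC⟩, -, hL⟩, hF⟩ := hEv B₃ hB₃A hP₃
  have hR₃ := hR.sub hB₃
  have hWdT := M.Wd
  have hkw := M.kw
  have hwJ := M.wJ
  have uJ2 : 2 * (ur * J) ≤ w * J := by
    have h1 := mul_le_mul_of_nonneg_right huw hJ0
    linarith only [h1]
  have bJ2 : w * J ≤ β 1 w w * J := mul_le_mul_of_nonneg_right b3 hJ0
  have hfreeB := hfre (w' := Ta) (Kf := Kf) (sf := sf) (r := ur / 8 * J) (κ := κf * J) (eF := eF)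
    (bb := w) (sn := sn) (Pq := Pq) hPB₃ hR₃ (fun ω hω => p7 ω (hB₂0 ω (hB₃ ω hω)))
    (fun ω hω => (p8 ω (hB₂0 ω (hB₃ ω hω))).trans
      (div_le_div_of_nonneg_right hpsty (by positivity))) hJn M.yJ (by omega) (by omega) hPq hW₀ (by
      rw [hW₀]
      refine fl_add (b := 0) ?_ ?_
      · have h1 := mul_le_mul_of_nonneg_right hsn0 hJ0
        push_cast
        linarith only [h1, d5, y1]
      · push_cast
        linarith only [uJ2, y1, hN120]) (by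
      rw [hg1]
      refine fl_add (b := 0) ?_ ?_
      · have h1 := mul_le_mul_of_nonneg_right hsn1 hJ0
        push_cast
        linarith only [h1, d5, y1, hsJ, hN120]
      · push_cast
        linarith only [uJ2, y1, hN120, bJ2, hsJ]) (k1.trans (mul_le_mul_of_nonneg_right hP0 hJ0)) (by
      have h1 := mul_le_mul_of_nonneg_right hP1 hJ0
      linarith only [h1, k1, g1u, w2, d4]) M.kd cy5 (by omega) hwJ
    (hL (W₀ + d) (by rw [hWdT, hT₁])) (fun V z V' z' hz hz' u hu =>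
      hF V z V' z' (mx_fst hk₂.le (by rw [hWdT, hT₁]) hz) (mx_fst hk₂.le hTa.symm hz') u hu)
  rw [← hWdT]
  intro Vo Q a1 a2 a3 a4 a5 a6
  refine hC W₀ d k g1 e₁ e₂ y (2 * y + 1) (y + 1) (2 ^ y) ((2 ^ y) ^ 2) (C₄ * 2 ^ y + 7) y y pP pH
    _ ctr xo D₁ hR₃.inp hR₃.pos hKp (by positivity) hy0.le p1 p3 hR₃.Pc hR₃.Pg (by omega) hkk₀
    (clr_lev H cyl (by linarith only [hCl]) hτγ hτ1 (by norm_num) M.kd ?_ ?_ ?_ M.Wg M.e12 M.e2y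
      he₂.le M.L1) (by rw [hWdT, hT₁]) ?_ ?_ (lg_num H le_rfl hτe y2) (by positivity) ?_ Vo Q a1 a2 a3
    a4 a5 a6
  · have h1 : Ta ≤ ⌊(a : ℝ) * J⌋₊ := by
      rw [hTa]
      exact Nat.floor_le_floor (mul_le_mul_of_nonneg_right haa hJ0)
    omega
  · have h1 := mul_le_mul_of_nonneg_right hb0 hJ0
    have h2 : 0 ≤ (a : ℝ) * J := by positivity
    refine fl_add (a := 0) ?_ ?_
    · push_cast
      linarith only [h1, y2, hN120]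
    · push_cast
      linarith only [h2, y2, hN120]
  · have h1 := mul_le_mul_of_nonneg_right hb1 hJ0
    have h2 : 0 ≤ (a : ℝ) * J := by positivity
    have h3 : w * J ≤ a * J := mul_le_mul_of_nonneg_right (by linarith only [hwt, hta, haa, hkr]) hJ0
    have h4 : ⌊(bet P c 1 a a + h) * J⌋₊ + W₀ ≤ ⌊(a : ℝ) * J⌋₊ + (g1 + y) := by
      refine fl_add ?_ ?_
      · push_cast
        linarith only [h1, y2, hN120, g1l, w1, hsJ]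
      · push_cast
        linarith only [h3, w1, hN120, y2, g1l]
    omega
  · have h1 := mul_le_mul_of_nonneg_right hf0 hJ0
    have h2 : ((W₀ + d : ℕ) : ℝ) = T₁ := by rw [hWdT]
    push_cast at h2
    linarith only [h1, h2, T2, y2, hN120]
  · have h1 := mul_le_mul_of_nonneg_right hf1 hJ0
    have h2 : ((W₀ + d : ℕ) : ℝ) = T₁ := by rw [hWdT]
    push_cast at h2
    linarith only [h1, h2, T2, y2, hN120, g1l, w1, hsJ]
  · intro Y yy hyy Z z hz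
    have h1 := hfreeB Y yy hyy Z z hz
    have h2 := fr_num (κf := κf) H le_rfl hτ0 hτe y2 k2 (by omega) hJ0 hκf
    linarith only [h1, h2]

end Pool.CLR73
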