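import Pool.Agent.H73.D2.Clrc

/-!
# The numbers of the class theorem of closed polynomials

`ClM`: the numbers, from the real exponents.
-/

set_option autoImplicit false

namespace Pool.CLR73

open Finset Real

/-- A floor and a natural number. -/
theorem fl_add {u v : ℝ} {a b : ℕ} (h : u + (a : ℝ) ≤ v - 1 + b) (h' : (a : ℝ) ≤ v - 1 + b) :
    ⌊u⌋₊ + a ≤ ⌊v⌋₊ + b := by
  have h2 := Nat.lt_floor_add_one v
  rcases le_or_gt u 0 with h3 | h3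
  · rw [Nat.floor_of_nonpos h3]
    have h4 : (a : ℝ) < ((⌊v⌋₊ + b + 1 : ℕ) : ℝ) := by
      push_cast
      linarith
    have h5 : a < ⌊v⌋₊ + b + 1 := by exact_mod_cast h4
    omega
  · have h1 := Nat.floor_le h3.le
    have h4 : ((⌊u⌋₊ + a : ℕ) : ℝ) < ((⌊v⌋₊ + b + 1 : ℕ) : ℝ) := by
      push_cast
      linarith
    have h5 : ⌊u⌋₊ + a < ⌊v⌋₊ + b + 1 := by exact_mod_cast h4
    omega

/-- **The numbers.** -/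
structure ClM (J W₀ d k g1 e₁ e₂ y T₁ Ta : ℕ) : Prop where
  Wd : W₀ + d = T₁
  kd : k ≤ d
  kw : T₁ + k ≤ Ta
  wJ : Ta ≤ J
  yJ : y ≤ J
  i1 : g1 + e₁ + 1 + d + 1 * k ≤ J
  L1 : e₂ + g1 + (d + k) + y + 4 ≤ J
  Wg : W₀ ≤ g1 + y
  e12 : e₁ + 1 ≤ e₂
  e2y : y + 2 * y + 6 ≤ e₂

theorem nat_le {a b : ℕ} (h : (a : ℝ) < b + 1) : a ≤ b := by
  have h1 : (a : ℝ) < ((b + 1 : ℕ) : ℝ) := by
    push_cast
    exact h
  have h2 : a < b + 1 := by exact_mod_cast h1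
  omega

theorem clm_of {J W₀ k g1 e₂ y T₁ Ta st ea : ℕ} {uJ kJ wJ tJ aJ dJ bJ eJ xJ : ℝ}
    (y1 : (y : ℝ) ≤ uJ) (y2 : uJ < y + 1) (k1 : (k : ℝ) ≤ kJ) (w1 : (W₀ : ℝ) ≤ wJ)
    (w2 : wJ < W₀ + 1) (g1u : (g1 : ℝ) ≤ bJ - dJ) (g1l : bJ - dJ < g1 + 1) (T1 : (T₁ : ℝ) ≤ tJ)
    (T2 : tJ < T₁ + 1) (E1 : (ea : ℝ) ≤ eJ) (S1 : (st : ℝ) ≤ uJ / 4) (A1 : (Ta : ℝ) ≤ aJ)
    (A2 : aJ < Ta + 1) (X1 : (e₂ : ℝ) ≤ xJ) (X2 : xJ < e₂ + 1) (d1 : 120 ≤ uJ)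
    (hd : dJ ≤ uJ / 24) (d3 : 3 ≤ tJ - wJ - kJ) (hta : tJ + kJ ≤ aJ)
    (heb : eJ + 8 * uJ ≤ xJ) (hr : xJ + bJ + (aJ - wJ) + 2 * uJ ≤ J) (hr2 : aJ + 2 * uJ ≤ J)
    (hwb : wJ ≤ bJ) (hd0 : 0 ≤ dJ) :
    ClM J W₀ (T₁ - W₀) k g1 (st + ea) e₂ y T₁ Ta := by
  have hWT : W₀ ≤ T₁ := nat_le (by linarith)
  have dr : ((T₁ - W₀ : ℕ) : ℝ) = T₁ - W₀ := by rw [Nat.cast_sub hWT]
  have a1 : ((st + ea : ℕ) : ℝ) = st + ea := by push_cast; rfl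
  refine ⟨by omega, nat_le (by rw [dr]; linarith), nat_le (by push_cast; linarith),
    nat_le (by linarith), nat_le (by linarith), nat_le ?_, nat_le ?_, nat_le (by push_cast; linarith),
    nat_le (by push_cast; linarith), nat_le (by push_cast; linarith)⟩
  · push_cast [dr]
    linarith
  · push_cast [dr]
    linarith

end Pool.CLR73
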