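import Mathlib

/-! helper73: the real computation of the 3-hop of the conic world (66's text (C), with the closed
part `g1` of the increment of `g`).

`x0 -(τ1 X1)-> x1 -(t X2)-> x2 -(τ X1)-> xe`, `τ1 = A - τ`.
`a1 = θ(x0)·X1`, `a2 = θ(x0)·X2`, `m1 = M(x0)·X1`, `m2 = M(x0)·X2` (`M` = the slope covector of `N`),
`h = Q(X1, X2)`; `θ(x1) = θ(x0) + r1 Q X1`, `θ(x2) = θ(x1) + s2 Q X2`, and the same for `M` with
`k1`, `k2`; `c` affine with derivatives `b1`, `b2` along `X1`, `X2`; `g` moves by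
`g11 τ + b1 r` along `X1` and `g12 t + b2 s` along `X2`. -/

namespace Pool.D2C

/-- the coordinate `v` at the end of the 3-hop -/
theorem hop3_v {A t τ τ1 a1 a2 h r1 s2 v0 v1 v2 ve : ℝ} (hτ : τ1 = A - τ)
    (h1 : v1 = v0 + τ1 * a1) (h2 : v2 = v1 + t * (a2 + h * r1))
    (h3 : ve = v2 + τ * (a1 + h * s2)) :
    ve = v0 + A * a1 + t * a2 + h * (t * r1 + τ * s2) := by
  subst h3 h2 h1 hτ
  ring

/-- the coordinate `Y = N - c v` at the end of the 3-hop -/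
theorem hop3_Y {A t τ τ1 a1 a2 m1 m2 h r1 s2 k1 k2 g0 g11 g12 c0 b1 b2 v0 N0 N1 N2 Ne ve ce : ℝ}
    (hτ : τ1 = A - τ)
    (hk1 : k1 = g0 * τ1 + g11 * τ1 ^ 2 / 2 + (c0 + b1 * τ1) * r1)
    (hk2 : k2 = (g0 + g11 * τ1 + b1 * r1) * t + g12 * t ^ 2 / 2 + (c0 + b1 * τ1 + b2 * t) * s2)
    (hve : ve = v0 + A * a1 + t * a2 + h * (t * r1 + τ * s2))
    (h1 : N1 = N0 + τ1 * m1) (h2 : N2 = N1 + t * (m2 + h * k1))
    (h3 : Ne = N2 + τ * (m1 + h * k2)) (hce : ce = c0 + b1 * A + b2 * t) :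
    Ne - ce * ve
      = (N0 + A * m1 + t * m2 + h * t * g0 * A + h * t * g11 * A ^ 2 / 2
          - ce * (v0 + A * a1 + t * a2))
        - h * (b2 * t ^ 2 * r1 + b1 * τ ^ 2 * s2)
        - h * t * g11 * τ ^ 2 / 2 + h * g12 * t ^ 2 * τ / 2 := by
  subst h3 h2 h1 hk1 hk2 hce hve hτ
  ring

/-- `hop3_v` with errors -/
theorem hop3_v_err {A t τ τ1 a1 a2 h r1 s2 v0 v1 v2 ve e1 e2 f1 f2 f3 : ℝ} (hτ : τ1 = A - τ)
    (h1 : v1 = v0 + τ1 * a1 + f1) (h2 : v2 = v1 + t * (a2 + h * r1 + e1) + f2)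
    (h3 : ve = v2 + τ * (a1 + h * s2 + e2) + f3) :
    ve = v0 + A * a1 + t * a2 + h * (t * r1 + τ * s2) + (t * e1 + τ * e2 + f1 + f2 + f3) := by
  subst h3 h2 h1 hτ
  ring

/-- `hop3_Y` with errors -/
theorem hop3_Y_err {A t τ τ1 a1 a2 m1 m2 h r1 s2 k1 k2 g0 g11 g12 c0 b1 b2 v0 N0 N1 N2 Ne ve ce
    ev e1 e2 f1 f2 f3 d1 d2 ec : ℝ}
    (hτ : τ1 = A - τ)
    (hk1 : k1 = g0 * τ1 + g11 * τ1 ^ 2 / 2 + (c0 + b1 * τ1) * r1 + d1)
    (hk2 : k2 = (g0 + g11 * τ1 + b1 * r1) * t + g12 * t ^ 2 / 2 + (c0 + b1 * τ1 + b2 * t) * s2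
      + d2)
    (hve : ve = v0 + A * a1 + t * a2 + h * (t * r1 + τ * s2) + ev)
    (h1 : N1 = N0 + τ1 * m1 + f1) (h2 : N2 = N1 + t * (m2 + h * k1 + e1) + f2)
    (h3 : Ne = N2 + τ * (m1 + h * k2 + e2) + f3) (hce : ce = c0 + b1 * A + b2 * t + ec) :
    Ne - ce * ve
      = (N0 + A * m1 + t * m2 + h * t * g0 * A + h * t * g11 * A ^ 2 / 2
          - (c0 + b1 * A + b2 * t) * (v0 + A * a1 + t * a2))
        - h * (b2 * t ^ 2 * r1 + b1 * τ ^ 2 * s2)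
        - h * t * g11 * τ ^ 2 / 2 + h * g12 * t ^ 2 * τ / 2
        + (h * t * d1 + h * τ * d2 + t * e1 + τ * e2 + f1 + f2 + f3
          - (c0 + b1 * A + b2 * t) * ev - ec * ve) := by
  subst h3 h2 h1 hk1 hk2 hce
  rw [hve]
  subst hτ
  ring

/-- the row of `Y`: what the fine part `τ' = τ - τ0` of the time changes -/
theorem hop3_row {h t b1 b2 g11 g12 s2 τ0 τ' r1 r10 f C : ℝ} (hr : r1 = r10 - f) :
    C - h * (b2 * t ^ 2 * r1 + b1 * (τ0 + τ') ^ 2 * s2) - h * t * g11 * (τ0 + τ') ^ 2 / 2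
        + h * g12 * t ^ 2 * (τ0 + τ') / 2
      = (C - h * (b2 * t ^ 2 * r10 + b1 * τ0 ^ 2 * s2) - h * t * g11 * τ0 ^ 2 / 2
          + h * g12 * t ^ 2 * τ0 / 2)
        + (h * b2 * t ^ 2 * f - h * (b1 * s2 + t * g11 / 2) * τ' ^ 2 + h * g12 * t ^ 2 * τ' / 2)
        - τ0 * (h * (2 * b1 * s2 + t * g11) * τ') := by
  subst hr
  ring

/-- separation of variables: if `2 b s + t g` is small for two pairs `(s, t)`, `(s', t')` with the
same `(b, g)`, then `s / t` and `s' / t'` are near -/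
theorem sep_pair {b g s t s' t' ε β σ : ℝ} (hβ : 0 < β) (hσ : 0 < σ)
    (hb : β ≤ |b|) (ht : σ ≤ |t|) (ht' : σ ≤ |t'|)
    (h1 : |2 * b * s + t * g| ≤ ε) (h2 : |2 * b * s' + t' * g| ≤ ε) :
    |s / t - s' / t'| ≤ ε / (β * σ) := by
  have ht0 : t ≠ 0 := by
    intro h; rw [h, abs_zero] at ht; linarith
  have ht0' : t' ≠ 0 := by
    intro h; rw [h, abs_zero] at ht'; linarith
  have hb0 : b ≠ 0 := by
    intro h; rw [h, abs_zero] at hb; linarith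
  have hε : 0 ≤ ε := le_trans (abs_nonneg _) h1
  have e1 : s / t - s' / t'
      = (2 * b * s + t * g) / (2 * b * t) - (2 * b * s' + t' * g) / (2 * b * t') := by
    field_simp
    ring
  have bound : ∀ (z u : ℝ), |z| ≤ ε → σ ≤ |u| → u ≠ 0 → |z / (2 * b * u)| ≤ ε / (β * σ) / 2 := by
    intro z u hz hu hu0
    rw [abs_div, abs_mul, abs_mul, abs_two, div_div]
    have h3 : β * σ * 2 ≤ 2 * |b| * |u| := by
      have := mul_le_mul hb hu hσ.le (abs_nonneg b)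
      nlinarith
    exact div_le_div₀ hε hz (by positivity) h3
  rw [e1]
  refine (abs_sub _ _).trans ?_
  have := bound _ _ h1 ht ht0
  have := bound _ _ h2 ht' ht0'
  linarith

end Pool.D2C
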