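import Pool.Agent.H73.D2.Own3
import Pool.Agent.H42.D2.Rdc
import Pool.Agent.H42.D2.Pol

/-!
# D2: the join of the case of a conic

The vector of near digits of one coordinate at the two points of a line is read against the germs
of three copies at each point. The directions are on two conics.
-/

set_option autoImplicit false

namespace Pool.D2J

open Finset Real
open Pool.Agent.H49.Ent Pool.Agent.H32.Dense Pool.STK Pool.D2A Pool.D2T Pool.D2Con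
open Pool.BFL (Pb)
open Pool.KM7 (P2 P2_isLaw P2_fst P2_snd P2_pos P2_CH)

section ev

variable {W : Type} [Fintype W] {q : W → ℝ}

open Classical in
theorem law_ev (q : W → ℝ) (A : W → Prop) : law q A True = ∑ w, if A w then q w else 0 := by
  unfold law
  refine Finset.sum_congr rfl fun ω _ => ?_
  by_cases h : A ω
  · rw [if_pos (eq_true h), if_pos h]
  · rw [if_neg (fun h' => h (of_eq_true h')), if_neg h]

theorem law_le (h0 : ∀ w, 0 ≤ q w) {A B : W → Prop} (h : ∀ w, 0 < q w → A w → B w) :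
    law q A True ≤ law q B True := by
  classical
  rw [law_ev, law_ev]
  refine Finset.sum_le_sum fun w _ => ?_
  rcases (h0 w).eq_or_lt with hw | hw
  · rw [← hw]
    simp
  · by_cases hA : A w
    · rw [if_pos hA, if_pos (h w hw hA)]
    · rw [if_neg hA]
      split_ifs
      exacts [hw.le, le_rfl]

theorem law_cut {A B : W → Prop} {x y : ℝ}
    (h1 : law q (fun w => A w ∧ ¬B w) True ≤ x) (h2 : law q (fun w => A w ∧ B w) True ≤ y) :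
    law q A True ≤ x + y := by
  classical
  refine le_trans ?_ (add_le_add h1 h2)
  rw [law_ev, law_ev, law_ev, ← Finset.sum_add_distrib]
  refine Finset.sum_le_sum fun w _ => ?_
  by_cases hA : A w
  · by_cases hB : B w
    · simp [hA, hB]
    · simp [hA, hB]
  · simp [hA]

theorem law_zero {A : W → Prop} (h : ∀ w, 0 < q w → ¬A w) :
    law q A True ≤ 0 := by
  classical
  rw [law_ev]
  refine Finset.sum_nonpos fun w _ => ?_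
  by_cases hA : A w
  · rw [if_pos hA]
    by_contra hcon
    exact h w (lt_of_not_ge hcon) hA
  · rw [if_neg hA]

theorem law_ex {m : ℕ} (h0 : ∀ w, 0 ≤ q w) (A : Fin m → W → Prop) {x : ℝ}
    (h : ∀ k, law q (A k) True ≤ x) : law q (fun w => ∃ k, A k w) True ≤ m * x := by
  classical
  have h1 : law q (fun w => ∃ k, A k w) True ≤ ∑ k, law q (A k) True := by
    rw [law_ev]
    have h2 : ∑ k, law q (A k) True = ∑ w, ∑ k, if A k w then q w else 0 := by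
      rw [Finset.sum_comm]
      exact Finset.sum_congr rfl fun k _ => law_ev q (A k)
    rw [h2]
    refine Finset.sum_le_sum fun w _ => ?_
    by_cases hw : ∃ k, A k w
    · obtain ⟨k, hk⟩ := hw
      rw [if_pos ⟨k, hk⟩]
      have h3 := Finset.single_le_sum (f := fun k => if A k w then q w else 0)
        (fun k _ => by
          show (0 : ℝ) ≤ if A k w then q w else 0
          split_ifs
          exacts [h0 w, le_rfl]) (Finset.mem_univ k)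
      exact (if_pos hk).ge.trans h3
    · rw [if_neg hw]
      refine Finset.sum_nonneg fun k _ => ?_
      split_ifs
      exacts [h0 w, le_rfl]
  refine h1.trans ((Finset.sum_le_card_nsmul _ _ x fun k _ => h k).trans (le_of_eq ?_))
  rw [Finset.card_univ, Fintype.card_fin, nsmul_eq_mul]

end ev

section dir

variable {Ω σ ζ ζ' ε : Type} [Fintype Ω] {N : ℕ}

/-- The data of all copies. -/
def cpa (sd : Fin N → Bool) (e : Ω → ε) (B : Ω → ℤ) (w : (Ω × Ω) × (Fin N → Ω × Ω)) (r : Fin N) :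
    ε × ℤ := (e (cp sd r w), B (cp sd r w))

/-- **The direction is read.** -/
theorem read_dir {p : Ω → ℝ} (hp : IsLaw p) {S : Ω → σ} {z : Ω → ζ} {z' : Ω → ζ'}
    (hz' : Det p z' z) (hS : Det p S z) (sd : Fin N → Bool) (e : Ω → ε) (B : Ω → ℤ) {ηF ηH : ℝ}
    (hF : CH p e z ≤ CH p e z' + ηF) (hH : CH p B (fun ω => (e ω, z ω)) ≤ ηH)
    (C : Dec ε) (κ : ℝ) {K K' : ℕ} (hK : 1 ≤ K) {c c₁ : ℝ} (hc : 0 ≤ c)
    (hE : NoCov p (fun ω => cll κ (C.X (e ω))) z' K c)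
    (hc₁ : 0 < c₁) (G : (Ω × Ω) × (Fin N → Ω × Ω) → Prop)
    (A : (Fin N → ε × ℤ) → ζ' → Set (Fin 3 → ℝ))
    (hA : ∀ w, 0 < PL p S z' sd w → G w →
      C.X (e w.1.1) ∈ A (cpa sd e B w) (z' w.1.1) ∧
      ∃ F : Finset (ℤ × ℤ), F.card ≤ K' ∧ ∀ x ∈ A (cpa sd e B w) (z' w.1.1), cll κ x ∈ F)
    (hn : (N * (ηF + ηH) + Real.log 2) / c₁ + Real.log K' < (1 - c / c₁) * Real.log K) :
    law (PL p S z' sd) G True < c₁ := by
  classical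
  obtain ⟨F, hFd⟩ : ∃ F : (Fin N → ε × ℤ) → ζ' → Finset (ℤ × ℤ), F = fun y t =>
    if h : ∃ F : Finset (ℤ × ℤ), F.card ≤ K' ∧ ∀ x ∈ A y t, cll κ x ∈ F then h.choose else ∅ :=
    ⟨_, rfl⟩
  refine read_pl hp hz' hS sd e B hF hH (fun ω => cll κ (C.X (e ω))) hK hc hE hc₁ G F
    (fun w hw hG => ?_) hn
  obtain ⟨h1, h2⟩ := hA w hw hG
  have h3 : F (cpa sd e B w) (z' w.1.1) = h2.choose := by
    rw [hFd]
    exact dif_pos h2
  have h4 : F (fun r => (e (cp sd r w), B (cp sd r w))) (z' w.1.1) = h2.choose := h3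
  rw [h4]
  exact ⟨h2.choose_spec.2 _ h1, h2.choose_spec.1⟩

/-- Two directions are separated. -/
def Sp (κ : ℝ) (x y : Fin 3 → ℝ) : Prop := κ ^ 2 ≤ (y 1 - x 1) ^ 2 + (y 2 - x 2) ^ 2

theorem not_sp {κ : ℝ} (hκ : 0 < κ) {x y : Fin 3 → ℝ} (h : ¬Sp κ x y) :
    cll κ y ∈ (Finset.Icc (⌊x 1 / κ⌋ - 1) (⌊x 1 / κ⌋ + 1)) ×ˢ
      (Finset.Icc (⌊x 2 / κ⌋ - 1) (⌊x 2 / κ⌋ + 1)) := by
  unfold Sp at h
  rw [not_le] at h
  have h1 : |y 1 - x 1| < κ := by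
    refine abs_lt_of_sq_lt_sq ?_ hκ.le
    nlinarith [sq_nonneg (y 2 - x 2)]
  have h2 : |y 2 - x 2| < κ := by
    refine abs_lt_of_sq_lt_sq ?_ hκ.le
    nlinarith [sq_nonneg (y 1 - x 1)]
  exact Finset.mem_product.mpr ⟨floor_near hκ h1, floor_near hκ h2⟩

theorem card_nb (a b : ℤ) :
    ((Finset.Icc (a - 1) (a + 1)) ×ˢ (Finset.Icc (b - 1) (b + 1))).card = 9 := by
  rw [Finset.card_product, Int.card_Icc, Int.card_Icc]
  have e1 : (a + 1 + 1 - (a - 1)).toNat = 3 := by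
    have : a + 1 + 1 - (a - 1) = 3 := by ring
    rw [this]
    rfl
  have e2 : (b + 1 + 1 - (b - 1)).toNat = 3 := by
    have : b + 1 + 1 - (b - 1) = 3 := by ring
    rw [this]
    rfl
  rw [e1, e2]

/-- **Two copies have separated directions.** -/
theorem sep_cop {p : Ω → ℝ} (hp : IsLaw p) (S : Ω → σ) (z' : Ω → ζ') (sd : Fin N → Bool)
    (e : Ω → ε) (C : Dec ε) {κ : ℝ} (hκ : 0 < κ) {K : ℕ} (hK : 1 ≤ K) {c c₁ : ℝ} (hc : 0 ≤ c)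
    (hE : NoCov p (fun ω => cll κ (C.X (e ω))) z' K c) (hc₁ : 0 < c₁) {r r' : Fin N} (hr : r ≠ r')
    (hn : Real.log 2 / c₁ + Real.log 9 < (1 - c / c₁) * Real.log K) :
    law (PL p S z' sd) (fun w => ¬Sp κ (C.X (e (cp sd r w))) (C.X (e (cp sd r' w)))) True < c₁ := by
  refine cop_sep hp S z' sd r' (fun ω => cll κ (C.X (e ω))) (K' := 9) hK hc hE hc₁ _
    (fun y => (Finset.Icc (⌊C.X (e (y.2 ⟨r, hr⟩)) 1 / κ⌋ - 1) (⌊C.X (e (y.2 ⟨r, hr⟩)) 1 / κ⌋ + 1)) ×ˢ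
      (Finset.Icc (⌊C.X (e (y.2 ⟨r, hr⟩)) 2 / κ⌋ - 1) (⌊C.X (e (y.2 ⟨r, hr⟩)) 2 / κ⌋ + 1)))
    (fun w hw hG => ⟨not_sp hκ hG, (card_nb _ _).le⟩) (by exact_mod_cast hn)

/-- The determinant of the copies. -/
theorem fi_det (C : Dec ε) (y : Fin 3 → ε × ℤ) :
    (C.fi y).det = C.b (y 0).1 * C.b (y 1).1 * C.b (y 2).1 *
      br (C.X (y 0).1) (C.X (y 1).1) (C.X (y 2).1) := by
  rw [Matrix.det_fin_three]
  unfold Dec.fi br
  ring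

/-- **The determinant of three separated copies.** -/
theorem det_lo (C : Dec ε) (y : Fin 3 → ε × ℤ) {Q : Fin 3 → Fin 3 → ℝ} {R κ δ μ b0 : ℝ}
    (hR : 1 ≤ R) (hC : Cn Q R μ) (hX0 : ∀ r, C.X (y r).1 0 = 1)
    (hX : ∀ r i, |C.X (y r).1 i| ≤ R) (hκ : 0 < κ) (hb0 : 0 < b0)
    (hb : ∀ r, b0 ≤ |C.b (y r).1|) (hq : ∀ r, |bf Q (C.X (y r).1) (C.X (y r).1)| ≤ δ)
    (hs : ∀ r r', r < r' → Sp κ (C.X (y r).1) (C.X (y r').1))
    (hn : 2 ^ 23 * R ^ 13 * δ ≤ μ * κ ^ 8) :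
    b0 ^ 3 * (μ * κ ^ 8 / (2 ^ 23 * R ^ 13)) ≤ |(C.fi y).det| := by
  have hR0 : 0 < R := by linarith
  have h1 := con_det hC.symm hR (hX0 0) (hX0 1) (hX0 2) (hX 0) (hX 1) (hX 2) hC.le hκ hC.det
    (hs 0 1 (by decide)) (hs 0 2 (by decide)) (hs 1 2 (by decide)) (hq 0) (hq 1) (hq 2)
  have h2 : μ * κ ^ 8 / (2 ^ 23 * R ^ 13) ≤
      |br (C.X (y 0).1) (C.X (y 1).1) (C.X (y 2).1)| := by
    rw [div_le_iff₀ (by positivity)]
    nlinarith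
  rw [fi_det, abs_mul, abs_mul, abs_mul]
  have hd : 0 ≤ δ := (abs_nonneg _).trans (hq 0)
  have h3 : b0 ^ 3 ≤ |C.b (y 0).1| * |C.b (y 1).1| * |C.b (y 2).1| := by
    calc b0 ^ 3 = b0 * b0 * b0 := by ring
      _ ≤ |C.b (y 0).1| * |C.b (y 1).1| * |C.b (y 2).1| :=
        mul_le_mul (mul_le_mul (hb 0) (hb 1) hb0.le (abs_nonneg _)) (hb 2) hb0.le
          (mul_nonneg (abs_nonneg _) (abs_nonneg _))
  have h4 : 0 ≤ μ * κ ^ 8 / (2 ^ 23 * R ^ 13) := by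
    refine div_nonneg ?_ (by positivity)
    exact le_trans (by positivity) hn
  exact mul_le_mul h3 h2 h4 (by positivity)

/-- The symmetric part of the linear part of the germ. -/
noncomputable def Dec.sy (C : Dec ε) (y : Fin 3 → ε × ℤ) (i j : Fin 3) : ℝ :=
  (C.g1 y i j + C.g1 y j i) / 2

/-- The numbers of the join. -/
structure Nm (R Rb κ δ μ b0 t0 : ℝ) (s g A : ℕ) (D Γ κd η₁ ε₁ ε₃ B₃ la ε₄ ε₅ ε₆ : ℝ) : Prop where
  R1 : 1 ≤ R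
  RR : R ≤ Rb
  AR : (A : ℝ) ≤ Rb
  cR : cK 3 (R ^ 2) κd * R ≤ Rb
  κ0 : 0 < κ
  μ0 : 0 < μ
  b00 : 0 < b0
  t00 : 0 < t0
  κd0 : 0 < κd
  la0 : 0 < la
  κdl : κd ≤ b0 ^ 3 * (μ * κ ^ 8 / (2 ^ 23 * R ^ 13))
  dk : 2 ^ 23 * Rb ^ 13 * δ ≤ μ * κ ^ 8
  dg : (1 + 3 * Rb) / 2 ^ g ≤ δ
  n1 : eD R κd D / 2 ^ s + (4 * Rb + 1) / 2 ^ g ≤ η₁
  n2 : 2 ^ 23 * (6 * Rb ^ 15) * η₁ ≤ μ * κ ^ 8 * ε₁
  la1 : 2 ^ 23 * Rb ^ 13 * la ≤ μ * κ ^ 8
  la2 : 648 * Rb ^ 6 * δ ≤ μ * la ^ 2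
  la3 : 2 ^ 31 * Rb ^ 25 * δ ≤ ε₃ * (μ * la ^ 8)
  la4 : 2916 * Rb ^ 9 ≤ B₃ * (μ * la ^ 2)
  n4a : (2 * eG R κd D + 3 * (cK 3 (R ^ 2) κd * R) * D) / 2 ^ s + 7 * Rb ^ 2 * ε₁ ≤ ε₄
  n4b : ε₃ ≤ ε₄
  n4c : 1 / 2 ^ g ≤ ε₄
  n4d : D / 2 ^ s + Γ * (3 * (ε₃ * Rb)) ≤ ε₄
  n4e : δ ≤ ε₄
  n5 : 2 ^ 23 * (6 * Rb ^ 15) * (30 * Rb ^ 5 * ε₄ / (b0 * t0)) ≤ μ * κ ^ 8 * ε₅
  n6 : 4 * Rb ^ 2 * ε₄ + 12 * Rb ^ 4 * ε₅ / μ + 3 * (Rb ^ 2 * ε₃) ≤ ε₆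

/-- The good event. -/
structure Gd (z' : Ω → ζ') (C : Dec ε) (sd : Fin N → Bool) (e : Ω → ε) (B : Ω → ℤ)
    (U : Ω → Fin 3 → ℤ) (Tau : Ω × Ω → ℤ) (i i' : Fin 3 → Fin N)
    (Q : (Fin N → ε × ℤ) → ζ' → Fin 3 → Fin 3 → ℝ) (Q' : (Fin N → ε × ℤ) → Fin 3 → Fin 3 → ℝ)
    (R μ δ b0 t0 Γ D : ℝ) (s : ℕ) (w : (Ω × Ω) × (Fin N → Ω × Ω)) : Prop where
  q : Cn (Q (cpa sd e B w) (z' w.1.1)) R μ
  q' : Cn (Q' (cpa sd e B w)) R μ
  o : |bf (Q (cpa sd e B w) (z' w.1.1)) (C.X (e w.1.1)) (C.X (e w.1.1))| ≤ δ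
  o' : |bf (Q' (cpa sd e B w)) (C.X (e w.1.1)) (C.X (e w.1.1))| ≤ δ
  k : ∀ r, |bf (Q (cpa sd e B w) (z' w.1.1)) (C.X (e (cp sd (i r) w)))
    (C.X (e (cp sd (i r) w)))| ≤ δ
  k' : ∀ r, |bf (Q' (cpa sd e B w)) (C.X (e (cp sd (i' r) w))) (C.X (e (cp sd (i' r) w)))| ≤ δ
  b : b0 ≤ |C.b (e w.1.1)|
  bk : ∀ r, b0 ≤ |C.b (e (cp sd (i r) w))|
  bk' : ∀ r, b0 ≤ |C.b (e (cp sd (i' r) w))|
  t : t0 * 2 ^ s ≤ |(Tau w.1 : ℝ)|
  rel : ∃ γ γ' : ℝ, |γ'| ≤ Γ * 2 ^ s ∧ ∀ j, |C.b (e w.1.1) * ((U w.1.2 j : ℝ) - U w.1.1 j) +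
    2 * Tau w.1 * C.Th (e w.1.1) j - (γ' * lf (Q' (cpa sd e B w) j) (C.X (e w.1.1)) -
      γ * lf (Q (cpa sd e B w) (z' w.1.1) j) (C.X (e w.1.1)))| ≤ D

/-- The label. -/
structure Lb (C : Dec ε) (sd : Fin N → Bool) (e : Ω → ε) (B : Ω → ℤ)
    (U : Ω → Fin 3 → ℤ) (Tau : Ω × Ω → ℤ) (i i' : Fin 3 → Fin N)
    (δ ε₁ ε₆ : ℝ) (s : ℕ) (w : (Ω × Ω) × (Fin N → Ω × Ω)) : Prop where
  d : ∀ j, |(U w.1.2 j : ℝ) - U w.1.1 j -
    Tau w.1 * lf (C.sy (cps sd e B i w) j) (C.X (e w.1.1))| ≤ ε₆ * 2 ^ s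
  m : ∀ j l, |C.sy (cps sd e B i' w) j l - C.sy (cps sd e B i w) j l| ≤ ε₁
  n : |bf (C.sy (cps sd e B i w)) (C.X (e w.1.1)) (C.X (e w.1.1))| ≤ δ

/-- The class facts of the join. -/
structure J3 (p : Ω → ℝ) (S : Ω → σ) (z : Ω → ζ) (z' : Ω → ζ') (C : Dec ε) (sd : Fin N → Bool)
    (e : Ω → ε) (B : Ω → ℤ) (U P : Ω → Fin 3 → ℤ) (Tau : Ω × Ω → ℤ) (i i' : Fin 3 → Fin N)
    (R κ D : ℝ) (s A K : ℕ) (c ηF ηH e₁ e₂ : ℝ) : Prop where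
  hp : IsLaw p
  hz : Det p z' z
  hS : Det p S z
  hU : Det p z' fun ω => (U ω, P ω)
  hm : Sam p C e B U P R D
  hv : Pai p S C e U P Tau D
  X0 : ∀ ω, 0 < p ω → C.X (e ω) 0 = 1
  hi : ∀ r, sd (i r) = true
  hi' : ∀ r, sd (i' r) = false
  ii : Function.Injective i
  ii' : Function.Injective i'
  A1 : 1 ≤ A
  hP : ∀ ω, 0 < p ω → ∀ j, |P ω j| ≤ ((A * 2 ^ s : ℕ) : ℤ)
  hT : ∀ v, 0 < P2 p S v → |Tau v| ≤ ((A * 2 ^ s : ℕ) : ℤ)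
  F0 : 0 ≤ ηF
  H0 : 0 ≤ ηH
  hF : CH p e z ≤ CH p e z' + ηF
  hH : CH p B (fun ω => (e ω, z ω)) ≤ ηH
  f1 : 4 * (s * Real.log 2) - e₁ ≤
      CH (P2 p S) (fun v => (![P v.1 0, P v.1 1, P v.1 2, Tau v] : Fin 4 → ℤ))
        (fun v => (e v.1, z v.1))
  f2 : 3 * (s * Real.log 2) - e₂ ≤ CH p P (fun ω => (e ω, z ω))
  K1 : 1 ≤ K
  c0 : 0 ≤ c
  hE : NoCov p (fun ω => cll κ (C.X (e ω))) z' K c

section steps

variable {p : Ω → ℝ} {S : Ω → σ} {z : Ω → ζ} {z' : Ω → ζ'} {C : Dec ε} {sd : Fin N → Bool}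
  {e : Ω → ε} {B : Ω → ℤ} {U P : Ω → Fin 3 → ℤ} {Tau : Ω × Ω → ℤ} {i i' : Fin 3 → Fin N}
  {R κ D : ℝ} {s A K : ℕ} {c ηF ηH e₁ e₂ : ℝ} {Rb δ μ b0 t0 : ℝ} {g : ℕ}
  {Γ κd η₁ ε₁ ε₃ B₃ la ε₄ ε₅ ε₆ : ℝ}
  {Q : (Fin N → ε × ℤ) → ζ' → Fin 3 → Fin 3 → ℝ} {Q' : (Fin N → ε × ℤ) → Fin 3 → Fin 3 → ℝ}

/-- The three pairs. -/
def pr : Fin 3 → Fin 3 × Fin 3 := ![(0, 1), (0, 2), (1, 2)]

theorem pr_ex (r r' : Fin 3) (h : r < r') : ∃ k, pr k = (r, r') := by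
  fin_cases r <;> fin_cases r' <;> simp at h ⊢
  · exact ⟨0, rfl⟩
  · exact ⟨1, rfl⟩
  · exact ⟨2, rfl⟩

theorem pr_ne (k : Fin 3) : (pr k).1 ≠ (pr k).2 := by
  fin_cases k <;> simp [pr]

/-- The directions of three copies are separated. -/
def Se (C : Dec ε) (sd : Fin N → Bool) (e : Ω → ε) (κ : ℝ) (j : Fin 3 → Fin N)
    (w : (Ω × Ω) × (Fin N → Ω × Ω)) : Prop :=
  ∀ r r', r < r' → Sp κ (C.X (e (cp sd (j r) w))) (C.X (e (cp sd (j r') w)))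

theorem J3.sep (h : J3 p S z z' C sd e B U P Tau i i' R κ D s A K c ηF ηH e₁ e₂) (hκ : 0 < κ)
    {c₁ : ℝ} (hc₁ : 0 < c₁) (hn : Real.log 2 / c₁ + Real.log 9 < (1 - c / c₁) * Real.log K)
    {j : Fin 3 → Fin N} (hj : Function.Injective j) :
    law (PL p S z' sd) (fun w => ¬Se C sd e κ j w) True ≤ 3 * c₁ := by
  have h0 := (PL_isLaw h.hp S z' sd).nonneg
  have h1 := law_ex (m := 3) h0
    (fun k w => ¬Sp κ (C.X (e (cp sd (j (pr k).1) w))) (C.X (e (cp sd (j (pr k).2) w))))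
    (x := c₁) (fun k => (sep_cop h.hp S z' sd e C hκ h.K1 h.c0 h.hE hc₁
      (fun hh => pr_ne k (hj hh)) hn).le)
  refine (law_le h0 fun w _ hw => ?_).trans (h1.trans (le_of_eq (by norm_num)))
  by_contra hcon
  rw [not_exists] at hcon
  apply hw
  intro r r' hr
  obtain ⟨k, hk⟩ := pr_ex r r' hr
  have h2 := hcon k
  rw [not_not, hk] at h2
  exact h2

theorem J3.det (h : J3 p S z z' C sd e B U P Tau i i' R κ D s A K c ηF ηH e₁ e₂)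
    (n : Nm R Rb κ δ μ b0 t0 s g A D Γ κd η₁ ε₁ ε₃ B₃ la ε₄ ε₅ ε₆)
    {w : (Ω × Ω) × (Fin N → Ω × Ω)} (hw : 0 < PL p S z' sd w)
    (hG : Gd z' C sd e B U Tau i i' Q Q' R μ δ b0 t0 Γ D s w)
    (h1 : Se C sd e κ i w) (h2 : Se C sd e κ i' w) :
    Dt C sd e B i κd w ∧ Dt C sd e B i' κd w := by
  have hp := (PL_pos h.hp S z' sd hw).2.2.2
  have hδ : 0 ≤ δ := (abs_nonneg _).trans hG.o
  have hR0 : 0 ≤ R := by linarith [n.R1]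
  have hdk : 2 ^ 23 * R ^ 13 * δ ≤ μ * κ ^ 8 := by
    refine le_trans ?_ n.dk
    exact mul_le_mul_of_nonneg_right (mul_le_mul_of_nonneg_left
      (pow_le_pow_left₀ hR0 n.RR 13) (by positivity)) hδ
  constructor
  · exact n.κdl.trans (det_lo C (cps sd e B i w) n.R1 hG.q (fun r => h.X0 _ (hp (i r)).1)
      (fun r l => h.hm.X _ (hp (i r)).1 l) n.κ0 n.b00 hG.bk hG.k h1 hdk)
  · exact n.κdl.trans (det_lo C (cps sd e B i' w) n.R1 hG.q' (fun r => h.X0 _ (hp (i' r)).1)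
      (fun r l => h.hm.X _ (hp (i' r)).1 l) n.κ0 n.b00 hG.bk' hG.k' h2 hdk)

theorem cn_mono {Q : Fin 3 → Fin 3 → ℝ} {R R' μ : ℝ} (h : Cn Q R μ) (hR : R ≤ R') : Cn Q R' μ :=
  ⟨h.symm, fun a b => (h.le a b).trans hR, h.det⟩

theorem pb_le {Ω' : Type} [Fintype Ω'] {q : Ω' → ℝ} {E : Ω' → Prop} {x b c₂ : ℝ} (hx : 0 < x)
    (h : Pb q E * x ≤ b) (hb : b ≤ c₂ * x) : law q E True ≤ c₂ := by
  have e1 : law q E True = Pb q E := by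
    classical
    rw [law_ev]
    rfl
  rw [e1]
  exact le_of_mul_le_mul_right (h.trans hb) hx

theorem J3.one (h : J3 p S z z' C sd e B U P Tau i i' R κ D s A K c ηF ηH e₁ e₂)
    (n : Nm R Rb κ δ μ b0 t0 s g A D Γ κd η₁ ε₁ ε₃ B₃ la ε₄ ε₅ ε₆) {c₂ : ℝ}
    (hx : 0 < ((s : ℝ) - g) * Real.log 2 - Real.log (2 * (2 * eD R κd D + 4 * A + 1) + 1))
    (hn : e₁ + N * (ηF + ηH) + Real.log 5 + 4 * Real.log (2 * A + 1) ≤
      c₂ * (((s : ℝ) - g) * Real.log 2 - Real.log (2 * (2 * eD R κd D + 4 * A + 1) + 1))) :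
    law (PL p S z' sd) (fun w => (Dt C sd e B i κd w ∧ Dt C sd e B i' κd w) ∧
      ∃ j, 1 / 2 ^ g ≤ |al1 C (e w.1.1) (cps sd e B i w) (cps sd e B i' w) j|) True ≤ c₂ :=
  pb_le hx (own_one h.hm h.hp h.hz h.hS h.hU h.hv h.hi h.hi' n.κd0 h.A1 s g h.hP h.hT h.hF h.hH
    h.f1) hn

theorem J3.two (h : J3 p S z z' C sd e B U P Tau i i' R κ D s A K c ηF ηH e₁ e₂)
    (n : Nm R Rb κ δ μ b0 t0 s g A D Γ κd η₁ ε₁ ε₃ B₃ la ε₄ ε₅ ε₆) {c₂ : ℝ}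
    (hx : 0 < ((s : ℝ) - g) * Real.log 2 - Real.log (2 * (2 * eH R κd D + 3 * A + 1) + 1))
    (hn : ηH + (e₂ + N * (ηF + ηH)) + Real.log 4 + 3 * Real.log (2 * A + 1) ≤
      c₂ * (((s : ℝ) - g) * Real.log 2 - Real.log (2 * (2 * eH R κd D + 3 * A + 1) + 1))) :
    law (PL p S z' sd) (fun w => Dt C sd e B i κd w ∧
      ∃ j, 1 / 2 ^ g ≤ |al2 C (e w.1.1) (cps sd e B i w) j|) True ≤ c₂ :=
  pb_le hx (own_two h.hm h.hp h.hz h.hS h.hU h.hi n.κd0 h.A1 s g h.hP h.hF h.hH h.f2) hn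

/-- The differences of the germs of the two sides. -/
noncomputable def uu (C : Dec ε) (i i' : Fin 3 → Fin N) (s : ℕ) (k : Fin 4)
    (y : Fin N → ε × ℤ) : Fin 3 → ℝ :=
  (![fun l => C.g1 (fun r => y (i' r)) l 0 - C.g1 (fun r => y (i r)) l 0,
    fun l => C.g1 (fun r => y (i' r)) l 1 - C.g1 (fun r => y (i r)) l 1,
    fun l => C.g1 (fun r => y (i' r)) l 2 - C.g1 (fun r => y (i r)) l 2,
    fun l => (C.g0 (fun r => y (i' r)) l - C.g0 (fun r => y (i r)) l) / 2 ^ s] :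
    Fin 4 → Fin 3 → ℝ) k

/-- The coefficients are small. -/
def Sm (C : Dec ε) (sd : Fin N → Bool) (e : Ω → ε) (B : Ω → ℤ) (i i' : Fin 3 → Fin N) (g : ℕ)
    (w : (Ω × Ω) × (Fin N → Ω × Ω)) : Prop :=
  ∀ j, |al1 C (e w.1.1) (cps sd e B i w) (cps sd e B i' w) j| ≤ 1 / 2 ^ g

theorem abs_int_le {x : ℤ} {A s : ℕ} (h : |x| ≤ ((A * 2 ^ s : ℕ) : ℤ)) :
    |(x : ℝ)| ≤ A * 2 ^ s := by
  rw [← Int.cast_abs]
  exact_mod_cast h

theorem eD_nonneg {R κd D : ℝ} (hR : 1 ≤ R) (hκ : 0 < κd) (hD : 0 ≤ D) : 0 ≤ eD R κd D := by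
  unfold eD
  have a1 := eG_nonneg (R := R) hκ hD
  have a2 : 0 ≤ cK 3 (R ^ 2) κd := cK_nonneg (by positivity) hκ
  positivity

theorem J3.sml (h : J3 p S z z' C sd e B U P Tau i i' R κ D s A K c ηF ηH e₁ e₂)
    (n : Nm R Rb κ δ μ b0 t0 s g A D Γ κd η₁ ε₁ ε₃ B₃ la ε₄ ε₅ ε₆)
    {w : (Ω × Ω) × (Fin N → Ω × Ω)} (hw : 0 < PL p S z' sd w)
    (hd : Dt C sd e B i κd w ∧ Dt C sd e B i' κd w) (ha : Sm C sd e B i i' g w) :
    (∀ k, |lf (uu C i i' s k (cpa sd e B w)) (C.X (e w.1.1))| ≤ η₁) ∧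
      |bf (C.sy (cps sd e B i w)) (C.X (e w.1.1)) (C.X (e w.1.1))| ≤ δ := by
  have hRb : 1 ≤ Rb := n.R1.trans n.RR
  have h2s : (0 : ℝ) < 2 ^ s := by positivity
  have h2g : (0 : ℝ) < 2 ^ g := by positivity
  have hD := eD_nonneg n.R1 n.κd0 h.hm.D0
  have hpw := (PL_pos h.hp S z' sd hw).1
  have hw1 : 0 < P2 p S w.1 := (PL_base h.hp S z' sd).pos (PL_isLaw h.hp S z' sd).nonneg hw
  have k0 : ∀ j, |al1 C (e w.1.1) (cps sd e B i w) (cps sd e B i' w) j| ≤ η₁ := by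
    intro j
    refine (ha j).trans (le_trans ?_ n.n1)
    have e1 : (1 : ℝ) / 2 ^ g ≤ (4 * Rb + 1) / 2 ^ g :=
      div_le_div_of_nonneg_right (by linarith) h2g.le
    have e2 : 0 ≤ eD R κd D / 2 ^ s := div_nonneg hD h2s.le
    linarith
  refine ⟨fun k => ?_, ?_⟩
  · fin_cases k
    · have h1 := k0 0
      refine le_trans (le_of_eq ?_) h1
      unfold al1 lf uu
      simp only [Fin.sum_univ_three]
      congr 1
      show (C.g1 (cps sd e B i' w) 0 0 - C.g1 (cps sd e B i w) 0 0) * _ +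
        (C.g1 (cps sd e B i' w) 1 0 - C.g1 (cps sd e B i w) 1 0) * _ +
        (C.g1 (cps sd e B i' w) 2 0 - C.g1 (cps sd e B i w) 2 0) * _ = _
      simp only [Matrix.cons_val_zero]
      ring
    · have h1 := k0 1
      refine le_trans (le_of_eq ?_) h1
      unfold al1 lf uu
      simp only [Fin.sum_univ_three]
      congr 1
      show (C.g1 (cps sd e B i' w) 0 1 - C.g1 (cps sd e B i w) 0 1) * _ +
        (C.g1 (cps sd e B i' w) 1 1 - C.g1 (cps sd e B i w) 1 1) * _ +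
        (C.g1 (cps sd e B i' w) 2 1 - C.g1 (cps sd e B i w) 2 1) * _ = _
      simp only [Matrix.cons_val_one, Matrix.cons_val_zero]
      ring
    · have h1 := k0 2
      refine le_trans (le_of_eq ?_) h1
      unfold al1 lf uu
      simp only [Fin.sum_univ_three]
      congr 1
      show (C.g1 (cps sd e B i' w) 0 2 - C.g1 (cps sd e B i w) 0 2) * _ +
        (C.g1 (cps sd e B i' w) 1 2 - C.g1 (cps sd e B i w) 1 2) * _ +
        (C.g1 (cps sd e B i' w) 2 2 - C.g1 (cps sd e B i w) 2 2) * _ = _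
      simp only [Matrix.cons_val]
      ring
    · have h1 := (rel_one h.hm h.hp h.hU h.hv h.hi h.hi' hw n.κd0 hd.1 hd.2).2
      have h2 : |∑ l, al1 C (e w.1.1) (cps sd e B i w) (cps sd e B i' w) l *
          ((![P w.1.1 0, P w.1.1 1, P w.1.1 2, Tau w.1] l : ℤ) : ℝ)| ≤
          4 * (1 / 2 ^ g * (A * 2 ^ s)) := by
        have h2a : ∀ l : Fin 4, |al1 C (e w.1.1) (cps sd e B i w) (cps sd e B i' w) l *
            ((![P w.1.1 0, P w.1.1 1, P w.1.1 2, Tau w.1] l : ℤ) : ℝ)| ≤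
            1 / 2 ^ g * (A * 2 ^ s) := by
          intro l
          rw [abs_mul]
          refine mul_le_mul (ha l) ?_ (abs_nonneg _) (by positivity)
          fin_cases l
          · exact abs_int_le (h.hP _ hpw 0)
          · exact abs_int_le (h.hP _ hpw 1)
          · exact abs_int_le (h.hP _ hpw 2)
          · exact abs_int_le (h.hT _ hw1)
        refine (Finset.abs_sum_le_sum_abs _ _).trans
          ((Finset.sum_le_card_nsmul _ _ _ fun l _ => h2a l).trans (le_of_eq ?_))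
        rw [Finset.card_univ, Fintype.card_fin, nsmul_eq_mul]
        push_cast
        ring
      have h3 : lf (uu C i i' s 3 (cpa sd e B w)) (C.X (e w.1.1)) =
          be1 C (e w.1.1) (cps sd e B i w) (cps sd e B i' w) / 2 ^ s := by
        unfold be1 lf uu
        simp only [Fin.sum_univ_three]
        show (C.g0 (cps sd e B i' w) 0 - C.g0 (cps sd e B i w) 0) / 2 ^ s * _ +
          (C.g0 (cps sd e B i' w) 1 - C.g0 (cps sd e B i w) 1) / 2 ^ s * _ +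
          (C.g0 (cps sd e B i' w) 2 - C.g0 (cps sd e B i w) 2) / 2 ^ s * _ = _
        ring
      show |lf (uu C i i' s 3 (cpa sd e B w)) (C.X (e w.1.1))| ≤ η₁
      rw [h3, abs_div, abs_of_pos h2s, div_le_iff₀ h2s]
      have h4 : |be1 C (e w.1.1) (cps sd e B i w) (cps sd e B i' w)| ≤
          eD R κd D + 4 * (1 / 2 ^ g * (A * 2 ^ s)) := by
        have h5 := abs_sub (∑ l, al1 C (e w.1.1) (cps sd e B i w) (cps sd e B i' w) l *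
          ((![P w.1.1 0, P w.1.1 1, P w.1.1 2, Tau w.1] l : ℤ) : ℝ) +
          be1 C (e w.1.1) (cps sd e B i w) (cps sd e B i' w))
          (∑ l, al1 C (e w.1.1) (cps sd e B i w) (cps sd e B i' w) l *
          ((![P w.1.1 0, P w.1.1 1, P w.1.1 2, Tau w.1] l : ℤ) : ℝ))
        rw [add_sub_cancel_left] at h5
        linarith
      refine h4.trans ?_
      have h6 := mul_le_mul_of_nonneg_right n.n1 h2s.le
      have h7 : (eD R κd D / 2 ^ s + (4 * Rb + 1) / 2 ^ g) * 2 ^ s =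
          eD R κd D + (4 * Rb + 1) / 2 ^ g * 2 ^ s := by
        rw [add_mul, div_mul_cancel₀ _ h2s.ne']
      rw [h7] at h6
      refine le_trans ?_ h6
      have h8 : 4 * (1 / 2 ^ g * ((A : ℝ) * 2 ^ s)) ≤ (4 * Rb + 1) / 2 ^ g * 2 ^ s := by
        have e1 : 4 * (1 / 2 ^ g * ((A : ℝ) * 2 ^ s)) = (4 * A) / 2 ^ g * 2 ^ s := by ring
        rw [e1]
        refine mul_le_mul_of_nonneg_right ?_ h2s.le
        exact div_le_div_of_nonneg_right (by linarith [n.AR]) h2g.le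
      linarith
  · have e1 : bf (C.sy (cps sd e B i w)) (C.X (e w.1.1)) (C.X (e w.1.1)) =
        al1 C (e w.1.1) (cps sd e B i w) (cps sd e B i' w) 3 -
        (C.X (e w.1.1) 0 * al1 C (e w.1.1) (cps sd e B i w) (cps sd e B i' w) 0 +
        C.X (e w.1.1) 1 * al1 C (e w.1.1) (cps sd e B i w) (cps sd e B i' w) 1 +
        C.X (e w.1.1) 2 * al1 C (e w.1.1) (cps sd e B i w) (cps sd e B i' w) 2) := by
      rw [bf3]
      unfold Dec.sy al1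
      simp only [Fin.sum_univ_three, Matrix.cons_val_zero, Matrix.cons_val_one, Matrix.cons_val]
      ring
    rw [e1]
    have hX := h.hm.X _ hpw
    have k1 : ∀ j : Fin 3, ∀ l, |C.X (e w.1.1) j *
        al1 C (e w.1.1) (cps sd e B i w) (cps sd e B i' w) l| ≤ Rb * (1 / 2 ^ g) := by
      intro j l
      rw [abs_mul]
      exact mul_le_mul ((hX j).trans n.RR) (ha l) (abs_nonneg _) (by linarith)
    refine le_trans ?_ n.dg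
    have a1 := abs_sub (al1 C (e w.1.1) (cps sd e B i w) (cps sd e B i' w) 3)
      (C.X (e w.1.1) 0 * al1 C (e w.1.1) (cps sd e B i w) (cps sd e B i' w) 0 +
        C.X (e w.1.1) 1 * al1 C (e w.1.1) (cps sd e B i w) (cps sd e B i' w) 1 +
        C.X (e w.1.1) 2 * al1 C (e w.1.1) (cps sd e B i w) (cps sd e B i' w) 2)
    have a2 := abs_add_le (C.X (e w.1.1) 0 * al1 C (e w.1.1) (cps sd e B i w) (cps sd e B i' w) 0 +
        C.X (e w.1.1) 1 * al1 C (e w.1.1) (cps sd e B i w) (cps sd e B i' w) 1)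
        (C.X (e w.1.1) 2 * al1 C (e w.1.1) (cps sd e B i w) (cps sd e B i' w) 2)
    have a3 := abs_add_le (C.X (e w.1.1) 0 * al1 C (e w.1.1) (cps sd e B i w) (cps sd e B i' w) 0)
        (C.X (e w.1.1) 1 * al1 C (e w.1.1) (cps sd e B i w) (cps sd e B i' w) 1)
    have a4 := ha 3
    have a5 := k1 0 0
    have a6 := k1 1 1
    have a7 := k1 2 2
    have e2 : (1 + 3 * Rb) / 2 ^ g = 1 / 2 ^ g + 3 * (Rb * (1 / 2 ^ g)) := by ring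
    rw [e2]
    linarith

theorem Nm.lin (n : Nm R Rb κ δ μ b0 t0 s g A D Γ κd η₁ ε₁ ε₃ B₃ la ε₄ ε₅ ε₆) {η ε' : ℝ}
    (h : 2 ^ 23 * (6 * Rb ^ 15) * η ≤ μ * κ ^ 8 * ε') (hε : 0 ≤ ε') :
    2 ^ 22 * Rb ^ 13 * (δ * ε' + 6 * Rb ^ 2 * η) ≤ μ * κ ^ 8 * ε' := by
  have h1 := mul_le_mul_of_nonneg_right n.dk hε
  have e1 : 2 ^ 22 * Rb ^ 13 * (δ * ε' + 6 * Rb ^ 2 * η) =
      (2 ^ 23 * Rb ^ 13 * δ * ε') / 2 + (2 ^ 23 * (6 * Rb ^ 15) * η) / 2 := by ring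
  rw [e1]
  linarith

theorem Nm.lt (n : Nm R Rb κ δ μ b0 t0 s g A D Γ κd η₁ ε₁ ε₃ B₃ la ε₄ ε₅ ε₆) :
    2 ^ 22 * Rb ^ 13 * δ < μ * κ ^ 8 := by
  have h1 := n.dk
  have h2 : 0 < μ * κ ^ 8 := by
    have a1 := n.μ0
    have a2 := n.κ0
    positivity
  have e1 : 2 ^ 22 * Rb ^ 13 * δ = (2 ^ 23 * Rb ^ 13 * δ) / 2 := by ring
  rw [e1]
  linarith

/-- **A small linear form which depends on the copies.** -/
theorem J3.lin (h : J3 p S z z' C sd e B U P Tau i i' R κ D s A K c ηF ηH e₁ e₂)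
    (n : Nm R Rb κ δ μ b0 t0 s g A D Γ κd η₁ ε₁ ε₃ B₃ la ε₄ ε₅ ε₆) {c₁ : ℝ} (hc₁ : 0 < c₁)
    (hn : (N * (ηF + ηH) + Real.log 2) / c₁ + Real.log 36 < (1 - c / c₁) * Real.log K)
    (u : (Fin N → ε × ℤ) → ζ' → Fin 3 → ℝ) {η ε' : ℝ} (hε : 0 ≤ ε')
    (hη : 2 ^ 23 * (6 * Rb ^ 15) * η ≤ μ * κ ^ 8 * ε')
    (G : (Ω × Ω) × (Fin N → Ω × Ω) → Prop)
    (hG : ∀ w, 0 < PL p S z' sd w → G w → Gd z' C sd e B U Tau i i' Q Q' R μ δ b0 t0 Γ D s w ∧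
      |lf (u (cpa sd e B w) (z' w.1.1)) (C.X (e w.1.1))| ≤ η) :
    law (PL p S z' sd) (fun w => G w ∧ ∃ l, ε' < |u (cpa sd e B w) (z' w.1.1) l|) True ≤ c₁ := by
  refine (read_dir h.hp h.hz h.hS sd e B h.hF h.hH C κ (K' := 36) h.K1 h.c0 h.hE hc₁ _
    (fun y t => {x | x 0 = 1 ∧ (∀ i, |x i| ≤ Rb) ∧ |bf (Q y t) x x| ≤ δ ∧ |lf (u y t) x| ≤ η})
    (fun w hw hG' => ?_) (by exact_mod_cast hn)).le
  obtain ⟨h1, h2⟩ := hG w hw hG'.1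
  have hpw := (PL_pos h.hp S z' sd hw).1
  refine ⟨⟨h.X0 _ hpw, fun j => (h.hm.X _ hpw j).trans n.RR, h1.o, h2⟩, ?_⟩
  obtain ⟨F, hF, hF2⟩ := cell_lin (Q := Q (cpa sd e B w) (z' w.1.1)) (n.R1.trans n.RR) n.κ0
    (cn_mono h1.q n.RR) hG'.2 n.lt (n.lin hη hε)
  exact ⟨F, hF.trans (by norm_num), fun x hx => hF2 x hx.1 hx.2.1 hx.2.2.1 hx.2.2.2⟩

/-- **A small form which depends on the copies.** -/
theorem J3.qua (h : J3 p S z z' C sd e B U P Tau i i' R κ D s A K c ηF ηH e₁ e₂)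
    (n : Nm R Rb κ δ μ b0 t0 s g A D Γ κd η₁ ε₁ ε₃ B₃ la ε₄ ε₅ ε₆) {c₁ : ℝ} (hc₁ : 0 < c₁)
    (hn : (N * (ηF + ηH) + Real.log 2) / c₁ + Real.log 36 < (1 - c / c₁) * Real.log K)
    (m : (Fin N → ε × ℤ) → Fin 3 → Fin 3 → ℝ)
    (G : (Ω × Ω) × (Fin N → Ω × Ω) → Prop)
    (hG : ∀ w, 0 < PL p S z' sd w → G w → Gd z' C sd e B U Tau i i' Q Q' R μ δ b0 t0 Γ D s w ∧
      (∀ j l, m (cpa sd e B w) j l = m (cpa sd e B w) l j) ∧
      (∀ j l, |m (cpa sd e B w) j l| ≤ Rb) ∧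
      |bf (m (cpa sd e B w)) (C.X (e w.1.1)) (C.X (e w.1.1))| ≤ δ) :
    law (PL p S z' sd)
      (fun w => G w ∧ Far (m (cpa sd e B w)) (Q (cpa sd e B w) (z' w.1.1)) B₃ ε₃) True ≤ c₁ := by
  refine (read_dir h.hp h.hz h.hS sd e B h.hF h.hH C κ (K' := 36) h.K1 h.c0 h.hE hc₁ _
    (fun y t => {x | x 0 = 1 ∧ (∀ i, |x i| ≤ Rb) ∧ |bf (Q y t) x x| ≤ δ ∧ |bf (m y) x x| ≤ δ})
    (fun w hw hG' => ?_) (by exact_mod_cast hn)).le
  obtain ⟨h1, h2, h3, h4⟩ := hG w hw hG'.1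
  have hpw := (PL_pos h.hp S z' sd hw).1
  refine ⟨⟨h.X0 _ hpw, fun j => (h.hm.X _ hpw j).trans n.RR, h1.o, h4⟩, ?_⟩
  obtain ⟨F, hF, hF2⟩ := cell_quad (Q := Q (cpa sd e B w) (z' w.1.1)) (n.R1.trans n.RR) n.κ0
    n.la0 n.μ0 (cn_mono h1.q n.RR) h2 h3 hG'.2 n.la1 n.dk n.la2 n.la3 n.la4
  exact ⟨F, hF, fun x hx => hF2 x hx.1 hx.2.1 hx.2.2.1 hx.2.2.2⟩

theorem J3.sy_le (h : J3 p S z z' C sd e B U P Tau i i' R κ D s A K c ηF ηH e₁ e₂)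
    (n : Nm R Rb κ δ μ b0 t0 s g A D Γ κd η₁ ε₁ ε₃ B₃ la ε₄ ε₅ ε₆)
    {w : (Ω × Ω) × (Fin N → Ω × Ω)} (hw : 0 < PL p S z' sd w) (j : Fin 3 → Fin N)
    (hd : Dt C sd e B j κd w) (a b : Fin 3) :
    |C.g1 (cps sd e B j w) a b| ≤ Rb ∧ |C.sy (cps sd e B j w) a b| ≤ Rb := by
  have h1 : ∀ a b, |C.g1 (cps sd e B j w) a b| ≤ Rb := fun a b =>
    (C.g1_le (one_le_pow₀ n.R1) n.κd0 (fun r l => h.hm.fi_le h.hp j hw r l) hd
      (fun r l => h.hm.ps_le h.hp j hw r l) a b).trans n.cR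
  refine ⟨h1 a b, ?_⟩
  unfold Dec.sy
  rw [abs_div, abs_two]
  have h2 := abs_add_le (C.g1 (cps sd e B j w) a b) (C.g1 (cps sd e B j w) b a)
  have h3 := h1 a b
  have h4 := h1 b a
  linarith

/-- The event after all readings but the last. -/
structure Ev (z' : Ω → ζ') (C : Dec ε) (sd : Fin N → Bool) (e : Ω → ε) (B : Ω → ℤ)
    (U : Ω → Fin 3 → ℤ) (Tau : Ω × Ω → ℤ) (i i' : Fin 3 → Fin N)
    (Q : (Fin N → ε × ℤ) → ζ' → Fin 3 → Fin 3 → ℝ) (Q' : (Fin N → ε × ℤ) → Fin 3 → Fin 3 → ℝ)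
    (R μ δ b0 t0 Γ D : ℝ) (s g : ℕ) (κd ε₁ ε₃ B₃ : ℝ)
    (w : (Ω × Ω) × (Fin N → Ω × Ω)) : Prop where
  G : Gd z' C sd e B U Tau i i' Q Q' R μ δ b0 t0 Γ D s w
  d : Dt C sd e B i κd w ∧ Dt C sd e B i' κd w
  a1 : Sm C sd e B i i' g w
  u : ∀ k l, |uu C i i' s k (cpa sd e B w) l| ≤ ε₁
  f' : ¬Far (Q' (cpa sd e B w)) (Q (cpa sd e B w) (z' w.1.1)) B₃ ε₃
  f : ¬Far (C.sy (cps sd e B i w)) (Q (cpa sd e B w) (z' w.1.1)) B₃ ε₃
  a2 : ∀ j, |al2 C (e w.1.1) (cps sd e B i w) j| ≤ 1 / 2 ^ g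

/-- The difference of the germs. -/
theorem J3.dif (h : J3 p S z z' C sd e B U P Tau i i' R κ D s A K c ηF ηH e₁ e₂)
    (n : Nm R Rb κ δ μ b0 t0 s g A D Γ κd η₁ ε₁ ε₃ B₃ la ε₄ ε₅ ε₆)
    {w : (Ω × Ω) × (Fin N → Ω × Ω)} (hw : 0 < PL p S z' sd w)
    (E : Ev z' C sd e B U Tau i i' Q Q' R μ δ b0 t0 Γ D s g κd ε₁ ε₃ B₃ w) (l : Fin 3) :
    |((U w.1.2 l : ℝ) - U w.1.1 l) / 2 ^ s -
      (Tau w.1 : ℝ) / 2 ^ s * lf (C.g1 (cps sd e B i w) l) (C.X (e w.1.1))| ≤ ε₄ := by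
  have hRb : 1 ≤ Rb := n.R1.trans n.RR
  have h2s : (0 : ℝ) < 2 ^ s := by positivity
  have hpw := (PL_pos h.hp S z' sd hw).1
  have hw1 : 0 < P2 p S w.1 := (PL_base h.hp S z' sd).pos (PL_isLaw h.hp S z' sd).nonneg hw
  have h1 := (rel_one h.hm h.hp h.hU h.hv h.hi h.hi' hw n.κd0 E.d.1 E.d.2).1 l
  have u0 : |C.g1 (cps sd e B i' w) l 0 - C.g1 (cps sd e B i w) l 0| ≤ ε₁ := E.u 0 l
  have u1 : |C.g1 (cps sd e B i' w) l 1 - C.g1 (cps sd e B i w) l 1| ≤ ε₁ := E.u 1 l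
  have u2 : |C.g1 (cps sd e B i' w) l 2 - C.g1 (cps sd e B i w) l 2| ≤ ε₁ := E.u 2 l
  have u3 : |(C.g0 (cps sd e B i' w) l - C.g0 (cps sd e B i w) l) / 2 ^ s| ≤ ε₁ := E.u 3 l
  have hε : 0 ≤ ε₁ := (abs_nonneg _).trans u0
  have hP : ∀ j, |(P w.1.1 j : ℝ) / 2 ^ s| ≤ Rb := by
    intro j
    rw [abs_div, abs_of_pos h2s, div_le_iff₀ h2s]
    exact (abs_int_le (h.hP _ hpw j)).trans (mul_le_mul_of_nonneg_right n.AR h2s.le)
  have hT : |(Tau w.1 : ℝ) / 2 ^ s| ≤ Rb := by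
    rw [abs_div, abs_of_pos h2s, div_le_iff₀ h2s]
    exact (abs_int_le (h.hT _ hw1)).trans (mul_le_mul_of_nonneg_right n.AR h2s.le)
  have hX : ∀ j, |C.X (e w.1.1) j| ≤ Rb := fun j => (h.hm.X _ hpw j).trans n.RR
  have hR2 : Rb ≤ Rb ^ 2 := by nlinarith
  have e1 : ((U w.1.2 l : ℝ) - U w.1.1 l) / 2 ^ s -
      (Tau w.1 : ℝ) / 2 ^ s * lf (C.g1 (cps sd e B i w) l) (C.X (e w.1.1)) =
      (((U w.1.2 l : ℝ) - U w.1.1 l) - ((C.g0 (cps sd e B i' w) l - C.g0 (cps sd e B i w) l) +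
      ∑ j, (C.g1 (cps sd e B i' w) l j - C.g1 (cps sd e B i w) l j) * P w.1.1 j +
      Tau w.1 * ∑ j, C.g1 (cps sd e B i' w) l j * C.X (e w.1.1) j)) / 2 ^ s +
      (C.g0 (cps sd e B i' w) l - C.g0 (cps sd e B i w) l) / 2 ^ s +
      ((C.g1 (cps sd e B i' w) l 0 - C.g1 (cps sd e B i w) l 0) * ((P w.1.1 0 : ℝ) / 2 ^ s) +
      (C.g1 (cps sd e B i' w) l 1 - C.g1 (cps sd e B i w) l 1) * ((P w.1.1 1 : ℝ) / 2 ^ s) +
      (C.g1 (cps sd e B i' w) l 2 - C.g1 (cps sd e B i w) l 2) * ((P w.1.1 2 : ℝ) / 2 ^ s)) +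
      ((C.g1 (cps sd e B i' w) l 0 - C.g1 (cps sd e B i w) l 0) *
        ((Tau w.1 : ℝ) / 2 ^ s * C.X (e w.1.1) 0) +
      (C.g1 (cps sd e B i' w) l 1 - C.g1 (cps sd e B i w) l 1) *
        ((Tau w.1 : ℝ) / 2 ^ s * C.X (e w.1.1) 1) +
      (C.g1 (cps sd e B i' w) l 2 - C.g1 (cps sd e B i w) l 2) *
        ((Tau w.1 : ℝ) / 2 ^ s * C.X (e w.1.1) 2)) := by
    unfold lf
    simp only [Fin.sum_univ_three]
    field_simp
    ring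
  rw [e1]
  have t1 : |(((U w.1.2 l : ℝ) - U w.1.1 l) - ((C.g0 (cps sd e B i' w) l -
      C.g0 (cps sd e B i w) l) +
      ∑ j, (C.g1 (cps sd e B i' w) l j - C.g1 (cps sd e B i w) l j) * P w.1.1 j +
      Tau w.1 * ∑ j, C.g1 (cps sd e B i' w) l j * C.X (e w.1.1) j)) / 2 ^ s| ≤
      (2 * eG R κd D + 3 * (cK 3 (R ^ 2) κd * R) * D) / 2 ^ s := by
    rw [abs_div, abs_of_pos h2s]
    exact div_le_div_of_nonneg_right h1 h2s.le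
  have tp : ∀ {x y : ℝ}, |x| ≤ ε₁ → |y| ≤ Rb → |x * y| ≤ Rb ^ 2 * ε₁ := by
    intro x y hx hy
    rw [abs_mul]
    calc |x| * |y| ≤ ε₁ * Rb := mul_le_mul hx hy (abs_nonneg _) hε
      _ = Rb * ε₁ := by ring
      _ ≤ Rb ^ 2 * ε₁ := mul_le_mul_of_nonneg_right hR2 hε
  have tq : ∀ {x y : ℝ}, |x| ≤ ε₁ → |y| ≤ Rb → |x * ((Tau w.1 : ℝ) / 2 ^ s * y)| ≤
      Rb ^ 2 * ε₁ := by
    intro x y hx hy
    rw [abs_mul, abs_mul]
    calc |x| * (|(Tau w.1 : ℝ) / 2 ^ s| * |y|) ≤ ε₁ * (Rb * Rb) :=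
          mul_le_mul hx (mul_le_mul hT hy (abs_nonneg _) (by linarith)) (by positivity) hε
      _ = Rb ^ 2 * ε₁ := by ring
  have p0 := tp u0 (hP 0)
  have p1 := tp u1 (hP 1)
  have p2 := tp u2 (hP 2)
  have q0 := tq u0 (hX 0)
  have q1 := tq u1 (hX 1)
  have q2 := tq u2 (hX 2)
  have hR1 : ε₁ ≤ Rb ^ 2 * ε₁ := by
    have : (1 : ℝ) ≤ Rb ^ 2 := one_le_pow₀ hRb
    nlinarith
  refine le_trans ?_ n.n4a
  obtain ⟨x1, hx1⟩ : ∃ x, x = (((U w.1.2 l : ℝ) - U w.1.1 l) - ((C.g0 (cps sd e B i' w) l -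
      C.g0 (cps sd e B i w) l) +
      ∑ j, (C.g1 (cps sd e B i' w) l j - C.g1 (cps sd e B i w) l j) * P w.1.1 j +
      Tau w.1 * ∑ j, C.g1 (cps sd e B i' w) l j * C.X (e w.1.1) j)) / 2 ^ s := ⟨_, rfl⟩
  rw [← hx1] at t1 ⊢
  have s1 := abs_add_three x1 ((C.g0 (cps sd e B i' w) l - C.g0 (cps sd e B i w) l) / 2 ^ s)
    ((C.g1 (cps sd e B i' w) l 0 - C.g1 (cps sd e B i w) l 0) * ((P w.1.1 0 : ℝ) / 2 ^ s) +
      (C.g1 (cps sd e B i' w) l 1 - C.g1 (cps sd e B i w) l 1) * ((P w.1.1 1 : ℝ) / 2 ^ s) +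
      (C.g1 (cps sd e B i' w) l 2 - C.g1 (cps sd e B i w) l 2) * ((P w.1.1 2 : ℝ) / 2 ^ s))
  have s2 := abs_add_three ((C.g1 (cps sd e B i' w) l 0 - C.g1 (cps sd e B i w) l 0) *
      ((P w.1.1 0 : ℝ) / 2 ^ s))
      ((C.g1 (cps sd e B i' w) l 1 - C.g1 (cps sd e B i w) l 1) * ((P w.1.1 1 : ℝ) / 2 ^ s))
      ((C.g1 (cps sd e B i' w) l 2 - C.g1 (cps sd e B i w) l 2) * ((P w.1.1 2 : ℝ) / 2 ^ s))
  have s3 := abs_add_three ((C.g1 (cps sd e B i' w) l 0 - C.g1 (cps sd e B i w) l 0) *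
        ((Tau w.1 : ℝ) / 2 ^ s * C.X (e w.1.1) 0))
      ((C.g1 (cps sd e B i' w) l 1 - C.g1 (cps sd e B i w) l 1) *
        ((Tau w.1 : ℝ) / 2 ^ s * C.X (e w.1.1) 1))
      ((C.g1 (cps sd e B i' w) l 2 - C.g1 (cps sd e B i w) l 2) *
        ((Tau w.1 : ℝ) / 2 ^ s * C.X (e w.1.1) 2))
  have s4 := abs_add_le (x1 + (C.g0 (cps sd e B i' w) l - C.g0 (cps sd e B i w) l) / 2 ^ s +
      ((C.g1 (cps sd e B i' w) l 0 - C.g1 (cps sd e B i w) l 0) * ((P w.1.1 0 : ℝ) / 2 ^ s) +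
      (C.g1 (cps sd e B i' w) l 1 - C.g1 (cps sd e B i w) l 1) * ((P w.1.1 1 : ℝ) / 2 ^ s) +
      (C.g1 (cps sd e B i' w) l 2 - C.g1 (cps sd e B i w) l 2) * ((P w.1.1 2 : ℝ) / 2 ^ s)))
      ((C.g1 (cps sd e B i' w) l 0 - C.g1 (cps sd e B i w) l 0) *
        ((Tau w.1 : ℝ) / 2 ^ s * C.X (e w.1.1) 0) +
      (C.g1 (cps sd e B i' w) l 1 - C.g1 (cps sd e B i w) l 1) *
        ((Tau w.1 : ℝ) / 2 ^ s * C.X (e w.1.1) 1) +
      (C.g1 (cps sd e B i' w) l 2 - C.g1 (cps sd e B i w) l 2) *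
        ((Tau w.1 : ℝ) / 2 ^ s * C.X (e w.1.1) 2))
  linarith

/-- The relation between the two conics and the differences. -/
theorem J3.bet (h : J3 p S z z' C sd e B U P Tau i i' R κ D s A K c ηF ηH e₁ e₂)
    (n : Nm R Rb κ δ μ b0 t0 s g A D Γ κd η₁ ε₁ ε₃ B₃ la ε₄ ε₅ ε₆)
    {w : (Ω × Ω) × (Fin N → Ω × Ω)} (hw : 0 < PL p S z' sd w)
    (E : Ev z' C sd e B U Tau i i' Q Q' R μ δ b0 t0 Γ D s g κd ε₁ ε₃ B₃ w) :
    ∃ gam : ℝ, ∀ l, |C.b (e w.1.1) * (((U w.1.2 l : ℝ) - U w.1.1 l) / 2 ^ s) +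
      2 * ((Tau w.1 : ℝ) / 2 ^ s) * C.Th (e w.1.1) l -
      gam * lf (Q (cpa sd e B w) (z' w.1.1) l) (C.X (e w.1.1))| ≤ ε₄ := by
  have hRb : 1 ≤ Rb := n.R1.trans n.RR
  have h2s : (0 : ℝ) < 2 ^ s := by positivity
  have hpw := (PL_pos h.hp S z' sd hw).1
  have hX : ∀ j, |C.X (e w.1.1) j| ≤ Rb := fun j => (h.hm.X _ hpw j).trans n.RR
  obtain ⟨γ, γ', hγ, hrel⟩ := E.G.rel
  have hf := E.f'
  unfold Far at hf
  rw [not_not] at hf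
  obtain ⟨ρ, -, hρ⟩ := hf
  have hε : 0 ≤ ε₃ := (abs_nonneg _).trans (hρ 0 0)
  refine ⟨(ρ * γ' - γ) / 2 ^ s, fun l => ?_⟩
  have h1 := hrel l
  obtain ⟨v, hv⟩ : ∃ v : Fin 3 → ℝ, v = fun j => Q' (cpa sd e B w) l j -
    ρ * Q (cpa sd e B w) (z' w.1.1) l j := ⟨_, rfl⟩
  have h2 : |lf v (C.X (e w.1.1))| ≤ 3 * (ε₃ * Rb) :=
    lf_le (fun j => by
      rw [hv]
      exact hρ l j) hX
  have e1 : C.b (e w.1.1) * (((U w.1.2 l : ℝ) - U w.1.1 l) / 2 ^ s) +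
      2 * ((Tau w.1 : ℝ) / 2 ^ s) * C.Th (e w.1.1) l -
      (ρ * γ' - γ) / 2 ^ s * lf (Q (cpa sd e B w) (z' w.1.1) l) (C.X (e w.1.1)) =
      (C.b (e w.1.1) * ((U w.1.2 l : ℝ) - U w.1.1 l) +
      2 * Tau w.1 * C.Th (e w.1.1) l - (γ' * lf (Q' (cpa sd e B w) l) (C.X (e w.1.1)) -
        γ * lf (Q (cpa sd e B w) (z' w.1.1) l) (C.X (e w.1.1)))) / 2 ^ s +
      γ' / 2 ^ s * lf v (C.X (e w.1.1)) := by
    rw [hv]
    unfold lf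
    field_simp
    ring
  rw [e1]
  have t1 : |(C.b (e w.1.1) * ((U w.1.2 l : ℝ) - U w.1.1 l) +
      2 * Tau w.1 * C.Th (e w.1.1) l - (γ' * lf (Q' (cpa sd e B w) l) (C.X (e w.1.1)) -
        γ * lf (Q (cpa sd e B w) (z' w.1.1) l) (C.X (e w.1.1)))) / 2 ^ s| ≤ D / 2 ^ s := by
    rw [abs_div, abs_of_pos h2s]
    exact div_le_div_of_nonneg_right h1 h2s.le
  have t2 : |γ' / 2 ^ s * lf v (C.X (e w.1.1))| ≤ Γ * (3 * (ε₃ * Rb)) := by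
    rw [abs_mul]
    have a1 : |γ' / 2 ^ s| ≤ Γ := by
      rw [abs_div, abs_of_pos h2s, div_le_iff₀ h2s]
      exact hγ
    exact mul_le_mul a1 h2 (abs_nonneg _) ((abs_nonneg _).trans a1)
  exact ((abs_add_le _ _).trans (add_le_add t1 t2)).trans n.n4d

/-- The linear form of the skew part. -/
theorem J3.ome (h : J3 p S z z' C sd e B U P Tau i i' R κ D s A K c ηF ηH e₁ e₂)
    (n : Nm R Rb κ δ μ b0 t0 s g A D Γ κd η₁ ε₁ ε₃ B₃ la ε₄ ε₅ ε₆)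
    {w : (Ω × Ω) × (Fin N → Ω × Ω)} (hw : 0 < PL p S z' sd w)
    (E : Ev z' C sd e B U Tau i i' Q Q' R μ δ b0 t0 Γ D s g κd ε₁ ε₃ B₃ w) :
    |lf (fun l => lf (Q (cpa sd e B w) (z' w.1.1) l) (axi (C.g1 (cps sd e B i w))))
      (C.X (e w.1.1))| ≤ 30 * Rb ^ 5 * ε₄ / (b0 * t0) := by
  have hRb : 1 ≤ Rb := n.R1.trans n.RR
  have h2s : (0 : ℝ) < 2 ^ s := by positivity
  have hpw := (PL_pos h.hp S z' sd hw).1
  have hw1 : 0 < P2 p S w.1 := (PL_base h.hp S z' sd).pos (PL_isLaw h.hp S z' sd).nonneg hw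
  obtain ⟨gam, hgam⟩ := h.bet n hw E
  have hf := E.f
  unfold Far at hf
  rw [not_not] at hf
  obtain ⟨ρ, -, hρ⟩ := hf
  have hε3 : 0 ≤ ε₃ := (abs_nonneg _).trans (hρ 0 0)
  have hT : |(Tau w.1 : ℝ) / 2 ^ s| ≤ Rb := by
    rw [abs_div, abs_of_pos h2s, div_le_iff₀ h2s]
    exact (abs_int_le (h.hT _ hw1)).trans (mul_le_mul_of_nonneg_right n.AR h2s.le)
  have h1 := con_om (Q := Q (cpa sd e B w) (z' w.1.1)) (M := C.g1 (cps sd e B i w))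
    (X := C.X (e w.1.1)) (Th := C.Th (e w.1.1))
    (dth := fun l => ((U w.1.2 l : ℝ) - U w.1.1 l) / 2 ^ s) (b := C.b (e w.1.1))
    (τ := (Tau w.1 : ℝ) / 2 ^ s) (gam := gam) (ρ := ρ) (R := Rb) (ε := ε₄) hRb
    (hε3.trans n.n4b) (h.X0 _ hpw) (fun j => (h.hm.X _ hpw j).trans n.RR) E.G.q.symm
    (fun a b => (E.G.q.le a b).trans n.RR)
    (fun a b => (h.sy_le n hw i E.d.1 a b).1) ((h.hm.b _ hpw).trans n.RR) hT
    (fun l => h.dif n hw E l) (fun a b => (hρ a b).trans n.n4b)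
    (fun l => by
      have h2 := (E.a2 l).trans n.n4c
      refine le_trans (le_of_eq ?_) h2
      unfold al2 lf
      simp only [Fin.sum_univ_three]
      congr 1
      ring) hgam (E.G.o.trans n.n4e)
  have h2 : t0 ≤ |(Tau w.1 : ℝ) / 2 ^ s| := by
    rw [abs_div, abs_of_pos h2s, le_div_iff₀ h2s]
    exact E.G.t
  have h3 : b0 * t0 ≤ |C.b (e w.1.1)| * |(Tau w.1 : ℝ) / 2 ^ s| :=
    mul_le_mul E.G.b h2 n.t00.le (abs_nonneg _)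
  have h4 : 0 < b0 * t0 := mul_pos n.b00 n.t00
  rw [le_div_iff₀ h4, mul_comm]
  exact (mul_le_mul_of_nonneg_right h3 (abs_nonneg _)).trans h1

/-- The label from the last reading. -/
theorem J3.fin (h : J3 p S z z' C sd e B U P Tau i i' R κ D s A K c ηF ηH e₁ e₂)
    (n : Nm R Rb κ δ μ b0 t0 s g A D Γ κd η₁ ε₁ ε₃ B₃ la ε₄ ε₅ ε₆)
    {w : (Ω × Ω) × (Fin N → Ω × Ω)} (hw : 0 < PL p S z' sd w)
    (E : Ev z' C sd e B U Tau i i' Q Q' R μ δ b0 t0 Γ D s g κd ε₁ ε₃ B₃ w)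
    (ho : ∀ l, |lf (Q (cpa sd e B w) (z' w.1.1) l) (axi (C.g1 (cps sd e B i w)))| ≤ ε₅) :
    Lb C sd e B U Tau i i' δ ε₁ ε₆ s w := by
  have hRb : 1 ≤ Rb := n.R1.trans n.RR
  have h2s : (0 : ℝ) < 2 ^ s := by positivity
  have hpw := (PL_pos h.hp S z' sd hw).1
  have hw1 : 0 < P2 p S w.1 := (PL_base h.hp S z' sd).pos (PL_isLaw h.hp S z' sd).nonneg hw
  have hf := E.f
  unfold Far at hf
  rw [not_not] at hf
  obtain ⟨ρ, -, hρ⟩ := hf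
  have hε3 : 0 ≤ ε₃ := (abs_nonneg _).trans (hρ 0 0)
  have hT : |(Tau w.1 : ℝ) / 2 ^ s| ≤ Rb := by
    rw [abs_div, abs_of_pos h2s, div_le_iff₀ h2s]
    exact (abs_int_le (h.hT _ hw1)).trans (mul_le_mul_of_nonneg_right n.AR h2s.le)
  have hX : ∀ j, |C.X (e w.1.1) j| ≤ Rb := fun j => (h.hm.X _ hpw j).trans n.RR
  constructor
  · intro l
    have h1 := con_fin (Q := Q (cpa sd e B w) (z' w.1.1)) (M := C.g1 (cps sd e B i w))
      (X := C.X (e w.1.1)) (dth := fun l => ((U w.1.2 l : ℝ) - U w.1.1 l) / 2 ^ s)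
      (τ := (Tau w.1 : ℝ) / 2 ^ s) (ρ := ρ) (R := Rb) (ε := ε₄) (η := ε₅) (μ := μ) hRb
      (hε3.trans n.n4b) hX (fun a b => (E.G.q.le a b).trans n.RR) n.μ0 E.G.q.det hT
      (fun l => h.dif n hw E l) (fun a b => (hρ a b).trans n.n4b) ho l
    obtain ⟨v, hv⟩ : ∃ v : Fin 3 → ℝ, v = fun j => C.sy (cps sd e B i w) l j -
      ρ * Q (cpa sd e B w) (z' w.1.1) l j := ⟨_, rfl⟩
    have h2 : |lf v (C.X (e w.1.1))| ≤ 3 * (ε₃ * Rb) :=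
      lf_le (fun j => by
        rw [hv]
        exact hρ l j) hX
    have e1 : (U w.1.2 l : ℝ) - U w.1.1 l -
        Tau w.1 * lf (C.sy (cps sd e B i w) l) (C.X (e w.1.1)) =
        ((((U w.1.2 l : ℝ) - U w.1.1 l) / 2 ^ s - (Tau w.1 : ℝ) / 2 ^ s * ρ *
          lf (Q (cpa sd e B w) (z' w.1.1) l) (C.X (e w.1.1))) -
          (Tau w.1 : ℝ) / 2 ^ s * lf v (C.X (e w.1.1))) * 2 ^ s := by
      rw [hv]
      unfold lf
      field_simp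
      ring
    rw [e1, abs_mul, abs_of_pos h2s]
    refine mul_le_mul_of_nonneg_right ?_ h2s.le
    refine (abs_sub _ _).trans (le_trans ?_ n.n6)
    have h3 : |(Tau w.1 : ℝ) / 2 ^ s * lf v (C.X (e w.1.1))| ≤ 3 * (Rb ^ 2 * ε₃) := by
      rw [abs_mul]
      calc |(Tau w.1 : ℝ) / 2 ^ s| * |lf v (C.X (e w.1.1))| ≤ Rb * (3 * (ε₃ * Rb)) :=
            mul_le_mul hT h2 (abs_nonneg _) (by linarith)
        _ = 3 * (Rb ^ 2 * ε₃) := by ring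
    exact add_le_add h1 h3
  · have hg : ∀ a b, |C.g1 (cps sd e B i' w) a b - C.g1 (cps sd e B i w) a b| ≤ ε₁ := by
      intro a b
      fin_cases b
      · exact E.u 0 a
      · exact E.u 1 a
      · exact E.u 2 a
    intro a b
    have e1 : C.sy (cps sd e B i' w) a b - C.sy (cps sd e B i w) a b =
        ((C.g1 (cps sd e B i' w) a b - C.g1 (cps sd e B i w) a b) +
          (C.g1 (cps sd e B i' w) b a - C.g1 (cps sd e B i w) b a)) / 2 := by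
      unfold Dec.sy
      ring
    rw [e1, abs_div, abs_two]
    have a1 := abs_add_le (C.g1 (cps sd e B i' w) a b - C.g1 (cps sd e B i w) a b)
      (C.g1 (cps sd e B i' w) b a - C.g1 (cps sd e B i w) b a)
    have a2 := hg a b
    have a3 := hg b a
    linarith
  · exact (h.sml n hw E.d E.a1).2

/-- **The join of the case of a conic.** -/
theorem J3.join (h : J3 p S z z' C sd e B U P Tau i i' R κ D s A K c ηF ηH e₁ e₂)
    (n : Nm R Rb κ δ μ b0 t0 s g A D Γ κd η₁ ε₁ ε₃ B₃ la ε₄ ε₅ ε₆) {c₁ c₂ : ℝ} (hc₁ : 0 < c₁)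
    (hn : (N * (ηF + ηH) + Real.log 2) / c₁ + Real.log 36 < (1 - c / c₁) * Real.log K)
    (hx : 0 < ((s : ℝ) - g) * Real.log 2 - Real.log (2 * (2 * eD R κd D + 4 * A + 1) + 1))
    (hn1 : e₁ + N * (ηF + ηH) + Real.log 5 + 4 * Real.log (2 * A + 1) ≤
      c₂ * (((s : ℝ) - g) * Real.log 2 - Real.log (2 * (2 * eD R κd D + 4 * A + 1) + 1)))
    (hx' : 0 < ((s : ℝ) - g) * Real.log 2 - Real.log (2 * (2 * eH R κd D + 3 * A + 1) + 1))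
    (hn2 : ηH + (e₂ + N * (ηF + ηH)) + Real.log 4 + 3 * Real.log (2 * A + 1) ≤
      c₂ * (((s : ℝ) - g) * Real.log 2 - Real.log (2 * (2 * eH R κd D + 3 * A + 1) + 1))) :
    law (PL p S z' sd) (fun w => Gd z' C sd e B U Tau i i' Q Q' R μ δ b0 t0 Γ D s w ∧
      ¬Lb C sd e B U Tau i i' δ ε₁ ε₆ s w) True ≤ 13 * c₁ + 2 * c₂ := by
  have h0 := (PL_isLaw h.hp S z' sd).nonneg
  have hRb : 1 ≤ Rb := n.R1.trans n.RR
  have hε : ∀ {η ε' : ℝ}, 0 ≤ η → 2 ^ 23 * (6 * Rb ^ 15) * η ≤ μ * κ ^ 8 * ε' → 0 ≤ ε' := by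
    intro η ε' hη hh
    have a0 : 0 < μ * κ ^ 8 := by
      have a1 := n.μ0
      have a2 := n.κ0
      positivity
    have a3 : 0 ≤ 2 ^ 23 * (6 * Rb ^ 15) * η := by positivity
    by_contra hcon
    rw [not_le] at hcon
    have a4 := mul_neg_of_pos_of_neg a0 hcon
    linarith
  have hη1 : 0 ≤ η₁ := by
    refine le_trans (add_nonneg ?_ ?_) n.n1
    · exact div_nonneg (eD_nonneg n.R1 n.κd0 h.hm.D0) (by positivity)
    · exact div_nonneg (by linarith) (by positivity)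
  have hε1 : 0 ≤ ε₁ := hε hη1 n.n2
  have hε4 : 0 ≤ ε₄ := le_trans (by positivity) n.n4c
  have hη2 : 0 ≤ 30 * Rb ^ 5 * ε₄ / (b0 * t0) :=
    div_nonneg (by positivity) (mul_nonneg n.b00.le n.t00.le)
  have hε5 : 0 ≤ ε₅ := hε hη2 n.n5
  have hnN : 0 ≤ (N * (ηF + ηH) + Real.log 2) / c₁ - Real.log 2 / c₁ := by
    rw [← sub_div, add_sub_cancel_right]
    exact div_nonneg (mul_nonneg (Nat.cast_nonneg _) (add_nonneg h.F0 h.H0)) hc₁.le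
  have hlog : Real.log 9 ≤ Real.log 36 := Real.log_le_log (by norm_num) (by norm_num)
  have hn9 : Real.log 2 / c₁ + Real.log 9 < (1 - c / c₁) * Real.log K := by linarith
  -- the events
  obtain ⟨G, hG⟩ : ∃ G : (Ω × Ω) × (Fin N → Ω × Ω) → Prop,
    G = fun w => Gd z' C sd e B U Tau i i' Q Q' R μ δ b0 t0 Γ D s w := ⟨_, rfl⟩
  obtain ⟨L, hL⟩ : ∃ L : (Ω × Ω) × (Fin N → Ω × Ω) → Prop,
    L = fun w => ¬Lb C sd e B U Tau i i' δ ε₁ ε₆ s w := ⟨_, rfl⟩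
  have hgoal : law (PL p S z' sd) (fun w => G w ∧ L w) True ≤ 13 * c₁ + 2 * c₂ := by
    -- separation
    have k1 := h.sep n.κ0 hc₁ hn9 h.ii
    have k2 := h.sep n.κ0 hc₁ hn9 h.ii'
    have k3 := h.one n hx hn1
    have k4 := h.two n hx' hn2
    -- the first event
    obtain ⟨G1, hG1⟩ : ∃ G1 : (Ω × Ω) × (Fin N → Ω × Ω) → Prop,
      G1 = fun w => (G w ∧ (Dt C sd e B i κd w ∧ Dt C sd e B i' κd w) ∧
        Sm C sd e B i i' g w) ∧ ∀ j, |al2 C (e w.1.1) (cps sd e B i w) j| ≤ 1 / 2 ^ g := ⟨_, rfl⟩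
    have k5 : ∀ k : Fin 4, law (PL p S z' sd) (fun w => G1 w ∧
        ∃ l, ε₁ < |uu C i i' s k (cpa sd e B w) l|) True ≤ c₁ := fun k =>
      h.lin (Q := Q) (Q' := Q') n hc₁ hn (fun y _ => uu C i i' s k y) hε1 n.n2 G1
        (fun w hw hh => by
          rw [hG1, hG] at hh
          exact ⟨hh.1.1, (h.sml n hw hh.1.2.1 hh.1.2.2).1 k⟩)
    have k6 := law_ex (m := 4) h0 _ k5
    have k7 : law (PL p S z' sd) (fun w => G1 w ∧
        Far (Q' (cpa sd e B w)) (Q (cpa sd e B w) (z' w.1.1)) B₃ ε₃) True ≤ c₁ :=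
      h.qua (Q := Q) (Q' := Q') n hc₁ hn (fun y => Q' y) G1 (fun w hw hh => by
        rw [hG1, hG] at hh
        exact ⟨hh.1.1, hh.1.1.q'.symm, fun a b => (hh.1.1.q'.le a b).trans n.RR, hh.1.1.o'⟩)
    have k8 : law (PL p S z' sd) (fun w => G1 w ∧
        Far (C.sy (cps sd e B i w)) (Q (cpa sd e B w) (z' w.1.1)) B₃ ε₃) True ≤ c₁ :=
      h.qua (Q := Q) (Q' := Q') n hc₁ hn (fun y => C.sy (fun r => y (i r))) G1
        (fun w hw hh => by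
          rw [hG1, hG] at hh
          refine ⟨hh.1.1, fun a b => ?_, fun a b => (h.sy_le n hw i hh.1.2.1.1 a b).2,
            (h.sml n hw hh.1.2.1 hh.1.2.2).2⟩
          unfold Dec.sy
          ring)
    obtain ⟨G2, hG2⟩ : ∃ G2 : (Ω × Ω) × (Fin N → Ω × Ω) → Prop,
      G2 = fun w => Ev z' C sd e B U Tau i i' Q Q' R μ δ b0 t0 Γ D s g κd ε₁ ε₃ B₃ w := ⟨_, rfl⟩
    have k9 : law (PL p S z' sd) (fun w => G2 w ∧ ∃ l,
        ε₅ < |lf (Q (cpa sd e B w) (z' w.1.1) l) (axi (C.g1 (cps sd e B i w)))|) True ≤ c₁ :=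
      h.lin (Q := Q) (Q' := Q') n hc₁ hn
        (fun y t l => lf (Q y t l) (axi (C.g1 (fun r => y (i r))))) hε5 n.n5 G2
        (fun w hw hh => by
          rw [hG2] at hh
          exact ⟨hh.G, h.ome n hw hh⟩)
    -- the cuts
    have c1 : law (PL p S z' sd) (fun w => (G w ∧ L w) ∧ ¬Se C sd e κ i w) True ≤ 3 * c₁ :=
      (law_le h0 fun w _ hh => hh.2).trans k1
    have c2 : law (PL p S z' sd) (fun w => ((G w ∧ L w) ∧ Se C sd e κ i w) ∧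
        ¬Se C sd e κ i' w) True ≤ 3 * c₁ :=
      (law_le h0 fun w _ hh => hh.2).trans k2
    have hdet : ∀ w, 0 < PL p S z' sd w →
        (((G w ∧ L w) ∧ Se C sd e κ i w) ∧ Se C sd e κ i' w) →
        Dt C sd e B i κd w ∧ Dt C sd e B i' κd w := by
      intro w hw hh
      rw [hG] at hh
      exact h.det n hw hh.1.1.1 hh.1.2 hh.2
    have c3 : law (PL p S z' sd) (fun w => (((G w ∧ L w) ∧ Se C sd e κ i w) ∧
        Se C sd e κ i' w) ∧ ¬Sm C sd e B i i' g w) True ≤ c₂ := by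
      refine (law_le h0 fun w hw hh => ?_).trans k3
      refine ⟨hdet w hw hh.1, ?_⟩
      have h1 := hh.2
      unfold Sm at h1
      push Not at h1
      obtain ⟨j, hj⟩ := h1
      exact ⟨j, hj.le⟩
    have c4 : law (PL p S z' sd) (fun w => ((((G w ∧ L w) ∧ Se C sd e κ i w) ∧
        Se C sd e κ i' w) ∧ Sm C sd e B i i' g w) ∧
        ¬∀ j, |al2 C (e w.1.1) (cps sd e B i w) j| ≤ 1 / 2 ^ g) True ≤ c₂ := by
      refine (law_le h0 fun w hw hh => ?_).trans k4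
      refine ⟨(hdet w hw hh.1.1).1, ?_⟩
      have h1 := hh.2
      push Not at h1
      obtain ⟨j, hj⟩ := h1
      exact ⟨j, hj.le⟩
    have c5 : law (PL p S z' sd) (fun w => (G1 w ∧ L w) ∧
        ¬∀ k l, |uu C i i' s k (cpa sd e B w) l| ≤ ε₁) True ≤ 4 * c₁ := by
      refine (law_le h0 fun w hw hh => ?_).trans (k6.trans (le_of_eq (by norm_num)))
      have h1 := hh.2
      push Not at h1
      obtain ⟨k, l, hl⟩ := h1
      exact ⟨k, hh.1.1, l, hl⟩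
    have c6 : law (PL p S z' sd) (fun w => ((G1 w ∧ L w) ∧
        ∀ k l, |uu C i i' s k (cpa sd e B w) l| ≤ ε₁) ∧
        ¬¬Far (Q' (cpa sd e B w)) (Q (cpa sd e B w) (z' w.1.1)) B₃ ε₃) True ≤ c₁ :=
      (law_le h0 fun w hw hh => ⟨hh.1.1.1, not_not.mp hh.2⟩).trans k7
    have c7 : law (PL p S z' sd) (fun w => (((G1 w ∧ L w) ∧
        ∀ k l, |uu C i i' s k (cpa sd e B w) l| ≤ ε₁) ∧
        ¬Far (Q' (cpa sd e B w)) (Q (cpa sd e B w) (z' w.1.1)) B₃ ε₃) ∧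
        ¬¬Far (C.sy (cps sd e B i w)) (Q (cpa sd e B w) (z' w.1.1)) B₃ ε₃) True ≤ c₁ :=
      (law_le h0 fun w hw hh => ⟨hh.1.1.1.1, not_not.mp hh.2⟩).trans k8
    have c8 : law (PL p S z' sd) (fun w => (((G1 w ∧ L w) ∧
        ∀ k l, |uu C i i' s k (cpa sd e B w) l| ≤ ε₁) ∧
        ¬Far (Q' (cpa sd e B w)) (Q (cpa sd e B w) (z' w.1.1)) B₃ ε₃) ∧
        ¬Far (C.sy (cps sd e B i w)) (Q (cpa sd e B w) (z' w.1.1)) B₃ ε₃) True ≤ c₁ := by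
      refine (law_le h0 fun w hw hh => ?_).trans k9
      have h1 := hh.1.1.1
      have e2 : G2 w := by
        have h2 := h1.1
        rw [hG1, hG] at h2
        rw [hG2]
        exact ⟨h2.1.1, h2.1.2.1, h2.1.2.2, hh.1.1.2, hh.1.2, hh.2, h2.2⟩
      refine ⟨e2, ?_⟩
      by_contra hcon
      push Not at hcon
      have h2 := h1.2
      rw [hL] at h2
      rw [hG2] at e2
      exact h2 (h.fin n hw e2 hcon)
    have d7 := law_cut c7 c8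
    have d6 := law_cut c6 d7
    have d5 := law_cut c5 d6
    have d4 : law (PL p S z' sd) (fun w => ((((G w ∧ L w) ∧ Se C sd e κ i w) ∧
        Se C sd e κ i' w) ∧ Sm C sd e B i i' g w) ∧
        ∀ j, |al2 C (e w.1.1) (cps sd e B i w) j| ≤ 1 / 2 ^ g) True ≤
        4 * c₁ + (c₁ + (c₁ + c₁)) := by
      refine (law_le h0 fun w hw hh => ?_).trans d5
      have h1 := hh.1.1.1.1
      rw [hG1]
      exact ⟨⟨⟨h1.1, hdet w hw hh.1.1, hh.1.2⟩, hh.2⟩, h1.2⟩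
    have d3 := law_cut c4 d4
    have d2 := law_cut c3 d3
    have d1 := law_cut c2 d2
    have d0 := law_cut c1 d1
    linarith
  rw [hG, hL] at hgoal
  exact hgoal

end steps

end dir

end Pool.D2J
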