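import Mathlib

/-!
# Lagrange interpolation on a cube

`lg K j`: the Lagrange basis at the nodes `0, 1 / K, …, 1`; `ell K β = ∏ i, lg K (β i)`; `nd K β` the
node. `ell_interp`: a polynomial of degree at most `K` is `∑ β, ell K β x * P (nd K β)`. `ell_bd`,
`ell_lip`: bounds on `[-1, 2]`. `grd_small`: a polynomial with small gradient at the nodes and a small
value at one point of the cube is small on the cube.
-/

set_option autoImplicit false

namespace Pool.D2G30

open Finset

/-- The Lagrange basis at the nodes `j / K`. -/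
noncomputable def lg (K : ℕ) (j : Fin (K + 1)) (x : ℝ) : ℝ :=
  ∏ i ∈ univ.erase j, (K * x - (i : ℕ)) / (((j : ℕ) : ℝ) - (i : ℕ))

/-- The nodes. -/
noncomputable def nd (K : ℕ) {d : ℕ} (β : Fin d → Fin (K + 1)) : Fin d → ℝ :=
  fun i => ((β i : ℕ) : ℝ) / K

/-- The product basis. -/
noncomputable def ell (K : ℕ) {d : ℕ} (β : Fin d → Fin (K + 1)) (x : Fin d → ℝ) : ℝ :=
  ∏ i, lg K (β i) (x i)

theorem lg_basis {K : ℕ} (hK : 1 ≤ K) (j : Fin (K + 1)) (x : ℝ) :
    (Lagrange.basis (univ : Finset (Fin (K + 1))) (fun i => ((i : ℕ) : ℝ) / K) j).eval x =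
      lg K j x := by
  have hK0 : (K : ℝ) ≠ 0 := by
    have : (1 : ℝ) ≤ K := by exact_mod_cast hK
    linarith
  unfold Lagrange.basis lg
  rw [Polynomial.eval_prod]
  refine Finset.prod_congr rfl fun i hi => ?_
  have hij : i ≠ j := Finset.ne_of_mem_erase hi
  have h1 : (((j : ℕ) : ℝ) - (i : ℕ)) ≠ 0 := by
    intro h
    apply hij
    have : ((i : ℕ) : ℝ) = (j : ℕ) := by linarith
    exact Fin.ext (by exact_mod_cast this)
  unfold Lagrange.basisDivisor
  rw [Polynomial.eval_mul, Polynomial.eval_C, Polynomial.eval_sub, Polynomial.eval_X,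
    Polynomial.eval_C, ← sub_div, inv_div]
  field_simp

/-- Interpolation in one variable. -/
theorem lg_interp {K : ℕ} (hK : 1 ≤ K) (P : Polynomial ℝ) (hP : P.natDegree ≤ K) (x : ℝ) :
    P.eval x = ∑ j : Fin (K + 1), lg K j x * P.eval (((j : ℕ) : ℝ) / K) := by
  have hK0 : (K : ℝ) ≠ 0 := by
    have : (1 : ℝ) ≤ K := by exact_mod_cast hK
    linarith
  have hinj : Set.InjOn (fun i : Fin (K + 1) => ((i : ℕ) : ℝ) / K)
      (univ : Finset (Fin (K + 1))) := by
    intro a _ b _ h
    have h1 : ((a : ℕ) : ℝ) / K = ((b : ℕ) : ℝ) / K := h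
    have h2 : ((a : ℕ) : ℝ) = (b : ℕ) := by
      field_simp at h1
      exact h1
    exact Fin.ext (by exact_mod_cast h2)
  have hdeg : P.degree < ((univ : Finset (Fin (K + 1))).card : WithBot ℕ) := by
    rw [Finset.card_univ, Fintype.card_fin]
    refine lt_of_le_of_lt Polynomial.degree_le_natDegree ?_
    exact_mod_cast Nat.lt_succ_of_le hP
  have key := Lagrange.eq_interpolate hinj hdeg
  have h1 := congrArg (Polynomial.eval x) key
  rw [Lagrange.interpolate_apply, Polynomial.eval_finsetSum] at h1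
  rw [h1]
  refine Finset.sum_congr rfl fun j _ => ?_
  rw [Polynomial.eval_mul, Polynomial.eval_C, lg_basis hK, mul_comm]

theorem lg_pow {K : ℕ} (hK : 1 ≤ K) {n : ℕ} (hn : n ≤ K) (x : ℝ) :
    x ^ n = ∑ j : Fin (K + 1), lg K j x * (((j : ℕ) : ℝ) / K) ^ n := by
  have h := lg_interp hK (Polynomial.X ^ n) (by rw [Polynomial.natDegree_X_pow]; exact hn) x
  rw [Polynomial.eval_pow, Polynomial.eval_X] at h
  rw [h]
  exact Finset.sum_congr rfl fun j _ => by rw [Polynomial.eval_pow, Polynomial.eval_X]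

/-- **Interpolation on the cube.** -/
theorem ell_interp {K d : ℕ} (hK : 1 ≤ K) (P : MvPolynomial (Fin d) ℝ) (hP : P.totalDegree ≤ K)
    (x : Fin d → ℝ) :
    MvPolynomial.eval x P =
      ∑ β : Fin d → Fin (K + 1), ell K β x * MvPolynomial.eval (nd K β) P := by
  classical
  have hmon : ∀ s ∈ P.support, ∏ i, x i ^ s i =
      ∑ β : Fin d → Fin (K + 1), ell K β x * ∏ i, nd K β i ^ s i := by
    intro s hs
    have hsi : ∀ i, s i ≤ K := fun i => by
      have h1 := MvPolynomial.le_totalDegree hs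
      have h2 : s i ≤ s.sum fun _ e => e := by
        by_cases h : s i = 0
        · rw [h]; exact Nat.zero_le _
        · exact Finset.single_le_sum (f := fun j => s j) (fun _ _ => Nat.zero_le _)
            (Finsupp.mem_support_iff.2 h)
      omega
    calc ∏ i, x i ^ s i = ∏ i, ∑ j : Fin (K + 1), lg K j (x i) * (((j : ℕ) : ℝ) / K) ^ s i :=
          Finset.prod_congr rfl fun i _ => lg_pow hK (hsi i) (x i)
      _ = ∑ β : Fin d → Fin (K + 1), ∏ i, lg K (β i) (x i) * (((β i : ℕ) : ℝ) / K) ^ s i := by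
          rw [Finset.prod_univ_sum, Fintype.piFinset_univ]
      _ = _ := Finset.sum_congr rfl fun β _ => by
          rw [Finset.prod_mul_distrib]
          rfl
  rw [MvPolynomial.eval_eq']
  calc ∑ s ∈ P.support, P.coeff s * ∏ i, x i ^ s i
      = ∑ s ∈ P.support, ∑ β : Fin d → Fin (K + 1),
          ell K β x * (P.coeff s * ∏ i, nd K β i ^ s i) := by
        refine Finset.sum_congr rfl fun s hs => ?_
        rw [hmon s hs, Finset.mul_sum]
        exact Finset.sum_congr rfl fun β _ => by ring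
    _ = ∑ β : Fin d → Fin (K + 1), ∑ s ∈ P.support,
          ell K β x * (P.coeff s * ∏ i, nd K β i ^ s i) := Finset.sum_comm
    _ = _ := Finset.sum_congr rfl fun β _ => by
        rw [MvPolynomial.eval_eq', Finset.mul_sum]

/-! ### Bounds -/

/-- The bound of one factor. -/
theorem fac_bd {K : ℕ} {i j : Fin (K + 1)} (hij : i ≠ j) {x : ℝ} (h0 : -1 ≤ x) (h1 : x ≤ 2) :
    |(K * x - (i : ℕ)) / (((j : ℕ) : ℝ) - (i : ℕ))| ≤ 2 * K + 1 := by
  have hd : (1 : ℝ) ≤ |((j : ℕ) : ℝ) - (i : ℕ)| := by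
    have h2 : ((j : ℕ) : ℤ) - (i : ℕ) ≠ 0 := by
      intro h
      apply hij
      exact Fin.ext (by omega)
    have h3 : (1 : ℤ) ≤ |((j : ℕ) : ℤ) - (i : ℕ)| := Int.one_le_abs h2
    exact_mod_cast h3
  have hi : ((i : ℕ) : ℝ) ≤ K := by
    have := i.2
    exact_mod_cast Nat.lt_succ_iff.1 this
  have hi0 : (0 : ℝ) ≤ (i : ℕ) := Nat.cast_nonneg _
  have hK : (0 : ℝ) ≤ K := Nat.cast_nonneg _
  rw [abs_div, div_le_iff₀ (by linarith)]
  have h4 : |(K : ℝ) * x - (i : ℕ)| ≤ 2 * K + 1 := by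
    rw [abs_le]
    constructor <;> nlinarith
  nlinarith [abs_nonneg ((K : ℝ) * x - (i : ℕ))]

theorem prod_bd {ι : Type*} (s : Finset ι) (a : ι → ℝ) {M : ℝ} (_ : 1 ≤ M)
    (h : ∀ i ∈ s, |a i| ≤ M) : |∏ i ∈ s, a i| ≤ M ^ s.card := by
  rw [Finset.abs_prod]
  refine (Finset.prod_le_prod (fun i _ => abs_nonneg _) h).trans (le_of_eq ?_)
  rw [Finset.prod_const]

theorem prod_lip {ι : Type*} [DecidableEq ι] (s : Finset ι) (a b : ι → ℝ) {M δ : ℝ} (hM : 1 ≤ M)
    (hδ : 0 ≤ δ) (ha : ∀ i ∈ s, |a i| ≤ M) (hb : ∀ i ∈ s, |b i| ≤ M)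
    (h : ∀ i ∈ s, |a i - b i| ≤ δ) :
    |∏ i ∈ s, a i - ∏ i ∈ s, b i| ≤ s.card * M ^ s.card * δ := by
  induction s using Finset.induction_on with
  | empty => simp
  | insert i s hi ih =>
    rw [Finset.prod_insert hi, Finset.prod_insert hi, Finset.card_insert_of_notMem hi]
    have h1 := ih (fun j hj => ha j (mem_insert_of_mem hj)) (fun j hj => hb j (mem_insert_of_mem hj))
      (fun j hj => h j (mem_insert_of_mem hj))
    have h2 := prod_bd s b hM (fun j hj => hb j (mem_insert_of_mem hj))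
    have h3 := ha i (mem_insert_self _ _)
    have h4 := h i (mem_insert_self _ _)
    have hP : (1 : ℝ) ≤ M ^ s.card := one_le_pow₀ hM
    have e : a i * ∏ j ∈ s, a j - b i * ∏ j ∈ s, b j =
        a i * (∏ j ∈ s, a j - ∏ j ∈ s, b j) + (a i - b i) * ∏ j ∈ s, b j := by ring
    rw [e]
    refine (abs_add_le _ _).trans ?_
    rw [abs_mul, abs_mul]
    have h5 : |a i| * |∏ j ∈ s, a j - ∏ j ∈ s, b j| ≤ M * (s.card * M ^ s.card * δ) :=
      mul_le_mul h3 h1 (abs_nonneg _) (by linarith)
    have h6 : |a i - b i| * |∏ j ∈ s, b j| ≤ δ * M ^ s.card :=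
      mul_le_mul h4 h2 (abs_nonneg _) hδ
    push_cast
    rw [pow_succ]
    have h7 : δ * M ^ s.card ≤ M ^ s.card * M * δ := by
      have : δ * M ^ s.card * 1 ≤ δ * M ^ s.card * M :=
        mul_le_mul_of_nonneg_left hM (mul_nonneg hδ (by linarith))
      linarith
    nlinarith

/-- The bound of the basis. -/
noncomputable def lgC (K : ℕ) : ℝ := (2 * K + 1) ^ (K + 1)

theorem one_le_lgC (K : ℕ) : 1 ≤ lgC K :=
  one_le_pow₀ (by have : (0 : ℝ) ≤ K := Nat.cast_nonneg _; linarith)

theorem card_er {K : ℕ} (j : Fin (K + 1)) : ((univ : Finset (Fin (K + 1))).erase j).card = K := by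
  rw [Finset.card_erase_of_mem (Finset.mem_univ j), Finset.card_univ, Fintype.card_fin]
  rfl

theorem lg_bd {K : ℕ} (j : Fin (K + 1)) {x : ℝ} (h0 : -1 ≤ x) (h1 : x ≤ 2) :
    |lg K j x| ≤ lgC K := by
  have hK : (0 : ℝ) ≤ K := Nat.cast_nonneg _
  have h := prod_bd ((univ : Finset (Fin (K + 1))).erase j)
    (fun i => (K * x - (i : ℕ)) / (((j : ℕ) : ℝ) - (i : ℕ))) (M := 2 * K + 1) (by linarith)
    (fun i hi => fac_bd (Finset.ne_of_mem_erase hi) h0 h1)
  rw [card_er] at h
  exact h.trans (pow_le_pow_right₀ (by linarith) (Nat.le_succ K))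

theorem lg_lip {K : ℕ} (j : Fin (K + 1)) {x y : ℝ} (h0 : -1 ≤ x) (h1 : x ≤ 2) (k0 : -1 ≤ y)
    (k1 : y ≤ 2) : |lg K j x - lg K j y| ≤ K ^ 2 * lgC K * |x - y| := by
  classical
  have hK : (0 : ℝ) ≤ K := Nat.cast_nonneg _
  have h := prod_lip ((univ : Finset (Fin (K + 1))).erase j)
    (fun i => (K * x - (i : ℕ)) / (((j : ℕ) : ℝ) - (i : ℕ)))
    (fun i => (K * y - (i : ℕ)) / (((j : ℕ) : ℝ) - (i : ℕ))) (M := 2 * K + 1) (δ := K * |x - y|)
    (by linarith) (by positivity)
    (fun i hi => fac_bd (Finset.ne_of_mem_erase hi) h0 h1)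
    (fun i hi => fac_bd (Finset.ne_of_mem_erase hi) k0 k1) (fun i hi => by
      have hd : (1 : ℝ) ≤ |((j : ℕ) : ℝ) - (i : ℕ)| := by
        have h2 : ((j : ℕ) : ℤ) - (i : ℕ) ≠ 0 := by
          intro h
          apply Finset.ne_of_mem_erase hi
          exact Fin.ext (by omega)
        have h3 : (1 : ℤ) ≤ |((j : ℕ) : ℤ) - (i : ℕ)| := Int.one_le_abs h2
        exact_mod_cast h3
      rw [← sub_div, abs_div, div_le_iff₀ (by linarith)]
      have e : (K : ℝ) * x - (i : ℕ) - (K * y - (i : ℕ)) = K * (x - y) := by ring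
      rw [e, abs_mul, abs_of_nonneg hK]
      exact le_mul_of_one_le_right (by positivity) hd)
  rw [card_er] at h
  refine h.trans ?_
  have hp : ((2 : ℝ) * K + 1) ^ K ≤ lgC K := pow_le_pow_right₀ (by linarith) (Nat.le_succ K)
  calc (K : ℝ) * (2 * K + 1) ^ K * (K * |x - y|) = K ^ 2 * |x - y| * (2 * K + 1) ^ K := by ring
    _ ≤ K ^ 2 * |x - y| * lgC K := mul_le_mul_of_nonneg_left hp (by positivity)
    _ = _ := by ring

theorem ell_bd {K d : ℕ} (β : Fin d → Fin (K + 1)) {x : Fin d → ℝ} (h0 : ∀ i, -1 ≤ x i)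
    (h1 : ∀ i, x i ≤ 2) : |ell K β x| ≤ lgC K ^ d := by
  have h := prod_bd (univ : Finset (Fin d)) (fun i => lg K (β i) (x i)) (one_le_lgC K)
    (fun i _ => lg_bd (β i) (h0 i) (h1 i))
  rwa [Finset.card_univ, Fintype.card_fin] at h

theorem ell_lip {K d : ℕ} (β : Fin d → Fin (K + 1)) {x y : Fin d → ℝ} {δ : ℝ}
    (h0 : ∀ i, -1 ≤ x i) (h1 : ∀ i, x i ≤ 2) (k0 : ∀ i, -1 ≤ y i) (k1 : ∀ i, y i ≤ 2)
    (hδ : 0 ≤ δ) (h : ∀ i, |x i - y i| ≤ δ) :
    |ell K β x - ell K β y| ≤ d * K ^ 2 * lgC K ^ (d + 1) * δ := by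
  classical
  have hC := one_le_lgC K
  have h := prod_lip (univ : Finset (Fin d)) (fun i => lg K (β i) (x i))
    (fun i => lg K (β i) (y i)) (δ := K ^ 2 * lgC K * δ) hC (by positivity)
    (fun i _ => lg_bd (β i) (h0 i) (h1 i)) (fun i _ => lg_bd (β i) (k0 i) (k1 i))
    (fun i _ => (lg_lip (β i) (h0 i) (h1 i) (k0 i) (k1 i)).trans
      (mul_le_mul_of_nonneg_left (h i) (by positivity)))
  rw [Finset.card_univ, Fintype.card_fin] at h
  refine h.trans (le_of_eq ?_)
  rw [pow_succ]
  ring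

/-- The number of nodes. -/
theorem card_grid (K d : ℕ) : Fintype.card (Fin d → Fin (K + 1)) = (K + 1) ^ d := by
  rw [Fintype.card_fun, Fintype.card_fin, Fintype.card_fin]

/-- A polynomial which is small at the nodes is small. -/
theorem val_small {K d : ℕ} (hK : 1 ≤ K) (P : MvPolynomial (Fin d) ℝ) (hP : P.totalDegree ≤ K)
    {ε : ℝ} (h : ∀ β : Fin d → Fin (K + 1), |MvPolynomial.eval (nd K β) P| ≤ ε)
    {x : Fin d → ℝ} (h0 : ∀ i, -1 ≤ x i) (h1 : ∀ i, x i ≤ 2) :
    |MvPolynomial.eval x P| ≤ (K + 1) ^ d * lgC K ^ d * ε := by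
  have hC := one_le_lgC K
  rw [ell_interp hK P hP x]
  refine (Finset.abs_sum_le_sum_abs _ _).trans ?_
  calc ∑ β : Fin d → Fin (K + 1), |ell K β x * MvPolynomial.eval (nd K β) P|
      ≤ ∑ _β : Fin d → Fin (K + 1), lgC K ^ d * ε := by
        refine Finset.sum_le_sum fun β _ => ?_
        rw [abs_mul]
        exact mul_le_mul (ell_bd β h0 h1) (h β) (abs_nonneg _) (by positivity)
    _ = _ := by
        rw [Finset.sum_const, Finset.card_univ, card_grid, nsmul_eq_mul]
        push_cast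
        ring

theorem deg_pd {d : ℕ} (p : MvPolynomial (Fin d) ℝ) (i : Fin d) :
    (MvPolynomial.pderiv i p).totalDegree ≤ p.totalDegree := by
  classical
  rw [p.as_sum, map_sum]
  refine (MvPolynomial.totalDegree_finsetSum _ _).trans ?_
  rw [← p.as_sum]
  refine Finset.sup_le fun s hs => ?_
  rw [MvPolynomial.pderiv_monomial]
  refine (MvPolynomial.totalDegree_monomial_le _ _).trans ?_
  refine le_trans ?_ (MvPolynomial.le_totalDegree hs)
  have h1 : (s - Finsupp.single i 1) ≤ s := tsub_le_self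
  exact Finsupp.sum_le_sum_index h1 (fun j _ => monotone_id) (fun j _ => rfl)

/-- The restriction to a line. -/
noncomputable def lin {d : ℕ} (a b : Fin d → ℝ) (P : MvPolynomial (Fin d) ℝ) : Polynomial ℝ :=
  MvPolynomial.aeval (fun i => Polynomial.C (a i) + Polynomial.C (b i) * Polynomial.X) P

theorem eval_lin {d : ℕ} (a b : Fin d → ℝ) (P : MvPolynomial (Fin d) ℝ) (s : ℝ) :
    (lin a b P).eval s = MvPolynomial.eval (fun i => a i + b i * s) P := by
  unfold lin
  induction P using MvPolynomial.induction_on with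
  | C r => simp
  | add p q hp hq => rw [map_add, Polynomial.eval_add, hp, hq, map_add]
  | mul_X p i hp => rw [map_mul, Polynomial.eval_mul, hp, map_mul]; simp

theorem deriv_lin {d : ℕ} (a b : Fin d → ℝ) (P : MvPolynomial (Fin d) ℝ) :
    Polynomial.derivative (lin a b P) =
      ∑ i, Polynomial.C (b i) * lin a b (MvPolynomial.pderiv i P) := by
  classical
  unfold lin
  induction P using MvPolynomial.induction_on with
  | C r => simp
  | add p q hp hq =>
    rw [map_add, Polynomial.derivative_add, hp, hq, ← Finset.sum_add_distrib]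
    exact Finset.sum_congr rfl fun i _ => by rw [map_add, map_add, mul_add]
  | mul_X p j hp =>
    rw [map_mul, Polynomial.derivative_mul, hp, MvPolynomial.aeval_X]
    have e1 : Polynomial.derivative (Polynomial.C (a j) + Polynomial.C (b j) * Polynomial.X) =
        Polynomial.C (b j) := by
      simp
    rw [e1]
    have e2 : ∀ i, MvPolynomial.aeval
        (fun i => Polynomial.C (a i) + Polynomial.C (b i) * Polynomial.X)
        (MvPolynomial.pderiv i (p * MvPolynomial.X j)) =
        MvPolynomial.aeval (fun i => Polynomial.C (a i) + Polynomial.C (b i) * Polynomial.X)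
          (MvPolynomial.pderiv i p) *
          (Polynomial.C (a j) + Polynomial.C (b j) * Polynomial.X) +
        (if i = j then 1 else 0) * MvPolynomial.aeval
          (fun i => Polynomial.C (a i) + Polynomial.C (b i) * Polynomial.X) p := by
      intro i
      rw [Derivation.leibniz, smul_eq_mul, smul_eq_mul, map_add, map_mul, map_mul,
        MvPolynomial.aeval_X, MvPolynomial.pderiv_X]
      by_cases h : i = j
      · subst h
        simp
        ring
      · rw [if_neg h, Pi.single_eq_of_ne (fun hh => h hh.symm)]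
        simp
        ring
    have e3 : ∑ i, Polynomial.C (b i) * MvPolynomial.aeval
        (fun i => Polynomial.C (a i) + Polynomial.C (b i) * Polynomial.X)
        (MvPolynomial.pderiv i (p * MvPolynomial.X j)) =
        (∑ i, Polynomial.C (b i) * MvPolynomial.aeval
          (fun i => Polynomial.C (a i) + Polynomial.C (b i) * Polynomial.X)
          (MvPolynomial.pderiv i p)) * (Polynomial.C (a j) + Polynomial.C (b j) * Polynomial.X) +
        Polynomial.C (b j) * MvPolynomial.aeval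
          (fun i => Polynomial.C (a i) + Polynomial.C (b i) * Polynomial.X) p := by
      rw [Finset.sum_mul]
      have e4 : Polynomial.C (b j) * MvPolynomial.aeval
          (fun i => Polynomial.C (a i) + Polynomial.C (b i) * Polynomial.X) p =
          ∑ i, Polynomial.C (b i) * ((if i = j then 1 else 0) * MvPolynomial.aeval
            (fun i => Polynomial.C (a i) + Polynomial.C (b i) * Polynomial.X) p) := by
        rw [Finset.sum_eq_single j]
        · rw [if_pos rfl]
          ring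
        · intro i _ hi
          rw [if_neg hi]
          ring
        · intro h
          exact absurd (Finset.mem_univ j) h
      rw [e4, ← Finset.sum_add_distrib]
      refine Finset.sum_congr rfl fun i _ => ?_
      rw [e2 i]
      ring
    rw [e3]
    ring

/-- **A small gradient at the nodes.** -/
theorem grd_small {K d : ℕ} (hK : 1 ≤ K) (P : MvPolynomial (Fin d) ℝ) (hP : P.totalDegree ≤ K)
    {ε : ℝ} (h : ∀ (β : Fin d → Fin (K + 1)) (i : Fin d),
      |MvPolynomial.eval (nd K β) (MvPolynomial.pderiv i P)| ≤ ε)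
    {x x₀ : Fin d → ℝ} (h0 : ∀ i, -1 ≤ x i) (h1 : ∀ i, x i ≤ 2) (k0 : ∀ i, -1 ≤ x₀ i)
    (k1 : ∀ i, x₀ i ≤ 2) (hx : |MvPolynomial.eval x₀ P| ≤ ε) :
    |MvPolynomial.eval x P| ≤ (3 * d * ((K + 1) ^ d * lgC K ^ d) + 1) * ε := by
  have hC := one_le_lgC K
  have hε : 0 ≤ ε := (abs_nonneg _).trans hx
  obtain ⟨M, hM⟩ : ∃ M : ℝ, M = (K + 1) ^ d * lgC K ^ d * ε := ⟨_, rfl⟩
  have hM0 : 0 ≤ M := by rw [hM]; positivity
  obtain ⟨f, hf⟩ : ∃ f, f = lin x₀ (fun i => x i - x₀ i) P := ⟨_, rfl⟩
  have hd : ∀ i, (MvPolynomial.pderiv i P).totalDegree ≤ K := fun i =>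
    (deg_pd P i).trans hP
  have hder : ∀ s ∈ Set.Icc (0 : ℝ) 1, |(Polynomial.derivative f).eval s| ≤ 3 * d * M := by
    intro s hs
    rw [hf, deriv_lin, Polynomial.eval_finsetSum]
    refine (Finset.abs_sum_le_sum_abs _ _).trans ?_
    calc ∑ i, |(Polynomial.C (x i - x₀ i) *
          lin x₀ (fun i => x i - x₀ i) (MvPolynomial.pderiv i P)).eval s|
        ≤ ∑ _i : Fin d, 3 * M := by
          refine Finset.sum_le_sum fun i _ => ?_
          rw [Polynomial.eval_mul, Polynomial.eval_C, eval_lin, abs_mul]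
          refine mul_le_mul ?_ ?_ (abs_nonneg _) (by norm_num)
          · rw [abs_le]
            constructor <;> linarith [h0 i, h1 i, k0 i, k1 i]
          · rw [hM]
            refine val_small hK _ (hd i) (fun β => h β i) (fun j => ?_) (fun j => ?_)
            · nlinarith [h0 j, k0 j, hs.1, hs.2]
            · nlinarith [h1 j, k1 j, hs.1, hs.2]
      _ = 3 * d * M := by
          rw [Finset.sum_const, Finset.card_univ, Fintype.card_fin, nsmul_eq_mul]
          ring
  have hmv : |f.eval 1 - f.eval 0| ≤ 3 * d * M := by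
    have key := Convex.norm_image_sub_le_of_norm_hasDerivWithin_le (f := fun s => f.eval s)
      (f' := fun s => (Polynomial.derivative f).eval s) (C := 3 * d * M) (s := Set.Icc (0 : ℝ) 1)
      (x := 0) (y := 1) (fun s _ => (f.hasDerivAt s).hasDerivWithinAt)
      (fun s hs => by rw [Real.norm_eq_abs]; exact hder s hs) (convex_Icc 0 1)
      (Set.left_mem_Icc.2 (by norm_num)) (Set.right_mem_Icc.2 (by norm_num))
    simpa [Real.norm_eq_abs] using key
  have e1 : f.eval 1 = MvPolynomial.eval x P := by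
    rw [hf, eval_lin]
    congr 1
    congr 1
    funext i
    ring
  have e0 : f.eval 0 = MvPolynomial.eval x₀ P := by
    rw [hf, eval_lin]
    congr 1
    congr 1
    funext i
    ring
  rw [e1, e0] at hmv
  have h2 : MvPolynomial.eval x P = (MvPolynomial.eval x P - MvPolynomial.eval x₀ P) +
      MvPolynomial.eval x₀ P := by ring
  rw [h2]
  refine (abs_add_le _ _).trans ?_
  calc |MvPolynomial.eval x P - MvPolynomial.eval x₀ P| + |MvPolynomial.eval x₀ P|
      ≤ 3 * d * M + ε := add_le_add hmv hx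
    _ = _ := by rw [hM]; ring

end Pool.D2G30
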