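import Pool.Agent.H73.D2.Join3

/-!
# D2: the numbers of the join of the case of a conic

All natural sizes are at most `Y`; all errors are at most a power of `Y` times `δ`.
-/

set_option autoImplicit false

namespace Pool.D2J

open Finset Real
open Pool.D2A Pool.D2Con

section

variable {Y : ℝ}

theorem py (hY : 2 ^ 8 ≤ Y) : (1 : ℝ) ≤ Y := le_trans (by norm_num) hY

theorem py_pow (hY : 2 ^ 8 ≤ Y) (k : ℕ) : (2 : ℝ) ^ (8 * k) ≤ Y ^ k := by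
  rw [pow_mul]
  exact pow_le_pow_left₀ (by positivity) hY k

/-- A constant is absorbed. -/
theorem ab (hY : 2 ^ 8 ≤ Y) {c : ℝ} (k : ℕ) (hc : c ≤ 2 ^ (8 * k)) {a b : ℕ} (h : a + k ≤ b) :
    c * Y ^ a ≤ Y ^ b := by
  have h1 := py hY
  calc c * Y ^ a ≤ Y ^ k * Y ^ a :=
        mul_le_mul_of_nonneg_right (hc.trans (py_pow hY k)) (by positivity)
    _ = Y ^ (a + k) := by rw [← pow_add, add_comm]
    _ ≤ Y ^ b := pow_le_pow_right₀ h1 h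

/-- The constant of the determinants. -/
noncomputable def kdv (R κ μ b0 : ℝ) : ℝ := b0 ^ 3 * (μ * κ ^ 8 / (2 ^ 23 * R ^ 13))

/-- A product of small numbers. -/
theorem mk_lo (hY : 2 ^ 8 ≤ Y) {κ μ : ℝ} (hκ : 1 / Y ≤ κ) (hμ : 1 / Y ≤ μ) :
    1 ≤ μ * κ ^ 8 * Y ^ 9 := by
  have h0 : 0 < Y := lt_of_lt_of_le one_pos (py hY)
  rw [div_le_iff₀ h0] at hκ hμ
  have h1 : (1 : ℝ) ≤ (κ * Y) ^ 8 := one_le_pow₀ hκ
  calc (1 : ℝ) = 1 * 1 := (one_mul 1).symm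
    _ ≤ (μ * Y) * (κ * Y) ^ 8 := mul_le_mul hμ h1 zero_le_one (zero_le_one.trans hμ)
    _ = μ * κ ^ 8 * Y ^ 9 := by ring

theorem kdv_lo (hY : 2 ^ 8 ≤ Y) {R κ μ b0 : ℝ} (hR1 : 1 ≤ R) (hR : R ≤ Y) (hκ : 1 / Y ≤ κ)
    (hμ : 1 / Y ≤ μ) (hb : 1 / Y ≤ b0) : 1 ≤ kdv R κ μ b0 * Y ^ 28 := by
  have h0 : 0 < Y := lt_of_lt_of_le one_pos (py hY)
  have h1 := mk_lo hY hκ hμ
  have hR0 : 0 < R := by linarith
  rw [div_le_iff₀ h0] at hb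
  have h2 : (1 : ℝ) ≤ (b0 * Y) ^ 3 := one_le_pow₀ hb
  have h3 : 2 ^ 23 * R ^ 13 ≤ Y ^ 16 := by
    calc 2 ^ 23 * R ^ 13 ≤ 2 ^ 23 * Y ^ 13 :=
          mul_le_mul_of_nonneg_left (pow_le_pow_left₀ hR0.le hR 13) (by positivity)
      _ ≤ Y ^ 16 := ab hY 3 (by norm_num) (by norm_num)
  have e : kdv R κ μ b0 * Y ^ 28 =
      (b0 * Y) ^ 3 * ((μ * κ ^ 8 * Y ^ 9) * (Y ^ 16 / (2 ^ 23 * R ^ 13))) := by
    unfold kdv
    field_simp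
  rw [e]
  have h4 : (1 : ℝ) ≤ Y ^ 16 / (2 ^ 23 * R ^ 13) := by
    rw [le_div_iff₀ (by positivity), one_mul]
    exact h3
  have h5 : (1 : ℝ) ≤ (μ * κ ^ 8 * Y ^ 9) * (Y ^ 16 / (2 ^ 23 * R ^ 13)) := by
    calc (1 : ℝ) = 1 * 1 := (one_mul 1).symm
      _ ≤ _ := mul_le_mul h1 h4 zero_le_one (zero_le_one.trans h1)
  calc (1 : ℝ) = 1 * 1 := (one_mul 1).symm
    _ ≤ _ := mul_le_mul h2 h5 zero_le_one (zero_le_one.trans h2)

theorem ck_le (hY : 2 ^ 8 ≤ Y) {R κ μ b0 : ℝ} (hR1 : 1 ≤ R) (hR : R ≤ Y) (hκ : 1 / Y ≤ κ)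
    (hμ : 1 / Y ≤ μ) (hb : 1 / Y ≤ b0) : 0 < kdv R κ μ b0 ∧ cK 3 (R ^ 2) (kdv R κ μ b0) ≤ Y ^ 35 := by
  have h0 : 0 < Y := lt_of_lt_of_le one_pos (py hY)
  have hR0 : 0 < R := by linarith
  have h1 := kdv_lo hY hR1 hR hκ hμ hb
  have hk : 0 < kdv R κ μ b0 := by
    by_contra hcon
    rw [not_lt] at hcon
    have := mul_nonpos_of_nonpos_of_nonneg hcon (by positivity : (0 : ℝ) ≤ Y ^ 28)
    linarith
  refine ⟨hk, ?_⟩
  unfold cK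
  rw [div_le_iff₀ hk]
  have e : ((3 : ℕ) : ℝ) * (((3 : ℕ).factorial : ℝ) * (R ^ 2) ^ 3) = 18 * R ^ 6 := by
    norm_num [Nat.factorial]
    ring
  rw [e]
  calc 18 * R ^ 6 ≤ 18 * Y ^ 6 :=
        mul_le_mul_of_nonneg_left (pow_le_pow_left₀ hR0.le hR 6) (by norm_num)
    _ ≤ Y ^ 7 := ab hY 1 (by norm_num) (by norm_num)
    _ = Y ^ 7 * 1 := (mul_one _).symm
    _ ≤ Y ^ 7 * (kdv R κ μ b0 * Y ^ 28) := mul_le_mul_of_nonneg_left h1 (by positivity)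
    _ = Y ^ 35 * kdv R κ μ b0 := by ring

theorem eG_le (hY : 2 ^ 8 ≤ Y) {R κ μ b0 D : ℝ} (hR1 : 1 ≤ R) (hR : R ≤ Y) (hκ : 1 / Y ≤ κ)
    (hμ : 1 / Y ≤ μ) (hb : 1 / Y ≤ b0) (hD0 : 0 ≤ D) (hD : D ≤ Y) :
    eG R (kdv R κ μ b0) D ≤ Y ^ 36 ∧
    2 * eG R (kdv R κ μ b0) D + 3 * (cK 3 (R ^ 2) (kdv R κ μ b0) * R) * D ≤ Y ^ 38 ∧
    eD R (kdv R κ μ b0) D ≤ Y ^ 40 ∧ eH R (kdv R κ μ b0) D ≤ Y ^ 40 := by
  have h0 : 0 < Y := lt_of_lt_of_le one_pos (py hY)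
  obtain ⟨hk, h1⟩ := ck_le hY hR1 hR hκ hμ hb
  have hc0 : 0 ≤ cK 3 (R ^ 2) (kdv R κ μ b0) := cK_nonneg (by positivity) hk
  have hR0 : 0 ≤ R := by linarith
  have h2 : eG R (kdv R κ μ b0) D ≤ Y ^ 36 := by
    unfold eG
    calc cK 3 (R ^ 2) (kdv R κ μ b0) * D ≤ Y ^ 35 * Y := mul_le_mul h1 hD hD0 (by positivity)
      _ = Y ^ 36 := by ring
  have h3 : cK 3 (R ^ 2) (kdv R κ μ b0) * R * D ≤ Y ^ 37 := by
    calc cK 3 (R ^ 2) (kdv R κ μ b0) * R * D ≤ Y ^ 35 * Y * Y :=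
          mul_le_mul (mul_le_mul h1 hR hR0 (by positivity)) hD hD0 (by positivity)
      _ = Y ^ 37 := by ring
  have h4 : 2 * eG R (kdv R κ μ b0) D + 3 * (cK 3 (R ^ 2) (kdv R κ μ b0) * R) * D ≤ Y ^ 38 := by
    have a1 : Y ^ 36 ≤ Y ^ 37 := pow_le_pow_right₀ (py hY) (by norm_num)
    have a2 : 5 * Y ^ 37 ≤ Y ^ 38 := ab hY 1 (by norm_num) (by norm_num)
    have e : 3 * (cK 3 (R ^ 2) (kdv R κ μ b0) * R) * D =
        3 * (cK 3 (R ^ 2) (kdv R κ μ b0) * R * D) := by ring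
    rw [e]
    linarith
  refine ⟨h2, h4, ?_, ?_⟩
  · unfold eD
    have a1 : R * (2 * eG R (kdv R κ μ b0) D + 3 * (cK 3 (R ^ 2) (kdv R κ μ b0) * R) * D) ≤
        Y * Y ^ 38 := mul_le_mul hR h4 (by
          have := eG_nonneg (R := R) hk hD0
          positivity) h0.le
    have a2 : Y * Y ^ 38 = Y ^ 39 := by ring
    have a3 : Y ≤ Y ^ 39 := by
      calc Y = Y ^ 1 := (pow_one _).symm
        _ ≤ Y ^ 39 := pow_le_pow_right₀ (py hY) (by norm_num)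
    have a4 : 4 * Y ^ 39 ≤ Y ^ 40 := ab hY 1 (by norm_num) (by norm_num)
    rw [a2] at a1
    linarith
  · unfold eH
    have a1 : R * (3 * (R * eG R (kdv R κ μ b0) D)) ≤ Y * (3 * (Y * Y ^ 36)) := by
      refine mul_le_mul hR (mul_le_mul_of_nonneg_left (mul_le_mul hR h2
        (eG_nonneg hk hD0) h0.le) (by norm_num)) ?_ h0.le
      have := eG_nonneg (R := R) hk hD0
      positivity
    have a2 : Y * (3 * (Y * Y ^ 36)) = 3 * Y ^ 38 := by ring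
    have a3 : Y ≤ Y ^ 38 := by
      calc Y = Y ^ 1 := (pow_one _).symm
        _ ≤ Y ^ 38 := pow_le_pow_right₀ (py hY) (by norm_num)
    have a4 : 4 * Y ^ 38 ≤ Y ^ 40 := ab hY 1 (by norm_num) (by norm_num)
    rw [a2] at a1
    linarith

theorem abd (hY : 2 ^ 8 ≤ Y) {c δ : ℝ} (k : ℕ) (hc : c ≤ 2 ^ (8 * k)) {a b : ℕ} (h : a + k ≤ b)
    (hδ : 0 ≤ δ) : c * Y ^ a * δ ≤ Y ^ b * δ :=
  mul_le_mul_of_nonneg_right (ab hY k hc h) hδ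

theorem abl (hY : 2 ^ 8 ≤ Y) {c δ : ℝ} (k : ℕ) (hc : c ≤ 2 ^ (8 * k)) {a b m : ℕ}
    (h : a + k + b ≤ m) (hδ : 0 ≤ δ) (hm : δ * Y ^ m ≤ 1) : c * Y ^ a * δ ≤ 1 / Y ^ b := by
  have h0 : 0 < Y := lt_of_lt_of_le one_pos (py hY)
  rw [le_div_iff₀ (by positivity)]
  calc c * Y ^ a * δ * Y ^ b = c * Y ^ (a + b) * δ := by rw [pow_add]; ring
    _ ≤ Y ^ m * δ := abd hY k hc (by omega) hδ
    _ = δ * Y ^ m := mul_comm _ _
    _ ≤ 1 := hm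

/-- **The numbers of the join.** -/
theorem nm_ex (hY : 2 ^ 8 ≤ Y) {R κ μ b0 t0 Γ D δ : ℝ} {s g A : ℕ} (hR1 : 1 ≤ R) (hR : R ≤ Y)
    (hκ : 1 / Y ≤ κ) (hμ : 1 / Y ≤ μ) (hb : 1 / Y ≤ b0) (ht : 1 / Y ≤ t0)
    (hΓ : Γ ≤ Y) (hD0 : 0 ≤ D) (hD : D ≤ Y) (hA : (A : ℝ) ≤ Y) (hδ : 0 ≤ δ)
    (hδY : δ * Y ^ 1200 ≤ 1) (hg : Y ^ 40 ≤ δ * 2 ^ g) (hs : Y ^ 40 ≤ δ * 2 ^ s) :
    Nm R (Y ^ 36) κ δ μ b0 t0 s g A D Γ (kdv R κ μ b0) (2 * δ) (Y ^ 553 * δ) (Y ^ 4745 * δ)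
      (Y ^ 1500) (1 / Y ^ 480) (Y ^ 4784 * δ) (Y ^ 5520 * δ) (Y ^ 5667 * δ) := by
  have hY1 := py hY
  have h0 : 0 < Y := lt_of_lt_of_le one_pos hY1
  have hR0 : 0 ≤ R := by linarith
  obtain ⟨hk, hck⟩ := ck_le hY hR1 hR hκ hμ hb
  obtain ⟨hG1, hG2, hG3, -⟩ := eG_le hY hR1 hR hκ hμ hb hD0 hD
  have hM := mk_lo hY hκ hμ
  obtain ⟨M, hMd⟩ : ∃ M, M = μ * κ ^ 8 := ⟨_, rfl⟩
  rw [← hMd] at hM
  have hM9 : 1 / Y ^ 9 ≤ M := by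
    rw [div_le_iff₀ (by positivity)]
    exact hM
  have hY36 : Y ≤ Y ^ 36 := by
    calc Y = Y ^ 1 := (pow_one _).symm
      _ ≤ Y ^ 36 := pow_le_pow_right₀ hY1 (by norm_num)
  have h2s : (0 : ℝ) < 2 ^ s := by positivity
  have h2g : (0 : ℝ) < 2 ^ g := by positivity
  have hκ0 : 0 < κ := lt_of_lt_of_le (by positivity) hκ
  have hμ0 : 0 < μ := lt_of_lt_of_le (by positivity) hμ
  have hb0 : 0 < b0 := lt_of_lt_of_le (by positivity) hb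
  have ht0 : 0 < t0 := lt_of_lt_of_le (by positivity) ht
  have hR40 : Y ≤ Y ^ 40 := by
    calc Y = Y ^ 1 := (pow_one _).symm
      _ ≤ Y ^ 40 := pow_le_pow_right₀ hY1 (by norm_num)
  have one_d : ∀ k : ℕ, δ ≤ Y ^ k * δ := fun k => by
    have : (1 : ℝ) ≤ Y ^ k := one_le_pow₀ hY1
    nlinarith
  have dd : ∀ {x : ℝ}, x ≤ Y ^ 40 → x / 2 ^ s ≤ δ := by
    intro x hx
    rw [div_le_iff₀ h2s]
    exact hx.trans hs
  have dg : ∀ {x : ℝ}, x ≤ Y ^ 40 → x / 2 ^ g ≤ δ := by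
    intro x hx
    rw [div_le_iff₀ h2g]
    exact hx.trans hg
  have mn : ∀ {a b : ℕ}, a ≤ b → Y ^ a * δ ≤ Y ^ b * δ := fun h =>
    mul_le_mul_of_nonneg_right (pow_le_pow_right₀ hY1 h) hδ
  have hMm : ∀ {x : ℝ} (a : ℕ), x ≤ Y ^ a * δ → x ≤ M * (Y ^ (a + 9) * δ) := by
    intro x a hx
    have e : M * (Y ^ (a + 9) * δ) = M * Y ^ 9 * (Y ^ a * δ) := by
      rw [pow_add]
      ring
    rw [e]
    have : 0 ≤ Y ^ a * δ := by positivity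
    nlinarith
  have hla2 : 1 / Y ^ 961 ≤ μ * (1 / Y ^ 480) ^ 2 := by
    have e : (1 : ℝ) / Y ^ 961 = 1 / Y * (1 / Y ^ 480) ^ 2 := by
      rw [div_pow, one_pow, ← pow_mul, div_mul_div_comm, one_mul, ← pow_succ']
    rw [e]
    exact mul_le_mul_of_nonneg_right hμ (by positivity)
  refine ⟨hR1, hR.trans hY36, hA.trans hY36, ?_, hκ0, hμ0, hb0, ht0, hk, by positivity, le_rfl,
    ?_, ?_, ?_, ?_, ?_, ?_, ?_, ?_, ?_, ?_, ?_, ?_, ?_, ?_, ?_⟩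
  · -- cR
    calc cK 3 (R ^ 2) (kdv R κ μ b0) * R ≤ Y ^ 35 * Y := mul_le_mul hck hR hR0 (by positivity)
      _ = Y ^ 36 := by ring
  · -- dk
    rw [← hMd, ← pow_mul]
    exact (abl hY 3 (by norm_num) (b := 9) (by norm_num) hδ hδY).trans hM9
  · -- dg
    refine dg ?_
    have a1 : (4 : ℝ) * Y ^ 36 ≤ Y ^ 40 := ab hY 1 (by norm_num) (by norm_num)
    have a2 : (1 : ℝ) ≤ Y ^ 36 := one_le_pow₀ hY1
    linarith
  · -- n1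
    have a1 := dd hG3
    have a2 : (4 * Y ^ 36 + 1) / 2 ^ g ≤ δ := by
      refine dg ?_
      have a1 : (5 : ℝ) * Y ^ 36 ≤ Y ^ 40 := ab hY 1 (by norm_num) (by norm_num)
      have a2 : (1 : ℝ) ≤ Y ^ 36 := one_le_pow₀ hY1
      linarith
    linarith
  · -- n2
    rw [← hMd, ← pow_mul]
    have e : (2 : ℝ) ^ 23 * (6 * Y ^ (36 * 15)) * (2 * δ) = 12 * 2 ^ 23 * Y ^ 540 * δ := by
      norm_num
      ring
    rw [e]
    exact hMm 544 (abd hY 4 (by norm_num) (by norm_num) hδ)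
  · -- la1
    rw [← hMd, ← pow_mul]
    refine le_trans ?_ hM9
    rw [mul_one_div, div_le_div_iff₀ (by positivity) (by positivity), one_mul]
    calc (2 : ℝ) ^ 23 * Y ^ (36 * 13) * Y ^ 9 = 2 ^ 23 * Y ^ 477 := by
          rw [mul_assoc, ← pow_add]
      _ ≤ Y ^ 480 := ab hY 3 (by norm_num) (by norm_num)
  · -- la2
    rw [← pow_mul]
    exact (abl hY 2 (by norm_num) (b := 961) (by norm_num) hδ hδY).trans hla2
  · -- la3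
    rw [← pow_mul]
    have a1 : 1 / Y ^ 3841 ≤ μ * (1 / Y ^ 480) ^ 8 := by
      have e : (1 : ℝ) / Y ^ 3841 = 1 / Y * (1 / Y ^ 480) ^ 8 := by
        rw [div_pow, one_pow, ← pow_mul, div_mul_div_comm, one_mul, ← pow_succ']
      rw [e]
      exact mul_le_mul_of_nonneg_right hμ (by positivity)
    calc (2 : ℝ) ^ 31 * Y ^ (36 * 25) * δ ≤ Y ^ 904 * δ :=
          abd hY 4 (by norm_num) (by norm_num) hδ
      _ = Y ^ 4745 * δ * (1 / Y ^ 3841) := by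
          have e : (Y : ℝ) ^ 4745 = Y ^ 904 * Y ^ 3841 := by rw [← pow_add]
          rw [e]
          field_simp
      _ ≤ _ := mul_le_mul_of_nonneg_left a1 (by positivity)
  · -- la4
    rw [← pow_mul]
    calc (2916 : ℝ) * Y ^ (36 * 9) ≤ Y ^ 539 := ab hY 2 (by norm_num) (by norm_num)
      _ = Y ^ 1500 * (1 / Y ^ 961) := by
          have e : (Y : ℝ) ^ 1500 = Y ^ 539 * Y ^ 961 := by rw [← pow_add]
          rw [e]
          field_simp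
      _ ≤ _ := mul_le_mul_of_nonneg_left hla2 (by positivity)
  · -- n4a
    have a1 : (2 * eG R (kdv R κ μ b0) D + 3 * (cK 3 (R ^ 2) (kdv R κ μ b0) * R) * D) / 2 ^ s ≤
        δ := dd (hG2.trans (pow_le_pow_right₀ hY1 (by norm_num)))
    have e : 7 * (Y ^ 36) ^ 2 * (Y ^ 553 * δ) = 7 * Y ^ 625 * δ := by
      rw [← pow_mul, mul_assoc 7, ← mul_assoc (Y ^ (36 * 2)), ← pow_add, ← mul_assoc]
    rw [e]
    have a2 := one_d 625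
    have a3 : 8 * Y ^ 625 * δ ≤ Y ^ 4784 * δ := abd hY 1 (by norm_num) (by norm_num) hδ
    linarith
  · exact mn (by norm_num)
  · exact (dg (one_le_pow₀ hY1)).trans (one_d _)
  · -- n4d
    have a1 : D / 2 ^ s ≤ δ := dd (hD.trans hR40)
    have e : 3 * (Y ^ 4745 * δ * Y ^ 36) = 3 * Y ^ 4781 * δ := by
      rw [mul_assoc (Y ^ 4745), mul_comm δ, ← mul_assoc (Y ^ 4745), ← pow_add, ← mul_assoc]
    rw [e]
    have a2 : Γ * (3 * Y ^ 4781 * δ) ≤ Y * (3 * Y ^ 4781 * δ) :=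
      mul_le_mul_of_nonneg_right hΓ (by positivity)
    have e2 : Y * (3 * Y ^ 4781 * δ) = 3 * Y ^ 4782 * δ := by
      have : (Y : ℝ) ^ 4782 = Y * Y ^ 4781 := by rw [← pow_succ']
      rw [this]
      ring
    rw [e2] at a2
    have a3 := one_d 4782
    have a4 : 4 * Y ^ 4782 * δ ≤ Y ^ 4784 * δ := abd hY 1 (by norm_num) (by norm_num) hδ
    linarith
  · exact one_d _
  · -- n5
    rw [← hMd]
    have hbt : 1 / Y ^ 2 ≤ b0 * t0 := by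
      have e : (1 : ℝ) / Y ^ 2 = 1 / Y * (1 / Y) := by
        field_simp
      rw [e]
      exact mul_le_mul hb ht (by positivity) hb0.le
    have hbt0 : 0 < b0 * t0 := mul_pos hb0 ht0
    have a1 : 30 * (Y ^ 36) ^ 5 * (Y ^ 4784 * δ) / (b0 * t0) ≤ 30 * Y ^ 4966 * δ := by
      rw [div_le_iff₀ hbt0]
      have e : 30 * (Y ^ 36) ^ 5 * (Y ^ 4784 * δ) = 30 * Y ^ 4966 * δ * (1 / Y ^ 2) := by
        have e1 : (Y : ℝ) ^ 4966 = Y ^ 180 * Y ^ 4784 * Y ^ 2 := by rw [← pow_add, ← pow_add]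
        rw [e1, ← pow_mul]
        field_simp
      rw [e]
      exact mul_le_mul_of_nonneg_left hbt (by positivity)
    have a2 : 2 ^ 23 * (6 * (Y ^ 36) ^ 15) * (30 * (Y ^ 36) ^ 5 * (Y ^ 4784 * δ) / (b0 * t0)) ≤
        2 ^ 23 * (6 * (Y ^ 36) ^ 15) * (30 * Y ^ 4966 * δ) :=
      mul_le_mul_of_nonneg_left a1 (by positivity)
    have e : 2 ^ 23 * (6 * (Y ^ 36) ^ 15) * (30 * Y ^ 4966 * δ) = 180 * 2 ^ 23 * Y ^ 5506 * δ := by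
      have e1 : (Y : ℝ) ^ 5506 = Y ^ 540 * Y ^ 4966 := by rw [← pow_add]
      rw [e1, ← pow_mul]
      norm_num
      ring
    rw [e] at a2
    exact hMm 5511 (a2.trans (abd hY 4 (by norm_num) (by norm_num) hδ))
  · -- n6
    have e1 : 4 * (Y ^ 36) ^ 2 * (Y ^ 4784 * δ) = 4 * Y ^ 4856 * δ := by
      rw [← pow_mul, mul_assoc 4, ← mul_assoc (Y ^ (36 * 2)), ← pow_add, ← mul_assoc]
    have e2 : 12 * (Y ^ 36) ^ 4 * (Y ^ 5520 * δ) / μ ≤ 12 * Y ^ 5665 * δ := by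
      rw [div_le_iff₀ hμ0]
      have e : 12 * (Y ^ 36) ^ 4 * (Y ^ 5520 * δ) = 12 * Y ^ 5665 * δ * (1 / Y) := by
        have e1 : (Y : ℝ) ^ 5665 = Y ^ 144 * Y ^ 5520 * Y := by rw [← pow_add, ← pow_succ]
        rw [e1, ← pow_mul]
        field_simp
      rw [e]
      exact mul_le_mul_of_nonneg_left hμ (by positivity)
    have e3 : 3 * ((Y ^ 36) ^ 2 * (Y ^ 4745 * δ)) = 3 * Y ^ 4817 * δ := by
      rw [← pow_mul, ← mul_assoc (Y ^ (36 * 2)), ← pow_add, ← mul_assoc]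
    rw [e1, e3]
    have a1 : 4 * Y ^ 4856 * δ ≤ Y ^ 5665 * δ := abd hY 1 (by norm_num) (by norm_num) hδ
    have a2 : 3 * Y ^ 4817 * δ ≤ Y ^ 5665 * δ := abd hY 1 (by norm_num) (by norm_num) hδ
    have a3 : 14 * Y ^ 5665 * δ ≤ Y ^ 5667 * δ := abd hY 1 (by norm_num) (by norm_num) hδ
    linarith

theorem log_eD (hY : 2 ^ 8 ≤ Y) {x : ℝ} {A : ℕ} {m : ℝ} (hx0 : 0 ≤ x) (hx : x ≤ Y ^ 40)
    (hA : (A : ℝ) ≤ Y) (hm0 : 0 ≤ m) (hm : m ≤ 4) :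
    Real.log (2 * (2 * x + m * A + 1) + 1) ≤ 41 * Real.log Y := by
  have hY1 := py hY
  have h0 : 0 < Y := lt_of_lt_of_le one_pos hY1
  have h1 : m * A ≤ 4 * Y := mul_le_mul hm hA (Nat.cast_nonneg _) (by norm_num)
  have h2 : 2 * (2 * x + m * A + 1) + 1 ≤ Y ^ 41 := by
    have a1 : Y ≤ Y ^ 40 := by
      calc Y = Y ^ 1 := (pow_one _).symm
        _ ≤ Y ^ 40 := pow_le_pow_right₀ hY1 (by norm_num)
    have a2 : (1 : ℝ) ≤ Y ^ 40 := one_le_pow₀ hY1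
    have a3 : 15 * Y ^ 40 ≤ Y ^ 41 := ab hY 1 (by norm_num) (by norm_num)
    linarith
  have h3 : 0 ≤ m * A := mul_nonneg hm0 (Nat.cast_nonneg _)
  have h4 := Real.log_le_log (by linarith) h2
  rw [Real.log_pow] at h4
  exact_mod_cast h4

theorem log_A (hY : 2 ^ 8 ≤ Y) {A : ℕ} (hA : (A : ℝ) ≤ Y) :
    0 ≤ Real.log (2 * (A : ℝ) + 1) ∧ Real.log (2 * (A : ℝ) + 1) ≤ 2 * Real.log Y := by
  have hY1 := py hY
  have h1 : 2 * (A : ℝ) + 1 ≤ Y ^ 2 := by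
    have a1 : 2 ^ 8 * Y ≤ Y * Y := mul_le_mul_of_nonneg_right hY (by linarith)
    nlinarith
  have h2 := Real.log_le_log (by positivity) h1
  rw [Real.log_pow] at h2
  exact ⟨Real.log_nonneg (by
    have : (0 : ℝ) ≤ A := Nat.cast_nonneg _
    linarith), by exact_mod_cast h2⟩

end

section fin

open Pool.Agent.H49.Ent Pool.Agent.H32.Dense Pool.STK Pool.D2T
open Pool.BFL (Pb)
open Pool.KM7 (P2 P2_isLaw P2_fst P2_snd P2_pos P2_CH)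

variable {Ω σ ζ ζ' ε : Type} [Fintype Ω] {N : ℕ}
variable {p : Ω → ℝ} {S : Ω → σ} {z : Ω → ζ} {z' : Ω → ζ'} {C : Dec ε} {sd : Fin N → Bool}
  {e : Ω → ε} {B : Ω → ℤ} {U P : Ω → Fin 3 → ℤ} {Tau : Ω × Ω → ℤ} {i i' : Fin 3 → Fin N}
  {R κ D : ℝ} {s A K : ℕ} {c ηF ηH e₁ e₂ : ℝ} {Y δ μ b0 t0 Γ : ℝ} {g : ℕ}
  {Q : (Fin N → ε × ℤ) → ζ' → Fin 3 → Fin 3 → ℝ} {Q' : (Fin N → ε × ℤ) → Fin 3 → Fin 3 → ℝ}

/-- **The join of the case of a conic**, with one natural size `Y` and one error `δ`. -/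
theorem J3.conic (h : J3 p S z z' C sd e B U P Tau i i' R κ D s A K c ηF ηH e₁ e₂)
    (hY : 2 ^ 8 ≤ Y) (hR : R ≤ Y) (hκ : 1 / Y ≤ κ) (hμ : 1 / Y ≤ μ) (hb : 1 / Y ≤ b0)
    (ht : 1 / Y ≤ t0) (hΓ : Γ ≤ Y) (hD : D ≤ Y) (hA : (A : ℝ) ≤ Y) (hδ : 0 ≤ δ)
    (hδY : δ * Y ^ 1200 ≤ 1) (hg : Y ^ 40 ≤ δ * 2 ^ g) (hs : Y ^ 40 ≤ δ * 2 ^ s)
    {c₁ c₂ : ℝ} (hc₁ : 0 < c₁) (hc₂ : 0 ≤ c₂)
    (hn : (N * (ηF + ηH) + Real.log 2) / c₁ + Real.log 36 < (1 - c / c₁) * Real.log K)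
    (hx : 0 < ((s : ℝ) - g) * Real.log 2 - 41 * Real.log Y)
    (hn1 : e₁ + N * (ηF + ηH) + 9 * Real.log Y ≤
      c₂ * (((s : ℝ) - g) * Real.log 2 - 41 * Real.log Y))
    (hn2 : ηH + (e₂ + N * (ηF + ηH)) + 9 * Real.log Y ≤
      c₂ * (((s : ℝ) - g) * Real.log 2 - 41 * Real.log Y)) :
    law (PL p S z' sd) (fun w => Gd z' C sd e B U Tau i i' Q Q' R μ δ b0 t0 Γ D s w ∧
      ¬Lb C sd e B U Tau i i' δ (Y ^ 553 * δ) (Y ^ 5667 * δ) s w) True ≤ 13 * c₁ + 2 * c₂ := by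
  have hR1 := h.hm.R1
  have hD0 := h.hm.D0
  have n := nm_ex hY hR1 hR hκ hμ hb ht hΓ hD0 hD hA hδ hδY hg hs
  obtain ⟨hG1, hG2, hG3, hG4⟩ := eG_le hY hR1 hR hκ hμ hb hD0 hD
  obtain ⟨hk, -⟩ := ck_le hY hR1 hR hκ hμ hb
  have hl1 := log_eD hY (eD_nonneg hR1 hk hD0) hG3 hA (m := 4) (by norm_num) le_rfl
  have hH0 : 0 ≤ eH R (kdv R κ μ b0) D := by
    unfold eH
    have a1 := eG_nonneg (R := R) hk hD0
    have a2 : 0 ≤ R := by linarith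
    positivity
  have hl2 := log_eD hY hH0 hG4 hA (m := 3) (by norm_num) (by norm_num)
  obtain ⟨hA0, hA2⟩ := log_A hY hA
  have hY0 : 0 < Y := lt_of_lt_of_le one_pos (py hY)
  have h5 : Real.log 5 ≤ Real.log Y := Real.log_le_log (by norm_num) (le_trans (by norm_num) hY)
  have h4 : Real.log 4 ≤ Real.log Y := Real.log_le_log (by norm_num) (le_trans (by norm_num) hY)
  have hlY : 0 ≤ Real.log Y := Real.log_nonneg (py hY)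
  refine h.join n hc₁ hn (by linarith) ?_ (by linarith) ?_
  · refine le_trans ?_ (mul_le_mul_of_nonneg_left (by linarith : ((s : ℝ) - g) * Real.log 2 -
      41 * Real.log Y ≤ ((s : ℝ) - g) * Real.log 2 -
        Real.log (2 * (2 * eD R (kdv R κ μ b0) D + 4 * A + 1) + 1)) hc₂)
    linarith
  · refine le_trans ?_ (mul_le_mul_of_nonneg_left (by linarith : ((s : ℝ) - g) * Real.log 2 -
      41 * Real.log Y ≤ ((s : ℝ) - g) * Real.log 2 -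
        Real.log (2 * (2 * eH R (kdv R κ μ b0) D + 3 * A + 1) + 1)) hc₂)
    linarith

/-- **The time step is not small.** -/
theorem tau_big {q : Ω × Ω → ℝ} (hq : IsLaw q) {χ : Type} (Z : Ω × Ω → χ) (F : Ω × Ω → Fin 3 → ℤ)
    (Tau : Ω × Ω → ℤ) {A : ℕ} (hA : 1 ≤ A) (s g : ℕ) (hgs : g ≤ s)
    (hP : ∀ v, 0 < q v → ∀ j, |F v j| ≤ ((A * 2 ^ s : ℕ) : ℤ))
    (hT : ∀ v, 0 < q v → |Tau v| ≤ ((A * 2 ^ s : ℕ) : ℤ)) {e₁ : ℝ}
    (hfull : 4 * (s * Real.log 2) - e₁ ≤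
      CH q (fun v => (![F v 0, F v 1, F v 2, Tau v] : Fin 4 → ℤ)) Z) :
    Pb q (fun v => |(Tau v : ℝ)| ≤ 1 / 2 ^ g * 2 ^ s) *
      (g * Real.log 2 - Real.log (8 * A + 7)) ≤ e₁ + Real.log 5 + 4 * Real.log (2 * A + 1) := by
  have h0 := hq.nonneg
  have h2 : (2 : ℝ) ^ s = 2 ^ g * 2 ^ (s - g) := by rw [← pow_add, Nat.add_sub_cancel' hgs]
  have h1 := read_lin hq Z hA s (s - g) (fun v => (![F v 0, F v 1, F v 2, Tau v] : Fin 4 → ℤ))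
    (fun _ => ![0, 0, 0, 1 / 2 ^ (s - g)]) (fun _ => 0)
    (fun v => |(Tau v : ℝ)| ≤ 1 / 2 ^ g * 2 ^ s) (D := 1) (e := 0) (e' := e₁) zero_le_one
    (fun v hv j => by
      fin_cases j
      · exact hP v hv 0
      · exact hP v hv 1
      · exact hP v hv 2
      · exact hT v hv) (by exact_mod_cast hfull)
    (le_of_eq (CH_eq_zero h0 fun _ _ _ _ _ => rfl)) (fun v _ hv => by
      rw [mul_zero, add_zero]
      simp only [Fin.sum_univ_four, Matrix.cons_val_zero, Matrix.cons_val_one, Matrix.cons_val]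
      rw [zero_mul, zero_mul, zero_mul, zero_add, zero_add, zero_add, abs_mul,
        abs_of_pos (by positivity : (0 : ℝ) < 1 / 2 ^ (s - g)), one_div, inv_mul_le_iff₀
          (by positivity), mul_one]
      refine hv.trans (le_of_eq ?_)
      rw [h2]
      field_simp)
  have e1 : (fun v : Ω × Ω => |(Tau v : ℝ)| ≤ 1 / 2 ^ g * 2 ^ s ∧
      ∃ j : Fin 4, (1 : ℝ) / 2 ^ (s - g) ≤ |(![0, 0, 0, 1 / 2 ^ (s - g)] : Fin 4 → ℝ) j|) =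
      fun v => |(Tau v : ℝ)| ≤ 1 / 2 ^ g * 2 ^ s := by
    funext v
    refine propext ⟨fun hh => hh.1, fun hh => ⟨hh, 3, ?_⟩⟩
    simp only [Matrix.cons_val]
    rw [abs_of_pos (by positivity : (0 : ℝ) < 1 / 2 ^ (s - g))]
  rw [e1] at h1
  have e2 : ((s : ℝ) - ((s - g : ℕ) : ℝ)) = g := by
    rw [Nat.cast_sub hgs]
    ring
  rw [e2] at h1
  have e3 : (2 : ℝ) * (2 * 1 + ((4 : ℕ) : ℝ) * A + 1) + 1 = 8 * A + 7 := by
    push_cast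
    ring
  rw [e3] at h1
  push_cast at h1
  norm_num at h1 ⊢
  linarith

end fin

end Pool.D2J
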