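import Pool.Agent.H73.D2.Trn
import Pool.Agent.H66.D2.Rdl

/-!
# D2: the relations of the own line, read against the germs of three copies

`Dec`: the decoders of the direction data. `g0`, `g1`: the germ of the vector of near digits which
is computed from the data of three copies. `own_one`: the velocity relation of the own line gives
small coefficients. `own_two`: the relation of the own line on its own record gives small
coefficients.
-/

set_option autoImplicit false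

namespace Pool.D2J

open Finset Real
open Pool.Agent.H49.Ent Pool.Agent.H32.Dense Pool.STK Pool.D2A Pool.D2T
open Pool.BFL (Pb)
open Pool.KM7 (P2 P2_isLaw P2_fst P2_snd P2_pos P2_CH)

/-- The decoders of the direction data. -/
structure Dec (ε : Type) where
  /-- the direction -/
  X : ε → Fin 3 → ℝ
  /-- the coefficient of the velocities -/
  b : ε → ℝ
  /-- the coefficients of the point -/
  Th : ε → Fin 3 → ℝ

section germ

variable {ε : Type} (C : Dec ε)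

/-- The matrix of three copies. -/
def Dec.fi (y : Fin 3 → ε × ℤ) : Matrix (Fin 3) (Fin 3) ℝ := fun r j => C.b (y r).1 * C.X (y r).1 j

/-- The coefficients of the point, of three copies. -/
def Dec.ps (y : Fin 3 → ε × ℤ) : Fin 3 → Fin 3 → ℝ := fun r j => C.Th (y r).1 j

/-- The constant part of the germ. -/
noncomputable def Dec.g0 (y : Fin 3 → ε × ℤ) (i : Fin 3) : ℝ := germ0 (C.fi y) (fun r => (y r).2) i

/-- The linear part of the germ. -/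
noncomputable def Dec.g1 (y : Fin 3 → ε × ℤ) (i j : Fin 3) : ℝ := germ1 (C.fi y) (C.ps y) i j

theorem Dec.g1_le {y : Fin 3 → ε × ℤ} {B κ R : ℝ} (hB : 1 ≤ B) (hκ : 0 < κ)
    (hfi : ∀ i j, |C.fi y i j| ≤ B) (hdet : κ ≤ |(C.fi y).det|) (hps : ∀ i j, |C.ps y i j| ≤ R)
    (i j : Fin 3) : |C.g1 y i j| ≤ cK 3 B κ * R := by
  have hne : (C.fi y).det ≠ 0 := by
    intro h
    rw [h, abs_zero] at hdet
    linarith
  have hu : IsUnit (C.fi y).det := isUnit_iff_ne_zero.mpr hne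
  unfold Dec.g1 germ1
  rw [abs_neg]
  refine cramer_cK (C.fi y) (fun i => ∑ a, (C.fi y)⁻¹ i a * C.ps y a j) hB hfi hκ hdet
    (fun a => ?_) i
  have h1 : C.fi y * (C.fi y)⁻¹ = 1 := Matrix.mul_nonsing_inv _ hu
  have h2 := congrFun (congrArg (fun M : Matrix (Fin 3) (Fin 3) ℝ => M.mulVec fun a => C.ps y a j)
    h1) a
  rw [Matrix.one_mulVec, ← Matrix.mulVec_mulVec] at h2
  have h3 : ∑ b, C.fi y a b * ∑ c, (C.fi y)⁻¹ b c * C.ps y c j = C.ps y a j := h2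
  rw [h3]
  exact hps a j

end germ

/-- The numbers of the difference of two samples. -/
theorem pair_germ {u u' c c' p p' x : Fin 3 → ℝ} {m m' : Fin 3 → Fin 3 → ℝ} {t E D Gb : ℝ}
    (h1 : ∀ i, |u i - c i - ∑ j, m i j * p j| ≤ E)
    (h2 : ∀ i, |u' i - c' i - ∑ j, m' i j * p' j| ≤ E)
    (h3 : ∀ j, |p' j - p j - t * x j| ≤ D) (h4 : ∀ i j, |m' i j| ≤ Gb) (i : Fin 3) :
    |(u' i - u i) - ((c' i - c i) + ∑ j, (m' i j - m i j) * p j + t * ∑ j, m' i j * x j)| ≤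
      2 * E + 3 * Gb * D := by
  have hG : 0 ≤ Gb := (abs_nonneg _).trans (h4 0 0)
  have e : (u' i - u i) - ((c' i - c i) + ∑ j, (m' i j - m i j) * p j + t * ∑ j, m' i j * x j) =
      (u' i - c' i - ∑ j, m' i j * p' j) - (u i - c i - ∑ j, m i j * p j) +
        ∑ j, m' i j * (p' j - p j - t * x j) := by
    simp only [Fin.sum_univ_three]
    ring
  rw [e]
  have h5 : |∑ j, m' i j * (p' j - p j - t * x j)| ≤ 3 * Gb * D := by
    refine (Finset.abs_sum_le_sum_abs _ _).trans ?_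
    refine (Finset.sum_le_card_nsmul _ _ (Gb * D) fun j _ => ?_).trans (le_of_eq ?_)
    · rw [abs_mul]
      exact mul_le_mul (h4 i j) (h3 j) (abs_nonneg _) hG
    · rw [Finset.card_univ, Fintype.card_fin, nsmul_eq_mul]
      push_cast
      ring
  have a1 := abs_add_le ((u' i - c' i - ∑ j, m' i j * p' j) - (u i - c i - ∑ j, m i j * p j))
    (∑ j, m' i j * (p' j - p j - t * x j))
  have a2 := abs_sub (u' i - c' i - ∑ j, m' i j * p' j) (u i - c i - ∑ j, m i j * p j)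
  have a3 := h1 i
  have a4 := h2 i
  linarith

/-- A scalar product of three terms. -/
theorem dot3 {x v : Fin 3 → ℝ} {R E : ℝ} (hx : ∀ i, |x i| ≤ R) (hv : ∀ i, |v i| ≤ E) :
    |∑ i, x i * v i| ≤ 3 * (R * E) := by
  have hR : 0 ≤ R := (abs_nonneg _).trans (hx 0)
  refine (Finset.abs_sum_le_sum_abs _ _).trans ?_
  refine (Finset.sum_le_card_nsmul _ _ (R * E) fun j _ => ?_).trans (le_of_eq ?_)
  · rw [abs_mul]
    exact mul_le_mul (hx j) (hv j) (abs_nonneg _) hR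
  · rw [Finset.card_univ, Fintype.card_fin, nsmul_eq_mul]
    push_cast
    ring

section own

variable {Ω σ ζ ζ' ε : Type} [Fintype Ω] {N : ℕ}

/-- The data of three copies. -/
def cps (sd : Fin N → Bool) (e : Ω → ε) (B : Ω → ℤ) (i : Fin 3 → Fin N)
    (w : (Ω × Ω) × (Fin N → Ω × Ω)) (r : Fin 3) : ε × ℤ := (e (cp sd (i r) w), B (cp sd (i r) w))

/-- The class relations of one sample. -/
structure Sam (p : Ω → ℝ) (C : Dec ε) (e : Ω → ε) (B : Ω → ℤ) (U P : Ω → Fin 3 → ℤ)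
    (R D : ℝ) : Prop where
  R1 : 1 ≤ R
  D0 : 0 ≤ D
  X : ∀ ω, 0 < p ω → ∀ j, |C.X (e ω) j| ≤ R
  b : ∀ ω, 0 < p ω → |C.b (e ω)| ≤ R
  Th : ∀ ω, 0 < p ω → ∀ j, |C.Th (e ω) j| ≤ R
  rel : ∀ ω, 0 < p ω →
    |(B ω : ℝ) - C.b (e ω) * ∑ j, C.X (e ω) j * U ω j - ∑ j, C.Th (e ω) j * P ω j| ≤ D

/-- The error of the germ. -/
noncomputable def eG (R κ D : ℝ) : ℝ := cK 3 (R ^ 2) κ * D

theorem eG_nonneg {R κ D : ℝ} (hκ : 0 < κ) (hD : 0 ≤ D) : 0 ≤ eG R κ D :=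
  mul_nonneg (cK_nonneg (by positivity) hκ) hD

theorem Sam.fi_le {p : Ω → ℝ} {C : Dec ε} {e : Ω → ε} {B : Ω → ℤ} {U P : Ω → Fin 3 → ℤ}
    {R D : ℝ} (h : Sam p C e B U P R D) {S : Ω → σ} {z' : Ω → ζ'} (hp : IsLaw p)
    {sd : Fin N → Bool} (i : Fin 3 → Fin N) {w : (Ω × Ω) × (Fin N → Ω × Ω)}
    (hw : 0 < PL p S z' sd w) (r j : Fin 3) : |C.fi (cps sd e B i w) r j| ≤ R ^ 2 := by
  have h1 := ((PL_pos hp S z' sd hw).2.2.2 (i r)).1
  show |C.b (e (cp sd (i r) w)) * C.X (e (cp sd (i r) w)) j| ≤ R ^ 2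
  rw [abs_mul, sq]
  exact mul_le_mul (h.b _ h1) (h.X _ h1 j) (abs_nonneg _) (by linarith [h.R1])

theorem Sam.ps_le {p : Ω → ℝ} {C : Dec ε} {e : Ω → ε} {B : Ω → ℤ} {U P : Ω → Fin 3 → ℤ}
    {R D : ℝ} (h : Sam p C e B U P R D) {S : Ω → σ} {z' : Ω → ζ'} (hp : IsLaw p)
    {sd : Fin N → Bool} (i : Fin 3 → Fin N) {w : (Ω × Ω) × (Fin N → Ω × Ω)}
    (hw : 0 < PL p S z' sd w) (r j : Fin 3) : |C.ps (cps sd e B i w) r j| ≤ R :=
  h.Th _ ((PL_pos hp S z' sd hw).2.2.2 (i r)).1 j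

/-- The germ of a sample from its copies. -/
theorem Sam.germ {p : Ω → ℝ} {C : Dec ε} {e : Ω → ε} {B : Ω → ℤ} {U P : Ω → Fin 3 → ℤ}
    {R D : ℝ} (h : Sam p C e B U P R D) {S : Ω → σ} {z' : Ω → ζ'} (hp : IsLaw p)
    (hUP : Det p z' fun ω => (U ω, P ω)) {sd : Fin N → Bool} (i : Fin 3 → Fin N)
    {w : (Ω × Ω) × (Fin N → Ω × Ω)} (hw : 0 < PL p S z' sd w) {ω : Ω}
    (hi : ∀ r, sm sd (i r) w.1 = ω) {κ : ℝ} (hκ : 0 < κ)
    (hdet : κ ≤ |(C.fi (cps sd e B i w)).det|) (j : Fin 3) :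
    |(U ω j : ℝ) - C.g0 (cps sd e B i w) j - ∑ l, C.g1 (cps sd e B i w) j l * P ω l| ≤
      eG R κ D := by
  have hR2 : (1 : ℝ) ≤ R ^ 2 := one_le_pow₀ h.R1
  refine germ_err (C.fi (cps sd e B i w)) (C.ps (cps sd e B i w))
    (fun r => (cps sd e B i w r).2) (U ω) (P ω) hR2 hκ (fun r l => h.fi_le hp i hw r l) hdet
    (fun r => ?_) j
  obtain ⟨h1, h2⟩ := (PL_pos hp S z' sd hw).2.2.2 (i r)
  have h3 : 0 < p (sm sd (i r) w.1) := by
    have h4 := (PL_pos hp S z' sd hw)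
    unfold sm
    cases sd (i r)
    · exact h4.2.1
    · exact h4.1
  rw [hi r] at h2 h3
  have h5 := hUP _ _ h3 h1 h2
  simp only [Prod.mk.injEq] at h5
  have h6 := h.rel _ h1
  rw [← h5.1, ← h5.2] at h6
  refine le_trans (le_of_eq ?_) h6
  show |(B (cp sd (i r) w) : ℝ) - ∑ l, C.b (e (cp sd (i r) w)) * C.X (e (cp sd (i r) w)) l * U ω l -
    ∑ l, C.Th (e (cp sd (i r) w)) l * P ω l| = _
  congr 2
  congr 1
  rw [Finset.mul_sum]
  exact Finset.sum_congr rfl fun l _ => by ring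

/-- The class relations of the two samples of one line. -/
structure Pai (p : Ω → ℝ) (S : Ω → σ) (C : Dec ε) (e : Ω → ε) (U P : Ω → Fin 3 → ℤ)
    (Tau : Ω × Ω → ℤ) (D : ℝ) : Prop where
  own : ∀ v, 0 < P2 p S v → |∑ j, C.X (e v.1) j * ((U v.2 j : ℝ) - U v.1 j)| ≤ D
  inc : ∀ v, 0 < P2 p S v → ∀ j, |(P v.2 j : ℝ) - P v.1 j - Tau v * C.X (e v.1) j| ≤ D

/-- The coefficients of the velocity relation. -/
noncomputable def al1 (C : Dec ε) (x : ε) (y y' : Fin 3 → ε × ℤ) : Fin 4 → ℝ :=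
  ![∑ i, C.X x i * (C.g1 y' i 0 - C.g1 y i 0), ∑ i, C.X x i * (C.g1 y' i 1 - C.g1 y i 1),
    ∑ i, C.X x i * (C.g1 y' i 2 - C.g1 y i 2), ∑ i, C.X x i * ∑ j, C.g1 y' i j * C.X x j]

/-- The constant term of the velocity relation, times `2 ^ s`. -/
noncomputable def be1 (C : Dec ε) (x : ε) (y y' : Fin 3 → ε × ℤ) : ℝ :=
  ∑ i, C.X x i * (C.g0 y' i - C.g0 y i)

/-- The coefficients of the relation on the record. -/
noncomputable def al2 (C : Dec ε) (x : ε) (y : Fin 3 → ε × ℤ) (j : Fin 3) : ℝ :=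
  C.b x * ∑ i, C.X x i * C.g1 y i j + C.Th x j

/-- The determinants of the copies are large. -/
def Dt (C : Dec ε) (sd : Fin N → Bool) (e : Ω → ε) (B : Ω → ℤ) (i : Fin 3 → Fin N) (κ : ℝ)
    (w : (Ω × Ω) × (Fin N → Ω × Ω)) : Prop := κ ≤ |(C.fi (cps sd e B i w)).det|

/-- The error of the velocity relation. -/
noncomputable def eD (R κ D : ℝ) : ℝ := D + 3 * (R * (2 * eG R κ D + 3 * (cK 3 (R ^ 2) κ * R) * D))

/-- The velocity relation. -/
theorem rel_one {p : Ω → ℝ} {C : Dec ε} {e : Ω → ε} {B : Ω → ℤ} {U P : Ω → Fin 3 → ℤ}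
    {R D : ℝ} (h : Sam p C e B U P R D) {S : Ω → σ} {z' : Ω → ζ'} (hp : IsLaw p)
    (hUP : Det p z' fun ω => (U ω, P ω)) {Tau : Ω × Ω → ℤ} (hv : Pai p S C e U P Tau D)
    {sd : Fin N → Bool} {i i' : Fin 3 → Fin N} (hi : ∀ r, sd (i r) = true)
    (hi' : ∀ r, sd (i' r) = false) {w : (Ω × Ω) × (Fin N → Ω × Ω)} (hw : 0 < PL p S z' sd w)
    {κ : ℝ} (hκ : 0 < κ) (hdet : Dt C sd e B i κ w) (hdet' : Dt C sd e B i' κ w) :
    (∀ l, |((U w.1.2 l : ℝ) - U w.1.1 l) - ((C.g0 (cps sd e B i' w) l - C.g0 (cps sd e B i w) l) +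
      ∑ j, (C.g1 (cps sd e B i' w) l j - C.g1 (cps sd e B i w) l j) * P w.1.1 j +
      Tau w.1 * ∑ j, C.g1 (cps sd e B i' w) l j * C.X (e w.1.1) j)| ≤
        2 * eG R κ D + 3 * (cK 3 (R ^ 2) κ * R) * D) ∧
    |∑ l, al1 C (e w.1.1) (cps sd e B i w) (cps sd e B i' w) l *
      (![P w.1.1 0, P w.1.1 1, P w.1.1 2, Tau w.1] l : ℤ) +
      be1 C (e w.1.1) (cps sd e B i w) (cps sd e B i' w)| ≤ eD R κ D := by
  have hw1 : 0 < P2 p S w.1 := (PL_base hp S z' sd).pos (PL_isLaw hp S z' sd).nonneg hw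
  have hpw := PL_pos hp S z' sd hw
  have hs : ∀ r, sm sd (i r) w.1 = w.1.1 := fun r => by
    unfold sm
    rw [hi r]
    rfl
  have hs' : ∀ r, sm sd (i' r) w.1 = w.1.2 := fun r => by
    unfold sm
    rw [hi' r]
    rfl
  have hR2 : (1 : ℝ) ≤ R ^ 2 := one_le_pow₀ h.R1
  have k1 : ∀ l, |((U w.1.2 l : ℝ) - U w.1.1 l) -
      ((C.g0 (cps sd e B i' w) l - C.g0 (cps sd e B i w) l) +
      ∑ j, (C.g1 (cps sd e B i' w) l j - C.g1 (cps sd e B i w) l j) * P w.1.1 j +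
      Tau w.1 * ∑ j, C.g1 (cps sd e B i' w) l j * C.X (e w.1.1) j)| ≤
        2 * eG R κ D + 3 * (cK 3 (R ^ 2) κ * R) * D := fun l =>
    pair_germ (u := fun l => (U w.1.1 l : ℝ)) (u' := fun l => (U w.1.2 l : ℝ))
      (c := C.g0 (cps sd e B i w)) (c' := C.g0 (cps sd e B i' w))
      (p := fun l => (P w.1.1 l : ℝ)) (p' := fun l => (P w.1.2 l : ℝ))
      (x := C.X (e w.1.1)) (m := C.g1 (cps sd e B i w)) (m' := C.g1 (cps sd e B i' w))
      (fun l => h.germ hp hUP i hw hs hκ hdet l) (fun l => h.germ hp hUP i' hw hs' hκ hdet' l)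
      (hv.inc w.1 hw1)
      (fun l j => C.g1_le hR2 hκ (fun r l => h.fi_le hp i' hw r l) hdet'
        (fun r l => h.ps_le hp i' hw r l) l j) l
  refine ⟨k1, ?_⟩
  have k2 := hv.own w.1 hw1
  have k3 := dot3 (h.X _ hpw.1) k1
  have e1 : ∑ l, al1 C (e w.1.1) (cps sd e B i w) (cps sd e B i' w) l *
      (![P w.1.1 0, P w.1.1 1, P w.1.1 2, Tau w.1] l : ℤ) +
      be1 C (e w.1.1) (cps sd e B i w) (cps sd e B i' w) =
      ∑ j, C.X (e w.1.1) j * ((U w.1.2 j : ℝ) - U w.1.1 j) -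
      ∑ l, C.X (e w.1.1) l * (((U w.1.2 l : ℝ) - U w.1.1 l) -
      ((C.g0 (cps sd e B i' w) l - C.g0 (cps sd e B i w) l) +
      ∑ j, (C.g1 (cps sd e B i' w) l j - C.g1 (cps sd e B i w) l j) * P w.1.1 j +
      Tau w.1 * ∑ j, C.g1 (cps sd e B i' w) l j * C.X (e w.1.1) j)) := by
    unfold al1 be1
    simp only [Fin.sum_univ_three, Fin.sum_univ_four, Matrix.cons_val_zero, Matrix.cons_val_one,
      Matrix.cons_val]
    ring
  rw [e1]
  have a1 := abs_sub (∑ j, C.X (e w.1.1) j * ((U w.1.2 j : ℝ) - U w.1.1 j))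
    (∑ l, C.X (e w.1.1) l * (((U w.1.2 l : ℝ) - U w.1.1 l) -
      ((C.g0 (cps sd e B i' w) l - C.g0 (cps sd e B i w) l) +
      ∑ j, (C.g1 (cps sd e B i' w) l j - C.g1 (cps sd e B i w) l j) * P w.1.1 j +
      Tau w.1 * ∑ j, C.g1 (cps sd e B i' w) l j * C.X (e w.1.1) j)))
  unfold eD
  linarith

/-- **The velocity relation is read.** -/
theorem own_one {p : Ω → ℝ} {C : Dec ε} {e : Ω → ε} {B : Ω → ℤ} {U P : Ω → Fin 3 → ℤ}
    {R D : ℝ} (h : Sam p C e B U P R D) {S : Ω → σ} {z : Ω → ζ} {z' : Ω → ζ'} (hp : IsLaw p)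
    (hz' : Det p z' z) (hS : Det p S z)
    (hUP : Det p z' fun ω => (U ω, P ω)) {Tau : Ω × Ω → ℤ} (hv : Pai p S C e U P Tau D)
    {sd : Fin N → Bool} {i i' : Fin 3 → Fin N} (hi : ∀ r, sd (i r) = true)
    (hi' : ∀ r, sd (i' r) = false) {κ : ℝ} (hκ : 0 < κ) {A : ℕ} (hA : 1 ≤ A) (s g : ℕ)
    (hP : ∀ ω, 0 < p ω → ∀ j, |P ω j| ≤ ((A * 2 ^ s : ℕ) : ℤ))
    (hT : ∀ v, 0 < P2 p S v → |Tau v| ≤ ((A * 2 ^ s : ℕ) : ℤ)) {ηF ηH e₁ : ℝ}
    (hF : CH p e z ≤ CH p e z' + ηF) (hH : CH p B (fun ω => (e ω, z ω)) ≤ ηH)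
    (hfull : 4 * (s * Real.log 2) - e₁ ≤
      CH (P2 p S) (fun v => (![P v.1 0, P v.1 1, P v.1 2, Tau v] : Fin 4 → ℤ))
        (fun v => (e v.1, z v.1))) :
    Pb (PL p S z' sd) (fun w => (Dt C sd e B i κ w ∧ Dt C sd e B i' κ w) ∧
        ∃ j, 1 / 2 ^ g ≤ |al1 C (e w.1.1) (cps sd e B i w) (cps sd e B i' w) j|) *
      (((s : ℝ) - g) * Real.log 2 - Real.log (2 * (2 * eD R κ D + 4 * A + 1) + 1)) ≤
      e₁ + N * (ηF + ηH) + Real.log 5 + 4 * Real.log (2 * A + 1) := by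
  have hq := PL_isLaw hp S z' sd
  have h0 := hq.nonneg
  have hD0 : 0 ≤ eD R κ D := by
    unfold eD
    have a1 := eG_nonneg (R := R) hκ h.D0
    have a2 : 0 ≤ cK 3 (R ^ 2) κ := cK_nonneg (by positivity) hκ
    have a3 := h.R1
    have a4 := h.D0
    positivity
  obtain ⟨Wc, hWc⟩ : ∃ Wc : (Ω × Ω) × (Fin N → Ω × Ω) → Fin N → ε × ℤ,
    Wc = fun w r => (e (cp sd r w), B (cp sd r w)) := ⟨_, rfl⟩
  have hfull' : (4 : ℕ) * (s * Real.log 2) - (e₁ + N * (ηF + ηH)) ≤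
      CH (PL p S z' sd) (fun w => (![P w.1.1 0, P w.1.1 1, P w.1.1 2, Tau w.1] : Fin 4 → ℤ))
        (fun w => (e w.1.1, (Wc w, z w.1.1))) := by
    have h1 := pair_budget hp hz' hS sd e B hF hH
      (fun v => (![P v.1 0, P v.1 1, P v.1 2, Tau v] : Fin 4 → ℤ)) (fun v => e v.1)
    have h2 := PL_CH hp S z' sd (fun v => (![P v.1 0, P v.1 1, P v.1 2, Tau v] : Fin 4 → ℤ))
      (fun v => (e v.1, z v.1))
    rw [hWc]
    push_cast
    linarith
  have hcell : CH (PL p S z' sd) (fun w => cl s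
      (al1 C (e w.1.1) (cps sd e B i w) (cps sd e B i' w))
      (be1 C (e w.1.1) (cps sd e B i w) (cps sd e B i' w) / 2 ^ s))
      (fun w => (e w.1.1, (Wc w, z w.1.1))) ≤ 0 := by
    refine le_of_eq (CH_eq_zero h0 fun w w' _ _ hh => ?_)
    simp only [Prod.mk.injEq] at hh
    obtain ⟨e1, e2, _⟩ := hh
    rw [hWc] at e2
    have e3 : cps sd e B i w = cps sd e B i w' := funext fun r => congrFun e2 (i r)
    have e4 : cps sd e B i' w = cps sd e B i' w' := funext fun r => congrFun e2 (i' r)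
    rw [e1, e3, e4]
  have hrel : ∀ w, 0 < PL p S z' sd w → (Dt C sd e B i κ w ∧ Dt C sd e B i' κ w) →
      |∑ j, al1 C (e w.1.1) (cps sd e B i w) (cps sd e B i' w) j *
        ((![P w.1.1 0, P w.1.1 1, P w.1.1 2, Tau w.1] : Fin 4 → ℤ) j : ℝ) +
        2 ^ s * (be1 C (e w.1.1) (cps sd e B i w) (cps sd e B i' w) / 2 ^ s)| ≤ eD R κ D := by
    intro w hw hd
    have h1 := (rel_one h hp hUP hv hi hi' hw hκ hd.1 hd.2).2
    rwa [mul_div_cancel₀ _ (by positivity : (2 : ℝ) ^ s ≠ 0)]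
  have hPb : ∀ w, 0 < PL p S z' sd w → ∀ j,
      |(![P w.1.1 0, P w.1.1 1, P w.1.1 2, Tau w.1] : Fin 4 → ℤ) j| ≤ ((A * 2 ^ s : ℕ) : ℤ) := by
    intro w hw j
    have hw1 : 0 < P2 p S w.1 := (PL_base hp S z' sd).pos h0 hw
    have h1 := (PL_pos hp S z' sd hw).1
    fin_cases j
    · exact hP _ h1 0
    · exact hP _ h1 1
    · exact hP _ h1 2
    · exact hT _ hw1
  have h1 := read_lin hq (fun w => (e w.1.1, (Wc w, z w.1.1))) hA s g
    (fun w => (![P w.1.1 0, P w.1.1 1, P w.1.1 2, Tau w.1] : Fin 4 → ℤ))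
    (fun w => al1 C (e w.1.1) (cps sd e B i w) (cps sd e B i' w))
    (fun w => be1 C (e w.1.1) (cps sd e B i w) (cps sd e B i' w) / 2 ^ s)
    (fun w => Dt C sd e B i κ w ∧ Dt C sd e B i' κ w) hD0 hPb hfull' hcell hrel
  norm_num at h1 ⊢
  linarith

/-- The error of the relation on the record. -/
noncomputable def eH (R κ D : ℝ) : ℝ := D + R * (3 * (R * eG R κ D))

/-- The relation on the record. -/
theorem rel_two {p : Ω → ℝ} {C : Dec ε} {e : Ω → ε} {B : Ω → ℤ} {U P : Ω → Fin 3 → ℤ}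
    {R D : ℝ} (h : Sam p C e B U P R D) {S : Ω → σ} {z' : Ω → ζ'} (hp : IsLaw p)
    (hUP : Det p z' fun ω => (U ω, P ω)) {sd : Fin N → Bool} {i : Fin 3 → Fin N}
    (hi : ∀ r, sd (i r) = true) {w : (Ω × Ω) × (Fin N → Ω × Ω)} (hw : 0 < PL p S z' sd w)
    {κ : ℝ} (hκ : 0 < κ) (hdet : Dt C sd e B i κ w) :
    |∑ l, al2 C (e w.1.1) (cps sd e B i w) l * (P w.1.1 l : ℤ) +
      (C.b (e w.1.1) * ∑ l, C.X (e w.1.1) l * C.g0 (cps sd e B i w) l - B w.1.1)| ≤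
        eH R κ D := by
  have hpw := PL_pos hp S z' sd hw
  have hs : ∀ r, sm sd (i r) w.1 = w.1.1 := fun r => by
    unfold sm
    rw [hi r]
    rfl
  have k1 := fun l => h.germ hp hUP i hw hs hκ hdet l
  have k2 := h.rel _ hpw.1
  have k3 := dot3 (h.X _ hpw.1) k1
  have k4 := h.b _ hpw.1
  have e1 : ∑ l, al2 C (e w.1.1) (cps sd e B i w) l * (P w.1.1 l : ℤ) +
      (C.b (e w.1.1) * ∑ l, C.X (e w.1.1) l * C.g0 (cps sd e B i w) l - B w.1.1) =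
      -((B w.1.1 : ℝ) - C.b (e w.1.1) * ∑ j, C.X (e w.1.1) j * U w.1.1 j -
        ∑ j, C.Th (e w.1.1) j * P w.1.1 j) -
      C.b (e w.1.1) * ∑ l, C.X (e w.1.1) l * ((U w.1.1 l : ℝ) - C.g0 (cps sd e B i w) l -
        ∑ j, C.g1 (cps sd e B i w) l j * P w.1.1 j) := by
    unfold al2
    simp only [Fin.sum_univ_three]
    ring
  rw [e1]
  have a1 := abs_sub (-((B w.1.1 : ℝ) - C.b (e w.1.1) * ∑ j, C.X (e w.1.1) j * U w.1.1 j -
        ∑ j, C.Th (e w.1.1) j * P w.1.1 j))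
      (C.b (e w.1.1) * ∑ l, C.X (e w.1.1) l * ((U w.1.1 l : ℝ) - C.g0 (cps sd e B i w) l -
        ∑ j, C.g1 (cps sd e B i w) l j * P w.1.1 j))
  rw [abs_neg] at a1
  have a2 : |C.b (e w.1.1) * ∑ l, C.X (e w.1.1) l * ((U w.1.1 l : ℝ) -
      C.g0 (cps sd e B i w) l - ∑ j, C.g1 (cps sd e B i w) l j * P w.1.1 j)| ≤
      R * (3 * (R * eG R κ D)) := by
    rw [abs_mul]
    exact mul_le_mul k4 k3 (abs_nonneg _) (by linarith [h.R1])
  unfold eH
  linarith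

/-- **The relation on the record is read.** -/
theorem own_two {p : Ω → ℝ} {C : Dec ε} {e : Ω → ε} {B : Ω → ℤ} {U P : Ω → Fin 3 → ℤ}
    {R D : ℝ} (h : Sam p C e B U P R D) {S : Ω → σ} {z : Ω → ζ} {z' : Ω → ζ'} (hp : IsLaw p)
    (hz' : Det p z' z) (hS : Det p S z)
    (hUP : Det p z' fun ω => (U ω, P ω))
    {sd : Fin N → Bool} {i : Fin 3 → Fin N} (hi : ∀ r, sd (i r) = true)
    {κ : ℝ} (hκ : 0 < κ) {A : ℕ} (hA : 1 ≤ A) (s g : ℕ)
    (hP : ∀ ω, 0 < p ω → ∀ j, |P ω j| ≤ ((A * 2 ^ s : ℕ) : ℤ)) {ηF ηH e₂ : ℝ}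
    (hF : CH p e z ≤ CH p e z' + ηF) (hH : CH p B (fun ω => (e ω, z ω)) ≤ ηH)
    (hfull : 3 * (s * Real.log 2) - e₂ ≤ CH p P (fun ω => (e ω, z ω))) :
    Pb (PL p S z' sd) (fun w => Dt C sd e B i κ w ∧
        ∃ j, 1 / 2 ^ g ≤ |al2 C (e w.1.1) (cps sd e B i w) j|) *
      (((s : ℝ) - g) * Real.log 2 - Real.log (2 * (2 * eH R κ D + 3 * A + 1) + 1)) ≤
      ηH + (e₂ + N * (ηF + ηH)) + Real.log 4 + 3 * Real.log (2 * A + 1) := by
  have hq := PL_isLaw hp S z' sd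
  have h0 := hq.nonneg
  have hD0 : 0 ≤ eH R κ D := by
    unfold eH
    have a1 := eG_nonneg (R := R) hκ h.D0
    have a3 := h.R1
    have a4 := h.D0
    positivity
  obtain ⟨Wc, hWc⟩ : ∃ Wc : (Ω × Ω) × (Fin N → Ω × Ω) → Fin N → ε × ℤ,
    Wc = fun w r => (e (cp sd r w), B (cp sd r w)) := ⟨_, rfl⟩
  have hfull' : (3 : ℕ) * (s * Real.log 2) - (e₂ + N * (ηF + ηH)) ≤
      CH (PL p S z' sd) (fun w => P w.1.1) (fun w => (e w.1.1, (Wc w, z w.1.1))) := by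
    have h1 := pair_budget hp hz' hS sd e B hF hH (fun v => P v.1) (fun v => e v.1)
    have h2 := (PL_fst hp S z' sd).CH P (fun ω => (e ω, z ω))
    rw [hWc]
    push_cast
    linarith
  have hcell : CH (PL p S z' sd) (fun w => cl s
      (al2 C (e w.1.1) (cps sd e B i w))
      ((C.b (e w.1.1) * ∑ l, C.X (e w.1.1) l * C.g0 (cps sd e B i w) l - B w.1.1) / 2 ^ s))
      (fun w => (e w.1.1, (Wc w, z w.1.1))) ≤ ηH := by
    have h1 : CH (PL p S z' sd) (fun w => cl s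
      (al2 C (e w.1.1) (cps sd e B i w))
      ((C.b (e w.1.1) * ∑ l, C.X (e w.1.1) l * C.g0 (cps sd e B i w) l - B w.1.1) / 2 ^ s))
      (fun w => (e w.1.1, (Wc w, z w.1.1))) ≤
      CH (PL p S z' sd) (fun w => B w.1.1) (fun w => (e w.1.1, (Wc w, z w.1.1))) := by
      refine CH_mono_left h0 fun w w' _ _ hh => ?_
      simp only [Prod.mk.injEq] at hh
      obtain ⟨e0, e1, e2, _⟩ := hh
      rw [hWc] at e2
      have e3 : cps sd e B i w = cps sd e B i w' := funext fun r => congrFun e2 (i r)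
      rw [e0, e1, e3]
    have h2 : CH (PL p S z' sd) (fun w => B w.1.1) (fun w => (e w.1.1, (Wc w, z w.1.1))) ≤
        CH (PL p S z' sd) (fun w => B w.1.1) (fun w => (e w.1.1, z w.1.1)) :=
      CH_mono_cond h0 fun w w' _ _ hh => by
        simp only [Prod.mk.injEq] at hh ⊢
        exact ⟨hh.1, hh.2.2⟩
    have h3 := (PL_fst hp S z' sd).CH B (fun ω => (e ω, z ω))
    linarith
  have hrel : ∀ w, 0 < PL p S z' sd w → Dt C sd e B i κ w →
      |∑ j, al2 C (e w.1.1) (cps sd e B i w) j * (P w.1.1 j : ℝ) +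
        2 ^ s * ((C.b (e w.1.1) * ∑ l, C.X (e w.1.1) l * C.g0 (cps sd e B i w) l -
          B w.1.1) / 2 ^ s)| ≤ eH R κ D := by
    intro w hw hd
    have h1 := rel_two h hp hUP hi hw hκ hd
    rwa [mul_div_cancel₀ _ (by positivity : (2 : ℝ) ^ s ≠ 0)]
  have h1 := read_lin hq (fun w => (e w.1.1, (Wc w, z w.1.1))) hA s g
    (fun w => P w.1.1) (fun w => al2 C (e w.1.1) (cps sd e B i w))
    (fun w => (C.b (e w.1.1) * ∑ l, C.X (e w.1.1) l * C.g0 (cps sd e B i w) l - B w.1.1) / 2 ^ s)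
    (fun w => Dt C sd e B i κ w) hD0 (fun w hw j => hP _ (PL_pos hp S z' sd hw).1 j) hfull'
    hcell hrel
  norm_num at h1 ⊢
  linarith

end own

end Pool.D2J
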