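import Pool.Agent.H68.OWN.Jd
import Pool.Agent.H8.OCS.Round
import Pool.Agent.H73.D2.Lag

/-!
# The step: combinations of the gradients at several times

`CH_comb`: the cells of a linear combination with bounded weights, which are functions of the
context, from the cells of the terms.
-/

set_option autoImplicit false

namespace Pool.D2G30

open Finset Real
open Pool.Agent.H49.Ent Pool.Agent.H32.Dense Pool.STK

/-- The cells of a family of numbers. -/
noncomputable def cel {κ : Type} (σ : ℝ) (U : κ → ℝ) : κ → ℤ := fun b => ⌊σ * U b⌋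

section comb

variable {Ω τ ι κ : Type} [Fintype Ω] [Fintype ι] [Fintype κ]

theorem floor_dist {a b D : ℝ} (h : |a - b| ≤ D) : |((⌊a⌋ - ⌊b⌋ : ℤ) : ℝ)| ≤ D + 1 := by
  have h1 := Int.floor_le a
  have h2 := Int.lt_floor_add_one a
  have h3 := Int.floor_le b
  have h4 := Int.lt_floor_add_one b
  rw [abs_le] at h ⊢
  push_cast
  constructor <;> linarith [h.1, h.2]

/-- **The cells of a combination.** -/
theorem CH_comb {q : Ω → ℝ} (hq : IsLaw q) (W : Ω → τ) (U : Ω → ι → κ → ℝ) (μ : Ω → ι → ℝ)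
    {σ M : ℝ} (hM : 0 ≤ M) (hμ : ∀ ω, 0 < q ω → ∀ i, |μ ω i| ≤ M)
    (hW : ∀ ω ω', 0 < q ω → 0 < q ω' → W ω = W ω' → μ ω = μ ω') :
    CH q (fun ω => cel σ fun b => ∑ i, μ ω i * U ω i b) W ≤
      ∑ i, CH q (fun ω => cel σ (U ω i)) W +
        Fintype.card κ * Real.log (2 * (Fintype.card ι * M + 1) + 1) := by
  have h0 := hq.nonneg
  obtain ⟨X, hX⟩ : ∃ X : Ω → ι → κ → ℤ, X = fun ω i => cel σ (U ω i) := ⟨_, rfl⟩
  obtain ⟨G, hG⟩ : ∃ G : Ω → κ → ℤ, G = fun ω => cel σ fun b => ∑ i, μ ω i * U ω i b := ⟨_, rfl⟩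
  have h1 : CH q G W ≤ CH q X W + CH q G (fun ω => (X ω, W ω)) := CH_le_add h0 G X W
  have h2 : CH q X W ≤ ∑ i, CH q (fun ω => cel σ (U ω i)) W := by
    rw [hX]
    exact Pool.OWN68.CH_pis h0 (fun ω i => cel σ (U ω i)) W
  have h3 : CH q G (fun ω => (X ω, W ω)) ≤
      Fintype.card κ * Real.log (2 * (Fintype.card ι * M + 1) + 1) := by
    have h4 := Pool.OWN68.CH_pis h0 G (fun ω => (X ω, W ω))
    refine h4.trans ?_
    have h5 : ∑ b, CH q (fun ω => G ω b) (fun ω => (X ω, W ω)) ≤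
        ∑ _b : κ, Real.log (2 * (Fintype.card ι * M + 1) + 1) := by
      refine Finset.sum_le_sum fun b _ => ?_
      refine Pool.OCSR.Ocs.CH_int hq _ _ ?_
      intro ω ω' hω hω' he
      have he1 : X ω = X ω' := (Prod.ext_iff.1 he).1
      have he2 : W ω = W ω' := (Prod.ext_iff.1 he).2
      have hm := hW ω ω' hω hω' he2
      rw [hG]
      refine floor_dist ?_
      rw [← hm]
      have e : σ * ∑ i, μ ω i * U ω i b - σ * ∑ i, μ ω i * U ω' i b =
          ∑ i, μ ω i * (σ * U ω i b - σ * U ω' i b) := by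
        rw [Finset.mul_sum, Finset.mul_sum, ← Finset.sum_sub_distrib]
        exact Finset.sum_congr rfl fun i _ => by ring
      rw [e]
      refine (Finset.abs_sum_le_sum_abs _ _).trans ?_
      calc ∑ i, |μ ω i * (σ * U ω i b - σ * U ω' i b)| ≤ ∑ _i : ι, M := by
            refine Finset.sum_le_sum fun i _ => ?_
            rw [abs_mul]
            have h6 : |σ * U ω i b - σ * U ω' i b| ≤ 1 := by
              have h7 : ⌊σ * U ω i b⌋ = ⌊σ * U ω' i b⌋ := by
                have h8 := congrFun (congrFun he1 i) b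
                rw [hX] at h8
                exact h8
              exact (Int.abs_sub_lt_one_of_floor_eq_floor h7).le
            calc |μ ω i| * |σ * U ω i b - σ * U ω' i b| ≤ M * 1 :=
                  mul_le_mul (hμ ω hω i) h6 (abs_nonneg _) hM
              _ = M := mul_one M
        _ = Fintype.card ι * M := by
            rw [Finset.sum_const, Finset.card_univ, nsmul_eq_mul]
    rw [Finset.sum_const, Finset.card_univ, nsmul_eq_mul] at h5
    exact h5
  rw [← hG]
  linarith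

end comb

section det

variable {K d : ℕ} {ι : Type} [Fintype ι]

/-- The combination of the polynomials. -/
noncomputable def cmb (P : ι → MvPolynomial (Fin d) ℝ) (μ : ι → ℝ) : MvPolynomial (Fin d) ℝ :=
  ∑ i, MvPolynomial.C (μ i) * P i

theorem eval_cmb (P : ι → MvPolynomial (Fin d) ℝ) (μ : ι → ℝ) (x : Fin d → ℝ) :
    MvPolynomial.eval x (cmb P μ) = ∑ i, μ i * MvPolynomial.eval x (P i) := by
  unfold cmb
  rw [map_sum]
  exact Finset.sum_congr rfl fun i _ => by rw [map_mul, MvPolynomial.eval_C]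

theorem pd_cmb (P : ι → MvPolynomial (Fin d) ℝ) (μ : ι → ℝ) (o : Fin d) :
    MvPolynomial.pderiv o (cmb P μ) = cmb (fun i => MvPolynomial.pderiv o (P i)) μ := by
  unfold cmb
  rw [map_sum]
  exact Finset.sum_congr rfl fun i _ => MvPolynomial.pderiv_C_mul

theorem deg_cmb {P : ι → MvPolynomial (Fin d) ℝ} (h : ∀ i, (P i).totalDegree ≤ K) (μ : ι → ℝ) :
    (cmb P μ).totalDegree ≤ K := by
  unfold cmb
  refine (MvPolynomial.totalDegree_finsetSum _ _).trans (Finset.sup_le fun i _ => ?_)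
  refine (MvPolynomial.totalDegree_mul _ _).trans ?_
  rw [MvPolynomial.totalDegree_C, zero_add]
  exact h i

/-- The constant of `comb_small`. -/
noncomputable def cbC (K d : ℕ) : ℝ := 3 * d * ((K + 1) ^ d * lgC K ^ d) + 1

theorem one_le_cbC (K d : ℕ) : 1 ≤ cbC K d := by
  have := one_le_lgC K
  unfold cbC
  have h : (0 : ℝ) ≤ 3 * d * ((K + 1) ^ d * lgC K ^ d) := by positivity
  linarith

/-- **Values from gradients**, for a combination of polynomials. -/
theorem comb_small (hK : 1 ≤ K) (P : ι → MvPolynomial (Fin d) ℝ)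
    (hP : ∀ i, (P i).totalDegree ≤ K) (μ : ι → ℝ) {ε : ℝ}
    (hg : ∀ (β : Fin d → Fin (K + 1)) (o : Fin d),
      |∑ i, μ i * MvPolynomial.eval (nd K β) (MvPolynomial.pderiv o (P i))| ≤ ε)
    {x₀ : Fin d → ℝ} (k0 : ∀ i, -1 ≤ x₀ i) (k1 : ∀ i, x₀ i ≤ 2)
    (hx : |∑ i, μ i * MvPolynomial.eval x₀ (P i)| ≤ ε)
    {x : Fin d → ℝ} (h0 : ∀ i, -1 ≤ x i) (h1 : ∀ i, x i ≤ 2) :
    |∑ i, μ i * MvPolynomial.eval x (P i)| ≤ cbC K d * ε := by
  have h := grd_small hK (cmb P μ) (deg_cmb hP μ) (ε := ε) (x := x) (x₀ := x₀) (by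
    intro β o
    rw [pd_cmb, eval_cmb]
    exact hg β o) h0 h1 k0 k1 (by rw [eval_cmb]; exact hx)
  rw [eval_cmb] at h
  exact h

theorem nd_unit (hK : 1 ≤ K) (β : Fin d → Fin (K + 1)) (i : Fin d) :
    0 ≤ nd K β i ∧ nd K β i ≤ 1 := by
  have hK0 : (0 : ℝ) < K := by exact_mod_cast hK
  unfold nd
  refine ⟨by positivity, ?_⟩
  rw [div_le_one hK0]
  have := (β i).2
  exact_mod_cast Nat.lt_succ_iff.1 this

end det

end Pool.D2G30
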