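import Pool.Agent.H92.D2.Tub
import Pool.Agent.H95.D2.Nod
import Pool.Agent.H46.MIC.Cpn

/-!
# The combinations of the charts of the balls at several times are small

`tup_small`: `D + 2` samples of one line; the gradients of the charts of the balls at the nodes of the
tube are few bits given the first record, the velocity and the times; the position in the tube is
nearly full. Then the combination of the charts with weights which kill the polynomials of degree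
`≤ D` is small at the nodes of the tube, outside a small event.
-/

set_option autoImplicit false

namespace Pool.V1E

open Finset Real
open Pool.Agent.H49.Ent Pool.Agent.H32.Dense Pool.STK Pool.D2A Pool.D2Con Pool.KAF Pool.KVA
open Pool.BFL (Pb)
open Pool.D2G30 Pool.SLO Pool.D2N
open MvPolynomial (eval pderiv)

/-- Weights. -/
structure Wgt (D B : ℕ) (μ : (Fin (D + 2) → ℝ) → Fin (D + 2) → ℝ) : Prop where
  kill : ∀ u : Fin (D + 2) → ℝ, Function.Injective u → ∀ P : Polynomial ℝ, P.natDegree ≤ D →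
    ∑ i, μ u i * P.eval (u i) = 0
  bd : ∀ (N₀ : ℕ) (t : Fin (D + 2) → ℕ), (∀ i, t i < N₀) → Function.Injective t → ∀ i,
    |μ (fun j => (t j : ℝ) / N₀) i| ≤ (2 * gp N₀ t) ^ B

section ev

variable {Ω : Type} [Fintype Ω]

theorem Pb_nn {q : Ω → ℝ} (h0 : ∀ ω, 0 ≤ q ω) (A : Ω → Prop) : 0 ≤ Pb q A := by
  classical
  unfold Pb
  exact Finset.sum_nonneg fun ω _ => by
    split_ifs
    · exact h0 ω
    · exact le_refl _

theorem Pb_or' {q : Ω → ℝ} (h0 : ∀ ω, 0 ≤ q ω) (A B C : Ω → Prop)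
    (h : ∀ ω, 0 < q ω → A ω → B ω ∨ C ω) : Pb q A ≤ Pb q B + Pb q C := by
  classical
  unfold Pb
  rw [← Finset.sum_add_distrib]
  refine Finset.sum_le_sum fun ω _ => ?_
  rcases (h0 ω).eq_or_lt with hz | hz
  · rw [← hz]
    simp
  · by_cases hA : A ω
    · rw [if_pos hA]
      rcases h ω hz hA with hB | hC
      · rw [if_pos hB]
        have : 0 ≤ (if C ω then q ω else 0) := by
          split_ifs
          · exact hz.le
          · exact le_refl _
        linarith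
      · rw [if_pos hC]
        have : 0 ≤ (if B ω then q ω else 0) := by
          split_ifs
          · exact hz.le
          · exact le_refl _
        linarith
    · rw [if_neg hA]
      refine add_nonneg ?_ ?_
      · split_ifs
        · exact hz.le
        · exact le_refl _
      · split_ifs
        · exact hz.le
        · exact le_refl _

/-- Markov's inequality. -/
theorem mk_ev {q : Ω → ℝ} (h0 : ∀ ω, 0 ≤ q ω) (f : Ω → ℝ) (hf : ∀ ω, 0 < q ω → 0 ≤ f ω) (c : ℝ) :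
    c * Pb q (fun ω => c < f ω) ≤ Ex q f := by
  classical
  unfold Pb Ex
  rw [Finset.mul_sum]
  refine Finset.sum_le_sum fun ω _ => ?_
  rcases (h0 ω).eq_or_lt with hz | hz
  · rw [← hz]
    simp
  · split_ifs with h
    · rw [mul_comm]
      exact mul_le_mul_of_nonneg_left h.le hz.le
    · rw [mul_zero]
      exact mul_nonneg hz.le (hf ω hz)

end ev

section gpe

variable {Ω Λ : Type} [Fintype Ω]

/-- The mean of the logarithm of the inverse distances. -/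
theorem gp_mean {K N₀ : ℕ} (hN : 0 < N₀) {p : Ω → ℝ} (hp : IsLaw p) (L : Ω → Λ) (T : Ω → ℕ)
    (hT : ∀ ω, 0 < p ω → T ω < N₀) {e : ℝ} (he : Real.log N₀ - e ≤ CH p T L) :
    Ex (tup p L K) (fun v => Real.log (gp N₀ (fun j => T (v j)))) ≤
      (K + 1) * (K + 1) * (2 * e + 2 * Real.log 4) := by
  classical
  have h0 := hp.nonneg
  have hTN : ∀ {W : Type} (Z : Ω → W), CH p T Z ≤ Real.log N₀ := by
    intro W Z
    refine (CH_le_card h0 hp.sum_one T Z (fun _ => range N₀) fun ω hω =>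
      Finset.mem_range.mpr (hT ω hω)).trans (le_of_eq ?_)
    rw [Finset.card_range, Ex_const hp.sum_one]
  have he0 : 0 ≤ e := by linarith [hTN L]
  have l4 : 0 ≤ Real.log 4 := Real.log_nonneg (by norm_num)
  obtain ⟨Q, hQ⟩ : ∃ Q : (Fin (K + 1) → Ω) → ℝ, Q = tup p L K := ⟨_, rfl⟩
  rw [← hQ]
  have hQl : IsLaw Q := by
    rw [hQ]
    exact tup_isLaw hp L K
  have hpos : ∀ v, 0 < Q v → (∀ j, 0 < p (v j)) ∧ ∀ j, L (v j) = L (v 0) := fun v hv => by
    rw [hQ] at hv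
    exact (tup_pos_iff h0 L K v).mp hv
  have h7 : Ex Q (fun v => Real.log (gp N₀ (fun j => T (v j)))) =
      ∑ i, ∑ j ∈ univ.erase i, Ex Q (fun v =>
        Real.log ((N₀ : ℝ) / (|(T (v i) : ℝ) - T (v j)| + 1))) := by
    simp only [log_gp hN]
    unfold Ex
    rw [Finset.sum_congr rfl fun v _ => Finset.mul_sum _ _ _, Finset.sum_comm]
    refine Finset.sum_congr rfl fun i _ => ?_
    rw [Finset.sum_congr rfl fun v _ => Finset.mul_sum _ _ _, Finset.sum_comm]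
  rw [h7]
  have h8 : ∀ i j : Fin (K + 1), i ≠ j → Ex Q (fun v =>
      Real.log ((N₀ : ℝ) / (|(T (v i) : ℝ) - T (v j)| + 1))) ≤ 2 * e + 2 * Real.log 4 := by
    intro i j hij
    refine far_log hQl (fun v => T (v i)) (fun v => T (v j)) (fun v hv => hT _ ((hpos v hv).1 i))
      (fun v hv => hT _ ((hpos v hv).1 j)) (he.trans ?_)
    have h9 : Marg Q (glue p p L L) (fun v => (v i, v j)) := by
      rw [hQ]
      exact tup_two h0 L i j hij
    have h10 := h9.CH (fun w => T w.2) (fun w => T w.1)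
    have h11 : CH Q (fun v => T (v j)) (fun v => T (v i)) =
        CH (glue p p L L) (fun w => T w.2) (fun w => T w.1) := h10
    rw [h11]
    have h12 := CH_glue_snd h0 h0 (fun _ => rfl) T (Y := L) (Z₁ := L) (Z₂ := L)
      (fun w : Ω => w) (fun _ _ _ _ h => h)
    rw [← h12]
    exact CH_mono_cond (glue_nonneg h0 h0) fun w w' _ _ h => by
      have := (Prod.ext_iff.mp h).2
      simp only at this
      rw [this]
  have h13 : (0 : ℝ) ≤ 2 * e + 2 * Real.log 4 := by positivity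
  calc _ ≤ ∑ i : Fin (K + 1), ∑ _j ∈ univ.erase i, (2 * e + 2 * Real.log 4) :=
        Finset.sum_le_sum fun i _ => Finset.sum_le_sum fun j hj =>
          h8 i j (Finset.ne_of_mem_erase hj).symm
    _ ≤ ∑ _i : Fin (K + 1), ∑ _j : Fin (K + 1), (2 * e + 2 * Real.log 4) :=
        Finset.sum_le_sum fun i _ => Finset.sum_le_sum_of_subset_of_nonneg
          (Finset.erase_subset _ _) fun _ _ _ => h13
    _ = _ := by
        simp only [Finset.sum_const, Finset.card_univ, Fintype.card_fin, nsmul_eq_mul]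
        push_cast
        ring

/-- **The times are seldom near each other.** -/
theorem gp_event {K N₀ Q : ℕ} (hN : 0 < N₀) {p : Ω → ℝ} (hp : IsLaw p) (L : Ω → Λ) (T : Ω → ℕ)
    (hT : ∀ ω, 0 < p ω → T ω < N₀) {e : ℝ} (he : Real.log N₀ - e ≤ CH p T L) (ε₁ : ℝ) :
    ε₁ * Q * Real.log 2 * Pb (tup p L K) (fun v => 2 ^ (ε₁ * Q) < gp N₀ (fun j => T (v j))) ≤
      (K + 1) * (K + 1) * (2 * e + 2 * Real.log 4) := by
  have h0 := hp.nonneg
  have hQl := tup_isLaw hp L K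
  have hpos : ∀ v, 0 < tup p L K v → (∀ j, 0 < p (v j)) ∧ ∀ j, L (v j) = L (v 0) := fun v hv =>
    (tup_pos_iff h0 L K v).mp hv
  have h1 := mk_ev hQl.nonneg (fun v => Real.log (gp N₀ (fun j => T (v j)))) (fun v hv =>
    Real.log_nonneg (one_gp fun i => hT _ ((hpos v hv).1 i))) (ε₁ * Q * Real.log 2)
  have h2 := gp_mean (K := K) hN hp L T hT he
  have h3 : Pb (tup p L K) (fun v => 2 ^ (ε₁ * Q) < gp N₀ (fun j => T (v j))) =
      Pb (tup p L K) (fun v => ε₁ * Q * Real.log 2 < Real.log (gp N₀ (fun j => T (v j)))) := by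
    rw [← Pb_law, ← Pb_law]
    have h4 : ∀ v, 0 < tup p L K v → (2 ^ (ε₁ * Q) < gp N₀ (fun j => T (v j)) ↔
        ε₁ * Q * Real.log 2 < Real.log (gp N₀ (fun j => T (v j)))) := by
      intro v hv
      have h5 := one_gp (fun i => hT _ ((hpos v hv).1 i))
      rw [Real.lt_log_iff_exp_lt (by linarith), Real.rpow_def_of_pos (by norm_num),
        mul_comm (Real.log 2)]
    exact le_antisymm (law_mono' hQl.nonneg fun v hv hh => (h4 v hv).1 hh)
      (law_mono' hQl.nonneg fun v hv hh => (h4 v hv).2 hh)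
  rw [h3]
  exact h1.trans h2

end gpe

section det

variable {K d : ℕ}

/-- The shifted polynomial. -/
noncomputable def shf (s : Fin d → ℝ) (P : MvPolynomial (Fin d) ℝ) : MvPolynomial (Fin d) ℝ :=
  MvPolynomial.aeval (fun i => MvPolynomial.C (s i) + MvPolynomial.X i :
    Fin d → MvPolynomial (Fin d) ℝ) P

theorem pd_shf (s : Fin d → ℝ) (o : Fin d) (P : MvPolynomial (Fin d) ℝ) :
    pderiv o (shf s P) = shf s (pderiv o P) := by
  classical
  unfold shf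
  induction P using MvPolynomial.induction_on with
  | C r => simp
  | add p q hp hq => rw [map_add, map_add, hp, hq, map_add, map_add]
  | mul_X p i hp =>
    rw [map_mul, MvPolynomial.aeval_X, MvPolynomial.pderiv_mul, hp, MvPolynomial.pderiv_mul]
    simp only [map_add, map_mul, MvPolynomial.aeval_X, MvPolynomial.pderiv_C, zero_add,
      MvPolynomial.pderiv_X]
    by_cases h : i = o
    · subst h
      simp
    · rw [Pi.single_eq_of_ne h]
      simp

theorem eval_shf (s x : Fin d → ℝ) (P : MvPolynomial (Fin d) ℝ) :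
    eval x (shf s P) = eval (fun i => s i + x i) P := eval_comp P s x

/-- The constant of the change of the point. -/
noncomputable def mvC (K d : ℕ) : ℝ := (K + 1) ^ d * (d * K ^ 2 * lgC K ^ (d + 1))

theorem mvC_nonneg (K d : ℕ) : 0 ≤ mvC K d := by
  have := one_le_lgC K
  unfold mvC
  positivity

/-- The change of the value. -/
theorem mv_pt (hK : 1 ≤ K) (P : MvPolynomial (Fin d) ℝ) (hP : P.totalDegree ≤ K) {B δ : ℝ}
    (hB : ∀ β : Fin d → Fin (K + 1), |eval (nd K β) P| ≤ B) {x y : Fin d → ℝ}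
    (h0 : ∀ i, -1 ≤ x i) (h1 : ∀ i, x i ≤ 2) (k0 : ∀ i, -1 ≤ y i) (k1 : ∀ i, y i ≤ 2)
    (hδ : 0 ≤ δ) (h : ∀ i, |x i - y i| ≤ δ) : |eval x P - eval y P| ≤ mvC K d * δ * B := by
  have hB0 : 0 ≤ B := (abs_nonneg _).trans (hB fun _ => 0)
  rw [ell_interp hK P hP x, ell_interp hK P hP y, ← Finset.sum_sub_distrib]
  refine (Finset.abs_sum_le_sum_abs _ _).trans ?_
  calc ∑ β : Fin d → Fin (K + 1), |ell K β x * eval (nd K β) P - ell K β y * eval (nd K β) P|
      ≤ ∑ _β : Fin d → Fin (K + 1), d * K ^ 2 * lgC K ^ (d + 1) * δ * B := by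
        refine Finset.sum_le_sum fun β _ => ?_
        rw [← sub_mul, abs_mul]
        have hC := one_le_lgC K
        exact mul_le_mul (ell_lip β h0 h1 k0 k1 hδ h) (hB β) (abs_nonneg _) (by positivity)
    _ = _ := by
        rw [Finset.sum_const, Finset.card_univ, card_grid, nsmul_eq_mul]
        unfold mvC
        push_cast
        ring

/-- The position from its digits. -/
theorem pt_near {k : ℕ} {x : ℝ} (h0 : 0 ≤ x) : |(⌊2 ^ k * x⌋₊ : ℝ) / 2 ^ k - x| ≤ 1 / 2 ^ k := by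
  have h1 := Nat.floor_le (mul_nonneg (by positivity : (0 : ℝ) ≤ 2 ^ k) h0)
  have h2 := Nat.lt_floor_add_one ((2 : ℝ) ^ k * x)
  have h3 : (⌊2 ^ k * x⌋₊ : ℝ) / 2 ^ k - x = ((⌊2 ^ k * x⌋₊ : ℝ) - 2 ^ k * x) / 2 ^ k := by
    field_simp
  rw [h3, abs_div, abs_of_pos (by positivity : (0 : ℝ) < 2 ^ k)]
  refine div_le_div_of_nonneg_right ?_ (by positivity)
  rw [abs_le]
  constructor <;> linarith

/-- A combination of values near the values of a killed polynomial. -/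
theorem cmb_near {N : ℕ} (m a c : Fin N → ℝ) {M e : ℝ} (hm : ∀ i, |m i| ≤ M)
    (hz : ∑ i, m i * a i = 0) (h : ∀ i, |a i - c i| ≤ e) : |∑ i, m i * c i| ≤ N * (M * e) := by
  have h1 : ∑ i, m i * c i = ∑ i, m i * (c i - a i) := by
    have h2 : ∑ i, m i * (c i - a i) = ∑ i, m i * c i - ∑ i, m i * a i := by
      rw [← Finset.sum_sub_distrib]
      exact Finset.sum_congr rfl fun i _ => by ring
    rw [h2, hz, sub_zero]
  rw [h1]
  refine (Finset.abs_sum_le_sum_abs _ _).trans ?_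
  calc ∑ i, |m i * (c i - a i)| ≤ ∑ _i : Fin N, M * e := by
        refine Finset.sum_le_sum fun i _ => ?_
        rw [abs_mul, abs_sub_comm]
        exact mul_le_mul (hm i) (h i) (abs_nonneg _) ((abs_nonneg _).trans (hm i))
    _ = _ := by
        rw [Finset.sum_const, Finset.card_univ, Fintype.card_fin, nsmul_eq_mul]

end det

section main

open Classical in
/-- The weights, truncated. -/
noncomputable def muT {Ω : Type} {D : ℕ} (μ : (Fin (D + 2) → ℝ) → Fin (D + 2) → ℝ) (N₀ : ℕ) (G : ℝ)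
    (T : Ω → ℕ) (v : Fin (D + 2) → Ω) (i : Fin (D + 2)) : ℝ :=
  if gp N₀ (fun j => T (v j)) ≤ G then μ (fun j => uu N₀ T (v j)) i else 0

/-- One application of the step. -/
theorem tup_one {K d D CM B : ℕ} {μ : (Fin (D + 2) → ℝ) → Fin (D + 2) → ℝ} (hμ : Wgt D B μ)
    {Q MB k N₀ M' g : ℕ} {δ : ℝ} {Ω Λ ζ α ε κ : Type} [Fintype Ω] {q : Ω → ℝ}
    {L : Ω → Λ} {T : Ω → ℕ} {Z : Ω → ζ} {a : Ω → α} {E : Ω → ε} {X : ε → Fin (d + 1) → ℝ}
    {Pf : ζ → MvPolynomial (Fin d) ℝ} {Pg : ζ → Fin (d + 1) → MvPolynomial (Fin d) ℝ}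
    {c : Λ → κ} {s : Ω → Fin d → ℝ} {ξ : Λ → Fin d → ℝ} {n : Λ → Polynomial ℝ}
    {Θ : Λ → Fin d → Polynomial ℝ}
    (h : TL K d D CM Q MB k N₀ δ q L T Z a E X Pf Pg c s ξ n Θ) (hQM : Q ≤ M') (hMB : M' ≤ MB)
    (hg : g ≤ k) (hg0 : 0 ≤ g * Real.log 2 - Real.log (d * K)) {e e₁ G M lam A : ℝ} (hG1 : 1 ≤ G) (hGN : G < N₀) (hM : (2 * G) ^ B ≤ M)
    (hlam : lam = (D + 2) * (M * ((1 + mvC K d) * 2 ^ (δ * Q))))
    (hA : (lam + (K + 1) ^ d * lgC K ^ d) * (2 * 2 ^ ((K * g + K + 1) * d)) + 1 ≤ A)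
    (hc : ∀ i : Fin (D + 2), CH (tup q L (D + 1)) (fun v => cel (2 ^ (M' - Q))
      (fun b : Gr K d × Fin d => eval (fun i' => s (v i) i' + nd K b.1 i')
        (Pg (Z (v i)) b.2.succ))) (fun v => (Z (v 0), (E (v 0), fun j => T (v j)))) ≤ e₁)
    (hf : d * (k * Real.log 2) - e ≤ CH (tup q L (D + 1)) (fun v => xd k L ξ (v 0))
      (fun v => (Z (v 0), (E (v 0), fun j => T (v j))))) :
    Pb (tup q L (D + 1)) (fun v => ((∀ i, |(n (L (v i))).eval (uu N₀ T (v i)) -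
        eval (fun i' => s (v i) i' + ξ (L (v i)) i') (Pf (Z (v i)))| ≤ 2 ^ (δ * Q) / 2 ^ MB) ∧
      (∀ i, ∀ o : Fin d, |(Θ (L (v i)) o).eval (uu N₀ T (v i)) -
        eval (fun i' => s (v i) i' + ξ (L (v i)) i') (Pg (Z (v i)) o.succ)| ≤
          2 ^ (δ * Q) / 2 ^ (MB - Q)) ∧ gp N₀ (fun j => T (v j)) ≤ G) ∧
      ∃ β : Gr K d, cbC K d * A / 2 ^ M' <
        |∑ i, μ (fun j => uu N₀ T (v j)) i * vt K Z Pf s (v i) β|) *
      (g * Real.log 2 - Real.log (d * K)) ≤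
      d * (e + ((D + 2) * e₁ + (K + 1) ^ d * d * Real.log (2 * ((D + 2) * M + 1) + 1)) +
        Real.log 2) := by
  classical
  have h0 := h.law.nonneg
  have hQl := tup_isLaw h.law L (D + 1)
  have hpos : ∀ v : Fin (D + 2) → Ω, 0 < tup q L (D + 1) v →
      (∀ j : Fin (D + 2), 0 < q (v j)) ∧ ∀ j : Fin (D + 2), L (v j) = L (v 0) :=
    fun v hv => (tup_pos_iff h0 L (D + 1) v).mp hv
  obtain ⟨W, hW⟩ : ∃ W : (Fin (D + 2) → Ω) → ζ × ε × (Fin (D + 2) → ℕ), W = fun v =>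
    (Z (v 0), (E (v 0), fun j => T (v j))) := ⟨_, rfl⟩
  obtain ⟨P, hP⟩ : ∃ P : (Fin (D + 2) → Ω) → Fin (D + 2) → MvPolynomial (Fin d) ℝ, P = fun v i =>
    MvPolynomial.C (2 ^ Q) * shf (s (v i)) (Pf (Z (v i))) := ⟨_, rfl⟩
  have hM0 : 0 ≤ M := le_trans (by positivity) hM
  have hev : ∀ v i x, eval x (P v i) = 2 ^ Q * eval (fun i' => s (v i) i' + x i') (Pf (Z (v i))) := by
    intro v i x
    rw [hP]
    dsimp only
    rw [map_mul, MvPolynomial.eval_C, eval_shf]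
  have hpd : ∀ v : Fin (D + 2) → Ω, 0 < tup q L (D + 1) v → ∀ (i : Fin (D + 2)) (o : Fin d) x, eval x (pderiv o (P v i)) =
      eval (fun i' => s (v i) i' + x i') (Pg (Z (v i)) o.succ) := by
    intro v hv i o x
    rw [h.grd _ ((hpos v hv).1 i) o, hP]
    dsimp only
    rw [MvPolynomial.pderiv_C_mul, map_mul, map_mul, MvPolynomial.eval_C, MvPolynomial.eval_C,
      pd_shf, eval_shf]
  have hμt : ∀ v : Fin (D + 2) → Ω, 0 < tup q L (D + 1) v → ∀ i : Fin (D + 2), |muT μ N₀ G T v i| ≤ M := by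
    intro v hv i
    unfold muT
    split_ifs with hc1
    · have ht : ∀ j, T (v j) < N₀ := fun j => h.Tlt _ ((hpos v hv).1 j)
      have hinj : Function.Injective (fun j => T (v j)) := by
        intro x y hxy
        by_contra hne
        have h1 := fac_le ht hne
        simp only at hxy
        rw [hxy, sub_self, abs_zero, zero_add, div_one] at h1
        linarith
      refine (hμ.bd N₀ _ ht hinj i).trans (le_trans ?_ hM)
      have h2 := one_gp ht
      exact pow_le_pow_left₀ (by linarith) (by linarith) B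
    · simpa using hM0
  have hcard : (Fintype.card (Fin (D + 2)) : ℝ) = D + 2 := by
    rw [Fintype.card_fin]
    push_cast
    ring
  have hN0 : (0 : ℝ) < N₀ := by linarith
  have hinj : ∀ v : Fin (D + 2) → Ω, 0 < tup q L (D + 1) v → gp N₀ (fun j => T (v j)) ≤ G →
      Function.Injective (fun j => uu N₀ T (v j)) := by
    intro v hv hc1 x y hxy
    have ht : ∀ j, T (v j) < N₀ := fun j => h.Tlt _ ((hpos v hv).1 j)
    by_contra hne
    have h1 := fac_le ht hne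
    unfold uu at hxy
    simp only at hxy
    have h2 : (T (v x) : ℝ) = T (v y) := by
      field_simp at hxy
      exact hxy
    rw [h2, sub_self, abs_zero, zero_add, div_one] at h1
    linarith
  have hkill : ∀ v : Fin (D + 2) → Ω, 0 < tup q L (D + 1) v → gp N₀ (fun j => T (v j)) ≤ G →
      ∀ R : Polynomial ℝ, R.natDegree ≤ D → ∑ i, muT μ N₀ G T v i * R.eval (uu N₀ T (v i)) = 0 := by
    intro v hv hc1 R hR
    have h1 := hμ.kill _ (hinj v hv hc1) R hR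
    refine (Finset.sum_congr rfl fun i _ => ?_).trans h1
    unfold muT
    rw [if_pos hc1]
  have hp2 : (0 : ℝ) < 2 ^ (δ * (Q : ℝ)) := Real.rpow_pos_of_pos (by norm_num) _
  have hmv := mvC_nonneg K d
  -- the change of the point
  have hmove : ∀ v : Fin (D + 2) → Ω, 0 < tup q L (D + 1) v → ∀ (i : Fin (D + 2))
      (F : MvPolynomial (Fin d) ℝ), F.totalDegree ≤ K →
      (∀ β : Gr K d, |eval (nd K β) F| ≤ 2 ^ (δ * (Q : ℝ))) →
      |eval (fun i' => s (v i) i' + ξ (L (v i)) i') F -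
        eval (fun i' => s (v i) i' + pt k (xd k L ξ (v 0)) i') F| ≤
          mvC K d * 2 ^ (δ * (Q : ℝ)) / 2 ^ MB := by
    intro v hv i F hF hB
    have hs := h.s1 _ ((hpos v hv).1 i)
    have hpt : ∀ i' : Fin d, 0 ≤ pt k (xd k L ξ (v 0)) i' ∧ pt k (xd k L ξ (v 0)) i' ≤ 1 := by
      intro i'
      refine pt_mem (fun j => ?_) i'
      unfold xd
      have h1 := h.ξ0 (L (v 0)) j
      have h2 := h.ξ1 (L (v 0)) j
      rw [Nat.floor_lt (by positivity)]
      push_cast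
      have : (0 : ℝ) < 2 ^ k := by positivity
      nlinarith
    have h1 := mv_pt h.hK F hF (B := 2 ^ (δ * (Q : ℝ))) (δ := 1 / 2 ^ k) hB
      (x := fun i' => s (v i) i' + ξ (L (v i)) i')
      (y := fun i' => s (v i) i' + pt k (xd k L ξ (v 0)) i')
      (fun i' => by
        have h2 := abs_le.1 (hs i')
        have h3 := h.ξ0 (L (v i)) i'
        linarith [h2.1])
      (fun i' => by
        have h2 := abs_le.1 (hs i')
        have h3 := h.ξ1 (L (v i)) i'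
        linarith [h2.2])
      (fun i' => by
        have h2 := abs_le.1 (hs i')
        linarith [h2.1, (hpt i').1])
      (fun i' => by
        have h2 := abs_le.1 (hs i')
        linarith [h2.2, (hpt i').2]) (by positivity)
      (fun i' => by
        rw [(hpos v hv).2 i]
        have h2 := pt_near (k := k) (h.ξ0 (L (v 0)) i')
        have h3 : s (v i) i' + ξ (L (v 0)) i' - (s (v i) i' + pt k (xd k L ξ (v 0)) i') =
            -((⌊2 ^ k * ξ (L (v 0)) i'⌋₊ : ℝ) / 2 ^ k - ξ (L (v 0)) i') := by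
          unfold Pool.D2G30.pt xd
          ring
        rw [h3, abs_neg]
        exact h2)
    refine h1.trans ?_
    have h4 : (1 : ℝ) / 2 ^ k ≤ 1 / 2 ^ MB :=
      one_div_le_one_div_of_le (by positivity) (pow_le_pow_right₀ (by norm_num) h.hk)
    calc mvC K d * (1 / 2 ^ k) * 2 ^ (δ * (Q : ℝ)) ≤ mvC K d * (1 / 2 ^ MB) * 2 ^ (δ * (Q : ℝ)) := by
          gcongr
      _ = _ := by ring
  have key := step_law (τ := ζ × ε × (Fin (D + 2) → ℕ)) (ι := Fin (D + 2)) h.hK h.hd hg hQl W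
    (fun v => xd k L ξ (v 0)) (fun v hv i => by
      unfold xd
      have h1 := h.ξ0 (L (v 0)) i
      have h2 := h.ξ1 (L (v 0)) i
      rw [Nat.floor_lt (by positivity)]
      push_cast
      have : (0 : ℝ) < 2 ^ k := by positivity
      nlinarith) P
    (fun v i => by
      rw [hP]
      refine (MvPolynomial.totalDegree_mul _ _).trans ?_
      rw [MvPolynomial.totalDegree_C, zero_add]
      exact (tdeg_comp _ _).trans (h.dgf _))
    (muT μ N₀ G T) (σ := 2 ^ (M' - Q)) (lam := lam) (A := A) (e := e) (fun _ => e₁) hM0 hμt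
    (fun v v' _ _ hww => by
      have h1 : (fun j => T (v j)) = (fun j => T (v' j)) := by
        rw [hW] at hww
        exact (Prod.ext_iff.mp (Prod.ext_iff.mp hww).2).2
      funext i
      unfold muT uu
      have h2 : ∀ j, T (v j) = T (v' j) := fun j => congrFun h1 j
      simp only [h2])
    (by rw [hW]; exact hf)
    (fun i => by
      rw [hW]
      refine le_trans (CH_mono_left hQl.nonneg fun v v' hv hv' hh => ?_) (hc i)
      have h1 := (Prod.ext_iff.mp hh).1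
      dsimp only at h1
      funext b
      have h2 := congrFun h1 b
      unfold cel at h2 ⊢
      unfold grn
      rw [hpd v hv, hpd v' hv']
      exact h2)
    (fun v => (∀ i, |(n (L (v i))).eval (uu N₀ T (v i)) -
        eval (fun i' => s (v i) i' + ξ (L (v i)) i') (Pf (Z (v i)))| ≤ 2 ^ (δ * Q) / 2 ^ MB) ∧
      (∀ i, ∀ o : Fin d, |(Θ (L (v i)) o).eval (uu N₀ T (v i)) -
        eval (fun i' => s (v i) i' + ξ (L (v i)) i') (Pg (Z (v i)) o.succ)| ≤
          2 ^ (δ * Q) / 2 ^ (MB - Q)) ∧ gp N₀ (fun j => T (v j)) ≤ G)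
    (fun v hv hE o => by
      obtain ⟨-, hE2, hE3⟩ := hE
      have h1 := cmb_near (muT μ N₀ G T v) (fun i => (Θ (L (v 0)) o).eval (uu N₀ T (v i)))
        (fun i => eval (pt k (xd k L ξ (v 0))) (pderiv o (P v i)))
        (M := M) (e := (1 + mvC K d) * 2 ^ (δ * (Q : ℝ)) / 2 ^ (MB - Q)) (hμt v hv)
        (hkill v hv hE3 _ (h.dgΘ _ _)) (fun i => by
          rw [hpd v hv]
          have h2 := hE2 i o
          have h3 := hmove v hv i (Pg (Z (v i)) o.succ) (h.dgg _ _)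
            (fun β => h.bdg _ ((hpos v hv).1 i) β o.succ)
          rw [(hpos v hv).2 i] at h2
          rw [(hpos v hv).2 i] at h3
          have h4 : mvC K d * 2 ^ (δ * (Q : ℝ)) / 2 ^ MB ≤
              mvC K d * 2 ^ (δ * (Q : ℝ)) / 2 ^ (MB - Q) :=
            div_le_div_of_nonneg_left (by positivity) (by positivity)
              (pow_le_pow_right₀ (by norm_num) (by omega))
          calc _ ≤ _ := abs_sub_le _ (eval (fun i' => s (v i) i' + ξ (L (v 0)) i')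
                (Pg (Z (v i)) o.succ)) _
            _ ≤ 2 ^ (δ * (Q : ℝ)) / 2 ^ (MB - Q) +
                mvC K d * 2 ^ (δ * (Q : ℝ)) / 2 ^ (MB - Q) := add_le_add h2 (h3.trans h4)
            _ = _ := by ring)
      have h5 : (2 : ℝ) ^ (M' - Q) ≤ 2 ^ (MB - Q) :=
        pow_le_pow_right₀ (by norm_num) (by omega)
      calc (2 : ℝ) ^ (M' - Q) * |_| ≤ 2 ^ (M' - Q) * (((D + 2 : ℕ) : ℝ) *
            (M * ((1 + mvC K d) * 2 ^ (δ * (Q : ℝ)) / 2 ^ (MB - Q)))) :=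
            mul_le_mul_of_nonneg_left h1 (by positivity)
        _ = (2 ^ (M' - Q) / 2 ^ (MB - Q)) * (((D + 2 : ℕ) : ℝ) *
            (M * ((1 + mvC K d) * 2 ^ (δ * (Q : ℝ))))) := by ring
        _ ≤ 1 * (((D + 2 : ℕ) : ℝ) * (M * ((1 + mvC K d) * 2 ^ (δ * (Q : ℝ))))) := by
            refine mul_le_mul_of_nonneg_right ?_ (by positivity)
            exact (div_le_one (by positivity)).2 h5
        _ = lam := by
            rw [hlam]
            push_cast
            ring)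
    (fun v hv hE => by
      obtain ⟨hE1, -, hE3⟩ := hE
      have h1 := cmb_near (muT μ N₀ G T v) (fun i => (n (L (v 0))).eval (uu N₀ T (v i)))
        (fun i => eval (fun i' => s (v i) i' + pt k (xd k L ξ (v 0)) i') (Pf (Z (v i))))
        (M := M) (e := (1 + mvC K d) * 2 ^ (δ * (Q : ℝ)) / 2 ^ MB) (hμt v hv)
        (hkill v hv hE3 _ (h.dgn _)) (fun i => by
          have h2 := hE1 i
          have h3 := hmove v hv i (Pf (Z (v i))) (h.dgf _) (h.bdf _ ((hpos v hv).1 i))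
          rw [(hpos v hv).2 i] at h2
          rw [(hpos v hv).2 i] at h3
          calc _ ≤ _ := abs_sub_le _ (eval (fun i' => s (v i) i' + ξ (L (v 0)) i')
                (Pf (Z (v i)))) _
            _ ≤ 2 ^ (δ * (Q : ℝ)) / 2 ^ MB + mvC K d * 2 ^ (δ * (Q : ℝ)) / 2 ^ MB :=
                add_le_add h2 h3
            _ = _ := by ring)
      have h5 : (2 : ℝ) ^ M' ≤ 2 ^ MB := pow_le_pow_right₀ (by norm_num) hMB
      have h6 : ∑ i, muT μ N₀ G T v i * eval (pt k (xd k L ξ (v 0))) (P v i) =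
          2 ^ Q * ∑ i, muT μ N₀ G T v i *
            eval (fun i' => s (v i) i' + pt k (xd k L ξ (v 0)) i') (Pf (Z (v i))) := by
        rw [Finset.mul_sum]
        refine Finset.sum_congr rfl fun i _ => ?_
        rw [hev]
        ring
      rw [h6, abs_mul, abs_of_pos (by positivity : (0 : ℝ) < 2 ^ Q), ← mul_assoc, ← pow_add,
        Nat.sub_add_cancel hQM]
      calc (2 : ℝ) ^ M' * |_| ≤ 2 ^ M' * (((D + 2 : ℕ) : ℝ) *
            (M * ((1 + mvC K d) * 2 ^ (δ * (Q : ℝ)) / 2 ^ MB))) :=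
            mul_le_mul_of_nonneg_left h1 (by positivity)
        _ = (2 ^ M' / 2 ^ MB) * (((D + 2 : ℕ) : ℝ) *
            (M * ((1 + mvC K d) * 2 ^ (δ * (Q : ℝ))))) := by ring
        _ ≤ 1 * (((D + 2 : ℕ) : ℝ) * (M * ((1 + mvC K d) * 2 ^ (δ * (Q : ℝ))))) := by
            refine mul_le_mul_of_nonneg_right ?_ (by positivity)
            exact (div_le_one (by positivity)).2 h5
        _ = lam := by
            rw [hlam]
            push_cast
            ring) (by positivity) hA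
  have hle : ∀ v, 0 < tup q L (D + 1) v → (((∀ i, |(n (L (v i))).eval (uu N₀ T (v i)) -
        eval (fun i' => s (v i) i' + ξ (L (v i)) i') (Pf (Z (v i)))| ≤ 2 ^ (δ * Q) / 2 ^ MB) ∧
      (∀ i, ∀ o : Fin d, |(Θ (L (v i)) o).eval (uu N₀ T (v i)) -
        eval (fun i' => s (v i) i' + ξ (L (v i)) i') (Pg (Z (v i)) o.succ)| ≤
          2 ^ (δ * Q) / 2 ^ (MB - Q)) ∧ gp N₀ (fun j => T (v j)) ≤ G) ∧
      ∃ β : Gr K d, cbC K d * A / 2 ^ M' <
        |∑ i, μ (fun j => uu N₀ T (v j)) i * vt K Z Pf s (v i) β|) →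
      (((∀ i, |(n (L (v i))).eval (uu N₀ T (v i)) -
        eval (fun i' => s (v i) i' + ξ (L (v i)) i') (Pf (Z (v i)))| ≤ 2 ^ (δ * Q) / 2 ^ MB) ∧
      (∀ i, ∀ o : Fin d, |(Θ (L (v i)) o).eval (uu N₀ T (v i)) -
        eval (fun i' => s (v i) i' + ξ (L (v i)) i') (Pg (Z (v i)) o.succ)| ≤
          2 ^ (δ * Q) / 2 ^ (MB - Q)) ∧ gp N₀ (fun j => T (v j)) ≤ G) ∧
      ∃ x : Fin d → ℝ, (∀ i, -1 ≤ x i ∧ x i ≤ 2) ∧
        cbC K d * A < 2 ^ (M' - Q) * |∑ i, muT μ N₀ G T v i * eval x (P v i)|) := by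
    intro v hv hh
    obtain ⟨hE, β, hβ⟩ := hh
    refine ⟨hE, nd K β, fun i => ?_, ?_⟩
    · have h1 := nd_nonneg β i
      have h2 := nd_le_one β i
      constructor <;> linarith
    · have h6 : ∑ i, muT μ N₀ G T v i * eval (nd K β) (P v i) =
          2 ^ Q * ∑ i, μ (fun j => uu N₀ T (v j)) i * vt K Z Pf s (v i) β := by
        rw [Finset.mul_sum]
        refine Finset.sum_congr rfl fun i _ => ?_
        rw [hev]
        unfold muT vt
        rw [if_pos hE.2.2]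
        ring
      rw [h6, abs_mul, abs_of_pos (by positivity : (0 : ℝ) < 2 ^ Q), ← mul_assoc, ← pow_add,
        Nat.sub_add_cancel hQM]
      rw [div_lt_iff₀ (by positivity)] at hβ
      linarith
  rw [Finset.sum_const, Finset.card_univ, Fintype.card_fin, nsmul_eq_mul] at key
  push_cast at key
  refine le_trans (mul_le_mul_of_nonneg_right (Pb_imp hQl.nonneg hle) hg0) key

theorem Pb_le1 {Ω : Type} [Fintype Ω] {q : Ω → ℝ} (hq : IsLaw q) (A : Ω → Prop) : Pb q A ≤ 1 := by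
  classical
  rw [← hq.sum_one]
  unfold Pb
  refine Finset.sum_le_sum fun ω _ => ?_
  split_ifs
  · exact le_refl _
  · exact hq.nonneg ω

/-- The numbers of the step. -/
theorem tup_num (K d D B : ℕ) (hK : 1 ≤ K) (hd : 1 ≤ d) {ε : ℝ} (hε : 0 < ε) (hε1 : ε ≤ 1) :
    ∃ δ ε₁ ρ η : ℝ, 0 < δ ∧ 0 < ε₁ ∧ 0 < ρ ∧ 0 < η ∧ η ≤ 1 ∧ ε₁ < 1 ∧ ∃ Q₀ : ℕ, 1 ≤ Q₀ ∧
      ∀ Q : ℕ, Q₀ ≤ Q → ∀ g : ℕ, g = ⌊η * Q⌋₊ →
        (2 * (2 : ℝ) ^ (ε₁ * Q)) ^ B ≤ 2 ^ (ρ * Q) ∧
        η * Q * Real.log 2 / 2 ≤ g * Real.log 2 - Real.log (d * K) ∧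
        d * (δ * Q + ((D + 2) * (δ * Q) + (K + 1) ^ d * d *
          Real.log (2 * ((D + 2) * 2 ^ (ρ * Q) + 1) + 1)) + Real.log 2) ≤
            ε / 4 * (η * Q * Real.log 2 / 2) ∧
        2 * ((D + 2) * δ) ≤ ε / 4 ∧
        ((D + 1 : ℕ) + 1) * ((D + 1 : ℕ) + 1) * (2 * (δ * Q) + 2 * Real.log 4) ≤
          ε / 4 * (ε₁ * Q * Real.log 2) ∧
        cbC K d * ((((D + 2) * (2 ^ (ρ * Q) * ((1 + mvC K d) * 2 ^ (δ * Q)))) +
          (K + 1) ^ d * lgC K ^ d) * (2 * 2 ^ ((K * g + K + 1) * d)) + 1) ≤ (2 : ℝ) ^ (ε * Q) := by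
  obtain ⟨L, hL⟩ : ∃ L : ℝ, L = Real.log 2 := ⟨_, rfl⟩
  have hL1 : 1 / 2 ≤ L := by
    rw [hL]
    linarith [Real.log_two_gt_d9]
  have hL2 : L ≤ 1 := by
    rw [hL]
    linarith [Real.log_two_lt_d9]
  have hK' : (1 : ℝ) ≤ K := by exact_mod_cast hK
  have hd' : (1 : ℝ) ≤ d := by exact_mod_cast hd
  have hD' : (0 : ℝ) ≤ D := Nat.cast_nonneg _
  have hB' : (0 : ℝ) ≤ B := Nat.cast_nonneg _
  obtain ⟨η, hη⟩ : ∃ η : ℝ, η = ε / (8 * (K * d)) := ⟨_, rfl⟩
  have hKd : (1 : ℝ) ≤ K * d := by nlinarith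
  have hη0 : 0 < η := by
    rw [hη]
    positivity
  have hη1 : η ≤ 1 / 8 := by
    rw [hη, div_le_iff₀ (by positivity)]
    linarith
  obtain ⟨C4, hC4⟩ : ∃ C4 : ℝ, C4 = (K + 1) ^ d * d := ⟨_, rfl⟩
  have hC41 : 1 ≤ C4 := by
    rw [hC4]
    have : (1 : ℝ) ≤ (K + 1) ^ d := one_le_pow₀ (by linarith)
    nlinarith
  obtain ⟨ρ, hρ⟩ : ∃ ρ : ℝ, ρ = ε * η / (32 * (d * C4)) := ⟨_, rfl⟩
  have hdC : (1 : ℝ) ≤ d * C4 := by nlinarith
  have hρ0 : 0 < ρ := by
    rw [hρ]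
    positivity
  have hρ1 : ρ ≤ ε / 8 := by
    rw [hρ, div_le_iff₀ (by positivity)]
    nlinarith
  obtain ⟨ε₁, hε₁⟩ : ∃ ε₁ : ℝ, ε₁ = ρ / (2 * (B + 1)) := ⟨_, rfl⟩
  have hε₁0 : 0 < ε₁ := by
    rw [hε₁]
    positivity
  have hε₁1 : ε₁ ≤ 1 / 8 := by
    rw [hε₁, div_le_iff₀ (by positivity)]
    nlinarith
  obtain ⟨δ, hδ⟩ : ∃ δ : ℝ, δ = ε * η * ε₁ / (64 * ((D + 3) ^ 2 * d)) := ⟨_, rfl⟩
  have hDd : (1 : ℝ) ≤ (D + 3) ^ 2 * d := by
    have h3 : (1 : ℝ) ≤ (D + 3) ^ 2 := one_le_pow₀ (by linarith)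
    exact one_le_mul_of_one_le_of_one_le h3 hd'
  have hδ0 : 0 < δ := by
    rw [hδ]
    positivity
  have hδm : δ * ((D + 3) ^ 2 * d) * 64 = ε * η * ε₁ := by
    rw [hδ]
    field_simp
  have hδ1 : δ ≤ ε / 8 := by
    have h2 : η * ε₁ ≤ 1 * 1 := mul_le_mul (by linarith) (by linarith) hε₁0.le zero_le_one
    have h1 : ε * (η * ε₁) ≤ ε * (1 * 1) := mul_le_mul_of_nonneg_left h2 hε.le
    have h3 : δ * 1 ≤ δ * ((D + 3) ^ 2 * d) := mul_le_mul_of_nonneg_left hDd hδ0.le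
    linarith
  -- the constants of the large numbers
  obtain ⟨C3, hC3⟩ : ∃ C3 : ℝ, C3 = cbC K d * (((D + 2) * (1 + mvC K d) +
    (K + 1) ^ d * lgC K ^ d) * (2 * 2 ^ ((K + 1) * d)) + 1) := ⟨_, rfl⟩
  have hmv := mvC_nonneg K d
  have hlg := one_le_lgC K
  have hcb := one_le_cbC K d
  obtain ⟨C2, hC2⟩ : ∃ C2 : ℝ, C2 = (K + 1) ^ d * lgC K ^ d := ⟨_, rfl⟩
  have hC20 : 0 ≤ C2 := by
    rw [hC2]
    positivity
  have hC31 : 1 ≤ C3 := by
    rw [hC3, ← hC2]
    have h1 : 0 ≤ ((D + 2) * (1 + mvC K d) + C2) * (2 * 2 ^ ((K + 1) * d)) := by positivity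
    exact one_le_mul_of_one_le_of_one_le hcb (by linarith)
  obtain ⟨Q₀, hQ₀⟩ : ∃ Q₀ : ℕ, 1 ≤ Q₀ ∧ 1 / ε₁ ≤ Q₀ ∧
      2 * (L + Real.log (d * K)) / (η * L) ≤ Q₀ ∧
      16 * (d * (C4 * Real.log (2 * (D : ℝ) + 7) + L)) / (ε * η * L) ≤ Q₀ ∧
      64 * (D + 2) ^ 2 / (ε * ε₁) ≤ Q₀ ∧ 2 * Real.log C3 / (ε * L) ≤ Q₀ := by
    obtain ⟨m, hm⟩ := exists_nat_ge (1 + |1 / ε₁| + |2 * (L + Real.log (d * K)) / (η * L)| +
      |16 * (d * (C4 * Real.log (2 * (D : ℝ) + 7) + L)) / (ε * η * L)| +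
      |64 * (D + 2) ^ 2 / (ε * ε₁)| + |2 * Real.log C3 / (ε * L)|)
    have a1 := abs_nonneg (1 / ε₁)
    have a2 := abs_nonneg (2 * (L + Real.log (d * K)) / (η * L))
    have a3 := abs_nonneg (16 * (d * (C4 * Real.log (2 * (D : ℝ) + 7) + L)) / (ε * η * L))
    have a4 := abs_nonneg (64 * (D + 2) ^ 2 / (ε * ε₁))
    have a5 := abs_nonneg (2 * Real.log C3 / (ε * L))
    have b1 := le_abs_self (1 / ε₁)
    have b2 := le_abs_self (2 * (L + Real.log (d * K)) / (η * L))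
    have b3 := le_abs_self (16 * (d * (C4 * Real.log (2 * (D : ℝ) + 7) + L)) / (ε * η * L))
    have b4 := le_abs_self (64 * (D + 2) ^ 2 / (ε * ε₁))
    have b5 := le_abs_self (2 * Real.log C3 / (ε * L))
    refine ⟨m, ?_, by linarith, by linarith, by linarith, by linarith, by linarith⟩
    have : (1 : ℝ) ≤ m := by linarith
    exact_mod_cast this
  obtain ⟨q1, q2, q3, q4, q5, q6⟩ := hQ₀
  have hL0 : 0 < L := by linarith
  refine ⟨δ, ε₁, ρ, η, hδ0, hε₁0, hρ0, hη0, by linarith, by linarith, Q₀, q1, ?_⟩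
  intro Q hQ g hg
  have hQc : (Q₀ : ℝ) ≤ Q := by exact_mod_cast hQ
  have hQ1 : (1 : ℝ) ≤ Q := by exact_mod_cast q1.trans hQ
  have hQp : (0 : ℝ) < Q := by linarith
  have r2 : 1 ≤ ε₁ * Q := by
    have h1 := q2.trans hQc
    rw [div_le_iff₀ hε₁0] at h1
    linarith
  have r3 : 2 * (L + Real.log (d * K)) ≤ η * Q * L := by
    have h1 := q3.trans hQc
    rw [div_le_iff₀ (by positivity)] at h1
    linarith
  have r4 : 16 * (d * (C4 * Real.log (2 * (D : ℝ) + 7) + L)) ≤ ε * η * Q * L := by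
    have h1 := q4.trans hQc
    rw [div_le_iff₀ (by positivity)] at h1
    linarith
  have r5 : 64 * ((D : ℝ) + 2) ^ 2 ≤ ε * (ε₁ * Q) := by
    have h1 := q5.trans hQc
    rw [div_le_iff₀ (by positivity)] at h1
    linarith
  have r6 : 2 * Real.log C3 ≤ ε * Q * L := by
    have h1 := q6.trans hQc
    rw [div_le_iff₀ (by positivity)] at h1
    linarith
  have hgη : (g : ℝ) ≤ η * Q := by
    rw [hg]
    exact Nat.floor_le (by positivity)
  have hgη2 : η * Q - 1 ≤ g := by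
    have h1 := Nat.lt_floor_add_one (η * (Q : ℝ))
    rw [← hg] at h1
    linarith
  have hP : ∀ x : ℝ, 0 ≤ x → (1 : ℝ) ≤ 2 ^ x := fun x hx => Real.one_le_rpow (by norm_num) hx
  refine ⟨?_, ?_, ?_, ?_, ?_, ?_⟩
  · -- the size of the weights
    have h1 : (2 * (2 : ℝ) ^ (ε₁ * Q)) ^ B = 2 ^ (B * (1 + ε₁ * Q)) := by
      rw [mul_pow, ← Real.rpow_natCast (2 ^ (ε₁ * (Q : ℝ))), ← Real.rpow_mul (by norm_num),
        ← Real.rpow_natCast 2 B, ← Real.rpow_add (by norm_num)]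
      congr 1
      ring
    rw [h1]
    refine Real.rpow_le_rpow_of_exponent_le (by norm_num) ?_
    have h2 : ρ = 2 * (B + 1) * ε₁ := by
      rw [hε₁]
      field_simp
    rw [h2]
    have h3 : (B : ℝ) * 1 ≤ B * (ε₁ * Q) := mul_le_mul_of_nonneg_left r2 hB'
    have h4 : 0 < ε₁ * Q := by positivity
    linarith
  · rw [← hL]
    have h1 := mul_le_mul_of_nonneg_right hgη2 hL0.le
    linarith
  · -- the entropy
    rw [← hL, ← hC4]
    have h1 : Real.log (2 * ((D + 2) * 2 ^ (ρ * (Q : ℝ)) + 1) + 1) ≤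
        Real.log (2 * (D : ℝ) + 7) + ρ * Q * L := by
      have h2 := hP (ρ * Q) (by positivity)
      have h3 : 2 * ((D + 2) * 2 ^ (ρ * (Q : ℝ)) + 1) + 1 ≤
          (2 * (D : ℝ) + 7) * 2 ^ (ρ * (Q : ℝ)) := by linarith
      refine (Real.log_le_log (by positivity) h3).trans (le_of_eq ?_)
      rw [Real.log_mul (by positivity) (by positivity), Real.log_rpow (by norm_num), hL]
    have h4 : d * (C4 * (ρ * Q * L)) = ε * η * Q * L / 32 := by
      rw [hρ]
      field_simp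
    have h5 : d * ((D + 3) * (δ * Q)) ≤ ε * η * Q * L / 32 := by
      have h6 : d * ((D + 3) * δ) * 64 ≤ δ * ((D + 3) ^ 2 * d) * 64 := by
        have h7 : (D : ℝ) + 3 ≤ (D + 3) ^ 2 := by nlinarith only [hD']
        have h8 : d * ((D + 3) * δ) ≤ d * ((D + 3) ^ 2 * δ) := by
          refine mul_le_mul_of_nonneg_left (mul_le_mul_of_nonneg_right h7 hδ0.le) (by linarith)
        linarith
      rw [hδm] at h6
      have h9 : ε * η * ε₁ ≤ ε * η * 1 :=
        mul_le_mul_of_nonneg_left (by linarith) (by positivity)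
      have h10 : d * ((D + 3) * δ) ≤ ε * η / 64 := by linarith
      have h11 : d * ((D + 3) * δ) * Q ≤ ε * η / 64 * Q :=
        mul_le_mul_of_nonneg_right h10 hQp.le
      have h12 : ε * η * Q * (1 / 2) ≤ ε * η * Q * L :=
        mul_le_mul_of_nonneg_left hL1 (by positivity)
      linarith
    have h6 : d * (C4 * Real.log (2 * ((D + 2) * 2 ^ (ρ * (Q : ℝ)) + 1) + 1)) ≤
        d * (C4 * (Real.log (2 * (D : ℝ) + 7) + ρ * Q * L)) :=
      mul_le_mul_of_nonneg_left (mul_le_mul_of_nonneg_left h1 (by linarith)) (by linarith)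
    linarith
  · have h1 : (D + 2) * δ * 64 ≤ δ * ((D + 3) ^ 2 * d) * 64 := by
      have h2 : (D : ℝ) + 2 ≤ (D + 3) ^ 2 * d := by
        have h3 : (D : ℝ) + 2 ≤ (D + 3) ^ 2 := by nlinarith only [hD']
        have h4 : ((D : ℝ) + 3) ^ 2 * 1 ≤ (D + 3) ^ 2 * d :=
          mul_le_mul_of_nonneg_left hd' (by positivity)
        linarith
      have h5 := mul_le_mul_of_nonneg_right h2 hδ0.le
      linarith
    rw [hδm] at h1
    have h20 : η * ε₁ ≤ 1 * 1 := mul_le_mul (by linarith) (by linarith) hε₁0.le zero_le_one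
    have h2 : ε * (η * ε₁) ≤ ε * (1 * 1) := mul_le_mul_of_nonneg_left h20 hε.le
    linarith
  · -- the times
    have h4 : Real.log 4 = 2 * L := by
      rw [hL, show (4 : ℝ) = 2 ^ 2 by norm_num, Real.log_pow]
      push_cast
      ring
    rw [h4, ← hL]
    push_cast
    have h1 : (D + 2) ^ 2 * δ * 64 ≤ δ * ((D + 3) ^ 2 * d) * 64 := by
      have h2 : ((D : ℝ) + 2) ^ 2 ≤ (D + 3) ^ 2 * d := by
        have h3 : ((D : ℝ) + 2) ^ 2 ≤ (D + 3) ^ 2 := by nlinarith only [hD']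
        have h4 : ((D : ℝ) + 3) ^ 2 * 1 ≤ (D + 3) ^ 2 * d :=
          mul_le_mul_of_nonneg_left hd' (by positivity)
        linarith
      have h5 := mul_le_mul_of_nonneg_right h2 hδ0.le
      linarith
    rw [hδm] at h1
    have h2 : ε * η * ε₁ ≤ ε * ε₁ * (1 / 8) := by
      have : 0 ≤ ε * ε₁ := by positivity
      have h20 := mul_le_mul_of_nonneg_left hη1 this
      linarith
    have h3 : (D + 2) ^ 2 * δ * Q ≤ ε * ε₁ * Q / 512 := by
      have : ((D : ℝ) + 2) ^ 2 * δ ≤ ε * ε₁ / 512 := by linarith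
      have h5 := mul_le_mul_of_nonneg_right this hQp.le
      linarith
    have h5 : ε * (ε₁ * Q) * (1 / 2) ≤ ε * (ε₁ * Q) * L :=
      mul_le_mul_of_nonneg_left hL1 (by positivity)
    have h6 : ((D : ℝ) + 2) ^ 2 * L * 64 ≤ ε * (ε₁ * Q) * L := by
      have := mul_le_mul_of_nonneg_right r5 hL0.le
      linarith
    have h7 : ((D : ℝ) + 1 + 1) * (D + 1 + 1) * (2 * (δ * Q) + 2 * (2 * L)) =
        2 * ((D + 2) ^ 2 * δ * Q) + 4 * ((D + 2) ^ 2 * L) := by ring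
    have h8 : ε / 4 * (ε₁ * Q * L) = ε * (ε₁ * Q) * L / 4 := by ring
    have h9 : ε * ε₁ * Q = ε * (ε₁ * Q) := by ring
    rw [h7, h8]
    rw [h9] at h3
    have h10 : 0 ≤ ε * (ε₁ * Q) * L := by positivity
    linarith
  · -- the size
    rw [← hC2]
    have e1 : (2 : ℝ) ^ ((K * g + K + 1) * d) = 2 ^ ((K : ℝ) * g * d) * 2 ^ ((K + 1) * d) := by
      rw [show (K * g + K + 1) * d = K * g * d + (K + 1) * d by ring, pow_add]
      congr 1
      rw [← Real.rpow_natCast]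
      push_cast
      rfl
    rw [e1]
    obtain ⟨Y, hY⟩ : ∃ Y : ℝ, Y = 2 ^ ((K : ℝ) * g * d) := ⟨_, rfl⟩
    have hY1 : 1 ≤ Y := by
      rw [hY]
      exact hP _ (by positivity)
    obtain ⟨U, hU⟩ : ∃ U : ℝ, U = 2 ^ (ρ * (Q : ℝ)) * 2 ^ (δ * (Q : ℝ)) := ⟨_, rfl⟩
    have hU1 : 1 ≤ U := by
      rw [hU]
      exact one_le_mul_of_one_le_of_one_le (hP (ρ * Q) (by positivity)) (hP (δ * Q) (by positivity))
    rw [← hY, show (D + 2) * ((2 : ℝ) ^ (ρ * (Q : ℝ)) * ((1 + mvC K d) * 2 ^ (δ * (Q : ℝ)))) =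
      (D + 2) * (1 + mvC K d) * U by rw [hU]; ring]
    have hUY : 1 ≤ U * Y := one_le_mul_of_one_le_of_one_le hU1 hY1
    have h1 : cbC K d * (((D + 2) * (1 + mvC K d) * U + C2) * (2 * (Y * 2 ^ ((K + 1) * d))) + 1) ≤
        C3 * (U * Y) := by
      rw [hC3, ← hC2]
      have h2 : (D + 2) * (1 + mvC K d) * U + C2 ≤ ((D + 2) * (1 + mvC K d) + C2) * U := by
        have := mul_le_mul_of_nonneg_left hU1 hC20
        linarith
      have h20 : ((D + 2) * (1 + mvC K d) * U + C2) * (2 * (Y * 2 ^ ((K + 1) * d))) + 1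
          ≤ ((D + 2) * (1 + mvC K d) + C2) * U * (2 * (Y * 2 ^ ((K + 1) * d))) + U * Y :=
        add_le_add (mul_le_mul_of_nonneg_right h2 (by positivity)) hUY
      refine (mul_le_mul_of_nonneg_left h20 (zero_le_one.trans hcb)).trans (le_of_eq ?_)
      ring
    refine h1.trans ?_
    have h3 : C3 ≤ 2 ^ (ε / 2 * (Q : ℝ)) := by
      rw [← Real.log_le_log_iff (by linarith) (by positivity), Real.log_rpow (by norm_num), ← hL]
      linarith
    have h4 : U * Y ≤ 2 ^ (ε / 2 * (Q : ℝ)) := by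
      rw [hU, hY, ← Real.rpow_add (by norm_num), ← Real.rpow_add (by norm_num)]
      refine Real.rpow_le_rpow_of_exponent_le (by norm_num) ?_
      have h5 : (K : ℝ) * g * d ≤ K * (η * Q) * d := by gcongr
      have h6 : K * (η * Q) * d = ε / 8 * Q := by
        rw [hη]
        field_simp
      have h7 := mul_le_mul_of_nonneg_right hρ1 hQp.le
      have h8 := mul_le_mul_of_nonneg_right hδ1 hQp.le
      have h9 : 0 ≤ ε * Q := by positivity
      linarith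
    calc C3 * (U * Y) ≤ 2 ^ (ε / 2 * (Q : ℝ)) * 2 ^ (ε / 2 * (Q : ℝ)) :=
          mul_le_mul h3 h4 (by positivity) (by positivity)
      _ = 2 ^ (ε * (Q : ℝ)) := by
          rw [← Real.rpow_add (by norm_num)]
          congr 1
          ring

/-- **The combinations of the charts of the balls are small.** -/
theorem tup_small (K d D CM B : ℕ) {μ : (Fin (D + 2) → ℝ) → Fin (D + 2) → ℝ} (hμ : Wgt D B μ)
    {ε : ℝ} (hε : 0 < ε) : ∃ δ : ℝ, 0 < δ ∧ ∃ Q₀ : ℕ, ∀ {Q MB k N₀ M' : ℕ}, Q₀ ≤ Q → Q ≤ M' →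
      M' ≤ MB → ∀ {Ω Λ ζ α ε' κ : Type} [Fintype Ω] {q : Ω → ℝ} {L : Ω → Λ} {T : Ω → ℕ}
      {Z : Ω → ζ} {a : Ω → α} {E : Ω → ε'} {X : ε' → Fin (d + 1) → ℝ}
      {Pf : ζ → MvPolynomial (Fin d) ℝ} {Pg : ζ → Fin (d + 1) → MvPolynomial (Fin d) ℝ}
      {c : Λ → κ} {s : Ω → Fin d → ℝ} {ξ : Λ → Fin d → ℝ} {n : Λ → Polynomial ℝ}
      {Θ : Λ → Fin d → Polynomial ℝ},
      TL K d D CM Q MB k N₀ δ q L T Z a E X Pf Pg c s ξ n Θ →
      (∀ i : Fin (D + 2), CH (tup q L (D + 1)) (fun v => cel (2 ^ (M' - Q))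
        (fun b : Gr K d × Fin d => eval (fun i' => s (v i) i' + nd K b.1 i')
          (Pg (Z (v i)) b.2.succ))) (fun v => (Z (v 0), (E (v 0), fun j => T (v j)))) ≤ δ * Q) →
      d * (k * Real.log 2) - δ * Q ≤ CH (tup q L (D + 1)) (fun v => xd k L ξ (v 0))
        (fun v => (Z (v 0), (E (v 0), fun j => T (v j)))) →
      Pb (tup q L (D + 1)) (fun v => ∃ β : Gr K d, 2 ^ (ε * Q) / 2 ^ M' <
        |∑ i, μ (fun j => uu N₀ T (v j)) i * vt K Z Pf s (v i) β|) ≤ ε := by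
  classical
  by_cases hKd : 1 ≤ K ∧ 1 ≤ d
  swap
  · refine ⟨1, one_pos, 0, ?_⟩
    intro Q MB k N₀ M' _ _ _ Ω Λ ζ α ε' κ _ q L T Z a E X Pf Pg c s ξ n Θ h
    exact absurd ⟨h.hK, h.hd⟩ hKd
  obtain ⟨hK, hd⟩ := hKd
  by_cases hε1 : ε ≤ 1
  swap
  · refine ⟨1, one_pos, 0, ?_⟩
    intro Q MB k N₀ M' _ _ _ Ω Λ ζ α ε' κ _ q L T Z a E X Pf Pg c s ξ n Θ h _ _
    exact (Pb_le1 (tup_isLaw h.law L (D + 1)) _).trans (not_le.1 hε1).le
  obtain ⟨δ, ε₁, ρ, η, hδ, hε₁, hρ, hη, hη1, hε₁1, Q₀, hQ₀, hnum⟩ := tup_num K d D B hK hd hε hε1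
  refine ⟨δ, hδ, Q₀, ?_⟩
  intro Q MB k N₀ M' hQ hQM hMB Ω Λ ζ α ε' κ _ q L T Z a E X Pf Pg c s ξ n Θ h hc hf
  obtain ⟨n1, n2, n3, n4, n5, n6⟩ := hnum Q hQ _ rfl
  obtain ⟨g, hg⟩ : ∃ g : ℕ, g = ⌊η * Q⌋₊ := ⟨_, rfl⟩
  rw [← hg] at n2 n6
  obtain ⟨A, hA⟩ : ∃ A : ℝ, A = ((((D + 2) * (2 ^ (ρ * Q) * ((1 + mvC K d) * 2 ^ (δ * Q)))) +
    (K + 1) ^ d * lgC K ^ d) * (2 * 2 ^ ((K * g + K + 1) * d)) + 1) := ⟨_, rfl⟩
  rw [← hA] at n6
  have hQ1 : (1 : ℝ) ≤ Q := by exact_mod_cast hQ₀.trans hQ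
  have hL : 0 < Real.log 2 := Real.log_pos (by norm_num)
  have h0 := h.law.nonneg
  have hQl := tup_isLaw h.law L (D + 1)
  have hgk : g ≤ k := by
    have h1 : (g : ℝ) ≤ η * Q := by
      rw [hg]
      exact Nat.floor_le (by positivity)
    have h2 : (g : ℝ) ≤ Q := by nlinarith
    have h3 : g ≤ Q := by exact_mod_cast h2
    have h4 := h.hQ
    have h5 := h.hk
    omega
  have hG1 : (1 : ℝ) ≤ 2 ^ (ε₁ * Q) := Real.one_le_rpow (by norm_num) (by positivity)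
  have hN2 : (2 : ℝ) ^ (Q : ℝ) ≤ N₀ := by
    rw [Real.rpow_natCast]
    exact_mod_cast h.hN
  have hGN : (2 : ℝ) ^ (ε₁ * Q) < N₀ :=
    lt_of_lt_of_le (Real.rpow_lt_rpow_of_exponent_lt (by norm_num) (by nlinarith)) hN2
  have hN0 : 0 < N₀ := by
    have : (0 : ℝ) < N₀ := by linarith
    exact_mod_cast this
  have hη2 : 0 < η * Q * Real.log 2 / 2 := by positivity
  have key := tup_one hμ h hQM hMB hgk (hη2.le.trans n2) (e := δ * Q) (e₁ := δ * Q)
    (G := 2 ^ (ε₁ * Q)) (M := 2 ^ (ρ * Q)) (lam := _) (A := A) hG1 hGN n1 rfl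
    (le_of_eq hA.symm) hc hf
  -- the main event
  obtain ⟨S, hS⟩ : ∃ S : (Fin (D + 2) → Ω) → Prop, S = fun v =>
    ((∀ i, |(n (L (v i))).eval (uu N₀ T (v i)) -
        eval (fun i' => s (v i) i' + ξ (L (v i)) i') (Pf (Z (v i)))| ≤ 2 ^ (δ * Q) / 2 ^ MB) ∧
      (∀ i, ∀ o : Fin d, |(Θ (L (v i)) o).eval (uu N₀ T (v i)) -
        eval (fun i' => s (v i) i' + ξ (L (v i)) i') (Pg (Z (v i)) o.succ)| ≤
          2 ^ (δ * Q) / 2 ^ (MB - Q)) ∧ gp N₀ (fun j => T (v j)) ≤ 2 ^ (ε₁ * Q)) ∧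
      ∃ β : Gr K d, cbC K d * A / 2 ^ M' <
        |∑ i, μ (fun j => uu N₀ T (v j)) i * vt K Z Pf s (v i) β| := ⟨_, rfl⟩
  have hS1 : Pb (tup q L (D + 1)) S ≤ ε / 4 := by
    have h1 : Pb (tup q L (D + 1)) S * (η * Q * Real.log 2 / 2) ≤
        ε / 4 * (η * Q * Real.log 2 / 2) := by
      refine (mul_le_mul_of_nonneg_left n2 (Pb_nn hQl.nonneg S)).trans ?_
      rw [hS]
      exact key.trans n3
    exact le_of_mul_le_mul_right h1 hη2
  -- the values
  obtain ⟨V1, hV1⟩ : ∃ V1 : (Fin (D + 2) → Ω) → Prop, V1 = fun v => ∃ i,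
    2 ^ (δ * Q) / 2 ^ MB < |(n (L (v i))).eval (uu N₀ T (v i)) -
      eval (fun i' => s (v i) i' + ξ (L (v i)) i') (Pf (Z (v i)))| := ⟨_, rfl⟩
  have hV1b : Pb (tup q L (D + 1)) V1 ≤ (D + 2) * δ := by
    have h1 := Pb_union hQl.nonneg (fun (i : Fin (D + 2)) (v : Fin (D + 2) → Ω) =>
      2 ^ (δ * Q) / 2 ^ MB < |(n (L (v i))).eval (uu N₀ T (v i)) -
        eval (fun i' => s (v i) i' + ξ (L (v i)) i') (Pf (Z (v i)))|) V1
      (fun v _ hh => by
        rw [hV1] at hh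
        exact hh)
    refine h1.trans ?_
    have h2 : ∀ i ∈ (univ : Finset (Fin (D + 2))), Pb (tup q L (D + 1))
        (fun v => 2 ^ (δ * Q) / 2 ^ MB < |(n (L (v i))).eval (uu N₀ T (v i)) -
          eval (fun i' => s (v i) i' + ξ (L (v i)) i') (Pf (Z (v i)))|) ≤ δ := by
      intro i _
      exact (Pool.MIC.Marg.Pb_eq (tup_marg h0 L (D + 1) i) (fun ω => 2 ^ (δ * Q) / 2 ^ MB <
        |(n (L ω)).eval (uu N₀ T ω) - eval (fun i' => s ω i' + ξ (L ω) i') (Pf (Z ω))|)).le.trans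
          h.val
    refine (Finset.sum_le_sum h2).trans (le_of_eq ?_)
    rw [Finset.sum_const, Finset.card_univ, Fintype.card_fin, nsmul_eq_mul]
    push_cast
    ring
  -- the gradients
  obtain ⟨V2, hV2⟩ : ∃ V2 : (Fin (D + 2) → Ω) → Prop, V2 = fun v => ∃ i, ∃ o : Fin d,
    2 ^ (δ * Q) / 2 ^ (MB - Q) < |(Θ (L (v i)) o).eval (uu N₀ T (v i)) -
      eval (fun i' => s (v i) i' + ξ (L (v i)) i') (Pg (Z (v i)) o.succ)| := ⟨_, rfl⟩
  have hV2b : Pb (tup q L (D + 1)) V2 ≤ (D + 2) * δ := by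
    have h1 := Pb_union hQl.nonneg (fun (i : Fin (D + 2)) (v : Fin (D + 2) → Ω) => ∃ o : Fin d,
      2 ^ (δ * Q) / 2 ^ (MB - Q) < |(Θ (L (v i)) o).eval (uu N₀ T (v i)) -
        eval (fun i' => s (v i) i' + ξ (L (v i)) i') (Pg (Z (v i)) o.succ)|) V2
      (fun v _ hh => by
        rw [hV2] at hh
        exact hh)
    refine h1.trans ?_
    have h2 : ∀ i ∈ (univ : Finset (Fin (D + 2))), Pb (tup q L (D + 1))
        (fun v => ∃ o : Fin d, 2 ^ (δ * Q) / 2 ^ (MB - Q) <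
          |(Θ (L (v i)) o).eval (uu N₀ T (v i)) -
            eval (fun i' => s (v i) i' + ξ (L (v i)) i') (Pg (Z (v i)) o.succ)|) ≤ δ := by
      intro i _
      exact (Pool.MIC.Marg.Pb_eq (tup_marg h0 L (D + 1) i) (fun ω => ∃ o : Fin d, 2 ^ (δ * Q) / 2 ^ (MB - Q) <
        |(Θ (L ω) o).eval (uu N₀ T ω) -
          eval (fun i' => s ω i' + ξ (L ω) i') (Pg (Z ω) o.succ)|)).le.trans h.cl
    refine (Finset.sum_le_sum h2).trans (le_of_eq ?_)
    rw [Finset.sum_const, Finset.card_univ, Fintype.card_fin, nsmul_eq_mul]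
    push_cast
    ring
  -- the times
  have hgp := gp_event (K := D + 1) (Q := Q) hN0 h.law L T h.Tlt h.Tfull ε₁
  have hgp2 : Pb (tup q L (D + 1)) (fun v => 2 ^ (ε₁ * Q) < gp N₀ (fun j => T (v j))) ≤ ε / 4 := by
    have h1 : 0 < ε₁ * Q * Real.log 2 := by positivity
    have h2 := hgp.trans n5
    rw [mul_comm] at h2
    exact le_of_mul_le_mul_right h2 h1
  -- the union
  have hu1 := Pb_or' hQl.nonneg (fun v => ∃ β : Gr K d, 2 ^ (ε * Q) / 2 ^ M' <
        |∑ i, μ (fun j => uu N₀ T (v j)) i * vt K Z Pf s (v i) β|) S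
    (fun v => V1 v ∨ V2 v ∨ 2 ^ (ε₁ * Q) < gp N₀ (fun j => T (v j))) (fun v _ hh => by
      by_cases h1 : V1 v
      · exact Or.inr (Or.inl h1)
      by_cases h2 : V2 v
      · exact Or.inr (Or.inr (Or.inl h2))
      by_cases h3 : 2 ^ (ε₁ * Q) < gp N₀ (fun j => T (v j))
      · exact Or.inr (Or.inr (Or.inr h3))
      rw [hV1] at h1
      rw [hV2] at h2
      push Not at h1 h2 h3
      rw [hS]
      obtain ⟨β, hβ⟩ := hh
      refine Or.inl ⟨⟨h1, h2, h3⟩, β, lt_of_le_of_lt ?_ hβ⟩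
      exact div_le_div_of_nonneg_right n6 (by positivity))
  have hu2 := Pb_or' hQl.nonneg (fun v => V1 v ∨ V2 v ∨ 2 ^ (ε₁ * Q) < gp N₀ (fun j => T (v j)))
    V1 (fun v => V2 v ∨ 2 ^ (ε₁ * Q) < gp N₀ (fun j => T (v j))) (fun v _ hh => hh)
  have hu3 := Pb_or' hQl.nonneg (fun v => V2 v ∨ 2 ^ (ε₁ * Q) < gp N₀ (fun j => T (v j)))
    V2 (fun v => 2 ^ (ε₁ * Q) < gp N₀ (fun j => T (v j))) (fun v _ hh => hh)
  linarith

end main

end Pool.V1E
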