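import Pool.Agent.H73.D2.Tlh
import Pool.Agent.H73.D2.Tsm
import Pool.Agent.H2.GEN.Swp
import Pool.Agent.H23.D2.Num

/-!
# Boxes over a frame

`pos_near`: the position in the ball from the position in the tube. `frm_box`: from the natural boxes
of the charts of a ball to the boxes over a frame. `hp_box`, `nrm_vec`: the box in the coordinates of
the heights. `tub_bd`: bounds for the chart of the ball and its gradient at the points of the box.
-/

set_option autoImplicit false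

namespace Pool.V1E

open Finset Real MvPolynomial
open Pool.KA Pool.KSAT Pool.PB Pool.GEN Pool.D2R Pool.D2G30 Pool.ISO Pool.CHT Pool.CHX
open Pool.PB.Trl (rt rt_mem t_rt)

/-- **The position in the ball from the position in the tube.** -/
theorem pos_near {Q qe : ℕ} {y0 yu v0 u ε : ℝ} (hu : u ∈ Set.Icc (0 : ℝ) 1)
    (h : |yu - y0 - u * v0| ≤ ε) {sr : ℝ}
    (hs : sr = max (-1) (min 1 ((⌊2 ^ Q * y0⌋ : ℤ) + 2 ^ Q * (u * ((⌊2 ^ qe * v0⌋ : ℤ) / 2 ^ qe)) -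
      (⌊2 ^ Q * yu⌋ : ℤ)))) :
    |sr| ≤ 1 ∧ |sr + Int.fract (2 ^ Q * y0) - Int.fract (2 ^ Q * yu)| ≤
      2 * (2 ^ Q * (ε + 1 / 2 ^ qe)) := by
  have hQ : (0 : ℝ) < 2 ^ Q := by positivity
  have hqe : (0 : ℝ) < 2 ^ qe := by positivity
  obtain ⟨η, hη⟩ : ∃ η : ℝ, η = 2 ^ Q * (ε + 1 / 2 ^ qe) := ⟨_, rfl⟩
  rw [← hη]
  obtain ⟨x, hx⟩ : ∃ x : ℝ, x = (⌊2 ^ Q * y0⌋ : ℤ) + 2 ^ Q * (u * ((⌊2 ^ qe * v0⌋ : ℤ) / 2 ^ qe)) -
      (⌊2 ^ Q * yu⌋ : ℤ) := ⟨_, rfl⟩
  rw [← hx] at hs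
  have hv : |((⌊2 ^ qe * v0⌋ : ℤ) : ℝ) / 2 ^ qe - v0| ≤ 1 / 2 ^ qe := by
    have h1 := Int.floor_le ((2 : ℝ) ^ qe * v0)
    have h2 := Int.lt_floor_add_one ((2 : ℝ) ^ qe * v0)
    have e1 : ((⌊2 ^ qe * v0⌋ : ℤ) : ℝ) / 2 ^ qe - v0 =
        (((⌊2 ^ qe * v0⌋ : ℤ) : ℝ) - 2 ^ qe * v0) / 2 ^ qe := by
      field_simp
    rw [e1, abs_div, abs_of_pos hqe]
    refine div_le_div_of_nonneg_right ?_ hqe.le
    rw [abs_le]
    constructor <;> linarith
  have f0 := Int.floor_add_fract ((2 : ℝ) ^ Q * y0)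
  have fu := Int.floor_add_fract ((2 : ℝ) ^ Q * yu)
  have k1 : |x + Int.fract (2 ^ Q * y0) - Int.fract (2 ^ Q * yu)| ≤ η := by
    have e1 : x + Int.fract (2 ^ Q * y0) - Int.fract (2 ^ Q * yu) =
        2 ^ Q * (u * (((⌊2 ^ qe * v0⌋ : ℤ) : ℝ) / 2 ^ qe - v0) - (yu - y0 - u * v0)) := by
      rw [hx]
      linear_combination f0 - fu
    rw [e1, abs_mul, abs_of_pos hQ, hη]
    refine mul_le_mul_of_nonneg_left ?_ hQ.le
    refine (abs_sub _ _).trans ?_
    rw [abs_mul, abs_of_nonneg hu.1]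
    have : u * |((⌊2 ^ qe * v0⌋ : ℤ) : ℝ) / 2 ^ qe - v0| ≤ 1 * (1 / 2 ^ qe) :=
      mul_le_mul hu.2 hv (abs_nonneg _) zero_le_one
    linarith
  have g0 := Int.fract_nonneg ((2 : ℝ) ^ Q * y0)
  have g1 := (Int.fract_lt_one ((2 : ℝ) ^ Q * y0)).le
  have g2 := Int.fract_nonneg ((2 : ℝ) ^ Q * yu)
  have g3 := (Int.fract_lt_one ((2 : ℝ) ^ Q * yu)).le
  have hη0 : 0 ≤ η := (abs_nonneg _).trans k1
  rw [abs_le] at k1
  have s1 : sr ≤ 1 := by
    rw [hs]
    exact max_le (by norm_num) (min_le_left _ _)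
  have s2 : -1 ≤ sr := by
    rw [hs]
    exact le_max_left _ _
  refine ⟨abs_le.2 ⟨s2, s1⟩, ?_⟩
  have k2 : |sr - x| ≤ η := by
    rw [hs]
    rcases le_total x 1 with hx1 | hx1
    · rw [min_eq_right hx1]
      rcases le_total (-1) x with hx2 | hx2
      · rw [max_eq_right hx2, sub_self, abs_zero]
        exact hη0
      · rw [max_eq_left hx2, abs_le]
        constructor <;> linarith
    · rw [min_eq_left hx1, max_eq_right (by norm_num), abs_le]
      constructor <;> linarith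
  rw [abs_le] at k2 ⊢
  constructor <;> linarith [k1.1, k1.2, k2.1, k2.2]

/-- **From the boxes of the charts of a ball to the boxes over a frame.** -/
theorem frm_box (D r : ℕ) : ∃ C : ℕ, ∀ {m : ℕ} {c : ℕ → Fin m} {a p q : ℕ} {t M : ℝ}
    {Gb ψ : ℕ → MvPolynomial (Option (Fin m)) ℝ} {gb g' : ℕ → ℕ}
    {R : MvPolynomial (Option (Fin m)) ℝ}, Set.InjOn c (Set.Iio r) →
    (∀ l, (Gb l).totalDegree ≤ D) → (∀ l, DepC c l (Gb l)) → (∀ l, (ψ l).totalDegree ≤ D) →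
    (∀ l, DepC c l (ψ l)) → DepC c r R → R.totalDegree ≤ D → 0 ≤ M →
    (∀ l < r, gb l ≤ g' l + q) → (∀ l < r, g' l ≤ gb l + q) →
    (∀ l < r, ∀ b, NBx c Gb gb a t l b → |eval b (ψ l) - eval b (Gb l)| ≤ 2 ^ p / 2 ^ gb l) →
    (∀ b, NBx c Gb gb a t r b → |eval b R| ≤ M) → ∀ b, NBx c ψ g' a t r b →
      |eval b R| ≤ 2 ^ (C * (p + q + 1)) * M := by
  obtain ⟨C₅, hbs⟩ := box_swap D (r + 1)
  obtain ⟨C₆, hls⟩ := lab_swap D (r + 1)
  refine ⟨C₆ * (2 * C₅ + 1), ?_⟩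
  intro m c a p q t M Gb ψ gb g' R hc hG hGd hψ hψd hR hRd hM h1 h2 h3 h4
  have h5 := hbs (p := p + 1 + q) (q := q) (a := a) (t := t) (g := gb) (g' := g')
    (Nat.lt_succ_self r) hc hG hGd hψ hψd h1 (fun b hb j hj => by
      have e1 := hb.2 j hj
      have e2 := h3 j hj b (hb.mono le_rfl hj.le)
      have e3 : b (some (c j)) - eval b (ψ j) = (b (some (c j)) - eval b (Gb j)) -
          (eval b (ψ j) - eval b (Gb j)) := by ring
      rw [e3]
      refine (abs_sub _ _).trans ((add_le_add e1 e2).trans ?_)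
      rw [← add_div, div_le_div_iff₀ (by positivity) (by positivity)]
      have h6 : (2 : ℝ) ^ g' j ≤ 2 ^ (gb j + q) := pow_le_pow_right₀ (by norm_num) (h2 j hj)
      have h7 : (1 : ℝ) ≤ 2 ^ p := one_le_pow₀ (by norm_num)
      calc (1 + 2 ^ p) * (2 : ℝ) ^ g' j ≤ (2 ^ p + 2 ^ p) * 2 ^ (gb j + q) :=
            mul_le_mul (by linarith) h6 (by positivity) (by positivity)
        _ = 2 ^ (p + 1 + q) * 2 ^ gb j := by
            rw [pow_add, pow_add, pow_add]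
            ring)
  intro b hb
  refine (hls (p := C₅ * (p + 1 + q + q + 1)) (Nat.lt_succ_self r) hc hG hGd hR hRd hM h5 h4 b
    hb).trans ?_
  refine mul_le_mul_of_nonneg_right (pow_le_pow_right₀ (by norm_num) ?_) hM
  have h8 : C₅ * (p + 1 + q + q + 1) ≤ 2 * C₅ * (p + q + 1) := by nlinarith
  calc C₆ * (C₅ * (p + 1 + q + q + 1) + 1) ≤ C₆ * (2 * C₅ * (p + q + 1) + 1 * (p + q + 1)) :=
        Nat.mul_le_mul_left _ (by omega)
    _ = _ := by ring

section hp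

variable {m d : ℕ} {c : ℕ → Fin m} {s : ℕ → ℕ} {P : ℕ → MvPolynomial (Option (Fin m)) ℝ}

/-- The shifted frame. -/
noncomputable def sfr (P : ℕ → MvPolynomial (Option (Fin m)) ℝ) (κ : ℕ → ℝ) :
    ℕ → MvPolynomial (Option (Fin m)) ℝ := fun l => P l + C (κ l)

theorem eval_sfr (κ : ℕ → ℝ) (b : Option (Fin m) → ℝ) (l : ℕ) :
    eval b (sfr P κ l) = eval b (P l) + κ l := by
  unfold sfr
  rw [map_add, eval_C]

theorem dd_sfr (κ : ℕ → ℝ) (b V : Option (Fin m) → ℝ) (l : ℕ) :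
    dd (sfr P κ l) b V = dd (P l) b V := by
  unfold dd sfr
  refine Finset.sum_congr rfl fun o _ => ?_
  rw [map_add, pderiv_C, add_zero]

/-- The box in the coordinates of the heights. -/
theorem hp_box (hc : Set.InjOn c (Set.Iio d)) (hdep : ∀ l, DepC c l (P l)) {κ : ℕ → ℝ} {a : ℕ}
    {g' : ℕ → ℕ} {y : Option (Fin d) → ℝ}
    (hy : ∀ i : Fin d, |y (some i) / 2 ^ s i - κ i| ≤ 1 / 2 ^ g' i) :
    NBx c (sfr P κ) g' a (y none) d (hp c s P y) := by
  unfold hp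
  refine ⟨?_, fun l hl => ?_⟩
  · rw [hpt_none, sub_self, abs_zero]
    positivity
  · rw [hpt_c _ _ hc hdep hl, eval_sfr]
    have e1 : Pool.D2G30.ext y l = y (some ⟨l, hl⟩) := by
      unfold Pool.D2G30.ext
      rw [dif_pos hl]
    rw [e1]
    have := hy ⟨l, hl⟩
    have e2 : eval (hpt c s P (y none) (Pool.D2G30.ext y) d) (P l) + y (some ⟨l, hl⟩) / 2 ^ s l -
        (eval (hpt c s P (y none) (Pool.D2G30.ext y) d) (P l) + κ l) =
        y (some ⟨l, hl⟩) / 2 ^ s l - κ l := by ring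
    rw [e2]
    exact this

/-- The norm of the vectors of the frame. -/
theorem nrm_vec (hc : Set.InjOn c (Set.Iio d)) (hdep : ∀ l, DepC c l (P l)) {κ : ℕ → ℝ} {a : ℕ}
    {g' : ℕ → ℕ} (y : Option (Fin d) → ℝ) (o' : Option (Fin d)) :
    nrm c (sfr P κ) g' a d (hp c s P y) (vec c s P y o') =
      match o' with
      | none => 2 ^ a
      | some i => 2 ^ g' i / 2 ^ s i := by
  classical
  unfold nrm
  rw [vec_none]
  have h1 : ∀ l ∈ range d, (2 : ℝ) ^ g' l * |vec c s P y o' (some (c l)) -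
      dd (sfr P κ l) (hp c s P y) (vec c s P y o')| =
      (if h : l < d then (if o' = some ⟨l, h⟩ then 2 ^ g' l / 2 ^ s l else 0) else 0) := by
    intro l hl
    have hl' := Finset.mem_range.1 hl
    rw [dd_sfr, vec_nat hc hdep y o' hl', dif_pos hl']
    split_ifs
    · rw [abs_of_pos (by positivity), mul_one_div]
    · rw [abs_zero, mul_zero]
  rw [Finset.sum_congr rfl h1]
  cases o' with
  | none =>
    rw [if_pos rfl, abs_one, mul_one]
    have : ∀ l ∈ range d, (if h : l < d then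
        (if (none : Option (Fin d)) = some ⟨l, h⟩ then (2 : ℝ) ^ g' l / 2 ^ s l else 0) else 0) =
        0 := by
      intro l _
      split_ifs with h h'
      · exact absurd h' (by simp)
      · rfl
      · rfl
    rw [Finset.sum_congr rfl this, Finset.sum_const_zero, add_zero]
  | some i =>
    rw [if_neg (by simp), abs_zero, mul_zero, zero_add]
    rw [Finset.sum_eq_single (i : ℕ)]
    · rw [dif_pos i.2, if_pos rfl]
    · intro l hl hne
      have hl' := Finset.mem_range.1 hl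
      rw [dif_pos hl', if_neg]
      intro h
      apply hne
      have := Option.some_injective _ h
      rw [this]
    · intro h
      exact absurd (Finset.mem_range.2 i.2) h

end hp

section tubbd

variable {m r : ℕ}

theorem tpt_none (T : ℝ) (y : Fin r → ℝ) (δ : ℝ) (β : Fin r → ℝ) : tpt T y δ β none = T := rfl

theorem tpt_some (T : ℝ) (y : Fin r → ℝ) (δ : ℝ) (β : Fin r → ℝ) (i : Fin r) :
    tpt T y δ β (some i) = y i + δ * β i := rfl

/-- **Bounds for the chart of the ball and its gradient at the points of the box.** -/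
theorem tub_bd (D r : ℕ) : ∃ C : ℕ, ∀ {m : ℕ} {c : ℕ → Fin m} {s : ℕ → ℕ} {w Q a p q : ℕ}
    {t M M₀ κ₁ : ℝ} {P Gb : ℕ → MvPolynomial (Option (Fin m)) ℝ} {κ : ℕ → ℝ} {gb : ℕ → ℕ}
    {A Pd : MvPolynomial (Option (Fin m)) ℝ} {k : Fin r → ℤ}, Set.InjOn c (Set.Iio r) →
    (∀ l, (Gb l).totalDegree ≤ D) → (∀ l, DepC c l (Gb l)) → (∀ l, (P l).totalDegree ≤ D) →
    (∀ l, DepC c l (P l)) → DepC c r A → DepC c r Pd → A.totalDegree ≤ D → Pd.totalDegree ≤ D →
    0 ≤ M → (∀ l < r, gb l ≤ s l + Q + q) → (∀ l < r, s l + Q ≤ gb l + q) →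
    (∀ l < r, ∀ b, NBx c Gb gb a t l b →
      |eval b (P l) + κ l - eval b (Gb l)| ≤ 2 ^ p / 2 ^ gb l) →
    (∀ b, NBx c Gb gb a t r b → |eval b Pd + κ₁ - eval b A| ≤ M) → |κ₁| ≤ M₀ →
    (∀ i : Fin r, (k i : ℝ) = ⌊2 ^ Q * (2 ^ s i * κ i)⌋) → ∀ x : Fin r → ℝ, (∀ i, 0 ≤ x i) →
    (∀ i, x i ≤ 1) →
    |eval x (PfR c s r Q t k P (A - Pd))| ≤ 2 ^ s r * (2 ^ (C * (p + q + 1)) * M + M₀) ∧
    |eval x (PgR c s r w Q t k P (A - Pd) 0)| ≤
      2 ^ s r / 2 ^ w * (2 ^ (C * (p + q + 1)) * M * 2 ^ a) ∧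
    ∀ i : Fin r, |eval x (PgR c s r w Q t k P (A - Pd) i.succ)| ≤
      2 ^ s r * (2 ^ (C * (p + q + 1)) * M * 2 ^ Q) := by
  obtain ⟨C₁, hfb⟩ := frm_box D r
  obtain ⟨Cb, hCb, hba⟩ := box_all r D D
  obtain ⟨C₂, hC₂⟩ := pow_unbounded_of_one_lt Cb (one_lt_two (α := ℝ))
  refine ⟨C₁ + C₂, ?_⟩
  intro m c s w Q a p q t M M₀ κ₁ P Gb κ gb A Pd k hc hG hGd hP hPd hA hPr hAd hPrd hM h1 h2 h3 h4
    h5 hk x hx0 hx1
  have hQ0 : (0 : ℝ) < 2 ^ Q := by positivity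
  obtain ⟨Y, hY⟩ : ∃ Y : ℝ, Y = 2 ^ ((C₁ + C₂) * (p + q + 1)) := ⟨_, rfl⟩
  have hY1 : (2 : ℝ) ^ (C₁ * (p + q + 1)) ≤ Y := by
    rw [hY]
    exact pow_le_pow_right₀ (by norm_num) (Nat.mul_le_mul_right _ (by omega))
  have hY2 : Cb * 2 ^ (C₁ * (p + q + 1)) ≤ Y := by
    rw [hY, Nat.add_mul, pow_add]
    have e1 : Cb ≤ 2 ^ (C₂ * (p + q + 1)) := hC₂.le.trans
      (pow_le_pow_right₀ (by norm_num) (Nat.le_mul_of_pos_right _ (by omega)))
    rw [mul_comm]
    exact mul_le_mul_of_nonneg_left e1 (by positivity)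
  rw [← hY]
  have hY0 : 0 ≤ Y := (by positivity : (0 : ℝ) ≤ 2 ^ (C₁ * (p + q + 1))).trans hY1
  -- the point
  obtain ⟨y, hy⟩ : ∃ y : Option (Fin r) → ℝ, y = tpt t (fun i => (k i : ℝ) / 2 ^ Q) (1 / 2 ^ Q) x :=
    ⟨_, rfl⟩
  have hyn : y none = t := by rw [hy]; rfl
  have hys : ∀ i : Fin r, |y (some i) / 2 ^ s i - κ i| ≤ 1 / 2 ^ (s i + Q) := by
    intro i
    have hs0 : (0 : ℝ) < 2 ^ s i := by positivity
    have e1 : y (some i) = (k i : ℝ) / 2 ^ Q + 1 / 2 ^ Q * x i := by rw [hy]; rfl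
    have f1 := Int.floor_le ((2 : ℝ) ^ Q * (2 ^ s i * κ i))
    have f2 := Int.lt_floor_add_one ((2 : ℝ) ^ Q * (2 ^ s i * κ i))
    rw [← hk i] at f1 f2
    have e2 : y (some i) / 2 ^ s i - κ i = (k i + x i - 2 ^ Q * (2 ^ s i * κ i)) /
        2 ^ (s i + Q) := by
      rw [e1, pow_add]
      field_simp
    rw [e2, abs_div, abs_of_pos (show (0 : ℝ) < 2 ^ (s i + Q) by positivity)]
    refine div_le_div_of_nonneg_right ?_ (by positivity)
    rw [abs_le]
    constructor <;> linarith [hx0 i, hx1 i]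
  have hbox := hp_box (c := c) (s := s) (P := P) (a := a) (g' := fun l => s l + Q) hc hPd hys
  rw [hyn] at hbox
  -- the difference
  obtain ⟨R, hR⟩ : ∃ R : MvPolynomial (Option (Fin m)) ℝ, R = Pd + C κ₁ - A := ⟨_, rfl⟩
  have hRe : ∀ b, eval b R = eval b Pd + κ₁ - eval b A := by
    intro b
    rw [hR, map_sub, map_add, eval_C]
  have hRdd : ∀ b V, dd (A - Pd) b V = - dd R b V := by
    intro b V
    unfold dd
    rw [← Finset.sum_neg_distrib]
    refine Finset.sum_congr rfl fun o _ => ?_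
    rw [hR]
    simp only [map_sub, map_add, pderiv_C, add_zero]
    ring
  have hRdep : DepC c r R := fun b b' e1 e2 => by
    rw [hRe, hRe, hA b b' e1 e2, hPr b b' e1 e2]
  have hRdeg : R.totalDegree ≤ D := by
    rw [hR]
    refine (totalDegree_sub _ _).trans (max_le ((totalDegree_add _ _).trans (max_le hPrd ?_)) hAd)
    rw [totalDegree_C]
    exact Nat.zero_le _
  have hsd : ∀ l, (sfr P κ l).totalDegree ≤ D := by
    intro l
    unfold sfr
    refine (totalDegree_add _ _).trans (max_le (hP l) ?_)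
    rw [totalDegree_C]
    exact Nat.zero_le _
  have hsp : ∀ l, DepC c l (sfr P κ l) := fun l b b' e1 e2 => by
    rw [eval_sfr, eval_sfr, hPd l b b' e1 e2]
  have hbx := hfb (c := c) (a := a) (p := p) (q := q) (t := t) (M := M) (Gb := Gb)
    (ψ := sfr P κ) (gb := gb) (g' := fun l => s l + Q) (R := R) hc hG hGd hsd hsp hRdep hRdeg hM
    (fun l hl => h1 l hl) (fun l hl => h2 l hl) (fun l hl b hb => by
      rw [eval_sfr]
      exact h3 l hl b hb) (fun b hb => by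
      rw [hRe]
      exact h4 b hb)
  have hpn : (hp c s P y) none = t := by
    unfold hp
    rw [hpt_none, hyn]
  have hall := hba (c := c) (ψ := sfr P κ) (Q := R) (g := fun l => s l + Q) (a := a)
    (M := 2 ^ (C₁ * (p + q + 1)) * M) (x := hp c s P y) hc hsd hsp hRdep hRdeg (by positivity)
    (fun b hb => by
      rw [hpn] at hb
      exact hbx b hb) (fun l hl => hbox.2 l hl)
  have hdd : ∀ o' : Option (Fin r), |dd (A - Pd) (hp c s P y) (vec c s P y o')| ≤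
      Y * M * nrm c (sfr P κ) (fun l => s l + Q) a r (hp c s P y) (vec c s P y o') := by
    intro o'
    rw [hRdd, abs_neg]
    refine (hall.1 _).trans (mul_le_mul_of_nonneg_right ?_ (nrm_nonneg _ _ _ _ _ _ _))
    rw [← mul_assoc]
    exact mul_le_mul_of_nonneg_right hY2 hM
  have hs0 : (0 : ℝ) < 2 ^ s r := by positivity
  refine ⟨?_, ?_, ?_⟩
  · unfold PfR
    rw [map_mul, eval_C, eval_tub, ← hy, eval_pull, abs_mul, abs_of_pos hs0]
    refine mul_le_mul_of_nonneg_left ?_ hs0.le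
    have e1 : eval (hp c s P y) (A - Pd) = κ₁ - eval (hp c s P y) R := by
      rw [hRe, map_sub]
      ring
    rw [e1]
    refine (abs_sub _ _).trans ?_
    have e2 := (hbx _ hbox).trans (mul_le_mul_of_nonneg_right hY1 hM)
    linarith
  · have e0 : PgR c s r w Q t k P (A - Pd) 0 = C (2 ^ s r / 2 ^ w) *
        tub t (fun i => (k i : ℝ) / 2 ^ Q) (1 / 2 ^ Q) (pderiv none (pull c s P r (A - Pd))) := rfl
    rw [e0, map_mul, eval_C, eval_tub, ← hy, pd_pull, abs_mul,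
      abs_of_pos (show (0 : ℝ) < 2 ^ s r / 2 ^ w by positivity)]
    refine mul_le_mul_of_nonneg_left ((hdd none).trans (le_of_eq ?_)) (by positivity)
    rw [nrm_vec hc hPd]
  · intro i
    have e0 : PgR c s r w Q t k P (A - Pd) i.succ = C (2 ^ s r) *
        tub t (fun i => (k i : ℝ) / 2 ^ Q) (1 / 2 ^ Q)
          (pderiv (some i) (pull c s P r (A - Pd))) := rfl
    rw [e0, map_mul, eval_C, eval_tub, ← hy, pd_pull, abs_mul, abs_of_pos hs0]
    refine mul_le_mul_of_nonneg_left ((hdd (some i)).trans (le_of_eq ?_)) hs0.le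
    rw [nrm_vec hc hPd]
    show Y * M * (2 ^ (s i + Q) / 2 ^ s i) = _
    rw [pow_add, mul_div_cancel_left₀ _ (show (2 : ℝ) ^ s i ≠ 0 by positivity)]

end tubbd

end Pool.V1E
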