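import Pool.Agent.H73.D2.Tlb

/-!
# The closed gradient and the velocity

`nrm_fr`: the natural norm over the charts of a ball of a vector which is natural over the frame.
`cl_near`: the gradient of the row label against the gradient of the chart of the ball, in the
directions of the frame. `der_own`: the derivative of a polynomial along the own line in the
coordinates of the heights.
-/

set_option autoImplicit false

namespace Pool.V1E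

open Finset Real MvPolynomial
open Pool.KA Pool.KSAT Pool.PB Pool.GEN Pool.D2R Pool.D2G30 Pool.ISO Pool.CHT Pool.CHX
open Pool.PB.Trl (rt rt_mem t_rt)

/-- Two precisions. -/
theorem inv_min (a b : ℕ) : (1 : ℝ) / 2 ^ min a b ≤ 1 / 2 ^ a + 1 / 2 ^ b := by
  rcases le_total a b with h | h
  · rw [min_eq_left h]
    have : (0 : ℝ) ≤ 1 / 2 ^ b := by positivity
    linarith
  · rw [min_eq_right h]
    have : (0 : ℝ) ≤ 1 / 2 ^ a := by positivity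
    linarith

/-- **The natural norm over the charts of a ball of a vector of the frame.** -/
theorem nrm_fr {m : ℕ} {c : ℕ → Fin m} {r : ℕ} {P G : ℕ → MvPolynomial (Option (Fin m)) ℝ}
    {g : ℕ → ℕ} {a : ℕ} {x V : Option (Fin m) → ℝ} {W Z : ℝ} (hW : 0 ≤ W) (hZ : 4 ≤ Z)
    (hV : V none = 0)
    (h1 : ∀ j < r, 2 ^ g j * |V (some (c j)) - dd (P j) x V| ≤ Z / 4 * W)
    (h2 : ∀ j < r, 2 ^ g j * |dd (P j) x V - dd (G j) x V| ≤ Z / 4 * nrm c G g a j x V) :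
    ∀ l ≤ r, nrm c G g a l x V ≤ Z ^ l * W := by
  intro l
  induction l with
  | zero =>
    intro _
    unfold nrm
    rw [hV, abs_zero, mul_zero, Finset.range_zero, Finset.sum_empty, add_zero, pow_zero, one_mul]
    exact hW
  | succ l ih =>
    intro hl
    have h3 := ih (by omega)
    have e1 : nrm c G g a (l + 1) x V = nrm c G g a l x V +
        2 ^ g l * |V (some (c l)) - dd (G l) x V| := by
      unfold nrm
      rw [Finset.sum_range_succ, add_assoc]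
    have h4 : 2 ^ g l * |V (some (c l)) - dd (G l) x V| ≤ Z / 4 * W + Z / 4 * (Z ^ l * W) := by
      have e2 : V (some (c l)) - dd (G l) x V = (V (some (c l)) - dd (P l) x V) +
          (dd (P l) x V - dd (G l) x V) := by ring
      rw [e2]
      refine (mul_le_mul_of_nonneg_left (abs_add_le _ _) (by positivity)).trans ?_
      rw [mul_add]
      exact add_le_add (h1 l (by omega)) ((h2 l (by omega)).trans
        (mul_le_mul_of_nonneg_left h3 (by linarith)))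
    rw [e1]
    have hZl : 1 ≤ Z ^ l := one_le_pow₀ (by linarith)
    have h5 : W ≤ Z ^ l * W := le_mul_of_one_le_left hW hZl
    have h6 : 0 ≤ Z ^ l * W := by positivity
    calc nrm c G g a l x V + 2 ^ g l * |V (some (c l)) - dd (G l) x V|
        ≤ Z ^ l * W + (Z / 4 * W + Z / 4 * (Z ^ l * W)) := add_le_add h3 h4
      _ ≤ Z ^ l * W + (Z / 4 * (Z ^ l * W) + Z / 4 * (Z ^ l * W)) := by
          have := mul_le_mul_of_nonneg_left h5 (show 0 ≤ Z / 4 by linarith)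
          linarith
      _ = Z ^ l * W * (1 + Z / 2) := by ring
      _ ≤ Z ^ l * W * Z := mul_le_mul_of_nonneg_left (by linarith) h6
      _ = _ := by rw [pow_succ]; ring

/-- **The gradient of the row label against the chart of the ball.** -/
theorem cl_near (D r : ℕ) : ∃ C : ℕ, ∀ {m J : ℕ} {F : Fam m J} {c : ℕ → Fin m}
    {n M ar p q₀₃ q₂₃ x u : ℕ} {s : ℕ → ℕ} {o : ℕ → ℕ} {z : ℕ → ℕ → ℕ} {e : ℕ}
    {g gc gT g₀ : ℕ → ℕ → ℕ} {B : F.Ω → Prop}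
    {G T : ℕ → PtT F → ℕ → MvPolynomial (Option (Fin m)) ℝ}
    {H TH : ℕ → LnT F → ℕ → MvPolynomial (Option (Fin m)) ℝ}
    {Ht : LnT F → MvPolynomial (Option (Fin m)) ℝ}, Set.InjOn c (Set.Iio r) →
    BalE F c r n M ar o z g gc gT g₀ (2 ^ u) B G T → 3 ≤ n → q₀₃ ≤ M → q₂₃ ≤ M → o 0 ≤ o 3 →
    o 1 ≤ o 3 → o 2 ≤ o 3 → o 3 ≤ ar → o 3 ≤ J → z 0 q₀₃ = o 3 - o 0 → z 2 q₂₃ = o 3 - o 2 →
    (∀ k, ∀ y l, (G k y l).totalDegree ≤ D) → (∀ k, ∀ y l, DepC c l (G k y l)) →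
    ChOK F c (r + 1) (fun _ => D) (o 3) (o 3) e (g₀ 3) B (G 3) (H 3) →
    ROut1 F c r (o 1) (o 3) (ar - o 3) (g₀ 3) (gT 3) p (2 ^ u) B (G 3) (H 3) (T 3) (TH 3) Ht →
    (∀ j < r, ∀ s, TH 3 s j = Hno (c j) (fun s => H 3 s j) s) →
    (∀ j < r, g₀ 3 j ≤ g 0 j + (o 3 - o 0) + x) → (∀ j < r, g₀ 3 j ≤ s j + (o 3 - o 1) + x) →
    (∀ j < r, gT 3 j ≤ g₀ 3 j + (ar - o 3) + x) →
    ∀ ω, B ω → ∀ V : Option (Fin m) → ℝ, V none = 0 →
    (∀ j < r, |V (some (c j)) - dd (G 0 (ptr F J ω) j) (bt F ω) V| ≤ 1 / 2 ^ s j) →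
    |dd (Ht (slam F (o 1) ω)) (bt F ω) V - dd (G 2 (ptr F J ω) r) (bt F ω) V| ≤
      2 ^ (C * (u + x + 1)) * (2 ^ (ar - o 1) / 2 ^ p + 2 ^ (o 3 - o 1) / 2 ^ g₀ 3 r +
        2 ^ (o 3 - o 1) / 2 ^ (g 2 r + (o 3 - o 2))) := by
  obtain ⟨C₁, hbd⟩ := bale_dd D r
  obtain ⟨C₂, hC₂⟩ := pow_unbounded_of_one_lt ((r : ℝ) + 1) (one_lt_two (α := ℝ))
  refine ⟨(r + 1) * (C₁ + 4) + C₁ + C₂ + 8, ?_⟩
  intro m J F c n M ar p q₀₃ q₂₃ x u s o z e g gc gT g₀ B G T H TH Ht hc hB hn hq₀ hq₂ h03 h13 h23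
    h3a h3J hz0 hz2 hdG hpG hch hro hTH n1 n2 n3 ω hω V hV0 hV
  have hU0 : (0 : ℝ) ≤ 2 ^ u := by positivity
  have hU1 : (1 : ℝ) ≤ 2 ^ u := one_le_pow₀ (by norm_num)
  obtain ⟨Z, hZ⟩ : ∃ Z : ℝ, Z = 2 ^ (C₁ + u + x + 2) := ⟨_, rfl⟩
  have hZ4 : 4 ≤ Z := by
    rw [hZ]
    calc (4 : ℝ) = 2 ^ 2 := by norm_num
      _ ≤ _ := pow_le_pow_right₀ (by norm_num) (by omega)
  have hZq : Z / 4 = 2 ^ (C₁ + u + x) := by
    rw [hZ, pow_add]
    norm_num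
  obtain ⟨W, hW⟩ : ∃ W : ℝ, W = 2 ^ (o 3 - o 1) := ⟨_, rfl⟩
  have hW0 : 0 < W := by rw [hW]; positivity
  -- the norm over the ball of the window `o 3`
  have hN := nrm_fr (c := c) (r := r) (P := G 0 (ptr F J ω)) (G := G 3 (ptr F J ω))
    (g := g₀ 3) (a := o 3) (x := bt F ω) (V := V) (W := W) (Z := Z) hW0.le hZ4 hV0
    (fun j hj => by
      refine (mul_le_mul_of_nonneg_left (hV j hj) (by positivity)).trans ?_
      rw [mul_one_div, div_le_iff₀ (by positivity), hZq, hW]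
      have h1 : (2 : ℝ) ^ g₀ 3 j ≤ 2 ^ (s j + (o 3 - o 1) + x) :=
        pow_le_pow_right₀ (by norm_num) (n2 j hj)
      refine h1.trans ?_
      rw [← pow_add, ← pow_add]
      exact pow_le_pow_right₀ (by norm_num) (by omega))
    (fun j hj => by
      have h1 := hbd hc hB hU0 (Nat.zero_le n) hn hq₀ h03 hz0 (hdG 0) (hpG 0) hch ω hω j hj.le V
      refine (mul_le_mul_of_nonneg_left h1 (by positivity)).trans ?_
      rw [← mul_assoc]
      refine mul_le_mul_of_nonneg_right ?_ (nrm_nonneg _ _ _ _ _ _ _)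
      rw [mul_div_assoc', div_le_iff₀ (by positivity), hZq]
      have h2 : g₀ 3 j ≤ min (g 0 j + (o 3 - o 0)) (g₀ 3 j) + x := by
        rcases le_total (g 0 j + (o 3 - o 0)) (g₀ 3 j) with h | h
        · rw [min_eq_left h]
          exact n1 j hj
        · rw [min_eq_right h]
          omega
      have h3 : (2 : ℝ) ^ g₀ 3 j ≤ 2 ^ (min (g 0 j + (o 3 - o 0)) (g₀ 3 j) + x) :=
        pow_le_pow_right₀ (by norm_num) h2
      calc (2 : ℝ) ^ g₀ 3 j * (2 ^ C₁ * 2 ^ u) ≤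
          2 ^ (min (g 0 j + (o 3 - o 0)) (g₀ 3 j) + x) * (2 ^ C₁ * 2 ^ u) :=
            mul_le_mul_of_nonneg_right h3 (by positivity)
        _ = _ := by
            rw [pow_add, pow_add, pow_add]
            ring)
  have hNr := hN r le_rfl
  obtain ⟨N, hNN⟩ : ∃ N : ℝ, N = nrm c (G 3 (ptr F J ω)) (g₀ 3) (o 3) r (bt F ω) V := ⟨_, rfl⟩
  rw [← hNN] at hNr
  have hN0 : 0 ≤ N := by
    rw [hNN]
    exact nrm_nonneg _ _ _ _ _ _ _
  have hNl : ∀ l ≤ r, nrm c (G 3 (ptr F J ω)) (g₀ 3) (o 3) l (bt F ω) V ≤ N := fun l hl => by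
    rw [hNN]
    exact nrm_mono hl _ _
  -- the second step
  have hdif : ∀ l ≤ r, |dd (Hno (c l) (fun s => H 3 s l) (slam F (o 3) ω)) (bt F ω) V -
      dd (G 3 (ptr F J ω) l) (bt F ω) V| ≤ 2 ^ u / 2 ^ g₀ 3 l * N := by
    intro l hl
    have h1 := (hro.dif ω hω l hl).1 V
    rw [dd_sub] at h1
    exact h1.trans (mul_le_mul_of_nonneg_left (hNl l hl) (by positivity))
  -- the norm over the thin boxes
  obtain ⟨A, hA⟩ : ∃ A : ℝ, A = 2 ^ ((ar - o 3) + x) * (2 * 2 ^ u) * N := ⟨_, rfl⟩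
  have hA0 : 0 ≤ A := by rw [hA]; positivity
  have hNT : nrm c (TH 3 (slam F (o 3) ω)) (gT 3) (o 3 + (ar - o 3)) r (bt F ω) V ≤
      ((r : ℝ) + 1) * A := by
    refine nrm_le (by rw [hV0, abs_zero]; positivity) fun l hl => ?_
    rw [hTH l hl]
    have h1 := hdif l hl.le
    have h2 : |V (some (c l)) - dd (G 3 (ptr F J ω) l) (bt F ω) V| ≤ N / 2 ^ g₀ 3 l := by
      rw [hNN]
      exact nrm_comp _ _ _ _ _ _ _ hl
    have h3 : |V (some (c l)) - dd (Hno (c l) (fun s => H 3 s l) (slam F (o 3) ω)) (bt F ω) V| ≤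
        N / 2 ^ g₀ 3 l + 2 ^ u / 2 ^ g₀ 3 l * N := by
      have e1 : V (some (c l)) - dd (Hno (c l) (fun s => H 3 s l) (slam F (o 3) ω)) (bt F ω) V =
          (V (some (c l)) - dd (G 3 (ptr F J ω) l) (bt F ω) V) -
          (dd (Hno (c l) (fun s => H 3 s l) (slam F (o 3) ω)) (bt F ω) V -
            dd (G 3 (ptr F J ω) l) (bt F ω) V) := by ring
      rw [e1]
      exact (abs_sub _ _).trans (add_le_add h2 h1)
    refine h3.trans ?_
    have h4 : (2 : ℝ) ^ gT 3 l ≤ 2 ^ g₀ 3 l * 2 ^ ((ar - o 3) + x) := by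
      rw [← pow_add]
      exact pow_le_pow_right₀ (by norm_num) (by have := n3 l hl; omega)
    rw [hA, le_div_iff₀ (by positivity)]
    have e2 : (N / 2 ^ g₀ 3 l + 2 ^ u / 2 ^ g₀ 3 l * N) * 2 ^ gT 3 l =
        (1 + 2 ^ u) * N / 2 ^ g₀ 3 l * 2 ^ gT 3 l := by ring
    rw [e2]
    have h5 : 0 ≤ (1 + 2 ^ u) * N / 2 ^ g₀ 3 l := by positivity
    refine (mul_le_mul_of_nonneg_left h4 h5).trans ?_
    have e3 : (1 + 2 ^ u) * N / 2 ^ g₀ 3 l * (2 ^ g₀ 3 l * 2 ^ (ar - o 3 + x)) =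
        (1 + 2 ^ u) * N * 2 ^ (ar - o 3 + x) := by
      field_simp
    rw [e3]
    have h6 : (1 + 2 ^ u) * N ≤ 2 * 2 ^ u * N := mul_le_mul_of_nonneg_right (by linarith) hN0
    nlinarith [mul_le_mul_of_nonneg_right h6 (show (0 : ℝ) ≤ 2 ^ (ar - o 3 + x) by positivity)]
  -- the three differences
  have d1 : |dd (Ht (slam F (o 1) ω)) (bt F ω) V -
      dd (Hno (c r) (fun s => H 3 s r) (slam F (o 3) ω)) (bt F ω) V| ≤
      2 ^ u / 2 ^ p * (((r : ℝ) + 1) * A) := by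
    have h1 := hro.win ω hω (rt F (o 3) ω) (rt_mem F (o 3) ω) V
    rw [ptw_rt F h3J, dd_sub] at h1
    exact h1.trans (mul_le_mul_of_nonneg_left hNT (by positivity))
  have d2 := hdif r le_rfl
  have d3 : |dd (G 2 (ptr F J ω) r) (bt F ω) V - dd (G 3 (ptr F J ω) r) (bt F ω) V| ≤
      2 ^ C₁ * 2 ^ u * (1 / 2 ^ (g 2 r + (o 3 - o 2)) + 1 / 2 ^ g₀ 3 r) * N := by
    have h1 := hbd hc hB hU0 (show 2 ≤ n by omega) hn hq₂ h23 hz2 (hdG 2) (hpG 2) hch ω hω r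
      le_rfl V
    refine h1.trans (mul_le_mul (le_of_eq_of_le ?_ (mul_le_mul_of_nonneg_left
      (inv_min _ _) (by positivity))) (hNl r le_rfl) (nrm_nonneg _ _ _ _ _ _ _) (by positivity))
    rw [mul_one_div]
  -- the sum
  have e0 : dd (Ht (slam F (o 1) ω)) (bt F ω) V - dd (G 2 (ptr F J ω) r) (bt F ω) V =
      (dd (Ht (slam F (o 1) ω)) (bt F ω) V -
        dd (Hno (c r) (fun s => H 3 s r) (slam F (o 3) ω)) (bt F ω) V) +
      (dd (Hno (c r) (fun s => H 3 s r) (slam F (o 3) ω)) (bt F ω) V -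
        dd (G 3 (ptr F J ω) r) (bt F ω) V) -
      (dd (G 2 (ptr F J ω) r) (bt F ω) V - dd (G 3 (ptr F J ω) r) (bt F ω) V) := by ring
  rw [e0]
  refine (abs_sub _ _).trans ((add_le_add ((abs_add_le _ _).trans (add_le_add d1 d2)) d3).trans ?_)
  obtain ⟨Y, hY⟩ : ∃ Y : ℝ, Y = 2 ^ (((r + 1) * (C₁ + 4) + C₁ + C₂ + 8) * (u + x + 1)) := ⟨_, rfl⟩
  rw [← hY]
  have hZr : Z ^ r ≤ 2 ^ ((r + 1) * (C₁ + 4) * (u + x + 1)) := by
    rw [hZ, ← pow_mul]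
    refine pow_le_pow_right₀ (by norm_num) ?_
    have h1 : C₁ + u + x + 2 ≤ (C₁ + 4) * (u + x + 1) := by nlinarith
    calc (C₁ + u + x + 2) * r ≤ (C₁ + 4) * (u + x + 1) * (r + 1) := Nat.mul_le_mul h1 (by omega)
      _ = _ := by ring
  have hNY : N ≤ 2 ^ ((r + 1) * (C₁ + 4) * (u + x + 1)) * W :=
    hNr.trans (mul_le_mul_of_nonneg_right hZr hW0.le)
  obtain ⟨Y₁, hY₁⟩ : ∃ Y₁ : ℝ, Y₁ = 2 ^ ((r + 1) * (C₁ + 4) * (u + x + 1)) := ⟨_, rfl⟩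
  rw [← hY₁] at hNY
  have hY10 : 0 < Y₁ := by rw [hY₁]; positivity
  have hYb : ∀ {k : ℕ}, k ≤ (C₁ + C₂ + 8) * (u + x + 1) → 2 ^ k * Y₁ ≤ Y := by
    intro k hk
    rw [hY, hY₁, ← pow_add]
    refine pow_le_pow_right₀ (by norm_num) ?_
    calc k + (r + 1) * (C₁ + 4) * (u + x + 1) ≤ (C₁ + C₂ + 8) * (u + x + 1) +
        (r + 1) * (C₁ + 4) * (u + x + 1) := by omega
      _ = _ := by ring
  have hk1 : C₂ + u + (x + 1 + u) ≤ (C₁ + C₂ + 8) * (u + x + 1) := by nlinarith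
  have hk2 : u + 1 ≤ (C₁ + C₂ + 8) * (u + x + 1) := by nlinarith
  have hk3 : C₁ + u + 1 ≤ (C₁ + C₂ + 8) * (u + x + 1) := by nlinarith
  have hwa : (2 : ℝ) ^ (ar - o 3) * W = 2 ^ (ar - o 1) := by
    rw [hW, ← pow_add]
    congr 1
    omega
  -- first
  have f1 : 2 ^ u / 2 ^ p * (((r : ℝ) + 1) * A) ≤ Y * (2 ^ (ar - o 1) / 2 ^ p) := by
    rw [hA]
    have h1 : 2 ^ u / 2 ^ p * (((r : ℝ) + 1) * (2 ^ ((ar - o 3) + x) * (2 * 2 ^ u) * N)) ≤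
        2 ^ u / 2 ^ p * ((2 ^ C₂) * (2 ^ ((ar - o 3) + x) * (2 * 2 ^ u) * (Y₁ * W))) := by
      refine mul_le_mul_of_nonneg_left ?_ (by positivity)
      refine mul_le_mul hC₂.le (mul_le_mul_of_nonneg_left hNY (by positivity)) (by positivity)
        (by positivity)
    refine h1.trans ?_
    have e1 : 2 ^ u / 2 ^ p * ((2 ^ C₂) * (2 ^ ((ar - o 3) + x) * (2 * 2 ^ u) * (Y₁ * W))) =
        2 ^ (C₂ + u + (x + 1 + u)) * Y₁ * ((2 ^ (ar - o 3) * W) / 2 ^ p) := by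
      rw [pow_add, pow_add, pow_add, pow_add, pow_add]
      ring
    rw [e1, hwa]
    exact mul_le_mul_of_nonneg_right (hYb hk1) (by positivity)
  -- second
  have f2 : 2 ^ u / 2 ^ g₀ 3 r * N ≤ 2 ^ u * Y₁ * (2 ^ (o 3 - o 1) / 2 ^ g₀ 3 r) := by
    rw [← hW]
    calc 2 ^ u / 2 ^ g₀ 3 r * N ≤ 2 ^ u / 2 ^ g₀ 3 r * (Y₁ * W) :=
          mul_le_mul_of_nonneg_left hNY (by positivity)
      _ = _ := by ring
  have f3 : 2 ^ C₁ * 2 ^ u * (1 / 2 ^ (g 2 r + (o 3 - o 2)) + 1 / 2 ^ g₀ 3 r) * N ≤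
      2 ^ (C₁ + u) * Y₁ * (2 ^ (o 3 - o 1) / 2 ^ (g 2 r + (o 3 - o 2)) +
        2 ^ (o 3 - o 1) / 2 ^ g₀ 3 r) := by
    rw [← hW]
    calc 2 ^ C₁ * 2 ^ u * (1 / 2 ^ (g 2 r + (o 3 - o 2)) + 1 / 2 ^ g₀ 3 r) * N ≤
        2 ^ C₁ * 2 ^ u * (1 / 2 ^ (g 2 r + (o 3 - o 2)) + 1 / 2 ^ g₀ 3 r) * (Y₁ * W) :=
          mul_le_mul_of_nonneg_left hNY (by positivity)
      _ = _ := by
          rw [pow_add]
          ring
  have f4 : 2 ^ u * Y₁ + 2 ^ (C₁ + u) * Y₁ ≤ Y := by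
    have h1 : (2 : ℝ) ^ u ≤ 2 ^ (C₁ + u) := pow_le_pow_right₀ (by norm_num) (by omega)
    calc 2 ^ u * Y₁ + 2 ^ (C₁ + u) * Y₁ ≤ 2 ^ (C₁ + u) * Y₁ + 2 ^ (C₁ + u) * Y₁ := by
          have := mul_le_mul_of_nonneg_right h1 hY10.le
          linarith
      _ = 2 ^ (C₁ + u + 1) * Y₁ := by
          rw [pow_succ]
          ring
      _ ≤ Y := hYb hk3
  obtain ⟨α, hα⟩ : ∃ α : ℝ, α = 2 ^ (o 3 - o 1) / 2 ^ g₀ 3 r := ⟨_, rfl⟩
  obtain ⟨β, hβ⟩ : ∃ β : ℝ, β = 2 ^ (o 3 - o 1) / 2 ^ (g 2 r + (o 3 - o 2)) := ⟨_, rfl⟩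
  rw [← hα] at f2
  rw [← hα, ← hβ] at f3
  rw [← hα, ← hβ]
  have hα0 : 0 ≤ α := by rw [hα]; positivity
  have hβ0 : 0 ≤ β := by rw [hβ]; positivity
  have f5 := mul_le_mul_of_nonneg_right f4 hα0
  have f6 : 2 ^ (C₁ + u) * Y₁ * β ≤ Y * β := by
    refine mul_le_mul_of_nonneg_right ?_ hβ0
    have : 0 ≤ 2 ^ u * Y₁ := by positivity
    linarith
  nlinarith [f1, f2, f3, f5, f6]

/-- **The derivative along the own line in the coordinates of the heights.** -/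
theorem der_own {m J r w : ℕ} {F : Fam m J} {c : ℕ → Fin m} {s : ℕ → ℕ}
    {P : ℕ → MvPolynomial (Option (Fin m)) ℝ} (hc : Set.InjOn c (Set.Iio r))
    (hdep : ∀ l, DepC c l (P l)) (hw : w ≤ J) (ω : F.Ω)
    {R : MvPolynomial (Option (Fin m)) ℝ} (hR : DepC c r R) :
    1 / 2 ^ w * dd R (bt F ω) (bd F ω) = ∑ o' : Option (Fin r),
      eval (fun o => (hL c s r w P (slam F w ω) o).eval (rt F w ω)) (pderiv o' (pull c s P r R)) *
        (Polynomial.derivative (hL c s r w P (slam F w ω) o')).eval (rt F w ω) := by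
  rw [← dd_own hw ω R]
  have h1 := pull_path (s := s) hc hdep (lc w (slam F w ω)) hR
  rw [← h1, der_aev, Polynomial.eval_finsetSum]
  refine Finset.sum_congr rfl fun o' _ => ?_
  rw [Polynomial.eval_mul, Pool.D2G30.eval_aev]
  rfl

end Pool.V1E
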