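import Pool.Agent.H73.D2.Tlc

/-!
# The deterministic part of the structure `TL`

`TLd`: the deterministic conditions of `TL` on an event, with a constant `Y`. `TLd.toTL`: with the
conditions on the entropies.
-/

set_option autoImplicit false

namespace Pool.V1E

open Finset Real
open Pool.Agent.H49.Ent Pool.Agent.H32.Dense Pool.STK Pool.D2A Pool.D2Con
open Pool.BFL (Pb)
open Pool.D2G30
open MvPolynomial (eval pderiv)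

/-- **The deterministic part of `TL`.** -/
structure TLd (K d D Q MB N₀ : ℕ) (Y : ℝ) {Ω Λ ζ α ε κ : Type} (B : Ω → Prop)
    (L : Ω → Λ) (T : Ω → ℕ) (Z : Ω → ζ) (a : Ω → α) (E : Ω → ε) (X : ε → Fin (d + 1) → ℝ)
    (Pf : ζ → MvPolynomial (Fin d) ℝ) (Pg : ζ → Fin (d + 1) → MvPolynomial (Fin d) ℝ)
    (c : Λ → κ) (s : Ω → Fin d → ℝ) (ξ : Λ → Fin d → ℝ) (n : Λ → Polynomial ℝ)
    (Θ : Λ → Fin d → Polynomial ℝ) : Prop where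
  Tlt : ∀ ω, B ω → T ω < N₀
  ZT : ∀ ω ω', B ω → B ω' → Z ω = Z ω' → T ω = T ω'
  Za : ∀ ω ω', B ω → B ω' → Z ω = Z ω' → a ω = a ω'
  aT : ∀ ω ω', B ω → B ω' → a ω = a ω' → T ω = T ω'
  LE : ∀ ω ω', B ω → B ω' → L ω = L ω' → E ω = E ω'
  Xb : ∀ ω, B ω → ∀ j, |X (E ω) j| ≤ Y
  dgf : ∀ z, (Pf z).totalDegree ≤ K
  dgg : ∀ z j, (Pg z j).totalDegree ≤ K
  grd : ∀ ω, B ω → ∀ i : Fin d,
    Pg (Z ω) i.succ = MvPolynomial.C (2 ^ Q) * pderiv i (Pf (Z ω))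
  bdf : ∀ ω, B ω → ∀ β : Gr K d, |eval (nd K β) (Pf (Z ω))| ≤ Y
  bdg : ∀ ω, B ω → ∀ (β : Gr K d) j, |eval (nd K β) (Pg (Z ω) j)| ≤ Y
  s1 : ∀ ω, B ω → ∀ i, |s ω i| ≤ 1
  sc : ∀ ω ω', B ω → B ω' → (c (L ω), (E ω, a ω)) = (c (L ω'), (E ω', a ω')) → s ω = s ω'
  ξ0 : ∀ l i, 0 ≤ ξ l i
  ξ1 : ∀ l i, ξ l i < 1
  dgn : ∀ l, (n l).natDegree ≤ D
  bdn : ∀ ω, B ω → ∀ j, |(n (L ω)).coeff j| ≤ Y
  val : ∀ ω, B ω → |(n (L ω)).eval (uu N₀ T ω) -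
    eval (fun i => s ω i + ξ (L ω) i) (Pf (Z ω))| ≤ Y / 2 ^ MB
  vel : ∀ ω, B ω → |(Polynomial.derivative (n (L ω))).eval (uu N₀ T ω) -
      ∑ j, X (E ω) j * eval (fun i => s ω i + ξ (L ω) i) (Pg (Z ω) j)| ≤ Y / 2 ^ (MB - Q)
  dgΘ : ∀ l i, (Θ l i).natDegree ≤ D
  cl : ∀ ω, B ω → ∀ i : Fin d, |(Θ (L ω) i).eval (uu N₀ T ω) -
    eval (fun i => s ω i + ξ (L ω) i) (Pg (Z ω) i.succ)| ≤ Y / 2 ^ (MB - Q)

theorem Pb_none {Ω : Type} [Fintype Ω] {q : Ω → ℝ} {A B : Ω → Prop} (h0 : ∀ ω, 0 ≤ q ω)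
    (hB : ∀ ω, 0 < q ω → B ω) (h : ∀ ω, B ω → ¬ A ω) : Pb q A = 0 := by
  classical
  unfold Pb
  refine Finset.sum_eq_zero fun ω _ => ?_
  rcases (h0 ω).eq_or_lt with hz | hz
  · rw [← hz]
    simp
  · rw [if_neg (h ω (hB ω hz))]

/-- **`TL` from the deterministic part and the entropies.** -/
theorem TLd.toTL {K d D CM Q MB k N₀ : ℕ} {δ Y : ℝ} {Ω Λ ζ α ε κ : Type} [Fintype Ω] {q : Ω → ℝ}
    {B : Ω → Prop} {L : Ω → Λ} {T : Ω → ℕ} {Z : Ω → ζ} {a : Ω → α} {E : Ω → ε}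
    {X : ε → Fin (d + 1) → ℝ} {Pf : ζ → MvPolynomial (Fin d) ℝ}
    {Pg : ζ → Fin (d + 1) → MvPolynomial (Fin d) ℝ} {c : Λ → κ} {s : Ω → Fin d → ℝ}
    {ξ : Λ → Fin d → ℝ} {n : Λ → Polynomial ℝ} {Θ : Λ → Fin d → Polynomial ℝ}
    (h : TLd K d D Q MB N₀ Y B L T Z a E X Pf Pg c s ξ n Θ) (hq : IsLaw q)
    (hB : ∀ ω, 0 < q ω → B ω) (hY : Y ≤ 2 ^ (δ * Q)) (hδ : 0 ≤ δ) (hK : 1 ≤ K) (hd : 1 ≤ d)
    (hQ : Q ≤ MB) (hMB : MB ≤ CM * Q) (hk : MB ≤ k) (hN : 2 ^ Q ≤ N₀)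
    (Tfull : Real.log N₀ - δ * Q ≤ CH q T L)
    (nh : NoHyp q (fun ω => X (E ω)) Z (2 ^ (-(δ * Q))) δ)
    (fr : CH q E a ≤ CH q E Z + δ * Q)
    (afew : CH q a (fun ω => (c (L ω), T ω)) ≤ δ * Q)
    (full : d * (k * Real.log 2) - δ * Q ≤ CH q (xd k L ξ) (fun ω => (Z ω, E ω))) :
    TL K d D CM Q MB k N₀ δ q L T Z a E X Pf Pg c s ξ n Θ := by
  have hm : ∀ m : ℕ, Y / 2 ^ m ≤ 2 ^ (δ * Q) / 2 ^ m := fun m =>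
    div_le_div_of_nonneg_right hY (by positivity)
  refine ⟨hq, hK, hd, hQ, hMB, hk, hN, fun ω hω => h.Tlt ω (hB ω hω), Tfull,
    fun ω ω' h1 h2 => h.ZT ω ω' (hB ω h1) (hB ω' h2), fun ω ω' h1 h2 => h.Za ω ω' (hB ω h1) (hB ω' h2),
    fun ω ω' h1 h2 => h.aT ω ω' (hB ω h1) (hB ω' h2), fun ω ω' h1 h2 => h.LE ω ω' (hB ω h1) (hB ω' h2),
    fun ω hω j => (h.Xb ω (hB ω hω) j).trans hY, nh, fr, afew, h.dgf, h.dgg,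
    fun ω hω => h.grd ω (hB ω hω), fun ω hω β => (h.bdf ω (hB ω hω) β).trans hY,
    fun ω hω β j => (h.bdg ω (hB ω hω) β j).trans hY, fun ω hω => h.s1 ω (hB ω hω),
    fun ω ω' h1 h2 => h.sc ω ω' (hB ω h1) (hB ω' h2), h.ξ0, h.ξ1, h.dgn,
    fun ω hω j => (h.bdn ω (hB ω hω) j).trans hY, ?_, ?_, h.dgΘ, ?_, full⟩
  · rw [Pb_none hq.nonneg hB fun ω hω hh => not_lt.2 ((h.val ω hω).trans (hm _)) hh]
    exact hδ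
  · rw [Pb_none hq.nonneg hB fun ω hω hh => not_lt.2 ((h.vel ω hω).trans (hm _)) hh]
    exact hδ
  · rw [Pb_none hq.nonneg hB fun ω hω hh => by
      obtain ⟨i, hi⟩ := hh
      exact not_lt.2 ((h.cl ω hω i).trans (hm _)) hi]
    exact hδ

end Pool.V1E
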