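import Pool.Agent.H73.D2.Hgt
import Pool.Agent.H23.D2.Fam
import Pool.Agent.H92.D2.Tub

/-!
# The letters of the structure `TL` in a family

`c 0 .. c (d - 1)`: the coordinates of the tube, `c d`: the coordinate with the charts. Window `w`,
frame = closed charts `P 0 .. P (d - 1)` of a longer window; `s`: natural digits at the window `w`;
`Q`: digits of the radius; `qe`: digits of the velocity.

`hL`: the heights along the line; `eL`: code of the velocity at the beginning of the window; `cL`,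
`xL`: cell of the tube and position in the tube; `co T`: corner at the time; `sc`: centre of the tube
minus corner; `nL`: own path minus closed chart; `TL'`: the closed gradient; `Pfz`, `Pgz`: the chart of
the ball minus the closed chart of the window, and its gradient.
-/

set_option autoImplicit false

namespace Pool.V1E

open Finset Real MvPolynomial
open Pool.KA Pool.KSAT Pool.PB Pool.GEN Pool.D2R Pool.D2G30

/-- Sequences of polynomials with finitely many terms. -/
noncomputable def trn {m : ℕ} (n : ℕ) (P : ℕ → MvPolynomial (Option (Fin m)) ℝ) :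
    ℕ → MvPolynomial (Option (Fin m)) ℝ := fun l => if l < n then P l else 0

/-- The polynomials of degree `≤ D`. -/
noncomputable def dgt {σ : Type} (D : ℕ) (R : MvPolynomial σ ℝ) : MvPolynomial σ ℝ :=
  if R.totalDegree ≤ D then R else 0

section letters

variable {m : ℕ} (c : ℕ → Fin m) (s : ℕ → ℕ) (d w Q : ℕ) (qe : Fin d → ℕ)

/-- The vector `(1, velocity)` of a code. -/
noncomputable def Xe (e : Fin d → ℤ) : Fin (d + 1) → ℝ :=
  Fin.cons 1 (fun i => (e i : ℝ) / 2 ^ qe i)

/-- The centre of the tube minus the corner, from the cell of the tube, the code of the velocity,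
the parameter and the corner. -/
noncomputable def sC (cl e : Fin d → ℤ) (u : ℝ) (k : Fin d → ℤ) : Fin d → ℝ :=
  fun i => max (-1) (min 1 ((cl i : ℝ) + 2 ^ Q * (u * ((e i : ℝ) / 2 ^ qe i)) - k i))

/-- The chart of the ball in the coordinate of the ball: time `t`, corner `k`, frame `P`,
polynomial `R`. -/
noncomputable def PfR (t : ℝ) (k : Fin d → ℤ) (P : ℕ → MvPolynomial (Option (Fin m)) ℝ)
    (R : MvPolynomial (Option (Fin m)) ℝ) : MvPolynomial (Fin d) ℝ :=
  C (2 ^ s d) * tub t (fun i => (k i : ℝ) / 2 ^ Q) (1 / 2 ^ Q) (pull c s P d R)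

/-- The gradient. -/
noncomputable def PgR (t : ℝ) (k : Fin d → ℤ) (P : ℕ → MvPolynomial (Option (Fin m)) ℝ)
    (R : MvPolynomial (Option (Fin m)) ℝ) : Fin (d + 1) → MvPolynomial (Fin d) ℝ :=
  Fin.cons (C (2 ^ s d / 2 ^ w) * tub t (fun i => (k i : ℝ) / 2 ^ Q) (1 / 2 ^ Q)
      (pderiv none (pull c s P d R)))
    (fun i => C (2 ^ s d) * tub t (fun i => (k i : ℝ) / 2 ^ Q) (1 / 2 ^ Q)
      (pderiv (some i) (pull c s P d R)))

variable {ζ : Type}

/-- The heights along the line, in the relative time of the window `w`. -/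
noncomputable def hL (P : ℕ → MvPolynomial (Option (Fin m)) ℝ)
    (L : ((Fin m → ℝ) × (Fin m → ℝ)) × ζ × ℕ) : Option (Fin d) → Polynomial ℝ :=
  hcur c s P d (lc w L)

/-- The code of the velocity. -/
noncomputable def eL (P : ℕ → MvPolynomial (Option (Fin m)) ℝ)
    (L : ((Fin m → ℝ) × (Fin m → ℝ)) × ζ × ℕ) : Fin d → ℤ :=
  fun i => ⌊2 ^ qe i * (Polynomial.derivative (hL c s d w P L (some i))).eval 0⌋

/-- The cell of the tube. -/
noncomputable def cL (P : ℕ → MvPolynomial (Option (Fin m)) ℝ)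
    (L : ((Fin m → ℝ) × (Fin m → ℝ)) × ζ × ℕ) (u : ℝ) : Fin d → ℤ :=
  fun i => ⌊2 ^ Q * (hL c s d w P L (some i)).eval u⌋

/-- The position in the tube. -/
noncomputable def xL (P : ℕ → MvPolynomial (Option (Fin m)) ℝ)
    (L : ((Fin m → ℝ) × (Fin m → ℝ)) × ζ × ℕ) : Fin d → ℝ :=
  fun i => Int.fract (2 ^ Q * (hL c s d w P L (some i)).eval 0)

/-- The own path minus the polynomial `R`. -/
noncomputable def nL (R : MvPolynomial (Option (Fin m)) ℝ)
    (L : ((Fin m → ℝ) × (Fin m → ℝ)) × ζ × ℕ) : Polynomial ℝ :=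
  Polynomial.C (2 ^ s d) * (lc w L (some (c d)) - MvPolynomial.aeval (lc w L) R)

/-- The gradient of the polynomial `R` in the heights along the line. -/
noncomputable def gL (P : ℕ → MvPolynomial (Option (Fin m)) ℝ)
    (R : MvPolynomial (Option (Fin m)) ℝ) (L : ((Fin m → ℝ) × (Fin m → ℝ)) × ζ × ℕ) :
    Fin d → Polynomial ℝ :=
  fun i => Polynomial.C (2 ^ s d) *
    MvPolynomial.aeval (hL c s d w P L) (pderiv (some i) (pull c s P d R))

end letters

section family

variable {m J : ℕ} (F : Fam m J)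

/-- The type of the codes: record, frame, closed chart. -/
abbrev KwT (m : ℕ) (V : Type) : Type :=
  V × ((ℕ → MvPolynomial (Option (Fin m)) ℝ) × MvPolynomial (Option (Fin m)) ℝ)

/-- The type of the records with the time and the corner. -/
abbrev KaT (m d : ℕ) (V : Type) : Type := KwT m V × (ℕ × (Fin d → ℤ))

/-- The type of the records of the ball. -/
abbrev KzT (m d : ℕ) (V V' : Type) : Type :=
  (V' × MvPolynomial (Option (Fin m)) ℝ) × KaT m d V

variable (c : ℕ → Fin m) (s : ℕ → ℕ) (d w q₀ Q : ℕ) (qe : Fin d → ℕ) {V V' : Type}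
  (v : F.Ω → V) (v' : F.Ω → V')
  (G₀ : PtT F → ℕ → MvPolynomial (Option (Fin m)) ℝ)
  (G₁ G₂ : PtT F → MvPolynomial (Option (Fin m)) ℝ)
  (H₀ : LnT F → ℕ → MvPolynomial (Option (Fin m)) ℝ)
  (H₁ : LnT F → MvPolynomial (Option (Fin m)) ℝ)

/-- The frame of the line. -/
noncomputable def frH (L : LnT F) : ℕ → MvPolynomial (Option (Fin m)) ℝ := trn d (H₀ (co q₀ L))

/-- The corner. -/
noncomputable def crF (ω : F.Ω) : Fin d → ℤ :=
  cL c s d w Q (trn d (G₀ (ptr F J ω))) (slam F w ω) (Pool.PB.Trl.rt F w ω)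

/-- The codes of the window. -/
noncomputable def kwF (ω : F.Ω) : KwT m V := (v ω, (trn d (G₀ (ptr F J ω)), G₁ (ptr F J ω)))

/-- The record of the window with the time and the corner. -/
noncomputable def kaF (ω : F.Ω) : KaT m d V :=
  (kwF F d v G₀ G₁ ω, (F.T ω, crF F c s d w Q G₀ ω))

/-- The record of the ball. -/
noncomputable def kzF (ω : F.Ω) : KzT m d V V' :=
  ((v' ω, G₂ (ptr F J ω)), kaF F c s d w Q v G₀ G₁ ω)

/-- The code of the tube: record, frame and closed chart as functions of the line, window, velocity,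
cell. -/
noncomputable def ctF (vL : LnT F → V) (L : LnT F) : KwT m V × (ℕ × ((Fin d → ℤ) × (Fin d → ℤ))) :=
  ((vL L, (frH F d q₀ H₀ L, H₁ L)), (L.2.2, (eL c s d w qe (frH F d q₀ H₀ L) L,
    cL c s d w Q (frH F d q₀ H₀ L) L 0)))

/-- The chart of the ball, for charts of degree `≤ D`. -/
noncomputable def Pfz (J D : ℕ) (z : KzT m d V V') : MvPolynomial (Fin d) ℝ :=
  PfR c s d Q ((z.2.2.1 : ℝ) / 2 ^ J) z.2.2.2 (fun l => dgt D (z.2.1.2.1 l))
    (dgt D z.1.2 - dgt D z.2.1.2.2)

/-- The gradient of the chart of the ball. -/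
noncomputable def Pgz (J D : ℕ) (z : KzT m d V V') : Fin (d + 1) → MvPolynomial (Fin d) ℝ :=
  PgR c s d w Q ((z.2.2.1 : ℝ) / 2 ^ J) z.2.2.2 (fun l => dgt D (z.2.1.2.1 l))
    (dgt D z.1.2 - dgt D z.2.1.2.2)

/-- The time in the window. -/
def twF (ω : F.Ω) : ℕ := F.T ω % 2 ^ (J - w)

/-- The centre of the tube minus the corner. -/
noncomputable def scF (ω : F.Ω) : Fin d → ℝ :=
  sC d Q qe (cL c s d w Q (frH F d q₀ H₀ (slam F w ω)) (slam F w ω) 0)
    (eL c s d w qe (frH F d q₀ H₀ (slam F w ω)) (slam F w ω)) (Pool.PB.Trl.rt F w ω)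
    (crF F c s d w Q G₀ ω)

end family

end Pool.V1E
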