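import Pool.Agent.H73.D2.Tlm
import Pool.Agent.H23.D2.Wno

/-!
# The deterministic part of `TL` in a class

`tld_con`: in a class with the windows of `win_con`, the event with `Wins`, `Wdat` and `TLd`.
-/

set_option autoImplicit false

namespace Pool.V1E

open Finset Real MvPolynomial
open Pool.Agent.H49.Ent Pool.Agent.H32.Dense Pool.STK Pool.KA Pool.KSAT Pool.K2S Pool.PB Pool.S6C
open Pool.GEN Pool.CHT Pool.CHX Pool.ISO Pool.D2R Pool.D2G30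
open Pool.LBT (ThrOf)
open Pool.LEV (Law)

variable {m J : ℕ}

/-- **The deterministic part of `TL`, in a class.** The windows: `o (f 0)` (frame), `o (f 1)`
(window), `o (f 2)` (ball), `o (f 3)` (deep). `mb`: the digits of the class, `pr`: the digits of the
closed row label. -/
theorem tld_con (m r S₀ : ℕ) (hr : 1 ≤ r) (hS₀ : 1 ≤ S₀) : ∃ D : ℕ, 1 ≤ D ∧ ∀ Dr : ℕ, D ≤ Dr →
    ∃ C : ℝ, 1 ≤ C ∧ ∀ K : ℕ, 1 ≤ K → D * (D + 1) ^ r ≤ K → ∃ C' : ℝ, 1 ≤ C' ∧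
    ∀ {S : PCl m} {P : List (Fin m) × Fin m → ℝ → ℝ → ℝ} {θ : ℝ}
    {c : ℕ → Fin m} {Pt : ℝ → ℝ → ℝ} {R : ℕ → Prop} {a Eb ηm : ℝ} {o ε p' η σ r₀ : ℕ → ℝ}
    (N M : ℕ), ThrOf (chsys m θ) S P → 0 < θ → TmH S → Set.InjOn c (Set.Iio (r + 1)) → Law Pt →
    0 ≤ Eb → (∀ k ≤ N, WinD S P θ c r Pt a (o k) S₀ Eb (ε k) R) →
    (∀ k ≤ N, C * ε k < o k ∧ C * ε k < η k ∧ 2 * (C * η k) ≤ o k) →
    (∀ k ≤ N, C * η k ≤ p' k ∧ p' k + C * ε k < Pt a (o k)) →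
    (∀ k ≤ N, 0 < σ k ∧ σ k ≤ ηm ∧ 0 < r₀ k ∧ η k < a ∧ η k ≤ ηm) →
    (∀ k ≤ N, ∀ l ≤ r, lvN P c r Pt l (o k) (o k) + (a - o k) + (Eb + σ k + η k) < 1) →
    (∀ k ≤ N, ∀ l < r, bet P c l a (o k) + (Eb + σ k + η k) < 1) →
    ∀ (f : ℕ → ℕ) (ξ mb pr δ : ℝ), (∀ k, f k ≤ N) → (∀ l < r, R l) → a ≤ 1 →
    o (f 0) ≤ o (f 1) → o (f 1) ≤ o (f 2) → o (f 2) ≤ o (f 3) → 0 ≤ ξ → 0 ≤ mb → 0 ≤ pr → 0 ≤ δ →
    (∀ k ≤ 3, ∀ j < r, |lvN P c r Pt j (o (f k)) (o (f k)) - o (f k) -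
      (lvN P c r Pt j (o (f 1)) (o (f 1)) - o (f 1))| ≤ ξ) →
    lvN P c r Pt r (o (f 1)) (o (f 1)) + mb ≤ lvN P c r Pt r (o (f 2)) (o (f 2)) + ξ →
    lvN P c r Pt r (o (f 1)) (o (f 1)) + (o (f 3) - o (f 1)) + (mb - (o (f 2) - o (f 1))) ≤
      lvN P c r Pt r (o (f 3)) (o (f 3)) + ξ →
    pr + C * ηm ≤ p' (f 1) →
    pr + C * ηm + ηm < lvN P c r Pt r (o (f 3)) (o (f 3)) + (a - o (f 3)) →
    lvN P c r Pt r (o (f 1)) (o (f 1)) + (a - o (f 1)) + (mb - (o (f 2) - o (f 1))) ≤ pr + ξ →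
    o (f 2) - o (f 1) < mb → mb + (o (f 2) - o (f 1)) < o (f 1) - o (f 0) →
    C' * (ξ + ηm) < δ * (o (f 2) - o (f 1)) →
    ∃ (K₁ : ℝ) (μ : ℕ → ℝ) (b : ℕ → ℕ → ℝ), 0 < K₁ ∧ (∀ k ≤ N, 0 < μ k ∧ ∀ l ≤ r,
        lvN P c r Pt l (o k) (o k) - σ k < b k l ∧
        b k l < lvN P c r Pt l (o k) (o k) - μ k) ∧
      ∀ κ : ℝ, 0 < κ → Bas S (fun J F A => ∀ z : ℕ → ℕ → ℕ,
        (∀ k ≤ N, ∀ i ≤ M, r₀ k * J ≤ z k i ∧ z k i ≤ ⌊a * J⌋₊ - ⌊o k * J⌋₊) →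
        (∃ q ≤ M, z (f 0) q = ⌊o (f 1) * J⌋₊ - ⌊o (f 0) * J⌋₊) →
        (∃ q ≤ M, z (f 0) q = ⌊o (f 2) * J⌋₊ - ⌊o (f 0) * J⌋₊) →
        (∃ q ≤ M, z (f 0) q = ⌊o (f 3) * J⌋₊ - ⌊o (f 0) * J⌋₊) →
        (∃ q ≤ M, z (f 1) q = ⌊o (f 2) * J⌋₊ - ⌊o (f 1) * J⌋₊) →
        (∃ q ≤ M, z (f 2) q = ⌊o (f 3) * J⌋₊ - ⌊o (f 2) * J⌋₊) →
        ∀ qe : Fin r → ℕ, (∀ i, ⌊mb * J⌋₊ + (⌊o (f 2) * J⌋₊ - ⌊o (f 1) * J⌋₊) ≤ qe i) →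
        ∃ (B : F.Ω → Prop) (gc gT g₀ : ℕ → ℕ → ℕ)
          (G : ℕ → PtT F → ℕ → MvPolynomial (Option (Fin m)) ℝ)
          (H : ℕ → LnT F → ℕ → MvPolynomial (Option (Fin m)) ℝ)
          (T : ℕ → PtT F → ℕ → MvPolynomial (Option (Fin m)) ℝ)
          (TH : ℕ → LnT F → ℕ → MvPolynomial (Option (Fin m)) ℝ)
          (Gt : ℕ → PtT F → MvPolynomial (Option (Fin m)) ℝ)
          (Ht : ℕ → LnT F → MvPolynomial (Option (Fin m)) ℝ) (Y : ℝ), Sub B A ∧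
          Pe F.p A ≤ K₁ * Pe F.p B ∧
          Wins F c r D Dr N M R C a Eb ηm o ε p' η σ
            (fun k l => lvN P c r Pt l (o k) (o k)) (fun k l => bet P c l a (o k)) b κ z B gc gT
            g₀ G H T TH Gt Ht ∧
          Wdat F c r D 3 M ⌊a * J⌋₊ ⌊mb * J⌋₊ (⌊o (f 1) * J⌋₊ - ⌊o (f 0) * J⌋₊)
            (⌊o (f 2) * J⌋₊ - ⌊o (f 1) * J⌋₊) (⌊(2 * ξ + ηm) * J⌋₊ + 20)
            (⌊C * (ηm * J)⌋₊ + 1) ⌊pr * J⌋₊ ⌊(Eb + 2 * ηm) * J⌋₊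
            (fun l => ⌊lvN P c r Pt l (o (f 1)) (o (f 1)) * J⌋₊) qe
            (fun k => ⌊o (f k) * J⌋₊) (fun k => z (f k)) (fun k l => ⌊b (f k) l * J⌋₊)
            (fun k => gc (f k)) (fun k => gT (f k)) (fun k => g₀ (f k)) B (fun k => G (f k))
            (fun k => T (f k)) (fun k => H (f k)) (fun k => TH (f k)) (Ht (f 1)) ∧
          Y ≤ 2 ^ (δ * ((⌊o (f 2) * J⌋₊ - ⌊o (f 1) * J⌋₊ : ℕ) : ℝ)) ∧
          ∀ {V V' : Type} (v : F.Ω → V) (v' : F.Ω → V') (vL : LnT F → V) (D' : ℕ),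
            K * (D + 1) ≤ D' → D + 1 ≤ D' →
            TLd K r D' (⌊o (f 2) * J⌋₊ - ⌊o (f 1) * J⌋₊) ⌊mb * J⌋₊ (2 ^ (J - ⌊o (f 1) * J⌋₊)) Y B
              (slam F ⌊o (f 1) * J⌋₊) (twF F ⌊o (f 1) * J⌋₊)
              (kzF F c (fun l => ⌊lvN P c r Pt l (o (f 1)) (o (f 1)) * J⌋₊) r ⌊o (f 1) * J⌋₊
                (⌊o (f 2) * J⌋₊ - ⌊o (f 1) * J⌋₊) v v' (G (f 0)) (fun y => G (f 1) y r)
                (fun y => G (f 2) y r))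
              (kaF F c (fun l => ⌊lvN P c r Pt l (o (f 1)) (o (f 1)) * J⌋₊) r ⌊o (f 1) * J⌋₊
                (⌊o (f 2) * J⌋₊ - ⌊o (f 1) * J⌋₊) v (G (f 0)) (fun y => G (f 1) y r))
              (fun ω => eL c (fun l => ⌊lvN P c r Pt l (o (f 1)) (o (f 1)) * J⌋₊) r
                ⌊o (f 1) * J⌋₊ qe (frH F r (⌊o (f 1) * J⌋₊ - ⌊o (f 0) * J⌋₊) (H (f 0))
                  (slam F ⌊o (f 1) * J⌋₊ ω)) (slam F ⌊o (f 1) * J⌋₊ ω))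
              (Xe r qe)
              (Pfz c (fun l => ⌊lvN P c r Pt l (o (f 1)) (o (f 1)) * J⌋₊) r
                (⌊o (f 2) * J⌋₊ - ⌊o (f 1) * J⌋₊) J D)
              (Pgz c (fun l => ⌊lvN P c r Pt l (o (f 1)) (o (f 1)) * J⌋₊) r ⌊o (f 1) * J⌋₊
                (⌊o (f 2) * J⌋₊ - ⌊o (f 1) * J⌋₊) J D)
              (ctF F c (fun l => ⌊lvN P c r Pt l (o (f 1)) (o (f 1)) * J⌋₊) r ⌊o (f 1) * J⌋₊
                (⌊o (f 1) * J⌋₊ - ⌊o (f 0) * J⌋₊) (⌊o (f 2) * J⌋₊ - ⌊o (f 1) * J⌋₊) qe (H (f 0))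
                (fun L => H (f 1) L r) vL)
              (scF F c (fun l => ⌊lvN P c r Pt l (o (f 1)) (o (f 1)) * J⌋₊) r ⌊o (f 1) * J⌋₊
                (⌊o (f 1) * J⌋₊ - ⌊o (f 0) * J⌋₊) (⌊o (f 2) * J⌋₊ - ⌊o (f 1) * J⌋₊) qe (G (f 0))
                (H (f 0)))
              (fun L => xL c (fun l => ⌊lvN P c r Pt l (o (f 1)) (o (f 1)) * J⌋₊) r
                ⌊o (f 1) * J⌋₊ (⌊o (f 2) * J⌋₊ - ⌊o (f 1) * J⌋₊)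
                (frH F r (⌊o (f 1) * J⌋₊ - ⌊o (f 0) * J⌋₊) (H (f 0)) L) L)
              (fun L => nL c (fun l => ⌊lvN P c r Pt l (o (f 1)) (o (f 1)) * J⌋₊) r
                ⌊o (f 1) * J⌋₊ (H (f 1) L r) L)
              (fun L => gL c (fun l => ⌊lvN P c r Pt l (o (f 1)) (o (f 1)) * J⌋₊) r
                ⌊o (f 1) * J⌋₊ (frH F r (⌊o (f 1) * J⌋₊ - ⌊o (f 0) * J⌋₊) (H (f 0)) L)
                (Ht (f 1) L - H (f 1) L r) L)) := by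
  obtain ⟨D, hD, hcon⟩ := win_con m r S₀ hr hS₀
  refine ⟨D, hD, fun Dr hDr => ?_⟩
  obtain ⟨C, hC, hcon⟩ := hcon Dr hDr
  refine ⟨C, hC, fun K hK hK' => ?_⟩
  obtain ⟨C₁, htl⟩ := tl_det D r K hK hK'
  refine ⟨((C₁ : ℝ) + 1) * (C + 3), ?_, ?_⟩
  · have : (0 : ℝ) ≤ C₁ := Nat.cast_nonneg _
    nlinarith
  intro S P θ c Pt R a Eb ηm o ε p' η σ r₀ N M hP hθ hS hinj hPt hEb hW hε hp' hσ htop hbet
    f ξ mb pr δ hf hR ha h01 h12 h23 hξ hmb hpr hδ hn h2 h3 hp0 hp1 hp hQM hq hsm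
  obtain ⟨K₁, μ, b, g1, g2, g3⟩ := hcon N M hP hθ hS hinj hPt hEb hW hε hp' hσ htop hbet
  refine ⟨K₁, μ, b, g1, g2, fun κ hκ => ?_⟩
  have hηm : 0 ≤ ηm := (hσ 0 (Nat.zero_le _)).1.le.trans (hσ 0 (Nat.zero_le _)).2.1
  -- large scales
  have big : ∀ {x y : ℝ}, 0 < x → ∃ J₀ : ℕ, ∀ J : ℕ, J₀ ≤ J → y ≤ x * J := by
    intro x y hx
    refine ⟨⌈y / x⌉₊, fun J hJ => ?_⟩
    have h1 : y / x ≤ J := (Nat.le_ceil _).trans (by exact_mod_cast hJ)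
    rw [div_le_iff₀ hx] at h1
    linarith
  obtain ⟨J₁, hJ₁⟩ := big (x := lvN P c r Pt r (o (f 3)) (o (f 3)) + (a - o (f 3)) -
    (pr + C * ηm + ηm)) (y := 2) (by linarith)
  obtain ⟨J₂, hJ₂⟩ := big (x := mb - (o (f 2) - o (f 1))) (y := 2) (by linarith)
  obtain ⟨J₃, hJ₃⟩ := big (x := o (f 1) - o (f 0) - (mb + (o (f 2) - o (f 1)))) (y := 3)
    (by linarith)
  obtain ⟨J₄, hJ₄⟩ := big (x := δ * (o (f 2) - o (f 1)) - ((C₁ : ℝ) + 1) * (C + 3) * (ξ + ηm))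
    (y := ((C₁ : ℝ) + 1) * 22 + δ) (by linarith)
  refine (g3 κ hκ).mono (max (max J₁ J₂) (max J₃ J₄)) ?_
  intro J hJ F A hA z hz z01 z02 z03 z12 z23 qe hqe
  obtain ⟨B, gc, gT, g₀, G, H, T, TH, Gt, Ht, k1, k2, W⟩ := hA z hz
  have j1 := hJ₁ J ((le_max_left _ _).trans ((le_max_left _ _).trans hJ))
  have j2 := hJ₂ J ((le_max_right _ _).trans ((le_max_left _ _).trans hJ))
  have j3 := hJ₃ J ((le_max_left _ _).trans ((le_max_right _ _).trans hJ))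
  have j4 := hJ₄ J ((le_max_right _ _).trans ((le_max_right _ _).trans hJ))
  have hWd := wins_dat2 (qe := qe) W hinj hf hR ha h01 h12 h23 z01 z02 z03 z12 z23 hξ hmb hpr hn h2 h3
    hp0 j1 hp j2 j3 hqe
  refine ⟨B, gc, gT, g₀, G, H, T, TH, Gt, Ht, _, k1, k2, W, hWd, ?_, fun {V V'} v v' vL D' h4 h5 =>
    htl hWd v v' vL D' h4 h5⟩
  refine Y_le (C' := C₁ + 1) (by push_cast; linarith) (by linarith) hηm hξ hδ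
    (W.ho (f 1) (hf 1)).1 h12 ?_
  have hJ0 : (0 : ℝ) ≤ J := Nat.cast_nonneg J
  have h6 : (C * ηm + 2 * ξ + ηm) * J ≤ (C + 3) * (ξ + ηm) * J := by
    refine mul_le_mul_of_nonneg_right ?_ hJ0
    nlinarith
  have hC10 : (0 : ℝ) ≤ (C₁ : ℝ) + 1 := by positivity
  have h7 := mul_le_mul_of_nonneg_left h6 hC10
  push_cast
  nlinarith

end Pool.V1E
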