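import Pool.Agent.H73.D2.Tln

/-!
# The heights in the tube, the corner, the gradient of the closed chart on the frame

`hL_near2`: the heights are almost affine for `|u| ≤ 2`. `W_tube`: own heights against the cell of
the tube. `W_crn`: corner and centre against the cell of the tube. `W_lip1`: the gradient of the closed
chart of the window on the boxes of the frame.
-/

set_option autoImplicit false

namespace Pool.V1E

open Finset Real MvPolynomial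
open Pool.KA Pool.KSAT Pool.PB Pool.GEN Pool.D2R Pool.D2G30 Pool.ISO Pool.CHT Pool.CHX
open Pool.PB.Trl (rt rt_mem t_rt)

/-- A polynomial which is small on `[0, 1]` is small on `[-2, 2]`. -/
theorem ext_two (K : ℕ) : ∃ C : ℝ, 1 ≤ C ∧ ∀ (f : Polynomial ℝ) (M : ℝ), f.natDegree ≤ K →
    (∀ t ∈ Set.Icc (0 : ℝ) 1, |f.eval t| ≤ M) → ∀ u : ℝ, |u| ≤ 2 → |f.eval u| ≤ C * M := by
  obtain ⟨C₁, hC₁, hco⟩ := Pool.Agent.H40.FR.unit_coef K
  refine ⟨(K + 1) * (C₁ * 2 ^ K), ?_, ?_⟩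
  · have h1 : (1 : ℝ) ≤ 2 ^ K := one_le_pow₀ (by norm_num)
    have h2 : (1 : ℝ) ≤ C₁ * 2 ^ K := by nlinarith
    have h3 : (0 : ℝ) ≤ K := Nat.cast_nonneg K
    nlinarith
  intro f M hf hM u hu
  have h1 := hco f M hf hM
  have hM0 : 0 ≤ M := (abs_nonneg _).trans (hM 0 ⟨le_rfl, zero_le_one⟩)
  rw [Polynomial.eval_eq_sum_range' (Nat.lt_succ_of_le hf)]
  refine (Finset.abs_sum_le_sum_abs _ _).trans ?_
  refine (Finset.sum_le_sum (g := fun _ => C₁ * M * 2 ^ K) fun j hj => ?_).trans ?_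
  · rw [abs_mul, abs_pow]
    have h2 : |u| ^ j ≤ 2 ^ K := (pow_le_pow_left₀ (abs_nonneg _) hu j).trans
      (pow_le_pow_right₀ (by norm_num) (by have := Finset.mem_range.1 hj; omega))
    exact mul_le_mul (h1 j) h2 (by positivity) (by positivity)
  · rw [Finset.sum_const, Finset.card_range, nsmul_eq_mul]
    push_cast
    exact le_of_eq (by ring)

/-- **The heights are almost affine**, for `|u| ≤ 2`. -/
theorem hL_near2 (D : ℕ) : ∃ C : ℝ, 1 ≤ C ∧ ∀ {m J : ℕ} {F : Fam m J} {c : ℕ → Fin m} {s : ℕ → ℕ}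
    {d wb q₀ : ℕ} {H₀ : LnT F → ℕ → MvPolynomial (Option (Fin m)) ℝ} {L : LnT F} {M : ℝ}
    {i : Fin d}, (H₀ (co q₀ L) i).totalDegree ≤ D →
    (∀ τ ∈ Set.Icc (0 : ℝ) 1, |(dv wb (fun s _ => H₀ s i) (c i) (co q₀ L)).eval τ| ≤ M) →
    ∀ u : ℝ, |u| ≤ 2 →
    |(hL c s d (wb + q₀) (frH F d q₀ H₀ L) L (some i)).eval u -
      (hL c s d (wb + q₀) (frH F d q₀ H₀ L) L (some i)).eval 0 -
      u * (Polynomial.derivative (hL c s d (wb + q₀) (frH F d q₀ H₀ L) L (some i))).eval 0| ≤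
      C * ((2 ^ s i * M / 2 ^ q₀) / 2 ^ q₀) := by
  obtain ⟨C₁, hC₁, hne⟩ := hL_near D
  obtain ⟨C₂, hC₂, hex⟩ := ext_two (D + 1)
  refine ⟨C₂ * C₁, by nlinarith, ?_⟩
  intro m J F c s d wb q₀ H₀ L M i hdeg hM u hu
  obtain ⟨h, hh⟩ : ∃ h, h = hL c s d (wb + q₀) (frH F d q₀ H₀ L) L (some i) := ⟨_, rfl⟩
  have h3 := fun v hv => (hne (c := c) (s := s) (d := d) (wb := wb) hdeg hM v hv).2.2
  rw [← hh] at h3 ⊢
  obtain ⟨f, hf⟩ : ∃ f : Polynomial ℝ, f = h - Polynomial.C (h.eval 0) -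
      Polynomial.C ((Polynomial.derivative h).eval 0) * Polynomial.X := ⟨_, rfl⟩
  have hfe : ∀ v, f.eval v = h.eval v - h.eval 0 - v * (Polynomial.derivative h).eval 0 := by
    intro v
    rw [hf]
    simp only [Polynomial.eval_sub, Polynomial.eval_mul, Polynomial.eval_C, Polynomial.eval_X]
    ring
  have hhd : h.natDegree ≤ D + 1 := by
    rw [hh]
    show (Polynomial.C (2 ^ s i) * (lc (wb + q₀) L (some (c i)) -
      MvPolynomial.aeval (lc (wb + q₀) L) (frH F d q₀ H₀ L i))).natDegree ≤ D + 1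
    refine (Polynomial.natDegree_C_mul_le _ _).trans ((Polynomial.natDegree_sub_le _ _).trans
      (max_le ((natDegree_lc _ _ _).trans (by omega)) ?_))
    have e1 : frH F d q₀ H₀ L i = H₀ (co q₀ L) i := by
      unfold frH trn
      rw [if_pos i.2]
    have h1 := natDegree_aev (K := 1) (D := D) (frH F d q₀ H₀ L i) (lc (wb + q₀) L)
      (natDegree_lc _ _) (by rw [e1]; exact hdeg)
    exact h1.trans (by omega)
  have hfd : f.natDegree ≤ D + 1 := by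
    rw [hf]
    refine (Polynomial.natDegree_sub_le _ _).trans (max_le
      ((Polynomial.natDegree_sub_le _ _).trans (max_le hhd ?_)) ?_)
    · rw [Polynomial.natDegree_C]
      omega
    · exact (Polynomial.natDegree_C_mul_le _ _).trans (by rw [Polynomial.natDegree_X]; omega)
  have h5 := hex f _ hfd (fun v hv => by rw [hfe v]; exact h3 v hv) u hu
  rw [hfe u] at h5
  refine h5.trans (le_of_eq ?_)
  ring

/-- **The own heights against the cell of the tube**, for `|u| ≤ 2`; **the corner and the centre.** -/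
theorem W_tube (D : ℕ) : ∃ C : ℕ, ∀ {m J : ℕ} {F : Fam m J} {c : ℕ → Fin m}
    {r n M ar MB q₀ Q x u p e : ℕ} {s : ℕ → ℕ} {qe : Fin r → ℕ} {o : ℕ → ℕ}
    {z g gc gT g₀ : ℕ → ℕ → ℕ} {B : F.Ω → Prop}
    {G T : ℕ → PtT F → ℕ → MvPolynomial (Option (Fin m)) ℝ}
    {H TH : ℕ → LnT F → ℕ → MvPolynomial (Option (Fin m)) ℝ}
    {Ht : LnT F → MvPolynomial (Option (Fin m)) ℝ},
    Wdat F c r D n M ar MB q₀ Q x u p e s qe o z g gc gT g₀ B G T H TH Ht → ∀ ω, B ω →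
    ∀ i : Fin r, (∀ v : ℝ, |v| ≤ 2 →
      |2 ^ Q * (hL c s r (o 1) (frH F r q₀ (H 0) (slam F (o 1) ω)) (slam F (o 1) ω) (some i)).eval v -
        (cL c s r (o 1) Q (frH F r q₀ (H 0) (slam F (o 1) ω)) (slam F (o 1) ω) 0 i +
          2 ^ Q * (v * ((eL c s r (o 1) qe (frH F r q₀ (H 0) (slam F (o 1) ω))
            (slam F (o 1) ω) i : ℝ) / 2 ^ qe i))) -
        xL c s r (o 1) Q (frH F r q₀ (H 0) (slam F (o 1) ω)) (slam F (o 1) ω) i| ≤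
        2 ^ (C * (u + x + 1)) / 2 ^ MB) ∧
    |(crF F c s r (o 1) Q (G 0) ω i : ℝ) + scF F c s r (o 1) q₀ Q qe (G 0) (H 0) ω i -
      (cL c s r (o 1) Q (frH F r q₀ (H 0) (slam F (o 1) ω)) (slam F (o 1) ω) 0 i +
        2 ^ Q * (rt F (o 1) ω * ((eL c s r (o 1) qe (frH F r q₀ (H 0) (slam F (o 1) ω))
          (slam F (o 1) ω) i : ℝ) / 2 ^ qe i)))| ≤ 2 ^ (C * (u + x + 1)) / 2 ^ MB := by
  obtain ⟨C₃, hC₃, hhl⟩ := hL_near2 D
  obtain ⟨C₄, hC₄⟩ := pow_unbounded_of_one_lt C₃ (one_lt_two (α := ℝ))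
  refine ⟨C₄ + 3, ?_⟩
  intro m J F c r n M ar MB q₀ Q x u p e s qe o z g gc gT g₀ B G T H TH Ht W ω hω i
  have h1J : o 1 ≤ J := by have := W.oJ; have := W.o3; have := W.o2; omega
  have hfr := W.fr hω
  obtain ⟨L, hL'⟩ : ∃ L, L = slam F (o 1) ω := ⟨_, rfl⟩
  have hco : co q₀ L = slam F (o 0) ω := by
    have h2 := co_slam F (w := o 0) (a := o 1) (by rw [W.o1]; omega) h1J ω
    rw [hL']
    rwa [W.o1, Nat.add_sub_cancel_left, ← W.o1] at h2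
  have hu := rt_mem F (o 1) ω
  have hfs := fun v hv => hhl (c := c) (s := s) (d := r) (wb := o 0) (q₀ := q₀) (H₀ := H 0) (L := L)
    (M := 2 ^ u / 2 ^ g₀ 0 i) (i := i) (W.dH 0 _ _) (fun τ hτ => by
      rw [hco]
      exact W.own0 ω hω i i.2 τ hτ) v hv
  rw [← W.o1, hL', hfr] at hfs
  rw [hfr]
  obtain ⟨Λ, hΛ⟩ : ∃ Λ : ℝ, Λ = C₃ * (2 ^ s i * (2 ^ u / 2 ^ g₀ 0 i) / 2 ^ q₀) := ⟨_, rfl⟩
  have hΛ1 : Λ ≤ 2 ^ (C₄ + u + x) := by
    have h2 : (2 : ℝ) ^ s i / 2 ^ (g₀ 0 i + q₀) ≤ 2 ^ x := p2_div (W.n0 i i.2)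
    have e1 : Λ = C₃ * (2 ^ u * (2 ^ s i / 2 ^ (g₀ 0 i + q₀))) := by
      rw [hΛ, pow_add]
      field_simp
    have e2 : (2 : ℝ) ^ (C₄ + u + x) = 2 ^ C₄ * (2 ^ u * 2 ^ x) := by
      rw [pow_add, pow_add, mul_assoc]
    rw [e1, e2]
    exact mul_le_mul hC₄.le (mul_le_mul_of_nonneg_left h2 (by positivity)) (by positivity)
      (by positivity)
  have hq0 : Λ / 2 ^ q₀ ≤ 2 ^ (C₄ + u + x) / 2 ^ (MB + Q) :=
    div_le_div₀ (by positivity) hΛ1 (by positivity) (pow_le_pow_right₀ (by norm_num) W.q0M)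
  have hqe : (1 : ℝ) / 2 ^ qe i ≤ 1 / 2 ^ (MB + Q) :=
    one_div_le_one_div_of_le (by positivity) (pow_le_pow_right₀ (by norm_num) (W.qeM i))
  have hsum : Λ / 2 ^ q₀ + 2 * (1 / 2 ^ qe i) ≤ 2 ^ (C₄ + u + x + 2) / 2 ^ (MB + Q) := by
    refine (add_le_add hq0 (mul_le_mul_of_nonneg_left hqe (by norm_num))).trans ?_
    rw [mul_one_div, ← add_div]
    refine div_le_div_of_nonneg_right ?_ (by positivity)
    have h1 : (1 : ℝ) ≤ 2 ^ (C₄ + u + x) := one_le_pow₀ (by norm_num)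
    rw [pow_add 2 (C₄ + u + x) 2]
    linarith
  have hexp : C₄ + u + x + 2 ≤ (C₄ + 3) * (u + x + 1) := by nlinarith
  have hY : (2 : ℝ) ^ (C₄ + u + x + 2) ≤ 2 ^ ((C₄ + 3) * (u + x + 1)) :=
    pow_le_pow_right₀ (by norm_num) hexp
  have hQ : (0 : ℝ) < 2 ^ Q := by positivity
  have hfin : ∀ {y : ℝ}, y ≤ 2 ^ Q * (Λ / 2 ^ q₀ + 2 * (1 / 2 ^ qe i)) →
      y ≤ 2 ^ ((C₄ + 3) * (u + x + 1)) / 2 ^ MB := by
    intro y hy
    refine hy.trans ((mul_le_mul_of_nonneg_left hsum hQ.le).trans ?_)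
    have e1 : (2 : ℝ) ^ Q * (2 ^ (C₄ + u + x + 2) / 2 ^ (MB + Q)) =
        2 ^ (C₄ + u + x + 2) / 2 ^ MB := by
      rw [pow_add 2 MB Q]
      field_simp
    rw [e1]
    exact div_le_div_of_nonneg_right hY (by positivity)
  obtain ⟨h, hh⟩ : ∃ h, h = hL c s r (o 1) (trn r (G 0 (ptr F J ω))) (slam F (o 1) ω) (some i) :=
    ⟨_, rfl⟩
  rw [← hh] at hfs ⊢
  obtain ⟨v0, hv0⟩ : ∃ v0 : ℝ, v0 = (Polynomial.derivative h).eval 0 := ⟨_, rfl⟩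
  rw [← hv0] at hfs
  have hfs' : ∀ v : ℝ, |v| ≤ 2 → |h.eval v - h.eval 0 - v * v0| ≤ Λ / 2 ^ q₀ := by
    intro v hv
    refine (hfs v hv).trans (le_of_eq ?_)
    rw [hΛ]
    ring
  have hcL : (cL c s r (o 1) Q (trn r (G 0 (ptr F J ω))) (slam F (o 1) ω) 0 i : ℝ) =
      ((⌊2 ^ Q * h.eval 0⌋ : ℤ) : ℝ) := by rw [hh]; rfl
  have hxL : xL c s r (o 1) Q (trn r (G 0 (ptr F J ω))) (slam F (o 1) ω) i =
      Int.fract (2 ^ Q * h.eval 0) := by rw [hh]; rfl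
  have heL : (eL c s r (o 1) qe (trn r (G 0 (ptr F J ω))) (slam F (o 1) ω) i : ℝ) =
      ((⌊2 ^ qe i * v0⌋ : ℤ) : ℝ) := by rw [hv0, hh]; rfl
  rw [hcL, hxL, heL]
  have hv : |((⌊2 ^ qe i * v0⌋ : ℤ) : ℝ) / 2 ^ qe i - v0| ≤ 1 / 2 ^ qe i := by
    have h1 := Int.floor_le ((2 : ℝ) ^ qe i * v0)
    have h2 := Int.lt_floor_add_one ((2 : ℝ) ^ qe i * v0)
    have hp : (0 : ℝ) < 2 ^ qe i := by positivity
    have e1 : ((⌊2 ^ qe i * v0⌋ : ℤ) : ℝ) / 2 ^ qe i - v0 =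
        (((⌊2 ^ qe i * v0⌋ : ℤ) : ℝ) - 2 ^ qe i * v0) / 2 ^ qe i := by
      field_simp
    rw [e1, abs_div, abs_of_pos hp]
    refine div_le_div_of_nonneg_right ?_ hp.le
    rw [abs_le]
    constructor <;> linarith
  have f0 := Int.floor_add_fract ((2 : ℝ) ^ Q * h.eval 0)
  have key : ∀ v : ℝ, |v| ≤ 2 → |2 ^ Q * h.eval v - (((⌊2 ^ Q * h.eval 0⌋ : ℤ) : ℝ) +
      2 ^ Q * (v * (((⌊2 ^ qe i * v0⌋ : ℤ) : ℝ) / 2 ^ qe i))) - Int.fract (2 ^ Q * h.eval 0)| ≤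
      2 ^ Q * (Λ / 2 ^ q₀ + 2 * (1 / 2 ^ qe i)) := by
    intro v hv'
    have e1 : 2 ^ Q * h.eval v - (((⌊2 ^ Q * h.eval 0⌋ : ℤ) : ℝ) +
        2 ^ Q * (v * (((⌊2 ^ qe i * v0⌋ : ℤ) : ℝ) / 2 ^ qe i))) - Int.fract (2 ^ Q * h.eval 0) =
        2 ^ Q * ((h.eval v - h.eval 0 - v * v0) - v * (((⌊2 ^ qe i * v0⌋ : ℤ) : ℝ) / 2 ^ qe i -
          v0)) := by
      linear_combination -f0
    rw [e1, abs_mul, abs_of_pos hQ]
    refine mul_le_mul_of_nonneg_left ((abs_sub _ _).trans (add_le_add (hfs' v hv') ?_)) hQ.le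
    rw [abs_mul]
    exact mul_le_mul hv' hv (abs_nonneg _) (by norm_num)
  refine ⟨fun v hv' => hfin (key v hv'), ?_⟩
  -- the corner
  have hrt2 : |rt F (o 1) ω| ≤ 2 := by rw [abs_of_nonneg hu.1]; linarith [hu.2]
  have k1 := key (rt F (o 1) ω) hrt2
  have hcr : (crF F c s r (o 1) Q (G 0) ω i : ℝ) = ((⌊2 ^ Q * h.eval (rt F (o 1) ω)⌋ : ℤ) : ℝ) := by
    rw [hh]; rfl
  have hsc : scF F c s r (o 1) q₀ Q qe (G 0) (H 0) ω i = max (-1) (min 1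
      (((⌊2 ^ Q * h.eval 0⌋ : ℤ) : ℝ) + 2 ^ Q * (rt F (o 1) ω *
        (((⌊2 ^ qe i * v0⌋ : ℤ) : ℝ) / 2 ^ qe i)) -
        ((⌊2 ^ Q * h.eval (rt F (o 1) ω)⌋ : ℤ) : ℝ))) := by
    rw [hh, hv0, hh]
    unfold scF sC
    rw [hfr]
    rfl
  rw [hcr, hsc]
  have fu := Int.floor_add_fract ((2 : ℝ) ^ Q * h.eval (rt F (o 1) ω))
  have g0 := Int.fract_nonneg ((2 : ℝ) ^ Q * h.eval 0)
  have g1 := (Int.fract_lt_one ((2 : ℝ) ^ Q * h.eval 0)).le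
  have g2 := Int.fract_nonneg ((2 : ℝ) ^ Q * h.eval (rt F (o 1) ω))
  have g3 := (Int.fract_lt_one ((2 : ℝ) ^ Q * h.eval (rt F (o 1) ω))).le
  obtain ⟨η, hη⟩ : ∃ η : ℝ, η = 2 ^ Q * (Λ / 2 ^ q₀ + 2 * (1 / 2 ^ qe i)) := ⟨_, rfl⟩
  rw [← hη] at k1
  obtain ⟨y, hy⟩ : ∃ y : ℝ, y = ((⌊2 ^ Q * h.eval 0⌋ : ℤ) : ℝ) + 2 ^ Q * (rt F (o 1) ω *
      (((⌊2 ^ qe i * v0⌋ : ℤ) : ℝ) / 2 ^ qe i)) := ⟨_, rfl⟩
  rw [← hy] at k1 ⊢
  refine hfin ?_
  rw [← hη]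
  have hη0 : 0 ≤ η := (abs_nonneg _).trans k1
  rw [abs_le] at k1
  obtain ⟨k1a, k1b⟩ := k1
  obtain ⟨w, hw⟩ : ∃ w : ℝ, w = y - ((⌊2 ^ Q * h.eval (rt F (o 1) ω)⌋ : ℤ) : ℝ) := ⟨_, rfl⟩
  have e2 : ((⌊2 ^ Q * h.eval (rt F (o 1) ω)⌋ : ℤ) : ℝ) +
      max (-1) (min 1 (y - ((⌊2 ^ Q * h.eval (rt F (o 1) ω)⌋ : ℤ) : ℝ))) - y =
      max (-1) (min 1 w) - w := by
    rw [← hw]
    linarith
  rw [e2]
  rcases le_total w 1 with hx1 | hx1
  · rw [min_eq_right hx1]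
    rcases le_total (-1) w with hx2 | hx2
    · rw [max_eq_right hx2, sub_self, abs_zero]
      exact hη0
    · rw [max_eq_left hx2, abs_le]
      constructor <;> linarith
  · rw [min_eq_left hx1, max_eq_right (by norm_num), abs_le]
    constructor <;> linarith

/-- **The gradient of the closed chart of the window** on the boxes of the frame of the ball. -/
theorem W_lip1 (D r : ℕ) : ∃ C : ℕ, ∀ {m J : ℕ} {F : Fam m J} {c : ℕ → Fin m}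
    {n M ar MB q₀ Q x u p e : ℕ} {s : ℕ → ℕ} {qe : Fin r → ℕ} {o : ℕ → ℕ}
    {z g gc gT g₀ : ℕ → ℕ → ℕ} {B : F.Ω → Prop}
    {G T : ℕ → PtT F → ℕ → MvPolynomial (Option (Fin m)) ℝ}
    {H TH : ℕ → LnT F → ℕ → MvPolynomial (Option (Fin m)) ℝ}
    {Ht : LnT F → MvPolynomial (Option (Fin m)) ℝ},
    Wdat F c r D n M ar MB q₀ Q x u p e s qe o z g gc gT g₀ B G T H TH Ht → 4 * x ≤ Q →
    ∀ ω, B ω → ∀ b : Option (Fin m) → ℝ,
    NBx c (fun l => Gno (c l) J J (fun y => G 0 y l) (ptr F J ω)) (fun l => g 0 l + (o 2 - o 0))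
      (o 2) (F.t ω) r b → ∀ l < r,
    |eval b (pderiv (some (c l)) (H 1 (slam F (o 1) ω) r))| ≤
      2 ^ (C * (u + x + 1)) * 2 ^ (e + nlp (g₀ 1) l r) := by
  obtain ⟨C, hfb⟩ := frm_box D r
  refine ⟨2 * C, ?_⟩
  intro m J F c n M ar MB q₀ Q x u p e s qe o z g gc gT g₀ B G T H TH Ht W hxQ ω hω b hb l hl
  rw [← W.cl1 ω hω]
  have h01 : o 0 ≤ o 1 := by have := W.o1; omega
  have h12 : o 1 ≤ o 2 := by have := W.o2; omega
  obtain ⟨q, hq, hz⟩ := W.z01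
  have h4 : ∀ i : ℕ, DepC c i (Gno (c i) J J (fun y => G 0 y i) (ptr F J ω)) := fun i =>
    W.rad0.depG (ptr F J ω) i
  have h1 := hfb (c := c) (a := o 1) (p := u + x) (q := 0) (t := F.t ω)
    (Gb := G 1 (ptr F J ω)) (ψ := fun l => Gno (c l) J J (fun y => G 0 y l) (ptr F J ω))
    (gb := g₀ 1) (g' := g₀ 1) (R := pderiv (some (c l)) (G 1 (ptr F J ω) r))
    (M := 2 ^ (e + nlp (g₀ 1) l r)) W.hcr (fun i => W.dG 1 _ i) (fun i => W.pG 1 _ i)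
    (fun i => W.rad0.degG (ptr F J ω) i) h4 ((W.pG 1 _ r).pderiv l)
    ((pd_deg _ _).trans (W.dG 1 _ r)) (by positivity) (fun i _ => le_rfl)
    (fun i _ => le_rfl) (fun i hi b' hb' => by
      refine (W.bal.bal 0 (by have := W.n3; omega) 1 (by have := W.n3; omega) q hq h01 hz ω hω i
        hi.le b' hb').trans ?_
      rw [div_le_div_iff₀ (by positivity) (by positivity), ← pow_add, ← pow_add]
      refine pow_le_pow_right₀ (by norm_num) ?_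
      have := W.n1c i hi
      omega)
    (fun b' hb' => W.ch1.lip ω hω r (Nat.lt_succ_self r) b' hb' l hl) b ?_
  · refine h1.trans (mul_le_mul_of_nonneg_right (pow_le_pow_right₀ (by norm_num) ?_)
      (by positivity))
    nlinarith
  · refine ⟨hb.1.trans (one_div_le_one_div_of_le (by positivity)
      (pow_le_pow_right₀ (by norm_num) h12)), fun i hi => (hb.2 i hi).trans
      (one_div_le_one_div_of_le (by positivity) (pow_le_pow_right₀ (by norm_num) ?_))⟩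
    have := W.n1d i hi
    have := W.n2b i hi
    have := W.n2c i hi
    show g₀ 1 i ≤ g 0 i + (o 2 - o 0)
    omega

end Pool.V1E
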