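import Pool.Agent.H73.D2.Tlr

/-!
# The windows of the end and the class theorem

`WW`: the four windows `o 0 < o 1 < o 2 < o 3` of one radius, with `Wins` and `Wdat`, numbers in terms
of one loss `η₀`. `HIm`: the labels of the tubes of the precision of the balls exist on a large part of
each such event. `x10_con`: then the closed labels are not worse than the balls.
-/

set_option autoImplicit false

namespace Pool.V1E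

open Finset Real MvPolynomial
open Pool.Agent.H49.Ent Pool.Agent.H32.Dense Pool.STK Pool.KA Pool.KSAT Pool.K2S Pool.PB Pool.S6C
open Pool.GEN Pool.CHT Pool.CHX Pool.ISO Pool.D2R Pool.D2G30 Pool.END18 Pool.D2Con
open Pool.LBT (ThrOf)
open Pool.LEV (Law)
open Pool.NLB46 (Lab lab_no)

variable {m : ℕ}

/-- The selection of the first four windows. -/
def sel4 : ℕ → ℕ := fun k => min k 3

/-- The precision of the closed label of the target, for the radius `a`. -/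
noncomputable def prW (C a η₀ : ℝ) (Pt : ℝ → ℝ → ℝ) (lr : ℕ → ℝ) (o : ℕ → ℝ) : ℝ :=
  min (Pt a (o 1) - 3 * (C * η₀)) (lr 3 + (a - o 3) - 3 * (C * η₀))

/-- **The four windows** on one event. `lv`: the levels, `be`: the levels of the thin labels, `Pt`:
the law of the target. -/
structure WW (c : ℕ → Fin m) (r D Dr : ℕ) (C a Eb ε₀ η₀ ζ mb : ℝ) (Pt : ℝ → ℝ → ℝ) (o : ℕ → ℝ)
    (lv be : ℕ → ℕ → ℝ) {J : ℕ} (F : Fam m J) (b : ℕ → ℕ → ℝ) (κ : ℝ) (z : ℕ → ℕ → ℕ)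
    (qe : Fin r → ℕ) (B : F.Ω → Prop) (gc gT g₀ : ℕ → ℕ → ℕ)
    (G : ℕ → PtT F → ℕ → MvPolynomial (Option (Fin m)) ℝ)
    (H : ℕ → LnT F → ℕ → MvPolynomial (Option (Fin m)) ℝ)
    (T : ℕ → PtT F → ℕ → MvPolynomial (Option (Fin m)) ℝ)
    (TH : ℕ → LnT F → ℕ → MvPolynomial (Option (Fin m)) ℝ)
    (Gt : ℕ → PtT F → MvPolynomial (Option (Fin m)) ℝ)
    (Ht : ℕ → LnT F → MvPolynomial (Option (Fin m)) ℝ) : Prop where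
  win : Wins F c r D Dr 3 2 (fun _ => True) C a Eb η₀ o (fun _ => ε₀)
    (fun k => Pt a (o k) - 2 * (C * η₀)) (fun _ => η₀) (fun _ => η₀) lv be b κ z B gc gT g₀ G H T
    TH Gt Ht
  wd : Wdat F c r D 3 2 ⌊a * J⌋₊ ⌊mb * J⌋₊ (⌊o 1 * J⌋₊ - ⌊o 0 * J⌋₊)
    (⌊o 2 * J⌋₊ - ⌊o 1 * J⌋₊) (⌊(2 * (ζ + 3 * (C * η₀)) + η₀) * J⌋₊ + 20)
    (⌊C * (η₀ * J)⌋₊ + 1) ⌊prW C a η₀ Pt (fun k => lv k r) o * J⌋₊ ⌊(Eb + 2 * η₀) * J⌋₊
    (fun l => ⌊lv 1 l * J⌋₊) qe (fun k => ⌊o (sel4 k) * J⌋₊) (fun k => z (sel4 k))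
    (fun k l => ⌊b (sel4 k) l * J⌋₊) (fun k => gc (sel4 k)) (fun k => gT (sel4 k))
    (fun k => g₀ (sel4 k)) B (fun k => G (sel4 k)) (fun k => T (sel4 k)) (fun k => H (sel4 k))
    (fun k => TH (sel4 k)) (Ht 1)

/-- **The labels of the tubes of the precision of the balls** exist on a part of mass at least
`1 / K₂` of each event with the windows `WW`. -/
def HIm (S : PCl m) (c : ℕ → Fin m) (r D Dr K D' : ℕ) (C a Eb ε₀ η₀ ζ mb : ℝ) (Pt : ℝ → ℝ → ℝ)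
    (o : ℕ → ℝ) (lv be : ℕ → ℕ → ℝ) (κ : ℝ) (qf : ℕ → Fin r → ℕ) (δ K₂ : ℝ) : Prop :=
  Bas S (fun J F B => ∀ (b : ℕ → ℕ → ℝ) (z : ℕ → ℕ → ℕ) (gc gT g₀ : ℕ → ℕ → ℕ)
    (G : ℕ → PtT F → ℕ → MvPolynomial (Option (Fin m)) ℝ)
    (H : ℕ → LnT F → ℕ → MvPolynomial (Option (Fin m)) ℝ)
    (T : ℕ → PtT F → ℕ → MvPolynomial (Option (Fin m)) ℝ)
    (TH : ℕ → LnT F → ℕ → MvPolynomial (Option (Fin m)) ℝ)
    (Gt : ℕ → PtT F → MvPolynomial (Option (Fin m)) ℝ)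
    (Ht : ℕ → LnT F → MvPolynomial (Option (Fin m)) ℝ),
    WW c r D Dr C a Eb ε₀ η₀ ζ mb Pt o lv be F b κ z (qf J) B gc gT g₀ G H T TH Gt Ht →
    ∃ (B₂ : F.Ω → Prop) (V V' : Type) (v : F.Ω → V) (v' : F.Ω → V') (ξ : LnT F → Fin r → ℝ)
      (np : LnT F → Polynomial ℝ) (Pn : LnT F → Gr K r → Polynomial ℝ), Sub B₂ B ∧
      Pe F.p B ≤ K₂ * Pe F.p B₂ ∧
      ImC K r D' (⌊o 2 * J⌋₊ - ⌊o 1 * J⌋₊) ⌊mb * J⌋₊ (2 ^ (J - ⌊o 1 * J⌋₊)) δ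
        (Pool.Agent.H49.Ent.cond F.p B₂ True) (slam F ⌊o 1 * J⌋₊) (twF F ⌊o 1 * J⌋₊)
        (kzF F c (fun l => ⌊lv 1 l * J⌋₊) r ⌊o 1 * J⌋₊ (⌊o 2 * J⌋₊ - ⌊o 1 * J⌋₊) v v' (G 0)
          (fun y => G 1 y r) (fun y => G 2 y r))
        (Pfz c (fun l => ⌊lv 1 l * J⌋₊) r (⌊o 2 * J⌋₊ - ⌊o 1 * J⌋₊) J D)
        (scF F c (fun l => ⌊lv 1 l * J⌋₊) r ⌊o 1 * J⌋₊ (⌊o 1 * J⌋₊ - ⌊o 0 * J⌋₊)
          (⌊o 2 * J⌋₊ - ⌊o 1 * J⌋₊) (qf J) (G 0) (H 0)) ξ np Pn)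

end Pool.V1E
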