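import Pool.Agent.H73.D2.Tls

/-!
# The class theorem of the end

`x10_con`.
-/

set_option autoImplicit false

namespace Pool.V1E

open Finset Real MvPolynomial
open Pool.Agent.H49.Ent Pool.Agent.H32.Dense Pool.STK Pool.KA Pool.KSAT Pool.K2S Pool.PB Pool.S6C
open Pool.GEN Pool.CHT Pool.CHX Pool.ISO Pool.D2R Pool.D2G30 Pool.END18 Pool.D2Con
open Pool.LBT (ThrOf)
open Pool.LEV (Law)
open Pool.NLB46 (Lab lab_no)

/-- **The end, in a class.** -/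
theorem x10_con (m r S₀ : ℕ) (hr : 1 ≤ r) (hS₀ : 1 ≤ S₀) : ∃ D : ℕ, 1 ≤ D ∧ ∀ Dr : ℕ, D ≤ Dr →
    ∃ (K D' : ℕ) (C : ℝ), 1 ≤ K ∧ 1 ≤ C ∧ D * (D + 1) ^ r ≤ K ∧ K * (D + 1) ≤ D' ∧ D + 1 ≤ D' ∧
    ∀ ε : ℝ, 0 < ε → ε ≤ 1 / 2 → ∃ δ C' : ℝ, 0 < δ ∧ δ ≤ 1 / 4 ∧ 1 ≤ C' ∧
    ∀ {S : PCl m} {P P₂ : List (Fin m) × Fin m → ℝ → ℝ → ℝ} {θ θ₂ : ℝ} {c : ℕ → Fin m}
    {Pt : ℝ → ℝ → ℝ} {a Eb ε₀ η₀ mb ζ h e₂ κ K₂ : ℝ} {o : ℕ → ℝ} {a₂ w₂ : ℚ}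
    {qf : ℕ → Fin r → ℕ}, S.Ne → ThrOf (chsys m θ) S P → ThrOf (chsys m θ₂) S P₂ → 0 < θ →
    TmH S → Set.InjOn c (Set.Iio (r + 1)) → Law Pt → 0 ≤ Eb →
    (∀ k ≤ 3, WinD S P θ c r Pt a (o k) S₀ Eb ε₀ (fun _ => True)) → C * ε₀ < η₀ →
    (∀ k ≤ 3, 3 * (C * η₀) ≤ o k ∧ 3 * (C * η₀) ≤ Pt a (o k) ∧
      3 * (C * η₀) ≤ lvN P c r Pt r (o k) (o k)) → η₀ < a → a ≤ 1 →
    (∀ k ≤ 3, ∀ l ≤ r, lvN P c r Pt l (o k) (o k) + (a - o k) + (Eb + 2 * η₀) < 1) →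
    (∀ k ≤ 3, ∀ l < r, bet P c l a (o k) + (Eb + 2 * η₀) < 1) →
    mb + (o 2 - o 1) < o 1 - o 0 → o 2 - o 1 < mb → η₀ ≤ o 3 - o 2 → η₀ ≤ a - o 3 → 0 ≤ ζ →
    (∀ k ≤ 3, ∀ j < r, |lvN P c r Pt j (o k) (o k) - o k -
      (lvN P c r Pt j (o 1) (o 1) - o 1)| ≤ ζ) →
    |lvN P c r Pt r (o 2) (o 2) - lvN P c r Pt r (o 1) (o 1) - mb| ≤ ζ →
    lvN P c r Pt r (o 1) (o 1) + (o 3 - o 1) + (mb - (o 2 - o 1)) ≤
      lvN P c r Pt r (o 3) (o 3) + ζ →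
    lvN P c r Pt r (o 1) (o 1) + (a - o 1) + (mb - (o 2 - o 1)) ≤ Pt a (o 1) + ζ →
    C' * (ζ + η₀) < δ * (o 2 - o 1) → o 1 ≤ w₂ → o 2 < a₂ → w₂ ≤ a₂ → a₂ ≤ 1 → e₂ < θ₂ * w₂ →
    0 < h → bet P₂ c r a₂ w₂ + h ≤ 1 → Eb + 2 * mb + C' * (ζ + η₀) ≤ e₂ →
    (∀ l < r, lvN P c r Pt l (o 1) (o 1) + (o 2 - o 1) + C' * (ζ + η₀) ≤ 1) →
    lvN P c r Pt r (o 1) (o 1) + mb ≤ 1 → o 1 + 2 * (o 2 - o 1) + η₀ ≤ 1 →
    bet P₂ c r a₂ w₂ + h + o 2 + ε * (o 2 - o 1) + C' * (ζ + η₀) ≤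
      lvN P c r Pt r (o 1) (o 1) + mb + a₂ →
    (∀ (J : ℕ) (i : Fin r), ⌊mb * J⌋₊ + (⌊o 2 * J⌋₊ - ⌊o 1 * J⌋₊) ≤ qf J i) → 0 < κ → 0 ≤ K₂ →
    ¬ HIm S c r D Dr K D' C a Eb ε₀ η₀ ζ mb Pt o (fun k l => lvN P c r Pt l (o k) (o k))
      (fun k l => bet P c l a (o k)) κ qf δ K₂ := by
  obtain ⟨D, hD, htld⟩ := tld_con m r S₀ hr hS₀
  refine ⟨D, hD, fun Dr hDr => ?_⟩
  obtain ⟨C, hC, htld⟩ := htld Dr hDr
  obtain ⟨K, hK⟩ : ∃ K, K = D * (D + 1) ^ r := ⟨_, rfl⟩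
  have hK1 : 1 ≤ K := by
    rw [hK]
    exact Nat.one_le_iff_ne_zero.2 (Nat.mul_ne_zero (by omega) (pow_ne_zero _ (by omega)))
  obtain ⟨D', hD'⟩ : ∃ D', D' = K * (D + 1) := ⟨_, rfl⟩
  have hD2 : D + 1 ≤ D' := by
    rw [hD']
    exact Nat.le_mul_of_pos_left _ hK1
  refine ⟨K, D', C, hK1, hC, hK.ge, hD'.ge, hD2, fun ε hε hε2 => ?_⟩
  obtain ⟨Ct, hCt, htld⟩ := htld K hK1 hK.ge
  obtain ⟨C₀, C₁, δ₀, δ₀0, δ₀ε, Q₀, hend⟩ := wd_end D r K D' hr hD hK1 hK.ge hD'.ge hD2 hε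
  obtain ⟨δ, hδ⟩ : ∃ δ : ℝ, δ = min δ₀ (1 / 4) := ⟨_, rfl⟩
  have δ0 : 0 < δ := by rw [hδ]; exact lt_min δ₀0 (by norm_num)
  have δ4 : δ ≤ 1 / 4 := by rw [hδ]; exact min_le_right _ _
  have δδ₀ : δ ≤ δ₀ := by rw [hδ]; exact min_le_left _ _
  obtain ⟨C', hC'⟩ : ∃ C' : ℝ, C' = 8 * C * (C₁ + 2 * (K * r) + 4) + 4 * Ct * C + 8 := ⟨_, rfl⟩
  have hC₁0 : (0 : ℝ) ≤ C₁ := Nat.cast_nonneg _
  have hKr0 : (0 : ℝ) ≤ K * r := by positivity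
  have hC'1 : 1 ≤ C' := by
    rw [hC']
    have : 0 ≤ 8 * C * (C₁ + 2 * (K * r) + 4) := by positivity
    have : 0 ≤ 4 * Ct * C := by positivity
    linarith
  refine ⟨δ, C', δ0, δ4, hC'1, ?_⟩
  intro S P P₂ θ θ₂ c Pt a Eb ε₀ η₀ mb ζ h e₂ κ K₂ o a₂ w₂ qf hne hP hP₂ hθ hS hinj hPt hEb hW hεη
    h3o hηa ha1 htop hbet h01 h12 h23 h3a hζ hn h2 h3 hPa hsm h1w h2a hwa ha₂ he₂ hh hb2 hE hrm hrm'
    h1J hlab hqf hκ hK₂ hIm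
  have hε₀ : 0 ≤ ε₀ := (hW 0 (by norm_num)).ε0
  have hη0 : 0 < η₀ := lt_of_le_of_lt (mul_nonneg (by linarith) hε₀) hεη
  have hCη : η₀ ≤ C * η₀ := le_mul_of_one_le_left hη0.le hC
  obtain ⟨lv, hlv⟩ : ∃ lv : ℕ → ℕ → ℝ, lv = fun k l => lvN P c r Pt l (o k) (o k) := ⟨_, rfl⟩
  have hlve : ∀ k l, lvN P c r Pt l (o k) (o k) = lv k l := fun k l => by rw [hlv]
  obtain ⟨X, hX⟩ : ∃ X : ℝ, X = ζ + η₀ := ⟨_, rfl⟩
  have hX0 : 0 < X := by rw [hX]; linarith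
  have hηX : η₀ ≤ X := by rw [hX]; linarith
  have hζX : ζ ≤ X := by rw [hX]; linarith
  have hCX : X ≤ C * X := le_mul_of_one_le_left hX0.le hC
  have hCηX : C * η₀ ≤ C * X := mul_le_mul_of_nonneg_left hηX (by linarith)
  have hξ0 : 0 ≤ ζ + 3 * (C * η₀) := by linarith
  obtain ⟨pr, hpr⟩ : ∃ pr : ℝ, pr = prW C a η₀ Pt (fun k => lv k r) o := ⟨_, rfl⟩
  have hprd : pr = min (Pt a (o 1) - 3 * (C * η₀)) (lv 3 r + (a - o 3) - 3 * (C * η₀)) := hpr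
  rw [← hX] at hsm hE hlab
  simp only [← hX, hlve] at h3o htop hn h2 h3 hPa hrm hrm' hlab
  have hpr1 : pr ≤ Pt a (o 1) - 3 * (C * η₀) := by rw [hprd]; exact min_le_left _ _
  have hpr2 : pr ≤ lv 3 r + (a - o 3) - 3 * (C * η₀) := by rw [hprd]; exact min_le_right _ _
  have hpr0 : 0 ≤ pr := by
    rw [hprd]
    refine le_min ?_ ?_
    · linarith [(h3o 1 (by norm_num)).2.1]
    · linarith [(h3o 3 (by norm_num)).2.2]
  have hprg : lv 1 r + (a - o 1) + (mb - (o 2 - o 1)) ≤ pr + (ζ + 3 * (C * η₀)) := by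
    rcases min_choice (Pt a (o 1) - 3 * (C * η₀)) (lv 3 r + (a - o 3) - 3 * (C * η₀)) with h4 | h4
    · rw [hprd, h4]
      linarith
    · rw [hprd, h4]
      linarith
  have h2' := abs_le.1 h2
  -- the constants
  have hC'X : C' * X = 8 * C * C₁ * X + 16 * (K * r) * (C * X) + 32 * (C * X) +
      4 * Ct * C * X + 8 * X := by
    rw [hC']
    ring
  have hC'a : 8 * C * C₁ * X + 16 * (K * r) * (C * X) + 32 * (C * X) ≤ C' * X := by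
    have : 0 ≤ 4 * Ct * C * X := by positivity
    linarith
  have hC'b : 4 * Ct * C * X ≤ C' * X := by
    have h4 : 0 ≤ 8 * C * C₁ * X := by positivity
    have h5 : 0 ≤ 16 * (K * r) * (C * X) := by positivity
    have h6 : 0 ≤ 32 * (C * X) := by positivity
    linarith
  have hKrX : 0 ≤ 16 * (K * r) * (C * X) := by positivity
  have hC₁X : 0 ≤ 8 * C * C₁ * X := by positivity
  have hQ12 : 0 < o 2 - o 1 := by
    by_contra hcon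
    push Not at hcon
    have h4 : δ * (o 2 - o 1) ≤ 0 := mul_nonpos_of_nonneg_of_nonpos δ0.le hcon
    have h5 : 0 < C' * X := by positivity
    linarith
  have hδQ4 : δ * (o 2 - o 1) ≤ (o 2 - o 1) / 4 := by
    have h4 := mul_le_mul_of_nonneg_right δ4 hQ12.le
    linarith
  -- the statement of the windows
  obtain ⟨K₁, μ, b, hK₁, hμb, htld⟩ := htld (S := S) (P := P) (θ := θ) (c := c) (Pt := Pt)
    (R := fun _ => True) (a := a) (Eb := Eb) (ηm := η₀) (o := o) (ε := fun _ => ε₀)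
    (p' := fun k => Pt a (o k) - 2 * (C * η₀)) (η := fun _ => η₀) (σ := fun _ => η₀)
    (r₀ := fun _ => η₀ / 2) 3 2 hP hθ hS hinj hPt hEb hW
    (fun k hk => ⟨by linarith [(h3o k hk).1], hεη, by linarith [(h3o k hk).1]⟩)
    (fun k hk => ⟨by linarith [(h3o k hk).2.1], by linarith⟩)
    (fun k hk => ⟨hη0, le_rfl, by linarith, hηa, le_rfl⟩)
    (fun k hk l hl => by
      have := htop k hk l hl
      rw [hlve]
      linarith)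
    (fun k hk l hl => by linarith [hbet k hk l hl])
    sel4 (ζ + 3 * (C * η₀)) mb pr (δ * 1) (fun k => min_le_right _ _) (fun _ _ => trivial) ha1
    (by show o 0 ≤ o 1; linarith) (by show o 1 ≤ o 2; linarith) (by show o 2 ≤ o 3; linarith)
    hξ0 (by linarith) hpr0 (by linarith)
    (fun k hk j hj => by
      have hk' : sel4 k = k := min_eq_left hk
      rw [hk']
      show |lvN P c r Pt j (o k) (o k) - o k - (lvN P c r Pt j (o 1) (o 1) - o 1)| ≤ _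
      rw [hlve, hlve]
      linarith [hn k hk j hj])
    (by
      show lvN P c r Pt r (o 1) (o 1) + mb ≤ lvN P c r Pt r (o 2) (o 2) + _
      rw [hlve, hlve]
      linarith)
    (by
      show lvN P c r Pt r (o 1) (o 1) + (o 3 - o 1) + (mb - (o 2 - o 1)) ≤
        lvN P c r Pt r (o 3) (o 3) + _
      rw [hlve, hlve]
      linarith)
    (by show pr + C * η₀ ≤ Pt a (o 1) - 2 * (C * η₀); linarith)
    (by
      show pr + C * η₀ + η₀ < lvN P c r Pt r (o 3) (o 3) + (a - o 3)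
      rw [hlve]
      linarith)
    (by
      show lvN P c r Pt r (o 1) (o 1) + (a - o 1) + (mb - (o 2 - o 1)) ≤ pr + _
      rw [hlve]
      exact hprg)
    (by show o 2 - o 1 < mb; exact h12) (by show mb + (o 2 - o 1) < o 1 - o 0; exact h01)
    (by
      show Ct * (ζ + 3 * (C * η₀) + η₀) < δ * 1 * (o 2 - o 1)
      have h4 : ζ + 3 * (C * η₀) + η₀ ≤ 4 * (C * X) := by
        have : ζ + η₀ ≤ C * X := by rw [← hX]; exact hCX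
        linarith
      have h5 := mul_le_mul_of_nonneg_left h4 (by linarith : (0 : ℝ) ≤ Ct)
      have h6 : Ct * (4 * (C * X)) = 4 * Ct * C * X := by ring
      linarith)
  -- the events
  have hw₂0 : (0 : ℝ) ≤ w₂ := le_trans (by linarith [(h3o 1 (by norm_num)).1]) h1w
  have hdq : 0 < δ * (o 2 - o 1) / 2 := by positivity
  obtain ⟨δl, hδl, hln⟩ := lab_no hP₂ c r (D + r * (K * D) + D') a₂ w₂ e₂ h
    (by exact_mod_cast hw₂0) hwa ha₂ he₂ hh hb2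
  obtain ⟨τ, hτ, J₁, hall⟩ := ((htld κ hκ).and (bas_big hIm K₁)).and
    ((bas_big (tmh_cond hS hdq) (K₁ * K₂)).and (bas_big hln (K₁ * K₂)))
  obtain ⟨W₀, hW₀⟩ : ∃ W₀ : ℝ, W₀ = 22 * C₁ + 40 * (K * r) + C₀ + Q₀ + 100 := ⟨_, rfl⟩
  have big : ∀ {x y : ℝ}, 0 < x → ∃ J₀ : ℕ, ∀ J : ℕ, J₀ ≤ J → y ≤ x * J := by
    intro x y hx
    refine ⟨⌈y / x⌉₊, fun J hJ => ?_⟩
    have h1 : y / x ≤ J := (Nat.le_ceil _).trans (by exact_mod_cast hJ)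
    rw [div_le_iff₀ hx] at h1
    linarith
  obtain ⟨J₂, hJ₂⟩ := big (x := η₀) (y := W₀) hη0
  obtain ⟨J₃, hJ₃⟩ := big (x := (a₂ : ℝ) - o 2) (y := 2) (by linarith)
  obtain ⟨J₄, hJ₄⟩ := big (x := δl) (y := Real.log 2) hδl
  obtain ⟨J, hJ, F, A, hA⟩ := hne τ hτ (max J₁ (max J₂ (max J₃ J₄)))
  obtain ⟨⟨w1, w2⟩, w3, w4⟩ := hall J ((le_max_left _ _).trans hJ) F A hA
  have j2 := hJ₂ J ((le_max_left _ _).trans ((le_max_right _ _).trans hJ))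
  have j3 := hJ₃ J ((le_max_left _ _).trans ((le_max_right _ _).trans ((le_max_right _ _).trans hJ)))
  have j4 := hJ₄ J ((le_max_right _ _).trans ((le_max_right _ _).trans ((le_max_right _ _).trans hJ)))
  have hJ0 : (0 : ℝ) ≤ J := Nat.cast_nonneg J
  have mulJ : ∀ {x y : ℝ}, x ≤ y → x * J ≤ y * J := fun h => mul_le_mul_of_nonneg_right h hJ0
  have hC₀0 : (0 : ℝ) ≤ C₀ := Nat.cast_nonneg _
  have hQ₀0 : (0 : ℝ) ≤ Q₀ := Nat.cast_nonneg _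
  have ho0 : ∀ k ≤ 3, 0 ≤ o k * J := fun k hk =>
    mul_nonneg (by linarith [(h3o k hk).1]) hJ0
  have fo := fun k hk => flo (ho0 k hk)
  have f0 := fo 0 (by norm_num)
  have f1 := fo 1 (by norm_num)
  have f2 := fo 2 (by norm_num)
  have f3 := fo 3 (by norm_num)
  have fa := flo (mul_nonneg (by linarith : (0 : ℝ) ≤ a) hJ0)
  have l01 : ⌊o 0 * J⌋₊ ≤ ⌊o 1 * J⌋₊ := Nat.floor_le_floor (mulJ (by linarith))
  have l12 : ⌊o 1 * J⌋₊ ≤ ⌊o 2 * J⌋₊ := Nat.floor_le_floor (mulJ (by linarith))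
  have l23 : ⌊o 2 * J⌋₊ ≤ ⌊o 3 * J⌋₊ := Nat.floor_le_floor (mulJ (by linarith))
  have l3a : ⌊o 3 * J⌋₊ ≤ ⌊a * J⌋₊ := Nat.floor_le_floor (mulJ (by linarith))
  have hdiff : ∀ {x y : ℝ}, 0 ≤ x * J → 0 ≤ y * J → ⌊x * J⌋₊ ≤ ⌊y * J⌋₊ → η₀ ≤ y - x →
      η₀ / 2 * J ≤ ((⌊y * J⌋₊ - ⌊x * J⌋₊ : ℕ) : ℝ) := by
    intro x y hx hy hxy h4
    rw [Nat.cast_sub hxy]
    have h5 := mulJ h4
    have h6 := flo hx
    have h7 := flo hy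
    rw [hW₀] at j2
    linarith [h6.1, h7.2]
  -- the radii
  obtain ⟨z, hz⟩ : ∃ z : ℕ → ℕ → ℕ, z = fun k i =>
      if k = 0 then (if i = 0 then ⌊o 1 * J⌋₊ - ⌊o 0 * J⌋₊ else
        if i = 1 then ⌊o 2 * J⌋₊ - ⌊o 0 * J⌋₊ else ⌊o 3 * J⌋₊ - ⌊o 0 * J⌋₊) else
      if k = 1 then ⌊o 2 * J⌋₊ - ⌊o 1 * J⌋₊ else
      if k = 2 then ⌊o 3 * J⌋₊ - ⌊o 2 * J⌋₊ else ⌊a * J⌋₊ - ⌊o 3 * J⌋₊ := ⟨_, rfl⟩
  have q0 := ho0 0 (by norm_num)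
  have q1 := ho0 1 (by norm_num)
  have q2 := ho0 2 (by norm_num)
  have q3 := ho0 3 (by norm_num)
  have qa : 0 ≤ a * J := mul_nonneg (by linarith) hJ0
  have hη12 : η₀ ≤ o 2 - o 1 := by
    have h4 : η₀ ≤ C' * X := hηX.trans (le_mul_of_one_le_left hX0.le hC'1)
    linarith
  have hzr : ∀ k ≤ 3, ∀ i ≤ 2, η₀ / 2 * J ≤ z k i ∧ z k i ≤ ⌊a * J⌋₊ - ⌊o k * J⌋₊ := by
    intro k hk i hi
    rw [hz]
    interval_cases k
    · interval_cases i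
      · exact ⟨hdiff q0 q1 l01 (by linarith), by show ⌊o 1 * (J : ℝ)⌋₊ - _ ≤ _; omega⟩
      · exact ⟨hdiff q0 q2 (by omega) (by linarith), by show ⌊o 2 * (J : ℝ)⌋₊ - _ ≤ _; omega⟩
      · exact ⟨hdiff q0 q3 (by omega) (by linarith), by show ⌊o 3 * (J : ℝ)⌋₊ - _ ≤ _; omega⟩
    · exact ⟨hdiff q1 q2 l12 hη12, by show ⌊o 2 * (J : ℝ)⌋₊ - _ ≤ _; omega⟩
    · exact ⟨hdiff q2 q3 l23 h23, by show ⌊o 3 * (J : ℝ)⌋₊ - _ ≤ _; omega⟩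
    · exact ⟨hdiff q3 qa l3a h3a, le_rfl⟩
  obtain ⟨B, gc, gT, g₀, G, H, T, TH, Gt, Ht, Y, hB, hPB, W, Wd, -, -⟩ := w1 z hzr
    ⟨0, by norm_num, by rw [hz]; rfl⟩ ⟨1, by norm_num, by rw [hz]; rfl⟩
    ⟨2, by norm_num, by rw [hz]; rfl⟩ ⟨0, by norm_num, by rw [hz]; rfl⟩
    ⟨0, by norm_num, by rw [hz]; rfl⟩ (qf J) (hqf J)
  have hWW : WW c r D Dr C a Eb ε₀ η₀ ζ mb Pt o (fun k l => lvN P c r Pt l (o k) (o k))
      (fun k l => bet P c l a (o k)) F b κ z (qf J) B gc gT g₀ G H T TH Gt Ht := by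
    refine ⟨W, ?_⟩
    rw [hpr, hlv] at Wd
    exact Wd
  obtain ⟨B₂, V, V', v, v', ξ, np, Pn, hB₂, hPB₂, him⟩ := w2 B hB hPB b z gc gT g₀ G H T TH Gt Ht
    hWW
  have hB₂A : Sub B₂ A := fun ω hω => hB ω (hB₂ ω hω)
  have hPA : Pe F.p A ≤ K₁ * K₂ * Pe F.p B₂ := by
    rw [mul_assoc]
    exact hPB.trans (mul_le_mul_of_nonneg_left hPB₂ hK₁.le)
  obtain ⟨hP0, htf⟩ := w3 B₂ hB₂A hPA
  have Wd' := hWW.wd.sub hB₂
  obtain ⟨Q, hQ⟩ : ∃ Q : ℕ, Q = ⌊o 2 * J⌋₊ - ⌊o 1 * J⌋₊ := ⟨_, rfl⟩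
  obtain ⟨x, hx⟩ : ∃ x : ℕ, x = ⌊(2 * (ζ + 3 * (C * η₀)) + η₀) * J⌋₊ + 20 := ⟨_, rfl⟩
  obtain ⟨u, hu⟩ : ∃ u : ℕ, u = ⌊C * (η₀ * J)⌋₊ + 1 := ⟨_, rfl⟩
  obtain ⟨e, he⟩ : ∃ e : ℕ, e = ⌊(Eb + 2 * η₀) * J⌋₊ := ⟨_, rfl⟩
  obtain ⟨MB, hMB⟩ : ∃ MB : ℕ, MB = ⌊mb * J⌋₊ := ⟨_, rfl⟩
  obtain ⟨sr, hsr⟩ : ∃ sr : ℕ, sr = ⌊lvN P c r Pt r (o 1) (o 1) * J⌋₊ := ⟨_, rfl⟩
  rw [← hQ, ← hx, ← hu, ← he, ← hMB] at Wd'
  rw [← hQ, ← hMB] at him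
  have hQr : (Q : ℝ) = ⌊o 2 * J⌋₊ - ⌊o 1 * J⌋₊ := by rw [hQ, Nat.cast_sub l12]
  have hQl : (o 2 - o 1) * J - 1 ≤ Q := by rw [hQr]; linarith [f1.2, f2.2, f1.1, f2.1]
  have hQu : (Q : ℝ) ≤ (o 2 - o 1) * J + 1 := by rw [hQr]; linarith [f1.2, f2.2, f1.1, f2.1]
  have hMl : mb * J - 1 ≤ MB := by
    rw [hMB]
    exact (flo (mul_nonneg (by linarith) hJ0)).2
  have hMu : (MB : ℝ) ≤ mb * J := by
    rw [hMB]
    exact (flo (mul_nonneg (by linarith) hJ0)).1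
  have hCJ : η₀ * J ≤ C * X * J := mulJ (hηX.trans hCX)
  have hW0J : W₀ ≤ C * X * J := j2.trans hCJ
  have hKr40 : 0 ≤ 40 * ((K : ℝ) * r) := by positivity
  have h22 : 0 ≤ 22 * (C₁ : ℝ) := by positivity
  have hxu : (x : ℝ) ≤ 8 * (C * X) * J + 20 := by
    rw [hx]
    push_cast
    have h4 := (flo (mul_nonneg (by linarith : (0 : ℝ) ≤ 2 * (ζ + 3 * (C * η₀)) + η₀) hJ0)).1
    have h5 : 2 * (ζ + 3 * (C * η₀)) + η₀ ≤ 8 * (C * X) := by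
      have h6 : C * X = C * ζ + C * η₀ := by rw [hX]; ring
      have h7 : ζ ≤ C * ζ := le_mul_of_one_le_left hζ hC
      linarith
    linarith [mulJ h5]
  have huu : (u : ℝ) + x + 1 ≤ 8 * (C * X) * J + 22 := by
    rw [hx, hu]
    push_cast
    have h4 := (flo (mul_nonneg (by linarith : (0 : ℝ) ≤ 2 * (ζ + 3 * (C * η₀)) + η₀) hJ0)).1
    have h8 := (flo (mul_nonneg (by linarith : (0 : ℝ) ≤ C) (mul_nonneg hη0.le hJ0))).1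
    have h5 : C * η₀ + (2 * (ζ + 3 * (C * η₀)) + η₀) ≤ 8 * (C * X) := by
      have h6 : C * X = C * ζ + C * η₀ := by rw [hX]; ring
      have h7 : ζ ≤ C * ζ := le_mul_of_one_le_left hζ hC
      linarith
    have h9 := mulJ h5
    linarith
  have hC1u : (C₁ : ℝ) * (u + x + 1) ≤ 8 * C * C₁ * X * J + 22 * C₁ := by
    have h4 := mul_le_mul_of_nonneg_left huu hC₁0
    linarith
  have hsmJ : C' * X * J ≤ δ * (o 2 - o 1) * J := mulJ hsm.le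
  have hC'aJ := mulJ hC'a
  have hδQl : δ * (o 2 - o 1) * J - 1 ≤ δ * Q := by
    have h4 := mul_le_mul_of_nonneg_left hQl δ0.le
    linarith
  have hδ0Q : δ * Q ≤ δ₀ * Q := mul_le_mul_of_nonneg_right δδ₀ (Nat.cast_nonneg _)
  have hKXJ : 0 ≤ 16 * (K * r) * (C * X) * J := mul_nonneg hKrX hJ0
  have hCXJ : 0 ≤ C * X * J := by positivity
  have c1 : Q₀ ≤ Q := by
    have h4 : (Q₀ : ℝ) ≤ Q := by
      have h5 := mulJ hη12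
      rw [hW₀] at j2
      linarith
    exact_mod_cast h4
  have c2 : (C₁ : ℝ) * (u + x + 1) ≤ δ₀ * Q := by
    rw [hW₀] at hW0J
    linarith
  have c3 : ⌊o 1 * J⌋₊ + 2 * Q ≤ J := by
    have h4 : ((⌊o 1 * J⌋₊ + 2 * Q : ℕ) : ℝ) ≤ J := by
      push_cast
      have h5 := mulJ h1J
      rw [hW₀] at j2
      linarith [f1.1]
    exact_mod_cast h4
  have c6 : (J : ℝ) * Real.log 2 - δ₀ * Q ≤ CH (Pool.Agent.H49.Ent.cond F.p B₂ True) F.T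
      (fun ω => (F.l ω, F.Z ω)) := by
    refine le_trans ?_ htf
    have h5 := mulJ hη12
    rw [hW₀] at j2
    have h6 : (o 2 - o 1) * J / 2 ≤ Q := by linarith
    have h7 := mul_le_mul_of_nonneg_left h6 δ0.le
    linarith
  obtain ⟨εQ, hεQ⟩ : ∃ k : ℕ, k = ⌈ε * Q⌉₊ := ⟨_, rfl⟩
  have hεQ0 : 0 ≤ ε * (Q : ℝ) := by positivity
  have hεQl : ε * (Q : ℝ) ≤ εQ := by rw [hεQ]; exact Nat.le_ceil _
  have hεQu : (εQ : ℝ) ≤ ε * Q + 1 := by rw [hεQ]; exact (Nat.ceil_lt_add_one hεQ0).le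
  have hεu : ε * (Q : ℝ) ≤ ε * (o 2 - o 1) * J + 1 := by
    have h4 := mul_le_mul_of_nonneg_left hQu hε.le
    linarith
  have hε2u : ε * (o 2 - o 1) * J ≤ (o 2 - o 1) * J / 2 := by
    have h4 := mul_le_mul_of_nonneg_right hε2 (mul_nonneg hQ12.le hJ0)
    linarith
  obtain ⟨sm, hsm'⟩ : ∃ k : ℕ, k = 2 * x * K * r + C₀ := ⟨_, rfl⟩
  have hsmu : (sm : ℝ) ≤ 16 * (K * r) * (C * X) * J + 40 * (K * r) + C₀ := by
    rw [hsm']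
    push_cast
    have h4 := mul_le_mul_of_nonneg_left hxu hKr0
    linarith
  obtain ⟨p', hp'⟩ : ∃ p' : ℕ, p' = sr + MB - (sm + εQ) := ⟨_, rfl⟩
  have hδJ : δ * (o 2 - o 1) * J ≤ (o 2 - o 1) * J / 4 := by
    have h4 := mulJ hδQ4
    linarith
  have hple : sm + εQ ≤ sr + MB := by
    have h4 : ((sm + εQ : ℕ) : ℝ) ≤ ((sr + MB : ℕ) : ℝ) := by
      push_cast
      have h5 := mulJ h12.le
      have h6 : (0 : ℝ) ≤ sr := Nat.cast_nonneg _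
      have h7 : 0 ≤ 8 * C * C₁ * X * J := mul_nonneg hC₁X hJ0
      rw [hW₀] at hW0J
      linarith
    exact_mod_cast h4
  have hpe : (p' : ℝ) + (sm + εQ) = sr + MB := by
    have : p' + (sm + εQ) = sr + MB := by rw [hp']; omega
    exact_mod_cast this
  obtain ⟨e', he'⟩ : ∃ e' : ℕ, e' = e + C₁ * (u + x + 1) + (g₀ 2 r - g₀ 1 r) + MB + 1 := ⟨_, rfl⟩
  have hxKr : x ≤ 2 * x * K * r := by
    have h4 : x ≤ x * K := Nat.le_mul_of_pos_right _ hK1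
    have h5 : x * K ≤ x * K * r := Nat.le_mul_of_pos_right _ hr
    have h6 : 2 * x * K * r = 2 * (x * K * r) := by ring
    omega
  have c7 : p' ≤ g₀ 2 r := by
    have h4 : sr + MB ≤ g₀ 2 r + x := by
      have := Wd'.m2
      rw [← hsr] at this
      exact this
    omega
  have c8 : e + C₁ * (u + x + 1) + (g₀ 2 r - g₀ 1 r) + 1 ≤ e' := by omega
  have c9 : (p' : ℝ) + (2 * x * K * r + C₀ : ℕ) + ε * Q ≤ sr + MB := by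
    rw [← hsm']
    linarith
  have c10 : ((e + C₁ * (u + x + 1) + (g₀ 2 r - g₀ 1 r) : ℕ) : ℝ) + p' +
      (2 * x * K * r + C₀ : ℕ) + ε * Q ≤ e' + sr := by
    have h4 : (e' : ℝ) = ((e + C₁ * (u + x + 1) + (g₀ 2 r - g₀ 1 r) : ℕ) : ℝ) + MB + 1 := by
      rw [he']
      push_cast
      ring
    rw [h4]
    linarith
  obtain ⟨B₃, hB₃, hPB₃, hch, hla⟩ := hend (e' := e') (p' := p') Wd' c1 c2 c3 hP0
    (him.mono (cond_nonneg F.isLaw.nonneg _ True) δδ₀) c6 c7 c8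
    (by
      show _ ≤ ((⌊lvN P c r Pt r (o 1) (o 1) * (J : ℝ)⌋₊ : ℕ) : ℝ) + MB
      rw [← hsr]
      exact c9)
    (by
      show _ ≤ (e' : ℝ) + ((⌊lvN P c r Pt r (o 1) (o 1) * (J : ℝ)⌋₊ : ℕ) : ℝ)
      rw [← hsr]
      exact c10)
  -- the contradiction
  have g1 : sr ≤ g₀ 1 r + x := by
    have := Wd'.m1'
    rw [hsr]
    exact this
  obtain ⟨-, -, g2l, g2u, -, -⟩ := W.g_num (k := 2) (l := r) (by norm_num) le_rfl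
  obtain ⟨-, -, g1l, g1u, -, -⟩ := W.g_num (k := 1) (l := r) (by norm_num) le_rfl
  rw [hlve] at g2l g2u g1l g1u
  have hlv1r : η₀ ≤ lv 1 r := by linarith [(h3o 1 (by norm_num)).2.2]
  have hsrl : lv 1 r * J - 1 ≤ sr := by
    rw [hsr, hlve]
    exact (flo (mul_nonneg (by linarith) hJ0)).2
  have hsru : (sr : ℝ) ≤ lv 1 r * J := by
    rw [hsr, hlve]
    exact (flo (mul_nonneg (by linarith) hJ0)).1
  have hηXJ : η₀ * J ≤ X * J := mulJ hηX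
  have hXCJ : X * J ≤ C * X * J := mulJ hCX
  have hδlJ : Real.exp (-(δl * J)) ≤ 1 / 2 := by
    rw [Real.exp_neg, inv_eq_one_div]
    refine one_div_le_one_div_of_le two_pos ?_
    have h4 := Real.exp_le_exp.2 j4
    rwa [Real.exp_log two_pos] at h4
  refine w4 B₂ hB₂A hPA (⌊o 1 * J⌋₊ + Q + 1) ⌊o 1 * J⌋₊ e' p' (fun _ => D) _ _ _ _ _ (by omega)
    ?_ ?_ ?_ (fun _ => by omega) ?_ ?_ ?_ B₃ hB₃ ?_ hch hla
  · refine Nat.le_floor ?_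
    push_cast
    rw [hQr]
    linarith [f2.1]
  · exact Nat.floor_le_floor (mulJ h1w)
  · refine Nat.le_floor ?_
    have h4 : ((g₀ 2 r - g₀ 1 r : ℕ) : ℝ) ≤ (mb + ζ + η₀) * J := by
      rcases le_total (g₀ 1 r) (g₀ 2 r) with h5 | h5
      · rw [Nat.cast_sub h5]
        have h6 : lv 2 r ≤ lv 1 r + mb + ζ := by linarith
        linarith [mulJ h6]
      · rw [Nat.sub_eq_zero_of_le h5, Nat.cast_zero]
        exact mul_nonneg (by linarith) hJ0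
    have h5 : (e : ℝ) ≤ (Eb + 2 * η₀) * J := by
      rw [he]
      exact (flo (mul_nonneg (by linarith) hJ0)).1
    rw [he']
    push_cast
    have h6 : C' * X * J ≥ (8 * C * C₁ * X + 16 * (K * r) * (C * X) + 32 * (C * X)) * J := hC'aJ
    have h7 := mulJ hE
    have h8 := mulJ hζX
    rw [hW₀] at hW0J
    linarith
  · intro l hl
    have h4 := Wd'.n2d l hl
    have h5 := mulJ (hrm l hl)
    have h6 : ((⌊lvN P c r Pt l (o 1) (o 1) * J⌋₊ : ℕ) : ℝ) ≤ lv 1 l * J ∨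
        ((⌊lvN P c r Pt l (o 1) (o 1) * J⌋₊ : ℕ) : ℝ) ≤ 0 := by
      rw [hlve]
      rcases le_or_gt 0 (lv 1 l * J) with h7 | h7
      · exact Or.inl (flo h7).1
      · refine Or.inr ?_
        rw [Nat.floor_of_nonpos h7.le, Nat.cast_zero]
    have h8 : (((⌊lvN P c r Pt l (o 1) (o 1) * J⌋₊ + Q + x : ℕ) : ℕ) : ℝ) ≤ J := by
      push_cast
      have h9 : 0 ≤ 8 * C * C₁ * X * J := mul_nonneg hC₁X hJ0
      have h10 := mulJ h1J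
      have h11 := mulJ hCη
      have h12 := mulJ (h3o 1 (by norm_num)).1
      rw [hW₀] at hW0J
      rcases h6 with h6 | h6
      · linarith
      · linarith
    have h9 : ⌊lvN P c r Pt l (o 1) (o 1) * J⌋₊ + Q + x ≤ J := by exact_mod_cast h8
    exact h4.trans h9
  · have h4 : (p' : ℝ) ≤ J := by
      have h5 := mulJ hrm'
      have h6 : (0 : ℝ) ≤ sm := Nat.cast_nonneg _
      have h7 : (0 : ℝ) ≤ εQ := Nat.cast_nonneg _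
      linarith
    exact_mod_cast h4
  · have ha2l : (a₂ : ℝ) * J - 1 ≤ (⌊(a₂ : ℝ) * J⌋₊ : ℝ) := by
      linarith [Nat.lt_floor_add_one ((a₂ : ℝ) * J)]
    have ha0 : ⌊o 1 * J⌋₊ + Q + 1 ≤ ⌊(a₂ : ℝ) * J⌋₊ := by
      refine Nat.le_floor ?_
      push_cast
      rw [hQr]
      linarith [f2.1]
    rcases le_or_gt 0 ((bet P₂ c r a₂ w₂ + h) * (J : ℝ)) with h4 | h4
    · have h5 : ((⌊(bet P₂ c r a₂ w₂ + h) * J⌋₊ + (⌊o 1 * J⌋₊ + Q + 1) : ℕ) : ℝ) ≤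
          ((p' + ⌊(a₂ : ℝ) * J⌋₊ : ℕ) : ℝ) := by
        push_cast
        have h6 := (flo h4).1
        have h7 := mulJ hlab
        rw [hQr]
        have h8 : 0 ≤ 8 * C * C₁ * X * J := mul_nonneg hC₁X hJ0
        rw [hW₀] at hW0J
        linarith [f2.1]
      exact_mod_cast h5
    · rw [Nat.floor_of_nonpos h4.le]
      omega
  · refine le_trans (mul_le_mul_of_nonneg_right hδlJ (Pe_nonneg F.isLaw B₂)) ?_
    linarith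

end Pool.V1E
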