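import Pool.Agent.H73.D2.Tlw
import Pool.Agent.H92.D2.Cel

/-!
# `X10J` holds
-/

set_option autoImplicit false

namespace Pool.V1E

/-- **The end at one scale**, in the form of the cell. -/
theorem x10J : Pool.PKG.X10J := by
  intro m r S₂ hr hS₂ s hs
  obtain ⟨D, hD, h⟩ := x10j_q m r S₂ hr hS₂ s hs
  refine ⟨D, hD, fun Dr hDr => ?_⟩
  obtain ⟨K', D', C, CB, h1, h2, h3, h4, h5, h6, h⟩ := h Dr hDr
  refine ⟨K', D', C, CB, h1, h2, h3, h4, h5, h6, fun del hdel => ?_⟩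
  obtain ⟨δ, hδ, hδ4, h₀, hh₀, h⟩ := h del hdel
  refine ⟨δ, hδ, hδ4, h₀, hh₀, fun hh hh0 hh1 => ?_⟩
  intro S P P₂ θ θ₂ c Pt k₁ K Eb e₂ ε q t κ K₂ v₄ qf R hv1 hv2 hB hε1 hε2 hqf hκ hK₂ hIm
  exact h hh hh0 hh1 R (by linarith) hv2 hB hε1 hε2 hqf hκ hK₂ hIm

end Pool.V1E
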