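import Pool.Agent.H73.D2.Tlz

/-!
# The windows with the frame and the ball in a chain, on one event

`WF`: the windows `o 0` (of the target) and `o 1` (deep) with rows, `o 2` (the frame), `o 3` (the ball)
and further windows with balls only, on one event, with `Wdat`, the own paths and the velocities of all
windows. `wf_con`: it exists in a class.
-/

set_option autoImplicit false

namespace Pool.V1E

open Finset Real MvPolynomial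
open Pool.Agent.H49.Ent Pool.Agent.H32.Dense Pool.STK Pool.KA Pool.KSAT Pool.K2S Pool.PB Pool.S6C
open Pool.GEN Pool.CHT Pool.CHX Pool.ISO Pool.D2R Pool.D2G30 Pool.END18 Pool.D2Con
open Pool.LBT (ThrOf)
open Pool.LEV (Law)
open Pool.FLF (Fam.sub)

variable {m : ℕ}

/-- A larger constant. -/
theorem _root_.Pool.D2R.Wins.upC {J : ℕ} {F : Fam m J} {c : ℕ → Fin m} {r D Dr N M : ℕ}
    {R : ℕ → Prop} {C₀ C₁ a Eb ηm : ℝ} {o ε p' η σ : ℕ → ℝ} {lv be b : ℕ → ℕ → ℝ} {κ : ℝ}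
    {z : ℕ → ℕ → ℕ} {B : F.Ω → Prop} {gc gT g₀ : ℕ → ℕ → ℕ}
    {G : ℕ → PtT F → ℕ → MvPolynomial (Option (Fin m)) ℝ}
    {H : ℕ → LnT F → ℕ → MvPolynomial (Option (Fin m)) ℝ}
    {T : ℕ → PtT F → ℕ → MvPolynomial (Option (Fin m)) ℝ}
    {TH : ℕ → LnT F → ℕ → MvPolynomial (Option (Fin m)) ℝ}
    {Gt : ℕ → PtT F → MvPolynomial (Option (Fin m)) ℝ}
    {Ht : ℕ → LnT F → MvPolynomial (Option (Fin m)) ℝ}
    (W : Wins F c r D Dr N M R C₀ a Eb ηm o ε p' η σ lv be b κ z B gc gT g₀ G H T TH Gt Ht)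
    (h : C₀ ≤ C₁) (hp : ∀ k ≤ N, C₁ * η k ≤ p' k) (hg : ∀ k ≤ N, C₁ * (η k * J) ≤ gc k r) :
    Wins F c r D Dr N M R C₁ a Eb ηm o ε p' η σ lv be b κ z B gc gT g₀ G H T TH Gt Ht := by
  have hJ : (0 : ℝ) ≤ J := Nat.cast_nonneg J
  refine { W with C1 := W.C1.trans h, hp' := hp, hgr := hg, row := ?_, bal := ?_ }
  · intro i hi j hj hij q q1 q2
    have h1 : C₀ * (η j * J) ≤ C₁ * (η j * J) :=
      mul_le_mul_of_nonneg_right h (mul_nonneg (W.hη j hj).1 hJ)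
    exact (W.row i hi j hj hij q (by linarith) (by linarith)).mono le_rfl (by positivity)
      (pow_le_pow_right₀ (by norm_num) (Nat.floor_le_floor h1))
  · have h1 : ∀ k ≤ N, (2 : ℝ) ^ ⌊C₀ * (ηm * J)⌋₊ ≤ 2 ^ ⌊C₁ * (ηm * J)⌋₊ := fun k hk =>
      pow_le_pow_right₀ (by norm_num) (Nat.floor_le_floor (mul_le_mul_of_nonneg_right h
        (mul_nonneg ((W.hη k hk).1.trans (W.hη k hk).2) hJ)))
    exact ⟨fun k hk ω hω i hi b hb j hj => (W.bal.inc k hk ω hω i hi b hb j hj).trans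
      (div_le_div_of_nonneg_right (h1 k hk) (by positivity)),
      fun k hk k' hk' q hq h2 h3 ω hω l hl b hb =>
      (W.bal.bal k hk k' hk' q hq h2 h3 ω hω l hl b hb).trans
      (div_le_div_of_nonneg_right (h1 k hk) (by positivity))⟩

/-- Smaller events. -/
theorem _root_.Pool.D2R.WinB.res {J : ℕ} {F : Fam m J} {c : ℕ → Fin m} {r D Dr N M : ℕ}
    {C₀ a Eb ηm : ℝ} {o η σ : ℕ → ℝ} {lv b : ℕ → ℕ → ℝ} {κ : ℝ} {z : ℕ → ℕ → ℕ}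
    {B : F.Ω → Prop} {g₀ : ℕ → ℕ → ℕ} {G : ℕ → PtT F → ℕ → MvPolynomial (Option (Fin m)) ℝ}
    {H : ℕ → LnT F → ℕ → MvPolynomial (Option (Fin m)) ℝ}
    (W : WinB F c r D Dr N M C₀ a Eb ηm o η σ lv b κ z B g₀ G H) {B' : F.Ω → Prop} {κ₁ κ₂ : ℝ}
    (hB : Sub B' B) (hP : κ₁ * Pe F.p B ≤ Pe F.p B') (h2 : 0 ≤ κ₂) (hκ : κ ≤ κ₂ * κ₁) :
    WinB F c r D Dr N M C₀ a Eb ηm o η σ lv b κ₂ z B' g₀ G H where
  C1 := W.C1
  Eb0 := W.Eb0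
  hη := W.hη
  hσ := W.hσ
  ho := W.ho
  hb := W.hb
  sds := W.sds
  ev := fun k hk => (W.ev k hk).sub hB hP h2 hκ
  bal := fun k hk k' hk' q hq h1 h2 ω hω => W.bal k hk k' hk' q hq h1 h2 ω (hB ω hω)

/-- The precision of the closed label of the target, for the radius `a`. -/
noncomputable def prF (C a η₀ : ℝ) (Pt : ℝ → ℝ → ℝ) (lr : ℕ → ℝ) (o : ℕ → ℝ) : ℝ :=
  min (Pt a (o 0) - 3 * (C * η₀)) (lr 1 + (a - o 1) - 3 * (C * η₀))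

/-- **The windows** `o 0` (of the target) and `o 1` (deep) with rows, `o 2` (the frame), `o 3` (the
ball) and further ones with balls only, on one event. -/
structure WF (c : ℕ → Fin m) (r D Dr N₂ : ℕ) (C a Eb ε₀ η₀ ζ mb : ℝ) (Pt : ℝ → ℝ → ℝ) (o : ℕ → ℝ)
    (lv be : ℕ → ℕ → ℝ) {J : ℕ} (F : Fam m J) (b : ℕ → ℕ → ℝ) (κ : ℝ) (z : ℕ → ℕ → ℕ)
    (qe : Fin r → ℕ) (B : F.Ω → Prop) (gc gT g₀ : ℕ → ℕ → ℕ)
    (G : ℕ → PtT F → ℕ → MvPolynomial (Option (Fin m)) ℝ)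
    (H : ℕ → LnT F → ℕ → MvPolynomial (Option (Fin m)) ℝ)
    (T : ℕ → PtT F → ℕ → MvPolynomial (Option (Fin m)) ℝ)
    (TH : ℕ → LnT F → ℕ → MvPolynomial (Option (Fin m)) ℝ)
    (Gt : ℕ → PtT F → MvPolynomial (Option (Fin m)) ℝ)
    (Ht : ℕ → LnT F → MvPolynomial (Option (Fin m)) ℝ) : Prop where
  n3 : 3 ≤ N₂
  win : Wins F c r D Dr 1 N₂ (fun _ => True) C a Eb η₀ o (fun _ => ε₀)
    (fun k => Pt a (o k) - 2 * (C * η₀)) (fun _ => η₀) (fun _ => η₀) lv be b κ z B gc gT g₀ G H T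
    TH Gt Ht
  wb : WinB F c r D Dr N₂ N₂ C a Eb η₀ o (fun _ => η₀) (fun _ => η₀) lv b κ z B g₀ G H
  wd : Wdat F c r D 3 N₂ ⌊a * J⌋₊ ⌊mb * J⌋₊ (⌊o 0 * J⌋₊ - ⌊o 2 * J⌋₊)
    (⌊o 3 * J⌋₊ - ⌊o 0 * J⌋₊) (⌊(2 * (ζ + 3 * (C * η₀)) + η₀) * J⌋₊ + 20)
    (⌊C * (η₀ * J)⌋₊ + 1) ⌊prF C a η₀ Pt (fun k => lv k r) o * J⌋₊ ⌊(Eb + 2 * η₀) * J⌋₊
    (fun l => ⌊lv 0 l * J⌋₊) qe (fun k => ⌊o (fr4 k) * J⌋₊) (fun k => z (fr4 k))
    (fun k l => ⌊b (fr4 k) l * J⌋₊) (gX gc) (gX gT) (fun k => g₀ (fr4 k)) B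
    (fun k => G (fr4 k)) (tX F c G T) (fun k => H (fr4 k)) (fun k => TH (fr4 k)) (Ht 0)
  own : ∀ i ≤ N₂, ∀ ω, B ω → ∀ l ≤ r, ∀ τ ∈ Set.Icc (0 : ℝ) 1,
    |(dv ⌊o i * J⌋₊ (fun s _ => H i s l) (c l) (slam F ⌊o i * J⌋₊ ω)).eval τ| ≤
      2 ^ (⌊C * (η₀ * J)⌋₊ + 1) / 2 ^ g₀ i l
  vel : ∀ i ≤ N₂, ∀ ω ν, B ω → B ν → ptr F J ω = ptr F J ν → ∀ l ≤ r,
    |bd F ν (some (c l)) - dd (G i (ptr F J ω) l) (bt F ω) (bd F ν)| ≤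
      2 ^ (⌊C * (η₀ * J)⌋₊ + 1) * 2 ^ ⌊o i * J⌋₊ / 2 ^ g₀ i l
  zz : ∀ i ≤ N₂, ∀ j ≤ N₂, o i + η₀ ≤ o j → z i j = ⌊o j * J⌋₊ - ⌊o i * J⌋₊

/-- **The windows with the frame and the ball in a chain, in a class.** -/
theorem wf_con (m r S₀ : ℕ) (hr : 1 ≤ r) (hS₀ : 1 ≤ S₀) : ∃ D : ℕ, 1 ≤ D ∧ ∀ Dr : ℕ, D ≤ Dr →
    ∃ C : ℝ, 1 ≤ C ∧ ∀ {S : PCl m} {P : List (Fin m) × Fin m → ℝ → ℝ → ℝ} {θ : ℝ} {c : ℕ → Fin m}
    {Pt : ℝ → ℝ → ℝ} {a Eb ε₀ η₀ mb ζ : ℝ} {o : ℕ → ℝ} {qf : ℕ → Fin r → ℕ} (N₂ : ℕ), 3 ≤ N₂ →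
    ThrOf (chsys m θ) S P → 0 < θ → TmH S → Set.InjOn c (Set.Iio (r + 1)) → Law Pt → 0 ≤ Eb →
    (∀ k ≤ 1, WinD S P θ c r Pt a (o k) S₀ Eb ε₀ (fun _ => True)) →
    (∀ k, 1 < k → k ≤ N₂ → BalD S P θ c r Pt a (o k) S₀ Eb) → C * ε₀ < η₀ →
    (∀ k ≤ 1, 3 * (C * η₀) ≤ o k ∧ 3 * (C * η₀) ≤ Pt a (o k) ∧
      3 * (C * η₀) ≤ lvN P c r Pt r (o k) (o k)) → (∀ k ≤ N₂, o k + 4 * (C * η₀) ≤ a) → a ≤ 1 →
    (∀ k ≤ 1, ∀ l ≤ r, lvN P c r Pt l (o k) (o k) + (a - o k) + (Eb + 2 * η₀) < 1) →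
    (∀ k ≤ 1, ∀ l < r, bet P c l a (o k) + (Eb + 2 * η₀) < 1) →
    mb + (o 3 - o 0) < o 0 - o 2 → o 3 - o 0 < mb → η₀ ≤ o 3 - o 0 → η₀ ≤ o 1 - o 3 → 0 ≤ ζ →
    (∀ k ≤ 3, ∀ j < r, |lvN P c r Pt j (o k) (o k) - o k -
      (lvN P c r Pt j (o 0) (o 0) - o 0)| ≤ ζ) →
    |lvN P c r Pt r (o 3) (o 3) - lvN P c r Pt r (o 0) (o 0) - mb| ≤ ζ →
    lvN P c r Pt r (o 0) (o 0) + (o 1 - o 0) + (mb - (o 3 - o 0)) ≤
      lvN P c r Pt r (o 1) (o 1) + ζ →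
    lvN P c r Pt r (o 0) (o 0) + (a - o 0) + (mb - (o 3 - o 0)) ≤ Pt a (o 0) + ζ →
    (∀ (J : ℕ) (i : Fin r), ⌊mb * J⌋₊ + (⌊o 3 * J⌋₊ - ⌊o 0 * J⌋₊) ≤ qf J i) →
    ∃ (K₁ : ℝ) (b : ℕ → ℕ → ℝ), 0 < K₁ ∧ ∀ κ : ℝ, 0 < κ → Bas S (fun J F A =>
      ∃ (B : F.Ω → Prop) (z gc gT g₀ : ℕ → ℕ → ℕ)
        (G : ℕ → PtT F → ℕ → MvPolynomial (Option (Fin m)) ℝ)
        (H : ℕ → LnT F → ℕ → MvPolynomial (Option (Fin m)) ℝ)
        (T : ℕ → PtT F → ℕ → MvPolynomial (Option (Fin m)) ℝ)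
        (TH : ℕ → LnT F → ℕ → MvPolynomial (Option (Fin m)) ℝ)
        (Gt : ℕ → PtT F → MvPolynomial (Option (Fin m)) ℝ)
        (Ht : ℕ → LnT F → MvPolynomial (Option (Fin m)) ℝ), Sub B A ∧
        Pe F.p A ≤ K₁ * Pe F.p B ∧
        WF c r D Dr N₂ C a Eb ε₀ η₀ ζ mb Pt o (fun k l => lvN P c r Pt l (o k) (o k))
          (fun k l => bet P c l a (o k)) F b κ z (qf J) B gc gT g₀ G H T TH Gt Ht) := by
  obtain ⟨D, hD, hwin⟩ := winJ_con m r S₀ hr hS₀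
  refine ⟨D, hD, fun Dr hDr => ?_⟩
  obtain ⟨C₁, CB, hC₁, hCB, hwin⟩ := hwin Dr hDr
  obtain ⟨C₂, hC₂, hown⟩ := own_list m D r
  obtain ⟨C, hC⟩ : ∃ C : ℝ, C = C₁ + CB + 2 * C₂ := ⟨_, rfl⟩
  have hC₂R : (1 : ℝ) ≤ C₂ := by exact_mod_cast hC₂
  have hC1 : 1 ≤ C := by linarith
  have hC₁C : C₁ ≤ C := by linarith
  have hCBC : CB ≤ C := by linarith
  have hC₂C : 2 * (C₂ : ℝ) ≤ C := by linarith
  refine ⟨C, hC1, ?_⟩
  intro S P θ c Pt a Eb ε₀ η₀ mb ζ o qf N₂ hN hP hθ hS hinj hPt hEb hW hWb hεη h3o hoa ha1 htop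
    hbet h01 h12 h12' h23 hζ hn h2 h3 hPa hqf
  have hε₀ : 0 ≤ ε₀ := (hW 0 (by norm_num)).ε0
  have hη0 : 0 < η₀ := lt_of_le_of_lt (mul_nonneg (by linarith) hε₀) hεη
  have hCη : η₀ ≤ C * η₀ := le_mul_of_one_le_left hη0.le hC1
  have hC₁η : C₁ * η₀ ≤ C * η₀ := mul_le_mul_of_nonneg_right hC₁C hη0.le
  have hC₁ε : C₁ * ε₀ ≤ C * ε₀ := mul_le_mul_of_nonneg_right hC₁C hε₀
  have hC₂η : 2 * (C₂ * η₀) ≤ C * η₀ := by
    have := mul_le_mul_of_nonneg_right hC₂C hη0.le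
    linarith
  have hoB : ∀ k ≤ N₂, BalD S P θ c r Pt a (o k) S₀ Eb := fun k hk => by
    rcases Nat.lt_or_ge 1 k with h | h
    · exact hWb k h hk
    · exact Pool.D2R.WinD.bal (hW k h)
  have ho0 : ∀ k ≤ N₂, 0 < o k := fun k hk => by
    obtain ⟨ρ, vs, e, e₀, E, sg, Q, d1, -⟩ := (hoB k hk).dw
    exact d1.w0
  obtain ⟨lv, hlv⟩ : ∃ lv : ℕ → ℕ → ℝ, lv = fun k l => lvN P c r Pt l (o k) (o k) := ⟨_, rfl⟩
  have hlve : ∀ k l, lvN P c r Pt l (o k) (o k) = lv k l := fun k l => by rw [hlv]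
  obtain ⟨pr, hpr⟩ : ∃ pr : ℝ, pr = prF C a η₀ Pt (fun k => lv k r) o := ⟨_, rfl⟩
  have hprd : pr = min (Pt a (o 0) - 3 * (C * η₀)) (lv 1 r + (a - o 1) - 3 * (C * η₀)) := hpr
  simp only [hlve] at h3o htop hn h2 h3 hPa
  have hpr1 : pr ≤ Pt a (o 0) - 3 * (C * η₀) := by rw [hprd]; exact min_le_left _ _
  have hpr2 : pr ≤ lv 1 r + (a - o 1) - 3 * (C * η₀) := by rw [hprd]; exact min_le_right _ _
  have hoa1 := hoa 1 (by omega)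
  have hpr0 : 0 ≤ pr := by
    rw [hprd]
    refine le_min ?_ ?_
    · linarith [(h3o 0 (by norm_num)).2.1]
    · linarith [(h3o 1 (by norm_num)).2.2]
  have hprg : lv 0 r + (a - o 0) + (mb - (o 3 - o 0)) ≤ pr + (ζ + 3 * (C * η₀)) := by
    rcases min_choice (Pt a (o 0) - 3 * (C * η₀)) (lv 1 r + (a - o 1) - 3 * (C * η₀)) with h4 | h4
    · rw [hprd, h4]
      linarith
    · rw [hprd, h4]
      linarith
  have h2' := abs_le.1 h2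
  have hξ0 : 0 ≤ ζ + 3 * (C * η₀) := by linarith
  obtain ⟨K₁, μ, b, hK₁, hμb, hwin⟩ := hwin (S := S) (P := P) (θ := θ) (c := c) (Pt := Pt)
    (R := fun _ => True) (a := a) (Eb := Eb) (ηm := η₀) (o := o) (ε := fun _ => ε₀)
    (p' := fun k => Pt a (o k) - 2 * (C * η₀)) (η := fun _ => η₀) (σ := fun _ => η₀)
    (r₀ := fun _ => η₀ / 2) 1 N₂ N₂ (by omega) hP hθ hS hinj hPt hEb hW hWb
    (fun k hk => ⟨by linarith [(h3o k hk).1], by linarith, by linarith [(h3o k hk).1]⟩)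
    (fun k hk => ⟨by linarith [(h3o k hk).2.1], by linarith⟩)
    (fun k hk => ⟨hη0, hη0, le_rfl, by linarith, by linarith [hoa k hk, ho0 k hk], le_rfl⟩)
    (fun k hk l hl => by
      have := htop k hk l hl
      rw [hlve]
      linarith)
    (fun k hk l hl => by linarith [hbet k hk l hl])
  refine ⟨K₁ * 2 ^ (N₂ + 1), b, by positivity, fun κ hκ => ?_⟩
  obtain ⟨ψ, hψ⟩ : ∃ ψ : ℝ, ψ = η₀ * Real.log 2 / (2 * C₂) := ⟨_, rfl⟩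
  have hlog2 : 0 < Real.log 2 := Real.log_pos (by norm_num)
  have hC₂0 : (0 : ℝ) < C₂ := by linarith
  have hψ0 : 0 < ψ := by rw [hψ]; positivity
  have hψC : C₂ * ψ = η₀ * Real.log 2 / 2 := by
    rw [hψ]
    field_simp
  have hκ' : 0 < κ / 2 ^ (N₂ + 1) := by positivity
  have big : ∀ {x y : ℝ}, 0 < x → ∃ J₀ : ℕ, ∀ J : ℕ, J₀ ≤ J → y ≤ x * J := by
    intro x y hx
    refine ⟨⌈y / x⌉₊, fun J hJ => ?_⟩
    have h1 : y / x ≤ J := (Nat.le_ceil _).trans (by exact_mod_cast hJ)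
    rw [div_le_iff₀ hx] at h1
    linarith
  obtain ⟨J₁, hJ₁⟩ := big (x := η₀) (y := 8) hη0
  obtain ⟨J₂, hJ₂⟩ := big (x := η₀ * Real.log 2 / 2) (y := C₂ + Real.log 2) (by positivity)
  obtain ⟨J₃, hJ₃⟩ := big (x := mb - (o 3 - o 0)) (y := 2) (by linarith)
  obtain ⟨J₄, hJ₄⟩ := big (x := o 0 - o 2 - (mb + (o 3 - o 0))) (y := 3) (by linarith)
  refine Bas.mono (max (max J₁ J₂) (max J₃ J₄)) (((hwin _ hκ').and
    (bas_big (hS.2 ψ hψ0) (K₁ * 2 ^ (N₂ + 1)))).and (tmh_cond hS one_pos)) ?_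
  rintro J hJ F A ⟨⟨w1, w2⟩, hPA0, -⟩
  have j1 := hJ₁ J (by omega)
  have j2 := hJ₂ J (by omega)
  have j3 := hJ₃ J (by omega)
  have j4 := hJ₄ J (by omega)
  have hJ0 : (0 : ℝ) ≤ J := Nat.cast_nonneg J
  have mulJ : ∀ {x y : ℝ}, x ≤ y → x * J ≤ y * J := fun h => mul_le_mul_of_nonneg_right h hJ0
  have fo := fun k (hk : k ≤ N₂) => flo (mul_nonneg (ho0 k hk).le hJ0)
  have fa := flo (mul_nonneg (by linarith [hoa 0 (by omega), ho0 0 (by omega)] : (0 : ℝ) ≤ a) hJ0)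
  have hdiff : ∀ {x y : ℝ}, 0 ≤ x * J → 0 ≤ y * J → x + η₀ ≤ y →
      η₀ / 2 * J ≤ ((⌊y * J⌋₊ - ⌊x * J⌋₊ : ℕ) : ℝ) := by
    intro x y hx hy h4
    have hxy : ⌊x * (J : ℝ)⌋₊ ≤ ⌊y * (J : ℝ)⌋₊ := Nat.floor_le_floor (mulJ (by linarith))
    rw [Nat.cast_sub hxy]
    have h5 := mulJ h4
    have h6 := flo hx
    have h7 := flo hy
    linarith [h6.1, h7.2]
  -- the radii
  obtain ⟨z, hz⟩ : ∃ z : ℕ → ℕ → ℕ, z = fun k i =>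
      if o k + η₀ ≤ o i then ⌊o i * J⌋₊ - ⌊o k * J⌋₊ else ⌊a * J⌋₊ - ⌊o k * J⌋₊ := ⟨_, rfl⟩
  have hzz : ∀ i j, o i + η₀ ≤ o j → z i j = ⌊o j * J⌋₊ - ⌊o i * J⌋₊ := fun i j h => by
    rw [hz]
    exact if_pos h
  have hzr : ∀ k ≤ N₂, ∀ i ≤ N₂, η₀ / 2 * J ≤ z k i ∧ z k i ≤ ⌊a * J⌋₊ - ⌊o k * J⌋₊ := by
    intro k hk i hi
    have hk0 := mul_nonneg (ho0 k hk).le hJ0
    have hi0 := mul_nonneg (ho0 i hi).le hJ0
    have ha0 : 0 ≤ a * (J : ℝ) := mul_nonneg (by linarith [hoa k hk, ho0 k hk]) hJ0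
    by_cases h : o k + η₀ ≤ o i
    · rw [hzz k i h]
      refine ⟨hdiff hk0 hi0 h, ?_⟩
      have : ⌊o i * (J : ℝ)⌋₊ ≤ ⌊a * (J : ℝ)⌋₊ :=
        Nat.floor_le_floor (mulJ (by linarith [hoa i hi]))
      omega
    · have h4 : z k i = ⌊a * J⌋₊ - ⌊o k * J⌋₊ := by
        rw [hz]
        exact if_neg h
      rw [h4]
      exact ⟨hdiff hk0 ha0 (by linarith [hoa k hk]), le_rfl⟩
  obtain ⟨B₁, gc, gT, g₀, G, H, T, TH, Gt, Ht, hB₁, hPB₁, W₁, Wb₁⟩ := w1 z hzr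
  simp only [hlve] at W₁ Wb₁
  have hPB₁0 : 0 < Pe F.p B₁ := by
    by_contra hcon
    push Not at hcon
    have h4 : K₁ * Pe F.p B₁ ≤ 0 := mul_nonpos_of_nonneg_of_nonpos hK₁.le hcon
    linarith
  -- the own paths
  obtain ⟨k, hk⟩ : ∃ k : ℕ, k = ⌊η₀ * J⌋₊ := ⟨_, rfl⟩
  have hηJ0 : 0 ≤ η₀ * J := mul_nonneg hη0.le hJ0
  have fk := flo hηJ0
  rw [← hk] at fk
  have hCηJ : 0 ≤ C * (η₀ * J) := mul_nonneg (by linarith) hηJ0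
  have fC := flo hCηJ
  have hC₂J : 2 * (C₂ * (η₀ * J)) ≤ C * (η₀ * J) := by
    have := mul_le_mul_of_nonneg_right hC₂C hηJ0
    linarith
  have hψJ : C₂ * (ψ * J) = η₀ * J * Real.log 2 / 2 := by
    have : C₂ * (ψ * J) = C₂ * ψ * J := by ring
    rw [this, hψC]
    ring
  have hC₂8 : (8 : ℝ) * C₂ ≤ C₂ * (η₀ * J) := by
    have := mul_le_mul_of_nonneg_left j1 hC₂0.le
    linarith
  have hk2 : ((C₂ * (k + 2) : ℕ) : ℝ) ≤ C₂ * (η₀ * J) + 2 * C₂ := by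
    push_cast
    have := mul_le_mul_of_nonneg_left fk.1 hC₂0.le
    linarith
  have hkC : C₂ * (k + 2) ≤ ⌊C * (η₀ * J)⌋₊ + 1 := by
    have h4 : ((C₂ * (k + 2) : ℕ) : ℝ) ≤ ((⌊C * (η₀ * J)⌋₊ + 1 : ℕ) : ℝ) := by
      push_cast at hk2 ⊢
      linarith [fC.2]
    exact_mod_cast h4
  obtain ⟨B, hB, hPB, hBo⟩ := hown (F := F) (c := c) (k := k) (θ := ψ * J)
    (o := fun i => ⌊o i * J⌋₊) (ee := fun _ => ⌊(Eb + η₀ + η₀) * J⌋₊) (g₀ := g₀) (G := G)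
    (H := H) (N₂ + 1) (A := B₁) hPB₁0 hinj (fun i hi => by
      have hi' : i ≤ N₂ := by omega
      have f1 := fo i hi'
      have h4 := mulJ (hoa i hi')
      have h5 := mulJ ha1
      have h6 : η₀ * J ≤ (J : ℝ) - (⌊o i * J⌋₊ : ℝ) := by
        have h7 := mulJ hCη
        linarith [f1.1]
      refine ⟨?_, ?_⟩
      · have h7 : (⌊o i * (J : ℝ)⌋₊ : ℝ) ≤ J := by linarith
        exact_mod_cast h7
      · have h7 := mul_le_mul_of_nonneg_right h6 hlog2.le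
        linarith)
    (fun i hi => (Wb₁.ev i (by omega)).ball) (mul_nonneg hψ0.le hJ0) (fun B' hB' hBB' hPB' =>
      w2 B' (fun ω hω => hB₁ ω (hBB' ω hω)) (by
        have h4 : Pe F.p B₁ ≤ 2 ^ (N₂ + 1) * Pe F.p B' := by
          rw [div_le_iff₀ (by positivity)] at hPB'
          linarith
        calc Pe F.p A ≤ K₁ * Pe F.p B₁ := hPB₁
          _ ≤ K₁ * (2 ^ (N₂ + 1) * Pe F.p B') := mul_le_mul_of_nonneg_left h4 hK₁.le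
          _ = _ := by ring) hB')
    (by
      have h4 : C₂ * (ψ * J + 1) ≤ (k : ℝ) * Real.log 2 := by
        have h5 := mul_le_mul_of_nonneg_right fk.2 hlog2.le
        linarith
      calc Real.exp (C₂ * (ψ * J + 1)) ≤ Real.exp (k * Real.log 2) := Real.exp_le_exp.2 h4
        _ = 2 ^ k := by rw [Real.exp_nat_mul, Real.exp_log two_pos])
    (fun i hi l hl => by
      have hi' : i ≤ N₂ := by omega
      have h4 := mulJ ((hoB i hi').top l hl).le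
      rw [hlve] at h4
      have h5 := mulJ (hoa i hi')
      have h6 := (Wb₁.g_num hi' hl).2.2.2
      have h7 := (flo (mul_nonneg (by linarith : (0 : ℝ) ≤ Eb + η₀ + η₀) hJ0)).1
      have h8 : ((⌊(Eb + η₀ + η₀) * J⌋₊ + g₀ i l + C₂ * (k + 2) : ℕ) : ℝ) ≤ J := by
        push_cast at hk2 ⊢
        have h9 := mulJ hCη
        linarith
      exact_mod_cast h8)
  have hPB2 : 1 / 2 ^ (N₂ + 1) * Pe F.p B₁ ≤ Pe F.p B := by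
    rw [one_div_mul_eq_div]
    exact hPB
  have hκe : κ / 2 ^ (N₂ + 1) ≤ κ * (1 / 2 ^ (N₂ + 1)) := by rw [mul_one_div]
  have W₂ := (W₁.res hB hPB2 hκ.le hκe).upC hC₁C (fun k' hk' => by
      linarith [(h3o k' hk').2.1]) (fun k' hk' => by
      have h4 := (W₁.g_num hk' (l := r) le_rfl).2.2.2.2.1
      have h5 := mulJ (h3o k' hk').2.2
      have h6 : (⌊o k' * (J : ℝ)⌋₊ : ℝ) ≤ ⌊a * (J : ℝ)⌋₊ := by
        exact_mod_cast Nat.floor_le_floor (mulJ (by linarith [hoa k' (by omega)]))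
      have h7 := mulJ hCη
      linarith)
  have Wb₂ := (Wb₁.res hB hPB2 hκ.le hκe).upC hCBC
  have hU : (2 : ℝ) ^ (C₂ * (k + 2)) ≤ 2 ^ (⌊C * (η₀ * J)⌋₊ + 1) :=
    pow_le_pow_right₀ (by norm_num) hkC
  have hown' : ∀ i ≤ N₂, ∀ ω, B ω → ∀ l ≤ r, ∀ τ ∈ Set.Icc (0 : ℝ) 1,
      |(dv ⌊o i * J⌋₊ (fun s _ => H i s l) (c l) (slam F ⌊o i * J⌋₊ ω)).eval τ| ≤
        2 ^ (⌊C * (η₀ * J)⌋₊ + 1) / 2 ^ g₀ i l := fun i hi ω hω l hl τ hτ =>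
    ((hBo i (by omega) ω hω).1 l hl τ hτ).trans (div_le_div_of_nonneg_right hU (by positivity))
  have hvel' : ∀ i ≤ N₂, ∀ ω ν, B ω → B ν → ptr F J ω = ptr F J ν → ∀ l ≤ r,
      |bd F ν (some (c l)) - dd (G i (ptr F J ω) l) (bt F ω) (bd F ν)| ≤
        2 ^ (⌊C * (η₀ * J)⌋₊ + 1) * 2 ^ ⌊o i * J⌋₊ / 2 ^ g₀ i l := fun i hi ω ν hω hν hpt l hl =>
    ((hBo i (by omega) ω hω).2 ν hν hpt l hl).trans (div_le_div_of_nonneg_right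
      (mul_le_mul_of_nonneg_right hU (by positivity)) (by positivity))
  have Wd := winf_dat2 (qe := qf J) (ξ := ζ + 3 * (C * η₀)) (mb := mb) (pr := pr) W₂ Wb₂ hN
    (fun i hi => hown' i (by omega)) (fun i hi => hvel' i (by omega)) hinj (fun _ _ => trivial)
    ha1 (by linarith) (by linarith) (by linarith)
    ⟨0, by omega, hzz _ _ (by linarith)⟩ ⟨3, by omega, hzz _ _ (by linarith)⟩
    ⟨1, by omega, hzz _ _ (by linarith)⟩ ⟨3, by omega, hzz _ _ (by linarith)⟩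
    ⟨1, by omega, hzz _ _ (by linarith)⟩ hξ0 (by linarith) hpr0
    (fun k' hk' j hj => by linarith [hn k' hk' j hj]) (by linarith) (by linarith)
    (by linarith)
    (by
      have h4 : η₀ ≤ lv 1 r + (a - o 1) - (pr + C * η₀ + η₀) := by linarith
      have h5 := mulJ h4
      linarith)
    hprg j3 j4 (hqf J)
  rw [hpr] at Wd
  refine ⟨B, z, gc, gT, g₀, G, H, T, TH, Gt, Ht, fun ω hω => hB₁ ω (hB ω hω), ?_, ?_⟩
  · have h4 : Pe F.p B₁ ≤ 2 ^ (N₂ + 1) * Pe F.p B := by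
      rw [div_le_iff₀ (by positivity)] at hPB
      linarith
    calc Pe F.p A ≤ K₁ * Pe F.p B₁ := hPB₁
      _ ≤ K₁ * (2 ^ (N₂ + 1) * Pe F.p B) := mul_le_mul_of_nonneg_left h4 hK₁.le
      _ = _ := by ring
  · simp only [hlve]
    exact ⟨hN, W₂, Wb₂, Wd, hown', hvel', fun i _ j _ h => hzz i j h⟩

end Pool.V1E
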