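import Pool.Agent.H73.D2.Tmf

/-!
# The target `N - P(p, u)` for a closed polynomial `P` of the frame and `u`: letters

`NwC`: the data of `P = Cp` (closed, its derivative in the direction `u = c r` is near the derivatives of
the charts of `N = c (r + 1)`). `NwD`: `NvP` and `NwC`. `nfw`: the polynomial `N - P` of a ball, `nW`:
the chart with `u` on its chart, `nwp`: the own path, `nwy`, `nwv`: value and velocity, `nwT`: the
closed gradient. `NvP.frd`: the frame.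
-/

set_option autoImplicit false

namespace Pool.V1E

open Finset Real MvPolynomial
open Pool.KA Pool.KSAT Pool.PB Pool.GEN Pool.D2R Pool.D2G30 Pool.ISO Pool.CHT Pool.CHX
open Pool.PB.Trl (rt rt_mem t_rt)
open Pool.K2S (Sub)

/-- **The data of `P`**: a closed polynomial of the frame and `u = c r` whose derivative in the
direction `u` is near the derivatives of the charts of `N = c (r + 1)`. `su`, `sn`: the digits of `u`
and of `N` at `o 1`. -/
structure NwC {m J : ℕ} (F : Fam m J) (c : ℕ → Fin m) (r D MB Q x su sn : ℕ) (o : ℕ → ℕ)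
    (g₀ : ℕ → ℕ → ℕ) (B : F.Ω → Prop)
    (G : ℕ → PtT F → ℕ → MvPolynomial (Option (Fin m)) ℝ)
    (Ht CL : LnT F → MvPolynomial (Option (Fin m)) ℝ)
    (Cp : PtT F → MvPolynomial (Option (Fin m)) ℝ) : Prop where
  dCL : ∀ L, (CL L).totalDegree ≤ D
  dCp : ∀ y, (Cp y).totalDegree ≤ D
  pCL : ∀ L, DepC c (r + 1) (CL L)
  pCp : ∀ y, DepC c (r + 1) (Cp y)
  clC : ∀ ω, B ω → Cp (ptr F J ω) = CL (slam F (o 1) ω)
  hC1 : ∀ ω, B ω → ∀ b, NBx c (G 1 (ptr F J ω)) (g₀ 1) (o 1) (F.t ω) (r + 1) b →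
    |eval b (pderiv (some (c r)) (G 1 (ptr F J ω) (r + 1))) -
      eval b (pderiv (some (c r)) (Cp (ptr F J ω)))| ≤ 2 ^ (su + x) / 2 ^ sn
  hC2 : ∀ ω, B ω → ∀ b, NBx c (G 2 (ptr F J ω)) (g₀ 2) (o 2) (F.t ω) (r + 1) b →
    |eval b (pderiv (some (c r)) (G 2 (ptr F J ω) (r + 1))) -
      eval b (pderiv (some (c r)) (Cp (ptr F J ω)))| ≤ 2 ^ (g₀ 2 r + x) / 2 ^ (sn + MB)
  hCt : ∀ ω, B ω → |eval (bt F ω) (pderiv (some (c r)) (Ht (slam F (o 1) ω))) -
    eval (bt F ω) (pderiv (some (c r)) (Cp (ptr F J ω)))| ≤ 2 ^ (su + x) / 2 ^ (sn + (MB - Q))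

/-- **The data of the target `N - P(p, u)`.** -/
structure NwD {m J : ℕ} (F : Fam m J) (c : ℕ → Fin m) (r D n M ar MB q₀ Q x p e su : ℕ)
    (s : ℕ → ℕ) (qe : Fin r → ℕ) (o : ℕ → ℕ) (z g gc gT g₀ : ℕ → ℕ → ℕ) (B : F.Ω → Prop)
    (G T : ℕ → PtT F → ℕ → MvPolynomial (Option (Fin m)) ℝ)
    (H TH : ℕ → LnT F → ℕ → MvPolynomial (Option (Fin m)) ℝ)
    (Ht CL : LnT F → MvPolynomial (Option (Fin m)) ℝ)
    (Cp : PtT F → MvPolynomial (Option (Fin m)) ℝ) : Prop extends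
    NvP F c r D n M ar MB q₀ Q x p e su s qe o z g gc gT g₀ B G T H TH Ht,
    NwC F c r D MB Q x su (s r) o g₀ B G Ht CL Cp

/-- Smaller events, larger losses and degrees. -/
theorem NwC.mono {m J : ℕ} {F : Fam m J} {c : ℕ → Fin m} {r D D' MB Q x x' su sn : ℕ} {o : ℕ → ℕ}
    {g₀ : ℕ → ℕ → ℕ} {B B' : F.Ω → Prop}
    {G : ℕ → PtT F → ℕ → MvPolynomial (Option (Fin m)) ℝ}
    {Ht CL : LnT F → MvPolynomial (Option (Fin m)) ℝ}
    {Cp : PtT F → MvPolynomial (Option (Fin m)) ℝ}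
    (W : NwC F c r D MB Q x su sn o g₀ B G Ht CL Cp) (hB : Sub B' B) (hx : x ≤ x')
    (hD : D ≤ D') : NwC F c r D' MB Q x' su sn o g₀ B' G Ht CL Cp where
  dCL := fun L => (W.dCL L).trans hD
  dCp := fun y => (W.dCp y).trans hD
  pCL := W.pCL
  pCp := W.pCp
  clC := fun ω hω => W.clC ω (hB ω hω)
  hC1 := fun ω hω b hb => (W.hC1 ω (hB ω hω) b hb).trans (div_le_div_of_nonneg_right
    (pow_le_pow_right₀ (by norm_num) (by omega)) (by positivity))
  hC2 := fun ω hω b hb => (W.hC2 ω (hB ω hω) b hb).trans (div_le_div_of_nonneg_right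
    (pow_le_pow_right₀ (by norm_num) (by omega)) (by positivity))
  hCt := fun ω hω => (W.hCt ω (hB ω hω)).trans (div_le_div_of_nonneg_right
    (pow_le_pow_right₀ (by norm_num) (by omega)) (by positivity))

/-- A larger degree. -/
theorem NvP.deg {m J : ℕ} {F : Fam m J} {c : ℕ → Fin m} {r D D' n M ar MB q₀ Q x p e su : ℕ}
    {s : ℕ → ℕ} {qe : Fin r → ℕ} {o : ℕ → ℕ} {z g gc gT g₀ : ℕ → ℕ → ℕ} {B : F.Ω → Prop}
    {G T : ℕ → PtT F → ℕ → MvPolynomial (Option (Fin m)) ℝ}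
    {H TH : ℕ → LnT F → ℕ → MvPolynomial (Option (Fin m)) ℝ}
    {Ht : LnT F → MvPolynomial (Option (Fin m)) ℝ}
    (W : NvP F c r D n M ar MB q₀ Q x p e su s qe o z g gc gT g₀ B G T H TH Ht) (hD : D ≤ D') :
    NvP F c r D' n M ar MB q₀ Q x p e su s qe o z g gc gT g₀ B G T H TH Ht :=
  { W with
    dG := fun k y l => (W.dG k y l).trans hD
    dH := fun k s l => (W.dH k s l).trans hD
    dt := fun s => (W.dt s).trans hD
    ch1 := W.ch1.mono le_rfl (fun _ => hD) le_rfl le_rfl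
    ch2 := W.ch2.mono le_rfl (fun _ => hD) le_rfl le_rfl
    ch3 := W.ch3.mono le_rfl (fun _ => hD) le_rfl le_rfl
    thin := W.thin.mono le_rfl (fun _ => hD) le_rfl le_rfl }

section nvp

variable {m J : ℕ} {F : Fam m J} {c : ℕ → Fin m} {r D n M ar MB q₀ Q x p e su : ℕ}
  {s : ℕ → ℕ} {qe : Fin r → ℕ} {o : ℕ → ℕ} {z g gc gT g₀ : ℕ → ℕ → ℕ} {B : F.Ω → Prop}
  {G T : ℕ → PtT F → ℕ → MvPolynomial (Option (Fin m)) ℝ}
  {H TH : ℕ → LnT F → ℕ → MvPolynomial (Option (Fin m)) ℝ}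
  {Ht : LnT F → MvPolynomial (Option (Fin m)) ℝ}

theorem NvP.hc1 (W : NvP F c r D n M ar MB q₀ Q x p e su s qe o z g gc gT g₀ B G T H TH Ht) :
    Set.InjOn c (Set.Iio (r + 1)) := W.hc.mono fun y hy => by
  rw [Set.mem_Iio] at hy ⊢
  omega

theorem NvP.hcr (W : NvP F c r D n M ar MB q₀ Q x p e su s qe o z g gc gT g₀ B G T H TH Ht) :
    Set.InjOn c (Set.Iio r) := W.hc.mono fun y hy => by
  rw [Set.mem_Iio] at hy ⊢
  omega

/-- **The frame.** -/
theorem NvP.frd (W : NvP F c r D n M ar MB q₀ Q x p e su s qe o z g gc gT g₀ B G T H TH Ht)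
    {D' x' : ℕ} (hD : D ≤ D') (hx : 2 * x + 2 ≤ x') :
    FrD F c r D' MB q₀ Q x' s qe o (g₀ 0) (g₀ 2) B (G 0) (G 2) (H 0) where
  hc := W.hcr
  o1 := W.o1
  o2 := W.o2
  oJ := W.o3.trans W.oJ
  dG0 := fun y l => (W.dG 0 y l).trans hD
  pG0 := W.pG 0
  dG2 := fun y l => (W.dG 2 y l).trans hD
  pG2 := W.pG 2
  dH0 := fun y l => (W.dH 0 y l).trans hD
  cl0 := W.cl0
  own0 := fun ω hω l hl τ hτ => (W.own0 ω hω l hl τ hτ).trans
    (div_le_div_of_nonneg_right (pow_le_pow_right₀ (by norm_num) (by omega)) (by positivity))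
  box0 := fun ω hω l hl b hb => by
    obtain ⟨q, hq, hz⟩ := W.z02
    have h1 := shf_b W.bal (Nat.zero_le n) (show 2 ≤ n by have := W.n3; omega) hq
      (by have := W.o1; have := W.o2; omega) hz W.ch2 hω (show l ≤ r + 1 by omega) hb
    refine h1.trans (p2_le' ?_)
    have := W.n2c l hl
    rcases le_total (g 0 l + (o 2 - o 0)) (g₀ 2 l) with h | h
    · rw [min_eq_left h]
      omega
    · rw [min_eq_right h]
      omega
  n0 := fun j hj => by have := W.n0 j hj; omega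
  n2a := fun j hj => by have := W.n2a j hj; omega
  n2b := fun j hj => by have := W.n2b j hj; omega
  QM := W.QM
  q0M := W.q0M
  qeM := W.qeM

end nvp

/-! ### The letters -/

section letters

variable {m : ℕ}

/-- The polynomial `N - P` of a ball. -/
noncomputable def nfw (r : ℕ) (P : ℕ → MvPolynomial (Option (Fin m)) ℝ)
    (K : MvPolynomial (Option (Fin m)) ℝ) : MvPolynomial (Option (Fin m)) ℝ := P (r + 1) - K

/-- The chart of `N - P` with `u` on its chart. -/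
noncomputable def nW (c : ℕ → Fin m) (r : ℕ) (P : ℕ → MvPolynomial (Option (Fin m)) ℝ)
    (K : MvPolynomial (Option (Fin m)) ℝ) : MvPolynomial (Option (Fin m)) ℝ :=
  sb (c r) (P r) (nfw r P K)

variable {J : ℕ} (F : Fam m J) (c : ℕ → Fin m) (s : ℕ → ℕ) (r w q₀ : ℕ)
  (H₀ H₁ : LnT F → ℕ → MvPolynomial (Option (Fin m)) ℝ)
  (Ht CL : LnT F → MvPolynomial (Option (Fin m)) ℝ)
  (Cp : PtT F → MvPolynomial (Option (Fin m)) ℝ)

/-- The own path. -/
noncomputable def nwp (L : LnT F) : Polynomial ℝ :=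
  lc w L (some (c (r + 1))) - MvPolynomial.aeval (lc w L) (CL L)

/-- The value. -/
noncomputable def nwy (ω : F.Ω) : ℝ :=
  F.x ω (c (r + 1)) - eval (bt F ω) (Cp (ptr F J ω))

/-- The velocity. -/
noncomputable def nwv (ω : F.Ω) : ℝ :=
  bd F ω (some (c (r + 1))) - dd (Cp (ptr F J ω)) (bt F ω) (bd F ω)

/-- The closed gradient. -/
noncomputable def nwT (L : LnT F) (i : Fin r) : Polynomial ℝ :=
  Polynomial.C (2 ^ s r) * MvPolynomial.aeval
    (hL c s (r + 1) w (frU r (frH F r q₀ H₀ L) (H₁ L)) L)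
    (pderiv (some i.castSucc) (pull c s (frU r (frH F r q₀ H₀ L) (H₁ L)) (r + 1)
      (Ht L - CL L - nW c r (H₁ L) (CL L))))

end letters

section alg

variable {m : ℕ} {c : ℕ → Fin m} {r D : ℕ} {P : ℕ → MvPolynomial (Option (Fin m)) ℝ}
  {K : MvPolynomial (Option (Fin m)) ℝ}

theorem eval_nfw (b : Option (Fin m) → ℝ) : eval b (nfw r P K) =
    eval b (P (r + 1)) - eval b K := by
  unfold nfw
  rw [map_sub]

theorem eval_nW (b : Option (Fin m) → ℝ) : eval b (nW c r P K) =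
    eval (up (c r) b (eval b (P r))) (nfw r P K) := eval_sb _ _ _ _

theorem pd_nfw (b : Option (Fin m) → ℝ) (o : Option (Fin m)) :
    eval b (pderiv o (nfw r P K)) = eval b (pderiv o (P (r + 1))) - eval b (pderiv o K) := by
  unfold nfw
  rw [map_sub, map_sub]

theorem dd_nfw (b W : Option (Fin m) → ℝ) : dd (nfw r P K) b W =
    dd (P (r + 1)) b W - dd K b W := by
  unfold nfw
  rw [dd_sub]

theorem dep_nfw (hP : ∀ l, DepC c l (P l)) (hK : DepC c (r + 1) K) :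
    DepC c (r + 1) (nfw r P K) := by
  intro b b' h0 h1
  rw [eval_nfw, eval_nfw, hP (r + 1) b b' h0 h1, hK b b' h0 h1]

theorem dep_nW (hc : Set.InjOn c (Set.Iio (r + 1))) (hP : ∀ l, DepC c l (P l))
    (hK : DepC c (r + 1) K) : DepC c r (nW c r P K) := dep_sb hc (hP r) (dep_nfw hP hK)

theorem deg_nfw (hP : ∀ l, (P l).totalDegree ≤ D) (hK : K.totalDegree ≤ D) :
    (nfw r P K).totalDegree ≤ D := by
  unfold nfw
  exact (totalDegree_sub _ _).trans (max_le (hP _) hK)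

theorem deg_nW (hP : ∀ l, (P l).totalDegree ≤ D) (hK : K.totalDegree ≤ D) :
    (nW c r P K).totalDegree ≤ (D + 1) * (D + 1) :=
  (deg_sb (hP r) (deg_nfw hP hK)).trans (Nat.mul_le_mul_right _ (Nat.le_succ D))

end alg

end Pool.V1E
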