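import Pool.Agent.H73.D2.Tmj

/-!
# The target `N - P(p, u)`: the closed gradient, `TgD` and the deterministic part of `TL`
-/

set_option autoImplicit false

namespace Pool.V1E

open Finset Real MvPolynomial
open Pool.KA Pool.KSAT Pool.PB Pool.GEN Pool.D2R Pool.D2G30 Pool.ISO Pool.CHT Pool.CHX
open Pool.PB.Trl (rt rt_mem t_rt)

/-- **The closed gradient.** -/
theorem nw_clo (D r : ℕ) : ∃ C : ℕ, ∀ {m J : ℕ} {F : Fam m J} {c : ℕ → Fin m}
    {n M ar MB q₀ Q x p e su : ℕ} {s : ℕ → ℕ} {qe : Fin r → ℕ} {o : ℕ → ℕ}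
    {z g gc gT g₀ : ℕ → ℕ → ℕ} {B : F.Ω → Prop}
    {G T : ℕ → PtT F → ℕ → MvPolynomial (Option (Fin m)) ℝ}
    {H TH : ℕ → LnT F → ℕ → MvPolynomial (Option (Fin m)) ℝ}
    {Ht CL : LnT F → MvPolynomial (Option (Fin m)) ℝ}
    {Cp : PtT F → MvPolynomial (Option (Fin m)) ℝ},
    NwD F c r D n M ar MB q₀ Q x p e su s qe o z g gc gT g₀ B G T H TH Ht CL Cp → ∀ ω, B ω →
    ∀ i : Fin r, |(nwT F c s r (o 1) q₀ (H 0) (H 1) Ht CL (slam F (o 1) ω) i).eval
        (rt F (o 1) ω) -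
      2 ^ s r * dd (nW c r (G 2 (ptr F J ω)) (Cp (ptr F J ω)) -
        nW c r (G 1 (ptr F J ω)) (Cp (ptr F J ω))) (bt F ω) (fvec F c s r (G 0) ω i)| ≤
      2 ^ (C * (x + 1)) / 2 ^ (MB - Q) := by
  obtain ⟨C₁, hdd⟩ := nvp_dd D r
  obtain ⟨C₂, hC₂, hh⟩ := nw_h D r
  obtain ⟨C₃, hC₃⟩ := pow_unbounded_of_one_lt C₂ (one_lt_two (α := ℝ))
  refine ⟨2 * C₁ + C₃ + 6, ?_⟩
  intro m J F c n M ar MB q₀ Q x p e su s qe o z g gc gT g₀ B G T H TH Ht CL Cp W ω hω i
  have h1J : o 1 ≤ J := by have := W.oJ; have := W.o3; have := W.o2; omega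
  have hQM := W.QM
  have Fr := W.frd (D' := D) (x' := 2 * x + 2) le_rfl le_rfl
  have hfr := Fr.fr hω
  obtain ⟨L, hLe⟩ : ∃ L, L = slam F (o 1) ω := ⟨_, rfl⟩
  obtain ⟨P, hP⟩ : ∃ P, P = trn r (G 0 (ptr F J ω)) := ⟨_, rfl⟩
  have hPd : ∀ l, DepC c l (P l) := by
    rw [hP]
    exact trn_dep (W.pG 0 _)
  have hPe : ∀ l < r, P l = G 0 (ptr F J ω) l := fun l hl => by
    rw [hP]
    exact trn_eq hl
  obtain ⟨V, hV⟩ : ∃ V, V = fvec F c s r (G 0) ω i := ⟨_, rfl⟩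
  have hVv : V = vec c s P (yp c s r P (bt F ω)) (some i) := by
    rw [hV, hP]
    rfl
  have hV0 : V none = 0 := by
    rw [hVv, vec_none, if_neg (by simp)]
  obtain ⟨p0, p1⟩ := hp_yp (s := s) W.hcr hPd (bt F ω)
  have hVc : ∀ j < r, |V (some (c j)) - dd (G 0 (ptr F J ω) j) (bt F ω) V| ≤ 1 / 2 ^ s j := by
    intro j hj
    have h1 := vec_nat (s := s) W.hcr hPd (yp c s r P (bt F ω)) (some i) hj
    rw [← hVv, dd_pt (hPd j) p0 (fun l hl => p1 l (by omega)), hPe j hj] at h1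
    rw [h1]
    split_ifs
    · rw [abs_of_pos (by positivity)]
    · rw [abs_zero]
      positivity
  obtain ⟨w0, w1, w2⟩ := vec_ext (s := s) (r := r) W.hc1 hPd (W.pH 1 L) (bt F ω) i
  obtain ⟨V', hV'⟩ : ∃ V', V' = vec c s (frU r P (H 1 L)) (yp c s (r + 1) (frU r P (H 1 L))
    (bt F ω)) (some i.castSucc) := ⟨_, rfl⟩
  rw [← hV', ← hVv] at w0 w1 w2
  have hG1 : H 1 L r = G 1 (ptr F J ω) r := by
    rw [hLe, W.cl1 ω hω r (Nat.le_succ r)]
  rw [hG1] at w2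
  -- the closed gradient
  obtain ⟨q0, q1⟩ := hp_yp (s := s) W.hc1 (frU_dep (r := r) hPd (W.pH 1 L)) (bt F ω)
  have hRd : DepC c (r + 1) (Ht L - CL L - nW c r (H 1 L) (CL L)) := by
    intro b b' h0 h1
    rw [map_sub, map_sub, map_sub, map_sub, W.pt L b b' h0 h1, W.pCL L b b' h0 h1,
      dep_nW W.hc1 (W.pH 1 L) (W.pCL L) b b' h0 (fun l hl => h1 l (by omega))]
  have eT : (nwT F c s r (o 1) q₀ (H 0) (H 1) Ht CL (slam F (o 1) ω) i).eval (rt F (o 1) ω) =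
      2 ^ s r * dd (Ht L - CL L - nW c r (H 1 L) (CL L)) (bt F ω) V' := by
    unfold nwT
    rw [hfr, ← hP, ← hLe, Polynomial.eval_mul, Polynomial.eval_C, Pool.D2G30.eval_aev]
    have e2 : (fun o' => (hL c s (r + 1) (o 1) (frU r P (H 1 L)) L o').eval (rt F (o 1) ω)) =
        yp c s (r + 1) (frU r P (H 1 L)) (bt F ω) := by
      rw [hLe]
      exact funext fun o' => hL_yp h1J _ ω o'
    rw [e2, pd_pull, ← hV', dd_pt hRd q0 q1]
  have hdV : ∀ {R : MvPolynomial (Option (Fin m)) ℝ}, DepC c r R →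
      dd R (bt F ω) V' = dd R (bt F ω) V := fun hR => dd_congr hR _ w0 w1
  obtain ⟨a1, ha1⟩ : ∃ a : ℝ, a = dd (G 1 (ptr F J ω) r) (bt F ω) V := ⟨_, rfl⟩
  obtain ⟨a2, ha2⟩ : ∃ a : ℝ, a = dd (G 2 (ptr F J ω) r) (bt F ω) V := ⟨_, rfl⟩
  obtain ⟨aT, haT⟩ : ∃ a : ℝ, a = dd (TH 3 (slam F (o 3) ω) r) (bt F ω) V := ⟨_, rfl⟩
  have hne : ∀ l < r, c l ≠ c r := fun l hl he => by
    have := W.hc1 (Set.mem_Iio.2 (show l < r + 1 by omega))
      (Set.mem_Iio.2 (Nat.lt_succ_self r)) he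
    omega
  have hup : ∀ {R : MvPolynomial (Option (Fin m)) ℝ} (v : ℝ), DepC c r R →
      dd R (bt F ω) (up (c r) V v) = dd R (bt F ω) V := fun v hR =>
    dd_congr hR _ (up_none _ _ _) fun l hl => up_ne (hne l hl) _ _
  have hupup : ∀ v v' : ℝ, up (c r) (up (c r) V v) v' = up (c r) V v' := by
    intro v v'
    funext o'
    unfold up
    split_ifs <;> rfl
  rw [← ha1] at w2
  -- the gradient of the row label
  have eH : ∀ {R : MvPolynomial (Option (Fin m)) ℝ}, DepC c (r + 1) R →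
      dd R (bt F ω) V' = dd R (bt F ω) (up (c r) V a1) := by
    intro R hR
    refine dd_congr hR _ (by rw [w0, up_none]) fun l hl => ?_
    rcases Nat.lt_or_ge l r with h | h
    · rw [w1 l h, up_ne (hne l h)]
    · have : l = r := by omega
      subst this
      rw [w2, up_self]
  have eR : dd (Ht L - CL L - nW c r (H 1 L) (CL L)) (bt F ω) V' =
      dd (Ht L) (bt F ω) (up (c r) V a1) - dd (Cp (ptr F J ω)) (bt F ω) (up (c r) V a1) -
        dd (nW c r (G 1 (ptr F J ω)) (Cp (ptr F J ω))) (bt F ω) V := by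
    rw [dd_sub, dd_sub, hdV (dep_nW W.hc1 (W.pH 1 L) (W.pCL L)), eH (W.pt L), eH (W.pCL L), hLe,
      ← W.clA hω, ← W.clC ω hω]
  obtain ⟨n2, k12, kT2, kH⟩ := hdd W.toNvP ω hω V hV0 hVc
  have k4 := hh W ω hω V
  rw [← haT] at kT2 kH
  rw [← ha1, ← ha2] at k12
  rw [← ha2] at kT2 k4
  rw [← hLe] at kH
  have hCt := W.hCt ω hω
  rw [← hLe] at hCt
  have hC2 := W.hC2 ω hω (bt F ω) (bt_box W.ch2 (by omega) hω _)
  obtain ⟨K, hK⟩ : ∃ K : ℝ, K = eval (bt F ω) (pderiv (some (c r)) (Cp (ptr F J ω))) := ⟨_, rfl⟩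
  rw [← hK] at hCt hC2
  have e3 := dd_up (Ht L) (c r) (bt F ω) (up (c r) V a1) aT
  rw [hupup, up_self] at e3
  have e4 := dd_up (G 2 (ptr F J ω) (r + 1)) (c r) (bt F ω) (up (c r) V aT) a2
  rw [hupup, up_self] at e4
  have e5 : dd (nfw r (G 2 (ptr F J ω)) (Cp (ptr F J ω))) (bt F ω) (up (c r) V a2) =
      dd (G 2 (ptr F J ω) (r + 1)) (bt F ω) (up (c r) V a2) -
        dd (Cp (ptr F J ω)) (bt F ω) (up (c r) V a2) := dd_nfw _ _
  have e9 := dd_up (Cp (ptr F J ω)) (c r) (bt F ω) (up (c r) V a1) a2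
  rw [hupup, up_self, ← hK] at e9
  rw [eT, eR, dd_sub, ← hV, ← mul_sub, abs_mul, abs_of_pos (show (0 : ℝ) < 2 ^ s r by positivity)]
  obtain ⟨nA, hnA⟩ : ∃ nA : ℝ, nA = dd (nW c r (G 2 (ptr F J ω)) (Cp (ptr F J ω))) (bt F ω) V := ⟨_, rfl⟩
  rw [← hnA] at k4 ⊢
  have e6 : dd (Ht L) (bt F ω) (up (c r) V a1) - dd (Cp (ptr F J ω)) (bt F ω) (up (c r) V a1) -
        dd (nW c r (G 1 (ptr F J ω)) (Cp (ptr F J ω))) (bt F ω) V - (nA -
        dd (nW c r (G 1 (ptr F J ω)) (Cp (ptr F J ω))) (bt F ω) V) =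
      (eval (bt F ω) (pderiv (some (c r)) (Ht L)) - K) * (a1 - aT) +
      (dd (Ht L) (bt F ω) (up (c r) V aT) -
        dd (G 2 (ptr F J ω) (r + 1)) (bt F ω) (up (c r) V aT)) +
      (eval (bt F ω) (pderiv (some (c r)) (G 2 (ptr F J ω) (r + 1))) - K) * (aT - a2) +
      (dd (nfw r (G 2 (ptr F J ω)) (Cp (ptr F J ω))) (bt F ω)
        (up (c r) V a2) - nA) := by
    rw [e5]
    linear_combination e3 + e4 - e9
  rw [e6]
  -- the numbers
  obtain ⟨Y, hY⟩ : ∃ Y : ℝ, Y = 2 ^ (C₁ * (x + 1)) := ⟨_, rfl⟩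
  rw [← hY] at n2 k12 kT2 kH
  have hY0 : 0 < Y := by rw [hY]; positivity
  obtain ⟨ι, hι⟩ : ∃ ι : ℝ, ι = 1 / 2 ^ (s r + (MB - Q)) := ⟨_, rfl⟩
  have hι0 : 0 < ι := by rw [hι]; positivity
  have hMB : (2 : ℝ) ^ (s r + MB) = 2 ^ (s r + (MB - Q)) * 2 ^ Q := by
    rw [← pow_add]
    congr 1
    omega
  have hQ0 : (0 : ℝ) < 2 ^ Q := by positivity
  have t1 : |(eval (bt F ω) (pderiv (some (c r)) (Ht L)) - K) * (a1 - aT)| ≤
      2 ^ (x + x + 1) * Y * ι := by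
    have h1 : |a1 - aT| ≤ 2 ^ (x + 1) * Y / 2 ^ su := by
      have e7 : a1 - aT = (a1 - a2) - (aT - a2) := by ring
      have h2 : Y * 2 ^ Q / 2 ^ g₀ 2 r ≤ 2 ^ x * Y / 2 ^ su := by
        have h3 : (2 : ℝ) ^ Q / 2 ^ g₀ 2 r ≤ 2 ^ x / 2 ^ su := p2_le' W.u2
        calc Y * 2 ^ Q / 2 ^ g₀ 2 r = Y * (2 ^ Q / 2 ^ g₀ 2 r) := by ring
          _ ≤ Y * (2 ^ x / 2 ^ su) := mul_le_mul_of_nonneg_left h3 hY0.le
          _ = _ := by ring
      have h4 : Y / 2 ^ su ≤ 2 ^ x * Y / 2 ^ su := by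
        refine div_le_div_of_nonneg_right ?_ (by positivity)
        exact le_mul_of_one_le_left hY0.le (one_le_pow₀ (by norm_num))
      rw [e7]
      refine (abs_sub _ _).trans ((add_le_add (k12.trans h4) (kT2.trans h2)).trans
        (le_of_eq ?_))
      rw [pow_succ]
      ring
    rw [abs_mul]
    refine (mul_le_mul hCt h1 (abs_nonneg _) (by positivity)).trans (le_of_eq ?_)
    rw [hι, pow_add 2 su x, pow_add 2 x 1, pow_add 2 (x + x) 1, pow_add 2 x x]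
    field_simp
  have t3 : |(eval (bt F ω) (pderiv (some (c r)) (G 2 (ptr F J ω) (r + 1))) - K) *
      (aT - a2)| ≤ 2 ^ x * Y * ι := by
    rw [abs_mul]
    refine (mul_le_mul hC2 kT2 (abs_nonneg _) (by positivity)).trans (le_of_eq ?_)
    rw [hι, hMB, pow_add 2 (g₀ 2 r) x]
    field_simp
  have t4 : |dd (nfw r (G 2 (ptr F J ω)) (Cp (ptr F J ω))) (bt F ω)
        (up (c r) V a2) - nA| ≤ 2 ^ (C₃ + x) * Y * ι := by
    refine (k4.trans (mul_le_mul_of_nonneg_left n2 (by positivity))).trans ?_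
    have e7 : C₂ * (2 ^ x / 2 ^ (s r + MB)) * (Y * 2 ^ Q) = C₂ * (2 ^ x * Y * ι) := by
      rw [hι, hMB]
      field_simp
    rw [e7, pow_add]
    calc C₂ * (2 ^ x * Y * ι) ≤ 2 ^ C₃ * (2 ^ x * Y * ι) :=
          mul_le_mul_of_nonneg_right hC₃.le (by positivity)
      _ = _ := by ring
  have t2 : |dd (Ht L) (bt F ω) (up (c r) V aT) -
        dd (G 2 (ptr F J ω) (r + 1)) (bt F ω) (up (c r) V aT)| ≤ Y * ι := by
    refine kH.trans (le_of_eq ?_)
    rw [hι]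
    ring
  have hsum := (abs_add_le _ _).trans (add_le_add ((abs_add_le _ _).trans (add_le_add
    ((abs_add_le _ _).trans (add_le_add t1 t2)) t3)) t4)
  refine (mul_le_mul_of_nonneg_left hsum (by positivity)).trans ?_
  have e8 : (2 : ℝ) ^ s r * ι = 1 / 2 ^ (MB - Q) := by
    rw [hι, pow_add]
    field_simp
  obtain ⟨K', hK'⟩ : ∃ K', K' = C₃ + x + x + 1 := ⟨_, rfl⟩
  have hpw : ∀ {a b : ℕ}, a ≤ b → (2 : ℝ) ^ a ≤ 2 ^ b := fun h =>
    pow_le_pow_right₀ (by norm_num) h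
  have b1 : (2 : ℝ) ^ (x + x + 1) ≤ 2 ^ K' := hpw (by omega)
  have b2 : (1 : ℝ) ≤ 2 ^ K' := one_le_pow₀ (by norm_num)
  have b3 : (2 : ℝ) ^ x ≤ 2 ^ K' := hpw (by omega)
  have b4 : (2 : ℝ) ^ (C₃ + x) ≤ 2 ^ K' := hpw (by omega)
  have hYι : 0 < Y * ι := by positivity
  have b5 : 2 ^ (x + x + 1) * Y * ι + Y * ι + 2 ^ x * Y * ι + 2 ^ (C₃ + x) * Y * ι ≤
      2 ^ (K' + 2) * (Y * ι) := by
    rw [pow_add 2 K' 2]
    nlinarith [mul_le_mul_of_nonneg_right b1 hYι.le, mul_le_mul_of_nonneg_right b2 hYι.le,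
      mul_le_mul_of_nonneg_right b3 hYι.le, mul_le_mul_of_nonneg_right b4 hYι.le]
  refine (mul_le_mul_of_nonneg_left b5 (by positivity)).trans ?_
  have e9 : 2 ^ s r * (2 ^ (K' + 2) * (Y * ι)) = 2 ^ (K' + 2) * Y * (2 ^ s r * ι) := by ring
  rw [e9, e8, mul_one_div]
  refine div_le_div_of_nonneg_right ?_ (by positivity)
  rw [hY, ← pow_add]
  exact hpw (by rw [hK']; nlinarith)

/-- **The target `N - P(p, u)`.** -/
theorem nw_tgd (D r : ℕ) : ∃ C : ℕ, ∀ {m J : ℕ} {F : Fam m J} {c : ℕ → Fin m}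
    {n M ar MB q₀ Q x p e su : ℕ} {s : ℕ → ℕ} {qe : Fin r → ℕ} {o : ℕ → ℕ}
    {z g gc gT g₀ : ℕ → ℕ → ℕ} {B : F.Ω → Prop}
    {G T : ℕ → PtT F → ℕ → MvPolynomial (Option (Fin m)) ℝ}
    {H TH : ℕ → LnT F → ℕ → MvPolynomial (Option (Fin m)) ℝ}
    {Ht CL : LnT F → MvPolynomial (Option (Fin m)) ℝ}
    {Cp : PtT F → MvPolynomial (Option (Fin m)) ℝ},
    NwD F c r D n M ar MB q₀ Q x p e su s qe o z g gc gT g₀ B G T H TH Ht CL Cp →
    TgD F c r ((D + 1) * (D + 1)) ((D + 1) ^ (r + 4)) MB Q (C * (x + 1)) s o (g₀ 2) B (G 0) (G 2)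
      (nwy F c r Cp) (nwv F c r Cp) (nwp F c r (o 1) CL)
      (fun y => nW c r (G 1 y) (Cp y)) (fun y => nW c r (G 2 y) (Cp y))
      (fun L => nW c r (H 1 L) (CL L)) (nwT F c s r (o 1) q₀ (H 0) (H 1) Ht CL) := by
  obtain ⟨C₁, hown⟩ := nw_own D r
  obtain ⟨C₂, hvel⟩ := nw_vel D r
  obtain ⟨C₃, hbox⟩ := nw_box D r
  obtain ⟨C₄, hclo⟩ := nw_clo D r
  refine ⟨C₁ + C₂ + C₃ + C₄ + 1, ?_⟩
  intro m J F c n M ar MB q₀ Q x p e su s qe o z g gc gT g₀ B G T H TH Ht CL Cp W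
  obtain ⟨N, hN⟩ : ∃ N, N = (C₁ + C₂ + C₃ + C₄ + 1) * (x + 1) := ⟨_, rfl⟩
  rw [← hN]
  have hpw : ∀ {a : ℕ}, a ≤ N → (2 : ℝ) ^ a ≤ 2 ^ N := fun h =>
    pow_le_pow_right₀ (by norm_num) h
  have hC : ∀ {k : ℕ}, k ≤ C₁ + C₂ + C₃ + C₄ + 1 → k * (x + 1) ≤ N := fun h => by
    rw [hN]
    exact Nat.mul_le_mul_right _ h
  exact
    { dnp := by
        intro L
        unfold nwp
        have h1 : (MvPolynomial.aeval (lc (o 1) L) (CL L)).natDegree ≤ D := by
          have := natDegree_aev (K := 1) (D := D) (CL L) (lc (o 1) L) (natDegree_lc _ _) (W.dCL L)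
          rwa [mul_one] at this
        have h4 : D + 1 ≤ (D + 1) ^ (r + 4) := by
          calc D + 1 = (D + 1) ^ 1 := (pow_one _).symm
            _ ≤ _ := Nat.pow_le_pow_right (by omega) (by omega)
        refine (Polynomial.natDegree_sub_le _ _).trans (max_le ((natDegree_lc _ _ _).trans ?_)
          (h1.trans ?_)) <;> omega
      vnp := fun ω hω => W.val hω
      wnp := fun ω hω => W.der hω
      dA1 := fun y => deg_nW (W.dG 1 y) (W.dCp y)
      pA1 := fun y => dep_nW W.hc1 (W.pG 1 y) (W.pCp y)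
      dA2 := fun y => deg_nW (W.dG 2 y) (W.dCp y)
      pA2 := fun y => dep_nW W.hc1 (W.pG 2 y) (W.pCp y)
      dR1 := fun L => deg_nW (W.dH 1 L) (W.dCL L)
      cl1 := fun ω hω => W.clA hω
      box1 := fun ω hω => by
        obtain ⟨κ, h1, h2⟩ := hbox W ω hω
        refine ⟨κ, h1.trans (div_le_div_of_nonneg_right (hpw (hC (by omega))) (by positivity)),
          fun b hb => (h2 b hb).trans (div_le_div_of_nonneg_right (hpw (hC (by omega)))
            (by positivity))⟩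
      own1 := fun ω hω τ hτ => (hown W ω hω τ hτ).trans
        (div_le_div_of_nonneg_right (hpw (hC (by omega))) (by positivity))
      pos2 := fun ω hω => (W.pos hω).trans (div_le_div_of_nonneg_right (hpw (by
        rw [hN]
        nlinarith)) (by positivity))
      vel2 := fun ω hω => (hvel W ω hω).trans (div_le_div_of_nonneg_right
        (mul_le_mul_of_nonneg_right (hpw (hC (by omega))) (by positivity)) (by positivity))
      dT := by
        intro L i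
        unfold nwT
        refine (Polynomial.natDegree_C_mul_le _ _).trans ?_
        have hd : ∀ l, (frU r (frH F r q₀ (H 0) L) (H 1 L) l).totalDegree ≤ D :=
          frU_deg (trn_deg (W.dH 0 _)) (W.dH 1 L)
        have h1 : ∀ o', (hL c s (r + 1) (o 1) (frU r (frH F r q₀ (H 0) L) (H 1 L)) L
            o').natDegree ≤ D + 1 := by
          intro o'
          cases o' with
          | none =>
            show (lc (o 1) L none).natDegree ≤ D + 1
            exact (natDegree_lc _ _ _).trans (by omega)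
          | some j =>
            show (Polynomial.C (2 ^ s j) * (lc (o 1) L (some (c j)) -
              MvPolynomial.aeval (lc (o 1) L) (frU r (frH F r q₀ (H 0) L) (H 1 L)
                j))).natDegree ≤ _
            refine (Polynomial.natDegree_C_mul_le _ _).trans
              ((Polynomial.natDegree_sub_le _ _).trans
              (max_le ((natDegree_lc _ _ _).trans (by omega)) ?_))
            have h1 := natDegree_aev (K := 1) (D := D) (frU r (frH F r q₀ (H 0) L) (H 1 L) j)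
              (lc (o 1) L) (natDegree_lc _ _) (hd j)
            omega
        have h2 : (Ht L - CL L - nW c r (H 1 L) (CL L)).totalDegree ≤ (D + 1) * (D + 1) := by
          refine (totalDegree_sub _ _).trans (max_le ((totalDegree_sub _ _).trans (max_le
            ((W.dt L).trans (by nlinarith)) ((W.dCL L).trans (by nlinarith))))
            (deg_nW (W.dH 1 L) (W.dCL L)))
        have h3 : (pderiv (some i.castSucc) (pull c s (frU r (frH F r q₀ (H 0) L) (H 1 L))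
            (r + 1) (Ht L - CL L -
            nW c r (H 1 L) (CL L)))).totalDegree ≤ (D + 1) * (D + 1) * (D + 1) ^ (r + 1) :=
          (pd_deg _ _).trans (deg_pull hd h2)
        refine (natDegree_aev _ _ h1 h3).trans (le_of_eq ?_)
        ring
      clo := fun ω hω i => (hclo W ω hω i).trans
        (div_le_div_of_nonneg_right (hpw (hC (by omega))) (by positivity)) }

/-- **The deterministic part of `TL` for the target `N - P(p, u)`.** -/
theorem nw_tld (D r K : ℕ) (hK : 1 ≤ K)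
    (hK' : (D + 1) * (D + 1) * ((D + 1) * (D + 1) + 1) ^ r ≤ K) : ∃ C : ℕ,
    ∀ {m J : ℕ} {F : Fam m J} {c : ℕ → Fin m}
    {n M ar MB q₀ Q x p e su : ℕ} {s : ℕ → ℕ} {qe : Fin r → ℕ} {o : ℕ → ℕ}
    {z g gc gT g₀ : ℕ → ℕ → ℕ} {B : F.Ω → Prop}
    {G T : ℕ → PtT F → ℕ → MvPolynomial (Option (Fin m)) ℝ}
    {H TH : ℕ → LnT F → ℕ → MvPolynomial (Option (Fin m)) ℝ}
    {Ht CL : LnT F → MvPolynomial (Option (Fin m)) ℝ}
    {Cp : PtT F → MvPolynomial (Option (Fin m)) ℝ},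
    NwD F c r D n M ar MB q₀ Q x p e su s qe o z g gc gT g₀ B G T H TH Ht CL Cp →
    ∀ {V V' : Type} (v : F.Ω → V) (v' : F.Ω → V') (vL : LnT F → V) (D' : ℕ),
    (D + 1) ^ (r + 4) ≤ D' →
    TLd K r D' Q MB (2 ^ (J - o 1)) (2 ^ (C * (x + 1))) B (slam F (o 1)) (twF F (o 1))
      (kzF F c s r (o 1) Q v v' (G 0) (fun y => nW c r (G 1 y) (Cp y))
        (fun y => nW c r (G 2 y) (Cp y)))
      (kaF F c s r (o 1) Q v (G 0) (fun y => nW c r (G 1 y) (Cp y)))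
      (fun ω => eL c s r (o 1) qe (frH F r q₀ (H 0) (slam F (o 1) ω)) (slam F (o 1) ω))
      (Xe r qe) (Pfz c s r Q J ((D + 1) * (D + 1))) (Pgz c s r (o 1) Q J ((D + 1) * (D + 1)))
      (ctF F c s r (o 1) q₀ Q qe (H 0) (fun L => nW c r (H 1 L) (CL L)) vL)
      (scF F c s r (o 1) q₀ Q qe (G 0) (H 0))
      (fun L => xL c s r (o 1) Q (frH F r q₀ (H 0) L) L)
      (nT F s r (o 1) (nwp F c r (o 1) CL) (fun L => nW c r (H 1 L) (CL L)))
      (nwT F c s r (o 1) q₀ (H 0) (H 1) Ht CL) := by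
  obtain ⟨C₁, htg⟩ := nw_tgd D r
  obtain ⟨C₂, hdet⟩ := tg_det ((D + 1) * (D + 1)) ((D + 1) ^ (r + 4)) r K hK hK'
  refine ⟨C₂ * (C₁ + 3), ?_⟩
  intro m J F c n M ar MB q₀ Q x p e su s qe o z g gc gT g₀ B G T H TH Ht CL Cp W V V' v v' vL D'
    hD'
  have hx : C₁ * (x + 1) ≤ (C₁ + 2) * (x + 1) := Nat.mul_le_mul_right _ (by omega)
  have T := htg W
  have Fr := W.frd (D' := (D + 1) * (D + 1)) (x' := (C₁ + 2) * (x + 1)) (by nlinarith)
    (by nlinarith)
  have T' : TgD F c r ((D + 1) * (D + 1)) ((D + 1) ^ (r + 4)) MB Q ((C₁ + 2) * (x + 1)) s o (g₀ 2)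
      B (G 0) (G 2) (nwy F c r Cp) (nwv F c r Cp) (nwp F c r (o 1) CL)
      (fun y => nW c r (G 1 y) (Cp y)) (fun y => nW c r (G 2 y) (Cp y))
      (fun L => nW c r (H 1 L) (CL L)) (nwT F c s r (o 1) q₀ (H 0) (H 1) Ht CL) :=
    { dnp := T.dnp
      vnp := T.vnp
      wnp := T.wnp
      dA1 := T.dA1
      pA1 := T.pA1
      dA2 := T.dA2
      pA2 := T.pA2
      dR1 := T.dR1
      cl1 := T.cl1
      box1 := fun ω hω => by
        obtain ⟨κ, h1, h2⟩ := T.box1 ω hω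
        exact ⟨κ, h1.trans (div_le_div_of_nonneg_right (pow_le_pow_right₀ (by norm_num) hx)
          (by positivity)), fun b hb => (h2 b hb).trans (div_le_div_of_nonneg_right
          (pow_le_pow_right₀ (by norm_num) hx) (by positivity))⟩
      own1 := fun ω hω τ hτ => (T.own1 ω hω τ hτ).trans
        (div_le_div_of_nonneg_right (pow_le_pow_right₀ (by norm_num) hx) (by positivity))
      pos2 := fun ω hω => (T.pos2 ω hω).trans
        (div_le_div_of_nonneg_right (pow_le_pow_right₀ (by norm_num) hx) (by positivity))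
      vel2 := fun ω hω => (T.vel2 ω hω).trans (div_le_div_of_nonneg_right
        (mul_le_mul_of_nonneg_right (pow_le_pow_right₀ (by norm_num) hx) (by positivity))
        (by positivity))
      dT := T.dT
      clo := fun ω hω i => (T.clo ω hω i).trans
        (div_le_div_of_nonneg_right (pow_le_pow_right₀ (by norm_num) hx) (by positivity)) }
  have hD1 : (D + 1) * (D + 1) ≤ D' := by
    refine le_trans ?_ hD'
    calc (D + 1) * (D + 1) = (D + 1) ^ 2 := by ring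
      _ ≤ _ := Nat.pow_le_pow_right (by omega) (by omega)
  have h1 := hdet Fr T' v v' vL D' hD1 hD'
  refine h1.mono ?_
  refine pow_le_pow_right₀ (by norm_num) ?_
  nlinarith

end Pool.V1E
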