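import Pool.Agent.H73.D2.Tmn
import Pool.Agent.H92.D2.Nwf
import Pool.Agent.H42.D2.Nhp

/-!
# The end for the target `N - P(p, u)` at one scale, from the slope hypothesis and the velocity

`x10n_fin`: `x10n_q` with the labels of the tubes from the time line (`TlW`), the velocity of the target
(`VfN`) and the numbers.
-/

set_option autoImplicit false

namespace Pool.V1E

open Finset Real MvPolynomial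
open Pool.Agent.H49.Ent Pool.Agent.H32.Dense Pool.STK Pool.KA Pool.KSAT Pool.K2S Pool.PB Pool.S6C
open Pool.GEN Pool.CHT Pool.CHX Pool.ISO Pool.D2R Pool.D2G30 Pool.END18 Pool.D2Con
open Pool.LBT (ThrOf)
open Pool.LEV (Law)
open Pool.NHN (NhNN nhN_cls)

/-- A smaller constant. -/
theorem _root_.Pool.NHN.NhNN.mono {m r d : ℕ} {P : List (Fin m) × Fin m → ℝ → ℝ → ℝ}
    {c : ℕ → Fin m} {θ C Eb η₀ ζ χ δ C' C₂ : ℝ} {o : ℕ → ℝ} {lv : ℕ → ℕ → ℝ} {aq : ℚ}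
    {e h gn : ℝ} (W : NhNN r d P c θ C Eb η₀ ζ χ δ C' o lv aq e h gn) (hC : C₂ ≤ C') :
    NhNN r d P c θ C Eb η₀ ζ χ δ C₂ o lv aq e h gn := by
  have h0 := W.χ0
  have h1 := W.ζ0
  have hm : C₂ * (χ + gn) ≤ C' * (χ + gn) :=
    mul_le_mul_of_nonneg_right hC (by linarith [W.gn0])
  exact { W with
    sm := hm.trans_lt W.sm
    e2 := by linarith [W.e2]
    top := fun l hl => by linarith [W.top l hl] }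

/-- A smaller constant. -/
theorem HnN.mono {r CM : ℕ} {Eb η₀ χ mb kk ζ δ C' C₂ : ℝ} {o : ℕ → ℝ} {lv : ℕ → ℕ → ℝ}
    {qf : ℕ → Fin r → ℕ} {nt : ℕ → ℝ} {P₁ P₂ : Fin r → ℝ} {oo : ℝ} {fr : ℕ → ℝ} {hT κT : ℝ}
    (W : HnN r CM Eb η₀ χ mb kk ζ δ C' o lv qf nt P₁ P₂ oo fr hT κT) (hC : C₂ ≤ C') :
    HnN r CM Eb η₀ χ mb kk ζ δ C₂ o lv qf nt P₁ P₂ oo fr hT κT := by
  have hm : C₂ * χ ≤ C' * χ := mul_le_mul_of_nonneg_right hC W.χ0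
  exact { W with
    q0 := by linarith [W.q0]
    qe0 := fun i => by linarith [W.qe0 i]
    o00 := by linarith [W.o00]
    sm := hm.trans_lt W.sm }

/-- **The end at one scale** for the target `N - P(p, u)`, from the slope hypothesis, the time line and
the velocity. -/
theorem x10n_fin (m r S₂ CM : ℕ) (hr : 1 ≤ r) (hS₂ : 1 ≤ S₂) (su s : ℝ) (hsu : 1 ≤ su)
    (hs : 1 < s) :
    ∃ D : ℕ, 1 ≤ D ∧ ∀ Dr : ℕ, D ≤ Dr → ∃ C : ℝ, 1 ≤ C ∧ ∀ Dw : ℕ, D ≤ Dw →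
    ∀ del : ℝ, 0 < del → ∃ δ C' : ℝ, 0 < δ ∧ δ ≤ 1 ∧ 1 ≤ C' ∧ ∃ X₀ : ℝ, 0 < X₀ ∧
    ∀ h X : ℝ, 0 < h → 10 * (C * h) < X → X ≤ X₀ →
    ∀ {S : PCl m} {P P₂ : List (Fin m) × Fin m → ℝ → ℝ → ℝ} {θ θ₂ : ℝ} {c : ℕ → Fin m}
    {Pt : ℝ → ℝ → ℝ} {R : ℕ → Prop} {N₁ N₂ d : ℕ} {vw : ℕ → ℝ}
    {k₁ K Eb e₂ ε q t kk κ κ₁ K₂ K₃ : ℝ} {Ξ : XiN m} {qf : ℕ → Fin r → ℕ}
    {nt : ℕ → ℝ} {P₁ P₃ : Fin r → ℝ} {oo : ℝ} {fr : ℕ → ℝ} {hT κT : ℝ}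
    {aq : ℚ} {e₃ h₃ gn : ℝ},
    RecNr S P P₂ θ θ₂ c r Pt R S₂ N₁ N₂ vw su s k₁ K Eb e₂ ε q t → 3 * C * ε < h →
    (∀ (J : ℕ) (i : Fin r), ⌊s * q * J⌋₊ + (⌊(t + q) * J⌋₊ - ⌊t * J⌋₊) ≤ qf J i) →
    0 < κ₁ → 0 < K₃ → κ₁ * K₃ ≤ κ → 0 < K₂ → d ≤ N₂ →
    SlH S c r D Dw Dr N₁ N₂ R C (t + (s + 1) * q) Eb (3 * ε * q) (h * q) (X * q) (s * q) Pt
      (fun k => t + vF k₁ vw k * q)
      (fun k l => lvN P c (r + 1) Pt l (t + vF k₁ vw k * q) (t + vF k₁ vw k * q))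
      (fun k l => bet P c l (t + (s + 1) * q) (t + vF k₁ vw k * q)) κ₁ K₃ Ξ →
    VfN S c r D Dw Dr N₁ N₂ R C (t + (s + 1) * q) Eb (3 * ε * q) (h * q) (X * q) (s * q) kk
      Pt (fun k => t + vF k₁ vw k * q)
      (fun k l => lvN P c (r + 1) Pt l (t + vF k₁ vw k * q) (t + vF k₁ vw k * q))
      (fun k l => bet P c l (t + (s + 1) * q) (t + vF k₁ vw k * q)) κ qf δ K₂ Ξ →
    TlW S c r nt P₁ P₃ (t + vF k₁ vw 2 * q) (t + vF k₁ vw 0 * q) (t + vF k₁ vw 3 * q) oo fr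
      hT κT →
    HnN r CM Eb (h * q) (X * q) (s * q) kk (h * q) δ C' (fun k => t + vF k₁ vw k * q)
      (fun k l => lvN P c (r + 1) Pt l (t + vF k₁ vw k * q) (t + vF k₁ vw k * q)) qf nt P₁ P₃ oo
      fr hT κT →
    NhNN r d P₂ c θ₂ C Eb (h * q) (h * q) (X * q) δ C' (fun k => t + vF k₁ vw k * q)
      (fun k l => lvN P c (r + 1) Pt l (t + vF k₁ vw k * q) (t + vF k₁ vw k * q)) aq e₃ h₃ gn →
    Pt (t + q) (t + q) ≤ Pt (t + q) t + del * q := by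
  obtain ⟨D, hD, hx⟩ := x10n_q m r S₂ hr hS₂ su s hsu hs
  refine ⟨D, hD, fun Dr hDr => ?_⟩
  obtain ⟨C, hC, hx⟩ := hx Dr hDr
  refine ⟨C, hC, fun Dw hDw del hdel => ?_⟩
  have hK' : 1 ≤ (Dw + 1) * (Dw + 1) * ((Dw + 1) * (Dw + 1) + 1) ^ r :=
    Nat.succ_le_of_lt (by positivity)
  obtain ⟨δ₁, hδ₁, hδ₁4, X₀, hX₀, hx⟩ := hx Dw _ _ hDw hK' le_rfl le_rfl del hdel
  obtain ⟨δ, C₁, hδ, hδ1, hC₁, hhi⟩ := him_nw Dw r _ _ CM hr hK' le_rfl le_rfl hδ₁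
  obtain ⟨C₂, hC₂, hnh⟩ := nhN_cls Dw r hr
  refine ⟨δ, max C₁ C₂, hδ, hδ1, hC₁.trans (le_max_left _ _), X₀, hX₀, ?_⟩
  intro h X hh hhX hX S P P₂ θ θ₂ c Pt R N₁ N₂ d vw k₁ K Eb e₂ ε q t kk κ κ₁ K₂ K₃ Ξ qf nt P₁ P₃ oo
    fr hT κT aq e₃ h₃ gn Rc hε hqf hκ₁ hK₃ hκκ hK₂ hd hSl hVf hTl Hn Nh
  have hκ : 0 < κ := (mul_pos hκ₁ hK₃).trans_le hκκ
  have htm := fun (ψ : ℝ) (hψ : 0 < ψ) => tmh_cond Rc.tmh hψ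
  exact hx h X hh hhX hX Rc hε hqf hκ₁ hK₃ hκκ hK₂.le hSl
    (hhi htm hTl (hnh hd Rc.thr₂ htm (Nh.mono (le_max_right _ _))) hVf hK₂ hκ.le le_rfl
      (Hn.mono (le_max_left _ _)))

end Pool.V1E
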