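import Pool.Agent.H73.D2.Tmd
import Pool.Agent.H92.D2.Ceg

/-!
# The record of the end at any place of the record of a window

`RecG.balAt`: the data of a ball window of the target at the place `i`. `RecG.recFr`: the record `RecFr`
from `RecG` for the target at the place `r` over coordinates of slope one.
-/

set_option autoImplicit false

namespace Pool.PKG

open Finset Real
open Pool.Agent.H49.Ent Pool.Agent.H32.Dense Pool.STK Pool.KA Pool.KSAT Pool.K2S Pool.PB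
open Pool.GEN Pool.S6C Pool.STAT Pool.CHT Pool.GRW Pool.ONE Pool.STA
open Pool.LBT (LSys ThrOf)
open Pool.LEV (Law)
open Pool.ALL (RateOf)
open Pool.ISO (PtD lvN WinD)
open Pool.V1E (RecFr vF vF_ge)
open Pool.D2R (BalD)

section

variable {m : ℕ} {S : PCl m} {al : ℝ} {g₀ : ℝ → ℝ} {P : List (Fin m) × Fin m → ℝ → ℝ → ℝ}
  {θ : ℝ} {P₂ : ℕ → List (Fin m) × Fin m → ℝ → ℝ → ℝ} {θ₂ Eb e₂ : ℕ → ℝ}
  {c : ℕ → Fin m} {Pt : ℝ → ℝ → ℝ} {rt : ℝ → ℝ} {h K₀ g : ℝ} {L T : ℕ → ℝ → ℝ → ℝ}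
  {Sl : ℕ → ℝ} {κ : ℕ → Kg} {G : Set ℝ} {S₀ N : ℕ} {A V : ℕ → ℝ} {S₂ N' : ℕ} {V' : ℕ → ℝ}
  {K ε q t : ℝ}
  (R : RecG S al g₀ P θ P₂ θ₂ Eb e₂ c Pt rt h K₀ g L T Sl κ G S₀ N A V S₂ N' V' K ε q t)
include R

/-- **The data of a ball window** of the chain, for the target at the place `i`. -/
theorem RecG.balAt {i : ℕ} (hi1 : 1 ≤ i) (hi : i < m) (hS : S₀ ≤ S₂) {k : ℕ} (hk : k < N') {x : ℝ}
    (hx : V' k < x) (hxK : x - V' k ≤ K) (hVK : |V' k| ≤ K) :
    BalD S P θ c i (L i) (t + x * q) (t + V' k * q) S₂ (Eb i) := by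
  have W := R.tg i hi1 hi
  have hq := R.q0
  have h1 : V' k * q < x * q := mul_lt_mul_of_pos_right hx hq
  obtain ⟨ρ, vs, e, e₀, E, sg, Q, k1, k2, -⟩ := (W.ptc k hk).mono hS
  refine ⟨by linarith, ⟨ρ, vs, e, e₀, E, sg, Q, k1, k2⟩, fun l hl => ?_⟩
  have h3 := W.room l hl (t + V' k * q) (by
    rw [add_sub_cancel_left, abs_mul, abs_of_pos hq]
    exact mul_le_mul_of_nonneg_right hVK hq.le)
  have h5 : (x - V' k) * q ≤ K * q := mul_le_mul_of_nonneg_right hxK hq.le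
  have h6 : 0 ≤ K * q := by
    have := (abs_nonneg (V' k)).trans hVK
    positivity
  rw [← R.lv_at hi hl]
  linarith

/-- **The record of the end** for the target at the place `r`. -/
theorem RecG.recFr {r : ℕ} (hr1 : 1 ≤ r) (hr : r < m) (hκ : ∀ l < r, κ l = .one)
    (hκt : κ r = .stp) {k₁ : ℝ} {vw : ℕ → ℝ} {N₂ : ℕ} (hN3 : 3 ≤ N₂)
    (hrow : ∀ k ≤ 1, ∃ j < N, A j = Sl r + 1 ∧ V j = vF k₁ vw k)
    (hpair : ∃ j < N, A j = 1 ∧ V j = 0)
    (hbal : ∀ k, 1 < k → k ≤ N₂ → ∃ j < N', V' j = vF k₁ vw k)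
    (hvw2 : ∀ k, 4 ≤ k → k ≤ N₂ → vw k ≤ 2)
    (hvwl : ∀ k, 4 ≤ k → k ≤ N₂ → -k₁ ≤ vw k) (hS : S₀ ≤ S₂) (hε : 0 ≤ ε)
    (hkk : Sl r + 2 ≤ k₁) (hkK : 2 * Sl r + k₁ + 6 ≤ K) :
    RecFr S P (P₂ r) θ (θ₂ r) c r (L r) S₂ N₂ vw (Sl r) k₁ K (Eb r) (e₂ r) ε q t := by
  have W := R.tg r hr1 hr
  have hkd := R.kd r hr
  rw [hκt] at hkd
  have hs2 : 2 < Sl r := hkd.1
  have hq := R.q0
  have hlvL : ∀ l ≤ r, ∀ a w : ℝ, lvN P c r (L r) l a w = L l a w := fun l hl a w => by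
    rw [← R.lv_at hr hl]
  have hVb : ∀ k ≤ N₂, -k₁ ≤ vF k₁ vw k ∧ vF k₁ vw k ≤ 2 := by
    intro k hk
    rcases Nat.lt_or_ge k 4 with h4 | h4
    · interval_cases k
      · simp only [vF, if_true]
        constructor <;> linarith
      · norm_num [vF]
        linarith
      · norm_num [vF]
        linarith
      · norm_num [vF]
        linarith
    · rw [vF_ge h4]
      exact ⟨hvwl k h4 hk, hvw2 k h4 hk⟩
  have hK0 : 0 ≤ K := by linarith
  have hkq : k₁ * q + 2 * (Sl r * q) + 6 * q ≤ K * q := by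
    have := mul_le_mul_of_nonneg_right hkK hq.le
    linarith
  have hs2q : 2 * q < Sl r * q := mul_lt_mul_of_pos_right hs2 hq
  have hk₁q : Sl r * q + 2 * q ≤ k₁ * q := by
    have := mul_le_mul_of_nonneg_right hkk hq.le
    linarith
  have hVq : ∀ k ≤ N₂, -(k₁ * q) ≤ vF k₁ vw k * q ∧ vF k₁ vw k * q ≤ 2 * q := fun k hk => by
    have h1 := mul_le_mul_of_nonneg_right (hVb k hk).1 hq.le
    have h2 := mul_le_mul_of_nonneg_right (hVb k hk).2 hq.le
    exact ⟨by linarith, h2⟩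
  have htt : |t - t| ≤ K * q := by
    rw [sub_self, abs_zero]
    exact mul_nonneg hK0 hq.le
  have ht0 := R.t0
  have ht1 := R.t1
  have v0 : vF k₁ vw 0 = 0 := by simp [vF]
  have hpt : ∀ a w : ℝ, 0 < w → w ≤ a → a ≤ 1 → a ≤ L r a w := fun a w h1 h2 h3 => by
    by_cases h4 : r + 1 < m
    · rw [R.lv_lt h4]
      exact R.thr.low _ _ _ h1.le h2 h3
    · have h5 : r = m - 1 := by omega
      rw [h5, R.lv_last (by omega)]
      exact R.tgs.low () _ _ h1.le h2 h3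
  refine ⟨R.ne, R.thr, R.th0, W.thr₂, R.tmh, R.inj.mono fun x hx => ?_, R.lawL r hr, W.Eb0.le, hq,
    hε, hkk, hkK, ht0, ht1, hN3, fun k hk => ?_, fun k hk hk' => ?_, hvw2, fun l hl x hx => ?_,
    fun x hx => ?_, fun l hl x hx => ?_, W.eθ, W.Ebe, ?_, fun k hk => ?_, fun e he => ?_⟩
  · rw [Set.mem_Iio] at hx ⊢
    omega
  · obtain ⟨j, hj, hA, hV⟩ := hrow k hk
    have h1 := R.winD (i := r) hr1 hr (k := j) hj
      (by rw [hV]; linarith [(hVb k (by omega)).1])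
      (by rw [hA, hV]; linarith [(hVb k (by omega)).2])
      (by rw [hA]; linarith) (ε' := 3 * ε * q) le_rfl hε (Rg := fun _ => True)
      (fun l hl _ => Or.inl (hκ l hl))
    rw [hA, hV] at h1
    exact h1
  · obtain ⟨j, hj, hV⟩ := hbal k hk hk'
    have h1 := R.balAt hr1 hr hS hj (x := Sl r + 1)
      (by rw [hV]; linarith [(hVb k hk').2]) (by rw [hV]; linarith [(hVb k hk').1])
      (by
        rw [hV, abs_le]
        constructor
        · linarith [(hVb k hk').1]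
        · linarith [(hVb k hk').2])
    rw [hV] at h1
    exact h1
  · have h1 := R.dL l (by omega) x hx
    have h2 := R.kd l (by omega)
    rw [hκ l hl] at h2
    have h3 : Sl l = 1 := h2
    rw [h3, one_mul] at h1
    rw [hlvL l hl.le, hlvL l hl.le]
    exact h1
  · exact R.dL r hr x hx
  · rw [hlvL l hl]
    exact W.room l hl x hx
  · obtain ⟨j, hj, hA, hV⟩ := hrow 0 (by omega)
    have h1 := hkd.2 (t + (Sl r + 1) * q) t (by linarith) (by linarith) (by linarith)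
    have h2 := (R.TL j hj r hr).1
    have h3 := abs_le.1 (R.dT r hr t htt)
    rw [hA, hV, v0] at h2
    simp only [zero_mul, add_zero] at h2
    linarith [h3.1]
  · have h1 := hVq k (by omega)
    exact ⟨hpt _ _ (by linarith) le_rfl (by linarith), hpt _ _ (by linarith) (by linarith)
      (by linarith)⟩
  · obtain ⟨j, hj, hA, hV⟩ := hpair
    obtain ⟨d, hd, h1⟩ := W.ratN (k := j) hj e he
    refine ⟨d, hd, fun a' w' k1 k2 k3 k4 k5 => ?_⟩
    rw [hA, hV, one_mul, zero_mul, add_zero] at h1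
    exact h1 a' w' k1 k2 k3 k4 k5

end

end Pool.PKG
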