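import Pool.Agent.H73.D2.Tmd
import Pool.Agent.H18.PN.Hif
import Pool.Agent.H42.D2.Nhf

/-!
# The end at one scale, frame and ball in a chain, from the velocity of the target

`x10f_fin`: `x10f_q` with the labels of the tubes from the time line (`TlW`), the velocity of the target
(`VfW`) and the numbers.
-/

set_option autoImplicit false

namespace Pool.V1E

open Finset Real MvPolynomial
open Pool.Agent.H49.Ent Pool.Agent.H32.Dense Pool.STK Pool.KA Pool.KSAT Pool.K2S Pool.PB Pool.S6C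
open Pool.GEN Pool.CHT Pool.CHX Pool.ISO Pool.D2R Pool.D2G30 Pool.END18 Pool.D2Con
open Pool.LBT (ThrOf)
open Pool.LEV (Law)
open Pool.NHZ (NhNF nhF_cls)

/-- A smaller constant. -/
theorem _root_.Pool.NHZ.NhNF.mono {m r : ℕ} {P : List (Fin m) × Fin m → ℝ → ℝ → ℝ}
    {c : ℕ → Fin m} {θ C Eb η₀ ζ δ C' C₂ : ℝ} {o : ℕ → ℝ} {lv : ℕ → ℕ → ℝ} {aq : ℚ}
    {e h gn : ℝ} (W : NhNF r P c θ C Eb η₀ ζ δ C' o lv aq e h gn) (hC : C₂ ≤ C') :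
    NhNF r P c θ C Eb η₀ ζ δ C₂ o lv aq e h gn := by
  have h0 : 0 ≤ C * (ζ + η₀) := mul_nonneg (by linarith [W.C1]) (by linarith [W.ζ0, W.η0])
  have hm : C₂ * (C * (ζ + η₀) + gn) ≤ C' * (C * (ζ + η₀) + gn) :=
    mul_le_mul_of_nonneg_right hC (by linarith [W.gn0])
  exact { W with
    sm := hm.trans_lt W.sm
    e2 := by linarith [W.e2]
    top := fun l hl => by linarith [W.top l hl] }

/-- A smaller constant. -/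
theorem HfN.mono {r CM : ℕ} {C Eb η₀ ζ mb kk δ C' C₂ : ℝ} {o : ℕ → ℝ} {lv : ℕ → ℕ → ℝ}
    {qf : ℕ → Fin r → ℕ} {nt : ℕ → ℝ} {P₁ P₂ : Fin r → ℝ} {oo : ℝ} {fr : ℕ → ℝ} {hT κT : ℝ}
    (W : HfN r CM C Eb η₀ ζ mb kk δ C' o lv qf nt P₁ P₂ oo fr hT κT) (hC : C₂ ≤ C') :
    HfN r CM C Eb η₀ ζ mb kk δ C₂ o lv qf nt P₁ P₂ oo fr hT κT := by
  have h0 : 0 ≤ C * (ζ + η₀) := mul_nonneg (by linarith [W.C1]) (by linarith [W.ζ0, W.η0])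
  have hm : C₂ * (C * (ζ + η₀)) ≤ C' * (C * (ζ + η₀)) := mul_le_mul_of_nonneg_right hC h0
  exact { W with
    q0 := by linarith [W.q0]
    qe0 := fun i => by linarith [W.qe0 i]
    o00 := by linarith [W.o00]
    sm := hm.trans_lt W.sm }

/-- **The end at one scale**, frame and ball in a chain, from the time line and the velocity. -/
theorem x10f_fin (m r S₂ CM : ℕ) (hr : 1 ≤ r) (hS₂ : 1 ≤ S₂) (s : ℝ) (hs : 2 < s) :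
    ∃ D : ℕ, 1 ≤ D ∧ ∀ Dr : ℕ, D ≤ Dr → ∃ C : ℝ, 1 ≤ C ∧
    ∀ del : ℝ, 0 < del → ∃ δ C' : ℝ, 0 < δ ∧ δ ≤ 1 ∧ 1 ≤ C' ∧ ∃ h₀ : ℝ, 0 < h₀ ∧
    ∀ h : ℝ, 0 < h → h ≤ h₀ →
    ∀ {S : PCl m} {P P₂ : List (Fin m) × Fin m → ℝ → ℝ → ℝ} {θ θ₂ : ℝ} {c : ℕ → Fin m}
    {Pt : ℝ → ℝ → ℝ} {N₂ : ℕ} {vw : ℕ → ℝ} {k₁ K Eb e₂ ε q t kk κ K₂ : ℝ}
    {qf : ℕ → Fin r → ℕ} {nt : ℕ → ℝ} {P₁ P₃ : Fin r → ℝ} {oo : ℝ} {fr : ℕ → ℝ} {hT κT : ℝ}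
    {aq : ℚ} {e₃ h₃ gn : ℝ},
    RecFr S P P₂ θ θ₂ c r Pt S₂ N₂ vw s k₁ K Eb e₂ ε q t → 3 * C * ε < h → 2 * ε ≤ h →
    (∀ (J : ℕ) (i : Fin r), ⌊s * q * J⌋₊ + (⌊(t + q) * J⌋₊ - ⌊t * J⌋₊) ≤ qf J i) → 0 < κ →
    0 < K₂ → 4 ≤ N₂ →
    VfW S c r D Dr N₂ C (t + (s + 1) * q) Eb (3 * ε * q) (h * q) (h * q) (s * q) kk Pt
      (fun k => t + vF k₁ vw k * q)
      (fun k l => lvN P c r Pt l (t + vF k₁ vw k * q) (t + vF k₁ vw k * q))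
      (fun k l => bet P c l (t + (s + 1) * q) (t + vF k₁ vw k * q)) κ qf δ K₂ →
    TlW S c r nt P₁ P₃ (t + vF k₁ vw 2 * q) (t + vF k₁ vw 0 * q) (t + vF k₁ vw 3 * q) oo fr
      hT κT →
    HfN r CM C Eb (h * q) (h * q) (s * q) kk δ C' (fun k => t + vF k₁ vw k * q)
      (fun k l => lvN P c r Pt l (t + vF k₁ vw k * q) (t + vF k₁ vw k * q)) qf nt P₁ P₃ oo
      fr hT κT →
    NhNF r P₂ c θ₂ C Eb (h * q) (h * q) δ C' (fun k => t + vF k₁ vw k * q)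
      (fun k l => lvN P c r Pt l (t + vF k₁ vw k * q) (t + vF k₁ vw k * q)) aq e₃ h₃ gn →
    Pt (t + q) (t + q) ≤ Pt (t + q) t + del * q := by
  obtain ⟨D, hD, hx⟩ := x10f_q m r S₂ hr hS₂ s hs
  refine ⟨D, hD, fun Dr hDr => ?_⟩
  obtain ⟨K', D', C, hK', hC, hDK, hKD, hDD, hx⟩ := hx Dr hDr
  refine ⟨C, hC, fun del hdel => ?_⟩
  obtain ⟨δ₁, hδ₁, hδ₁4, h₀, hh₀, hx⟩ := hx del hdel
  obtain ⟨δ, C₁, hδ, hδ1, hC₁, hhi⟩ := him_f D r K' D' CM hr hK' hDK hKD hDD hδ₁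
  obtain ⟨C₂, hC₂, hnh⟩ := nhF_cls D r hr
  refine ⟨δ, max C₁ C₂, hδ, hδ1, hC₁.trans (le_max_left _ _), h₀, hh₀, ?_⟩
  intro h hh hhX S P P₂ θ θ₂ c Pt N₂ vw k₁ K Eb e₂ ε q t kk κ K₂ qf nt P₁ P₃ oo
    fr hT κT aq e₃ h₃ gn Rc hε hε2 hqf hκ hK₂ hN4 hVf hTl Hn Nh
  have htm := fun (ψ : ℝ) (hψ : 0 < ψ) => tmh_cond Rc.tmh hψ
  exact hx h hh hhX Rc hε hε2 hqf hκ hK₂.le
    (hhi htm hTl (hnh hN4 Rc.thr₂ htm (Nh.mono (le_max_right _ _))) hVf hK₂ hκ.le le_rfl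
      (Hn.mono (le_max_left _ _)))

end Pool.V1E
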