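import Pool.Agent.H73.D2.Tmt
import Pool.Agent.H91.FR.QpG
import Pool.Agent.H92.D2.Cel

/-!
# The class theorem of a steep coordinate over coordinates of slope one, from its velocity

`VelU`: the velocity of the coordinate at the place `r` is dead at all scales of the record. `celQG_u`:
then there is no drop at the place `r`.
-/

set_option autoImplicit false

namespace Pool.PKG

open Finset Real
open Pool.Agent.H49.Ent Pool.Agent.H32.Dense Pool.STK Pool.KA Pool.KSAT Pool.K2S Pool.PB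
open Pool.GEN Pool.S6C Pool.STAT Pool.CHT Pool.GRW Pool.ONE Pool.STA
open Pool.LBT (LSys ThrOf)
open Pool.LEV (Law)
open Pool.ALL (RateOf)
open Pool.ISO (PtD lvN WinD)
open Pool.V1E (vF vF_ge TlW HnN HfN VfW x10f_fin)
open Pool.LA91 (TlAt epT slT FaQ sumQ)

/-- **The dead velocity of the place** `r` at all scales of the record. `Ar`, `Vr`: pairs, `Vv`: windows
of the chain, `Q`: the property of the windows; `hh q`: the precision of the charts, `k₁ q`: the distance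
of the frame, `kf q`: the precision of the positions. -/
def VelU (m r : ℕ) (h : ℝ) (Sl : ℕ → ℝ) (κ : ℕ → Kg) {ι : Type} (Q : PropG m ι) : Prop :=
  ∀ al : ℝ, 0 < al → ∀ K₀ : ℝ, 0 < K₀ → ∀ S₀ : ℕ, 1 ≤ S₀ →
  ∃ (Kr : ℝ) (Nr : ℕ) (Ar Vr : ℕ → ℝ), 1 ≤ Kr ∧ (∀ k < Nr, -Kr ≤ Vr k ∧ Vr k ≤ Ar k ∧ Ar k ≤ Kr) ∧
  ∀ S₂ : ℕ, S₀ ≤ S₂ → ∀ (D Dr : ℕ) (C δ : ℝ), 1 ≤ D → D ≤ Dr → 1 ≤ C → 0 < δ → δ ≤ 1 →
  ∃ kf h₁ : ℝ, Sl r ≤ kf ∧ 0 < h₁ ∧ ∀ hh k₁ : ℝ, 0 < hh → hh ≤ h₁ → kf + 8 ≤ k₁ →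
  ∃ (K₁ : ℝ) (Nv : ℕ) (Vv : ℕ → ℝ), (∀ j < Nv, -K₁ ≤ Vv j ∧ Vv j ≤ K₁) ∧ ∀ K' : ℝ, K₁ ≤ K' →
  ∃ ε₀ : ℝ, 0 < ε₀ ∧ ∀ ε : ℝ, 0 < ε → ε ≤ ε₀ →
  ∀ (S : PCl m) (g₀ : ℝ → ℝ) (P : List (Fin m) × Fin m → ℝ → ℝ → ℝ)
    (θ : ℝ) (P₂ : ℕ → List (Fin m) × Fin m → ℝ → ℝ → ℝ) (θ₂ Eb e₂ : ℕ → ℝ) (c : ℕ → Fin m)
    (Pt : ℝ → ℝ → ℝ) (rt : ℝ → ℝ) (L T : ℕ → ℝ → ℝ → ℝ) (G : Set ℝ) (g : ℝ),
    IsClosed G → g ∈ G → ∃ (p : ℕ → ι) (M : ℕ) (B₀ B₁ : ℕ → ℝ),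
    (∀ j < M, B₀ j < B₁ j) ∧ ∀ k₀ : ℕ → ℕ, ∃ q₁ : ℝ, 0 < q₁ ∧ ∀ (q t : ℝ) (x : ℕ → ℝ),
      q < q₁ → (∀ j < M, x j ∈ G ∧ t + B₀ j * q ≤ x j ∧ x j ≤ t + B₁ j * q ∧
        Q (p j) (k₀ j) S P θ c Pt rt L T κ G (x j)) →
      ∀ (N : ℕ) (A V : ℕ → ℝ) (N' : ℕ) (V' : ℕ → ℝ),
      RecG S al g₀ P θ P₂ θ₂ Eb e₂ c Pt rt h K₀ g L T Sl κ G S₀ N A V S₂ N' V' K' ε q t →
      (∀ k < Nr, ∃ j < N, A j = Ar k ∧ V j = Vr k) → (∀ k < Nv, ∃ j < N', V' j = Vv k) →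
      ∀ (N₂ : ℕ) (vw : ℕ → ℝ) (κ' : ℝ) (qf : ℕ → Fin r → ℕ) (Pq : Fin r → ℝ), 0 < κ' →
      (∀ i, (kf + 1) * q ≤ Pq i) → (∀ (J : ℕ) (i : Fin r), Pq i * J - 2 ≤ qf J i) →
      ∃ K₂ : ℝ, 0 < K₂ ∧
      VfW S c r D Dr N₂ C (t + (Sl r + 1) * q) (Eb r) (3 * ε * q) (hh * q) (hh * q) (Sl r * q)
        (kf * q) (L r) (fun k => t + vF k₁ vw k * q)
        (fun k l => lvN P c r (L r) l (t + vF k₁ vw k * q) (t + vF k₁ vw k * q))
        (fun k l => bet P c l (t + (Sl r + 1) * q) (t + vF k₁ vw k * q)) κ' qf δ K₂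

/-- **The class theorem of a steep coordinate** over coordinates of slope one, from its velocity. -/
theorem celQG_u {m r : ℕ} (hr : 1 ≤ r) (hrm : r < m) {h : ℝ} {Sl : ℕ → ℝ} {κ : ℕ → Kg}
    (hκ : ∀ l < r, κ l = .one) (hκt : κ r = .stp) (hs : 2 < Sl r) {ι : Type} {Q : PropG m ι}
    (hV : VelU m r h Sl κ Q) : CelQG m r h Sl κ (sumQ Q FaQ) := by
  intro al hal K₀ hK₀ del hdel S₀ hS₀
  obtain ⟨Kr, Nr, Ar, Vr, hKr, hAV, hV⟩ := hV al hal K₀ hK₀ S₀ hS₀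
  obtain ⟨CM, hCM⟩ := exists_nat_gt (Sl r)
  have hr0 : (0 : ℝ) ≤ r := Nat.cast_nonneg r
  obtain ⟨A, hA⟩ : ∃ A : ℕ → ℝ, A = fun k => if k < 2 then Sl r + 1 else if k = 2 then 1 else
    Ar (k - 3) := ⟨_, rfl⟩
  obtain ⟨V, hVd⟩ : ∃ V : ℕ → ℝ, V = fun k => if k = 0 then 0 else if k = 1 then 3 / 2 else
    if k = 2 then 0 else Vr (k - 3) := ⟨_, rfl⟩
  have a0 : A 0 = Sl r + 1 := by simp [hA]
  have a1 : A 1 = Sl r + 1 := by simp [hA]
  have a2 : A 2 = 1 := by simp [hA]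
  have a3 : ∀ k, A (3 + k) = Ar k := fun k => by
    simp only [hA]
    rw [if_neg (by omega), if_neg (by omega)]
    congr 1
    omega
  have v0 : V 0 = 0 := by simp [hVd]
  have v1 : V 1 = 3 / 2 := by simp [hVd]
  have v2 : V 2 = 0 := by simp [hVd]
  have v3 : ∀ k, V (3 + k) = Vr k := fun k => by
    simp only [hVd]
    rw [if_neg (by omega), if_neg (by omega), if_neg (by omega)]
    congr 1
    omega
  refine ⟨max Kr (Sl r + 1), 3 + Nr, A, V, le_max_of_le_left hKr, fun k hk => ?_,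
    fun S₂ hS₂ => ?_⟩
  · have m1 := le_max_left Kr (Sl r + 1)
    have m2 := le_max_right Kr (Sl r + 1)
    rcases Nat.lt_or_ge k 3 with h3 | h3
    · interval_cases k
      · rw [v0, a0]
        exact ⟨by linarith, by linarith, by linarith⟩
      · rw [v1, a1]
        exact ⟨by linarith, by linarith, by linarith⟩
      · rw [v2, a2]
        exact ⟨by linarith, by linarith, by linarith⟩
    · obtain ⟨j, rfl⟩ : ∃ j, k = 3 + j := ⟨k - 3, by omega⟩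
      rw [a3, v3]
      obtain ⟨h4, h5, h6⟩ := hAV j (by omega)
      exact ⟨by linarith, h5, by linarith⟩
  obtain ⟨D, hD, hx⟩ := x10f_fin m r S₂ CM hr (hS₀.trans hS₂) (Sl r) hs
  obtain ⟨C, hC, hx⟩ := hx D le_rfl
  obtain ⟨δ, C', hδ, hδ1, hC', h₀, hh₀, hx⟩ := hx del hdel
  obtain ⟨kf, h₁, hkf, hh₁, hV⟩ := hV S₂ hS₂ D D C δ hD le_rfl hC hδ hδ1
  obtain ⟨CT, hCT⟩ := exists_nat_ge (2 * kf + 7 * r + 18)
  have hCT0 : (0 : ℝ) ≤ CT := Nat.cast_nonneg CT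
  obtain ⟨k₁, hk₁⟩ : ∃ k₁ : ℝ, k₁ = CT + 7 * r + 13 := ⟨_, rfl⟩
  have hC0 : 0 < C := by linarith
  have hC'0 : 0 < C' := by linarith
  obtain ⟨κT, hκT0, hκTδ⟩ : ∃ x : ℚ, (0 : ℝ) < x ∧ (x : ℝ) < δ := exists_rat_btwn hδ
  have hep : 0 < epT r 1 κT := by
    unfold epT
    push_cast
    positivity
  have hsl : 0 < slT r 1 κT := by
    unfold slT epT
    push_cast
    positivity
  obtain ⟨ρ, hρ⟩ : ∃ ρ : ℝ, ρ = min (1 / 2) (δ / (4 * C')) := ⟨_, rfl⟩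
  have hρ0 : 0 < ρ := by rw [hρ]; positivity
  have hρ1 : ρ ≤ 1 / 2 := by rw [hρ]; exact min_le_left _ _
  have hρ2 : 4 * C' * ρ ≤ δ := by
    have : ρ ≤ δ / (4 * C') := by rw [hρ]; exact min_le_right _ _
    rw [le_div_iff₀ (by positivity)] at this
    linarith
  obtain ⟨v₀, hv₀⟩ : ∃ v₀ : ℝ, v₀ = min h₀ (min h₁ (min (1 / 2) (min (slT r 1 κT / 2)
      (min (ρ / (2 * (C + 2))) (δ / (4 * (C' * (2 * C + 3)))))))) := ⟨_, rfl⟩
  have hv0 : 0 < v₀ := by rw [hv₀]; positivity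
  have hvm : v₀ ≤ h₀ ∧ v₀ ≤ h₁ ∧ v₀ ≤ 1 / 2 ∧ v₀ ≤ slT r 1 κT / 2 ∧ v₀ ≤ ρ / (2 * (C + 2)) ∧
      v₀ ≤ δ / (4 * (C' * (2 * C + 3))) := by
    rw [hv₀]
    exact ⟨min_le_left _ _, (min_le_right _ _).trans (min_le_left _ _),
      (min_le_right _ _).trans ((min_le_right _ _).trans (min_le_left _ _)),
      (min_le_right _ _).trans ((min_le_right _ _).trans ((min_le_right _ _).trans
        (min_le_left _ _))),
      (min_le_right _ _).trans ((min_le_right _ _).trans ((min_le_right _ _).trans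
        ((min_le_right _ _).trans (min_le_left _ _)))),
      (min_le_right _ _).trans ((min_le_right _ _).trans ((min_le_right _ _).trans
        ((min_le_right _ _).trans (min_le_right _ _))))⟩
  obtain ⟨hv1, hv2, hv3, hv4, hv5, hv6⟩ := hvm
  rw [le_div_iff₀ (by positivity)] at hv5 hv6
  obtain ⟨K₁, Nv, Vv, hVv, hV⟩ := hV v₀ k₁ hv0 hv2 (by linarith)
  obtain ⟨K, hK⟩ : ∃ K : ℝ, K = max (max Kr (Sl r + 1)) (max K₁ (2 * Sl r + k₁ + kf + 6)) :=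
    ⟨_, rfl⟩
  have hKa : max Kr (Sl r + 1) ≤ K := by rw [hK]; exact le_max_left _ _
  have hKb : K₁ ≤ K := by rw [hK]; exact (le_max_left _ _).trans (le_max_right _ _)
  have hKc : 2 * Sl r + k₁ + kf + 6 ≤ K := by
    rw [hK]
    exact (le_max_right _ _).trans (le_max_right _ _)
  obtain ⟨ε₀, hε₀, hV⟩ := hV K hKb
  obtain ⟨ε, hε⟩ : ∃ ε : ℝ, ε = min ε₀ (min (v₀ / 2) (min (v₀ / (6 * C)) (epT r 1 κT / 4))) :=
    ⟨_, rfl⟩
  have hεp : 0 < ε := by rw [hε]; positivity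
  have hεm : ε ≤ ε₀ ∧ ε ≤ v₀ / 2 ∧ ε ≤ v₀ / (6 * C) ∧ ε ≤ epT r 1 κT / 4 := by
    rw [hε]
    exact ⟨min_le_left _ _, (min_le_right _ _).trans (min_le_left _ _),
      (min_le_right _ _).trans ((min_le_right _ _).trans (min_le_left _ _)),
      (min_le_right _ _).trans ((min_le_right _ _).trans (min_le_right _ _))⟩
  obtain ⟨hε1, hε2, hε3, hε4⟩ := hεm
  rw [le_div_iff₀ (by positivity)] at hε3
  have hCε : 0 < C * ε := mul_pos hC0 hεp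
  obtain ⟨V', hV'⟩ : ∃ V' : ℕ → ℝ, V' = fun k => if k = 0 then -k₁ else if k = 1 then 1 else
    if k = 2 then 1 + ρ else Vv (k - 3) := ⟨_, rfl⟩
  have w0 : V' 0 = -k₁ := by simp [hV']
  have w1 : V' 1 = 1 := by simp [hV']
  have w2 : V' 2 = 1 + ρ := by simp [hV']
  have w3 : ∀ k, V' (3 + k) = Vv k := fun k => by
    simp only [hV']
    rw [if_neg (by omega), if_neg (by omega), if_neg (by omega)]
    congr 1
    omega
  refine ⟨K, 3 + Nv, V', hKa, fun k hk => ?_, ε, hεp, ?_⟩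
  · rcases Nat.lt_or_ge k 3 with h3 | h3
    · interval_cases k
      · rw [w0]
        constructor <;> linarith
      · rw [w1]
        constructor <;> linarith
      · rw [w2]
        constructor <;> linarith
    · obtain ⟨j, rfl⟩ : ∃ j, k = 3 + j := ⟨k - 3, by omega⟩
      rw [w3]
      obtain ⟨h4, h5⟩ := hVv j (by omega)
      exact ⟨by linarith, by linarith⟩
  intro S g₀ P θ P₂ θ₂ Eb e₂ c Pt rt L T G g hG hg
  obtain ⟨p, M, B₀, B₁, hB, hV⟩ := hV ε hεp hε1 S g₀ P θ P₂ θ₂ Eb e₂ c Pt rt L T G g hG hg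
  refine ⟨fun j => if j < M then Sum.inl (p j) else Sum.inr (r, CT, 1, κT), M + 1,
    fun j => if j < M then B₀ j else (kf + 1) - CT - (7 * r + 11) / 2,
    fun j => if j < M then B₁ j else -(CT / 2 + 7 * r + 13), fun j hj => ?_, fun k₀ => ?_⟩
  · by_cases h4 : j < M
    · simp only [h4, if_true]
      exact hB j h4
    · simp only [h4, if_false]
      linarith
  obtain ⟨q₁, hq₁, hV⟩ := hV k₀
  refine ⟨min q₁ ((1 / 2) ^ k₀ M), lt_min hq₁ (by positivity), fun q t x hq hxj R => ?_⟩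
  have hq0 := R.q0
  obtain ⟨k, hk0, hk1, hk2⟩ := Pool.PKG.pow_near hq0 (hq.trans_le (min_le_right _ _))
  -- the time line
  obtain ⟨-, hx1, hx2, hxQ⟩ := hxj M (Nat.lt_succ_self M)
  simp only [lt_irrefl, if_false] at hx1 hx2 hxQ
  have hTl := hxQ.tl hrm hκ (by norm_num) (by norm_num) (by exact_mod_cast hκT0) k hk0
  have hmG : t - k₁ * q ∈ G := by
    have := R.memG.2 0 (by omega)
    rw [w0] at this
    have e : t + -k₁ * q = t - k₁ * q := by ring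
    rwa [e] at this
  obtain ⟨qf, nt, P₁, fr, hT, hqf, hTW, hHn⟩ := R.tl_scale hr hrm le_rfl hκ (CM := CM)
    (s := Sl r) (C' := C') (δ := δ) (h := v₀) (X := 2 * (C * v₀)) (κT := κT) (σ := 1)
    (vw := fun _ => 1 + ρ) (x := x M) hmG (by linarith) hkf hCM hC' hδ1 (by norm_num) le_rfl hκT0
    hκTδ hv0.le (by positivity) (by nlinarith) (by linarith) hv3 hεp.le (by linarith)
    (by linarith) hk₁ hCT (by linarith) hk1 hk2 (by linarith) (by linarith) hTl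
  have hHf := (hHn (C * (v₀ * q + v₀ * q)) (by ring)).toF hC rfl
  -- the hyperplanes
  obtain ⟨aq, hNN⟩ := R.nhNF hr hrm hκ (j := 2) (by omega) (C := C) (δ := δ) (C' := C') (ρ := ρ)
    (v₀ := v₀) (k₁ := k₁) (vw := fun _ => 1 + ρ) w2 rfl hC hC' hδ hδ1 hv0 hρ0 hρ1 (by nlinarith)
    (by nlinarith) hεp.le (by linarith) (by linarith) (by linarith)
  -- the record
  have hRf := R.recFr (k₁ := k₁) (vw := fun _ => 1 + ρ) (N₂ := 4) hr hrm hκ hκt (by norm_num)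
    (fun k hk => by
      interval_cases k
      · exact ⟨0, by omega, a0, by rw [v0]; simp [vF]⟩
      · exact ⟨1, by omega, a1, by rw [v1]; norm_num [vF]⟩)
    ⟨2, by omega, a2, v2⟩
    (fun k hk hk' => by
      interval_cases k
      · exact ⟨0, by omega, by rw [w0]; simp [vF]⟩
      · exact ⟨1, by omega, by rw [w1]; simp [vF]⟩
      · exact ⟨2, by omega, by rw [w2, vF_ge le_rfl]⟩)
    (fun k _ _ => by linarith) (fun k _ _ => by linarith) hS₂ hεp.le (by linarith) (by linarith)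
  -- the velocity
  obtain ⟨K₂, hK₂, hVf⟩ := hV q t x (hq.trans_le (min_le_left _ _)) (fun j hj => by
      obtain ⟨h4, h5, h6, h7⟩ := hxj j (by omega)
      simp only [hj, if_true] at h5 h6 h7
      exact ⟨h4, h5, h6, h7⟩) _ _ _ _ _ R
    (fun k hk => ⟨3 + k, by omega, a3 k, v3 k⟩) (fun k hk => ⟨3 + k, by omega, w3 k⟩) 4
    (fun _ => 1 + ρ) 1 qf (fun i => P₁ i - nt i) one_pos (fun i => by
      have h4 := hHf.P2 i
      have e0 : t + vF k₁ (fun _ => 1 + ρ) 0 * q = t := by simp [vF]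
      have e3 : t + vF k₁ (fun _ => 1 + ρ) 3 * q = t + q := by simp [vF]
      simp only [e0, e3] at h4
      linarith) (fun J i => by
      have := (abs_le.1 (hHf.qf1 J i)).1
      linarith)
  exact hx v₀ hv0 hv1 hRf (by linarith) (by linarith) hqf one_pos hK₂ le_rfl hVf hTW hHf hNN

end Pool.PKG
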