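import Pool.Agent.H73.D2.Tmk

/-!
# The target `N - P(p, u)` without a bound on the row label in the direction `u`

`NwCU`, `NwDU`: as `NwC`, `NwD`, without the field `hCt` on the row label of `N`. `nu_d1`, `NwDU.val`,
`NwDU.der`, `NwDU.pos`, `nu_own`: as in `Tmi`.
-/

set_option autoImplicit false

namespace Pool.V1E

open Finset Real MvPolynomial
open Pool.KA Pool.KSAT Pool.PB Pool.GEN Pool.D2R Pool.D2G30 Pool.ISO Pool.CHT Pool.CHX
open Pool.PB.Trl (rt rt_mem t_rt)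
open Pool.K2S (Sub)

/-- **The data of `P`**, without the row label: a closed polynomial of the frame and `u = c r` whose
derivative in the direction `u` is near the derivatives of the charts of `N = c (r + 1)`. `su`, `sn`: the
digits of `u` and of `N` at `o 1`. -/
structure NwCU {m J : ℕ} (F : Fam m J) (c : ℕ → Fin m) (r D MB Q x su sn : ℕ) (o : ℕ → ℕ)
    (g₀ : ℕ → ℕ → ℕ) (B : F.Ω → Prop)
    (G : ℕ → PtT F → ℕ → MvPolynomial (Option (Fin m)) ℝ)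
    (Ht CL : LnT F → MvPolynomial (Option (Fin m)) ℝ)
    (Cp : PtT F → MvPolynomial (Option (Fin m)) ℝ) : Prop where
  dCL : ∀ L, (CL L).totalDegree ≤ D
  dCp : ∀ y, (Cp y).totalDegree ≤ D
  pCL : ∀ L, DepC c (r + 1) (CL L)
  pCp : ∀ y, DepC c (r + 1) (Cp y)
  clC : ∀ ω, B ω → Cp (ptr F J ω) = CL (slam F (o 1) ω)
  hC1 : ∀ ω, B ω → ∀ b, NBx c (G 1 (ptr F J ω)) (g₀ 1) (o 1) (F.t ω) (r + 1) b →
    |eval b (pderiv (some (c r)) (G 1 (ptr F J ω) (r + 1))) -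
      eval b (pderiv (some (c r)) (Cp (ptr F J ω)))| ≤ 2 ^ (su + x) / 2 ^ sn
  hC2 : ∀ ω, B ω → ∀ b, NBx c (G 2 (ptr F J ω)) (g₀ 2) (o 2) (F.t ω) (r + 1) b →
    |eval b (pderiv (some (c r)) (G 2 (ptr F J ω) (r + 1))) -
      eval b (pderiv (some (c r)) (Cp (ptr F J ω)))| ≤ 2 ^ (g₀ 2 r + x) / 2 ^ (sn + MB)

/-- **The data of the target `N - P(p, u)`**, without the row label of `N`. -/
structure NwDU {m J : ℕ} (F : Fam m J) (c : ℕ → Fin m) (r D n M ar MB q₀ Q x p e su : ℕ)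
    (s : ℕ → ℕ) (qe : Fin r → ℕ) (o : ℕ → ℕ) (z g gc gT g₀ : ℕ → ℕ → ℕ) (B : F.Ω → Prop)
    (G T : ℕ → PtT F → ℕ → MvPolynomial (Option (Fin m)) ℝ)
    (H TH : ℕ → LnT F → ℕ → MvPolynomial (Option (Fin m)) ℝ)
    (Ht CL : LnT F → MvPolynomial (Option (Fin m)) ℝ)
    (Cp : PtT F → MvPolynomial (Option (Fin m)) ℝ) : Prop extends
    NvP F c r D n M ar MB q₀ Q x p e su s qe o z g gc gT g₀ B G T H TH Ht,
    NwCU F c r D MB Q x su (s r) o g₀ B G Ht CL Cp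

/-- Smaller events, larger losses and degrees. -/
theorem NwCU.mono {m J : ℕ} {F : Fam m J} {c : ℕ → Fin m} {r D D' MB Q x x' su sn : ℕ} {o : ℕ → ℕ}
    {g₀ : ℕ → ℕ → ℕ} {B B' : F.Ω → Prop}
    {G : ℕ → PtT F → ℕ → MvPolynomial (Option (Fin m)) ℝ}
    {Ht CL : LnT F → MvPolynomial (Option (Fin m)) ℝ}
    {Cp : PtT F → MvPolynomial (Option (Fin m)) ℝ}
    (W : NwCU F c r D MB Q x su sn o g₀ B G Ht CL Cp) (hB : Sub B' B) (hx : x ≤ x')
    (hD : D ≤ D') : NwCU F c r D' MB Q x' su sn o g₀ B' G Ht CL Cp where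
  dCL := fun L => (W.dCL L).trans hD
  dCp := fun y => (W.dCp y).trans hD
  pCL := W.pCL
  pCp := W.pCp
  clC := fun ω hω => W.clC ω (hB ω hω)
  hC1 := fun ω hω b hb => (W.hC1 ω (hB ω hω) b hb).trans (div_le_div_of_nonneg_right
    (pow_le_pow_right₀ (by norm_num) (by omega)) (by positivity))
  hC2 := fun ω hω b hb => (W.hC2 ω (hB ω hω) b hb).trans (div_le_div_of_nonneg_right
    (pow_le_pow_right₀ (by norm_num) (by omega)) (by positivity))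

/-- From the data with the row label. -/
theorem NwC.toU {m J : ℕ} {F : Fam m J} {c : ℕ → Fin m} {r D MB Q x su sn : ℕ} {o : ℕ → ℕ}
    {g₀ : ℕ → ℕ → ℕ} {B : F.Ω → Prop}
    {G : ℕ → PtT F → ℕ → MvPolynomial (Option (Fin m)) ℝ}
    {Ht CL : LnT F → MvPolynomial (Option (Fin m)) ℝ}
    {Cp : PtT F → MvPolynomial (Option (Fin m)) ℝ}
    (W : NwC F c r D MB Q x su sn o g₀ B G Ht CL Cp) :
    NwCU F c r D MB Q x su sn o g₀ B G Ht CL Cp :=
  ⟨W.dCL, W.dCp, W.pCL, W.pCp, W.clC, W.hC1, W.hC2⟩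

/-- **The derivative in the direction `u`** on larger boxes of the first window. -/
theorem nu_d1 (D r : ℕ) : ∃ C : ℕ, ∀ {m J : ℕ} {F : Fam m J} {c : ℕ → Fin m}
    {n M ar MB q₀ Q x p e su : ℕ} {s : ℕ → ℕ} {qe : Fin r → ℕ} {o : ℕ → ℕ}
    {z g gc gT g₀ : ℕ → ℕ → ℕ} {B : F.Ω → Prop}
    {G T : ℕ → PtT F → ℕ → MvPolynomial (Option (Fin m)) ℝ}
    {H TH : ℕ → LnT F → ℕ → MvPolynomial (Option (Fin m)) ℝ}
    {Ht CL : LnT F → MvPolynomial (Option (Fin m)) ℝ}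
    {Cp : PtT F → MvPolynomial (Option (Fin m)) ℝ},
    NwDU F c r D n M ar MB q₀ Q x p e su s qe o z g gc gT g₀ B G T H TH Ht CL Cp → ∀ ω, B ω →
    ∀ (k : ℕ) (b : Option (Fin m) → ℝ), |b none - F.t ω| ≤ 1 / 2 ^ o 1 →
    (∀ l ≤ r, |b (some (c l)) - eval b (G 1 (ptr F J ω) l)| ≤ 2 ^ k / 2 ^ g₀ 1 l) →
    |eval b (pderiv (some (c r)) (nfw r (G 1 (ptr F J ω)) (Cp (ptr F J ω))))| ≤ 2 ^ (C * (k + 1)) * (2 ^ (su + x) / 2 ^ s r) := by
  obtain ⟨c₀, D₁, hD₁, hdil⟩ := nbx_dil (r + 2) (fun _ => D)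
  refine ⟨c₀ + D₁, ?_⟩
  intro m J F c n M ar MB q₀ Q x p e su s qe o z g gc gT g₀ B G T H TH Ht CL Cp W ω hω k b hb0 hb
  refine (hdil (c := c) (i := r + 1) (G := G 1 (ptr F J ω)) (g := g₀ 1) (a := o 1) (t := F.t ω)
    (M := 2 ^ (su + x) / 2 ^ s r) k (Nat.lt_succ_self _) W.hc1
    (fun l => W.dG 1 _ l) (W.pG 1 _)
    (depC_pderiv (dep_nfw (W.pG 1 _) (W.pCp _)) _)
    ((pd_deg _ _).trans (deg_nfw (W.dG 1 _) (W.dCp _))) (by positivity)
    (fun b hb => by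
      rw [pd_nfw]
      exact W.hC1 ω hω b hb) b hb0 (fun l hl => hb l (by omega))).trans ?_
  refine mul_le_mul_of_nonneg_right (pow_le_pow_right₀ (by norm_num) ?_) (by positivity)
  nlinarith

section fields

variable {m J : ℕ} {F : Fam m J} {c : ℕ → Fin m} {r D n M ar MB q₀ Q x p e su : ℕ}
  {s : ℕ → ℕ} {qe : Fin r → ℕ} {o : ℕ → ℕ} {z g gc gT g₀ : ℕ → ℕ → ℕ} {B : F.Ω → Prop}
  {G T : ℕ → PtT F → ℕ → MvPolynomial (Option (Fin m)) ℝ}
  {H TH : ℕ → LnT F → ℕ → MvPolynomial (Option (Fin m)) ℝ}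
  {Ht CL : LnT F → MvPolynomial (Option (Fin m)) ℝ}
  {Cp : PtT F → MvPolynomial (Option (Fin m)) ℝ}

/-- The own line on the charts of the first window. -/
theorem NwDU.onc (W : NwDU F c r D n M ar MB q₀ Q x p e su s qe o z g gc gT g₀ B G T H TH Ht CL Cp)
    {ω : F.Ω} (hω : B ω) {τ : ℝ} (hτ : τ ∈ Set.Icc (0 : ℝ) 1) {l : ℕ} (hl : l ≤ r + 1) :
    |ptw F (o 1) ω τ (some (c l)) - eval (ptw F (o 1) ω τ) (G 1 (ptr F J ω) l)| ≤
      2 ^ x / 2 ^ g₀ 1 l := by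
  have h1 := W.own1 ω hω l hl τ hτ
  unfold dv at h1
  rw [Polynomial.eval_sub, Pool.D2G30.eval_aev] at h1
  rw [W.cl1 ω hω l hl]
  exact h1

/-- The closed chart of the point and of the line. -/
theorem NwDU.clA (W : NwDU F c r D n M ar MB q₀ Q x p e su s qe o z g gc gT g₀ B G T H TH Ht CL Cp)
    {ω : F.Ω} (hω : B ω) : nW c r (G 1 (ptr F J ω)) (Cp (ptr F J ω)) =
      nW c r (H 1 (slam F (o 1) ω)) (CL (slam F (o 1) ω)) := by
  unfold nW nfw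
  rw [W.cl1 ω hω r (Nat.le_succ r), W.cl1 ω hω (r + 1) le_rfl, W.clC ω hω]

/-- The value. -/
theorem NwDU.val (W : NwDU F c r D n M ar MB q₀ Q x p e su s qe o z g gc gT g₀ B G T H TH Ht CL Cp)
    {ω : F.Ω} (hω : B ω) :
    (nwp F c r (o 1) CL (slam F (o 1) ω)).eval (rt F (o 1) ω) = nwy F c r Cp ω := by
  have h1J : o 1 ≤ J := by have := W.oJ; have := W.o3; have := W.o2; omega
  have e : (fun o' => (lc (o 1) (slam F (o 1) ω) o').eval (rt F (o 1) ω)) = bt F ω :=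
    funext fun o' => eval_lc F h1J ω o'
  unfold nwp nwy
  rw [Polynomial.eval_sub, Pool.D2G30.eval_aev, e, eval_lc F h1J, W.clC ω hω]
  rfl

/-- The derivative of the own path. -/
theorem NwDU.der (W : NwDU F c r D n M ar MB q₀ Q x p e su s qe o z g gc gT g₀ B G T H TH Ht CL Cp)
    {ω : F.Ω} (hω : B ω) :
    (Polynomial.derivative (nwp F c r (o 1) CL (slam F (o 1) ω))).eval (rt F (o 1) ω) =
      1 / 2 ^ o 1 * nwv F c r Cp ω := by
  have h1J : o 1 ≤ J := by have := W.oJ; have := W.o3; have := W.o2; omega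
  unfold nwp nwv
  rw [Polynomial.derivative_sub, Polynomial.eval_sub, dd_own h1J, der_lc, Polynomial.eval_C,
    W.clC ω hω]
  show _ = 1 / 2 ^ o 1 * (bd F ω (some (c (r + 1))) - _)
  ring

/-- **The position.** -/
theorem NwDU.pos (W : NwDU F c r D n M ar MB q₀ Q x p e su s qe o z g gc gT g₀ B G T H TH Ht CL Cp)
    {ω : F.Ω} (hω : B ω) : |nwy F c r Cp ω -
      eval (bt F ω) (nW c r (G 2 (ptr F J ω)) (Cp (ptr F J ω)))| ≤
      2 ^ (x + 1) / 2 ^ (s r + MB) := by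
  rw [eval_nW]
  have hself : up (c r) (bt F ω) (F.x ω (c r)) = bt F ω := up_eq rfl
  have h1 := W.ch2.pos ω hω (r + 1) (Nat.lt_succ_self _)
  have h2 := W.ch2.pos ω hω r (by omega)
  have h3 := mv_up (k := c r) (R := nfw r (G 2 (ptr F J ω)) (Cp (ptr F J ω)))
    (b := bt F ω) (v := F.x ω (c r)) (v' := eval (bt F ω) (G 2 (ptr F J ω) r))
    (M := 2 ^ (g₀ 2 r + x) / 2 ^ (s r + MB)) (fun w hw => by
      rw [pd_nfw]
      refine W.hC2 ω hω _ (box_up W.hc1 (W.pG 2 _) (bt_box W.ch2 (by omega) hω _)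
        (uicc_le hw h2 ?_))
      rw [sub_self, abs_zero]
      positivity)
  rw [hself] at h3
  have e1 : nwy F c r Cp ω - eval (up (c r) (bt F ω) (eval (bt F ω) (G 2 (ptr F J ω) r)))
      (nfw r (G 2 (ptr F J ω)) (Cp (ptr F J ω))) =
      (F.x ω (c (r + 1)) - eval (bt F ω) (G 2 (ptr F J ω) (r + 1))) +
      (eval (bt F ω) (nfw r (G 2 (ptr F J ω)) (Cp (ptr F J ω))) -
        eval (up (c r) (bt F ω) (eval (bt F ω) (G 2 (ptr F J ω) r)))
          (nfw r (G 2 (ptr F J ω)) (Cp (ptr F J ω)))) := by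
    rw [eval_nfw (bt F ω)]
    unfold nwy
    ring
  rw [e1]
  refine (abs_add_le _ _).trans ((add_le_add h1 h3).trans ?_)
  have h4 : (1 : ℝ) / 2 ^ g₀ 2 (r + 1) ≤ 2 ^ x / 2 ^ (s r + MB) := p2_le W.m2
  have h5 : 2 ^ (g₀ 2 r + x) / 2 ^ (s r + MB) * |F.x ω (c r) -
      eval (bt F ω) (G 2 (ptr F J ω) r)| ≤ 2 ^ x / 2 ^ (s r + MB) := by
    refine (mul_le_mul_of_nonneg_left h2 (by positivity)).trans (le_of_eq ?_)
    rw [pow_add 2 (g₀ 2 r) x]
    field_simp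
  have e2 : (2 : ℝ) ^ (x + 1) / 2 ^ (s r + MB) = 2 ^ x / 2 ^ (s r + MB) +
      2 ^ x / 2 ^ (s r + MB) := by
    rw [pow_succ]
    ring
  rw [e2]
  exact add_le_add h4 h5

end fields

/-- **The own path.** -/
theorem nu_own (D r : ℕ) : ∃ C : ℕ, ∀ {m J : ℕ} {F : Fam m J} {c : ℕ → Fin m}
    {n M ar MB q₀ Q x p e su : ℕ} {s : ℕ → ℕ} {qe : Fin r → ℕ} {o : ℕ → ℕ}
    {z g gc gT g₀ : ℕ → ℕ → ℕ} {B : F.Ω → Prop}
    {G T : ℕ → PtT F → ℕ → MvPolynomial (Option (Fin m)) ℝ}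
    {H TH : ℕ → LnT F → ℕ → MvPolynomial (Option (Fin m)) ℝ}
    {Ht CL : LnT F → MvPolynomial (Option (Fin m)) ℝ}
    {Cp : PtT F → MvPolynomial (Option (Fin m)) ℝ},
    NwDU F c r D n M ar MB q₀ Q x p e su s qe o z g gc gT g₀ B G T H TH Ht CL Cp → ∀ ω, B ω →
    ∀ τ ∈ Set.Icc (0 : ℝ) 1, |(nwp F c r (o 1) CL (slam F (o 1) ω) -
      MvPolynomial.aeval (lc (o 1) (slam F (o 1) ω))
        (nW c r (H 1 (slam F (o 1) ω)) (CL (slam F (o 1) ω)))).eval τ| ≤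
      2 ^ (C * (x + 1)) / 2 ^ s r := by
  obtain ⟨C₁, hd1⟩ := nu_d1 D r
  refine ⟨C₁ + 3, ?_⟩
  intro m J F c n M ar MB q₀ Q x p e su s qe o z g gc gT g₀ B G T H TH Ht CL Cp W ω hω τ hτ
  have h1J : o 1 ≤ J := by have := W.oJ; have := W.o3; have := W.o2; omega
  obtain ⟨b, hb⟩ : ∃ b, b = ptw F (o 1) ω τ := ⟨_, rfl⟩
  have hbe : (fun o' => (lc (o 1) (slam F (o 1) ω) o').eval τ) = b := by rw [hb]; rfl
  have hbo : ∀ o', (lc (o 1) (slam F (o 1) ω) o').eval τ = b o' := fun o' => by rw [hb]; rfl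
  have hon : ∀ l ≤ r + 1, |b (some (c l)) - eval b (G 1 (ptr F J ω) l)| ≤ 2 ^ x / 2 ^ g₀ 1 l :=
    fun l hl => by
      rw [hb]
      exact W.onc hω hτ hl
  have htime : |b none - F.t ω| ≤ 1 / 2 ^ o 1 := by
    rw [hb]
    exact ptw_time h1J ω hτ
  have hself : up (c r) b (b (some (c r))) = b := up_eq rfl
  have hne : ∀ l < r, c l ≠ c r := fun l hl he => by
    have := W.hc1 (Set.mem_Iio.2 (show l < r + 1 by omega))
      (Set.mem_Iio.2 (Nat.lt_succ_self r)) he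
    omega
  have h3 := mv_up (k := c r) (R := nfw r (G 1 (ptr F J ω)) (Cp (ptr F J ω)))
    (b := b) (v := b (some (c r))) (v' := eval b (G 1 (ptr F J ω) r))
    (M := 2 ^ (C₁ * (x + 1)) * (2 ^ (su + x) / 2 ^ s r)) (fun w hw => by
      refine hd1 W ω hω x _ (by rw [up_none]; exact htime) fun l hl => ?_
      rw [hC1e W.hc1 (W.pG 1 _) hl]
      rcases Nat.lt_or_ge l r with h | h
      · rw [up_ne (hne l h)]
        exact hon l (by omega)
      · have : l = r := by omega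
        subst this
        rw [up_self]
        refine uicc_le hw (hon l (by omega)) ?_
        rw [sub_self, abs_zero]
        positivity)
  rw [hself] at h3
  have e1 : (nwp F c r (o 1) CL (slam F (o 1) ω) -
      MvPolynomial.aeval (lc (o 1) (slam F (o 1) ω))
        (nW c r (H 1 (slam F (o 1) ω)) (CL (slam F (o 1) ω)))).eval τ =
      (b (some (c (r + 1))) - eval b (G 1 (ptr F J ω) (r + 1))) +
      (eval b (nfw r (G 1 (ptr F J ω)) (Cp (ptr F J ω))) -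
        eval (up (c r) b (eval b (G 1 (ptr F J ω) r)))
          (nfw r (G 1 (ptr F J ω)) (Cp (ptr F J ω)))) := by
    unfold nwp
    rw [Polynomial.eval_sub, Polynomial.eval_sub, Pool.D2G30.eval_aev, Pool.D2G30.eval_aev, hbe,
      hbo, ← W.clA hω, ← W.clC ω hω, eval_nW, eval_nfw b]
    ring
  rw [e1]
  have h4 := hon (r + 1) le_rfl
  have h5 := hon r (Nat.le_succ r)
  refine (abs_add_le _ _).trans ((add_le_add h4 (h3.trans (mul_le_mul_of_nonneg_left h5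
    (by positivity)))).trans ?_)
  have h6 : (2 : ℝ) ^ x / 2 ^ g₀ 1 (r + 1) ≤ 2 ^ (x + x) / 2 ^ s r := p2_le' (by
    have := W.m1'
    omega)
  have h7 : (2 : ℝ) ^ (C₁ * (x + 1)) * (2 ^ (su + x) / 2 ^ s r) * (2 ^ x / 2 ^ g₀ 1 r) ≤
      2 ^ (C₁ * (x + 1) + (x + x + x)) / 2 ^ s r := by
    have h8 : (2 : ℝ) ^ (su + x) / 2 ^ g₀ 1 r ≤ 2 ^ (x + x) := p2_div (by
      have := W.u1'
      omega)
    calc 2 ^ (C₁ * (x + 1)) * (2 ^ (su + x) / 2 ^ s r) * (2 ^ x / 2 ^ g₀ 1 r) =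
        2 ^ (C₁ * (x + 1)) * 2 ^ x * (2 ^ (su + x) / 2 ^ g₀ 1 r) / 2 ^ s r := by ring
      _ ≤ 2 ^ (C₁ * (x + 1)) * 2 ^ x * 2 ^ (x + x) / 2 ^ s r :=
          div_le_div_of_nonneg_right (mul_le_mul_of_nonneg_left h8 (by positivity))
            (by positivity)
      _ = _ := by
          simp only [pow_add]
          ring
  refine (add_le_add h6 h7).trans ?_
  rw [← add_div]
  refine div_le_div_of_nonneg_right ?_ (by positivity)
  have h8 : (2 : ℝ) ^ (x + x) ≤ 2 ^ (C₁ * (x + 1) + (x + x + x)) :=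
    pow_le_pow_right₀ (by norm_num) (by omega)
  calc (2 : ℝ) ^ (x + x) + 2 ^ (C₁ * (x + 1) + (x + x + x)) ≤
      2 ^ (C₁ * (x + 1) + (x + x + x)) * 2 := by linarith
    _ = 2 ^ (C₁ * (x + 1) + (x + x + x) + 1) := by rw [pow_succ]
    _ ≤ _ := pow_le_pow_right₀ (by norm_num) (by nlinarith)

end Pool.V1E
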