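import Pool.Agent.H73.D2.Tnc

/-!
# The target `N - P(p, u)` without the row label: `TgD` and the deterministic part of `TL`

`ClU`: a closed gradient of the target (any construction). `nu_tgd`, `nu_tld`: `TgD` and `TLd` with it.
-/

set_option autoImplicit false

namespace Pool.V1E

open Finset Real MvPolynomial
open Pool.KA Pool.KSAT Pool.PB Pool.GEN Pool.D2R Pool.D2G30 Pool.ISO Pool.CHT Pool.CHX
open Pool.PB.Trl (rt rt_mem t_rt)
open Pool.K2S (Sub)

/-- **A closed gradient** of the target: polynomials of the lines near the derivatives of the difference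
of the charts of the ball `o 2` and of the window `o 1` in the directions of the frame. -/
def ClU {m J : ℕ} (F : Fam m J) (c : ℕ → Fin m) (s : ℕ → ℕ) (r D CT MB Q x : ℕ) (o : ℕ → ℕ)
    (B : F.Ω → Prop) (G : ℕ → PtT F → ℕ → MvPolynomial (Option (Fin m)) ℝ)
    (Cp : PtT F → MvPolynomial (Option (Fin m)) ℝ) : Prop :=
  ∃ Θ : LnT F → Fin r → Polynomial ℝ, (∀ L i, (Θ L i).natDegree ≤ (D + 1) ^ (r + 4)) ∧
    ∀ ω, B ω → ∀ i : Fin r, |(Θ (slam F (o 1) ω) i).eval (rt F (o 1) ω) -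
      2 ^ s r * dd (nW c r (G 2 (ptr F J ω)) (Cp (ptr F J ω)) -
        nW c r (G 1 (ptr F J ω)) (Cp (ptr F J ω))) (bt F ω) (fvec F c s r (G 0) ω i)| ≤
      2 ^ (CT * (x + 1)) / 2 ^ (MB - Q)

/-- Smaller events. -/
theorem ClU.sub {m J : ℕ} {F : Fam m J} {c : ℕ → Fin m} {s : ℕ → ℕ} {r D CT MB Q x : ℕ}
    {o : ℕ → ℕ} {B B' : F.Ω → Prop} {G : ℕ → PtT F → ℕ → MvPolynomial (Option (Fin m)) ℝ}
    {Cp : PtT F → MvPolynomial (Option (Fin m)) ℝ} (W : ClU F c s r D CT MB Q x o B G Cp)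
    (hB : Sub B' B) : ClU F c s r D CT MB Q x o B' G Cp := by
  obtain ⟨Θ, h1, h2⟩ := W
  exact ⟨Θ, h1, fun ω hω => h2 ω (hB ω hω)⟩

/-- **The target `N - P(p, u)`.** -/
theorem nu_tgd (D r CT : ℕ) : ∃ C : ℕ, ∀ {m J : ℕ} {F : Fam m J} {c : ℕ → Fin m}
    {n M ar MB q₀ Q x p e su : ℕ} {s : ℕ → ℕ} {qe : Fin r → ℕ} {o : ℕ → ℕ}
    {z g gc gT g₀ : ℕ → ℕ → ℕ} {B : F.Ω → Prop}
    {G T : ℕ → PtT F → ℕ → MvPolynomial (Option (Fin m)) ℝ}
    {H TH : ℕ → LnT F → ℕ → MvPolynomial (Option (Fin m)) ℝ}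
    {Ht CL : LnT F → MvPolynomial (Option (Fin m)) ℝ}
    {Cp : PtT F → MvPolynomial (Option (Fin m)) ℝ},
    NwDU F c r D n M ar MB q₀ Q x p e su s qe o z g gc gT g₀ B G T H TH Ht CL Cp →
    ClU F c s r D CT MB Q x o B G Cp → ∃ Θ : LnT F → Fin r → Polynomial ℝ,
    TgD F c r ((D + 1) * (D + 1)) ((D + 1) ^ (r + 4)) MB Q (C * (x + 1)) s o (g₀ 2) B (G 0) (G 2)
      (nwy F c r Cp) (nwv F c r Cp) (nwp F c r (o 1) CL)
      (fun y => nW c r (G 1 y) (Cp y)) (fun y => nW c r (G 2 y) (Cp y))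
      (fun L => nW c r (H 1 L) (CL L)) Θ := by
  obtain ⟨C₁, hown⟩ := nu_own D r
  obtain ⟨C₂, hvel⟩ := nu_vel D r
  obtain ⟨C₃, hbox⟩ := nu_box D r
  refine ⟨C₁ + C₂ + C₃ + CT + 1, ?_⟩
  intro m J F c n M ar MB q₀ Q x p e su s qe o z g gc gT g₀ B G T H TH Ht CL Cp W WT
  obtain ⟨Θ, hΘ1, hΘ2⟩ := WT
  refine ⟨Θ, ?_⟩
  obtain ⟨N, hN⟩ : ∃ N, N = (C₁ + C₂ + C₃ + CT + 1) * (x + 1) := ⟨_, rfl⟩
  rw [← hN]
  have hpw : ∀ {a : ℕ}, a ≤ N → (2 : ℝ) ^ a ≤ 2 ^ N := fun h =>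
    pow_le_pow_right₀ (by norm_num) h
  have hC : ∀ {k : ℕ}, k ≤ C₁ + C₂ + C₃ + CT + 1 → k * (x + 1) ≤ N := fun h => by
    rw [hN]
    exact Nat.mul_le_mul_right _ h
  exact
    { dnp := by
        intro L
        unfold nwp
        have h1 : (MvPolynomial.aeval (lc (o 1) L) (CL L)).natDegree ≤ D := by
          have := natDegree_aev (K := 1) (D := D) (CL L) (lc (o 1) L) (natDegree_lc _ _) (W.dCL L)
          rwa [mul_one] at this
        have h4 : D + 1 ≤ (D + 1) ^ (r + 4) := by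
          calc D + 1 = (D + 1) ^ 1 := (pow_one _).symm
            _ ≤ _ := Nat.pow_le_pow_right (by omega) (by omega)
        refine (Polynomial.natDegree_sub_le _ _).trans (max_le ((natDegree_lc _ _ _).trans ?_)
          (h1.trans ?_)) <;> omega
      vnp := fun ω hω => W.val hω
      wnp := fun ω hω => W.der hω
      dA1 := fun y => deg_nW (W.dG 1 y) (W.dCp y)
      pA1 := fun y => dep_nW W.hc1 (W.pG 1 y) (W.pCp y)
      dA2 := fun y => deg_nW (W.dG 2 y) (W.dCp y)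
      pA2 := fun y => dep_nW W.hc1 (W.pG 2 y) (W.pCp y)
      dR1 := fun L => deg_nW (W.dH 1 L) (W.dCL L)
      cl1 := fun ω hω => W.clA hω
      box1 := fun ω hω => by
        obtain ⟨κ, h1, h2⟩ := hbox W ω hω
        refine ⟨κ, h1.trans (div_le_div_of_nonneg_right (hpw (hC (by omega))) (by positivity)),
          fun b hb => (h2 b hb).trans (div_le_div_of_nonneg_right (hpw (hC (by omega)))
            (by positivity))⟩
      own1 := fun ω hω τ hτ => (hown W ω hω τ hτ).trans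
        (div_le_div_of_nonneg_right (hpw (hC (by omega))) (by positivity))
      pos2 := fun ω hω => (W.pos hω).trans (div_le_div_of_nonneg_right (hpw (by
        rw [hN]
        nlinarith)) (by positivity))
      vel2 := fun ω hω => (hvel W ω hω).trans (div_le_div_of_nonneg_right
        (mul_le_mul_of_nonneg_right (hpw (hC (by omega))) (by positivity)) (by positivity))
      dT := hΘ1
      clo := fun ω hω i => (hΘ2 ω hω i).trans
        (div_le_div_of_nonneg_right (hpw (hC (by omega))) (by positivity)) }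

/-- **The deterministic part of `TL` for the target `N - P(p, u)`.** -/
theorem nu_tld (D r CT K : ℕ) (hK : 1 ≤ K)
    (hK' : (D + 1) * (D + 1) * ((D + 1) * (D + 1) + 1) ^ r ≤ K) : ∃ C : ℕ,
    ∀ {m J : ℕ} {F : Fam m J} {c : ℕ → Fin m}
    {n M ar MB q₀ Q x p e su : ℕ} {s : ℕ → ℕ} {qe : Fin r → ℕ} {o : ℕ → ℕ}
    {z g gc gT g₀ : ℕ → ℕ → ℕ} {B : F.Ω → Prop}
    {G T : ℕ → PtT F → ℕ → MvPolynomial (Option (Fin m)) ℝ}
    {H TH : ℕ → LnT F → ℕ → MvPolynomial (Option (Fin m)) ℝ}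
    {Ht CL : LnT F → MvPolynomial (Option (Fin m)) ℝ}
    {Cp : PtT F → MvPolynomial (Option (Fin m)) ℝ},
    NwDU F c r D n M ar MB q₀ Q x p e su s qe o z g gc gT g₀ B G T H TH Ht CL Cp →
    ClU F c s r D CT MB Q x o B G Cp → ∃ Θ : LnT F → Fin r → Polynomial ℝ,
    ∀ {V V' : Type} (v : F.Ω → V) (v' : F.Ω → V') (vL : LnT F → V) (D' : ℕ),
    (D + 1) ^ (r + 4) ≤ D' →
    TLd K r D' Q MB (2 ^ (J - o 1)) (2 ^ (C * (x + 1))) B (slam F (o 1)) (twF F (o 1))
      (kzF F c s r (o 1) Q v v' (G 0) (fun y => nW c r (G 1 y) (Cp y))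
        (fun y => nW c r (G 2 y) (Cp y)))
      (kaF F c s r (o 1) Q v (G 0) (fun y => nW c r (G 1 y) (Cp y)))
      (fun ω => eL c s r (o 1) qe (frH F r q₀ (H 0) (slam F (o 1) ω)) (slam F (o 1) ω))
      (Xe r qe) (Pfz c s r Q J ((D + 1) * (D + 1))) (Pgz c s r (o 1) Q J ((D + 1) * (D + 1)))
      (ctF F c s r (o 1) q₀ Q qe (H 0) (fun L => nW c r (H 1 L) (CL L)) vL)
      (scF F c s r (o 1) q₀ Q qe (G 0) (H 0))
      (fun L => xL c s r (o 1) Q (frH F r q₀ (H 0) L) L)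
      (nT F s r (o 1) (nwp F c r (o 1) CL) (fun L => nW c r (H 1 L) (CL L)))
      Θ := by
  obtain ⟨C₁, htg⟩ := nu_tgd D r CT
  obtain ⟨C₂, hdet⟩ := tg_det ((D + 1) * (D + 1)) ((D + 1) ^ (r + 4)) r K hK hK'
  refine ⟨C₂ * (C₁ + 3), ?_⟩
  intro m J F c n M ar MB q₀ Q x p e su s qe o z g gc gT g₀ B G T H TH Ht CL Cp W WT
  obtain ⟨Θ, T⟩ := htg W WT
  refine ⟨Θ, ?_⟩
  intro V V' v v' vL D' hD'
  have hx : C₁ * (x + 1) ≤ (C₁ + 2) * (x + 1) := Nat.mul_le_mul_right _ (by omega)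
  have Fr := W.frd (D' := (D + 1) * (D + 1)) (x' := (C₁ + 2) * (x + 1)) (by nlinarith)
    (by nlinarith)
  have T' : TgD F c r ((D + 1) * (D + 1)) ((D + 1) ^ (r + 4)) MB Q ((C₁ + 2) * (x + 1)) s o (g₀ 2)
      B (G 0) (G 2) (nwy F c r Cp) (nwv F c r Cp) (nwp F c r (o 1) CL)
      (fun y => nW c r (G 1 y) (Cp y)) (fun y => nW c r (G 2 y) (Cp y))
      (fun L => nW c r (H 1 L) (CL L)) Θ :=
    { dnp := T.dnp
      vnp := T.vnp
      wnp := T.wnp
      dA1 := T.dA1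
      pA1 := T.pA1
      dA2 := T.dA2
      pA2 := T.pA2
      dR1 := T.dR1
      cl1 := T.cl1
      box1 := fun ω hω => by
        obtain ⟨κ, h1, h2⟩ := T.box1 ω hω
        exact ⟨κ, h1.trans (div_le_div_of_nonneg_right (pow_le_pow_right₀ (by norm_num) hx)
          (by positivity)), fun b hb => (h2 b hb).trans (div_le_div_of_nonneg_right
          (pow_le_pow_right₀ (by norm_num) hx) (by positivity))⟩
      own1 := fun ω hω τ hτ => (T.own1 ω hω τ hτ).trans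
        (div_le_div_of_nonneg_right (pow_le_pow_right₀ (by norm_num) hx) (by positivity))
      pos2 := fun ω hω => (T.pos2 ω hω).trans
        (div_le_div_of_nonneg_right (pow_le_pow_right₀ (by norm_num) hx) (by positivity))
      vel2 := fun ω hω => (T.vel2 ω hω).trans (div_le_div_of_nonneg_right
        (mul_le_mul_of_nonneg_right (pow_le_pow_right₀ (by norm_num) hx) (by positivity))
        (by positivity))
      dT := T.dT
      clo := fun ω hω i => (T.clo ω hω i).trans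
        (div_le_div_of_nonneg_right (pow_le_pow_right₀ (by norm_num) hx) (by positivity)) }
  have hD1 : (D + 1) * (D + 1) ≤ D' := by
    refine le_trans ?_ hD'
    calc (D + 1) * (D + 1) = (D + 1) ^ 2 := by ring
      _ ≤ _ := Nat.pow_le_pow_right (by omega) (by omega)
  have h1 := hdet Fr T' v v' vL D' hD1 hD'
  refine h1.mono ?_
  refine pow_le_pow_right₀ (by norm_num) ?_
  nlinarith

end Pool.V1E
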