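import Pool.Agent.H73.D2.Tnd
import Pool.Agent.H92.D2.Nwd

/-!
# The end for the target `N - P(p, u)` without the row label: the facts on the lines

As `Nwa`, `Nwb`, for `NwDU`.
-/

set_option autoImplicit false

namespace Pool.V1E

open Finset Real MvPolynomial
open Pool.KA Pool.KSAT Pool.PB Pool.GEN Pool.D2R Pool.D2G30 Pool.ISO Pool.CHT Pool.CHX
open Pool.PB.Trl (rt rt_mem t_rt)
open Pool.K2S Pool.END18
open Pool.NLB46 (Lab)

section structs

/-- **`NwDU` with the closed charts of the ball and the re-centred frame.** -/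
structure NwEU {m J : ℕ} (F : Fam m J) (c : ℕ → Fin m) (r D n M ar MB q₀ Q x p e su : ℕ)
    (s : ℕ → ℕ) (qe : Fin r → ℕ) (o : ℕ → ℕ) (z g gc gT g₀ : ℕ → ℕ → ℕ) (B : F.Ω → Prop)
    (G T : ℕ → PtT F → ℕ → MvPolynomial (Option (Fin m)) ℝ)
    (H TH : ℕ → LnT F → ℕ → MvPolynomial (Option (Fin m)) ℝ)
    (Ht CL : LnT F → MvPolynomial (Option (Fin m)) ℝ)
    (Cp : PtT F → MvPolynomial (Option (Fin m)) ℝ) : Prop extends
    NwDU F c r D n M ar MB q₀ Q x p e su s qe o z g gc gT g₀ B G T H TH Ht CL Cp where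
  cl2 : ∀ ω, B ω → ∀ l ≤ r + 1, G 2 (ptr F J ω) l = H 2 (slam F (o 2) ω) l
  rad0 : ChOK F c r (fun _ => D) (o 2) (o 0) e (fun l => g 0 l + (o 2 - o 0)) B
    (fun y l => Gno (c l) J J (fun y => G 0 y l) y) (fun s l => Hno (c l) (fun s => H 0 s l) s)
  z01 : ∃ q ≤ M, z 0 q = o 1 - o 0

end structs

/-- **The gradients of the closed charts of the window** on the boxes of the frame of the ball. -/
theorem nu_lip (D r : ℕ) : ∃ C : ℕ, ∀ {m J : ℕ} {F : Fam m J} {c : ℕ → Fin m}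
    {n M ar MB q₀ Q x p e su : ℕ} {s : ℕ → ℕ} {qe : Fin r → ℕ} {o : ℕ → ℕ}
    {z g gc gT g₀ : ℕ → ℕ → ℕ} {B : F.Ω → Prop}
    {G T : ℕ → PtT F → ℕ → MvPolynomial (Option (Fin m)) ℝ}
    {H TH : ℕ → LnT F → ℕ → MvPolynomial (Option (Fin m)) ℝ}
    {Ht CL : LnT F → MvPolynomial (Option (Fin m)) ℝ}
    {Cp : PtT F → MvPolynomial (Option (Fin m)) ℝ},
    NwEU F c r D n M ar MB q₀ Q x p e su s qe o z g gc gT g₀ B G T H TH Ht CL Cp → 4 * x ≤ Q →
    ∀ ω, B ω →
    (∀ b, NBx c (fun l => Gno (c l) J J (fun y => G 0 y l) (ptr F J ω))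
        (fun l => g 0 l + (o 2 - o 0)) (o 2) (F.t ω) r b →
      (∀ l < r, |b (some (c l)) - eval b (G 1 (ptr F J ω) l)| ≤
        2 ^ (C * (x + 1)) / 2 ^ g₀ 1 l) ∧
      ∀ l < r, |eval b (pderiv (some (c l)) (G 1 (ptr F J ω) r))| ≤
        2 ^ (C * (x + 1)) * 2 ^ (e + nlp (g₀ 1) l r)) ∧
    ∀ b, NBx c (fun j => if j < r then Gno (c j) J J (fun y => G 0 y j) (ptr F J ω) else
          G 1 (ptr F J ω) r)
        (fun j => if j < r then g 0 j + (o 2 - o 0) else g₀ 1 r) (o 2) (F.t ω) (r + 1) b →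
      ∀ l < r + 1, |eval b (pderiv (some (c l)) (G 1 (ptr F J ω) (r + 1)))| ≤
        2 ^ (C * (x + 1)) * 2 ^ (e + nlp (g₀ 1) l (r + 1)) := by
  obtain ⟨C₁, hf1⟩ := frm_box D r
  obtain ⟨C₂, hf2⟩ := frm_box D (r + 1)
  obtain ⟨C₃, hbs⟩ := box_swap D (r + 1)
  refine ⟨4 * (C₁ + C₂ + C₃), ?_⟩
  intro m J F c n M ar MB q₀ Q x p e su s qe o z g gc gT g₀ B G T H TH Ht CL Cp W hxQ ω hω
  have h01 : o 0 ≤ o 1 := by have := W.o1; omega
  have h12 : o 1 ≤ o 2 := by have := W.o2; omega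
  obtain ⟨q, hq, hz⟩ := W.z01
  have h4 : ∀ i : ℕ, DepC c i (Gno (c i) J J (fun y => G 0 y i) (ptr F J ω)) := fun i =>
    W.rad0.depG (ptr F J ω) i
  have hgl : ∀ l < r, g₀ 1 l ≤ g 0 l + (o 2 - o 0) := fun i hi => by
    have := W.n1d i hi
    have := W.n2b i hi
    have := W.n2c i hi
    omega
  have hpw : ∀ {k : ℕ}, k ≤ 4 * (C₁ + C₂ + C₃) * (x + 1) →
      (2 : ℝ) ^ k ≤ 2 ^ (4 * (C₁ + C₂ + C₃) * (x + 1)) := fun h =>
    pow_le_pow_right₀ (by norm_num) h
  have hnear : ∀ i < r, ∀ b', NBx c (G 1 (ptr F J ω)) (g₀ 1) (o 1) (F.t ω) i b' →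
      |eval b' (Gno (c i) J J (fun y => G 0 y i) (ptr F J ω)) -
        eval b' (G 1 (ptr F J ω) i)| ≤ 2 ^ (4 * x) / 2 ^ g₀ 1 i := fun i hi b' hb' => by
    refine (W.bal.bal 0 (by have := W.n3; omega) 1 (by have := W.n3; omega) q hq h01 hz ω hω i
      (by omega) b' hb').trans ?_
    rw [div_le_div_iff₀ (by positivity) (by positivity), ← pow_add, ← pow_add]
    refine pow_le_pow_right₀ (by norm_num) ?_
    have := W.n1d i hi
    have := W.n2b i hi
    have := W.n2c i hi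
    have := W.o1
    have := W.o2
    omega
  refine ⟨fun b hb => ?_, fun b hb l hl => ?_⟩
  · have hb1 : NBx c (fun l => Gno (c l) J J (fun y => G 0 y l) (ptr F J ω)) (g₀ 1) (o 1)
        (F.t ω) r b := ⟨hb.1.trans (one_div_le_one_div_of_le (by positivity)
      (pow_le_pow_right₀ (by norm_num) h12)), fun i hi => (hb.2 i hi).trans
      (one_div_le_one_div_of_le (by positivity) (pow_le_pow_right₀ (by norm_num) (hgl i hi)))⟩
    refine ⟨fun l hl => ?_, fun l hl => ?_⟩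
    · refine (hbs (c := c) (i := r) (p := 4 * x + 1) (q := 0) (a := o 1) (t := F.t ω)
        (G := G 1 (ptr F J ω)) (G' := fun l => Gno (c l) J J (fun y => G 0 y l) (ptr F J ω))
        (g := g₀ 1) (g' := g₀ 1) (Nat.lt_succ_self r) W.hcr (fun i => W.dG 1 _ i)
        (fun i => W.pG 1 _ i) (fun i => W.rad0.degG (ptr F J ω) i) h4 (fun i _ => le_rfl)
        (fun b' hb' j hj => ?_) b hb1 l hl).trans ?_
      · have e1 := hb'.2 j hj
        have e2 := hnear j hj b' (hb'.mono le_rfl hj.le)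
        have e3 : b' (some (c j)) - eval b' (Gno (c j) J J (fun y => G 0 y j) (ptr F J ω)) =
            (b' (some (c j)) - eval b' (G 1 (ptr F J ω) j)) -
            (eval b' (Gno (c j) J J (fun y => G 0 y j) (ptr F J ω)) -
              eval b' (G 1 (ptr F J ω) j)) := by ring
        show |b' (some (c j)) - eval b' (Gno (c j) J J (fun y => G 0 y j) (ptr F J ω))| ≤ _
        rw [e3]
        refine (abs_sub _ _).trans ((add_le_add e1 e2).trans ?_)
        rw [← add_div]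
        refine div_le_div_of_nonneg_right ?_ (by positivity)
        have h7 : (1 : ℝ) ≤ 2 ^ (4 * x) := one_le_pow₀ (by norm_num)
        rw [pow_succ]
        linarith
      · exact div_le_div_of_nonneg_right (hpw (by nlinarith)) (by positivity)
    · have h1 := hf1 (c := c) (a := o 1) (p := 4 * x) (q := 0) (t := F.t ω)
        (Gb := G 1 (ptr F J ω)) (ψ := fun l => Gno (c l) J J (fun y => G 0 y l) (ptr F J ω))
        (gb := g₀ 1) (g' := g₀ 1) (R := pderiv (some (c l)) (G 1 (ptr F J ω) r))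
        (M := 2 ^ (e + nlp (g₀ 1) l r)) W.hcr (fun i => W.dG 1 _ i) (fun i => W.pG 1 _ i)
        (fun i => W.rad0.degG (ptr F J ω) i) h4 ((W.pG 1 _ r).pderiv l)
        ((pd_deg _ _).trans (W.dG 1 _ r)) (by positivity) (fun i _ => le_rfl)
        (fun i _ => le_rfl) (fun i hi b' hb' => hnear i hi b' hb')
        (fun b' hb' => W.ch1.lip ω hω r (by omega) b' hb' l hl) b hb1
      exact h1.trans (mul_le_mul_of_nonneg_right (hpw (by nlinarith)) (by positivity))
  · have h1 := hf2 (c := c) (a := o 1) (p := 4 * x) (q := 0) (t := F.t ω)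
      (Gb := G 1 (ptr F J ω)) (ψ := fun j => if j < r then
        Gno (c j) J J (fun y => G 0 y j) (ptr F J ω) else G 1 (ptr F J ω) r)
      (gb := g₀ 1) (g' := g₀ 1) (R := pderiv (some (c l)) (G 1 (ptr F J ω) (r + 1)))
      (M := 2 ^ (e + nlp (g₀ 1) l (r + 1))) W.hc1 (fun i => W.dG 1 _ i) (fun i => W.pG 1 _ i)
      (fun i => by
        split_ifs
        · exact W.rad0.degG (ptr F J ω) i
        · exact W.dG 1 _ r)
      (fun i => by
        split_ifs with h
        · exact h4 i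
        · exact (W.pG 1 _ r).mono (by omega))
      ((W.pG 1 _ (r + 1)).pderiv l)
      ((pd_deg _ _).trans (W.dG 1 _ (r + 1))) (by positivity) (fun i _ => le_rfl)
      (fun i _ => le_rfl) (fun i hi b' hb' => by
        split_ifs with h
        · exact hnear i h b' hb'
        · have hir : i = r := by omega
          rw [hir, sub_self, abs_zero]
          positivity)
      (fun b' hb' => W.ch1.lip ω hω (r + 1) (by omega) b' hb' l hl) b
      ⟨hb.1.trans (one_div_le_one_div_of_le (by positivity)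
        (pow_le_pow_right₀ (by norm_num) h12)), fun i hi => (hb.2 i hi).trans
        (one_div_le_one_div_of_le (by positivity) (pow_le_pow_right₀ (by norm_num) (by
          beta_reduce
          split_ifs with h
          · exact hgl i h
          · have hir : i = r := by omega
            rw [hir])))⟩
    exact h1.trans (mul_le_mul_of_nonneg_right (hpw (by nlinarith)) (by positivity))

section one

variable {m J : ℕ} {F : Fam m J} {c : ℕ → Fin m} {r D n M ar MB q₀ Q x p e su : ℕ}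
  {s : ℕ → ℕ} {qe : Fin r → ℕ} {o : ℕ → ℕ} {z g gc gT g₀ : ℕ → ℕ → ℕ} {B : F.Ω → Prop}
  {G T : ℕ → PtT F → ℕ → MvPolynomial (Option (Fin m)) ℝ}
  {H TH : ℕ → LnT F → ℕ → MvPolynomial (Option (Fin m)) ℝ}
  {Ht CL : LnT F → MvPolynomial (Option (Fin m)) ℝ}
  {Cp : PtT F → MvPolynomial (Option (Fin m)) ℝ}

/-- The frame. -/
theorem NwDU.frd (W : NwDU F c r D n M ar MB q₀ Q x p e su s qe o z g gc gT g₀ B G T H TH Ht CL Cp) :
    FrD F c r ((D + 1) * (D + 1)) MB q₀ Q (2 * x + 2) s qe o (g₀ 0) (g₀ 2) B (G 0) (G 2) (H 0) :=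
  W.toNvP.frd (by nlinarith) le_rfl

/-- **The polynomial of the tube.** -/
theorem nu_pfz (W : NwDU F c r D n M ar MB q₀ Q x p e su s qe o z g gc gT g₀ B G T H TH Ht CL Cp)
    {V V' : Type} (v : F.Ω → V) (v' : F.Ω → V') (ω : F.Ω) :
    Pfz c s r Q J ((D + 1) * (D + 1)) (kzF F c s r (o 1) Q v v' (G 0)
      (fun y => nW c r (G 1 y) (Cp y)) (fun y => nW c r (G 2 y) (Cp y)) ω) =
    PfR c s r Q (F.t ω) (crF F c s r (o 1) Q (G 0) ω) (trn r (G 0 (ptr F J ω)))
      (nW c r (G 2 (ptr F J ω)) (Cp (ptr F J ω)) - nW c r (G 1 (ptr F J ω)) (Cp (ptr F J ω))) := by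
  have hDD : D ≤ (D + 1) * (D + 1) := by nlinarith
  show PfR c s r Q ((F.T ω : ℝ) / 2 ^ J) (crF F c s r (o 1) Q (G 0) ω)
    (fun l => dgt ((D + 1) * (D + 1)) (trn r (G 0 (ptr F J ω)) l))
    (dgt ((D + 1) * (D + 1)) (nW c r (G 2 (ptr F J ω)) (Cp (ptr F J ω))) -
      dgt ((D + 1) * (D + 1)) (nW c r (G 1 (ptr F J ω)) (Cp (ptr F J ω)))) = _
  rw [dgt_eq (deg_nW (W.dG 2 _) (W.dCp _)), dgt_eq (deg_nW (W.dG 1 _) (W.dCp _))]
  have h1 : (fun l => dgt ((D + 1) * (D + 1)) (trn r (G 0 (ptr F J ω)) l)) =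
      trn r (G 0 (ptr F J ω)) :=
    funext fun l => dgt_eq (trn_deg (fun l => (W.dG 0 _ l).trans hDD) l)
  rw [h1]
  rfl

/-- The chart of the ball, closed. -/
theorem NwEU.clB (W : NwEU F c r D n M ar MB q₀ Q x p e su s qe o z g gc gT g₀ B G T H TH Ht CL Cp)
    {ω : F.Ω} (hω : B ω) : nW c r (G 2 (ptr F J ω)) (Cp (ptr F J ω)) =
      nW c r (H 2 (slam F (o 1 + Q) ω)) (CL (co Q (slam F (o 1 + Q) ω))) := by
  have h2J : o 1 + Q ≤ J := by have := W.oJ; have := W.o3; have := W.o2; omega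
  have h1 : co Q (slam F (o 1 + Q) ω) = slam F (o 1) ω := by
    have h2 := co_slam F (w := o 1) (a := o 1 + Q) (by omega) h2J ω
    rwa [Nat.add_sub_cancel_left] at h2
  have e2 : slam F (o 1 + Q) ω = slam F (o 2) ω := by rw [W.o2]
  unfold nW nfw
  rw [h1, e2, W.cl2 ω hω r (Nat.le_succ r), W.cl2 ω hω (r + 1) le_rfl, W.clC ω hω]

end one

/-- **`EN` from `NwEU`.** -/
theorem nu_en (D r : ℕ) : ∃ C : ℕ, ∀ {m J : ℕ} {F : Fam m J} {c : ℕ → Fin m}
    {n M ar MB q₀ Q x p e su : ℕ} {s : ℕ → ℕ} {qe : Fin r → ℕ} {o : ℕ → ℕ}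
    {z g gc gT g₀ : ℕ → ℕ → ℕ} {B : F.Ω → Prop}
    {G T : ℕ → PtT F → ℕ → MvPolynomial (Option (Fin m)) ℝ}
    {H TH : ℕ → LnT F → ℕ → MvPolynomial (Option (Fin m)) ℝ}
    {Ht CL : LnT F → MvPolynomial (Option (Fin m)) ℝ}
    {Cp : PtT F → MvPolynomial (Option (Fin m)) ℝ},
    NwEU F c r D n M ar MB q₀ Q x p e su s qe o z g gc gT g₀ B G T H TH Ht CL Cp → 4 * x ≤ Q →
    C * (x + 1) ≤ MB → ∀ e₁, e + C * (x + 1) ≤ e₁ →
    EN F c s (fun l => g 0 l + (o 2 - o 0)) r ((D + 1) * (D + 1)) (o 1) q₀ Q e₁ (2 * x) B (G 0)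
      (fun y => nW c r (G 2 y) (Cp y)) (H 0) (fun L => nW c r (H 1 L) (CL L))
      (fun L => nW c r (H 2 L) (CL (co Q L)))
      (fun L => z0L c s r (o 1) Q (frH F r q₀ (H 0) L) L)
      (fun L => z1L c s r (o 1) Q qe (frH F r q₀ (H 0) L) L) ∧
    Lab F c r ((D + 1) * (D + 1)) (o 1 + Q) (o 1) e₁ (g₀ 1 r) (fun l => g 0 l + (o 2 - o 0))
      (Gf F c (G 0)) B (fun y => G 1 y r) (fun L => H 1 L r) ∧
    (∀ ω, B ω → ∀ b, NBx c (fun j => if j < r then Gf F c (G 0) (ptr F J ω) j else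
        G 1 (ptr F J ω) r) (fun j => if j < r then g 0 j + (o 2 - o 0) else g₀ 1 r) (o 1 + Q)
        (F.t ω) (r + 1) b →
      |eval b (adW CL (fun L => nW c r (H 1 L) (CL L)) (slam F (o 1) ω)) -
        eval b (H 1 (slam F (o 1) ω) (r + 1))| ≤ 2 ^ (C * (x + 1)) / 2 ^ s r) ∧
    (∀ p', e + C * (x + 1) + (p' - g₀ 1 (r + 1)) ≤ e₁ → ∀ ω, B ω → ∀ b,
      NBx c (fun j => if j < r then Gf F c (G 0) (ptr F J ω) j else
        G 1 (ptr F J ω) r) (fun j => if j < r then g 0 j + (o 2 - o 0) else g₀ 1 r) (o 1 + Q)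
        (F.t ω) (r + 1) b → ∀ l < r + 1,
      |eval b (pderiv (some (c l)) (H 1 (slam F (o 1) ω) (r + 1)))| ≤
        2 ^ (e₁ + nlp (fun j => if j < r + 1 then (fun j => if j < r then g 0 j + (o 2 - o 0) else
          g₀ 1 r) j else p') l (r + 1))) ∧
    (∀ ω, B ω → ∀ i : Fin r, |(crF F c s r (o 1) Q (G 0) ω i : ℝ) +
        scF F c s r (o 1) q₀ Q qe (G 0) (H 0) ω i -
      (z0L c s r (o 1) Q (frH F r q₀ (H 0) (slam F (o 1) ω)) (slam F (o 1) ω) i +
        z1L c s r (o 1) Q qe (frH F r q₀ (H 0) (slam F (o 1) ω)) (slam F (o 1) ω) i *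
          rt F (o 1) ω)| ≤ 2 ^ (C * (x + 1)) / 2 ^ MB) := by
  obtain ⟨C₁, htu⟩ := F_tube ((D + 1) * (D + 1))
  obtain ⟨C₂, hli⟩ := nu_lip D r
  obtain ⟨C₃, hd1⟩ := nu_d1 D r
  refine ⟨3 * C₁ + C₂ + C₃ * (C₂ + 1) + 3, ?_⟩
  intro m J F c n M ar MB q₀ Q x p e su s qe o z g gc gT g₀ B G T H TH Ht CL Cp W hxQ hMB e₁ he₁
  have h1J : o 1 + Q ≤ J := by have := W.oJ; have := W.o3; have := W.o2; omega
  have h1J' : o 1 ≤ J := by omega
  have ho2 : o 1 + Q = o 2 := W.o2.symm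
  have hDD : D ≤ (D + 1) * (D + 1) := by nlinarith
  have hY : ∀ {k : ℕ}, k ≤ (3 * C₁ + C₂ + C₃ * (C₂ + 1) + 3) * (x + 1) → (2 : ℝ) ^ k ≤
      2 ^ ((3 * C₁ + C₂ + C₃ * (C₂ + 1) + 3) * (x + 1)) := fun h =>
    pow_le_pow_right₀ (by norm_num) h
  have hY1 : C₁ * (2 * x + 2 + 1) ≤ (3 * C₁ + C₂ + C₃ * (C₂ + 1) + 3) * (x + 1) := by
    have h1 : C₁ * (2 * x + 2 + 1) ≤ 3 * C₁ * (x + 1) := by nlinarith
    exact h1.trans (Nat.mul_le_mul_right _ (by omega))
  have hgl : ∀ l < r, g₀ 1 l ≤ g 0 l + (o 2 - o 0) := fun i hi => by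
    have := W.n1d i hi
    have := W.n2b i hi
    have := W.n2c i hi
    omega
  have hk3 : C₂ * (x + 1) ≤ (3 * C₁ + C₂ + C₃ * (C₂ + 1) + 3) * (x + 1) :=
    Nat.mul_le_mul_right _ (by omega)
  -- the sup of the levels
  have hsup : ∀ l ≤ r, (Finset.Icc l r).sup (g₀ 1) ≤ (Finset.Icc l r).sup
      (fun j => if j < r then g 0 j + (o 2 - o 0) else g₀ 1 r) := fun l _ =>
    Finset.sup_mono_fun fun j hj => by
      rcases lt_or_ge j r with hjr | hjr
      · rw [if_pos hjr]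
        exact hgl j hjr
      · rw [if_neg (not_lt.2 hjr)]
        have hj' : j = r := le_antisymm (Finset.mem_Icc.1 hj).2 hjr
        rw [hj']
  refine ⟨?_, ?_, ?_, ?_, ?_⟩
  · refine
      { inj := W.hcr
        Dc1 := by nlinarith
        wQ := h1J
        qw := by have := W.o1; omega
        cl := fun ω hω => W.clB hω
        dG₀ := fun y l => (W.dG 0 y l).trans hDD
        dH₀ := fun L l => (W.dH 0 L l).trans hDD
        pH₀ := fun L l => W.pH 0 L l
        dH₁ := fun L => deg_nW (W.dH 1 L) (W.dCL L)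
        pH₁ := fun L => dep_nW W.hc1 (W.pH 1 L) (W.pCL L)
        dG₂ := fun y => deg_nW (W.dG 2 y) (W.dCp y)
        pG₂ := fun y => dep_nW W.hc1 (W.pG 2 y) (W.pCp y)
        dH₂ := fun L => deg_nW (W.dH 2 L) (W.dCL _)
        pH₂ := fun L => dep_nW W.hc1 (W.pH 2 L) (W.pCL _)
        top := ?_
        gcs := fun l hl => ?_
        own := fun ω hω v hv i => ?_ }
    · have e0 : o 1 - q₀ = o 0 := by have := W.o1; omega
      rw [ho2, e0]
      exact W.rad0.mono le_rfl (fun _ => hDD) le_rfl (by omega)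
    · have := W.n2b l hl
      have := W.n2c l hl
      show Q + s l ≤ g 0 l + (o 2 - o 0) + 2 * x
      omega
    · have h1 := (htu W.toNwDU.frd ω hω i).1 v hv
      obtain ⟨y, hy⟩ : ∃ y : ℝ, y = 2 ^ Q * (hL c s r (o 1) (frH F r q₀ (H 0) (slam F (o 1) ω))
        (slam F (o 1) ω) (some i)).eval v := ⟨_, rfl⟩
      rw [← hy] at h1 ⊢
      have h2 : (2 : ℝ) ^ (C₁ * (2 * x + 2 + 1)) / 2 ^ MB ≤ 1 := by
        rw [div_le_one (by positivity)]
        exact (hY hY1).trans (pow_le_pow_right₀ (by norm_num) hMB)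
      have h3 := Int.fract_nonneg ((2 : ℝ) ^ Q * (hL c s r (o 1) (frH F r q₀ (H 0)
        (slam F (o 1) ω)) (slam F (o 1) ω) (some i)).eval 0)
      have h4 := (Int.fract_lt_one ((2 : ℝ) ^ Q * (hL c s r (o 1) (frH F r q₀ (H 0)
        (slam F (o 1) ω)) (slam F (o 1) ω) (some i)).eval 0)).le
      have h5 : xL c s r (o 1) Q (frH F r q₀ (H 0) (slam F (o 1) ω)) (slam F (o 1) ω) i =
        Int.fract (2 ^ Q * (hL c s r (o 1) (frH F r q₀ (H 0)
          (slam F (o 1) ω)) (slam F (o 1) ω) (some i)).eval 0) := rfl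
      rw [h5] at h1
      have h6 := abs_le.1 (h1.trans h2)
      show |y - ((cL c s r (o 1) Q (frH F r q₀ (H 0) (slam F (o 1) ω)) (slam F (o 1) ω) 0 i : ℝ) +
        2 ^ Q * ((eL c s r (o 1) qe (frH F r q₀ (H 0) (slam F (o 1) ω)) (slam F (o 1) ω) i : ℝ) /
          2 ^ qe i) * v)| ≤ 2
      rw [abs_le]
      constructor <;> linarith [h6.1, h6.2]
  · refine ⟨fun y => (W.dG 1 y r).trans hDD, fun L => (W.dH 1 L r).trans hDD, fun y => W.pG 1 y r,
      fun L => W.pH 1 L r, fun ω hω => W.ch1.pos ω hω r (by omega), fun ω hω b hb => ?_,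
      fun ω hω b hb l hl => ?_⟩
    · show |eval b (G 1 (ptr F J ω) r) - eval b (H 1 (slam F (o 1) ω) r)| ≤ _
      rw [W.cl1 ω hω r (Nat.le_succ r), sub_self, abs_zero]
      positivity
    · rw [ho2] at hb
      refine (((hli W hxQ ω hω).1 b hb).2 l hl).trans ?_
      rw [← pow_add]
      refine pow_le_pow_right₀ (by norm_num) ?_
      have k1 := hsup l hl.le
      have k2 : g₀ 1 r ≤ (Finset.Icc l r).sup (g₀ 1) :=
        Finset.le_sup (f := g₀ 1) (Finset.mem_Icc.2 ⟨hl.le, le_rfl⟩)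
      have k5 : nlp (g₀ 1) l r = (Finset.Icc l r).sup (g₀ 1) - g₀ 1 r := rfl
      have k6 : nlp (fun j => if j < r then g 0 j + (o 2 - o 0) else g₀ 1 r) l r =
          (Finset.Icc l r).sup (fun j => if j < r then g 0 j + (o 2 - o 0) else g₀ 1 r) -
            g₀ 1 r := by
        unfold nlp
        beta_reduce
        rw [if_neg (lt_irrefl r)]
      rw [k5, k6]
      omega
  · intro ω hω b hb
    rw [ho2] at hb
    have hbr : NBx c (fun l => Gno (c l) J J (fun y => G 0 y l) (ptr F J ω))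
        (fun l => g 0 l + (o 2 - o 0)) (o 2) (F.t ω) r b := by
      refine ⟨hb.1, fun j hj => ?_⟩
      have h1 := hb.2 j (by omega)
      simp only [if_pos hj] at h1
      exact h1
    have hr := hb.2 r (Nat.lt_succ_self r)
    simp only [if_neg (lt_irrefl r)] at hr
    have h12 : o 1 ≤ o 2 := by have := W.o2; omega
    have hnr := ((hli W hxQ ω hω).1 b hbr).1
    have hself : up (c r) b (b (some (c r))) = b := up_eq rfl
    have hne : ∀ l < r, c l ≠ c r := fun l hl he => by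
      have := W.hc1 (Set.mem_Iio.2 (show l < r + 1 by omega))
        (Set.mem_Iio.2 (Nat.lt_succ_self r)) he
      omega
    have h3 := mv_up (k := c r) (R := nfw r (G 1 (ptr F J ω)) (Cp (ptr F J ω)))
      (b := b) (v := eval b (G 1 (ptr F J ω) r)) (v' := b (some (c r)))
      (M := 2 ^ (C₃ * (C₂ * (x + 1) + 1)) * (2 ^ (su + x) / 2 ^ s r)) (fun w hw => by
        refine hd1 W.toNwDU ω hω (C₂ * (x + 1)) _ (by
          rw [up_none]
          exact hb.1.trans (one_div_le_one_div_of_le (by positivity)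
            (pow_le_pow_right₀ (by norm_num) h12))) fun l hl => ?_
        rw [hC1e W.hc1 (W.pG 1 _) hl]
        rcases Nat.lt_or_ge l r with h | h
        · rw [up_ne (hne l h)]
          exact hnr l h
        · have : l = r := by omega
          subst this
          rw [up_self]
          have h8 : (1 : ℝ) / 2 ^ g₀ 1 l ≤ 2 ^ (C₂ * (x + 1)) / 2 ^ g₀ 1 l :=
            div_le_div_of_nonneg_right (one_le_pow₀ (by norm_num)) (by positivity)
          refine uicc_le hw ?_ (hr.trans h8)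
          rw [sub_self, abs_zero]
          positivity)
    rw [hself, eval_nfw b] at h3
    rw [eval_adW, eval_nW, ← W.cl1 ω hω (r + 1) le_rfl, ← W.cl1 ω hω r (Nat.le_succ r),
      ← W.clC ω hω]
    have e0 : nfw r (H 1 (slam F (o 1) ω)) (Cp (ptr F J ω)) =
        nfw r (G 1 (ptr F J ω)) (Cp (ptr F J ω)) := by
      unfold nfw
      rw [W.cl1 ω hω (r + 1) le_rfl]
    rw [e0]
    have e1 : eval (up (c r) b (eval b (G 1 (ptr F J ω) r)))
          (nfw r (G 1 (ptr F J ω)) (Cp (ptr F J ω))) + eval b (Cp (ptr F J ω)) -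
        eval b (G 1 (ptr F J ω) (r + 1)) =
        eval (up (c r) b (eval b (G 1 (ptr F J ω) r)))
          (nfw r (G 1 (ptr F J ω)) (Cp (ptr F J ω))) -
        (eval b (G 1 (ptr F J ω) (r + 1)) - eval b (Cp (ptr F J ω))) := by ring
    rw [e1]
    refine h3.trans ?_
    rw [abs_sub_comm]
    have h8 : (2 : ℝ) ^ (su + x) / 2 ^ g₀ 1 r ≤ 2 ^ (x + x) := p2_div (by
      have := W.u1'
      omega)
    calc 2 ^ (C₃ * (C₂ * (x + 1) + 1)) * (2 ^ (su + x) / 2 ^ s r) *
          |b (some (c r)) - eval b (G 1 (ptr F J ω) r)| ≤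
        2 ^ (C₃ * (C₂ * (x + 1) + 1)) * (2 ^ (su + x) / 2 ^ s r) * (1 / 2 ^ g₀ 1 r) :=
          mul_le_mul_of_nonneg_left hr (by positivity)
      _ = 2 ^ (C₃ * (C₂ * (x + 1) + 1)) * (2 ^ (su + x) / 2 ^ g₀ 1 r) / 2 ^ s r := by ring
      _ ≤ 2 ^ (C₃ * (C₂ * (x + 1) + 1)) * 2 ^ (x + x) / 2 ^ s r :=
          div_le_div_of_nonneg_right (mul_le_mul_of_nonneg_left h8 (by positivity))
            (by positivity)
      _ = 2 ^ (C₃ * (C₂ * (x + 1) + 1) + (x + x)) / 2 ^ s r := by rw [← pow_add]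
      _ ≤ _ := div_le_div_of_nonneg_right (hY (by
          have h9 : C₃ * (C₂ * (x + 1) + 1) ≤ C₃ * (C₂ + 1) * (x + 1) := by
            rw [mul_assoc]
            refine Nat.mul_le_mul_left _ ?_
            nlinarith
          nlinarith)) (by positivity)
  · intro p' hp' ω hω b hb l hl
    rw [ho2] at hb
    rw [← W.cl1 ω hω (r + 1) le_rfl]
    refine ((hli W hxQ ω hω).2 b hb l hl).trans ?_
    rw [← pow_add]
    refine pow_le_pow_right₀ (by norm_num) ?_
    obtain ⟨S₁, hS₁⟩ : ∃ S₁, S₁ = (Finset.Icc l (r + 1)).sup (g₀ 1) := ⟨_, rfl⟩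
    obtain ⟨S₂, hS₂⟩ : ∃ S₂, S₂ = (Finset.Icc l (r + 1)).sup (fun j => if j < r + 1 then
        (fun j => if j < r then g 0 j + (o 2 - o 0) else g₀ 1 r) j else p') := ⟨_, rfl⟩
    have k5 : nlp (g₀ 1) l (r + 1) = S₁ - g₀ 1 (r + 1) := by rw [hS₁]; rfl
    have k6 : nlp (fun j => if j < r + 1 then (fun j => if j < r then g 0 j + (o 2 - o 0) else
        g₀ 1 r) j else p') l (r + 1) = S₂ - p' := by
      rw [hS₂]
      unfold nlp
      beta_reduce
      rw [if_neg (lt_irrefl (r + 1))]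
    have k3 : p' ≤ S₂ := by
      rw [hS₂]
      have := Finset.le_sup (f := fun j => if j < r + 1 then (fun j => if j < r then
        g 0 j + (o 2 - o 0) else g₀ 1 r) j else p')
        (Finset.mem_Icc.2 ⟨hl.le, le_refl (r + 1)⟩)
      beta_reduce at this
      rwa [if_neg (lt_irrefl (r + 1))] at this
    have k1 : S₁ ≤ max S₂ (g₀ 1 (r + 1)) := by
      rw [hS₁]
      refine Finset.sup_le fun j hj => ?_
      obtain ⟨j1, j2⟩ := Finset.mem_Icc.1 hj
      rcases Nat.lt_or_ge j (r + 1) with hjr | hjr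
      · refine le_trans ?_ (le_max_left _ _)
        rw [hS₂]
        have := Finset.le_sup (f := fun j => if j < r + 1 then (fun j => if j < r then
          g 0 j + (o 2 - o 0) else g₀ 1 r) j else p') hj
        beta_reduce at this
        rw [if_pos hjr] at this
        refine le_trans ?_ this
        split_ifs with h
        · exact hgl j h
        · have : j = r := by omega
          rw [this]
      · have : j = r + 1 := by omega
        rw [this]
        exact le_max_right _ _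
    rw [k5, k6]
    rcases le_total S₂ (g₀ 1 (r + 1)) with h | h
    · rw [max_eq_right h] at k1
      omega
    · rw [max_eq_left h] at k1
      omega
  · intro ω hω i
    have h1 := (htu W.toNwDU.frd ω hω i).2
    refine le_trans (le_of_eq ?_) (h1.trans (div_le_div_of_nonneg_right (hY hY1)
      (by positivity)))
    congr 1
    unfold z0L z1L
    ring

end Pool.V1E
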