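import Pool.Agent.H73.D2.Tnf

/-!
# The target `N - P(p, u)` without the row label: the code of the tube, `TL`, one event

As `Nwd`, for `NwDU` and a closed gradient `ClU`.
-/

set_option autoImplicit false

namespace Pool.V1E

open Finset Real MvPolynomial
open Pool.KA Pool.KSAT Pool.PB Pool.GEN Pool.D2R Pool.D2G30 Pool.ISO Pool.CHT Pool.CHX
open Pool.PB.Trl (rt rt_mem t_rt)
open Pool.Agent.H49.Ent Pool.Agent.H32.Dense Pool.STK Pool.K2S Pool.END18 Pool.D2Con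
open Pool.NLB46 (Lab)
open Pool.LA91 (TlO)

/-- **The code of the tube** is few bits given the velocity, the record, the time and the corner. -/
theorem nu_cfew (D r : ℕ) : ∃ C : ℕ, ∀ {m J : ℕ} {F : Fam m J} {c : ℕ → Fin m}
    {n M ar MB q₀ Q x p e su : ℕ} {s : ℕ → ℕ} {qe : Fin r → ℕ} {o : ℕ → ℕ}
    {z g gc gT g₀ : ℕ → ℕ → ℕ} {A : F.Ω → Prop}
    {G T : ℕ → PtT F → ℕ → MvPolynomial (Option (Fin m)) ℝ}
    {H TH : ℕ → LnT F → ℕ → MvPolynomial (Option (Fin m)) ℝ}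
    {Ht CL : LnT F → MvPolynomial (Option (Fin m)) ℝ}
    {Cp : PtT F → MvPolynomial (Option (Fin m)) ℝ},
    NwDU F c r D n M ar MB q₀ Q x p e su s qe o z g gc gT g₀ A G T H TH Ht CL Cp →
    C * (x + 1) ≤ MB → ∀ {V : Type} {v : F.Ω → V} {vL : LnT F → V},
    (∀ ω, A ω → v ω = vL (slam F (o 1) ω)) → ∀ {q : F.Ω → ℝ}, IsLaw q → (∀ ω, 0 < q ω → A ω) →
    CH q (fun ω => ctF F c s r (o 1) q₀ Q qe (H 0) (fun L => nW c r (H 1 L) (CL L)) vL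
        (slam F (o 1) ω))
      (fun ω => (eL c s r (o 1) qe (frH F r q₀ (H 0) (slam F (o 1) ω)) (slam F (o 1) ω),
        kaF F c s r (o 1) Q v (G 0) (fun y => nW c r (G 1 y) (Cp y)) ω)) ≤ r * Real.log 13 := by
  obtain ⟨C₁, htu⟩ := F_tube ((D + 1) * (D + 1))
  refine ⟨3 * C₁, ?_⟩
  intro m J F c n M ar MB q₀ Q x p e su s qe o z g gc gT g₀ A G T H TH Ht CL Cp W hMB' V v vL hvL q
    hq hqA
  have hMB : C₁ * (2 * x + 2 + 1) ≤ MB := le_trans (by nlinarith) hMB'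
  have h1J : o 1 ≤ J := by have := W.oJ; have := W.o3; have := W.o2; omega
  obtain ⟨N, hN⟩ : ∃ N : F.Ω → Fin r → ℤ, N = fun ω =>
    cL c s r (o 1) Q (frH F r q₀ (H 0) (slam F (o 1) ω)) (slam F (o 1) ω) 0 := ⟨_, rfl⟩
  have hR : ∀ ω, A ω → nW c r (H 1 (slam F (o 1) ω)) (CL (slam F (o 1) ω)) =
      nW c r (G 1 (ptr F J ω)) (Cp (ptr F J ω)) := fun ω hω => by
    unfold nW nfw
    rw [W.cl1 ω hω r (Nat.le_succ r), W.cl1 ω hω (r + 1) le_rfl, W.clC ω hω]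
  -- the code is a function of the cell and of the condition
  have h1 := CH_mono_left hq.nonneg (X' := N) (X := fun ω => ctF F c s r (o 1) q₀ Q qe (H 0)
    (fun L => nW c r (H 1 L) (CL L)) vL (slam F (o 1) ω)) (W := fun ω =>
      (eL c s r (o 1) qe (frH F r q₀ (H 0) (slam F (o 1) ω)) (slam F (o 1) ω),
        kaF F c s r (o 1) Q v (G 0) (fun y => nW c r (G 1 y) (Cp y)) ω)) (by
    intro ω ω' hω hω' h
    simp only [Prod.mk.injEq] at h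
    obtain ⟨hNN, hE, hk⟩ := h
    have k0 : v ω = v ω' := congrArg (fun y => y.1.1) hk
    have k1 : trn r (G 0 (ptr F J ω)) = trn r (G 0 (ptr F J ω')) :=
      congrArg (fun y => y.1.2.1) hk
    have k2 : nW c r (G 1 (ptr F J ω)) (Cp (ptr F J ω)) =
        nW c r (G 1 (ptr F J ω')) (Cp (ptr F J ω')) := congrArg (fun y => y.1.2.2) hk
    have k3 : F.T ω = F.T ω' := congrArg (fun y => y.2.1) hk
    have k4 : (slam F (o 1) ω).2.2 = (slam F (o 1) ω').2.2 := by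
      show F.T1 (o 1) ω = F.T1 (o 1) ω'
      unfold Fam.T1
      rw [k3]
    have k5 : frH F r q₀ (H 0) (slam F (o 1) ω) = frH F r q₀ (H 0) (slam F (o 1) ω') := by
      rw [W.frd.fr (hqA ω hω), W.frd.fr (hqA ω' hω'), k1]
    have k6 : nW c r (H 1 (slam F (o 1) ω)) (CL (slam F (o 1) ω)) =
        nW c r (H 1 (slam F (o 1) ω')) (CL (slam F (o 1) ω')) := by
      rw [hR ω (hqA ω hω), hR ω' (hqA ω' hω'), k2]
    have k7 : vL (slam F (o 1) ω) = vL (slam F (o 1) ω') := by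
      rw [← hvL ω (hqA ω hω), ← hvL ω' (hqA ω' hω'), k0]
    have k8 : cL c s r (o 1) Q (frH F r q₀ (H 0) (slam F (o 1) ω)) (slam F (o 1) ω) 0 =
        cL c s r (o 1) Q (frH F r q₀ (H 0) (slam F (o 1) ω')) (slam F (o 1) ω') 0 := by
      rw [hN] at hNN
      exact hNN
    show ctF F c s r (o 1) q₀ Q qe (H 0) (fun L => nW c r (H 1 L) (CL L)) vL (slam F (o 1) ω) =
      ctF F c s r (o 1) q₀ Q qe (H 0) (fun L => nW c r (H 1 L) (CL L)) vL (slam F (o 1) ω')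
    unfold ctF
    beta_reduce
    rw [k7, k6, k4, hE, k8, k5])
  refine h1.trans ?_
  have h2 := CH_le_vec hq.nonneg hq.sum_one N (fun ω =>
      (eL c s r (o 1) qe (frH F r q₀ (H 0) (slam F (o 1) ω)) (slam F (o 1) ω),
        kaF F c s r (o 1) Q v (G 0) (fun y => nW c r (G 1 y) (Cp y)) ω)) (fun _ => 6) (by
    intro ω ω' hω hω' h i
    simp only [Prod.mk.injEq] at h
    obtain ⟨hE, hk⟩ := h
    have k3 : F.T ω = F.T ω' := congrArg (fun y => y.2.1) hk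
    have k4 : crF F c s r (o 1) Q (G 0) ω = crF F c s r (o 1) Q (G 0) ω' :=
      congrArg (fun y => y.2.2) hk
    have k5 := rt_congr F h1J k3
    have hb : (2 : ℝ) ^ (C₁ * (2 * x + 2 + 1)) / 2 ^ MB ≤ 1 := by
      rw [div_le_one (by positivity)]
      exact pow_le_pow_right₀ (by norm_num) hMB
    have e1 := abs_le.1 (((htu W.frd ω (hqA ω hω) i).2).trans hb)
    have e2 := abs_le.1 (((htu W.frd ω' (hqA ω' hω') i).2).trans hb)
    have hs1 : |scF F c s r (o 1) q₀ Q qe (G 0) (H 0) ω i| ≤ 1 := by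
      unfold scF
      exact sC_le _ _ _ _ _ _ _
    have hs2 : |scF F c s r (o 1) q₀ Q qe (G 0) (H 0) ω' i| ≤ 1 := by
      unfold scF
      exact sC_le _ _ _ _ _ _ _
    rw [← hE, ← k4, ← k5] at e2
    have a1 := abs_le.1 hs1
    have a2 := abs_le.1 hs2
    rw [hN]
    push_cast
    rw [abs_le]
    constructor <;> linarith [e1.1, e1.2, e2.1, e2.2, a1.1, a1.2, a2.1, a2.2])
  refine h2.trans (le_of_eq ?_)
  rw [Ex_const hq.sum_one]
  norm_num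

/-- **`TL` from `NwDU`, `TlO` and the spanning field.** -/
theorem nu_tl (D r CT K D' CM : ℕ) (hr : 1 ≤ r) (hK : 1 ≤ K)
    (hDK : (D + 1) * (D + 1) * ((D + 1) * (D + 1) + 1) ^ r ≤ K) (hD' : (D + 1) ^ (r + 4) ≤ D') :
    ∃ C : ℕ, ∀ {m J : ℕ} {F : Fam m J} {c : ℕ → Fin m}
    {n M ar MB q₀ Q x p e su : ℕ} {s : ℕ → ℕ} {qe : Fin r → ℕ} {o : ℕ → ℕ}
    {z g gc gT g₀ : ℕ → ℕ → ℕ} {A : F.Ω → Prop}
    {G T : ℕ → PtT F → ℕ → MvPolynomial (Option (Fin m)) ℝ}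
    {H TH : ℕ → LnT F → ℕ → MvPolynomial (Option (Fin m)) ℝ}
    {Ht CL : LnT F → MvPolynomial (Option (Fin m)) ℝ}
    {Cp : PtT F → MvPolynomial (Option (Fin m)) ℝ} {V V' : Type} {v : F.Ω → V} {v' : F.Ω → V'}
    {vL : LnT F → V} {k : ℕ} {δ : ℝ} {q : F.Ω → ℝ},
    NwDU F c r D n M ar MB q₀ Q x p e su s qe o z g gc gT g₀ A G T H TH Ht CL Cp →
    ClU F c s r D CT MB Q x o A G Cp → IsLaw q → (∀ ω, 0 < q ω → A ω) → 0 ≤ δ → (C : ℝ) * (x + 1) ≤ δ * Q → MB ≤ CM * Q →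
    MB ≤ k → o 1 + Q ≤ J →
    TlO F q c s r (o 0) (o 1) Q k qe v vL v' (G 0) (fun y => nW c r (G 1 y) (Cp y))
      (fun y => nW c r (G 2 y) (Cp y)) (H 0) (fun L => nW c r (H 1 L) (CL L)) (δ * Q) →
    NoHyp q (fun ω => Xe r qe (eL c s r (o 1) qe (frH F r q₀ (H 0) (slam F (o 1) ω))
      (slam F (o 1) ω))) (kzF F c s r (o 1) Q v v' (G 0) (fun y => nW c r (G 1 y) (Cp y))
        (fun y => nW c r (G 2 y) (Cp y))) (2 ^ (-(δ * Q))) δ →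
    ∃ Θ : LnT F → Fin r → Polynomial ℝ, TL K r D' CM Q MB k (2 ^ (J - o 1)) δ q (slam F (o 1)) (twF F (o 1))
      (kzF F c s r (o 1) Q v v' (G 0) (fun y => nW c r (G 1 y) (Cp y))
        (fun y => nW c r (G 2 y) (Cp y)))
      (kaF F c s r (o 1) Q v (G 0) (fun y => nW c r (G 1 y) (Cp y)))
      (fun ω => eL c s r (o 1) qe (frH F r q₀ (H 0) (slam F (o 1) ω)) (slam F (o 1) ω))
      (Xe r qe) (Pfz c s r Q J ((D + 1) * (D + 1))) (Pgz c s r (o 1) Q J ((D + 1) * (D + 1)))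
      (ctF F c s r (o 1) q₀ Q qe (H 0) (fun L => nW c r (H 1 L) (CL L)) vL)
      (scF F c s r (o 1) q₀ Q qe (G 0) (H 0))
      (fun L => xL c s r (o 1) Q (frH F r q₀ (H 0) L) L)
      (nT F s r (o 1) (nwp F c r (o 1) CL) (fun L => nW c r (H 1 L) (CL L)))
      Θ := by
  obtain ⟨C, htl⟩ := nu_tld D r CT K hK hDK
  refine ⟨C, ?_⟩
  intro m J F c n M ar MB q₀ Q x p e su s qe o z g gc gT g₀ A G T H TH Ht CL Cp V V' v v' vL k δ q W
    WT hq hqA hδ hC hMB hk hJQ hO hnh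
  have hq0 : o 1 - o 0 = q₀ := by have := W.o1; omega
  have hfr := hO.fr
  have hT := hO.Tfull
  have haf := hO.afew
  have hfu := hO.full
  rw [hq0] at hfr haf hfu
  obtain ⟨Θ, htl⟩ := htl W WT
  refine ⟨Θ, (htl v v' vL D' hD').toTL hq hqA ?_ hδ hK hr W.QM hMB hk
    (Nat.pow_le_pow_right (by norm_num) (by omega)) hT hnh hfr haf hfu⟩
  rw [← Real.rpow_natCast]
  refine Real.rpow_le_rpow_of_exponent_le (by norm_num) ?_
  push_cast
  exact hC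

/-- **The labels of the tubes on one event**: entropy fields, spanning, dead velocity. -/
theorem nu_imc (D r CT K D' CM : ℕ) (hr : 1 ≤ r) (hK : 1 ≤ K)
    (hDK : (D + 1) * (D + 1) * ((D + 1) * (D + 1) + 1) ^ r ≤ K) (hD' : (D + 1) ^ (r + 4) ≤ D')
    {ε : ℝ} (hε : 0 < ε) :
    ∃ C₁ : ℕ, ∃ δ : ℝ, 0 < δ ∧ δ ≤ ε ∧ δ ≤ 1 ∧ ∃ Q₀ : ℕ, ∀ {m J : ℕ} {F : Fam m J} {c : ℕ → Fin m}
    {n M ar MB q₀ Q x p e su : ℕ} {s : ℕ → ℕ} {qe : Fin r → ℕ} {o : ℕ → ℕ}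
    {z g gc gT g₀ : ℕ → ℕ → ℕ} {A : F.Ω → Prop}
    {G T : ℕ → PtT F → ℕ → MvPolynomial (Option (Fin m)) ℝ}
    {H TH : ℕ → LnT F → ℕ → MvPolynomial (Option (Fin m)) ℝ}
    {Ht CL : LnT F → MvPolynomial (Option (Fin m)) ℝ}
    {Cp : PtT F → MvPolynomial (Option (Fin m)) ℝ}
    {V V' : Type} {v : F.Ω → V} {v' : F.Ω → V'} {vL : LnT F → V} {k : ℕ} {q : F.Ω → ℝ},
    NwDU F c r D n M ar MB q₀ Q x p e su s qe o z g gc gT g₀ A G T H TH Ht CL Cp →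
    ClU F c s r D CT MB Q x o A G Cp → Q₀ ≤ Q →
    IsLaw q → (∀ ω, 0 < q ω → A ω) →
    (C₁ : ℝ) * (x + 1) ≤ δ * Q → MB ≤ CM * Q → MB ≤ k → o 1 + Q ≤ J →
    (∀ ω, A ω → v ω = vL (slam F (o 1) ω)) →
    TlO F q c s r (o 0) (o 1) Q k qe v vL v' (G 0) (fun y => nW c r (G 1 y) (Cp y))
      (fun y => nW c r (G 2 y) (Cp y)) (H 0) (fun L => nW c r (H 1 L) (CL L)) (δ * Q) →
    NoHyp q (fun ω => Xe r qe (eL c s r (o 1) qe (frH F r q₀ (H 0) (slam F (o 1) ω))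
      (slam F (o 1) ω))) (kzF F c s r (o 1) Q v v' (G 0) (fun y => nW c r (G 1 y) (Cp y))
        (fun y => nW c r (G 2 y) (Cp y))) (2 ^ (-(δ * Q))) δ →
    VelF Q MB k (2 ^ (J - o 1)) δ q (slam F (o 1)) (twF F (o 1))
      (kaF F c s r (o 1) Q v (G 0) (fun y => nW c r (G 1 y) (Cp y)))
      (fun ω => eL c s r (o 1) qe (frH F r q₀ (H 0) (slam F (o 1) ω)) (slam F (o 1) ω))
      (ctF F c s r (o 1) q₀ Q qe (H 0) (fun L => nW c r (H 1 L) (CL L)) vL)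
      (fun L => xL c s r (o 1) Q (frH F r q₀ (H 0) L) L)
      (nT F s r (o 1) (nwp F c r (o 1) CL) (fun L => nW c r (H 1 L) (CL L))) →
    ∃ Pt : LnT F → Gr K r → Polynomial ℝ,
      ImC K r D' Q MB (2 ^ (J - o 1)) ε q (slam F (o 1)) (twF F (o 1))
        (kzF F c s r (o 1) Q v v' (G 0) (fun y => nW c r (G 1 y) (Cp y))
          (fun y => nW c r (G 2 y) (Cp y)))
        (Pfz c s r Q J ((D + 1) * (D + 1))) (scF F c s r (o 1) q₀ Q qe (G 0) (H 0))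
        (fun L => xL c s r (o 1) Q (frH F r q₀ (H 0) L) L)
        (nT F s r (o 1) (nwp F c r (o 1) CL) (fun L => nW c r (H 1 L) (CL L))) Pt := by
  obtain ⟨δ₂, δ₂0, δ₂₁, Q₂, hvel⟩ := vel_end K r D' CM hε
  obtain ⟨C₂, htl⟩ := nu_tl D r CT K D' CM hr hK hDK hD'
  obtain ⟨C₃, hcf⟩ := nu_cfew D r
  obtain ⟨Q₃, hQ₃⟩ := exists_nat_ge (r * Real.log 13 / δ₂)
  refine ⟨C₂ + C₃, min δ₂ 1, lt_min δ₂0 one_pos, (min_le_left _ _).trans δ₂₁, min_le_right _ _,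
    max Q₂ Q₃, ?_⟩
  intro m J F c n M ar MB q₀ Q x p e su s qe o z g gc gT g₀ A G T H TH Ht CL Cp V V' v v' vL k q W
    WT hQ hql hqA hC hMB hk hJQ hvL hO hnh hv
  have hQ0 : (0 : ℝ) ≤ Q := Nat.cast_nonneg Q
  have q2 : Q₂ ≤ Q := (le_max_left _ _).trans hQ
  have q3 : Q₃ ≤ Q := (le_max_right _ _).trans hQ
  have hδ2 : min δ₂ 1 * Q ≤ δ₂ * Q := mul_le_mul_of_nonneg_right (min_le_left _ _) hQ0
  have hδQ : min δ₂ 1 * (Q : ℝ) ≤ Q := by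
    have := mul_le_mul_of_nonneg_right (min_le_right δ₂ 1) hQ0
    linarith
  have hN : (0 : ℝ) ≤ (x : ℝ) + 1 := by positivity
  have hCN : ∀ {k : ℕ}, k ≤ C₂ + C₃ → (k : ℝ) * ((x : ℝ) + 1) ≤ min δ₂ 1 * Q := by
    intro k hk
    have h3 : (k : ℝ) ≤ ((C₂ + C₃ : ℕ) : ℝ) := by exact_mod_cast hk
    exact (mul_le_mul_of_nonneg_right h3 hN).trans hC
  have hMBC : C₃ * (x + 1) ≤ MB := by
    have h3 : ((C₃ * (x + 1) : ℕ) : ℝ) ≤ Q := by
      push_cast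
      exact (hCN (k := C₃) (by omega)).trans hδQ
    exact (by exact_mod_cast h3 : C₃ * (x + 1) ≤ Q).trans W.QM
  obtain ⟨Θ, ht⟩ := htl W WT hql hqA (lt_min δ₂0 one_pos).le (hCN (k := C₂) (by omega)) hMB hk hJQ
    hO hnh
  have hcfew := (hcf W hMBC hvL hql hqA).trans (show (r : ℝ) * Real.log 13 ≤ δ₂ * Q by
    rw [div_le_iff₀ δ₂0] at hQ₃
    have h3 : (Q₃ : ℝ) ≤ Q := by exact_mod_cast q3
    nlinarith)
  exact hvel q2 (ht.mono (min_le_left _ _)) hcfew (le_trans hv hδ2)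

end Pool.V1E
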