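import Pool.Agent.H73.D2.Tnn

/-!
# Closed labels of `N` which are closed at an earlier window

`HnB`: for the windows `WG` at the level `r + 1` and a polynomial `P` with the property `Ξ`, a
polynomial of the coordinates before `N = c (r + 1)`, closed at the window `o 0`, whose derivative in
the direction `u = c r` is near that of `P`, and whose derivatives in the natural directions of the deep
window are near those of the chart of `N` of the deep window.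
-/

set_option autoImplicit false

namespace Pool.V1E

open Finset Real MvPolynomial
open Pool.Agent.H49.Ent Pool.Agent.H32.Dense Pool.STK Pool.KA Pool.KSAT Pool.K2S Pool.PB Pool.S6C
open Pool.GEN Pool.CHT Pool.CHX Pool.ISO Pool.D2R Pool.D2G30 Pool.END18 Pool.D2Con
open Pool.LBT (ThrOf)
open Pool.LEV (Law)

variable {m : ℕ}

/-- **Closed labels of `N`** for a family of polynomials `P` with the property `Ξ`, in a class, on a part
of mass at least `1 / K₄` of each event with the windows `WG`. -/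
def HnB (S : PCl m) (c : ℕ → Fin m) (r D Du Dr N N₂ : ℕ) (R : ℕ → Prop)
    (C a Eb ε₀ η₀ χ mb : ℝ) (Pt : ℝ → ℝ → ℝ) (o : ℕ → ℝ) (lv be : ℕ → ℕ → ℝ) (κ K₄ : ℝ)
    (Ξ : XiN m) : Prop :=
  Bas S (fun J F B => ∀ (b : ℕ → ℕ → ℝ) (z : ℕ → ℕ → ℕ) (gc gT g₀ : ℕ → ℕ → ℕ)
    (G : ℕ → PtT F → ℕ → MvPolynomial (Option (Fin m)) ℝ)
    (H : ℕ → LnT F → ℕ → MvPolynomial (Option (Fin m)) ℝ)
    (T : ℕ → PtT F → ℕ → MvPolynomial (Option (Fin m)) ℝ)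
    (TH : ℕ → LnT F → ℕ → MvPolynomial (Option (Fin m)) ℝ)
    (Gt : ℕ → PtT F → MvPolynomial (Option (Fin m)) ℝ)
    (Ht : ℕ → LnT F → MvPolynomial (Option (Fin m)) ℝ)
    (CL : LnT F → MvPolynomial (Option (Fin m)) ℝ)
    (Cp : PtT F → MvPolynomial (Option (Fin m)) ℝ),
    WG c (r + 1) D Dr N N₂ R C a Eb ε₀ η₀ Pt o lv be F b κ z B gc gT g₀ G H T TH Gt Ht →
    Ξ J F B g₀ G H Ht CL Cp →
    ∃ (B₂ : F.Ω → Prop) (TN : LnT F → MvPolynomial (Option (Fin m)) ℝ), Sub B₂ B ∧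
      Pe F.p B ≤ K₄ * Pe F.p B₂ ∧ (∀ L, (TN L).totalDegree ≤ Du) ∧
      (∀ L, DepC c (r + 1) (TN L)) ∧
      (∀ ω, B₂ ω → |eval (bt F ω) (pderiv (some (c r)) (TN (slam F ⌊o 0 * J⌋₊ ω))) -
        eval (bt F ω) (pderiv (some (c r)) (Cp (ptr F J ω)))| ≤
        2 ^ (⌊lv 0 r * J⌋₊ + ⌊χ * J⌋₊) /
          2 ^ (⌊lv 0 (r + 1) * J⌋₊ + (⌊mb * J⌋₊ - (⌊o 3 * J⌋₊ - ⌊o 0 * J⌋₊)))) ∧
      ∀ ω, B₂ ω → ∀ V : Option (Fin m) → ℝ, V none = 0 →
        (∀ j < r, |V (some (c j)) - dd (G 2 (ptr F J ω) j) (bt F ω) V| ≤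
          1 / 2 ^ ⌊lv 0 j * J⌋₊) →
        ∀ v : ℝ, v = dd (TH 1 (slam F ⌊o 1 * J⌋₊ ω) r) (bt F ω) V →
        |dd (TN (slam F ⌊o 0 * J⌋₊ ω)) (bt F ω) (up (c r) V v) -
          dd (Hno (c (r + 1)) (fun s => H 1 s (r + 1)) (slam F ⌊o 1 * J⌋₊ ω)) (bt F ω)
            (up (c r) V v)| ≤
          2 ^ ⌊χ * J⌋₊ /
            2 ^ (⌊lv 0 (r + 1) * J⌋₊ + (⌊mb * J⌋₊ - (⌊o 3 * J⌋₊ - ⌊o 0 * J⌋₊))))

end Pool.V1E
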