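import Pool.Agent.H99.D2.Und
import Pool.Agent.H73.D2.Tml

/-!
# The closed slope by scaling and the slope of the row label, on one event

`blr_unc`: as `blx_unc` of helper99; the windows `WG` and the closed label are on one event, and the derivative
of the closed label in the direction `u = c r` is the one of the row label of the early window, with the gain of
the scaling. `blr_rec`: at the windows of a record.
-/

set_option autoImplicit false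

namespace Pool.CR99

open Finset Real MvPolynomial
open Pool.Agent.H49.Ent Pool.Agent.H32.Dense Pool.STK Pool.KA Pool.KSAT Pool.K2S Pool.PB Pool.S6C
open Pool.GEN Pool.CHT Pool.CHX Pool.ISO Pool.D2R Pool.D2G30 Pool.V1E Pool.PKG
open Pool.LBT (ThrOf)
open Pool.LEV (Law)
open Pool.FLF (Fam.sub)
open Pool.PB.Trl (rt rt_mem t_rt)
open Pool.GRD (LbP)

/-- **The closed slope by scaling, with the slope of the row label**, class form: the windows `WG` and the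
closed label on one event. -/
theorem blr_unc (m D r : ℕ) (hD1 : 1 ≤ D) : ∃ C₁ : ℕ, 1 ≤ C₁ ∧ ∀ {S : PCl m} {C₀ : ℝ}
    {c : ℕ → Fin m} {Dr N N₂ : ℕ} {R : ℕ → Prop} {C a Eb ε₀ η₀ : ℝ} {Pt : ℝ → ℝ → ℝ}
    {o : ℕ → ℝ} {lv be b : ℕ → ℕ → ℝ} {K₁ : ℝ}, TmC S C₀ → Set.InjOn c (Set.Iio (r + 2)) → R r →
    D ≤ Dr → 0 < K₁ → 0 < η₀ → 1 ≤ C → a ≤ 1 →
    WgS S c r D Dr N N₂ R C a Eb ε₀ η₀ Pt o lv be b K₁ →
    ∀ (n : ℕ) {i w : ℕ} {ζ M₁ P x₁ κ : ℝ} {x₀ : ℕ → ℝ}, 0 < κ → 0 ≤ ζ → 0 ≤ M₁ → 0 ≤ P →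
    i ≤ N → w ≤ N → o i ≤ o w → o w < 1 → (∀ k < n, k ≤ N ∧ o i ≤ o k) →
    (∀ k ≤ N, o i ≤ o k → lv k (r + 1) + (a - o k) ≤ Pt a (o i) + ζ) →
    (∀ k ≤ N, ζ + 4 * (C * η₀) ≤ lv k (r + 1)) → 0 ≤ lv i r →
    M₁ + C₁ * (ζ + C * η₀) ≤ o w - o i →
    M₁ + C₁ * (ζ + C * η₀) + (lv i (r + 1) + (a - o i)) ≤ Pt a (o i) →
    (∀ l ≤ r, R l → Eb + (lv i l + (a - o i)) + M₁ + C₁ * (ζ + C * η₀) ≤ 1) →
    (∀ l ≤ r, ¬ R l → Eb + be i l + M₁ + C₁ * (ζ + C * η₀) ≤ 1) →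
    (∀ k < n, lv k r - lv k (r + 1) + ζ + 7 * (C * η₀) ≤ x₀ k) →
    (∀ k < n, lv i r - lv i (r + 1) - M₁ + C * η₀ ≤ x₀ k) →
    P + ζ + 20 * (C * η₀) ≤ lv w (r + 1) →
    P + 20 * (C * η₀) ≤ lv w r + (lv i (r + 1) - lv i r) + M₁ →
    lv i r - lv i (r + 1) - M₁ + C * η₀ ≤ x₁ →
    Bas S (fun J F A => ∃ (B : F.Ω → Prop) (z gc gT g₀ : ℕ → ℕ → ℕ)
      (G : ℕ → PtT F → ℕ → MvPolynomial (Option (Fin m)) ℝ)
      (H : ℕ → LnT F → ℕ → MvPolynomial (Option (Fin m)) ℝ)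
      (T : ℕ → PtT F → ℕ → MvPolynomial (Option (Fin m)) ℝ)
      (TH : ℕ → LnT F → ℕ → MvPolynomial (Option (Fin m)) ℝ)
      (Gt : ℕ → PtT F → MvPolynomial (Option (Fin m)) ℝ)
      (Ht : ℕ → LnT F → MvPolynomial (Option (Fin m)) ℝ), Sub B A ∧
      Pe F.p A ≤ 16 * K₁ * Pe F.p B ∧
      WG c (r + 1) D Dr N N₂ R C a Eb ε₀ η₀ Pt o lv be F b κ z B gc gT g₀ G H T TH Gt Ht ∧
      ∃ (V : Type) (y : PtT F → V) (y' : LnT F → V) (Q : V → MvPolynomial (Option (Fin m)) ℝ)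
        (P' : ℕ), LbP F ((range (r + 1)).image c) (c (r + 1)) (bmd D) J ⌊o w * J⌋₊ P' B y y' Q ∧
        P * J ≤ P' ∧
        (∀ k < n, ∃ (V₁ : Type) (z₁ : PtT F → V₁) (z₁' : LnT F → V₁)
          (G₁ : V₁ → MvPolynomial (Option (Fin m)) ℝ) (P₁ : ℕ),
          LbP F ((range (r + 1)).image c) (c (r + 1)) D J ⌊o k * J⌋₊ P₁ B z₁ z₁' G₁ ∧
          (lv k (r + 1) - η₀) * J ≤ P₁ ∧
          ∀ ω, B ω → |eval (bt F ω) (pderiv (some (c r)) (G₁ (z₁' (slam F ⌊o k * J⌋₊ ω)) -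
            Q (y' (slam F ⌊o w * J⌋₊ ω))))| ≤ 2 ^ (x₀ k * J)) ∧
        ∀ ω, B ω → |eval (bt F ω) (pderiv (some (c r)) (Ht i (slam F ⌊o i * J⌋₊ ω))) -
          eval (bt F ω) (pderiv (some (c r)) (Q (y' (slam F ⌊o w * J⌋₊ ω))))| ≤
          2 ^ (x₁ * J)) := by
  classical
  obtain ⟨C₁, hC₁, hev⟩ := unc_ev m D r
  refine ⟨C₁, hC₁, ?_⟩
  intro S C₀ c Dr N N₂ R C a Eb ε₀ η₀ Pt o lv be b K₁ htm hc hR hDr hK₁ hη hC ha1 hW n i w ζ M₁ P
    x₁ κ x₀ hκ hζ hM₁ hP hi hw hiw hw1 hn hrow hpos hl0 hm1 hm2 hs1 hs2 hx1 hx2 hP1 hP2 hx3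
  obtain ⟨κ₀, hκ₀⟩ : ∃ κ₀ : ℝ, κ₀ = min (1 / 8) (κ / 16) := ⟨_, rfl⟩
  have hκ0 : 0 < κ₀ := by rw [hκ₀]; exact lt_min (by norm_num) (by linarith)
  have hκ1 : κ₀ ≤ 1 / 8 := by rw [hκ₀]; exact min_le_left _ _
  have hκ2 : κ₀ ≤ κ * (1 / 16) := by
    rw [hκ₀]
    exact (min_le_right _ _).trans (le_of_eq (by ring))
  have hl2 : 0 < Real.log 2 := Real.log_pos one_lt_two
  have h2 : (0 : ℝ) < 2 := by norm_num
  have c1 : (1 : ℝ) ≤ C₁ := by exact_mod_cast hC₁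
  have hc1 : Set.InjOn c (Set.Iio (r + 1)) := hc.mono fun y hy => by
    rw [Set.mem_Iio] at hy ⊢
    omega
  have hCη : 0 < C * η₀ := mul_pos (by linarith) hη
  obtain ⟨ψ, hψ, J₁, hJ₁⟩ := tm_num hC₁ hη hw1
  obtain ⟨J₂, hJ₂⟩ := exists_nat_ge (((C₁ : ℝ) + 10) / (C * η₀))
  refine Bas.mono (max J₁ J₂) (Bas.and (hW κ₀ hκ0)
    (Pool.GRW.bas_part (Pool.GRW.tms_bas htm hψ) (show (0 : ℝ) < 2 * K₁ by linarith))) ?_
  rintro J hJ F A ⟨⟨B, z, gc, gT, g₀, G, H, T, TH, Gt, Ht, b1, b2, W⟩, htB⟩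
  have hJ0 : (0 : ℝ) ≤ J := Nat.cast_nonneg J
  obtain ⟨t1, t2⟩ := hJ₁ J ((le_max_left _ _).trans hJ)
  have j2 : (C₁ : ℝ) + 10 ≤ C * (η₀ * J) := by
    have e1 : (J₂ : ℝ) ≤ J := by exact_mod_cast (le_max_right _ _).trans hJ
    have e2 := hJ₂.trans e1
    rw [div_le_iff₀ hCη] at e2
    linarith
  have hB : 0 < Pe F.p B := (htB B b1 (b2.trans (mul_le_mul_of_nonneg_right (by linarith)
    (Pe_nonneg F.isLaw B)))).1
  obtain ⟨X, hX⟩ : ∃ X : ℝ, X = C * (η₀ * J) := ⟨_, rfl⟩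
  obtain ⟨Zt, hZt⟩ : ∃ Z : ℝ, Z = ζ * J := ⟨_, rfl⟩
  have hηJ : 0 ≤ η₀ * J := mul_nonneg hη.le hJ0
  have hηX : η₀ * J ≤ X := by rw [hX]; exact le_mul_of_one_le_left hηJ hC
  have hX0 : 0 ≤ X := hηJ.trans hηX
  have hZ0 : 0 ≤ Zt := by rw [hZt]; exact mul_nonneg hζ hJ0
  rw [← hX] at j2
  have hokJ : ∀ k ≤ N, ⌊o k * J⌋₊ ≤ J := fun k hk => by
    obtain ⟨q1, q2⟩ := W.win.ho k hk
    refine Nat.floor_le_of_le ?_
    have := mul_le_mul_of_nonneg_right (q2.trans ha1) hJ0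
    linarith
  have hwJ := hokJ w hw
  have hiw' : ⌊o i * J⌋₊ ≤ ⌊o w * J⌋₊ :=
    Nat.floor_le_floor (mul_le_mul_of_nonneg_right hiw hJ0)
  obtain ⟨how0, -⟩ := W.win.ho w hw
  have f0 : (⌊o w * J⌋₊ : ℝ) ≤ o w * J := Nat.floor_le (mul_nonneg how0 hJ0)
  have hJX : (1 : ℝ) ≤ C * (η₀ * J) := by rw [← hX]; linarith
  have hlv1 : 0 ≤ lv i (r + 1) := by
    have := hpos i hi
    linarith
  obtain ⟨B', κL, κG, k1, k2, hclo, hown⟩ := hev W hc hR hη.le (i := i) (w := w) (ζ := ζ)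
    (M₁ := M₁) (θ := ψ * J) hB (fun _ h => h) (fun E hE hEB hPE =>
      (htB E (fun ω hω => b1 ω (hEB ω hω)) (by
        have := mul_le_mul_of_nonneg_left hPE (show (0 : ℝ) ≤ 2 * K₁ by linarith)
        linarith)).2) (mul_nonneg hψ.le hJ0) hζ hM₁ hi hw hiw hwJ t1 (t2.trans (by
      have e2 : (⌊o w * J⌋₊ : ℝ) * Real.log 2 ≤ o w * J * Real.log 2 :=
        mul_le_mul_of_nonneg_right f0 hl2.le
      linarith)) (by rw [← hX]; linarith) hl0 hlv1 (hpos i hi) hm1 hm2 hs1 hs2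
  have hbi := W.win.evs i hi
  have hbw := W.win.evs w hw
  -- the numbers
  obtain ⟨su, hsu⟩ : ∃ su, su = ⌊lv i r * J⌋₊ := ⟨_, rfl⟩
  obtain ⟨sn, hsn⟩ : ∃ sn, sn = ⌊lv i (r + 1) * J⌋₊ := ⟨_, rfl⟩
  rw [← hsu, ← hsn] at hown
  have su1 : (su : ℝ) ≤ lv i r * J := by rw [hsu]; exact Nat.floor_le (mul_nonneg hl0 hJ0)
  have sn2 : lv i (r + 1) * J < sn + 1 := by rw [hsn]; exact Nat.lt_floor_add_one _
  obtain ⟨M, hM⟩ : ∃ M, M = ⌊M₁ * J⌋₊ := ⟨_, rfl⟩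
  have M2 : M₁ * J < M + 1 := by rw [hM]; exact Nat.lt_floor_add_one _
  rw [← hM] at hown
  have hηf : (⌊η₀ * J⌋₊ : ℝ) ≤ η₀ * J := Nat.floor_le hηJ
  -- the closed polynomial
  obtain ⟨ML, hML⟩ : ∃ ML : LnT F → MvPolynomial (Option (Fin m)) ℝ, ML = fun s =>
      H i (co (⌊o w * J⌋₊ - ⌊o i * J⌋₊) s) (r + 1) + mu1 c r (2 ^ su / 2 ^ sn * κL s) := ⟨_, rfl⟩
  obtain ⟨Mp, hMp⟩ : ∃ Mp : PtT F → MvPolynomial (Option (Fin m)) ℝ, Mp = fun y =>
      G i y (r + 1) + mu1 c r (2 ^ su / 2 ^ sn * κG y) := ⟨_, rfl⟩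
  have dML : ∀ s, (ML s).totalDegree ≤ D := fun s => by
    rw [hML]
    exact (totalDegree_add _ _).trans (max_le (hbi.ball.degH _ _) ((deg_mu1 c r _).trans hD1))
  have dMp : ∀ y, (Mp y).totalDegree ≤ D := fun y => by
    rw [hMp]
    exact (totalDegree_add _ _).trans (max_le (hbi.ball.degG _ _) ((deg_mu1 c r _).trans hD1))
  have pML : ∀ s, DepC c (r + 1) (ML s) := fun s b b' h4 h5 => by
    rw [hML]
    beta_reduce
    rw [map_add, map_add, hbi.ball.depH _ _ b b' h4 h5, dep_mu1 c r _ b b' h4 h5]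
  have pMp : ∀ y, DepC c (r + 1) (Mp y) := fun y b b' h4 h5 => by
    rw [hMp]
    beta_reduce
    rw [map_add, map_add, hbi.ball.depG _ _ b b' h4 h5, dep_mu1 c r _ b b' h4 h5]
  have hMclo : ∀ ω, B' ω → Mp (ptr F J ω) = ML (slam F ⌊o w * J⌋₊ ω) := fun ω hω => by
    rw [hML, hMp]
    beta_reduce
    rw [co_slam F hiw' hwJ, hclo ω hω, hbi.cls ω (k1 ω hω) (r + 1) (by omega)]
  have hMe : ∀ ω, B' ω → eval (bt F ω) (pderiv (some (c r)) (ML (slam F ⌊o w * J⌋₊ ω))) =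
      eval (bt F ω) (pderiv (some (c r)) (H i (slam F ⌊o i * J⌋₊ ω) (r + 1))) +
        2 ^ su / 2 ^ sn * κL (slam F ⌊o w * J⌋₊ ω) := fun ω hω => by
    rw [hML]
    beta_reduce
    rw [map_add, map_add, pd_mu1, co_slam F hiw' hwJ]
  have hnear : ∀ k ≤ N, o i ≤ o k → ∀ ω, B' ω →
      |eval (bt F ω) (pderiv (some (c r)) (H k (slam F ⌊o k * J⌋₊ ω) (r + 1))) -
        eval (bt F ω) (pderiv (some (c r)) (ML (slam F ⌊o w * J⌋₊ ω)))| ≤
        (2 : ℝ) ^ ((lv k r - lv k (r + 1) + ζ + 6 * (C * η₀)) * J) +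
        2 ^ su / 2 ^ sn * (2 / 2 ^ M) := by
    intro k hk hok ω hω
    have h3 := wg_near W hc1 hR hi hk hok (hokJ k hk) hζ hη.le hJX (hrow k hk hok) (hpos k hk) ω
      (k1 ω hω)
    have h4 := hown ω hω
    rw [hMe ω hω]
    rw [abs_le] at h3 h4 ⊢
    constructor <;> linarith [h3.1, h3.2, h4.1, h4.2]
  have hUM : (2 : ℝ) ^ su / 2 ^ sn * (2 / 2 ^ M) = (2 : ℝ) ^ ((su : ℝ) - sn + (1 - (M : ℝ))) := by
    rw [Real.rpow_add h2, Real.rpow_sub h2, Real.rpow_sub h2, Real.rpow_natCast,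
      Real.rpow_natCast, Real.rpow_natCast, Real.rpow_one]
  -- the box
  obtain ⟨K, hK⟩ : ∃ K : ℝ, K = (2 : ℝ) ^ ((lv w r - lv w (r + 1) + ζ + 6 * (C * η₀)) * J) +
        2 ^ su / 2 ^ sn * (2 / 2 ^ M) := ⟨_, rfl⟩
  have hK0 : 0 < K := by rw [hK]; positivity
  obtain ⟨B₂, d1, d2, d3⟩ := pol_box (K := K) hDr (fun y l => hbw.ball.degG y l)
    (fun s l => hbw.ball.degH s l) (fun y l => hbw.ball.depG y l) (fun s l => hbw.ball.depH s l)
    hbw.cls hbw.relb dML dMp pML pMp k1 (by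
      have := mul_le_mul_of_nonneg_right hκ1 hB.le
      linarith) hMclo (fun ω hω => by
      rw [hK]
      exact hnear w hw hiw ω hω) hK0
  have hB₂B : Sub B₂ B := fun ω hω => k1 ω (d1 ω hω)
  obtain ⟨-, -, a1, a2, -, -⟩ := W.win.g_num hw (l := r) (by omega)
  obtain ⟨-, -, a3, a4, -, -⟩ := W.win.g_num hw (l := r + 1) le_rfl
  have hPJ : 0 ≤ P * J := mul_nonneg hP hJ0
  have p2 : ((⌈P * J⌉₊ : ℕ) : ℝ) < P * J + 1 := Nat.ceil_lt_add_one hPJ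
  have hP1J : P * J + Zt + 20 * X ≤ lv w (r + 1) * J := by
    have := mul_le_mul_of_nonneg_right hP1 hJ0
    refine le_trans (le_of_eq ?_) this
    rw [hX, hZt]
    ring
  have hP2J : P * J + 20 * X ≤ lv w r * J + (lv i (r + 1) * J - lv i r * J) + M₁ * J := by
    have := mul_le_mul_of_nonneg_right hP2 hJ0
    calc P * J + 20 * X = (P + 20 * (C * η₀)) * J := by rw [hX]; ring
      _ ≤ _ := this
      _ = _ := by ring
  obtain ⟨zz, zz', hl, hlC⟩ := bmg_lbp (F := F) (c := c) (r := r) (D := D) (P := ⌈P * J⌉₊)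
    (K₁ := 2 ^ ⌊η₀ * J⌋₊ * K) (hbw.ball.sub hB₂B) (fun ω hω => hbw.cls ω (hB₂B ω hω))
    dML dMp pML pMp (fun ω hω => hMclo ω (d1 ω hω)) d3 hc1 (by
      have e9 : (1 : ℝ) / 2 ^ ⌈P * J⌉₊ =
          (2 : ℝ) ^ (-(⌈P * J⌉₊ : ℝ) - 1) + ((2 : ℝ) ^ (-(⌈P * J⌉₊ : ℝ) - 2) +
            (2 : ℝ) ^ (-(⌈P * J⌉₊ : ℝ) - 2)) := by
        have e8 : (2 : ℝ) ^ (-(⌈P * J⌉₊ : ℝ) - 1) = 1 / 2 ^ ⌈P * J⌉₊ / 2 := by
          rw [Real.rpow_sub_one h2.ne', Real.rpow_neg h2.le, Real.rpow_natCast, one_div]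
        have e7 : (2 : ℝ) ^ (-(⌈P * J⌉₊ : ℝ) - 2) = 1 / 2 ^ ⌈P * J⌉₊ / 4 := by
          rw [show -(⌈P * J⌉₊ : ℝ) - 2 = -(⌈P * J⌉₊ : ℝ) - 1 - 1 by ring,
            Real.rpow_sub_one h2.ne', e8]
          ring
        rw [e8, e7]
        ring
      rw [e9]
      refine add_le_add ?_ ?_
      · have : (1 : ℝ) / 2 ^ g₀ w (r + 1) = (2 : ℝ) ^ (-(g₀ w (r + 1) : ℝ)) := by
          rw [Real.rpow_neg h2.le, Real.rpow_natCast, one_div]
        rw [this]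
        exact Real.rpow_le_rpow_of_exponent_le (by norm_num) (by linarith)
      · have e1 : (2 : ℝ) ^ ⌊η₀ * J⌋₊ * K * (1 / 2 ^ g₀ w r) =
            (2 : ℝ) ^ ((⌊η₀ * J⌋₊ : ℝ) +
              (lv w r - lv w (r + 1) + ζ + 6 * (C * η₀)) * J - g₀ w r) +
            (2 : ℝ) ^ ((⌊η₀ * J⌋₊ : ℝ) + ((su : ℝ) - sn + (1 - (M : ℝ))) - g₀ w r) := by
          rw [hK, hUM]
          obtain ⟨α, hα⟩ : ∃ α : ℝ, α = (lv w r - lv w (r + 1) + ζ + 6 * (C * η₀)) * J :=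
            ⟨_, rfl⟩
          obtain ⟨β, hβ⟩ : ∃ β : ℝ, β = (su : ℝ) - sn + (1 - (M : ℝ)) := ⟨_, rfl⟩
          rw [← hα, ← hβ, Real.rpow_sub h2, Real.rpow_sub h2, Real.rpow_add h2, Real.rpow_add h2,
            Real.rpow_natCast, Real.rpow_natCast]
          ring
        rw [e1]
        refine add_le_add (Real.rpow_le_rpow_of_exponent_le (by norm_num) ?_)
          (Real.rpow_le_rpow_of_exponent_le (by norm_num) ?_)
        · have e2 : (lv w r - lv w (r + 1) + ζ + 6 * (C * η₀)) * (J : ℝ) =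
              lv w r * J - lv w (r + 1) * J + Zt + 6 * X := by rw [hX, hZt]; ring
          rw [e2]
          linarith
        · linarith)
  have h16 : Pe F.p B ≤ 16 * Pe F.p B₂ := by linarith
  refine ⟨B₂, z, gc, gT, g₀, G, H, T, TH, Gt, Ht, fun ω hω => b1 ω (hB₂B ω hω), ?_,
    W.res (κ₁ := 1 / 16) hB₂B (by linarith) hκ.le hκ2, BmV m c r D, zz, zz', bmG, ⌈P * J⌉₊, hl,
    Nat.le_ceil _, fun k hk => ?_, fun ω hω => ?_⟩
  · have := mul_le_mul_of_nonneg_left h16 hK₁.le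
    linarith
  · obtain ⟨hkN, hok⟩ := hn k hk
    have hbk := W.win.evs k hkN
    obtain ⟨V₁, z₁, z₁', G₁, l1, l2⟩ := lbp_ball (hbk.ball.sub hB₂B)
      (fun ω hω => hbk.cls ω (hB₂B ω hω))
    refine ⟨V₁, z₁, z₁', G₁, g₀ k (r + 1), l1, ?_, fun ω hω => ?_⟩
    · obtain ⟨-, -, q1, -, -, -⟩ := W.win.g_num hkN (l := r + 1) le_rfl
      have e1 : (lv k (r + 1) - η₀) * (J : ℝ) = lv k (r + 1) * J - η₀ * J := by ring
      rw [e1]
      exact q1
    · rw [map_sub, map_sub, l2, bmg_dir hc1, hlC]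
      refine (hnear k hkN hok ω (d1 ω hω)).trans ?_
      have h6 : (2 : ℝ) ^ ((lv k r - lv k (r + 1) + ζ + 6 * (C * η₀)) * J) ≤
          (2 : ℝ) ^ (x₀ k * J - 1) := by
        refine Real.rpow_le_rpow_of_exponent_le (by norm_num) ?_
        have e1 := mul_le_mul_of_nonneg_right (hx1 k hk) hJ0
        have e2 : (lv k r - lv k (r + 1) + ζ + 7 * (C * η₀)) * (J : ℝ) =
            (lv k r - lv k (r + 1) + ζ + 6 * (C * η₀)) * J + X := by rw [hX]; ring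
        linarith
      have h7 : 2 ^ su / 2 ^ sn * (2 / 2 ^ M) ≤ (2 : ℝ) ^ (x₀ k * J - 1) := by
        rw [hUM]
        refine Real.rpow_le_rpow_of_exponent_le (by norm_num) ?_
        have e1 := mul_le_mul_of_nonneg_right (hx2 k hk) hJ0
        have e2 : (lv i r - lv i (r + 1) - M₁ + C * η₀) * (J : ℝ) =
            lv i r * J - lv i (r + 1) * J - M₁ * J + X := by rw [hX]; ring
        linarith
      have h8 : (2 : ℝ) ^ (x₀ k * J) = (2 : ℝ) ^ (x₀ k * J - 1) + (2 : ℝ) ^ (x₀ k * J - 1) := by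
        rw [← two_mul, Real.rpow_sub_one h2.ne']
        field_simp
      rw [h8]
      exact add_le_add h6 h7
  · rw [bmg_dir hc1, hlC, hMe ω (d1 ω hω), ← sub_sub]
    refine (hown ω (d1 ω hω)).trans ?_
    rw [hUM]
    refine Real.rpow_le_rpow_of_exponent_le (by norm_num) ?_
    have e1 := mul_le_mul_of_nonneg_right hx3 hJ0
    have e2 : (lv i r - lv i (r + 1) - M₁ + C * η₀) * (J : ℝ) =
        lv i r * J - lv i (r + 1) * J - M₁ * J + X := by rw [hX]; ring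
    linarith

/-- **The closed slope and the slope of the row label at the windows of a record**, by scaling. -/
theorem blr_rec (m r S₂ : ℕ) (hS₂ : 1 ≤ S₂) : ∃ D : ℕ, 1 ≤ D ∧ ∀ Dr : ℕ, D ≤ Dr →
    ∃ C : ℝ, 1 ≤ C ∧
    ∀ {α b ρ a Ve V₀ Vm μ : ℝ}, 0 < ρ → ρ ≤ 1 → Ve ≤ V₀ → V₀ ≤ Vm → Vm + 1 ≤ a →
    (b - 1) * (Vm - Ve) ≤ a - Ve → (b - α) * (Vm - Ve) ≤ μ → 0 ≤ μ → μ < V₀ - Ve →
    ∃ η₁ : ℝ, 0 < η₁ ∧ ∀ η : ℝ, 0 < η → η ≤ η₁ → ∃ ε₀ : ℝ, 0 < ε₀ ∧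
    ∀ {S : PCl m} {al : ℝ} {g₀ : ℝ → ℝ}
    {P : List (Fin m) × Fin m → ℝ → ℝ → ℝ} {ϑ : ℝ}
    {P₂ : ℕ → List (Fin m) × Fin m → ℝ → ℝ → ℝ} {θ₂ Eb e₂ : ℕ → ℝ} {c : ℕ → Fin m}
    {Pt : ℝ → ℝ → ℝ} {rr : ℝ → ℝ} {h K₀ g : ℝ} {L T : ℕ → ℝ → ℝ → ℝ} {Sl : ℕ → ℝ}
    {κ : ℕ → Kg} {G : Set ℝ} {S₀ N : ℕ} {A V : ℕ → ℝ} {N' : ℕ} {V' : ℕ → ℝ} {K ε q t : ℝ},
    RecG S al g₀ P ϑ P₂ θ₂ Eb e₂ c Pt rr h K₀ g L T Sl κ G S₀ N A V S₂ N' V' K ε q t →
    r + 1 < m → 0 ≤ ε → ε ≤ ε₀ → Sl r = α → Sl (r + 1) = b → κ r = .one ∨ κ r = .thin →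
    κ (r + 1) = .stp ∨ κ (r + 1) = .sta → -K + 1 ≤ Ve → a ≤ K → 1 ≤ K →
    ∀ {W : ℕ → ℝ} {n : ℕ}, W 0 = V₀ → W (n + 1) = Ve → (∀ k ≤ n + 1, Ve ≤ W k ∧ W k ≤ Vm) →
    (∀ k ≤ n + 1, ∃ j < N, A j = a ∧ V j = W k) →
    ∃ (K₁ : ℝ) (bb : ℕ → ℕ → ℝ), 0 < K₁ ∧ ∀ κ₁ : ℝ, 0 < κ₁ →
    Bas S (fun J F A => ∃ (B : F.Ω → Prop) (z gc gT g₀ : ℕ → ℕ → ℕ)
      (G : ℕ → PtT F → ℕ → MvPolynomial (Option (Fin m)) ℝ)
      (H : ℕ → LnT F → ℕ → MvPolynomial (Option (Fin m)) ℝ)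
      (T : ℕ → PtT F → ℕ → MvPolynomial (Option (Fin m)) ℝ)
      (TH : ℕ → LnT F → ℕ → MvPolynomial (Option (Fin m)) ℝ)
      (Gt : ℕ → PtT F → MvPolynomial (Option (Fin m)) ℝ)
      (Ht : ℕ → LnT F → MvPolynomial (Option (Fin m)) ℝ), Sub B A ∧
      Pe F.p A ≤ K₁ * Pe F.p B ∧
      WG c (r + 1) D Dr (n + 1) (n + 1) (fun l => κ l = .one ∨ κ l = .thin) C (t + a * q)
        (Eb (r + 1)) (3 * ε * q) (η * q) (L (r + 1)) (fun k => t + W k * q)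
        (fun k l => lvN P c (r + 1) (L (r + 1)) l (t + W k * q) (t + W k * q))
        (fun k l => bet P c l (t + a * q) (t + W k * q)) F bb κ₁ z B gc gT g₀ G H T TH Gt Ht ∧
      ∃ (V : Type) (y : PtT F → V) (y' : LnT F → V) (Q : V → MvPolynomial (Option (Fin m)) ℝ)
        (P' : ℕ), LbP F ((range (r + 1)).image c) (c (r + 1)) (bmd D) J ⌊(t + V₀ * q) * J⌋₊ P' B
          y y' Q ∧ (L (r + 1) (t + V₀ * q) (t + V₀ * q) - ρ * q) * J ≤ P' ∧
        (∀ k < n + 1, ∃ (V₁ : Type) (z₁ : PtT F → V₁) (z₁' : LnT F → V₁)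
          (G₁ : V₁ → MvPolynomial (Option (Fin m)) ℝ) (P₁ : ℕ),
          LbP F ((range (r + 1)).image c) (c (r + 1)) D J ⌊(t + W k * q) * J⌋₊ P₁ B z₁ z₁' G₁ ∧
          (L (r + 1) (t + W k * q) (t + W k * q) - ρ * q) * J ≤ P₁ ∧
          ∀ ω, B ω → |eval (bt F ω) (pderiv (some (c r)) (G₁ (z₁' (slam F ⌊(t + W k * q) * J⌋₊ ω)) -
            Q (y' (slam F ⌊(t + V₀ * q) * J⌋₊ ω))))| ≤
            2 ^ ((L r (t + W k * q) (t + W k * q) - L (r + 1) (t + W k * q) (t + W k * q) +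
              ρ * q) * J)) ∧
        ∀ ω, B ω → |eval (bt F ω) (pderiv (some (c r)) (Ht (n + 1)
            (slam F ⌊(t + Ve * q) * J⌋₊ ω))) -
          eval (bt F ω) (pderiv (some (c r)) (Q (y' (slam F ⌊(t + V₀ * q) * J⌋₊ ω))))| ≤
          2 ^ ((L r (t + Ve * q) (t + Ve * q) - L (r + 1) (t + Ve * q) (t + Ve * q) - μ * q +
            ρ * q) * J)) := by
  obtain ⟨D, hD, hw⟩ := wgs_rec m r S₂ hS₂
  obtain ⟨C₁, hC₁, hbx⟩ := blr_unc m D r hD
  refine ⟨D, hD, fun Dr hDr => ?_⟩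
  obtain ⟨C, hC, hw⟩ := hw Dr hDr
  refine ⟨C, hC, ?_⟩
  intro α b ρ a Ve V₀ Vm μ hρ hρ1 hVe0 hV0m hVma hrow hμ hμ0 hμ1
  have c1 : (1 : ℝ) ≤ C₁ := by exact_mod_cast hC₁
  obtain ⟨γ, hγ⟩ : ∃ γ : ℝ, γ = min ρ (V₀ - Ve - μ) := ⟨_, rfl⟩
  have hγ0 : 0 < γ := by
    rw [hγ]
    exact lt_min hρ (by linarith)
  have hγρ : γ ≤ ρ := by rw [hγ]; exact min_le_left _ _
  have hγg : γ ≤ V₀ - Ve - μ := by rw [hγ]; exact min_le_right _ _
  have hCp : 0 < C := by linarith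
  refine ⟨γ / (64 * C₁ * C), by positivity, fun η hη0 hη => ?_⟩
  have hη1 : 64 * C₁ * (C * η) ≤ γ := by
    rw [le_div_iff₀ (by positivity)] at hη
    linarith
  have hCη0 : 0 < C * η := by positivity
  have x1 : C * η ≤ C₁ * (C * η) := le_mul_of_one_le_left hCη0.le c1
  refine ⟨min (η / (6 * C)) (γ / (64 * C₁)), by positivity, ?_⟩
  intro S al g₀ P ϑ P₂ θ₂ Eb e₂ c Pt rr h K₀ g L T Sl κ G S₀ N A V N' V' K ε q t Rc hr hε hε₀ hα
    hb hκu hκN hKV haK hK1 W n hW'0 hW'2 hWb hWj' 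
  have hq := Rc.q0
  have ht0 := Rc.t0
  have ht1 := Rc.t1
  have Tg := Rc.tg (r + 1) (by omega) hr
  have hb2 : 2 ≤ b := by
    have hk := Rc.kd (r + 1) hr
    rcases hκN with h1 | h1
    · rw [h1, hb] at hk
      exact hk.1.le
    · rw [h1, hb] at hk
      exact hk.1
  have hε1 := hε₀.trans (min_le_left _ _)
  have hε2 := hε₀.trans (min_le_right _ _)
  rw [le_div_iff₀ (by positivity)] at hε1 hε2
  have hεC : 3 * C * ε < η := by
    have : 0 < η / 2 := by positivity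
    linarith
  have y1 : ε ≤ C₁ * ε := le_mul_of_one_le_left hε c1
  have hej := hWj' (n + 1) le_rfl
  rw [hW'2] at hej
  obtain ⟨K₁, bb, hK₁, hwg⟩ := hw Rc hr hε (a := a) (η := η) (W := W) (n := n + 1) hWj'
    (fun k hk => by
      obtain ⟨h1, h2⟩ := hWb k hk
      constructor <;> linarith) haK hη0 hεC (by linarith)
  have hlv : ∀ l ≤ r + 1, ∀ x y : ℝ, lvN P c (r + 1) (L (r + 1)) l x y = L l x y :=
    fun l hl x y => by rw [← Rc.lv_at hr hl]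
  -- products
  have hηq : 0 < η * q := by positivity
  have e0 : 0 < C * (η * q) := by positivity
  have q1 : 64 * (C₁ * (C * (η * q))) ≤ γ * q := by
    have := mul_le_mul_of_nonneg_right hη1 hq.le
    linarith
  have q4 : C * (η * q) ≤ C₁ * (C * (η * q)) := le_mul_of_one_le_left e0.le c1
  have q6 : 64 * (C₁ * (ε * q)) ≤ γ * q := by
    have := mul_le_mul_of_nonneg_right hε2 hq.le
    linarith
  have hεq : 0 ≤ ε * q := mul_nonneg hε hq.le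
  have q7 : ε * q ≤ C₁ * (ε * q) := le_mul_of_one_le_left hεq c1
  have hγq : 0 < γ * q := by positivity
  have hγρq : γ * q ≤ ρ * q := mul_le_mul_of_nonneg_right hγρ hq.le
  have hρq1 : ρ * q ≤ q := by
    have := mul_le_mul_of_nonneg_right hρ1 hq.le
    linarith
  have hKq : q ≤ K * q := by
    have := mul_le_mul_of_nonneg_right hK1 hq.le
    linarith
  have haKq : a * q ≤ K * q := mul_le_mul_of_nonneg_right haK hq.le
  have hVKq : -(K * q) + q ≤ Ve * q := by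
    have := mul_le_mul_of_nonneg_right hKV hq.le
    linarith
  have hWq : ∀ k ≤ n + 1, Ve * q ≤ W k * q ∧ W k * q ≤ Vm * q := fun k hk =>
    ⟨mul_le_mul_of_nonneg_right (hWb k hk).1 hq.le, mul_le_mul_of_nonneg_right (hWb k hk).2 hq.le⟩
  have hmaq : Vm * q + q ≤ a * q := by
    have := mul_le_mul_of_nonneg_right hVma hq.le
    linarith
  have h0mq : V₀ * q ≤ Vm * q := mul_le_mul_of_nonneg_right hV0m hq.le
  have he0q : Ve * q ≤ V₀ * q := mul_le_mul_of_nonneg_right hVe0 hq.le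
  have hμq0 : 0 ≤ μ * q := mul_nonneg hμ0 hq.le
  have hgq : μ * q + γ * q ≤ V₀ * q - Ve * q := by
    have := mul_le_mul_of_nonneg_right hγg hq.le
    linarith
  have hbx' : ∀ k ≤ n + 1, |t + W k * q - t| ≤ K * q := fun k hk => by
    obtain ⟨h1, h2⟩ := hWq k hk
    rw [abs_le]
    constructor <;> linarith
  have hlow : ∀ l ≤ r + 1, ∀ k ≤ n + 1, t + W k * q ≤ L l (t + W k * q) (t + W k * q) :=
    fun l hl k hk => by
    obtain ⟨h1, h2⟩ := hWq k hk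
    exact Rc.low_at (i := l) (by omega) (by linarith) le_rfl (by linarith)
  have hdN : ∀ k ≤ n + 1, |L (r + 1) (t + W k * q) (t + W k * q) - L (r + 1) t t -
      b * (W k * q)| ≤ ε * q := fun k hk => by
    have := Rc.dL (r + 1) hr _ (hbx' k hk)
    rw [hb] at this
    rwa [show t + W k * q - t = W k * q by ring] at this
  have hdU : ∀ k ≤ n + 1, |L r (t + W k * q) (t + W k * q) - L r t t -
      α * (W k * q)| ≤ ε * q := fun k hk => by
    have := Rc.dL r (by omega) _ (hbx' k hk)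
    rw [hα] at this
    rwa [show t + W k * q - t = W k * q by ring] at this
  have hVea : Ve ≤ a := by linarith
  have hrowW : ∀ y : ℝ, Ve ≤ y → y ≤ a → (b - 1) * (y - Ve) ≤ a - Ve →
      L (r + 1) (t + y * q) (t + y * q) + (t + a * q - (t + y * q)) ≤
        L (r + 1) (t + a * q) (t + Ve * q) + 4 * ε * q := by
    intro y hy1 hy2 hy3
    refine RecG.row_ge Rc hr hκN hε hej (by linarith) (by linarith) hVea hy2 haK ?_
    rw [hb]
    exact hy3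
  have hrow' : ∀ k ≤ n + 1, L (r + 1) (t + W k * q) (t + W k * q) +
      (t + a * q - (t + W k * q)) ≤ L (r + 1) (t + a * q) (t + Ve * q) + 4 * ε * q := by
    intro k hk
    obtain ⟨h1, h2⟩ := hWb k hk
    refine hrowW _ h1 (by linarith) ?_
    exact (mul_le_mul_of_nonneg_left (by linarith) (by linarith)).trans hrow
  have d0N := abs_le.1 (hdN 0 (by omega))
  have d0U := abs_le.1 (hdU 0 (by omega))
  have deN := abs_le.1 (hdN (n + 1) le_rfl)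
  have deU := abs_le.1 (hdU (n + 1) le_rfl)
  rw [hW'0] at d0N d0U
  rw [hW'2] at deN deU
  have hμV : ∀ y : ℝ, Ve ≤ y → y ≤ Vm → b * (y * q) - b * (Ve * q) - (α * (y * q) -
      α * (Ve * q)) ≤ μ * q := by
    intro y hy1 hy2
    have h1 : (b - α) * (y - Ve) ≤ μ := by
      rcases le_total α b with h2 | h2
      · exact (mul_le_mul_of_nonneg_left (by linarith) (by linarith)).trans hμ
      · have : (b - α) * (y - Ve) ≤ 0 :=
          mul_nonpos_of_nonpos_of_nonneg (by linarith) (by linarith)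
        linarith
    have h2 := mul_le_mul_of_nonneg_right h1 hq.le
    linarith
  have hinj : Set.InjOn c (Set.Iio (r + 2)) := Rc.inj.mono fun x hx => by
    rw [Set.mem_Iio] at hx ⊢
    omega
  -- the precision of the row
  have hprec : L (r + 1) (t + Ve * q) (t + Ve * q) + 2 * (a * q - Ve * q) ≤
      L (r + 1) (t + a * q) (t + Ve * q) + 6 * ε * q := by
    obtain ⟨y, hy⟩ : ∃ y : ℝ, y = Ve + (a - Ve) / (b - 1) := ⟨_, rfl⟩
    have hb1 : 0 < b - 1 := by linarith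
    have hy1 : (b - 1) * (y - Ve) = a - Ve := by
      rw [hy]
      field_simp
      ring
    have hy2 : Ve ≤ y := by
      rw [hy]
      have : 0 ≤ (a - Ve) / (b - 1) := div_nonneg (by linarith) hb1.le
      linarith
    have hy3 : y ≤ a := by
      have : y - Ve ≤ (b - 1) * (y - Ve) := le_mul_of_one_le_left (by linarith) (by linarith)
      linarith
    have h1 := hrowW y hy2 hy3 hy1.le
    have m1 : Ve * q ≤ y * q := mul_le_mul_of_nonneg_right hy2 hq.le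
    have m2 : y * q ≤ a * q := mul_le_mul_of_nonneg_right hy3 hq.le
    have h2 := Rc.dL (r + 1) hr (t + y * q) (by
      rw [abs_le]
      constructor <;> linarith)
    rw [hb, show t + y * q - t = y * q by ring] at h2
    have h3 := abs_le.1 h2
    have h4 : (b - 1) * (y - Ve) * q = b * (y * q) - b * (Ve * q) - (y * q - Ve * q) := by ring
    rw [hy1] at h4
    linarith [h3.1, h3.2, deN.1, deN.2]
  -- the room
  have hroom : ∀ l ≤ r, L l (t + a * q) (t + a * q) + Eb (r + 1) + 3 * K * q < 1 := fun l hl =>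
    Tg.room l (by omega) _ (by
      rw [abs_le]
      constructor <;> linarith)
  have hμ2 : μ * q ≤ 2 * (K * q) - 2 * q := by linarith
  obtain ⟨q8, hq8⟩ : ∃ y : ℝ, y = C₁ * (4 * ε * q + C * (η * q)) := ⟨_, rfl⟩
  have q9 : q8 = 4 * (C₁ * (ε * q)) + C₁ * (C * (η * q)) := by rw [hq8]; ring
  have q10 : 8 * q8 ≤ γ * q := by linarith
  have q11 : ε * q ≤ γ * q / 64 := by linarith
  refine ⟨16 * K₁, bb, by positivity, fun κ₁ hκ₁ => ?_⟩
  have hBX := hbx (S := S) (c := c) Rc.tmc hinj (R := fun l => κ l = .one ∨ κ l = .thin)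
    hκu hDr hK₁ hηq hC (by linarith) hwg (n + 1) (i := n + 1) (w := 0) (ζ := 4 * ε * q)
    (M₁ := μ * q) (P := L (r + 1) (t + V₀ * q) (t + V₀ * q) - ρ * q)
    (x₁ := L r (t + Ve * q) (t + Ve * q) - L (r + 1) (t + Ve * q) (t + Ve * q) - μ * q + ρ * q)
    (κ := κ₁)
    (x₀ := fun k => L r (t + W k * q) (t + W k * q) - L (r + 1) (t + W k * q) (t + W k * q) +
      ρ * q) hκ₁ (by positivity) hμq0 (by
      have := hlow (r + 1) le_rfl 0 (by omega)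
      rw [hW'0] at this
      linarith) le_rfl (by omega) (by simp only [hW'0, hW'2]; linarith)
    (by simp only [hW'0]; linarith) (fun k hk => ⟨by omega, by
      obtain ⟨h1, h2⟩ := hWq k hk.le
      simp only [hW'2]
      linarith⟩) (fun k hk _ => by
      simp only [hlv _ le_rfl, hW'2]
      exact hrow' k hk) (fun k hk => by
      simp only [hlv _ le_rfl]
      obtain ⟨h1, h2⟩ := hWq k hk
      have := hlow (r + 1) le_rfl k hk
      linarith) (by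
      simp only [hlv r (by omega)]
      have := hlow r (by omega) (n + 1) le_rfl
      rw [hW'2] at this ⊢
      linarith) (by
      simp only [hW'0, hW'2]
      rw [← hq8]
      linarith) (by
      simp only [hlv _ le_rfl, hW'2]
      rw [← hq8]
      linarith) (fun l hl hRl => by
      simp only [hlv l (show l ≤ r + 1 by omega), hW'2]
      rw [← hq8]
      have h1 := hroom l hl
      have h2 : 1 ≤ Sl l := by
        have hk := Rc.kd l (by omega)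
        rcases hRl with h3 | h3
        · rw [h3] at hk
          exact (show Sl l = 1 from hk).ge
        · rw [h3] at hk
          exact hk.1.le
      have h3 := abs_le.1 (Rc.dL l (by omega) (t + a * q) (by
        rw [abs_le]
        constructor <;> linarith))
      have h4 := abs_le.1 (Rc.dL l (by omega) (t + Ve * q) (by
        rw [abs_le]
        constructor <;> linarith))
      rw [show t + a * q - t = a * q by ring] at h3
      rw [show t + Ve * q - t = Ve * q by ring] at h4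
      have h5 : a * q - Ve * q ≤ Sl l * (a * q) - Sl l * (Ve * q) := by
        have : a * q - Ve * q ≤ Sl l * (a * q - Ve * q) :=
          le_mul_of_one_le_left (by linarith) h2
        linarith
      linarith [h3.1, h3.2, h4.1, h4.2]) (fun l hl hRl => by
      simp only [hW'2]
      rw [← hq8]
      have h1 := hroom l hl
      rw [Rc.lv_lt (l := l) (by omega)] at h1
      have h4 : bet P c l (t + a * q) (t + Ve * q) ≤ bet P c l (t + a * q) (t + a * q) :=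
        (Rc.thr.law _).mono_w _ _ _ (by linarith) (by linarith) le_rfl (by linarith)
      linarith) (fun k hk => by
      simp only [hlv r (by omega), hlv _ le_rfl]
      linarith) (fun k hk => by
      simp only [hlv r (by omega), hlv _ le_rfl, hW'2]
      obtain ⟨h1, h2⟩ := hWb k hk.le
      have k1 := abs_le.1 (hdN k hk.le)
      have k2 := abs_le.1 (hdU k hk.le)
      have k3 := hμV (W k) h1 h2
      linarith [deN.1, deN.2, deU.1, deU.2, k1.1, k1.2, k2.1, k2.2]) (by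
      simp only [hlv _ le_rfl, hW'0]
      linarith) (by
      simp only [hlv r (by omega), hlv _ le_rfl, hW'0, hW'2]
      have k3 := hμV V₀ hVe0 hV0m
      linarith [deN.1, deN.2, deU.1, deU.2, d0N.1, d0N.2, d0U.1, d0U.2]) (by
      simp only [hlv r (by omega), hlv _ le_rfl, hW'2]
      linarith)
  simp only [hW'0, hW'2] at hBX
  refine Bas.mono 0 hBX ?_
  rintro J - F A ⟨B, z, gc, gT, g₀', G', H', T', TH', Gt', Ht', h1, h2, h3, V, y, y', Q, P', l1, l2,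
    l3, l4⟩
  have hJ0 : (0 : ℝ) ≤ J := Nat.cast_nonneg J
  refine ⟨B, z, gc, gT, g₀', G', H', T', TH', Gt', Ht', h1, h2, h3, V, y, y', Q, P', l1, l2,
    fun k hk => ?_, l4⟩
  obtain ⟨V₁, z₁, z₁', G₁, P₁, m1, m2, m3⟩ := l3 k hk
  refine ⟨V₁, z₁, z₁', G₁, P₁, m1, (mul_le_mul_of_nonneg_right ?_ hJ0).trans m2, m3⟩
  simp only [hlv _ le_rfl]
  have : η * q ≤ C * (η * q) := le_mul_of_one_le_left hηq.le hC
  linarith

end Pool.CR99
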