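import Pool.Agent.H73.D2.Tvj

/-!
# The blind labels from any closed label with the right slopes

`bvf_up`: every closed label of the window `w` with near slopes at the list of windows is, on a part, a member of
the family `BvF` (the same polynomial over a finer code). `bvf_recU`: as `bvf_rec`, with `bvf_up`.
-/

set_option autoImplicit false

namespace Pool.ALT

open Finset Real MvPolynomial
open Pool.Agent.H49.Ent Pool.Agent.H32.Dense Pool.STK Pool.KA Pool.KSAT Pool.K2S Pool.PB Pool.S6C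
  Pool.GEN Pool.RCD Pool.LA91 Pool.OWN68 Pool.PKG
open Pool.UNJ (ceI)
open Pool.GRD (LbP)
open Pool.AJX (LbX)
open Pool.NPZ (Fm4 VaD)
open Pool.CR99 (BlF BlX blf_of blf_blB)
open Pool.V0F (LbU her_extc recG_lbf)

variable {m : ℕ}

/-- **A closed label of the window** `w` **with near slopes at the windows** `v k`, on one event. -/
def BlE {J : ℕ} (F : Fam m J) (c : ℕ → Fin m) (r K K₁ : ℕ) (w P : ℝ) (n : ℕ) (v p₁ x₀ : ℕ → ℝ)
    (A : F.Ω → Prop) {V : Type} (z : PtT F → V) (z' : LnT F → V)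
    (G : V → MvPolynomial (Option (Fin m)) ℝ) : Prop :=
  (∃ P' : ℕ, LbP F ((range (r + 1)).image c) (c (r + 1)) K J ⌊w * J⌋₊ P' A z z' G ∧
    P * J ≤ P') ∧
  ∀ k < n, ∃ (V₁ : Type) (z₁ : PtT F → V₁) (z₁' : LnT F → V₁)
    (G₁ : V₁ → MvPolynomial (Option (Fin m)) ℝ) (P₁ : ℕ),
    LbP F ((range (r + 1)).image c) (c (r + 1)) K₁ J ⌊v k * J⌋₊ P₁ A z₁ z₁' G₁ ∧
    p₁ k * J ≤ P₁ ∧
    ∀ ω, A ω → |eval (bt F ω) (pderiv (some (c r)) (G₁ (z₁' (slam F ⌊v k * J⌋₊ ω)) -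
      G (z' (slam F ⌊w * J⌋₊ ω))))| ≤ 2 ^ (x₀ k * J)

/-- **From a closed label to the family.** -/
theorem bvf_up {S : PCl m} {C₀ : ℝ} (hC₀ : 0 ≤ C₀) (htm : TmC S C₀)
    (hpos : ∀ (τ : ℝ) (J : ℕ) (F : Fam m J) (A : F.Ω → Prop), S.St τ J F A → 0 < Pe F.p A)
    {c : ℕ → Fin m} {r D K K₁ : ℕ} (hinj : Set.InjOn c (Set.Iio (r + 1)))
    {w a pκ pu E₁ Eu : ℝ} (W : AlW S c r (c (r + 1)) D a pκ pu E₁ Eu pu) (hw0 : 0 ≤ w)
    (hwa : w ≤ a) {P : ℝ} {n : ℕ} {v p₁ x₀ : ℕ → ℝ} {u' p e₀ σ : ℝ}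
    (hup : Upg S ((range (r + 1)).image c) (c (r + 1)) K w u' p e₀) (hσ : 0 < σ)
    (hpP : p + σ ≤ P) {k : ℕ} (hk : k < n) (hvk : v k = a) {pa : ℝ} (hpa0 : 0 ≤ pa)
    (hpa : pa < pκ) (hpk : pa < p₁ k) (hxk : x₀ k + pa < pu) {Kc : ℕ} {e : ℝ}
    {E rd pc : ℕ → ℝ}
    (hl : Bas S (fun _ F A => ∃ (V : Type) (z : PtT F → V)
      (z' : LnT F → V) (g : V → ℕ → MvPolynomial (Option (Fin m)) ℝ),
      LbX F c 0 (r + 1) Kc e E w rd pc A z z' g)) :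
    Bas S (fun J F A => ∀ (V : Type) (z : PtT F → V) (z' : LnT F → V)
      (G : V → MvPolynomial (Option (Fin m)) ℝ), BlE F c r K K₁ w P n v p₁ x₀ A z z' G →
      ∃ B : F.Ω → Prop, Sub B A ∧ Pe F.p A ≤ 8 * Pe F.p B ∧
      ∃ (V₁ : Type) (z₁ : PtT F → V₁) (z₁' : LnT F → V₁)
        (G₁ : V₁ → MvPolynomial (Option (Fin m)) ℝ)
        (g : V₁ → ℕ → MvPolynomial (Option (Fin m)) ℝ),
        BvF c r K K₁ e₀ u' p w n v p₁ x₀ Kc e E rd pc (max K D * max 1 D) a pa J F B V₁ z₁ z₁' G₁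
          g ∧ ∀ s, G₁ (z₁' s) = G (z' s)) := by
  have hpk0 := W.pk0
  have hu0 : 0 ≤ pu := W.w0.trans W.wu
  have hu1 := W.u1
  obtain ⟨x, hx⟩ : ∃ x : ℝ, x = (max (x₀ k) (max (pu - p₁ k) (pu - pκ)) + (pu - pa)) / 2 :=
    ⟨_, rfl⟩
  have hmx : max (x₀ k) (max (pu - p₁ k) (pu - pκ)) < pu - pa :=
    max_lt (by linarith) (max_lt (by linarith) (by linarith))
  have hx1 : x₀ k < x := by
    rw [hx]
    linarith [le_max_left (x₀ k) (max (pu - p₁ k) (pu - pκ))]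
  have hx2 : pu - p₁ k < x := by
    rw [hx]
    linarith [(le_max_left _ _).trans (le_max_right (x₀ k) (max (pu - p₁ k) (pu - pκ)))]
  have hx3 : pu - pκ < x := by
    rw [hx]
    linarith [(le_max_right _ _).trans (le_max_right (x₀ k) (max (pu - p₁ k) (pu - pκ)))]
  have hx4 : x + pa < pu := by
    rw [hx]
    linarith
  obtain ⟨pb, hpb⟩ : ∃ pb : ℝ, pb = max 0 ((pu - x + pκ) / 2) := ⟨_, rfl⟩
  have hpb0 : 0 ≤ pb := by
    rw [hpb]
    exact le_max_left _ _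
  have hpb1 : pb < pκ := by
    rw [hpb]
    exact max_lt hpk0 (by linarith)
  have hpb2 : pu - pb < x := by
    have : (pu - x + pκ) / 2 ≤ pb := by
      rw [hpb]
      exact le_max_right _ _
    linarith
  have hbl : ∀ p₂ : ℝ, BlB S c r (c (r + 1)) w a D D pb p₂ x
      (BlF c r K K₁ e₀ u' p w n v p₁ x₀) := by
    intro p₂
    have h1 := blf_blB hC₀ htm (c := c) (r := r) (K := K) (K₁ := K₁) (K₂ := D) (Ku := D) (e₀ := e₀)
      (ρ₀ := u') (π₀ := p) (w := w) (n := n) (v := v) (p₁ := p₁) (x₀ := x₀) hk (u := pu)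
      (by rw [hvk]; exact W.wu) hu0 hu1 (by rw [hvk]; exact W.fI) (p := pb) (p₂ := p₂) (x := x)
      hpb0 hx1 hx2 hpb2
    rw [hvk] at h1
    exact h1
  have hv := vad_win hC₀ htm hpos (K := K) hinj W hw0 hwa hpa0 hpa hpb1 hx4
    (Ψ := BlF c r K K₁ e₀ u' p w n v p₁ x₀)
    (fun J F A V z z' G hG => ⟨hG.1.deg, hG.1.dep, hG.1.cls⟩)
    (fun J F A B V z z' G hB hG => BlF.hs J F A B V z z' G hB hG) hbl
  refine Bas.mono 0 (((hup.up htm hσ).and hl).and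
    (Pool.GRW.bas_part hv (c := 4) (by norm_num))) ?_
  rintro J - F A ⟨⟨hu, V₂, z₂, z₂', g, hg⟩, H⟩ V z z' G ⟨⟨P', l1, l2⟩, l3⟩
  have hJ0 : (0 : ℝ) ≤ J := Nat.cast_nonneg J
  obtain ⟨B₁, b1, b2, b3⟩ := hu P' V z z' G l1 ((mul_le_mul_of_nonneg_right hpP hJ0).trans l2)
  have hG : BlF c r K K₁ e₀ u' p w n v p₁ x₀ J F B₁ V z z' G := ⟨b3, fun k hk => by
    obtain ⟨V₁, z₁, z₁', G₁, P₁, h1, h2, h3⟩ := l3 k hk
    exact ⟨V₁, z₁, z₁', G₁, P₁, h1.sub b1, h2, fun ω hω => h3 ω (b1 ω hω)⟩⟩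
  obtain ⟨B, c1, c2, c3⟩ := H B₁ b1 (by linarith) V z z' G hG
  have hBA : Sub B A := fun ω hω => b1 ω (c1 ω hω)
  have hcc : ∀ ω, B ω → (fun x => (z x, z₂ x)) (ptr F J ω) =
      (fun x => (z' x, z₂' x)) (slam F ⌊w * J⌋₊ ω) := fun ω hω => by
    show (z (ptr F J ω), z₂ (ptr F J ω)) = _
    rw [hG.1.cls ω (c1 ω hω), (hg 0 le_rfl (Nat.succ_pos r)).cls ω (hBA ω hω)]
  refine ⟨B, hBA, by linarith, V × V₂, fun x => (z x, z₂ x), fun x => (z' x, z₂' x),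
    fun x => G x.1, fun x => g x.2,
    ⟨blf_code (BlF.hs J F B₁ B V z z' G c1 hG) _ _ Prod.fst (fun _ => rfl) hcc,
    fun i h0 h1 => lbok_code ((hg i h0 h1).sub hBA) _ _ Prod.snd (fun _ => rfl) hcc,
    vad_code c3 _ Prod.fst fun _ => rfl⟩, fun s => rfl⟩

/-- **The blind labels with labels of the chain and a closed own height, at the windows of a record**, on
all events of a subclass; every closed label with the right slopes is one, on a part. -/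
theorem bvf_recU (r S₀ : ℕ) (hS₀ : 1 ≤ S₀) : ∃ D Kl : ℕ, 1 ≤ D ∧ 1 ≤ Kl ∧
    ∀ {S : PCl (r + 2)} {al : ℝ} {g₀ : ℝ → ℝ}
    {P : List (Fin (r + 2)) × Fin (r + 2) → ℝ → ℝ → ℝ}
    {θ : ℝ} {P₂ : ℕ → List (Fin (r + 2)) × Fin (r + 2) → ℝ → ℝ → ℝ} {θ₂ Eb e₂ : ℕ → ℝ}
    {c : ℕ → Fin (r + 2)} {Pt : ℝ → ℝ → ℝ} {rt : ℝ → ℝ} {h K₀ g : ℝ} {L T : ℕ → ℝ → ℝ → ℝ}
    {Sl : ℕ → ℝ} {κ : ℕ → Kg} {G : Set ℝ} {N : ℕ} {A V : ℕ → ℝ} {S₂ N' : ℕ} {V' : ℕ → ℝ}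
    {K' ε q t : ℝ},
    RecG S al g₀ P θ P₂ θ₂ Eb e₂ c Pt rt h K₀ g L T Sl κ G S₀ N A V S₂ N' V' K' ε q t →
    1 ≤ K' → (∀ k < N', |V' k| + 1 ≤ K') →
    (∀ k < N', ∃ rd : ℕ → ℝ, Chn S c 0 (r + 1) (t + V' k * q) (t + V' k * q)
      (L r (t + V' k * q) (t + V' k * q)) (fun l => L l (t + V' k * q) (t + V' k * q)) rd) →
    (∀ k < N', ∃ rk E : ℝ, 0 ≤ E ∧
      E + L (r + 1) (t + V' k * q) (t + V' k * q) + 3 * K' * q ≤ 1 ∧
      LbU S ((range (r + 1)).image c) (c (r + 1)) (t + V' k * q)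
        (L (r + 1) (t + V' k * q) (t + V' k * q)) rk E) →
    ∀ {K K₁ n : ℕ} {Pw κ' ρ : ℝ} {vw p₁ x₀ : ℕ → ℝ} {i j k : ℕ}, D ≤ K → i < N' → j < N' →
    V' i ≤ V' j → k < n → vw k = t + V' j * q → 0 < κ' → 0 < ρ → ρ ≤ 1 / 4 →
    L (r + 1) (t + V' j * q) (t + V' j * q) - ρ * q ≤ p₁ k →
    x₀ k ≤ L r (t + V' j * q) (t + V' j * q) - L (r + 1) (t + V' j * q) (t + V' j * q) + ρ * q →
    L (r + 1) (t + V' i * q) (t + V' i * q) - ρ * q ≤ Pw →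
    BlX S c r K K₁ (t + V' i * q) Pw n vw p₁ x₀ κ' → ∀ {e : ℝ}, 0 < e →
    ∃ S' : PCl (r + 2), S'.Ne ∧ SubC S' S ∧
      RecG S' al g₀ P θ P₂ θ₂ Eb e₂ c Pt rt h K₀ g L T Sl κ G S₀ N A V S₂ N' V' K' ε q t ∧
      (∀ l < N', ∃ E : ℝ, AlW S' c r (c (r + 1)) D (t + V' l * q)
        (L (r + 1) (t + V' l * q) (t + V' l * q)) (L r (t + V' l * q) (t + V' l * q)) E 0
        (L r (t + V' l * q) (t + V' l * q))) ∧
      ∃ (E rd : ℕ → ℝ) (eG rG : ℝ), (∀ l ≤ r + 1, 0 ≤ E l ∧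
        L l (t + V' i * q) (t + V' i * q) + E l + 3 * K' * q ≤ 1 ∧ 0 ≤ rd l ∧
        rd l + 3 * K' * q ≤ 1) ∧ 0 < eG ∧ 0 ≤ rG ∧
        eG + L (r + 1) (t + V' i * q) (t + V' i * q) + 3 * K' * q ≤ 1 + q ∧ rG + eG < 1 ∧
        Bas S' (fun J F A => ∃ (V : Type) (z : PtT F → V) (z' : LnT F → V)
          (G : V → MvPolynomial (Option (Fin (r + 2))) ℝ)
          (g : V → ℕ → MvPolynomial (Option (Fin (r + 2))) ℝ),
          BvF c r K K₁ eG (rG + eG) (L (r + 1) (t + V' i * q) (t + V' i * q) - 2 * ρ * q)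
            (t + V' i * q) n vw p₁ x₀ Kl e E rd (fun l => L l (t + V' i * q) (t + V' i * q))
            (max K D * max 1 D) (t + V' j * q)
            (L (r + 1) (t + V' j * q) (t + V' j * q) - 2 * ρ * q) J F A V z z' G g) ∧
        Bas S' (fun J F A => ∀ (V : Type) (z : PtT F → V) (z' : LnT F → V)
          (G : V → MvPolynomial (Option (Fin (r + 2))) ℝ),
          BlE F c r K K₁ (t + V' i * q) Pw n vw p₁ x₀ A z z' G →
          ∃ B : F.Ω → Prop, Sub B A ∧ Pe F.p A ≤ 8 * Pe F.p B ∧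
          ∃ (V₁ : Type) (z₁ : PtT F → V₁) (z₁' : LnT F → V₁)
          (G₁ : V₁ → MvPolynomial (Option (Fin (r + 2))) ℝ)
          (g : V₁ → ℕ → MvPolynomial (Option (Fin (r + 2))) ℝ),
          BvF c r K K₁ eG (rG + eG) (L (r + 1) (t + V' i * q) (t + V' i * q) - 2 * ρ * q)
            (t + V' i * q) n vw p₁ x₀ Kl e E rd (fun l => L l (t + V' i * q) (t + V' i * q))
            (max K D * max 1 D) (t + V' j * q)
            (L (r + 1) (t + V' j * q) (t + V' j * q) - 2 * ρ * q) J F B V₁ z₁ z₁' G₁ g ∧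
            ∀ s, G₁ (z₁' s) = G (z' s)) := by
  classical
  obtain ⟨D, hD, halw⟩ := alw_rec r S₀ hS₀
  obtain ⟨Kl, hKl, hlbf⟩ := recG_lbf (r + 2) S₀ (by omega) hS₀
  refine ⟨D, Kl, hD, hKl, ?_⟩
  intro S al g₀ P θ P₂ θ₂ Eb e₂ c Pt rt h K₀ g L T Sl κ G N A V S₂ N' V' K' ε q t R hK1 hV hch hlab
    K K₁ n Pw κ' ρ vw p₁ x₀ i j k hDK hi hj hij hk hvk hκ' hρ hρ1 hpk hxk hPw hX e he
  have hq := R.q0
  have ht0 := R.t0
  have ht1 := R.t1
  have hK0 : 0 < K' := by linarith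
  have hKq : q ≤ K' * q := by
    have := mul_le_mul_of_nonneg_right hK1 hq.le
    linarith
  have hV' : ∀ k < N', |V' k| ≤ K' := fun k hk => by linarith [hV k hk]
  choose! rk Ek hE0 hE1 hE2 using hlab
  obtain ⟨S₁, hs₁, R₁, hW⟩ := halw R hK0 hV' hch Ek rk (fun k hk => ⟨hE0 k hk, by
    have := hE1 k hk
    linarith, hE2 k hk⟩)
  obtain ⟨S₂', hs₂, R₂, hlb⟩ := hlbf R₁ hK0 hV' (le_refl (3 * K' * q)) (fun k hk => by
      obtain ⟨rd, h2⟩ := hch k hk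
      exact ⟨rd, h2.sub hs₁⟩) (fun k hk => ⟨rk k, Ek k, hE0 k hk, hE1 k hk, fun e he => by
        obtain ⟨K, hK⟩ := hE2 k hk e he
        exact ⟨K, hK.sub hs₁⟩⟩)
  have hs12 : SubC S₂' S := fun τ J F A h => hs₁ τ J F A (hs₂ τ J F A h)
  obtain ⟨E, rd, hE, hlbx⟩ := hlb i hi
  have hWi := (hW i hi).sub hs₂
  have hWj := (hW j hj).sub hs₂
  obtain ⟨w, hw⟩ : ∃ w, w = t + V' i * q := ⟨_, rfl⟩
  obtain ⟨a, ha⟩ : ∃ a, a = t + V' j * q := ⟨_, rfl⟩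
  have hlow : ∀ k < N', q < t + V' k * q ∧ t + V' k * q < 1 ∧
      t + V' k * q ≤ L (r + 1) (t + V' k * q) (t + V' k * q) := fun k hk => by
    have h1 := abs_le.1 (show |V' k| ≤ K' - 1 by linarith [hV k hk])
    have h2 := mul_le_mul_of_nonneg_right h1.1 hq.le
    have h3 := mul_le_mul_of_nonneg_right h1.2 hq.le
    have h4 : q < t + V' k * q := by linarith
    have h5 : t + V' k * q < 1 := by linarith
    exact ⟨h4, h5, R.low_at (by omega) (by linarith) le_rfl h5.le⟩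
  obtain ⟨i1, i2, i3⟩ := hlow i hi
  obtain ⟨j1, j2, j3⟩ := hlow j hj
  have hwa : w ≤ a := by
    rw [hw, ha]
    have := mul_le_mul_of_nonneg_right hij hq.le
    linarith
  rw [← hw] at hE hlbx hWi hX hPw i1 i2 i3 ⊢
  rw [← ha] at hWj hvk hpk hxk j1 j2 j3 ⊢
  have hρq : 0 < ρ * q := by positivity
  have hρq1 : ρ * q ≤ q / 4 := by
    have := mul_le_mul_of_nonneg_right hρ1 hq.le
    linarith
  -- the numbers of the upgrade
  obtain ⟨Lw, hLw⟩ : ∃ Lw, Lw = L (r + 1) w w := ⟨_, rfl⟩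
  obtain ⟨Uw, hUw⟩ : ∃ Uw, Uw = L r w w := ⟨_, rfl⟩
  obtain ⟨Em, hEm⟩ : ∃ Em, Em = max (Ek i) (Uw - Lw) := ⟨_, rfl⟩
  have hE1i := hE1 i hi
  have hE0i := hE0 i hi
  rw [← hw] at hE1i
  rw [← hLw] at hWi hE1i hPw i3 ⊢
  rw [← hUw, ← hEm] at hWi
  have hUr : Uw + 3 * K' * q ≤ 1 := by
    have h1 := hE r (by omega)
    rw [← hUw] at h1
    linarith
  have hEm0 : 0 ≤ Em := by rw [hEm]; exact hE0i.trans (le_max_left _ _)
  have hEm1 : Em + Lw + 3 * K' * q ≤ 1 := by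
    rw [hEm]
    rcases max_choice (Ek i) (Uw - Lw) with h3 | h3
    · rw [h3]
      linarith
    · rw [h3]
      linarith
  have hEm2 : Uw - Lw ≤ Em := by rw [hEm]; exact le_max_right _ _
  obtain ⟨eG, heG⟩ : ∃ eG, eG = Em + q := ⟨_, rfl⟩
  obtain ⟨uG, huG⟩ : ∃ uG, uG = max (Uw + q / 4) eG := ⟨_, rfl⟩
  have hu1 : Uw + q / 4 ≤ uG := by rw [huG]; exact le_max_left _ _
  have hu2 : eG ≤ uG := by rw [huG]; exact le_max_right _ _
  have hLw0 : 0 < Lw := by linarith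
  have hup : Upg S₂' ((range (r + 1)).image c) (c (r + 1)) K w uG (Lw - 2 * ρ * q) eG := by
    refine hWi.upg R₂.pos hDK (by linarith) ?_ (by linarith) ?_ ?_ (by linarith)
    · rw [huG, heG]
      exact max_lt (by linarith) (by linarith)
    · rw [huG, heG]
      exact max_lt (by linarith) (by linarith)
    · rw [huG, heG]
      exact max_lt (by linarith) (by linarith)
  have hinj : Set.InjOn c (Set.Iio (r + 1)) := R.inj.mono (by
    intro y hy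
    rw [Set.mem_Iio] at hy ⊢
    omega)
  have hupp := bvf_up (by norm_num : (0 : ℝ) ≤ 6) R₂.tmc R₂.pos hinj hWj (by linarith : 0 ≤ w) hwa
    (K₁ := K₁) (n := n) (v := vw) (p₁ := p₁) (x₀ := x₀) (P := Pw) hup hρq (by linarith) hk hvk
    (pa := L (r + 1) a a - 2 * ρ * q)
    (by linarith) (by linarith) (by linarith) (by linarith) (Bas.mono 0 (hlbx e he) (by
      rintro J - F A ⟨V, z, z', g, hg⟩
      exact ⟨V, z, z', g, fun l _ hl => hg l (by omega)⟩))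
  have hex := bvf_ex (by norm_num : (0 : ℝ) ≤ 6) R₂.tmc R₂.pos hinj hWj (by linarith : 0 ≤ w) hwa
    hκ' (blX_sub hs12 hX) hup hρq (by linarith) hk hvk (pa := L (r + 1) a a - 2 * ρ * q)
    (by linarith) (by linarith) (by linarith) (by linarith) (Bas.mono 0 (hlbx e he) (by
      rintro J - F A ⟨V, z, z', g, hg⟩
      exact ⟨V, z, z', g, fun l _ hl => hg l (by omega)⟩))
  obtain ⟨S₃, h1, h2, h3⟩ := her_extc (ι := Unit) R₂.ne (fun _ J F A =>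
      ∃ (V : Type) (z : PtT F → V) (z' : LnT F → V)
        (G : V → MvPolynomial (Option (Fin (r + 2))) ℝ)
        (g : V → ℕ → MvPolynomial (Option (Fin (r + 2))) ℝ),
        BvF c r K K₁ eG uG (Lw - 2 * ρ * q) w n vw p₁ x₀ Kl e E rd (fun l => L l w w)
            (max K D * max 1 D) a (L (r + 1) a a - 2 * ρ * q) J F A V z z' G g)
    (fun _ J F A B hB => by
      rintro ⟨V, z, z', G, g, hG⟩
      exact ⟨V, z, z', G, g, BvF.hs J F A B V z z' G g hB hG⟩) (fun _ => ⟨8 * κ', hex⟩)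
  have hs3 : SubC S₃ S := fun τ J F A h => hs12 τ J F A (h2 τ J F A h)
  refine ⟨S₃, h1, hs3, R.sub h1 hs3, fun l hl => ⟨_, ((hW l hl).sub hs₂).sub h2⟩, E, rd, eG,
    uG - eG, hE, ?_, by linarith, ?_, ?_, ?_, ?_⟩
  · rw [heG]
    linarith
  · rw [heG]
    linarith
  · rw [sub_add_cancel, huG, heG]
    exact max_lt (by linarith) (by linarith)
  · rw [sub_add_cancel]
    exact h3 ()
  · rw [sub_add_cancel]
    exact Bas.sub h2 hupp

end Pool.ALT
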