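import Pool.Agent.H73.D2.Ttb

/-!
# The blind family and its velocity, with all closed labels

`t4_recU`: as `t4_rec`; every closed label of the window with the right slopes is a member of the family, on a
part.
-/

set_option autoImplicit false

namespace Pool.ALT

open Finset Real MvPolynomial
open Pool.Agent.H49.Ent Pool.Agent.H32.Dense Pool.STK Pool.KA Pool.KSAT Pool.K2S Pool.PB Pool.S6C
  Pool.GEN Pool.RCD Pool.LA91 Pool.OWN68 Pool.PKG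
open Pool.CHT Pool.CHX Pool.ISO Pool.D2R Pool.D2G30 Pool.V1E Pool.CR99 Pool.GRW
open Pool.UNJ (ceI)
open Pool.GRD (LbP)
open Pool.PN18 (Fm2 Fw2)
open Pool.AJX (LbX FwX)
open Pool.AJW (JfU jfV jfV_mem nX aX)
open Pool.NPZ (Fm4 VaD NpL)
open Pool.V0F (LbU ChUQ AttUQ)

/-- **The blind family and its velocity**, at a record; every closed label with the right slopes is a member, on
a part. -/
theorem t4_recU (r S₀ : ℕ) (hr : 1 ≤ r) (hS₀ : 1 ≤ S₀) : ∃ D₀ : ℕ, 1 ≤ D₀ ∧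
    ∀ (Kd Dw : ℕ), D₀ ≤ Kd → ∀ {h y₁ α C₁ δ lam : ℝ}, 0 < h → h ≤ 1 → 0 < δ → 0 < lam →
    0 < y₁ → 0 < α → 0 < C₁ → ∃ δN C' dd : ℝ, 0 < δN ∧ 1 ≤ C' ∧ 0 < dd ∧
    ∀ {S : PCl (r + 2)} {al : ℝ} {g₀ : ℝ → ℝ}
    {P : List (Fin (r + 2)) × Fin (r + 2) → ℝ → ℝ → ℝ} {θ : ℝ}
    {P₂ : ℕ → List (Fin (r + 2)) × Fin (r + 2) → ℝ → ℝ → ℝ} {θ₂ Eb e₂ : ℕ → ℝ}
    {c : ℕ → Fin (r + 2)} {Pt : ℝ → ℝ → ℝ} {rt : ℝ → ℝ} {K₀ g : ℝ} {L T : ℕ → ℝ → ℝ → ℝ}
    {Sl : ℕ → ℝ} {κ : ℕ → Kg} {G : Set ℝ} {N : ℕ} {A V : ℕ → ℝ} {S₂ Na : ℕ} {Va : ℕ → ℝ}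
    {K' ε q t : ℝ}
    (_ : RecG S al g₀ P θ P₂ θ₂ Eb e₂ c Pt rt h K₀ g L T Sl κ G S₀ N A V S₂ Na Va K' ε q t)
    (_ : ∀ l < r, κ l = .one) {s C φ Xc X kf hh k₁ a ρ kf₁ e₁ κx : ℝ}
    (_ : Sl (r + 1) = s) (_ : Sl r = α) (_ : VdK r s y₁ α δN C C' δ lam φ Xc X kf hh k₁ a ε)
    (_ : k₁ + C + 3 ^ r * Xc + kf + (α + 1) * y₁ + lam + 4 ≤ K')
    (_ : ∀ k < Na, |Va k| + 1 ≤ K')
    (_ : ∀ w ∈ G, ∃ rd : ℕ → ℝ, (∀ l < r + 1, 0 ≤ rd l) ∧
      Chn S c 0 (r + 1) w w (L r w w) (fun l => L l w w) rd)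
    (_ : ∀ k < Na, ∃ rk E : ℝ, 0 ≤ E ∧
      E + L (r + 1) (t + Va k * q) (t + Va k * q) + 3 * K' * q ≤ 1 ∧
      LbU S ((range (r + 1)).image c) (c (r + 1)) (t + Va k * q)
        (L (r + 1) (t + Va k * q) (t + Va k * q)) rk E)
    (_ : ∃ i < Na, Va i = -y₁) {nb : ℕ} {bw : ℕ → ℝ} (_ : ∀ k < nb, ∃ l < Na, Va l = bw k)
    (_ : ∃ k < nb, bw k = 0) (_ : ∀ k ≤ r, ∃ l < Na, Va l = jfV r (-y₁) Xc k)
    (_ : 0 < ρ) (_ : 16 * ρ ≤ δN * lam) (_ : 16 * ρ ≤ φ) (_ : 2 * ρ + ε ≤ 1 / 2) (_ : 4 * ρ ≤ X / 2)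
    (_ : 8 * hh ≤ X / 2) {K₁x : ℕ} (_ : 0 < κx)
    (_ : BlX S c r Kd K₁x (t + -y₁ * q) (L (r + 1) (t + -y₁ * q) (t + -y₁ * q) - ρ * q) nb
      (fun k => t + bw k * q) (fun k => L (r + 1) (t + bw k * q) (t + bw k * q) - ρ * q)
      (fun k => L r (t + bw k * q) (t + bw k * q) - L (r + 1) (t + bw k * q) (t + bw k * q) +
        ρ * q) κx)
    (_ : kf₁ * C₁ ≤ Xc) (_ : α * y₁ + ε ≤ (α - 1) * C₁ + φ)
    (_ : α * y₁ + 1 + 2 * (r + 1) * φ ≤ kf) (_ : 0 < e₁)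
    (_ : F1 S (fun J F => ptr F J) (vg (t + -y₁ * q)) (fun _ F => F.T)
      (qJets (r + 2) c 0 r 1 (fun _ _ => t + -y₁ * q)
        (fun l _ => L l (t + -y₁ * q) (t + -y₁ * q))
        (fun l j => L l (t + -y₁ * q) (t + -y₁ * q) + kf₁ * (C₁ * q) -
          (j : ℕ) * (t + -y₁ * q)))
      (qJet (r + 2) ((range r).image c) (c r) 1 (t + -y₁ * q) (L r (t + -y₁ * q) (t + -y₁ * q))
        (L r (t + -y₁ * q) (t + -y₁ * q) + (α - 1) * (C₁ * q) - (t + -y₁ * q))) e₁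
      (dd * (C₁ * q)))
    {D Dr Db : ℕ} (_ : (max D Kd + 1) * (max D Kd + 1) ≤ Dr),
    ∃ (S' : PCl (r + 2)) (Θ : Fm2 (r + 2)), S'.Ne ∧ SubC S' S ∧
      (∀ (J : ℕ) (F : Fam (r + 2) J) (A B : F.Ω → Prop) (V C : Type) (z : PtT F → V)
        (z' : LnT F → V) (G₁ G₂ : V → MvPolynomial (Option (Fin (r + 2))) ℝ) (cc : LnT F → C),
        Sub B A → Θ J F A V C z z' G₁ G₂ cc → Θ J F B V C z z' G₁ G₂ cc) ∧
      (∀ (J : ℕ) (F : Fam (r + 2) J) (A : F.Ω → Prop) (V C : Type) (z : PtT F → V)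
        (z' : LnT F → V) (G₁ G₂ : V → MvPolynomial (Option (Fin (r + 2))) ℝ) (cc : LnT F → C),
        Θ J F A V C z z' G₁ G₂ cc →
        (∀ y, (G₂ y).totalDegree ≤ Kd) ∧ (∀ y, DpI ((range (r + 1)).image c) (G₂ y)) ∧
        ∀ ω, A ω → z (ptr F J ω) = z' (slam F ⌊(t + -y₁ * q) * J⌋₊ ω)) ∧
      Bas S' (fun J F A => ∃ (V C : Type) (z : PtT F → V) (z' : LnT F → V)
        (G₁ G₂ : V → MvPolynomial (Option (Fin (r + 2))) ℝ) (cc : LnT F → C),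
        Θ J F A V C z z' G₁ G₂ cc) ∧
      Bas S' (fun J F A => ∀ (V : Type) (z : PtT F → V) (z' : LnT F → V)
        (G : V → MvPolynomial (Option (Fin (r + 2))) ℝ),
        BlE F c r Kd K₁x (t + -y₁ * q) (L (r + 1) (t + -y₁ * q) (t + -y₁ * q) - ρ * q) nb
          (fun k => t + bw k * q) (fun k => L (r + 1) (t + bw k * q) (t + bw k * q) - ρ * q)
          (fun k => L r (t + bw k * q) (t + bw k * q) - L (r + 1) (t + bw k * q) (t + bw k * q) +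
            ρ * q) A z z' G →
        ∃ B : F.Ω → Prop, Sub B A ∧ Pe F.p A ≤ 8 * Pe F.p B ∧
        ∃ (V₁ C : Type) (z₁ : PtT F → V₁) (z₁' : LnT F → V₁)
          (G₁ G₂ : V₁ → MvPolynomial (Option (Fin (r + 2))) ℝ) (cc : LnT F → C),
          Θ J F B V₁ C z₁ z₁' G₁ G₂ cc ∧ ∀ s, G₂ (z₁' s) = G (z' s)) ∧
      (∀ k < nb, BlB S' c r (c (r + 1)) (t + -y₁ * q) (t + bw k * q) Db Db
        (L (r + 1) (t + bw k * q) (t + bw k * q) - 2 * (hh * q))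
        (L r (t + bw k * q) (t + bw k * q) - 2 * (hh * q))
        (L r (t + bw k * q) (t + bw k * q) - L (r + 1) (t + bw k * q) (t + bw k * q) +
          X / 4 * q) (Fm2.lab Θ)) ∧
      ∀ {y : ℝ} {vw : ℕ → ℝ} {N₁ N₂ : ℕ} {Rg : ℕ → Prop} {be : ℕ → ℕ → ℝ} {E₁ ε₁ a₁ : ℝ}
      (κ' : ℝ) (qf : ℕ → Fin r → ℕ) (Pq : Fin r → ℝ), 0 < κ' → κ' ≤ 1 →
      (∀ i, (kf + 1) * q ≤ Pq i) → (∀ (J : ℕ) (i : Fin r), Pq i * J - 2 ≤ qf J i) →
      VfNU S' c r D Dw Dr N₁ N₂ Rg C a₁ E₁ ε₁ (hh * q) (X * q) (s * q) (kf * q) (L (r + 1))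
        (fun k => t + vG y k₁ vw k * q)
        (fun k l => lvN P c (r + 1) (L (r + 1)) l (t + vG y k₁ vw k * q)
          (t + vG y k₁ vw k * q)) be κ' qf δ (2 * 1) (XiF Θ (t + -y₁ * q)) := by
  classical
  obtain ⟨D₀, Kl, hD₀, hKl, hbv⟩ := bvf_recU r S₀ hS₀
  refine ⟨D₀, hD₀, ?_⟩
  intro Kd Dw hKd h y₁ α C₁ δ lam hh0 hh1 hδ hlam hy₁ hα hC₁
  obtain ⟨δN, C', hδN, hC', hvf⟩ := vfN_E Kd (max Kd D₀ * max 1 D₀) Dw r hr hh0 hh1 hδ hlam
  obtain ⟨dd, hdd, hfx⟩ := RecG.fwxu Kl (ε' := δN * lam / 4) (α := α) (vv := -y₁) (C := C₁)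
    (by positivity) hα (by linarith) hC₁
  refine ⟨δN, C', dd, hδN, hC', hdd, ?_⟩
  intro S al g₀ P θ P₂ θ₂ Eb e₂ c Pt rt K₀ g L T Sl κ G N A V S₂ Na Va K' ε q t R hκ s C φ Xc X kf
    hh k₁ a ρ kf₁ e₁ κx hs hSα Kn hK' hVa hch hlab hi nb bw hbw hb0 hjf hρ0 hρN hρφ hρε hρX hhX K₁x
    hκx hX hkX hαC hαk he₁ hF D Dr Db hDr
  have hq0 := R.q0
  have ht0 := R.t0
  have ht1 := R.t1
  have hC1 := Kn.C1
  have hkf0 : 0 < kf := by
    have h1 : 0 ≤ 2 * ((r : ℝ) + 1) * φ := by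
      have := Kn.φ0
      positivity
    have h2 : 0 < α * y₁ := by positivity
    linarith only [hαk, h1, h2]
  have hk1 : 0 < k₁ := by linarith only [Kn.kk, hkf0]
  have h3X := Kn.X30
  have hαy : 0 < (α + 1) * y₁ := by positivity
  have hK1 : 1 ≤ K' := by linarith only [hK', hk1, hC1, h3X, hkf0, hαy, hlam]
  obtain ⟨i, hiN, hVi⟩ := hi
  obtain ⟨k0, hk0, hbk0⟩ := hb0
  obtain ⟨j, hjN, hVj⟩ := hbw k0 hk0
  rw [hbk0] at hVj
  have hρ1 : ρ ≤ 1 / 4 := by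
    have := Kn.ε0
    linarith only [hρε, this]
  obtain ⟨e, he⟩ : ∃ e, e = min (φ * q / 8) e₁ := ⟨_, rfl⟩
  have hφq : 0 < φ * q := mul_pos Kn.φ0 hq0
  have he0 : 0 < e := by
    rw [he]
    exact lt_min (by positivity) he₁
  have heφ : e ≤ φ * q / 8 := by rw [he]; exact min_le_left _ _
  have hee : e ≤ e₁ := by rw [he]; exact min_le_right _ _
  have hvk : t + bw k0 * q = t + Va j * q := by rw [hbk0, hVj]
  obtain ⟨S', hne, hsub, R', hAW, E, rd, eG, rG, hE, heG, hrG, heG1, hrG1, hex, hupp⟩ :=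
    hbv R hK1 hVa
    (fun k hk => by
      obtain ⟨rd, -, h2⟩ := hch _ (R.memG.2 k hk)
      exact ⟨rd, h2⟩) hlab (K := Kd) (K₁ := K₁x) (n := nb)
    (Pw := L (r + 1) (t + Va i * q) (t + Va i * q) - ρ * q) (κ' := κx) (ρ := ρ)
    (vw := fun k => t + bw k * q)
    (p₁ := fun k => L (r + 1) (t + bw k * q) (t + bw k * q) - ρ * q)
    (x₀ := fun k => L r (t + bw k * q) (t + bw k * q) - L (r + 1) (t + bw k * q) (t + bw k * q) +
        ρ * q) (i := i) (j := j) (k := k0) hKd hiN hjN (by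
      rw [hVi, hVj]
      linarith only [hy₁]) hk0 hvk hκx hρ0 hρ1 (by
      simp only [hvk]
      exact le_rfl) (by
      simp only [hvk]
      exact le_rfl) le_rfl (by
      rw [hVi]
      exact hX) he0
  rw [hVi] at hE heG1 hex hupp
  rw [hVj, zero_mul, add_zero] at hex hupp
  obtain ⟨v, hv⟩ : ∃ v, v = t + -y₁ * q := ⟨_, rfl⟩
  -- multiples of the scale
  have hKq : k₁ * q + C * q + 3 ^ r * Xc * q + kf * q + (α + 1) * y₁ * q + lam * q + 4 * q ≤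
      K' * q := by
    have h1 := mul_le_mul_of_nonneg_right hK' hq0.le
    linarith only [h1]
  have hk1q : 0 < k₁ * q := mul_pos hk1 hq0
  have hCq : 0 < C * q := mul_pos (by linarith only [hC1]) hq0
  have h3Xq : 0 ≤ 3 ^ r * Xc * q := mul_nonneg h3X hq0.le
  have hkfq : 0 < kf * q := mul_pos hkf0 hq0
  have hαyq : 0 < (α + 1) * y₁ * q := mul_pos hαy hq0
  have hlamq : 0 < lam * q := mul_pos hlam hq0
  have hρq : 0 < ρ * q := mul_pos hρ0 hq0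
  have hyq : 0 < y₁ * q := mul_pos hy₁ hq0
  -- the windows
  have hGt : t ∈ G := by
    have h1 := R.memG.2 j hjN
    rwa [hVj, zero_mul, add_zero] at h1
  have hGw : ∀ k ≤ r, t + jfV r (-y₁) Xc k * q ∈ G := fun k hk => by
    obtain ⟨l, hl, e1⟩ := hjf k hk
    have h1 := R.memG.2 l hl
    rwa [e1] at h1
  have hCG : ChG S' c (r + 1) (fun l x => L l x x) G := ⟨fun w hw => by
    obtain ⟨rd, h1, h2⟩ := hch w hw
    exact ⟨_, rd, h1, h2.sub hsub⟩⟩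
  have U : JfU r 0 (-y₁) Xc φ (kf + y₁) kf :=
    { vv0 := by linarith only [hy₁]
      φ0 := Kn.φ0
      XK := by
        have h1 := Kn.sX
        push_cast
        linarith only [h1]
      φX := Kn.φX
      kfX := Kn.kX
      lamk := by linarith only [] }
  have hFx := hfx R'.tmc R hκ (by omega) hSα hCG U hGt hGw (by
      rw [neg_neg]
      linarith only [hK', hk1, hC1, hkf0, hlam, hy₁, mul_pos hα hy₁]) (by
      linarith only [hK', hk1, hC1, h3X, hlam, hy₁, mul_pos hα hy₁]) Kn.ε0.le (by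
      have := Kn.εφ
      have := Kn.φ1
      linarith) Kn.εφ (by
      rw [neg_neg]
      exact hαk) (by
      rw [neg_neg]
      linarith only [hK', hk1, hC1, h3X, hkf0, hlam, hy₁])
    (pf := fun l => L l t t - hh * q) (fun l hl => by
      have h1 := mul_le_mul_of_nonneg_right Kn.hφ hq0.le
      show L l t t - φ * q ≤ L l t t - hh * q
      linarith only [h1]) (E := E) (rd := rd) (fun i hi => by
      have h1 := (hE i (by omega)).2.1
      have h2 : 0 ≤ L i (t + -y₁ * q) (t + -y₁ * q) := by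
        have h3 : 0 ≤ t + -y₁ * q := by
          linarith only [ht0, hKq, hk1q, hCq, h3Xq, hkfq, hlamq, hq0, mul_pos (mul_pos hα hy₁) hq0]
        exact h3.trans (R.low_at (by omega) h3 le_rfl (by
          linarith only [ht1, hKq, hk1q, hCq, h3Xq, hkfq, hlamq, hq0, hyq, hαyq]))
      have h4 : 0 ≤ K' * q := by
        linarith only [hKq, hk1q, hCq, h3Xq, hkfq, hlamq, hq0, hαyq]
      linarith only [h1, h2, h4]) (fun i hi => (hE i (by omega)).2.2.1)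
    (Nf := fun l j => L l t t + kf * q - (j : ℕ) * t) (fun l _ j _ => rfl) hkX (by
      rw [neg_neg]
      exact hαC) he₁ (fun K₂ => Bas.sub hsub (hF K₂)) e he0 heφ hee
  have e1 : δN * lam / 4 * q = δN * (lam * q) / 4 := by ring
  rw [e1] at hFx
  -- the level
  have hdN := abs_le.1 (R.dL (r + 1) (by omega) (t + -y₁ * q) (by
    rw [add_sub_cancel_left, abs_mul, abs_neg, abs_of_pos hq0, abs_of_pos hy₁]
    linarith only [hKq, hk1q, hCq, h3Xq, hkfq, hlamq, hq0, hyq, mul_pos (mul_pos hα hy₁) hq0]))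
  rw [hs] at hdN
  have e2 : s * (t + -y₁ * q - t) = -(s * y₁ * q) := by ring
  rw [e2] at hdN
  obtain ⟨hdN1, hdN2⟩ := hdN
  have hlamq' : lam * q + (y₁ * q - s * q + q) / 2 = s * y₁ * q := by
    have h1 : lam * q = (s * y₁ - (y₁ - s + 1) / 2) * q := by rw [← Kn.ls]
    rw [h1]
    ring
  have hsyq : s * q ≤ y₁ * q := mul_le_mul_of_nonneg_right Kn.y1 hq0.le
  have hρεq : 2 * (ρ * q) + ε * q ≤ q / 2 := by
    have h1 := mul_le_mul_of_nonneg_right hρε hq0.le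
    linarith only [h1]
  obtain ⟨Θ₄, hΘ₄⟩ : ∃ Θ₄ : Fm4 (r + 2), Θ₄ = BvF c r Kd K₁x eG (rG + eG)
      (L (r + 1) (t + -y₁ * q) (t + -y₁ * q) - 2 * ρ * q) (t + -y₁ * q) nb
      (fun k => t + bw k * q) (fun k => L (r + 1) (t + bw k * q) (t + bw k * q) - ρ * q)
      (fun k => L r (t + bw k * q) (t + bw k * q) - L (r + 1) (t + bw k * q) (t + bw k * q) +
        ρ * q) Kl e E rd (fun l => L l (t + -y₁ * q) (t + -y₁ * q)) (max Kd D₀ * max 1 D₀) t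
      (L (r + 1) t t - 2 * ρ * q) := ⟨_, rfl⟩
  rw [← hΘ₄] at hex hupp
  obtain ⟨t1, t2, t3⟩ := hvf R' hκ hs hSα Kn (by
      linarith only [hK', mul_pos hα hy₁]) hCG hGt hGw (fun i hi => hE i (by omega)) (e := e)
    (pN := L (r + 1) (t + -y₁ * q) (t + -y₁ * q) - 2 * ρ * q) (eG := eG) (rG := rG)
    (pa := L (r + 1) t t - 2 * ρ * q) (Nf := fun l j => L l t t + kf * q - (j : ℕ) * t) he0 heφ
    (by linarith only [hρq]) (by
      have h1 := mul_le_mul_of_nonneg_right hρφ hq0.le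
      linarith only [h1]) (by
      have h1 := mul_le_mul_of_nonneg_right hρN hq0.le
      linarith only [h1]) (by linarith only [hdN2, hlamq', hsyq, hρεq]) heG hrG (by
      linarith only [heG1, hKq, hk1q, hCq, h3Xq, hkfq, hαyq, hlamq, hq0]) hrG1.le (Θ₄ := Θ₄)
    (fun J F A V z z' G g hG => by
      rw [hΘ₄] at hG
      exact ⟨hG.2.1, hG.1.1.cls⟩) (fun J F A V z z' G g hG => by
      rw [hΘ₄] at hG
      exact hG.1.1) (fun J F A B V z z' G g hB hG => by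
      rw [hΘ₄] at hG ⊢
      exact BvF.hs J F A B V z z' G g hB hG) (fun J F A V z z' G g hG => by
      rw [hΘ₄] at hG
      exact hG.2.2) hex (fun l _ j _ => rfl) hFx hDr
  refine ⟨S', ThB Θ₄, hne, hsub, t1, ?_, t2, ?_, ?_, fun {y vw N₁ N₂ Rg be E₁ ε₁ a₁} => t3⟩
  · rintro J F A V C z z' G₁ G₂ cc ⟨g, hg⟩
    rw [hΘ₄] at hg
    exact ⟨hg.1.1.deg, hg.1.1.dep, hg.1.1.cls⟩
  · refine Bas.mono 0 hupp ?_
    rintro J - F A H V z z' G hG
    obtain ⟨B, b1, b2, V₁, z₁, z₁', G₁, g, c1, c2⟩ := H V z z' G hG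
    exact ⟨B, b1, b2, V₁, Unit, z₁, z₁', G₁, G₁, fun _ => (), ⟨g, c1⟩, c2⟩
  · intro k hk
    obtain ⟨l, hl, e3⟩ := hbw k hk
    obtain ⟨El, W⟩ := hAW l hl
    rw [e3] at W
    have hXq : 0 < X * q := mul_pos Kn.X0 hq0
    have hρXq : 4 * (ρ * q) ≤ X * q / 2 := by
      have h1 := mul_le_mul_of_nonneg_right hρX hq0.le
      linarith only [h1]
    have hhXq : 8 * (hh * q) ≤ X * q / 2 := by
      have h1 := mul_le_mul_of_nonneg_right hhX hq0.le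
      linarith only [h1]
    have hh4 := mul_le_mul_of_nonneg_right Kn.h4 hq0.le
    have hlow : q ≤ L (r + 1) (t + bw k * q) (t + bw k * q) := by
      have h1 := abs_le.1 (show |Va l| ≤ K' - 1 by linarith only [hVa l hl])
      rw [e3] at h1
      have h2 := mul_le_mul_of_nonneg_right h1.1 hq0.le
      have h3 := mul_le_mul_of_nonneg_right h1.2 hq0.le
      have h4 : q ≤ t + bw k * q := by linarith only [h2, ht0]
      exact h4.trans (R.low_at (by omega) (by linarith only [h4, hq0]) le_rfl (by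
        linarith only [h3, ht1, hq0]))
    have h1 := blf_blB (by norm_num : (0 : ℝ) ≤ 6) R'.tmc (c := c) (r := r) (K := Kd) (K₁ := K₁x)
      (K₂ := Db) (Ku := Db) (e₀ := eG) (ρ₀ := rG + eG)
      (π₀ := L (r + 1) (t + -y₁ * q) (t + -y₁ * q) - 2 * ρ * q) (w := t + -y₁ * q) (n := nb)
      (v := fun k => t + bw k * q)
      (p₁ := fun k => L (r + 1) (t + bw k * q) (t + bw k * q) - ρ * q)
      (x₀ := fun k => L r (t + bw k * q) (t + bw k * q) -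
        L (r + 1) (t + bw k * q) (t + bw k * q) + ρ * q) hk
      (u := L r (t + bw k * q) (t + bw k * q)) W.wu (W.w0.trans W.wu) W.u1 W.fI
      (p := L (r + 1) (t + bw k * q) (t + bw k * q) - 2 * (hh * q))
      (p₂ := L r (t + bw k * q) (t + bw k * q) - 2 * (hh * q))
      (x := L r (t + bw k * q) (t + bw k * q) - L (r + 1) (t + bw k * q) (t + bw k * q) +
          X / 4 * q) (by linarith only [hlow, hh4, hq0])
      (by linarith only [hρXq, hXq]) (by linarith only [hρXq, hXq])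
      (by linarith only [hhXq, hXq])
    refine blb_imp h1 ?_
    rintro J F A V z z' G ⟨C', G₁, cc, g, hg⟩
    rw [hΘ₄] at hg
    exact hg.1

end Pool.ALT
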