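import Pool.Agent.H42.D2.Nrb

/-!
# Closed labels of `N` and one member of the family

`HnX`: on a part of each event with the windows `WG`, one member of the family `Θ` and closed labels of `N` with
the same derivative in the direction `u`, near the chart of the deep window in the natural directions. `RwX`: a
member of the family with the slope of the row label. `hnx_con`: `HnX` from `RwX`.
-/

set_option autoImplicit false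

namespace Pool.V1E

open Finset Real MvPolynomial
open Pool.Agent.H49.Ent Pool.Agent.H32.Dense Pool.STK Pool.KA Pool.KSAT Pool.K2S Pool.PB Pool.S6C
open Pool.GEN Pool.CHT Pool.CHX Pool.ISO Pool.D2R Pool.D2G30 Pool.END18 Pool.D2Con Pool.CR99
open Pool.LBT (ThrOf)
open Pool.LEV (Law)
open Pool.ALT
open Pool.LA91 (pos_bas)
open Pool.BFL (Pb)
open Pool.GRD (LbP)
open Pool.PN18 (Fm2)
open Pool.PB.Trl (rt rt_mem t_rt)

variable {m : ℕ}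

/-- **Closed labels of `N` and one member of the family**, in a class, on a part of mass at least `1 / K₄` of
each event with the windows `WG`: the closed labels have the derivative of the member in the direction
`u = c r`. -/
def HnX (S : PCl m) (c : ℕ → Fin m) (r D Du Dr N N₂ : ℕ) (R : ℕ → Prop)
    (C a Eb ε₀ η₀ χ mb : ℝ) (Pt : ℝ → ℝ → ℝ) (o : ℕ → ℝ) (lv be : ℕ → ℕ → ℝ) (κ K₄ : ℝ)
    (Θ : Fm2 m) (w : ℝ) : Prop :=
  Bas S (fun J F B => ∀ (b : ℕ → ℕ → ℝ) (z : ℕ → ℕ → ℕ) (gc gT g₀ : ℕ → ℕ → ℕ)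
    (G : ℕ → PtT F → ℕ → MvPolynomial (Option (Fin m)) ℝ)
    (H : ℕ → LnT F → ℕ → MvPolynomial (Option (Fin m)) ℝ)
    (T : ℕ → PtT F → ℕ → MvPolynomial (Option (Fin m)) ℝ)
    (TH : ℕ → LnT F → ℕ → MvPolynomial (Option (Fin m)) ℝ)
    (Gt : ℕ → PtT F → MvPolynomial (Option (Fin m)) ℝ)
    (Ht : ℕ → LnT F → MvPolynomial (Option (Fin m)) ℝ),
    WG c (r + 1) D Dr N N₂ R C a Eb ε₀ η₀ Pt o lv be F b κ z B gc gT g₀ G H T TH Gt Ht →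
    ∃ (B₂ : F.Ω → Prop) (TN : LnT F → MvPolynomial (Option (Fin m)) ℝ) (V Cc : Type)
      (y : PtT F → V) (y' : LnT F → V) (G₁ G₂ : V → MvPolynomial (Option (Fin m)) ℝ)
      (cc : LnT F → Cc), Sub B₂ B ∧
      Pe F.p B ≤ K₄ * Pe F.p B₂ ∧ Θ J F B₂ V Cc y y' G₁ G₂ cc ∧ (∀ L, (TN L).totalDegree ≤ Du) ∧
      (∀ L, DepC c (r + 1) (TN L)) ∧
      (∀ ω, B₂ ω → |eval (bt F ω) (pderiv (some (c r)) (TN (slam F ⌊o 0 * J⌋₊ ω))) -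
        eval (bt F ω) (pderiv (some (c r)) (G₂ (y' (slam F ⌊w * J⌋₊ ω))))| ≤
        2 ^ (⌊lv 0 r * J⌋₊ + ⌊χ * J⌋₊) /
          2 ^ (⌊lv 0 (r + 1) * J⌋₊ + (⌊mb * J⌋₊ - (⌊o 3 * J⌋₊ - ⌊o 0 * J⌋₊)))) ∧
      ∀ ω, B₂ ω → ∀ V : Option (Fin m) → ℝ, V none = 0 →
        (∀ j < r, |V (some (c j)) - dd (G 2 (ptr F J ω) j) (bt F ω) V| ≤
          1 / 2 ^ ⌊lv 0 j * J⌋₊) →
        ∀ v : ℝ, v = dd (TH 1 (slam F ⌊o 1 * J⌋₊ ω) r) (bt F ω) V →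
        |dd (TN (slam F ⌊o 0 * J⌋₊ ω)) (bt F ω) (up (c r) V v) -
          dd (Hno (c (r + 1)) (fun s => H 1 s (r + 1)) (slam F ⌊o 1 * J⌋₊ ω)) (bt F ω)
            (up (c r) V v)| ≤
          2 ^ ⌊χ * J⌋₊ /
            2 ^ (⌊lv 0 (r + 1) * J⌋₊ + (⌊mb * J⌋₊ - (⌊o 3 * J⌋₊ - ⌊o 0 * J⌋₊))))

/-- **A member of the family with the slope of the row label**: the windows `WG` with the windows `o' k`,
`k ≤ N'`, and a member of the family `Θ` whose derivative in the direction `u = c r` is the one of the row label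
of the window `o' i` up to `2 ^ (x₁ J)`, on a part of mass at least `1 / K₁` of each event. -/
def RwX (S : PCl m) (P : List (Fin m) × Fin m → ℝ → ℝ → ℝ) (c : ℕ → Fin m) (r Du D₂ N' i : ℕ)
    (Rw : ℕ → Prop) (C' au Eu ε₀ η' : ℝ) (Pt : ℝ → ℝ → ℝ) (o' : ℕ → ℝ) (be' b' : ℕ → ℕ → ℝ)
    (κ' K₁ : ℝ) (Θ : Fm2 m) (w x₁ : ℝ) : Prop :=
  Bas S (fun J F A => ∃ (B : F.Ω → Prop) (z gc gT g₀ : ℕ → ℕ → ℕ)
      (G : ℕ → PtT F → ℕ → MvPolynomial (Option (Fin m)) ℝ)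
      (H : ℕ → LnT F → ℕ → MvPolynomial (Option (Fin m)) ℝ)
      (T : ℕ → PtT F → ℕ → MvPolynomial (Option (Fin m)) ℝ)
      (TH : ℕ → LnT F → ℕ → MvPolynomial (Option (Fin m)) ℝ)
      (Gt : ℕ → PtT F → MvPolynomial (Option (Fin m)) ℝ)
      (Ht : ℕ → LnT F → MvPolynomial (Option (Fin m)) ℝ), Sub B A ∧
      Pe F.p A ≤ K₁ * Pe F.p B ∧
      WG c (r + 1) Du D₂ N' N' Rw C' au Eu ε₀ η' Pt o'
        (fun k l => lvN P c (r + 1) Pt l (o' k) (o' k)) be' F b' κ' z B gc gT g₀ G H T TH Gt Ht ∧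
      ∃ (V Cc : Type) (y : PtT F → V) (y' : LnT F → V)
        (G₁ G₂ : V → MvPolynomial (Option (Fin m)) ℝ) (cc : LnT F → Cc),
        Θ J F B V Cc y y' G₁ G₂ cc ∧
        ∀ ω, B ω → |eval (bt F ω) (pderiv (some (c r)) (Ht i (slam F ⌊o' i * J⌋₊ ω))) -
          eval (bt F ω) (pderiv (some (c r)) (G₂ (y' (slam F ⌊w * J⌋₊ ω))))| ≤ 2 ^ (x₁ * J))

/-- **Closed labels of `N` and one member of the family**, from a member of the family with the slope of the row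
label of the window `o' i`, closed there. -/
theorem hnx_con (r D₂ : ℕ) (hD₂ : 1 ≤ D₂) : ∀ D : ℕ, D ≤ D₂ →
    ∀ C : ℝ, 1 ≤ C → ∃ C₁ : ℝ, 1 ≤ C₁ ∧ ∀ {m : ℕ} {S : PCl m}
    {P : List (Fin m) × Fin m → ℝ → ℝ → ℝ} {c : ℕ → Fin m} {Pt : ℝ → ℝ → ℝ} {R Rw : ℕ → Prop}
    {a au Eb Eu ε₁ ε₀ η₀ η' χ mb w x₁ C' K₁ : ℝ} {o o' : ℕ → ℝ} {lv be be' b' : ℕ → ℕ → ℝ}
    {Θ : Fm2 m} {Du : ℕ} (Dr N N₂ N' i j : ℕ), 1 ≤ N → 3 ≤ N₂ → Du ≤ D₂ → i ≤ N' → j ≤ N' →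
    o' j = o 1 → 0 < K₁ → Set.InjOn c (Set.Iio (r + 2)) →
    (∀ l < r + 1, Rw l) → 1 ≤ C' → 0 < η' → C' * η' ≤ η₀ → C₁ * η₀ ≤ χ →
    C₁ * η₀ ≤ Pt au (o' i) → o 1 + C₁ * η₀ ≤ au → au ≤ 1 →
    (∀ l < r, R l) → 3 * (C * η₀) ≤ Pt a (o 0) → 0 ≤ lv 0 (r + 1) → 0 ≤ lv 0 r →
    o 1 + 4 * (C * η₀) ≤ a →
    a ≤ 1 → (¬ R r → lv 1 r + (a - o 1) ≤ be 1 r + η₀) →
    mb + (o 3 - o 0) < o 0 - o 2 → o 3 - o 0 < mb → η₀ ≤ o 3 - o 0 → η₀ ≤ o 1 - o 3 →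
    (∀ k ≤ 3, ∀ j < r, |lv k j - o k - (lv 0 j - o 0)| ≤ η₀) →
    lv 0 r + (o 3 - o 0) ≤ lv 3 r + η₀ → lv 3 r + (o 1 - o 3) ≤ lv 1 r + η₀ →
    lv 0 (r + 1) + mb ≤ lv 3 (r + 1) + η₀ →
    lv 0 (r + 1) + (o 1 - o 0) + (mb - (o 3 - o 0)) ≤ lv 1 (r + 1) + η₀ →
    lv 0 (r + 1) + (a - o 0) + (mb - (o 3 - o 0)) ≤ Pt a (o 0) + η₀ →
    (∀ l ≤ r + 1, lv 1 l = lvN P c (r + 1) Pt l (o 1) (o 1)) →
    (∀ l ≤ r, o 1 - o 0 + C₁ * η₀ ≤ lv 1 l) →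
    lv 1 (r + 1) + (au - o 1) ≤ Pt au (o' i) + η₀ → o' i ≤ o 0 → 0 ≤ o' i →
    x₁ + (mb - (o 3 - o 0)) + lv 0 (r + 1) + η₀ ≤ lv 0 r + χ →
    (∀ (J : ℕ) (F : Fam m J) (A B : F.Ω → Prop) (V C : Type) (z : PtT F → V)
      (z' : LnT F → V) (G₁ G₂ : V → MvPolynomial (Option (Fin m)) ℝ) (cc : LnT F → C), Sub B A →
      Θ J F A V C z z' G₁ G₂ cc → Θ J F B V C z z' G₁ G₂ cc) →
    RwX S P c r Du D₂ N' i Rw C' au Eu ε₀ η' Pt o' be' b' (1 / (8 * 16 ^ (r + 1))) K₁ Θ w x₁ →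
    ∀ κ : ℝ, HnX S c r D Du Dr N N₂ R C a Eb ε₁ η₀ χ mb Pt o lv be κ (K₁ * (4 * 16 ^ (r + 1)))
      Θ w := by
  classical
  intro D hD2 C hC
  obtain ⟨C₂, hC₂, htn⟩ := tn_dd D₂ (r + 1) hD₂
  obtain ⟨C₃, hnup⟩ := nvp_nup D r
  have hC₂R : (1 : ℝ) ≤ C₂ := by exact_mod_cast hC₂
  have hC₃R : (0 : ℝ) ≤ C₃ := Nat.cast_nonneg _
  have hC0 : 0 < C := by linarith
  obtain ⟨C₁, hC₁⟩ : ∃ C₁ : ℝ, C₁ = C₂ * (7 * C + 12) + C₃ * (7 * C + 4) + 12 := ⟨_, rfl⟩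
  have hC2C : 0 ≤ C₂ * (7 * C + 12) := by positivity
  have hC3C : 0 ≤ C₃ * (7 * C + 4) := by positivity
  refine ⟨C₁, by linarith, ?_⟩
  intro m S P c Pt R Rw a au Eb Eu ε₁ ε₀ η₀ η' χ mb w x₁ C' K₁ o o' lv be be' b' Θ Du Dr N N₂ N' i j
    hN hN₂ hDu2 hi hj hoj hK₁ hinj hRw hC' hη' hCη' hχ hwP hwo hau hR hPt0 hl0 hl0r hoa ha1 hbe h01
    h12 h12' h23 hn hu2 hu3 h2 h3 hPa hlv1 hd1 hrw hbo hb0 hA3 hΘs hex κ
  have hC'0 : 0 < C' := by linarith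
  have hη'C : η' ≤ C' * η' := le_mul_of_one_le_left hη'.le hC'
  have hη0 : 0 < η₀ := lt_of_lt_of_le (by positivity) hCη'
  have hCη : 12 * η₀ ≤ C₁ * η₀ := mul_le_mul_of_nonneg_right (by linarith) hη0.le
  have hmb0 : 0 ≤ mb := by linarith
  obtain ⟨κ', hκ'⟩ : ∃ κ' : ℝ, κ' = 1 / (8 * 16 ^ (r + 1)) := ⟨_, rfl⟩
  have hκ'0 : 0 < κ' := by rw [hκ']; positivity
  have hκ'1 : κ' * (8 * 16 ^ (r + 1)) ≤ 1 := by
    rw [hκ', one_div_mul_eq_div, div_self (by positivity)]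
  rw [← hκ'] at hex
  -- the vectors of the frame
  obtain ⟨χ', hχ'⟩ : ∃ χ' : ℝ, χ' = (7 * C + 4) * η₀ := ⟨_, rfl⟩
  have hχ'0 : 0 ≤ χ' := by rw [hχ']; positivity
  obtain ⟨J₀, hnv⟩ := wg_nvp (D := D) (Dr := Dr) (N := N) (N₂ := N₂) (R := R) (C := C) (a := a)
    (Eb := Eb) (ε₀ := ε₁) (η₀ := η₀) (ζ := η₀) (χ := χ') (mb := mb) (Pt := Pt) (o := o) (lv := lv)
    (be := be) hN hN₂ hinj hR hC hη0 hPt0 (by
      have := hd1 r le_rfl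
      linarith [h3]) hoa ha1 hbe h01 h12 h12' h23 hη0.le (by
      rw [hχ']
      have : (7 * C + 4) * η₀ = 7 * (C * η₀) + 4 * η₀ := by ring
      linarith) hn hu2 hu3 h2 h3 hPa
  have big : ∀ {x y : ℝ}, 0 < x → ∃ J₀ : ℕ, ∀ J : ℕ, J₀ ≤ J → y ≤ x * J := by
    intro x y hx
    refine ⟨⌈y / x⌉₊, fun J hJ => ?_⟩
    have h1 : y / x ≤ J := (Nat.le_ceil _).trans (by exact_mod_cast hJ)
    rw [div_le_iff₀ hx] at h1
    linarith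
  obtain ⟨J₁, hJ₁⟩ := big (x := η₀) (y := 7 * C₂ + C₃ + 20) hη0
  refine Bas.mono (max J₀ J₁) hex ?_
  rintro J hJ F A w1 b z gc gT g₀ G H T TH Gt Ht W
  have j1 := hJ₁ J (by omega)
  obtain ⟨B', z', gc', gT', g₀', G', H', T', TH', Gt', Ht', hB', hPB', W', V, Cc, zz, zz', G₁, G₂,
    cc, hΘ, hsl⟩ := w1
  have hJ0 : (0 : ℝ) ≤ J := Nat.cast_nonneg J
  have mulJ : ∀ {x y : ℝ}, x ≤ y → x * J ≤ y * J := fun h => mul_le_mul_of_nonneg_right h hJ0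
  obtain ⟨E, hE⟩ : ∃ E : ℝ, E = η₀ * J := ⟨_, rfl⟩
  have hE0 : 0 ≤ E := by rw [hE]; exact mul_nonneg hη0.le hJ0
  rw [← hE] at j1
  obtain ⟨E₁, hE₁⟩ : ∃ E₁ : ℝ, E₁ = C' * (η' * J) := ⟨_, rfl⟩
  have hE₁0 : 0 ≤ E₁ := by rw [hE₁]; positivity
  have hE₁E : E₁ ≤ E := by
    have := mulJ hCη'
    rw [hE₁, hE]
    linarith
  have hηE : η' * J ≤ E := by
    have := mulJ (hη'C.trans hCη')
    rw [hE]
    exact this
  have hoN := W.win.ho 1 hN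
  have ho00 : 0 ≤ o 0 := hb0.trans hbo
  have ho01 : o 0 ≤ o 1 := by linarith
  have ho1 : 0 ≤ o 1 := hoN.1
  have hb1o : o' i ≤ o 1 := hbo.trans ho01
  have ho1au : o 1 ≤ au := by linarith
  have hau0 : 0 ≤ au := ho1.trans ho1au
  -- the windows
  obtain ⟨aN, haN⟩ : ∃ n : ℕ, n = ⌊o 1 * J⌋₊ := ⟨_, rfl⟩
  obtain ⟨tN, htN⟩ : ∃ n : ℕ, n = ⌊o' i * J⌋₊ := ⟨_, rfl⟩
  obtain ⟨uN, huN⟩ : ∃ n : ℕ, n = ⌊au * J⌋₊ := ⟨_, rfl⟩
  obtain ⟨n0, hn0⟩ : ∃ n : ℕ, n = ⌊o 0 * J⌋₊ := ⟨_, rfl⟩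
  have htaN : tN ≤ aN := by rw [htN, haN]; exact Nat.floor_le_floor (mulJ hb1o)
  have hauN : aN ≤ uN := by rw [haN, huN]; exact Nat.floor_le_floor (mulJ ho1au)
  have hn0a : n0 ≤ aN := by rw [hn0, haN]; exact Nat.floor_le_floor (mulJ ho01)
  have hau1 := hau
  have huJ : uN ≤ J := by
    rw [huN]
    have := Nat.floor_le_floor (mulJ hau)
    rw [one_mul, Nat.floor_natCast] at this
    exact this
  have fa := flo (mul_nonneg ho1 hJ0)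
  have fu := flo (mul_nonneg hau0 hJ0)
  have ft := flo (mul_nonneg hb0 hJ0)
  have f0 := flo (mul_nonneg ho00 hJ0)
  rw [← haN] at fa
  rw [← huN] at fu
  rw [← htN] at ft
  rw [← hn0] at f0
  -- the exponents
  obtain ⟨h, hh⟩ : ∃ h : ℕ, h = ⌊η' * J⌋₊ := ⟨_, rfl⟩
  obtain ⟨u', hu'⟩ : ∃ u : ℕ, u = ⌊C' * (η' * J)⌋₊ := ⟨_, rfl⟩
  obtain ⟨x', hx'⟩ : ∃ x : ℕ, x = ⌊χ' * J⌋₊ := ⟨_, rfl⟩
  obtain ⟨u, hu⟩ : ∃ u : ℕ, u = u' + x' := ⟨_, rfl⟩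
  obtain ⟨xx, hxx⟩ : ∃ x : ℕ, x = ⌊6 * E⌋₊ := ⟨_, rfl⟩
  obtain ⟨x, hx⟩ : ∃ x : ℕ, x = xx + 6 := ⟨_, rfl⟩
  obtain ⟨d, hd⟩ : ∃ d : ℕ, d = C₃ * (x' + 1) + (aN - n0) := ⟨_, rfl⟩
  have fh := flo (show 0 ≤ η' * (J : ℝ) by positivity)
  have fC := flo (show 0 ≤ C' * (η' * (J : ℝ)) by rw [← hE₁]; exact hE₁0)
  have fx := flo (by positivity : (0 : ℝ) ≤ 6 * E)
  have fx' := flo (mul_nonneg hχ'0 hJ0)
  rw [← hxx] at fx
  rw [← hh] at fh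
  rw [← hu'] at fC
  rw [← hx'] at fx'
  rw [← hE₁] at fC
  have hxR : (x : ℝ) = xx + 6 := by rw [hx]; push_cast; ring
  have fx2 : 6 * E + 5 ≤ x := by linarith only [hxR, fx.2]
  have fx1 : (x : ℝ) ≤ 6 * E + 6 := by linarith only [hxR, fx.1]
  have hxE : (x' : ℝ) ≤ (7 * C + 4) * E := by
    have : χ' * J = (7 * C + 4) * E := by rw [hχ', hE]; ring
    linarith only [this, fx'.1]
  have huR : (u : ℝ) = u' + x' := by rw [hu]; push_cast; ring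
  have hχJ : C₁ * E ≤ χ * J := by
    have := mulJ hχ
    rw [hE]
    linarith only [this]
  -- the two systems at the deep window
  have hnv' := hnv J (by omega) F b κ z (fun _ => ⌊mb * J⌋₊ + (⌊o 3 * J⌋₊ - ⌊o 0 * J⌋₊)) A gc gT
    g₀ G H T TH Gt Ht (fun _ => le_rfl) W
  have E1 := W'.win.evs j hj
  have hball := E1.ball
  have hrel := E1.relb
  rw [hoj, ← haN] at hball hrel
  have N1 := fun l (hl : l ≤ r + 1) => W'.win.g_num (k := j) hj hl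
  have N2 := fun l (hl : l < r + 1) => (W'.win.t_num (k := j) hj hl).1 (hRw l hl)
  simp only [hoj] at N1 N2
  rw [← haN, ← huN] at N1 N2
  have hN1' : 1 ≤ N₂ := by omega
  have N4 := fun l (hl : l ≤ r + 1) => W.wb.g_num (k := 1) (l := l) hN1' hl
  -- the row label, against the deep window
  obtain ⟨P1, hP1⟩ : ∃ y : ℝ, y = (Pt au (o' i) - 2 * (C' * η')) * J - C' * (η' * J) := ⟨_, rfl⟩
  obtain ⟨P2, hP2⟩ : ∃ y : ℝ, y = (gc' j (r + 1) : ℝ) - C' * (η' * J) := ⟨_, rfl⟩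
  have e1P : (Pt au (o' i) - 2 * (C' * η')) * J - C' * (η' * J) = Pt au (o' i) * J - 3 * E₁ := by
    rw [hE₁]; ring
  have hP10 : 0 ≤ P1 := by
    have h2 : 12 * η₀ * J ≤ Pt au (o' i) * J := mulJ (by linarith)
    have h3 : 12 * η₀ * J = 12 * E := by rw [hE]; ring
    rw [hP1, e1P]
    linarith only [h2, h3, hE₁E, hE0]
  have hP20 : 0 ≤ P2 := by
    have h1 := W'.win.hgr j hj
    rw [hP2]
    linarith only [h1]
  obtain ⟨p, hp⟩ : ∃ p : ℕ, p = ⌊min P1 P2⌋₊ := ⟨_, rfl⟩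
  have fp := flo (le_min hP10 hP20)
  rw [← hp] at fp
  have hpP1 : (p : ℝ) ≤ P1 := fp.1.trans (min_le_left _ _)
  have hpP2 : (p : ℝ) ≤ P2 := fp.1.trans (min_le_right _ _)
  have hrow := W'.win.row i hi j hj (by rw [hoj]; exact hb1o) p (by
      rw [hP1] at hpP1
      linarith only [hpP1]) (by
      rw [hP2] at hpP2
      linarith only [hpP2])
  rw [hoj, ← haN, ← htN, ← huN, ← hu'] at hrow
  have cst : ∀ {i j : ℕ}, (i : ℝ) ≤ j → i ≤ j := fun h => by exact_mod_cast h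
  have caN : ((uN - aN : ℕ) : ℝ) = uN - aN := by rw [Nat.cast_sub hauN]
  have can : ((aN - n0 : ℕ) : ℝ) = aN - n0 := by rw [Nat.cast_sub hn0a]
  have hdR : (d : ℝ) = C₃ * (x' + 1) + (aN - n0) := by
    rw [hd]
    push_cast
    rw [can]
  have hC3x : (C₃ : ℝ) * (x' + 1) ≤ C₃ * (7 * C + 4) * E + C₃ := by
    have := mul_le_mul_of_nonneg_left hxE hC₃R
    linarith only [this]
  -- the comparisons of the sides
  have q1 : ∀ l < r + 1, gT' j l ≤ g₀' j l + (uN - aN) + x := fun l hl => by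
    refine cst ?_
    push_cast
    rw [caN]
    have h1 := (N2 l hl).2
    have h2 := (N1 l hl.le).2.2.1
    linarith only [h1, h2, fx2, hE₁0, hE₁E, hηE, hE₁, hE0]
  have q2 : ∀ l < r + 1, g₀' j l ≤ g₀ 1 l + x := fun l hl => by
    refine cst ?_
    push_cast
    have h1 := (N1 l hl.le).2.2.2.1
    have h2 := (N4 l hl.le).2.2.1
    rw [hlv1 l hl.le] at h2
    linarith only [h1, h2, fx2, hE₁0, hE₁E, hηE, hE, hE0]
  have q3 : ∀ l ≤ r + 1, g₀ 1 l ≤ g₀' j l + x := fun l hl => by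
    refine cst ?_
    push_cast
    have h1 := (N1 l hl).2.2.1
    have h2 := (N4 l hl).2.2.2
    rw [hlv1 l hl] at h2
    linarith only [h1, h2, fx2, hE₁0, hE₁E, hηE, hE, hE0]
  have q4 : g₀ 1 (r + 1) + (uN - aN) ≤ p + x := by
    refine cst ?_
    push_cast
    rw [caN]
    have h1 := (N4 (r + 1) le_rfl).2.2.2
    have hA : (g₀ 1 (r + 1) : ℝ) + (uN - aN) ≤ P1 + 3 * E + 2 * E + 2 := by
      rw [hP1, e1P]
      have h2 := mulJ hrw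
      linarith only [h1, h2, fu.1, fa.2, hE, hE₁E, hE0]
    have hB : (g₀ 1 (r + 1) : ℝ) + (uN - aN) ≤ P2 + 4 * E + 1 := by
      have h2 := (N1 (r + 1) le_rfl).2.2.2.2.1
      rw [hP2, ← hE₁]
      rw [hlv1 _ le_rfl] at h1
      linarith only [h1, h2, hE, hE₁E, hηE, hE0]
    have hC : (g₀ 1 (r + 1) : ℝ) + (uN - aN) ≤ min P1 P2 + 5 * E + 2 := by
      rcases min_choice P1 P2 with h | h <;> rw [h] <;> linarith only [hA, hB, hE0]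
    linarith only [hC, fx2, fp.2, hE0]
  have q5 : ∀ l < r + 1, d ≤ g₀ 1 l := fun l hl => by
    refine cst ?_
    rw [hdR]
    have h1 := (N4 l hl.le).2.2.1
    have h2 := mulJ (hd1 l (by omega))
    have h3 : C₁ * η₀ * J = C₂ * (7 * C + 12) * E + C₃ * (7 * C + 4) * E + 12 * E := by
      rw [hC₁, hE]
      ring
    have h4 : 0 ≤ C₂ * (7 * C + 12) * E := mul_nonneg hC2C hE0
    linarith only [h1, h2, h3, h4, hC3x, fa.1, f0.2, hE, j1, hC₂R, hC₃R]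
  have hBB : Sub B' A := hB'
  have hch3 := hnv'.ch3
  have hro3 := hnv'.ro
  have hcl1 := (W.wb.ev 1 hN1').cls
  rw [← haN] at hcl1
  have hf3 : fr4 3 = 1 := rfl
  have hf0 : fr4 0 = 2 := rfl
  obtain ⟨B₂, c1, c2, c3⟩ := htn (F := F) (c := c) (tN := tN) (aN := aN) (v := uN - aN) (p := p)
    (h := h) (u := u) (x := x) (d := d) (g₀ := g₀ 1) (g₁ := g₀' j) (gT' := gT' j)
    (κ := κ') (B₀ := B') (G' := G' j) (H' := H' j) (T' := T' j) (TH' := TH' j) (Ht := Ht' i)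
    (G := G 1) (H := H 1) hinj (by omega) hκ'0.le hκ'1
    (hball.mono le_rfl (fun _ => hDu2) le_rfl le_rfl) (by rw [hh]; exact hrel)
    (hrow.mono le_rfl (by positivity) (pow_le_pow_right₀ (by norm_num) (by omega)))
    (fun l hl => ⟨q1 l hl, (E1.rgh l hl (hRw l hl)).2.2⟩)
    (by
      have h5 := (hch3.sub hBB).mono le_rfl (fun _ => hD2) le_rfl le_rfl
      rw [haN]
      exact h5) (hcl1.sub hBB)
    (fun ω hω V => by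
      have h5 := (hro3.dif ω (hBB ω hω) (r + 1) le_rfl).1 V
      rw [haN]
      refine h5.trans (mul_le_mul_of_nonneg_right (div_le_div_of_nonneg_right
        (pow_le_pow_right₀ (by norm_num) ?_) (by positivity)) (nrm_nonneg _ _ _ _ _ _ _))
      omega)
    q2 q3 q4 q5
  obtain ⟨f1, f2⟩ := floorw hbo (ho01.trans (ho1au.trans hau)) J
  have hn0J : n0 ≤ J := by rw [hn0]; exact f2
  have htn0 : tN ≤ n0 := by rw [htN, hn0]; exact f1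
  have k0r := Nat.lt_floor_add_one (lv 0 r * (J : ℝ))
  have kχ := Nat.lt_floor_add_one (χ * (J : ℝ))
  have k0 := flo (mul_nonneg hl0 hJ0)
  have kmb := flo (mul_nonneg hmb0 hJ0)
  have ho3 : 0 ≤ o 3 := by linarith only [ho00, h12', hη0]
  have k3 := flo (mul_nonneg ho3 hJ0)
  have h03N : ⌊o 0 * (J : ℝ)⌋₊ ≤ ⌊o 3 * (J : ℝ)⌋₊ :=
    Nat.floor_le_floor (mulJ (by linarith only [h12', hη0]))
  obtain ⟨Q, hQ⟩ : ∃ Q : ℕ, Q = ⌊mb * J⌋₊ - (⌊o 3 * J⌋₊ - ⌊o 0 * J⌋₊) := ⟨_, rfl⟩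
  have hQb : (Q : ℝ) ≤ (mb - (o 3 - o 0)) * J + 1 := by
    rcases le_total ⌊mb * (J : ℝ)⌋₊ (⌊o 3 * (J : ℝ)⌋₊ - ⌊o 0 * (J : ℝ)⌋₊) with h6 | h6
    · rw [hQ, Nat.sub_eq_zero_of_le h6, Nat.cast_zero]
      have := mulJ (show 0 ≤ mb - (o 3 - o 0) by linarith only [h12])
      linarith only [this]
    · rw [hQ, Nat.cast_sub h6, Nat.cast_sub h03N, ← hn0]
      linarith only [k3.2, f0.1, kmb.1]
  have E0 := W'.win.evs i hi
  refine ⟨B₂, wz (fun s => Ht' i s) tN n0, V, Cc, zz, zz', G₁, G₂, cc,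
    fun ω hω => hBB ω (c1 ω hω), ?_, hΘs J F B' B₂ V Cc zz zz' G₁ G₂ cc c1 hΘ,
    fun L => E0.dH _, fun L => E0.pH _, fun ω hω => ?_, fun ω hω U hU0 hU v hv => ?_⟩
  · calc Pe F.p A ≤ K₁ * Pe F.p B' := hPB'
      _ ≤ K₁ * (4 * 16 ^ (r + 1) * Pe F.p B₂) := mul_le_mul_of_nonneg_left c2 hK₁.le
      _ = _ := by ring
  · -- the direction `u`
    rw [← hQ, ← hn0, wz_slam (fun s => Ht' i s) htn0 hn0J]
    have hs1 := hsl ω (c1 ω hω)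
    rw [← htN] at hs1
    refine hs1.trans ?_
    have h5 : (2 : ℝ) ^ (⌊lv 0 r * J⌋₊ + ⌊χ * J⌋₊) / 2 ^ (⌊lv 0 (r + 1) * J⌋₊ + Q) =
        (2 : ℝ) ^ (((⌊lv 0 r * J⌋₊ + ⌊χ * J⌋₊ : ℕ) : ℝ) -
          ((⌊lv 0 (r + 1) * J⌋₊ + Q : ℕ) : ℝ)) := by
      rw [Real.rpow_sub (by norm_num), Real.rpow_natCast, Real.rpow_natCast]
    rw [h5]
    refine Real.rpow_le_rpow_of_exponent_le (by norm_num) ?_
    push_cast
    have m1 := mulJ hA3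
    linarith only [m1, k0.1, hQb, k0r, kχ, hE, j1, hC₂R, hC₃R]
  · -- the natural directions
    rw [← hQ, ← hn0, wz_slam (fun s => Ht' i s) htn0 hn0J, ← haN]
    have hω2 := hω
    have hω' := c1 ω hω2
    have hUr : ∀ j < r, |U (some (c j)) - dd (G (fr4 0) (ptr F J ω) j) (bt F ω) U| ≤
        1 / 2 ^ sN (lv 0) J r j := fun j hj => by
      rw [hf0, sN_lt hj]
      exact hU j hj
    have hnn := hnup hnv' ω (hBB ω hω') U hU0 hUr v (by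
      show v = dd (TH (fr4 3) (slam F ⌊o (fr4 3) * J⌋₊ ω) r) (bt F ω) U
      rw [hf3]
      exact hv)
    have hnn' : nrm c (G 1 (ptr F J ω)) (g₀ 1) aN (r + 1) (bt F ω) (up (c r) U v) ≤ 2 ^ d := by
      rw [hd, haN, hn0, hx']
      exact hnn
    have hfin := c3 ω hω2 (up (c r) U v) (by rw [up_none]; exact hU0) hnn'
    refine hfin.trans ?_
    have e5 : (2 : ℝ) ^ (C₂ * (h + x + u + 1)) * (2 ^ d / 2 ^ g₀ 1 (r + 1)) =
        2 ^ (C₂ * (h + x + u + 1) + d) / 2 ^ g₀ 1 (r + 1) := by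
      rw [pow_add]
      ring
    rw [e5]
    refine p2_le' ?_
    refine cst ?_
    push_cast
    rw [hdR]
    have g1 := (N4 (r + 1) le_rfl).2.2.1
    have m1 := mulJ h3
    have hC1E : C₁ * E = C₂ * (7 * C + 12) * E + C₃ * (7 * C + 4) * E + 12 * E := by
      rw [hC₁]
      ring
    have m2 : (C₂ : ℝ) * (h + x + u + 1) ≤ C₂ * ((7 * C + 12) * E + 7) := by
      refine mul_le_mul_of_nonneg_left ?_ (by linarith only [hC₂R])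
      rw [huR]
      linarith only [fh.1, fx1, fC.1, hxE, hE₁E, hηE]
    have m3 : (C₂ : ℝ) * ((7 * C + 12) * E + 7) = C₂ * (7 * C + 12) * E + 7 * C₂ := by ring
    linarith only [g1, m1, m2, m3, hC1E, hC3x, fa.1, f0.2, k0.1, hQb, kχ, hχJ, hE, j1, hC₂R,
      hC₃R, hE0]

end Pool.V1E
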