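import Pool.Agent.H73.D2.Ttd
import Pool.Agent.H92.ALT.Sl7
import Pool.Agent.H92.ALT.Sl8

/-!
# The slope hypothesis with a closed gradient, from one member of the family

`NwX`: the data `NwCU` of any member of the family. `slhX_cl`: `SlHU` with a closed gradient from `HnX` and `NwX`.
`recNy_slhX`: at one scale. `nwx_rec`: `NwX` at the scale of a record.
-/

set_option autoImplicit false

namespace Pool.V1E

open Finset Real MvPolynomial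
open Pool.Agent.H49.Ent Pool.Agent.H32.Dense Pool.STK Pool.KA Pool.KSAT Pool.K2S Pool.PB Pool.S6C
open Pool.GEN Pool.CHT Pool.CHX Pool.ISO Pool.D2R Pool.D2G30 Pool.END18 Pool.D2Con Pool.CR99
open Pool.LBT (ThrOf)
open Pool.LEV (Law)
open Pool.ALT
open Pool.PN18 (Fm2)

variable {m : ℕ}

/-- **The data** `NwCU` **of every member of the family**, in a class. -/
def NwX (S : PCl m) (c : ℕ → Fin m) (r D Dw Dr N N₂ : ℕ) (R : ℕ → Prop) (C a Eb ε₀ η₀ χ mb : ℝ)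
    (Pt : ℝ → ℝ → ℝ) (o : ℕ → ℝ) (lv be : ℕ → ℕ → ℝ) (κ : ℝ) (Θ : Fm2 m) (w : ℝ) : Prop :=
  Bas S (fun J F B => ∀ (V Cc : Type) (y : PtT F → V) (y' : LnT F → V)
    (G₁ G₂ : V → MvPolynomial (Option (Fin m)) ℝ) (cc : LnT F → Cc), Θ J F B V Cc y y' G₁ G₂ cc →
    ∀ (b : ℕ → ℕ → ℝ) (z : ℕ → ℕ → ℕ) (gc gT g₀ : ℕ → ℕ → ℕ)
    (G : ℕ → PtT F → ℕ → MvPolynomial (Option (Fin m)) ℝ)
    (H : ℕ → LnT F → ℕ → MvPolynomial (Option (Fin m)) ℝ)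
    (T : ℕ → PtT F → ℕ → MvPolynomial (Option (Fin m)) ℝ)
    (TH : ℕ → LnT F → ℕ → MvPolynomial (Option (Fin m)) ℝ)
    (Gt : ℕ → PtT F → MvPolynomial (Option (Fin m)) ℝ)
    (Ht : ℕ → LnT F → MvPolynomial (Option (Fin m)) ℝ),
    WG c (r + 1) D Dr N N₂ R C a Eb ε₀ η₀ Pt o lv be F b κ z B gc gT g₀ G H T TH Gt Ht →
    ∃ B₂ : F.Ω → Prop, Sub B₂ B ∧ Pe F.p B ≤ 8 * Pe F.p B₂ ∧
      NwCU F c r Dw ⌊mb * J⌋₊ (⌊o 3 * J⌋₊ - ⌊o 0 * J⌋₊) ⌊χ * J⌋₊ ⌊lv 0 r * J⌋₊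
        ⌊lv 0 (r + 1) * J⌋₊ (fun k => ⌊o (fr4 k) * J⌋₊) (fun k => g₀ (fr4 k)) B₂
        (fun k => G (fr4 k)) (Ht 0) (fun L => G₂ (wz y' ⌊w * J⌋₊ ⌊o 0 * J⌋₊ L))
        (fun x => G₂ (y x)))

/-- **The slope hypothesis with a closed gradient**, from closed labels of `N` and one member of the family. -/
theorem slhX_cl (Dw r : ℕ) : ∃ CT : ℕ, ∀ {m : ℕ} {S : PCl m} {c : ℕ → Fin m} {D Du Dr N N₂ : ℕ}
    {R : ℕ → Prop} {C a Eb ε₀ η₀ ζ χ mb : ℝ} {Pt : ℝ → ℝ → ℝ} {o : ℕ → ℝ} {lv be : ℕ → ℕ → ℝ}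
    {κ κ₁ K₄ w : ℝ} {Θ : Fm2 m}, 1 ≤ N → 3 ≤ N₂ → D ≤ Dw → Du ≤ Dw →
    Set.InjOn c (Set.Iio (r + 2)) → (∀ l < r, R l) → 1 ≤ C → 0 < η₀ →
    3 * (C * η₀) ≤ Pt a (o 0) → 0 ≤ lv 1 (r + 1) →
    o 1 + 4 * (C * η₀) ≤ a → a ≤ 1 →
    (¬ R r → lv 1 r + (a - o 1) ≤ be 1 r + ζ) →
    mb + (o 3 - o 0) < o 0 - o 2 → o 3 - o 0 < mb → η₀ ≤ o 3 - o 0 →
    η₀ ≤ o 1 - o 3 → 0 ≤ ζ →
    C * η₀ + 2 * (ζ + 3 * (C * η₀)) + η₀ < χ →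
    (∀ k ≤ 3, ∀ j < r, |lv k j - o k - (lv 0 j - o 0)| ≤ ζ) →
    lv 0 r + (o 3 - o 0) ≤ lv 3 r + ζ → lv 3 r + (o 1 - o 3) ≤ lv 1 r + ζ →
    lv 0 (r + 1) + mb ≤ lv 3 (r + 1) + ζ →
    lv 0 (r + 1) + (o 1 - o 0) + (mb - (o 3 - o 0)) ≤ lv 1 (r + 1) + ζ →
    lv 0 (r + 1) + (a - o 0) + (mb - (o 3 - o 0)) ≤ Pt a (o 0) + ζ →
    (∀ (J : ℕ) (F : Fam m J) (A B : F.Ω → Prop) (V C : Type) (z : PtT F → V)
      (z' : LnT F → V) (G₁ G₂ : V → MvPolynomial (Option (Fin m)) ℝ) (cc : LnT F → C), Sub B A →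
      Θ J F A V C z z' G₁ G₂ cc → Θ J F B V C z z' G₁ G₂ cc) →
    (∀ (J : ℕ) (F : Fam m J) (A : F.Ω → Prop) (V C : Type) (z : PtT F → V) (z' : LnT F → V)
      (G₁ G₂ : V → MvPolynomial (Option (Fin m)) ℝ) (cc : LnT F → C), Θ J F A V C z z' G₁ G₂ cc →
      ∀ ω, A ω → z (ptr F J ω) = z' (slam F ⌊w * J⌋₊ ω)) →
    0 < K₄ → 0 ≤ κ₁ → κ * K₄ ≤ κ₁ →
    HnX S c r D Du Dr N N₂ R C a Eb ε₀ η₀ χ mb Pt o lv be κ K₄ Θ w →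
    NwX S c r D Dw Dr N N₂ R C a Eb ε₀ η₀ χ mb Pt o lv be κ₁ Θ w →
    SlHU S c r D Dw Dr N N₂ R C a Eb ε₀ η₀ χ mb Pt o lv be κ (K₄ * 8)
      (fun J F B g₀ G H Ht CL Cp => XiF Θ w J F B g₀ G H Ht CL Cp ∧
        XiCl c r Dw CT χ mb o lv J F B g₀ G H Ht CL Cp) := by
  obtain ⟨CT, hclo⟩ := nu_cloN Dw r
  refine ⟨CT, ?_⟩
  intro m S c D Du Dr N N₂ R C a Eb ε₀ η₀ ζ χ mb Pt o lv be κ κ₁ K₄ w Θ hN1 hN hDD hDu hc hR hC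
    hη₀ hPt0 hlv1 hoa ha hbe h01 h12 h12' h23 hζ hχ hn hu2 hu3 h2 h3 hPa hΘs hΘc hK₄ hκ₁ hκ hX hB
  obtain ⟨J₀, hnv⟩ := wg_nvp (Eb := Eb) (ε₀ := ε₀) (D := D) (Dr := Dr) hN1 hN hc hR hC hη₀
    hPt0 hlv1 hoa ha hbe h01 h12 h12' h23 hζ hχ hn hu2 hu3 h2 h3 hPa
  refine Bas.mono J₀ (hX.and (bas_big hB K₄)) ?_
  rintro J hJ F B ⟨w1, w2⟩ b z gc gT g₀ G H T TH Gt Ht W
  obtain ⟨B₂, TN, V, Cc, y, y', G₁, G₂, cc, hB₂, hPB₂, hΘ, dTN, pTN, hT1, hT2⟩ :=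
    w1 b z gc gT g₀ G H T TH Gt Ht W
  have W₂ := W.res (κ₁ := 1 / K₄) (κ₂ := κ₁) hB₂ (by
    rw [one_div_mul_eq_div, div_le_iff₀ hK₄, mul_comm]
    exact hPB₂) hκ₁ (by
    rw [mul_one_div, le_div_iff₀ hK₄]
    exact hκ)
  obtain ⟨B₃, hB₃, hPB₃, hNw⟩ := w2 B₂ hB₂ hPB₂ V Cc y y' G₁ G₂ cc hΘ b z gc gT g₀ G H T TH Gt Ht W₂
  have hΘ₃ := hΘs J F B₂ B₃ V Cc y y' G₁ G₂ cc hB₃ hΘ
  have hcl := hΘc J F B₃ V Cc y y' G₁ G₂ cc hΘ₃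
  refine ⟨B₃, _, _, fun ω hω => hB₂ ω (hB₃ ω hω), ?_, hNw, ⟨V, Cc, y, y', G₁, G₂, cc, hΘ₃,
    fun ω hω => ?_⟩, ?_⟩
  · rw [mul_assoc]
    exact hPB₂.trans (mul_le_mul_of_nonneg_left hPB₃ hK₄.le)
  · show G₂ (y (ptr F J ω)) = _
    rw [hcl ω hω]
  have hP := ((hnv J hJ F b κ z (fun _ => ⌊mb * J⌋₊ + (⌊o 3 * J⌋₊ - ⌊o 0 * J⌋₊)) B gc gT g₀ G H
    T TH Gt Ht (fun _ => le_rfl) W).sub (B' := B₃) fun ω hω => hB₂ ω (hB₃ ω hω)).deg hDD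
  have hC' : NwCU F c r Dw ⌊mb * J⌋₊ (⌊o 3 * J⌋₊ - ⌊o 0 * J⌋₊) ⌊χ * J⌋₊ ⌊lv 0 r * J⌋₊
      (sN (lv 0) J r r) (fun k => ⌊o (fr4 k) * J⌋₊) (fun k => g₀ (fr4 k)) B₃
      (fun k => G (fr4 k)) (Ht 0) (fun L => G₂ (wz y' ⌊w * J⌋₊ ⌊o 0 * J⌋₊ L))
      (fun x => G₂ (y x)) := by
    rw [sN_r]
    exact hNw
  refine hclo (⟨hP, hC'⟩ : NwDU F c r Dw 3 N₂ ⌊a * J⌋₊ ⌊mb * J⌋₊ (⌊o 0 * J⌋₊ - ⌊o 2 * J⌋₊)
    (⌊o 3 * J⌋₊ - ⌊o 0 * J⌋₊) ⌊χ * J⌋₊ ⌊prF C a η₀ Pt (fun k => lv k (r + 1)) o * J⌋₊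
    ⌊(Eb + 2 * η₀) * J⌋₊ ⌊lv 0 r * J⌋₊ (sN (lv 0) J r) _
    (fun k => ⌊o (fr4 k) * J⌋₊) (fun k => z (fr4 k)) (fun k l => ⌊b (fr4 k) l * J⌋₊)
    (gX gc) (gX gT) (fun k => g₀ (fr4 k)) B₃ (fun k => G (fr4 k)) (tX F c G T)
    (fun k => H (fr4 k)) (fun k => TH (fr4 k)) (Ht 0) (fun L => G₂ (wz y' ⌊w * J⌋₊ ⌊o 0 * J⌋₊ L))
      (fun x => G₂ (y x)))
    ⟨TN, fun L => (dTN L).trans hDu, pTN, fun ω hω => ?_, fun ω hω V hV0 hV v hv => ?_⟩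
  · have h4 := hT1 ω (hB₃ ω hω)
    rw [sN_r]
    beta_reduce
    rw [hcl ω hω]
    exact h4
  · have h4 := hT2 ω (hB₃ ω hω) V hV0 (fun j hj => by
      have h5 := hV j hj
      rw [sN_lt hj] at h5
      exact h5) v hv
    rw [sN_r]
    exact h4

/-- **The slope hypothesis with a closed gradient** at one scale, from closed labels of `N` and one member of
the family. -/
theorem recNy_slhX (Dw r : ℕ) : ∃ CT : ℕ, ∀ {m : ℕ} {S : PCl m}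
    {P P₂ : List (Fin m) × Fin m → ℝ → ℝ → ℝ} {θ θ₂ : ℝ} {c : ℕ → Fin m}
    {Pt : ℝ → ℝ → ℝ} {R : ℕ → Prop} {S₂ D Du Dr : ℕ} {vw₀ vw : ℕ → ℝ}
    {su s y A k₁ K Eb e₂ ε q t C h X κ κ₁ K₄ w : ℝ} {Θ : Fm2 m},
    RecNy S P P₂ θ θ₂ c r Pt R S₂ 1 3 vw₀ su s y A k₁ K Eb e₂ ε q t → ∀ N₁ N₂ : ℕ, 1 ≤ N₁ → 3 ≤ N₂ →
    1 ≤ su → 1 < s → 1 ≤ C → 0 < h → 3 * C * ε < h → 10 * (C * h) < X → X ≤ 1 / 4 →
    D ≤ Dw → Du ≤ Dw →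
    (∀ (J : ℕ) (F : Fam m J) (A B : F.Ω → Prop) (V C : Type) (z : PtT F → V)
      (z' : LnT F → V) (G₁ G₂ : V → MvPolynomial (Option (Fin m)) ℝ) (cc : LnT F → C), Sub B A →
      Θ J F A V C z z' G₁ G₂ cc → Θ J F B V C z z' G₁ G₂ cc) →
    (∀ (J : ℕ) (F : Fam m J) (A : F.Ω → Prop) (V C : Type) (z : PtT F → V) (z' : LnT F → V)
      (G₁ G₂ : V → MvPolynomial (Option (Fin m)) ℝ) (cc : LnT F → C), Θ J F A V C z z' G₁ G₂ cc →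
      ∀ ω, A ω → z (ptr F J ω) = z' (slam F ⌊w * J⌋₊ ω)) →
    0 < K₄ → 0 ≤ κ₁ → κ * K₄ ≤ κ₁ →
    HnX S c r D Du Dr N₁ N₂ R C (t + A * q) Eb (3 * ε * q) (h * q) (X * q) (s * q) Pt
      (fun k => t + vG y k₁ vw k * q)
      (fun k l => lvN P c (r + 1) Pt l (t + vG y k₁ vw k * q) (t + vG y k₁ vw k * q))
      (fun k l => bet P c l (t + A * q) (t + vG y k₁ vw k * q)) κ K₄ Θ w →
    NwX S c r D Dw Dr N₁ N₂ R C (t + A * q) Eb (3 * ε * q) (h * q) (X * q) (s * q) Pt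
      (fun k => t + vG y k₁ vw k * q)
      (fun k l => lvN P c (r + 1) Pt l (t + vG y k₁ vw k * q) (t + vG y k₁ vw k * q))
      (fun k l => bet P c l (t + A * q) (t + vG y k₁ vw k * q)) κ₁ Θ w →
    SlHU S c r D Dw Dr N₁ N₂ R C (t + A * q) Eb (3 * ε * q) (h * q) (X * q) (s * q) Pt
      (fun k => t + vG y k₁ vw k * q)
      (fun k l => lvN P c (r + 1) Pt l (t + vG y k₁ vw k * q) (t + vG y k₁ vw k * q))
      (fun k l => bet P c l (t + A * q) (t + vG y k₁ vw k * q)) κ (K₄ * 8)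
      (fun J F B g₀ G H Ht CL Cp => XiF Θ w J F B g₀ G H Ht CL Cp ∧
        XiCl c r Dw CT (X * q) (s * q) (fun k => t + vG y k₁ vw k * q)
        (fun k l => lvN P c (r + 1) Pt l (t + vG y k₁ vw k * q) (t + vG y k₁ vw k * q))
        J F B g₀ G H Ht CL Cp) := by
  obtain ⟨CT, hcl⟩ := slhX_cl Dw r
  refine ⟨CT, ?_⟩
  intro m S P P₂ θ θ₂ c Pt Rr S₂ D Du Dr vw₀ vw su s y A k₁ K Eb e₂ ε q t C h X κ κ₁ K₄ w Θ R
    N₁ N₂ hN₁ hN₂ hsu hs hC hh hε1 hhX hX4 hDw hDu hΘs hΘc hK₄ hκ₁ hκ hSl hU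
  have hC0 : 0 < C := by linarith
  have a4 : h ≤ C * h := le_mul_of_one_le_left hh.le hC
  have hXp : 0 < X := by
    have : 0 < C * h := by positivity
    linarith
  have hq := R.q0
  have hε0 := R.ε0
  have hkk := R.kk
  have hkK := R.kK
  obtain ⟨hy1, hyA, hsA⟩ := R.yA
  have hsq : q < s * q := lt_mul_of_one_lt_left hq hs
  have hyq : 3 / 2 * q ≤ y * q := mul_le_mul_of_nonneg_right hy1 hq.le
  have hyAq : y * q + q / 2 ≤ A * q := by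
    have := mul_le_mul_of_nonneg_right hyA hq.le
    linarith
  have hsAq : s * q + q ≤ A * q := by
    have := mul_le_mul_of_nonneg_right hsA hq.le
    linarith
  have hk1q : A * q + q ≤ k₁ * q := by
    have := mul_le_mul_of_nonneg_right hkk hq.le
    linarith
  have hKq : 2 * (A * q) + k₁ * q + 4 * q ≤ K * q := by
    have := mul_le_mul_of_nonneg_right hkK hq.le
    linarith
  have hsy : s * q + y * q ≤ s * (y * q) + q := by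
    have h1 : 0 ≤ (s - 1) * (y - 1) * q :=
      mul_nonneg (mul_nonneg (by linarith) (by linarith)) hq.le
    nlinarith
  have hsuy : su * q + y * q ≤ su * (y * q) + q := by
    have h1 : 0 ≤ (su - 1) * (y - 1) * q :=
      mul_nonneg (mul_nonneg (by linarith) (by linarith)) hq.le
    nlinarith
  have hεq : 0 ≤ ε * q := mul_nonneg hε0 hq.le
  have hεq3 : 3 * (ε * q) ≤ h * q := by
    have h1 : ε ≤ C * ε := le_mul_of_one_le_left hε0 hC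
    have := mul_le_mul_of_nonneg_right (show 3 * ε ≤ h by linarith) hq.le
    linarith
  have hhq : 0 < h * q := mul_pos hh hq
  have b3 : 4 * (X * q) ≤ q := by
    have := mul_le_mul_of_nonneg_right hX4 hq.le
    linarith
  have b4 : h * q ≤ C * (h * q) := by
    have := mul_le_mul_of_nonneg_right a4 hq.le
    linarith
  have b7 : 10 * (C * (h * q)) < X * q := by
    have := mul_lt_mul_of_pos_right hhX hq
    linarith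
  obtain ⟨o, ho⟩ : ∃ o : ℕ → ℝ, o = fun k => t + vG y k₁ vw k * q := ⟨_, rfl⟩
  have hoE : ∀ k, o k = t + vG y k₁ vw k * q := fun k => by rw [ho]
  have o2 : o 2 = t - k₁ * q := by rw [hoE 2]; simp [vG]; ring
  have o0 : o 0 = t := by rw [hoE 0]; simp [vG]
  have o3 : o 3 = t + q := by rw [hoE 3]; simp [vG]
  have o1 : o 1 = t + y * q := by rw [hoE 1]; simp [vG]
  obtain ⟨a, ha⟩ : ∃ a : ℝ, a = t + A * q := ⟨_, rfl⟩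
  have R2 : ∀ k ≤ 1, o k ≤ Pt (o k) (o k) ∧ a ≤ Pt a (o k) := fun k hk => by
    have h1 := R.low k hk
    have h2 : vG y k₁ vw₀ k = vG y k₁ vw k := by interval_cases k <;> simp [vG]
    rw [h2] at h1
    rw [hoE k, ha]
    exact h1
  have R3 := R.stp
  have R5 := R.beu
  have hot : ∀ k, t + vG y k₁ vw k * q = o k := fun k => by rw [ho]
  have hot2 : (fun k => t + vG y k₁ vw k * q) = o := ho.symm
  rw [hot2] at hU hSl ⊢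
  simp only [hot, ← ha] at R3 R5 hU hSl ⊢
  have hlr : ∀ x y : ℝ, lvN P c (r + 1) Pt (r + 1) x y = Pt x y := fun x y => by
    unfold lvN
    rw [if_neg (lt_irrefl (r + 1))]
  have hbx : ∀ k ≤ 3, |o k - t| ≤ K * q := by
    intro k hk
    rw [abs_le]
    interval_cases k
    · rw [o0]; constructor <;> linarith
    · rw [o1]; constructor <;> linarith
    · rw [o2]; constructor <;> linarith
    · rw [o3]; constructor <;> linarith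
  have hax : |a - t| ≤ K * q := by
    rw [abs_le, ha]
    constructor <;> linarith
  have ht0 := R.t0
  have ht1 := R.t1
  have hlt := R.lvr
  have e1 := abs_le.1 (hlt (o 3) (hbx 3 (by norm_num)))
  have e2 := abs_le.1 (hlt (o 1) (hbx 1 (by norm_num)))
  have e3 := abs_le.1 (R.lvu (o 3) (hbx 3 (by norm_num)))
  have e4 := abs_le.1 (R.lvu (o 1) (hbx 1 (by norm_num)))
  have hsuq : q ≤ su * q := le_mul_of_one_le_left hq.le hsu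
  rw [o3] at e1 e3
  rw [o1] at e2 e4
  have R20 := R2 0 (by omega)
  have R21 := R2 1 le_rfl
  rw [o0] at R20
  rw [o1] at R21
  refine hcl (m := m) (S := S) (c := c) (Pt := Pt) (a := a)
    (Eb := Eb) (ε₀ := 3 * ε * q) (η₀ := h * q) (χ := X * q) (mb := s * q) (κ := κ) (ζ := h * q)
    (o := o) (κ₁ := κ₁)
    hN₁ hN₂ hDw hDu R.inj R.rgh hC hhq ?_ ?_ ?_ ?_ ?_ ?_ ?_ ?_ ?_ hhq.le
    ?_ ?_ ?_ ?_ ?_ ?_ ?_ hΘs hΘc hK₄ hκ₁ hκ hSl hU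
  · rw [o0]; linarith
  · rw [hlr, o1]; linarith
  · rw [o1]; linarith
  · linarith
  · intro hR
    have := R5 hR
    rw [o1]
    linarith
  · rw [o2, o0, o3]; linarith
  · rw [o0, o3]; linarith
  · rw [o0, o3]; linarith
  · rw [o1, o3]; linarith
  · linarith
  · intro k hk j hj
    have k0 := abs_le.1 (R.lv j hj (o k) (hbx k hk))
    rw [o0, abs_le]
    constructor <;> linarith
  · rw [o0, o3]
    linarith
  · rw [o1, o3]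
    linarith
  · rw [hlr, hlr, o0, o3]
    linarith
  · rw [hlr, hlr, o0, o3, o1]
    linarith
  · rw [hlr, o0, o3]
    linarith

/-- **The data `NwCU` of every member of the family.** -/
theorem nwx_of {S : PCl m} (hpos : ∀ (τ : ℝ) (J : ℕ) (F : Fam m J)
      (A : F.Ω → Prop), S.St τ J F A → 0 < Pe F.p A) {c : ℕ → Fin m} {r D Dw Dr N N₂ : ℕ}
    {R : ℕ → Prop} {C a Eb ε₀ η₀ χ mb : ℝ} {Pt : ℝ → ℝ → ℝ} {o : ℕ → ℝ} {lv be : ℕ → ℕ → ℝ}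
    {κ : ℝ} (hc : Set.InjOn c (Set.Iio (r + 2))) (hN : 3 ≤ N₂) {Kd : ℕ} {w : ℝ}
    (hKw : Kd ≤ Dw) (hDr : D ≤ Dr) (hKr : Kd ≤ Dr) (hwo : w ≤ o 0)
    (h03 : o 0 ≤ o 3) (ho3 : o 3 ≤ 1) (hη₀ : 0 < η₀) (hκ : κ ≤ 1 / 4)
    (hmb : o 3 - o 0 ≤ mb) (hχ : 0 ≤ χ)
    (hl0 : 0 ≤ lv 0 (r + 1)) (hl0r : 0 ≤ lv 0 r) {Θ : Fm2 m}
    (hΘd : ∀ (J : ℕ) (F : Fam m J) (A : F.Ω → Prop) (V C : Type) (z : PtT F → V) (z' : LnT F → V)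
      (G₁ G₂ : V → MvPolynomial (Option (Fin m)) ℝ) (cc : LnT F → C), Θ J F A V C z z' G₁ G₂ cc →
      (∀ y, (G₂ y).totalDegree ≤ Kd) ∧ (∀ y, DpI ((range (r + 1)).image c) (G₂ y)) ∧
      ∀ ω, A ω → z (ptr F J ω) = z' (slam F ⌊w * J⌋₊ ω))
    {p q x : ℕ → ℝ}
    (hB0 : BlB S c r (c (r + 1)) w (o 0) D D (p 0) (q 0) (x 0) (Fm2.lab Θ))
    (hB3 : BlB S c r (c (r + 1)) w (o 3) D D (p 3) (q 3) (x 3) (Fm2.lab Θ))
    (hp : ∀ k, p k < lv k (r + 1) - η₀) (hq : ∀ k, q k < lv k r - η₀)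
    (hx0 : x 0 + η₀ < lv 0 r - lv 0 (r + 1) + χ)
    (hx3 : x 3 + 2 * η₀ < lv 3 r - lv 0 (r + 1) - mb + χ) :
    NwX S c r D Dw Dr N N₂ R C a Eb ε₀ η₀ χ mb Pt o lv be κ Θ w := by
  have hnw := nwc_BU (Ψ := Fm2.lab Θ) (N := N) (C := C) (a := a) (Pt := Pt) (ε₀ := ε₀) (Eb := Eb)
    (Dr := Dr) (be := be) (κ := κ) (R := R) hpos hc
    hN hKw hDr hKr hwo h03 ho3 hη₀ hκ hmb hχ hl0 hl0r
    (fun J F A V z z' G hG => by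
      obtain ⟨C, G₁, cc, hG⟩ := hG
      exact hΘd J F A V C z z' G₁ G cc hG) hB0 hB3 hp hq hx0 hx3
  refine Bas.mono 0 hnw ?_
  intro J _ F B h V Cc y y' G₁ G₂ cc hΘ
  exact h V y y' G₂ ⟨Cc, G₁, cc, hΘ⟩

end Pool.V1E

namespace Pool.ALT

open Finset Real MvPolynomial
open Pool.Agent.H49.Ent Pool.Agent.H32.Dense Pool.STK Pool.KA Pool.KSAT Pool.K2S Pool.PB Pool.S6C
  Pool.GEN Pool.RCD Pool.LA91 Pool.OWN68 Pool.PKG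
open Pool.CHT Pool.CHX Pool.ISO Pool.D2R Pool.D2G30 Pool.V1E Pool.CR99
open Pool.PN18 (Fm2)

/-- **The data `NwCU` of every member of the family, at the scale of a record.** -/
theorem nwx_rec {r : ℕ} {S : PCl (r + 2)} {al : ℝ} {g₀ : ℝ → ℝ}
    {P : List (Fin (r + 2)) × Fin (r + 2) → ℝ → ℝ → ℝ} {θ : ℝ}
    {P₂ : ℕ → List (Fin (r + 2)) × Fin (r + 2) → ℝ → ℝ → ℝ} {θ₂ Eb e₂ : ℕ → ℝ}
    {c : ℕ → Fin (r + 2)} {Pt : ℝ → ℝ → ℝ} {rt : ℝ → ℝ} {h K₀ g : ℝ} {L T : ℕ → ℝ → ℝ → ℝ}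
    {Sl : ℕ → ℝ} {κ : ℕ → Kg} {G : Set ℝ} {S₀ N : ℕ} {A V : ℕ → ℝ} {S₂ N' : ℕ} {V' : ℕ → ℝ}
    {K ε q t : ℝ}
    (R : RecG S al g₀ P θ P₂ θ₂ Eb e₂ c Pt rt h K₀ g L T Sl κ G S₀ N A V S₂ N' V' K ε q t)
    {y a k₁ X hh C : ℝ} {vw : ℕ → ℝ} {Rg : ℕ → Prop} {Eb' ε' : ℝ}
    {D Dw Dr N₁ N₂ Kd : ℕ} (hN2 : 3 ≤ N₂) (hKw : Kd ≤ Dw) (hDr : D ≤ Dr)
    (hKr : Kd ≤ Dr) (hs : 1 ≤ Sl (r + 1)) (hK : 1 ≤ K) (hhh : 0 < hh) (hC : 1 ≤ C)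
    (hCX : 10 * (C * hh) < X) (hε : 0 ≤ ε) (hεX : 16 * ε ≤ X) {w : ℝ} (hwt : w ≤ t)
    {Θ : Fm2 (r + 2)}
    (hΘd : ∀ (J : ℕ) (F : Fam (r + 2) J) (A : F.Ω → Prop) (V C : Type) (z : PtT F → V)
      (z' : LnT F → V) (G₁ G₂ : V → MvPolynomial (Option (Fin (r + 2))) ℝ) (cc : LnT F → C),
      Θ J F A V C z z' G₁ G₂ cc →
      (∀ y, (G₂ y).totalDegree ≤ Kd) ∧ (∀ y, DpI ((range (r + 1)).image c) (G₂ y)) ∧
      ∀ ω, A ω → z (ptr F J ω) = z' (slam F ⌊w * J⌋₊ ω))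
    (hB : ∀ v : ℝ, v = 0 ∨ v = 1 → BlB S c r (c (r + 1)) w (t + v * q) D D
      (L (r + 1) (t + v * q) (t + v * q) - 2 * (hh * q)) (L r (t + v * q) (t + v * q) -
        2 * (hh * q)) (L r (t + v * q) (t + v * q) - L (r + 1) (t + v * q) (t + v * q) +
        X / 4 * q) (Fm2.lab Θ))
    {κ₁ : ℝ} (hκ₁ : κ₁ ≤ 1 / 4) :
    NwX S c r D Dw Dr N₁ N₂ Rg C (t + a * q) Eb' ε' (hh * q) (X * q) (Sl (r + 1) * q)
      (L (r + 1)) (fun k => t + vG y k₁ vw k * q)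
      (fun k l => lvN P c (r + 1) (L (r + 1)) l (t + vG y k₁ vw k * q) (t + vG y k₁ vw k * q))
      (fun k l => bet P c l (t + a * q) (t + vG y k₁ vw k * q)) κ₁ Θ w := by
  obtain ⟨s, hsd⟩ : ∃ s, s = Sl (r + 1) := ⟨_, rfl⟩
  rw [← hsd] at hs ⊢
  have hq := R.q0
  have hlv : ∀ l ≤ r + 1, ∀ a w : ℝ, lvN P c (r + 1) (L (r + 1)) l a w = L l a w :=
    fun l hl a w => by rw [← R.lv_at (by omega : r + 1 < r + 2) hl]
  have ht0 := R.t0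
  have ht1 := R.t1
  have hKq : q ≤ K * q := le_mul_of_one_le_left hq.le hK
  have hsq : q ≤ s * q := le_mul_of_one_le_left hq.le hs
  have hεq : 0 ≤ ε * q := mul_nonneg hε hq.le
  have hhq : 0 < hh * q := mul_pos hhh hq
  have hCq : 10 * (C * (hh * q)) < X * q := by
    have := mul_lt_mul_of_pos_right hCX hq
    linarith
  have hCq1 : hh * q ≤ C * (hh * q) := le_mul_of_one_le_left hhq.le hC
  have hεXq : 16 * (ε * q) ≤ X * q := by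
    have := mul_le_mul_of_nonneg_right hεX hq.le
    linarith
  have hx1 : |t + q - t| ≤ K * q := by
    rw [add_sub_cancel_left, abs_of_pos hq]
    linarith
  have e1 : t + q - t = q := by ring
  have n1 := abs_le.1 (R.dL (r + 1) (by omega) _ hx1)
  rw [e1, ← hsd] at n1
  obtain ⟨n1a, n1b⟩ := n1
  have hLt : t ≤ L (r + 1) t t := R.low_at (by omega) (by linarith) le_rfl (by linarith)
  have hLtr : t ≤ L r t t := R.low_at (by omega) (by linarith) le_rfl (by linarith)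
  have v0 : vG y k₁ vw 0 = 0 := by norm_num [vG]
  have v3 : vG y k₁ vw 3 = 1 := by norm_num [vG]
  have hgen := hB
  refine nwx_of (w := w) (Θ := Θ) (Kd := Kd)
    (p := fun k => lvN P c (r + 1) (L (r + 1)) (r + 1) (t + vG y k₁ vw k * q)
      (t + vG y k₁ vw k * q) - 2 * (hh * q))
    (q := fun k => lvN P c (r + 1) (L (r + 1)) r (t + vG y k₁ vw k * q)
      (t + vG y k₁ vw k * q) - 2 * (hh * q))
    (x := fun k => lvN P c (r + 1) (L (r + 1)) r (t + vG y k₁ vw k * q)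
      (t + vG y k₁ vw k * q) - lvN P c (r + 1) (L (r + 1)) (r + 1) (t + vG y k₁ vw k * q)
      (t + vG y k₁ vw k * q) + X / 4 * q) R.pos (R.inj.mono fun x hx => ?_)
    hN2 hKw hDr hKr ?_ ?_ ?_ hhq hκ₁ ?_ ?_ ?_ ?_ hΘd ?_ ?_ ?_ ?_ ?_ ?_
  · rw [Set.mem_Iio] at hx ⊢
    omega
  all_goals try simp only [v0, v3, hlv _ le_rfl, hlv r (by omega), zero_mul, add_zero, one_mul]
  · exact hwt
  · linarith
  · linarith
  · linarith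
  · linarith
  · linarith
  · linarith
  · have := hgen 0 (Or.inl rfl)
    simpa only [zero_mul, add_zero] using this
  · have := hgen 1 (Or.inr rfl)
    simpa only [one_mul] using this
  · intro k
    linarith
  · intro k
    linarith
  · linarith
  · linarith

end Pool.ALT
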