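import Pool.Agent.H42.D2.Nte

/-!
# The constants of the velocity over labels with a closed slope, with a large distance

`vdK_ex'`: as `vdK_ex` of helper42, with `Xc` at least `Xm` and `kf` at least `km`.
-/

set_option autoImplicit false

namespace Pool.ALT

open Finset Real MvPolynomial

/-- **The numbers exist**: `φ` as small as one likes, `Xc` as large as one likes, `kf` large, `X`, then `hh`,
then `ε` small. -/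
theorem vdK_ex' (r : ℕ) {s y₁ α δN C' δ lam φ₀ : ℝ} (hs : 1 < s) (hy : s ≤ y₁) (hα : 0 ≤ α)
    (hδN : 0 < δN) (hC' : 1 ≤ C') (hδ : 0 < δ) (hl : lam = s * y₁ - (y₁ - s + 1) / 2)
    (hφ₀ : 0 < φ₀) (Xm : ℝ) :
    ∃ φ Xc kf₀ X₁ : ℝ, 0 < φ ∧ φ ≤ φ₀ ∧ 0 < Xc ∧ Xm ≤ Xc ∧ 0 < X₁ ∧ ∀ kf X C : ℝ, kf₀ ≤ kf →
    0 < X → X ≤ X₁ → 1 ≤ C → ∃ h₁ : ℝ, 0 < h₁ ∧ ∀ hh k₁ a : ℝ, 0 < hh → hh ≤ h₁ → kf + 8 ≤ k₁ →
    a + 1 ≤ k₁ → ∃ ε₀ : ℝ, 0 < ε₀ ∧ ∀ ε : ℝ, 0 < ε → ε ≤ ε₀ →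
    VdK r s y₁ α δN C C' δ lam φ Xc X kf hh k₁ a ε := by
  obtain ⟨φ, Xc, kf₀, X₁, h1, h2, h3, h4, H⟩ := vdK_ex r hs hy hα hδN hC' hδ hl hφ₀
  refine ⟨φ, max Xc Xm, max kf₀ (3 ^ r * max Xc Xm), X₁, h1, h2, lt_max_of_lt_left h3,
    le_max_right _ _, h4, fun kf X C hkf hX hX1 hC => ?_⟩
  obtain ⟨h₁, hh₁, H⟩ := H kf X C ((le_max_left _ _).trans hkf) hX hX1 hC
  refine ⟨h₁, hh₁, fun hh k₁ a a1 a2 a3 a4 => ?_⟩
  obtain ⟨ε₀, hε₀, H⟩ := H hh k₁ a a1 a2 a3 a4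
  refine ⟨ε₀, hε₀, fun ε b1 b2 => ?_⟩
  have K := H ε b1 b2
  have hm := le_max_left Xc Xm
  exact
    { K with
      φX := K.φX.trans hm
      sX := K.sX.trans hm
      lX := K.lX.trans hm
      αX := K.αX.trans hm
      X30 := by
        have : 0 < max Xc Xm := lt_max_of_lt_left h3
        positivity
      kX := (le_max_right _ _).trans hkf }

end Pool.ALT
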