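import Pool.Agent.H73.D2.Tvc
import Pool.Agent.H42.D2.Nqa

/-!
# The context of the chain with one more coordinate at the windows of a record

`RecG.fwxu`: as `RecG.fwx` of helper42, with the place `r`, from its first jet at the window
`t + vv q`, known to `(Sl r - 1) C q` digits behind the natural ones.
-/

set_option autoImplicit false

namespace Pool.AJW

open Finset Real MvPolynomial
open Pool.Agent.H49.Ent Pool.Agent.H32.Dense Pool.STK Pool.KA Pool.KSAT Pool.K2S Pool.PB Pool.GEN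
open Pool.S6C Pool.RCD Pool.LA91 Pool.OWN68 Pool.CHT

/-- Other digits which agree for the places of the chain. -/
theorem FarV.cn {m : ℕ} {S : PCl m} {c : ℕ → Fin m} {r₀ r : ℕ} {v₀ : ℕ → ℝ} {v w lam σ : ℝ}
    {P₀ p s pf n n' lv lw : ℕ → ℝ} {Nf : ℕ → ℕ → ℝ}
    (H : FarV S c r₀ r v₀ v w lam σ P₀ p s pf n lv lw Nf) (h : ∀ l < r, n' l = n l) :
    FarV S c r₀ r v₀ v w lam σ P₀ p s pf n' lv lw Nf :=
  { H with
    w4 := fun l a b j hj => by
      rw [h l b]
      exact H.w4 l a b j hj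
    w5 := fun l a b => by
      rw [h l b]
      exact H.w5 l a b
    w6 := fun l a b => by
      rw [h l b]
      exact H.w6 l a b
    h1 := fun l a b => by
      rw [h l b]
      exact H.h1 l a b
    h2 := fun l a b => by
      rw [h l b]
      exact H.h2 l a b
    h3 := fun l a b => by
      rw [h l b]
      exact H.h3 l a b
    h4 := fun l a b => by
      rw [h l b]
      exact H.h4 l a b }

end Pool.AJW

namespace Pool.PKG

open Finset Real
open Pool.Agent.H49.Ent Pool.Agent.H32.Dense Pool.STK Pool.KA Pool.KSAT Pool.K2S Pool.PB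
open Pool.GEN Pool.S6C Pool.STAT Pool.CHT Pool.GRW Pool.ONE Pool.STA
open Pool.LA91 Pool.AJW Pool.NPZ
open Pool.RCD (vg)
open Pool.OWN68 (F1)
open Pool.AJX (LbX FwX)

/-- **The context of the chain with one more coordinate** `c r` at the window `t + vv q` given the
near jets of the chain at the window `t`, from the first jet of `c r` at the window `t + vv q`. -/
theorem RecG.fwxu (Kc : ℕ) {ε' α vv C : ℝ} (hε' : 0 < ε') (hα : 0 < α) (hvv : vv < 0)
    (hC : 0 < C) : ∃ dd : ℝ, 0 < dd ∧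
    ∀ {m : ℕ} {S : PCl m} {al : ℝ} {g₀ : ℝ → ℝ} {P : List (Fin m) × Fin m → ℝ → ℝ → ℝ}
    {θ : ℝ} {P₂ : ℕ → List (Fin m) × Fin m → ℝ → ℝ → ℝ} {θ₂ Eb e₂ : ℕ → ℝ}
    {c : ℕ → Fin m} {Pt : ℝ → ℝ → ℝ} {rt : ℝ → ℝ} {h K₀ g : ℝ} {L T : ℕ → ℝ → ℝ → ℝ}
    {Sl : ℕ → ℝ} {κ : ℕ → Kg} {G : Set ℝ} {S₀ N : ℕ} {A V : ℕ → ℝ} {S₂ N' : ℕ} {V' : ℕ → ℝ}
    {K' ε q t : ℝ} {S₁ : PCl m} {r K : ℕ} {X φ lam kf C₀ : ℝ} (_ : TmC S₁ C₀)
    (_ : RecG S al g₀ P θ P₂ θ₂ Eb e₂ c Pt rt h K₀ g L T Sl κ G S₀ N A V S₂ N' V' K' ε q t)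
    (_ : ∀ l < r, κ l = .one) (_ : r < m) (_ : Sl r = α)
    (_ : ChG S₁ c (r + 1) (fun l x => L l x x) G) (_ : JfU r K vv X φ lam kf) (_ : t ∈ G)
    (_ : ∀ k ≤ r, t + jfV r vv X k * q ∈ G) (_ : -vv + 3 ^ r * X ≤ K') (_ : lam ≤ K')
    (_ : 0 ≤ ε) (_ : ε ≤ 1) (_ : 2 * ε ≤ φ) (_ : α * -vv + 1 + 2 * (r + 1) * φ ≤ kf)
    (_ : α * -vv + 1 ≤ K')
    {pf : ℕ → ℝ} (_ : ∀ l < r, L l t t - φ * q ≤ pf l) {E rd : ℕ → ℝ}
    (_ : ∀ i < r + 1, E i ≤ 1) (_ : ∀ i < r + 1, 0 ≤ rd i) {Nf : ℕ → ℕ → ℝ}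
    (_ : ∀ l < r, ∀ j ≤ 1, Nf l j = L l t t + kf * q - (j : ℕ) * t)
    {kf₁ e₁ : ℝ} (_ : kf₁ * C ≤ X) (_ : α * -vv + ε ≤ (α - 1) * C + φ) (_ : 0 < e₁),
    F1 S₁ (fun J F => ptr F J) (vg (t + vv * q)) (fun _ F => F.T)
      (qJets m c 0 r 1 (fun _ _ => t + vv * q) (fun l _ => L l (t + vv * q) (t + vv * q))
        (fun l j => L l (t + vv * q) (t + vv * q) + kf₁ * (C * q) - (j : ℕ) * (t + vv * q)))
      (qJet m ((range r).image c) (c r) 1 (t + vv * q) (L r (t + vv * q) (t + vv * q))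
        (L r (t + vv * q) (t + vv * q) + (α - 1) * (C * q) - (t + vv * q))) e₁ (dd * (C * q)) →
    ∀ e : ℝ, 0 < e → e ≤ φ * q / 8 → e ≤ e₁ →
    FwX S₁ (fun J F => ptr F J) (vg t) (fun _ F => F.T)
      (qJets m c 0 r 1 (fun _ _ => t) (fun l _ => pf l) Nf) c 0 (r + 1) Kc E (t + vv * q) rd
      (fun i => L i (t + vv * q) (t + vv * q))
      (Pool.AJW.ctx c 0 (r + 1) Kc (t + vv * q) (lam * q)
        (Function.update (nX r (fun l x => L l x x) (t + vv * q) (X * q)) r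
          (L r t t - φ * q))) e (ε' * q) := by
  have hαv : 0 < α * -vv := mul_pos hα (by linarith)
  obtain ⟨ε₁, hε₁⟩ : ∃ ε₁ : ℝ, ε₁ = ε' / (α * -vv + 1) := ⟨_, rfl⟩
  have hε10 : 0 < ε₁ := by rw [hε₁]; positivity
  have hε11 : ε₁ * (α * -vv + 1) = ε' := by
    rw [hε₁, div_mul_cancel₀ _ (by positivity)]
  obtain ⟨δ, hδ, key⟩ := far_ctxU Kc hε10
  obtain ⟨dd, hdd⟩ : ∃ dd : ℝ, dd = δ * (α * -vv) / C := ⟨_, rfl⟩
  have hddC : dd * C = δ * (α * -vv) := by
    rw [hdd]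
    field_simp
  refine ⟨dd, by rw [hdd]; positivity, ?_⟩
  intro m S al g₀ P θ P₂ θ₂ Eb e₂ c Pt rt h K₀ g L T Sl κ G S₀ N A V S₂ N' V' K' ε q t S₁ r K X φ
    lam kf C₀ htm R hκ hrm hSl hch U hGt hG hK hlamK hε0 hε1 hεφ hkf hKα pf hpf E rd hE hrd Nf hNf
    kf₁ e₁ hkX hαC he₁ h1 e he heφ hee
  have hq := R.q0
  have ht1 := R.t1
  have HF0 := R.farV hκ hrm.le hch U hGt hG hK hlamK hεφ hpf
  have HF1 := HF0.nf (Nf' := Nf) hNf
  have HF := HF1.cn (n' := Function.update (nX r (fun l x => L l x x) (t + vv * q) (X * q)) r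
      (L r t t - φ * q)) (fun l hl => Function.update_of_ne (by omega) _ _)
  obtain ⟨u₁, rw, hrw, hcw⟩ := hch.ch t hGt
  have hφ := U.φ0
  have hφq : 0 < φ * q := mul_pos hφ hq
  have hr0 : (0 : ℝ) ≤ r := Nat.cast_nonneg r
  have hX3 : 0 ≤ 3 ^ r * X := by
    have h2 := U.φX
    have h3 : 0 ≤ X := by
      have : 0 ≤ 32 * ((r : ℝ) + 1) * φ := by positivity
      linarith
    positivity
  have hlamk := U.lamk
  -- the level of `c r`
  have hvK : |t + vv * q - t| ≤ K' * q := by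
    rw [add_sub_cancel_left, abs_mul, abs_of_neg hvv, abs_of_pos hq]
    refine mul_le_mul_of_nonneg_right ?_ hq.le
    linarith
  have hd := abs_le.1 (R.dL r hrm _ hvK)
  rw [hSl] at hd
  have e0 : α * (t + vv * q - t) = -(α * -vv * q) := by ring
  rw [e0] at hd
  obtain ⟨hd1, hd2⟩ := hd
  have hεq0 : 0 ≤ ε * q := mul_nonneg hε0 hq.le
  have hεq1 : ε * q ≤ q := by
    have := mul_le_mul_of_nonneg_right hε1 hq.le
    linarith
  have hαq : 0 < α * -vv * q := mul_pos hαv hq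
  have hkfq : α * -vv * q + q + 2 * (r + 1) * (φ * q) ≤ kf * q := by
    have := mul_le_mul_of_nonneg_right hkf hq.le
    linarith
  have hlamq : kf * q ≤ vv * q + lam * q := by
    have := mul_le_mul_of_nonneg_right hlamk hq.le
    linarith
  have hr1 : 0 ≤ 2 * ((r : ℝ) + 1) * (φ * q) := by positivity
  have hnr : Function.update (nX r (fun l x => L l x x) (t + vv * q) (X * q)) r
      (L r t t - φ * q) r = L r t t - φ * q := Function.update_self _ _ _
  have hmin : L r t t - (α * -vv * q + ε * q) ≤ min (L r t t) (L r (t + vv * q) (t + vv * q)) :=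
    le_min (by linarith) (by linarith)
  have ht2 : t < 1 := by
    have h2 : 0 ≤ K' * q := mul_nonneg (by linarith) hq.le
    linarith
  have hμ : ε₁ * ((α * -vv + ε) * q) ≤ ε' * q := by
    rw [← hε11]
    have h2 : ε₁ * ((α * -vv + ε) * q) = ε₁ * (α * -vv + ε) * q := by ring
    rw [h2]
    refine mul_le_mul_of_nonneg_right (mul_le_mul_of_nonneg_left (by linarith) hε10.le) hq.le
  have hfin := key htm HF (E := E) (rd := rd) (N := fun l => L l (t + vv * q) (t + vv * q) +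
      kf₁ * (C * q)) (N₁ := L r (t + vv * q) (t + vv * q) + (α - 1) * (C * q) - (t + vv * q))
    (pw := L r t t) (μ := (α * -vv + ε) * q) (e₁ := e₁) (rk := rw r) ht2
    (hrw r (by omega)) (hcw.att r (by omega) (by omega))
    (by
      rw [hnr]
      linarith)
    (by
      rw [hnr]
      linarith)
    (fun l hl => by
      rw [hnr]
      have hl1 : (l : ℝ) + 1 ≤ r := by exact_mod_cast hl
      have h2 : 2 * ((l : ℝ) + 1) * (φ * q) ≤ 2 * (r : ℝ) * (φ * q) := by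
        refine mul_le_mul_of_nonneg_right ?_ hφq.le
        linarith
      linarith)
    (by positivity)
    (by
      have h2 : (α * -vv + 1) * q ≤ K' * q := mul_le_mul_of_nonneg_right hKα hq.le
      have h3 : vv * q < 0 := mul_neg_of_neg_of_pos hvv hq
      linarith)
    (by
      rw [hnr]
      linarith)
    (by
      rw [hnr]
      have h2 := mul_le_mul_of_nonneg_right hαC hq.le
      linarith) hE hrd
    (fun i hi => by
      rw [Function.update_of_ne (by omega)]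
      show L i (t + vv * q) (t + vv * q) + kf₁ * (C * q) ≤ L i (t + vv * q) (t + vv * q) +
        aX r (X * q) i
      have h2 := mul_le_mul_of_nonneg_right hkX hq.le
      have h3 := aX_ge (r := r) (X := X * q) (by
        have := U.φX
        have h4 : 0 ≤ 32 * ((r : ℝ) + 1) * φ := by positivity
        exact mul_nonneg (by linarith) hq.le) i
      linarith) he₁
    (h1.mono le_rfl (by
      have h2 : dd * (C * q) = δ * (α * -vv) * q := by
        rw [← hddC]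
        ring
      rw [h2]
      have h3 : δ * (α * -vv) * q ≤ δ * (α * -vv + ε) * q :=
        mul_le_mul_of_nonneg_right (mul_le_mul_of_nonneg_left (by linarith) hδ.le) hq.le
      linarith)) e he heφ hee
  intro K₀'
  refine Bas.mono 0 (hfin K₀') ?_
  rintro J - F A' HA V₁ z z' gg hlb u₀ hu₀
  obtain ⟨V₂, z₂, hz₂, h2⟩ := HA V₁ z z' gg hlb u₀ hu₀
  exact ⟨V₂, z₂, hz₂, h2.trans (mul_le_mul_of_nonneg_right hμ (Nat.cast_nonneg J))⟩

end Pool.PKG
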