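import Pool.Agent.H73.D2.Vfe
import Pool.Agent.H73.D2.Tvd
import Pool.Agent.H73.D2.Tvf
import Pool.Agent.H92.ALT.Jt1

/-!
# The blind family and its velocity at a record

`t4_rec`: at a record with a closed slope for `N` in the direction of `u` (`BlX`) and a near dead place `u`
(`F1`), in a subclass: a family of labels of `N` closed at the window `t - y₁ q`, blind at the windows of a list,
with the velocity of `N - P` over it.
-/

set_option autoImplicit false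

namespace Pool.ALT

open Finset Real MvPolynomial
open Pool.Agent.H49.Ent Pool.Agent.H32.Dense Pool.STK Pool.KA Pool.KSAT Pool.K2S Pool.PB Pool.S6C
  Pool.GEN Pool.RCD Pool.LA91 Pool.OWN68 Pool.PKG
open Pool.CHT Pool.CHX Pool.ISO Pool.D2R Pool.D2G30 Pool.V1E Pool.CR99 Pool.GRW
open Pool.UNJ (ceI)
open Pool.GRD (LbP)
open Pool.PN18 (Fm2 Fw2)
open Pool.AJX (LbX FwX)
open Pool.AJW (JfU jfV jfV_mem nX aX)
open Pool.NPZ (Fm4 VaD NpL)
open Pool.V0F (LbU)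

/-- **The blind family and its velocity**, at a record. -/
theorem t4_rec (r S₀ : ℕ) (hr : 1 ≤ r) (hS₀ : 1 ≤ S₀) : ∃ D₀ : ℕ, 1 ≤ D₀ ∧
    ∀ (Kd Dw : ℕ), D₀ ≤ Kd → ∀ {h y₁ α C₁ δ lam : ℝ}, 0 < h → h ≤ 1 → 0 < δ → 0 < lam →
    0 < y₁ → 0 < α → 0 < C₁ → ∃ δN C' dd : ℝ, 0 < δN ∧ 1 ≤ C' ∧ 0 < dd ∧
    ∀ {S : PCl (r + 2)} {al : ℝ} {g₀ : ℝ → ℝ}
    {P : List (Fin (r + 2)) × Fin (r + 2) → ℝ → ℝ → ℝ} {θ : ℝ}
    {P₂ : ℕ → List (Fin (r + 2)) × Fin (r + 2) → ℝ → ℝ → ℝ} {θ₂ Eb e₂ : ℕ → ℝ}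
    {c : ℕ → Fin (r + 2)} {Pt : ℝ → ℝ → ℝ} {rt : ℝ → ℝ} {K₀ g : ℝ} {L T : ℕ → ℝ → ℝ → ℝ}
    {Sl : ℕ → ℝ} {κ : ℕ → Kg} {G : Set ℝ} {N : ℕ} {A V : ℕ → ℝ} {S₂ Na : ℕ} {Va : ℕ → ℝ}
    {K' ε q t : ℝ}
    (_ : RecG S al g₀ P θ P₂ θ₂ Eb e₂ c Pt rt h K₀ g L T Sl κ G S₀ N A V S₂ Na Va K' ε q t)
    (_ : ∀ l < r, κ l = .one) {s C φ Xc X kf hh k₁ a ρ kf₁ e₁ κx : ℝ}
    (_ : Sl (r + 1) = s) (_ : Sl r = α) (_ : VdK r s y₁ α δN C C' δ lam φ Xc X kf hh k₁ a ε)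
    (_ : k₁ + C + 3 ^ r * Xc + kf + (α + 1) * y₁ + lam + 4 ≤ K')
    (_ : ∀ k < Na, |Va k| + 1 ≤ K')
    (_ : ∀ w ∈ G, ∃ rd : ℕ → ℝ, (∀ l < r + 1, 0 ≤ rd l) ∧
      Chn S c 0 (r + 1) w w (L r w w) (fun l => L l w w) rd)
    (_ : ∀ k < Na, ∃ rk E : ℝ, 0 ≤ E ∧
      E + L (r + 1) (t + Va k * q) (t + Va k * q) + 3 * K' * q ≤ 1 ∧
      LbU S ((range (r + 1)).image c) (c (r + 1)) (t + Va k * q)
        (L (r + 1) (t + Va k * q) (t + Va k * q)) rk E)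
    (_ : ∃ i < Na, Va i = -y₁) {nb : ℕ} {bw : ℕ → ℝ} (_ : ∀ k < nb, ∃ l < Na, Va l = bw k)
    (_ : ∃ k < nb, bw k = 0) (_ : ∀ k ≤ r, ∃ l < Na, Va l = jfV r (-y₁) Xc k)
    (_ : 0 < ρ) (_ : 16 * ρ ≤ δN * lam) (_ : 16 * ρ ≤ φ) (_ : 2 * ρ + ε ≤ 1 / 2) (_ : 4 * ρ ≤ X / 2)
    (_ : 8 * hh ≤ X / 2) {K₁x : ℕ} (_ : 0 < κx)
    (_ : BlX S c r Kd K₁x (t + -y₁ * q) (L (r + 1) (t + -y₁ * q) (t + -y₁ * q) - ρ * q) nb
      (fun k => t + bw k * q) (fun k => L (r + 1) (t + bw k * q) (t + bw k * q) - ρ * q)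
      (fun k => L r (t + bw k * q) (t + bw k * q) - L (r + 1) (t + bw k * q) (t + bw k * q) +
        ρ * q) κx)
    (_ : kf₁ * C₁ ≤ Xc) (_ : α * y₁ + ε ≤ (α - 1) * C₁ + φ)
    (_ : α * y₁ + 1 + 2 * (r + 1) * φ ≤ kf) (_ : 0 < e₁)
    (_ : F1 S (fun J F => ptr F J) (vg (t + -y₁ * q)) (fun _ F => F.T)
      (qJets (r + 2) c 0 r 1 (fun _ _ => t + -y₁ * q)
        (fun l _ => L l (t + -y₁ * q) (t + -y₁ * q))
        (fun l j => L l (t + -y₁ * q) (t + -y₁ * q) + kf₁ * (C₁ * q) -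
          (j : ℕ) * (t + -y₁ * q)))
      (qJet (r + 2) ((range r).image c) (c r) 1 (t + -y₁ * q) (L r (t + -y₁ * q) (t + -y₁ * q))
        (L r (t + -y₁ * q) (t + -y₁ * q) + (α - 1) * (C₁ * q) - (t + -y₁ * q))) e₁
      (dd * (C₁ * q)))
    {D Dr Db : ℕ} (_ : (max D Kd + 1) * (max D Kd + 1) ≤ Dr),
    ∃ (S' : PCl (r + 2)) (Θ : Fm2 (r + 2)), S'.Ne ∧ SubC S' S ∧
      (∀ (J : ℕ) (F : Fam (r + 2) J) (A B : F.Ω → Prop) (V C : Type) (z : PtT F → V)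
        (z' : LnT F → V) (G₁ G₂ : V → MvPolynomial (Option (Fin (r + 2))) ℝ) (cc : LnT F → C),
        Sub B A → Θ J F A V C z z' G₁ G₂ cc → Θ J F B V C z z' G₁ G₂ cc) ∧
      (∀ (J : ℕ) (F : Fam (r + 2) J) (A : F.Ω → Prop) (V C : Type) (z : PtT F → V)
        (z' : LnT F → V) (G₁ G₂ : V → MvPolynomial (Option (Fin (r + 2))) ℝ) (cc : LnT F → C),
        Θ J F A V C z z' G₁ G₂ cc →
        (∀ y, (G₂ y).totalDegree ≤ Kd) ∧ (∀ y, DpI ((range (r + 1)).image c) (G₂ y)) ∧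
        ∀ ω, A ω → z (ptr F J ω) = z' (slam F ⌊(t + -y₁ * q) * J⌋₊ ω)) ∧
      Bas S' (fun J F A => ∃ (V C : Type) (z : PtT F → V) (z' : LnT F → V)
        (G₁ G₂ : V → MvPolynomial (Option (Fin (r + 2))) ℝ) (cc : LnT F → C),
        Θ J F A V C z z' G₁ G₂ cc) ∧
      (∀ k < nb, BlB S' c r (c (r + 1)) (t + -y₁ * q) (t + bw k * q) Db Db
        (L (r + 1) (t + bw k * q) (t + bw k * q) - 2 * (hh * q))
        (L r (t + bw k * q) (t + bw k * q) - 2 * (hh * q))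
        (L r (t + bw k * q) (t + bw k * q) - L (r + 1) (t + bw k * q) (t + bw k * q) +
          X / 4 * q) (Fm2.lab Θ)) ∧
      ∀ {y : ℝ} {vw : ℕ → ℝ} {N₁ N₂ : ℕ} {Rg : ℕ → Prop} {be : ℕ → ℕ → ℝ} {E₁ ε₁ a₁ : ℝ}
      (κ' : ℝ) (qf : ℕ → Fin r → ℕ) (Pq : Fin r → ℝ), 0 < κ' → κ' ≤ 1 →
      (∀ i, (kf + 1) * q ≤ Pq i) → (∀ (J : ℕ) (i : Fin r), Pq i * J - 2 ≤ qf J i) →
      VfNU S' c r D Dw Dr N₁ N₂ Rg C a₁ E₁ ε₁ (hh * q) (X * q) (s * q) (kf * q) (L (r + 1))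
        (fun k => t + vG y k₁ vw k * q)
        (fun k l => lvN P c (r + 1) (L (r + 1)) l (t + vG y k₁ vw k * q)
          (t + vG y k₁ vw k * q)) be κ' qf δ (2 * 1) (XiF Θ (t + -y₁ * q)) := by
  classical
  obtain ⟨D₀, Kl, hD₀, hKl, hbv⟩ := bvf_rec r S₀ hS₀
  refine ⟨D₀, hD₀, ?_⟩
  intro Kd Dw hKd h y₁ α C₁ δ lam hh0 hh1 hδ hlam hy₁ hα hC₁
  obtain ⟨δN, C', hδN, hC', hvf⟩ := vfN_E Kd (max Kd D₀ * max 1 D₀) Dw r hr hh0 hh1 hδ hlam
  obtain ⟨dd, hdd, hfx⟩ := RecG.fwxu Kl (ε' := δN * lam / 4) (α := α) (vv := -y₁) (C := C₁)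
    (by positivity) hα (by linarith) hC₁
  refine ⟨δN, C', dd, hδN, hC', hdd, ?_⟩
  intro S al g₀ P θ P₂ θ₂ Eb e₂ c Pt rt K₀ g L T Sl κ G N A V S₂ Na Va K' ε q t R hκ s C φ Xc X kf
    hh k₁ a ρ kf₁ e₁ κx hs hSα Kn hK' hVa hch hlab hi nb bw hbw hb0 hjf hρ0 hρN hρφ hρε hρX hhX K₁x
    hκx hX hkX hαC hαk he₁ hF D Dr Db hDr
  have hq0 := R.q0
  have ht0 := R.t0
  have ht1 := R.t1
  have hC1 := Kn.C1
  have hkf0 : 0 < kf := by
    have h1 : 0 ≤ 2 * ((r : ℝ) + 1) * φ := by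
      have := Kn.φ0
      positivity
    have h2 : 0 < α * y₁ := by positivity
    linarith only [hαk, h1, h2]
  have hk1 : 0 < k₁ := by linarith only [Kn.kk, hkf0]
  have h3X := Kn.X30
  have hαy : 0 < (α + 1) * y₁ := by positivity
  have hK1 : 1 ≤ K' := by linarith only [hK', hk1, hC1, h3X, hkf0, hαy, hlam]
  obtain ⟨i, hiN, hVi⟩ := hi
  obtain ⟨k0, hk0, hbk0⟩ := hb0
  obtain ⟨j, hjN, hVj⟩ := hbw k0 hk0
  rw [hbk0] at hVj
  have hρ1 : ρ ≤ 1 / 4 := by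
    have := Kn.ε0
    linarith only [hρε, this]
  obtain ⟨e, he⟩ : ∃ e, e = min (φ * q / 8) e₁ := ⟨_, rfl⟩
  have hφq : 0 < φ * q := mul_pos Kn.φ0 hq0
  have he0 : 0 < e := by
    rw [he]
    exact lt_min (by positivity) he₁
  have heφ : e ≤ φ * q / 8 := by rw [he]; exact min_le_left _ _
  have hee : e ≤ e₁ := by rw [he]; exact min_le_right _ _
  have hvk : t + bw k0 * q = t + Va j * q := by rw [hbk0, hVj]
  obtain ⟨S', hne, hsub, R', hAW, E, rd, eG, rG, hE, heG, hrG, heG1, hrG1, hex⟩ := hbv R hK1 hVa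
    (fun k hk => by
      obtain ⟨rd, -, h2⟩ := hch _ (R.memG.2 k hk)
      exact ⟨rd, h2⟩) hlab (K := Kd) (K₁ := K₁x) (n := nb)
    (Pw := L (r + 1) (t + Va i * q) (t + Va i * q) - ρ * q) (κ' := κx) (ρ := ρ)
    (vw := fun k => t + bw k * q)
    (p₁ := fun k => L (r + 1) (t + bw k * q) (t + bw k * q) - ρ * q)
    (x₀ := fun k => L r (t + bw k * q) (t + bw k * q) - L (r + 1) (t + bw k * q) (t + bw k * q) +
        ρ * q) (i := i) (j := j) (k := k0) hKd hiN hjN (by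
      rw [hVi, hVj]
      linarith only [hy₁]) hk0 hvk hκx hρ0 hρ1 (by
      simp only [hvk]
      exact le_rfl) (by
      simp only [hvk]
      exact le_rfl) le_rfl (by
      rw [hVi]
      exact hX) he0
  rw [hVi] at hE heG1 hex
  rw [hVj, zero_mul, add_zero] at hex
  obtain ⟨v, hv⟩ : ∃ v, v = t + -y₁ * q := ⟨_, rfl⟩
  -- multiples of the scale
  have hKq : k₁ * q + C * q + 3 ^ r * Xc * q + kf * q + (α + 1) * y₁ * q + lam * q + 4 * q ≤
      K' * q := by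
    have h1 := mul_le_mul_of_nonneg_right hK' hq0.le
    linarith only [h1]
  have hk1q : 0 < k₁ * q := mul_pos hk1 hq0
  have hCq : 0 < C * q := mul_pos (by linarith only [hC1]) hq0
  have h3Xq : 0 ≤ 3 ^ r * Xc * q := mul_nonneg h3X hq0.le
  have hkfq : 0 < kf * q := mul_pos hkf0 hq0
  have hαyq : 0 < (α + 1) * y₁ * q := mul_pos hαy hq0
  have hlamq : 0 < lam * q := mul_pos hlam hq0
  have hρq : 0 < ρ * q := mul_pos hρ0 hq0
  have hyq : 0 < y₁ * q := mul_pos hy₁ hq0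
  -- the windows
  have hGt : t ∈ G := by
    have h1 := R.memG.2 j hjN
    rwa [hVj, zero_mul, add_zero] at h1
  have hGw : ∀ k ≤ r, t + jfV r (-y₁) Xc k * q ∈ G := fun k hk => by
    obtain ⟨l, hl, e1⟩ := hjf k hk
    have h1 := R.memG.2 l hl
    rwa [e1] at h1
  have hCG : ChG S' c (r + 1) (fun l x => L l x x) G := ⟨fun w hw => by
    obtain ⟨rd, h1, h2⟩ := hch w hw
    exact ⟨_, rd, h1, h2.sub hsub⟩⟩
  have U : JfU r 0 (-y₁) Xc φ (kf + y₁) kf :=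
    { vv0 := by linarith only [hy₁]
      φ0 := Kn.φ0
      XK := by
        have h1 := Kn.sX
        push_cast
        linarith only [h1]
      φX := Kn.φX
      kfX := Kn.kX
      lamk := by linarith only [] }
  have hFx := hfx R'.tmc R hκ (by omega) hSα hCG U hGt hGw (by
      rw [neg_neg]
      linarith only [hK', hk1, hC1, hkf0, hlam, hy₁, mul_pos hα hy₁]) (by
      linarith only [hK', hk1, hC1, h3X, hlam, hy₁, mul_pos hα hy₁]) Kn.ε0.le (by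
      have := Kn.εφ
      have := Kn.φ1
      linarith) Kn.εφ (by
      rw [neg_neg]
      exact hαk) (by
      rw [neg_neg]
      linarith only [hK', hk1, hC1, h3X, hkf0, hlam, hy₁])
    (pf := fun l => L l t t - hh * q) (fun l hl => by
      have h1 := mul_le_mul_of_nonneg_right Kn.hφ hq0.le
      show L l t t - φ * q ≤ L l t t - hh * q
      linarith only [h1]) (E := E) (rd := rd) (fun i hi => by
      have h1 := (hE i (by omega)).2.1
      have h2 : 0 ≤ L i (t + -y₁ * q) (t + -y₁ * q) := by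
        have h3 : 0 ≤ t + -y₁ * q := by
          linarith only [ht0, hKq, hk1q, hCq, h3Xq, hkfq, hlamq, hq0, mul_pos (mul_pos hα hy₁) hq0]
        exact h3.trans (R.low_at (by omega) h3 le_rfl (by
          linarith only [ht1, hKq, hk1q, hCq, h3Xq, hkfq, hlamq, hq0, hyq, hαyq]))
      have h4 : 0 ≤ K' * q := by
        linarith only [hKq, hk1q, hCq, h3Xq, hkfq, hlamq, hq0, hαyq]
      linarith only [h1, h2, h4]) (fun i hi => (hE i (by omega)).2.2.1)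
    (Nf := fun l j => L l t t + kf * q - (j : ℕ) * t) (fun l _ j _ => rfl) hkX (by
      rw [neg_neg]
      exact hαC) he₁ (fun K₂ => Bas.sub hsub (hF K₂)) e he0 heφ hee
  have e1 : δN * lam / 4 * q = δN * (lam * q) / 4 := by ring
  rw [e1] at hFx
  -- the level
  have hdN := abs_le.1 (R.dL (r + 1) (by omega) (t + -y₁ * q) (by
    rw [add_sub_cancel_left, abs_mul, abs_neg, abs_of_pos hq0, abs_of_pos hy₁]
    linarith only [hKq, hk1q, hCq, h3Xq, hkfq, hlamq, hq0, hyq, mul_pos (mul_pos hα hy₁) hq0]))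
  rw [hs] at hdN
  have e2 : s * (t + -y₁ * q - t) = -(s * y₁ * q) := by ring
  rw [e2] at hdN
  obtain ⟨hdN1, hdN2⟩ := hdN
  have hlamq' : lam * q + (y₁ * q - s * q + q) / 2 = s * y₁ * q := by
    have h1 : lam * q = (s * y₁ - (y₁ - s + 1) / 2) * q := by rw [← Kn.ls]
    rw [h1]
    ring
  have hsyq : s * q ≤ y₁ * q := mul_le_mul_of_nonneg_right Kn.y1 hq0.le
  have hρεq : 2 * (ρ * q) + ε * q ≤ q / 2 := by
    have h1 := mul_le_mul_of_nonneg_right hρε hq0.le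
    linarith only [h1]
  obtain ⟨Θ₄, hΘ₄⟩ : ∃ Θ₄ : Fm4 (r + 2), Θ₄ = BvF c r Kd K₁x eG (rG + eG)
      (L (r + 1) (t + -y₁ * q) (t + -y₁ * q) - 2 * ρ * q) (t + -y₁ * q) nb
      (fun k => t + bw k * q) (fun k => L (r + 1) (t + bw k * q) (t + bw k * q) - ρ * q)
      (fun k => L r (t + bw k * q) (t + bw k * q) - L (r + 1) (t + bw k * q) (t + bw k * q) +
        ρ * q) Kl e E rd (fun l => L l (t + -y₁ * q) (t + -y₁ * q)) (max Kd D₀ * max 1 D₀) t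
      (L (r + 1) t t - 2 * ρ * q) := ⟨_, rfl⟩
  rw [← hΘ₄] at hex
  obtain ⟨t1, t2, t3⟩ := hvf R' hκ hs hSα Kn (by
      linarith only [hK', mul_pos hα hy₁]) hCG hGt hGw (fun i hi => hE i (by omega)) (e := e)
    (pN := L (r + 1) (t + -y₁ * q) (t + -y₁ * q) - 2 * ρ * q) (eG := eG) (rG := rG)
    (pa := L (r + 1) t t - 2 * ρ * q) (Nf := fun l j => L l t t + kf * q - (j : ℕ) * t) he0 heφ
    (by linarith only [hρq]) (by
      have h1 := mul_le_mul_of_nonneg_right hρφ hq0.le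
      linarith only [h1]) (by
      have h1 := mul_le_mul_of_nonneg_right hρN hq0.le
      linarith only [h1]) (by linarith only [hdN2, hlamq', hsyq, hρεq]) heG hrG (by
      linarith only [heG1, hKq, hk1q, hCq, h3Xq, hkfq, hαyq, hlamq, hq0]) hrG1.le (Θ₄ := Θ₄)
    (fun J F A V z z' G g hG => by
      rw [hΘ₄] at hG
      exact ⟨hG.2.1, hG.1.1.cls⟩) (fun J F A V z z' G g hG => by
      rw [hΘ₄] at hG
      exact hG.1.1) (fun J F A B V z z' G g hB hG => by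
      rw [hΘ₄] at hG ⊢
      exact BvF.hs J F A B V z z' G g hB hG) (fun J F A V z z' G g hG => by
      rw [hΘ₄] at hG
      exact hG.2.2) hex (fun l _ j _ => rfl) hFx hDr
  refine ⟨S', ThB Θ₄, hne, hsub, t1, ?_, t2, ?_, fun {y vw N₁ N₂ Rg be E₁ ε₁ a₁} => t3⟩
  · rintro J F A V C z z' G₁ G₂ cc ⟨g, hg⟩
    rw [hΘ₄] at hg
    exact ⟨hg.1.1.deg, hg.1.1.dep, hg.1.1.cls⟩
  · intro k hk
    obtain ⟨l, hl, e3⟩ := hbw k hk
    obtain ⟨El, W⟩ := hAW l hl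
    rw [e3] at W
    have hXq : 0 < X * q := mul_pos Kn.X0 hq0
    have hρXq : 4 * (ρ * q) ≤ X * q / 2 := by
      have h1 := mul_le_mul_of_nonneg_right hρX hq0.le
      linarith only [h1]
    have hhXq : 8 * (hh * q) ≤ X * q / 2 := by
      have h1 := mul_le_mul_of_nonneg_right hhX hq0.le
      linarith only [h1]
    have hh4 := mul_le_mul_of_nonneg_right Kn.h4 hq0.le
    have hlow : q ≤ L (r + 1) (t + bw k * q) (t + bw k * q) := by
      have h1 := abs_le.1 (show |Va l| ≤ K' - 1 by linarith only [hVa l hl])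
      rw [e3] at h1
      have h2 := mul_le_mul_of_nonneg_right h1.1 hq0.le
      have h3 := mul_le_mul_of_nonneg_right h1.2 hq0.le
      have h4 : q ≤ t + bw k * q := by linarith only [h2, ht0]
      exact h4.trans (R.low_at (by omega) (by linarith only [h4, hq0]) le_rfl (by
        linarith only [h3, ht1, hq0]))
    have h1 := blf_blB (by norm_num : (0 : ℝ) ≤ 6) R'.tmc (c := c) (r := r) (K := Kd) (K₁ := K₁x)
      (K₂ := Db) (Ku := Db) (e₀ := eG) (ρ₀ := rG + eG)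
      (π₀ := L (r + 1) (t + -y₁ * q) (t + -y₁ * q) - 2 * ρ * q) (w := t + -y₁ * q) (n := nb)
      (v := fun k => t + bw k * q)
      (p₁ := fun k => L (r + 1) (t + bw k * q) (t + bw k * q) - ρ * q)
      (x₀ := fun k => L r (t + bw k * q) (t + bw k * q) -
        L (r + 1) (t + bw k * q) (t + bw k * q) + ρ * q) hk
      (u := L r (t + bw k * q) (t + bw k * q)) W.wu (W.w0.trans W.wu) W.u1 W.fI
      (p := L (r + 1) (t + bw k * q) (t + bw k * q) - 2 * (hh * q))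
      (p₂ := L r (t + bw k * q) (t + bw k * q) - 2 * (hh * q))
      (x := L r (t + bw k * q) (t + bw k * q) - L (r + 1) (t + bw k * q) (t + bw k * q) +
          X / 4 * q) (by linarith only [hlow, hh4, hq0])
      (by linarith only [hρXq, hXq]) (by linarith only [hρXq, hXq])
      (by linarith only [hhXq, hXq])
    refine blb_imp h1 ?_
    rintro J F A V z z' G ⟨C', G₁, cc, g, hg⟩
    rw [hΘ₄] at hg
    exact hg.1

end Pool.ALT
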