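import Pool.Agent.H73.D2.Tta
import Pool.Agent.H73.D2.Ttf
import Pool.Agent.H73.D2.Tte

/-!
# A member of the family with the slope of the row label, at the scale of a record

`rwx_rec`: `RwX` from the closed slope by scaling (`blr_rec`) and a family with all closed slopes.
-/

set_option autoImplicit false

namespace Pool.ALT

open Finset Real MvPolynomial
open Pool.Agent.H49.Ent Pool.Agent.H32.Dense Pool.STK Pool.KA Pool.KSAT Pool.K2S Pool.PB Pool.S6C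
  Pool.GEN Pool.RCD Pool.LA91 Pool.OWN68 Pool.PKG
open Pool.CHT Pool.CHX Pool.ISO Pool.D2R Pool.D2G30 Pool.V1E Pool.CR99 Pool.GRW
open Pool.GRD (LbP)
open Pool.PN18 (Fm2)

/-- **A member of the family with the slope of the row label**, at the scale of a record. -/
theorem rwx_rec (m r S₂ : ℕ) (hS₂ : 1 ≤ S₂) : ∃ D : ℕ, 1 ≤ D ∧ ∀ Dr : ℕ, D ≤ Dr →
    ∃ C : ℝ, 1 ≤ C ∧
    ∀ {α b ρ a Ve V₀ Vm μ : ℝ}, 0 < ρ → ρ ≤ 1 → Ve ≤ V₀ → V₀ ≤ Vm → Vm + 1 ≤ a →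
    (b - 1) * (Vm - Ve) ≤ a - Ve → (b - α) * (Vm - Ve) ≤ μ → 0 ≤ μ → μ < V₀ - Ve →
    ∃ η₁ : ℝ, 0 < η₁ ∧ ∀ η : ℝ, 0 < η → η ≤ η₁ → ∃ ε₀ : ℝ, 0 < ε₀ ∧
    ∀ {S : PCl m} {al : ℝ} {g₀ : ℝ → ℝ}
    {P : List (Fin m) × Fin m → ℝ → ℝ → ℝ} {ϑ : ℝ}
    {P₂ : ℕ → List (Fin m) × Fin m → ℝ → ℝ → ℝ} {θ₂ Eb e₂ : ℕ → ℝ} {c : ℕ → Fin m}
    {Pt : ℝ → ℝ → ℝ} {rr : ℝ → ℝ} {h K₀ g : ℝ} {L T : ℕ → ℝ → ℝ → ℝ} {Sl : ℕ → ℝ}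
    {κ : ℕ → Kg} {G : Set ℝ} {S₀ N : ℕ} {A V : ℕ → ℝ} {N' : ℕ} {V' : ℕ → ℝ} {K ε q t : ℝ},
    RecG S al g₀ P ϑ P₂ θ₂ Eb e₂ c Pt rr h K₀ g L T Sl κ G S₀ N A V S₂ N' V' K ε q t →
    r + 1 < m → 0 ≤ ε → ε ≤ ε₀ → Sl r = α → Sl (r + 1) = b → κ r = .one ∨ κ r = .thin →
    κ (r + 1) = .stp ∨ κ (r + 1) = .sta → -K + 1 ≤ Ve → a ≤ K → 1 ≤ K →
    ∀ {W : ℕ → ℝ} {n : ℕ}, W 0 = V₀ → W (n + 1) = Ve → (∀ k ≤ n + 1, Ve ≤ W k ∧ W k ≤ Vm) →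
    (∀ k ≤ n + 1, ∃ j < N, A j = a ∧ V j = W k) →
    ∀ {Θ : Fm2 m} {Kd K₁x nb : ℕ} {bw : ℕ → ℝ}, bmd D ≤ Kd → D ≤ K₁x →
    (∀ k < nb, ∃ j < n + 1, W j = bw k) →
    Bas S (fun J F A => ∀ (V : Type) (z : PtT F → V) (z' : LnT F → V)
      (G : V → MvPolynomial (Option (Fin m)) ℝ),
      BlE F c r Kd K₁x (t + V₀ * q) (L (r + 1) (t + V₀ * q) (t + V₀ * q) - ρ * q) nb
        (fun k => t + bw k * q) (fun k => L (r + 1) (t + bw k * q) (t + bw k * q) - ρ * q)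
        (fun k => L r (t + bw k * q) (t + bw k * q) - L (r + 1) (t + bw k * q) (t + bw k * q) +
          ρ * q) A z z' G →
      ∃ B : F.Ω → Prop, Sub B A ∧ Pe F.p A ≤ 8 * Pe F.p B ∧
      ∃ (V₁ C : Type) (z₁ : PtT F → V₁) (z₁' : LnT F → V₁)
        (G₁ G₂ : V₁ → MvPolynomial (Option (Fin m)) ℝ) (cc : LnT F → C),
        Θ J F B V₁ C z₁ z₁' G₁ G₂ cc ∧ ∀ s, G₂ (z₁' s) = G (z' s)) →
    ∃ (K₁ : ℝ) (bb : ℕ → ℕ → ℝ), 0 < K₁ ∧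
    RwX S P c r D Dr (n + 1) (n + 1) (fun l => κ l = .one ∨ κ l = .thin) C (t + a * q) (Eb (r + 1))
      (3 * ε * q) (η * q) (L (r + 1)) (fun k => t + W k * q)
      (fun k l => bet P c l (t + a * q) (t + W k * q)) bb (1 / (8 * 16 ^ (r + 1))) K₁ Θ
      (t + V₀ * q) (L r (t + Ve * q) (t + Ve * q) - L (r + 1) (t + Ve * q) (t + Ve * q) - μ * q +
        ρ * q) := by
  obtain ⟨D, hD, hb⟩ := blr_rec m r S₂ hS₂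
  refine ⟨D, hD, fun Dr hDr => ?_⟩
  obtain ⟨C, hC, hb⟩ := hb Dr hDr
  refine ⟨C, hC, ?_⟩
  intro α b ρ a Ve V₀ Vm μ hρ hρ1 hVe hVm hVa hba hαb hμ0 hμ1
  obtain ⟨η₁, hη₁, hb⟩ := hb hρ hρ1 hVe hVm hVa hba hαb hμ0 hμ1
  refine ⟨η₁, hη₁, fun η hη hη1 => ?_⟩
  obtain ⟨ε₀, hε₀, hb⟩ := hb η hη hη1
  refine ⟨ε₀, hε₀, ?_⟩
  intro S al g₀ P ϑ P₂ θ₂ Eb e₂ c Pt rr h K₀ g L T Sl κ G S₀ N A V N' V' K ε q t R hrm hε hεε hα hbb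
    hκu hκN hKV haK hK1 W n hW0 hWn hWW hWp Θ Kd K₁x nb bw hKd hK₁x hbw hE
  obtain ⟨K₁, bb, hK₁, hb⟩ := hb R hrm hε hεε hα hbb hκu hκN hKV haK hK1 hW0 hWn hWW hWp
  refine ⟨K₁ * 8, bb, by positivity, ?_⟩
  have h16 : (0 : ℝ) < 16 ^ (r + 1) := by positivity
  refine Bas.mono 0 ((hb (1 / (64 * 16 ^ (r + 1))) (by positivity)).and (bas_big hE K₁)) ?_
  rintro J - F E ⟨⟨B, z, gc, gT, g₁, G₀, H, T₀, TH, Gt, Ht, hBE, hPB, hW, Vt, y, y', Qp, P', l1, l2,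
    l3, l4⟩, w2⟩
  obtain ⟨B₂, hB₂, hPB₂, V₁, C₁, z₁, z₁', G₁, G₂, cc, hΘ, hG⟩ := w2 B hBE hPB Vt y y' Qp
    ⟨⟨P', l1.mono (Finset.Subset.refl _) hKd le_rfl, l2⟩, fun k hk => by
      obtain ⟨j, hj, e1⟩ := hbw k hk
      obtain ⟨V₂, z₂, z₂', G₃, P₁, h1, h2, h3⟩ := l3 j hj
      rw [e1] at h1 h2 h3
      exact ⟨V₂, z₂, z₂', G₃, P₁, h1.mono (Finset.Subset.refl _) hK₁x le_rfl, h2, h3⟩⟩
  refine ⟨B₂, z, gc, gT, g₁, G₀, H, T₀, TH, Gt, Ht, fun ω hω => hBE ω (hB₂ ω hω), ?_,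
    hW.res (κ₁ := 1 / 8) (κ₂ := 1 / (8 * 16 ^ (r + 1))) hB₂ (by linarith) (by positivity) ?_, V₁, C₁,
    z₁, z₁', G₁, G₂, cc, hΘ, fun ω hω => ?_⟩
  · rw [mul_assoc]
    exact hPB.trans (mul_le_mul_of_nonneg_left hPB₂ hK₁.le)
  · apply le_of_eq
    field_simp
    norm_num
  · have h1 := l4 ω (hB₂ ω hω)
    rw [hG]
    beta_reduce
    rw [hWn]
    exact h1

end Pool.ALT
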