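import Pool.Agent.H73.D2.Ttg
import Pool.Agent.H42.D2.Nrc

/-!
# Closed labels of `N` and one member of the family, at the scale of a record

`hnx_rec`: `HnX` from the record, for `u` thin (or of slope one) over coordinates of slope one and `N`
steep, with the pairs `(a, 0)` and `(au, Ve)`, and from `RwX`.
-/

set_option autoImplicit false

namespace Pool.ALT

open Finset Real MvPolynomial
open Pool.Agent.H49.Ent Pool.Agent.H32.Dense Pool.STK Pool.KA Pool.KSAT Pool.K2S Pool.PB Pool.S6C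
  Pool.GEN Pool.RCD Pool.LA91 Pool.OWN68 Pool.PKG
open Pool.CHT Pool.CHX Pool.ISO Pool.D2R Pool.D2G30 Pool.V1E Pool.CR99 Pool.GRW
open Pool.GRD (LbP)
open Pool.PN18 (Fm2)

/-- **Closed labels of `N` and one member of the family**, at the place `r + 1`, at the scale of a record. -/
theorem hnx_rec (r D₂ : ℕ) (hD₂ : 1 ≤ D₂) : ∀ D : ℕ, D ≤ D₂ →
    ∀ C : ℝ, 1 ≤ C → ∃ C₁ : ℝ, 1 ≤ C₁ ∧ ∀ {m : ℕ} {S : PCl m} {al : ℝ} {g₀ : ℝ → ℝ}
    {P : List (Fin m) × Fin m → ℝ → ℝ → ℝ} {θ : ℝ}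
    {P₂ : ℕ → List (Fin m) × Fin m → ℝ → ℝ → ℝ} {θ₂ Eb e₂ : ℕ → ℝ}
    {c : ℕ → Fin m} {Pt : ℝ → ℝ → ℝ} {rt : ℝ → ℝ} {h K₀ g : ℝ} {L T : ℕ → ℝ → ℝ → ℝ}
    {Sl : ℕ → ℝ} {κ : ℕ → Kg} {G : Set ℝ} {S₀ S₂ N : ℕ} {A V : ℕ → ℝ} {N' : ℕ} {V' : ℕ → ℝ}
    {K ε q t : ℝ},
    RecG S al g₀ P θ P₂ θ₂ Eb e₂ c Pt rt h K₀ g L T Sl κ G S₀ N A V S₂ N' V' K ε q t →
    r + 1 < m → (∀ l < r, κ l = .one) → κ r = .thin ∨ κ r = .one → κ (r + 1) = .stp →
    ∀ {y a au Ve μ ρ k₁ hh X w C' η' K₁ κ' Eu ε₁ ε₀ : ℝ} {vw W : ℕ → ℝ} {Θ : Fm2 m} {Du : ℕ}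
    {be' b' : ℕ → ℕ → ℝ} (Dr N₁ N₂ Nw i j : ℕ),
    1 ≤ N₁ → 3 ≤ N₂ → Du ≤ D₂ → i ≤ Nw → j ≤ Nw → W i = Ve → W j = y → 0 < K₁ →
    1 ≤ C' → 0 < η' → C' * η' ≤ hh →
    3 / 2 ≤ y → y + 1 / 2 ≤ a → Sl (r + 1) + 1 ≤ a → a + 1 ≤ k₁ →
    2 * a + k₁ + 4 ≤ K → Ve ≤ 0 → -K + 1 ≤ Ve → y + 1 ≤ au → au ≤ K →
    (Sl (r + 1) - 1) * y + (2 - Sl (r + 1)) * Ve ≤ au →
    (Sl r - Sl (r + 1)) * Ve + (Sl (r + 1) - 1) ≤ μ → 0 ≤ ρ → 2 * ρ ≤ X →
    (∃ j < N, A j = a ∧ V j = 0) → (∃ j < N, A j = au ∧ V j = Ve) → 0 < hh → 0 ≤ ε →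
    C₁ * ε ≤ hh → C₁ * hh ≤ X → C₁ * hh ≤ 1 →
    (∀ (J : ℕ) (F : Fam m J) (A B : F.Ω → Prop) (V C : Type) (z : PtT F → V)
      (z' : LnT F → V) (G₁ G₂ : V → MvPolynomial (Option (Fin m)) ℝ) (cc : LnT F → C), Sub B A →
      Θ J F A V C z z' G₁ G₂ cc → Θ J F B V C z z' G₁ G₂ cc) →
    RwX S P c r Du D₂ Nw i (fun l => κ l = .one ∨ κ l = .thin) C' (t + au * q) Eu ε₀ (η' * q)
      (L (r + 1)) (fun k => t + W k * q) be' b' (1 / (8 * 16 ^ (r + 1))) K₁ Θ w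
      (L r (t + Ve * q) (t + Ve * q) - L (r + 1) (t + Ve * q) (t + Ve * q) - μ * q + ρ * q) →
    HnX S c r D Du Dr N₁ N₂ (fun l => κ l = .one ∨ κ l = .thin) C (t + a * q) (Eb (r + 1))
        ε₁ (hh * q) (X * q) (Sl (r + 1) * q) (L (r + 1)) (fun k => t + vG y k₁ vw k * q)
        (fun k l => lvN P c (r + 1) (L (r + 1)) l (t + vG y k₁ vw k * q) (t + vG y k₁ vw k * q))
        (fun k l => bet P c l (t + a * q) (t + vG y k₁ vw k * q)) κ' (K₁ * (4 * 16 ^ (r + 1)))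
        Θ w := by
  intro D hD C hC
  obtain ⟨C₀, hC₀, hhn⟩ := hnx_con r D₂ hD₂ D hD C hC
  obtain ⟨C₁, hC₁⟩ : ∃ C₁ : ℝ, C₁ = 4 * C₀ + 8 * C + 4 := ⟨_, rfl⟩
  refine ⟨C₁, by linarith, ?_⟩
  intro m S al g₀ P θ P₂ θ₂ Eb e₂ c Pt rt h K₀ g L T Sl κ G S₀ S₂ N A V N' V' K ε q t R hrm hκ hκu
    hκt y a au Ve μ ρ k₁ hh X w C' η' K₁ κ' Eu ε₁ ε₀ vw Wv Θ Du be' b' Dr N₁ N₂ Nw i₀ j₀ hN₁ hN₂
    hDu hiN hjN hWi hWj hK₁ hC' hη' hCη hy hya hsa hkk hkK hVe0 hVeK hyau hauK hrow hgain hρ0 hρX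
    hp0 hp1 hhh hε hCε hCh hC1 hΘs hRw
  have hq := R.q0
  have ht0 := R.t0
  have ht1 := R.t1
  have hC₀0 : 0 < C₀ := by linarith
  have hC0 : 0 < C := by linarith
  have W := R.tg (r + 1) (by omega) hrm
  -- products
  have mq : ∀ {x z : ℝ}, x ≤ z → x * q ≤ z * q := fun h => mul_le_mul_of_nonneg_right h hq.le
  have hεq : 0 ≤ ε * q := mul_nonneg hε hq.le
  have hhq : 0 < hh * q := mul_pos hhh hq
  have eC : ∀ z : ℝ, C₁ * z = 4 * (C₀ * z) + 8 * (C * z) + 4 * z := fun z => by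
    rw [hC₁]
    ring
  have pC : ∀ {z : ℝ}, 0 ≤ z → 0 ≤ C₀ * z ∧ 0 ≤ C * z := fun hz =>
    ⟨mul_nonneg hC₀0.le hz, mul_nonneg hC0.le hz⟩
  obtain ⟨k1, k2⟩ := pC hε
  obtain ⟨k3, k4⟩ := pC hhh.le
  rw [eC] at hCε hCh hC1
  obtain ⟨e, he⟩ : ∃ e : ℝ, e = ε * q := ⟨_, rfl⟩
  obtain ⟨H, hH⟩ : ∃ H : ℝ, H = hh * q := ⟨_, rfl⟩
  obtain ⟨XX, hXX⟩ : ∃ XX : ℝ, XX = X * q := ⟨_, rfl⟩
  have he0 : 0 ≤ e := by rw [he]; exact hεq
  have hH0 : 0 < H := by rw [hH]; exact hhq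
  have n1 : 4 * (C₀ * e) + 4 * e ≤ H := by
    have := mq (show 4 * (C₀ * ε) + 4 * ε ≤ hh by linarith)
    rw [he, hH]
    linarith
  have n2 : 4 * (C₀ * H) + 8 * (C * H) + 4 * H ≤ XX := by
    have := mq hCh
    rw [hH, hXX]
    linarith
  have n3 : 4 * (C₀ * H) + 8 * (C * H) + 4 * H ≤ q := by
    have := mq hC1
    rw [hH]
    linarith
  obtain ⟨p1, p2⟩ := pC he0
  obtain ⟨p3, p4⟩ := pC hH0.le
  have hkd := R.kd (r + 1) hrm
  rw [hκt] at hkd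
  obtain ⟨b, hb⟩ : ∃ b : ℝ, b = Sl (r + 1) := ⟨_, rfl⟩
  obtain ⟨s, hs⟩ : ∃ s : ℝ, s = Sl r := ⟨_, rfl⟩
  rw [← hb] at hsa hrow hgain hkd
  rw [← hs] at hgain
  have hb2 : 2 < b := hkd.1
  have hkdT := hkd.2
  have hs1 : 1 ≤ s := by
    have h4 := R.kd r (by omega)
    rw [← hs] at h4
    rcases hκu with hk | hk
    · rw [hk] at h4
      exact h4.1.le
    · rw [hk] at h4
      have : s = 1 := h4
      linarith
  have hyq : 3 / 2 * q ≤ y * q := mq hy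
  have hyaq : y * q + q / 2 ≤ a * q := by
    have := mq hya
    linarith
  have hsaq : b * q + q ≤ a * q := by
    have := mq hsa
    linarith
  have hbq : 2 * q < b * q := mul_lt_mul_of_pos_right hb2 hq
  have hk₁q : a * q + q ≤ k₁ * q := by
    have := mq hkk
    linarith
  have hkKq : 2 * (a * q) + k₁ * q + 4 * q ≤ K * q := by
    have := mq hkK
    linarith
  obtain ⟨v₁, hv₁⟩ : ∃ v₁ : ℝ, v₁ = -Ve := ⟨_, rfl⟩
  have hVv : Ve = -v₁ := by rw [hv₁]; ring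
  rw [hVv] at hVe0 hVeK hrow hgain hWi hp1 hRw
  have hv₁q : 0 ≤ v₁ * q := mul_nonneg (by linarith) hq.le
  have hv₁Kq : v₁ * q + q ≤ K * q := by
    have := mq (show v₁ + 1 ≤ K by linarith)
    linarith
  have hyauq : y * q + q ≤ au * q := by
    have := mq hyau
    linarith
  have hauKq := mq hauK
  have hrowq : b * (y * q) - y * q + (b * (v₁ * q) - 2 * (v₁ * q)) ≤ au * q := by
    have := mq hrow
    linarith
  have hgq : b * q - q ≤ μ * q + (s * (v₁ * q) - b * (v₁ * q)) := by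
    have := mq hgain
    linarith
  have hρq : 0 ≤ ρ * q := mul_nonneg hρ0 hq.le
  have hρXq : 2 * (ρ * q) ≤ XX := by
    have := mq hρX
    rw [hXX]
    linarith
  have hby : b * q + y * q ≤ b * (y * q) + q := by
    have h1 : 0 ≤ (b - 1) * (y - 1) * q :=
      mul_nonneg (mul_nonneg (by linarith) (by linarith)) hq.le
    linarith
  have hsy : s * q + y * q ≤ s * (y * q) + q := by
    have h1 : 0 ≤ (s - 1) * (y - 1) * q :=
      mul_nonneg (mul_nonneg (by linarith) (by linarith)) hq.le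
    linarith
  have hsq : q ≤ s * q := le_mul_of_one_le_left hq.le hs1
  -- windows
  obtain ⟨o, ho⟩ : ∃ o : ℕ → ℝ, o = fun k => t + vG y k₁ vw k * q := ⟨_, rfl⟩
  have hoE : ∀ k, o k = t + vG y k₁ vw k * q := fun k => by rw [ho]
  have o2 : o 2 = t - k₁ * q := by rw [hoE 2]; simp [vG]; ring
  have o0 : o 0 = t := by rw [hoE 0]; simp [vG]
  have o3 : o 3 = t + q := by rw [hoE 3]; simp [vG]
  have o1 : o 1 = t + y * q := by rw [hoE 1]; simp [vG]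
  obtain ⟨b₁, hb₁⟩ : ∃ b₁ : ℝ, b₁ = t + -v₁ * q := ⟨_, rfl⟩
  have hb₁' : b₁ = t - v₁ * q := by rw [hb₁]; ring
  have hot : ∀ k, t + vG y k₁ vw k * q = o k := fun k => by rw [ho]
  have hot2 : (fun k => t + vG y k₁ vw k * q) = o := ho.symm
  rw [hot2]
  rw [← hb₁] at hRw
  simp only [hot]
  have hlv : ∀ l ≤ r + 1, ∀ a w : ℝ, lvN P c (r + 1) (L (r + 1)) l a w = L l a w :=
    fun l hl a w => by rw [← R.lv_at hrm hl]
  have hxK : ∀ x : ℝ, t - K * q ≤ x → x ≤ t + K * q → |x - t| ≤ K * q := fun x h1 h2 => by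
    rw [abs_le]
    constructor <;> linarith
  have dL : ∀ l ≤ r + 1, ∀ x : ℝ, t - K * q ≤ x → x ≤ t + K * q →
      L l x x ≤ L l t t + Sl l * (x - t) + e ∧ L l t t + Sl l * (x - t) - e ≤ L l x x := by
    intro l hl x h1 h2
    obtain ⟨h3, h4⟩ := abs_le.1 (R.dL l (by omega) x (hxK x h1 h2))
    rw [← he] at h3 h4
    constructor <;> linarith
  have sl1 : ∀ l < r, Sl l = 1 := fun l hl => by
    have h2 := R.kd l (by omega)
    rw [hκ l hl] at h2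
    exact h2
  have hbx : ∀ k ≤ 3, t - K * q ≤ o k ∧ o k ≤ t + K * q := by
    intro k hk
    interval_cases k
    · rw [o0]; constructor <;> linarith
    · rw [o1]; constructor <;> linarith
    · rw [o2]; constructor <;> linarith
    · rw [o3]; constructor <;> linarith
  have dk : ∀ l ≤ r + 1, ∀ k ≤ 3, L l (o k) (o k) ≤ L l t t + Sl l * (o k - t) + e ∧
      L l t t + Sl l * (o k - t) - e ≤ L l (o k) (o k) := fun l hl k hk =>
    dL l hl _ (hbx k hk).1 (hbx k hk).2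
  have e3 : o 3 - t = q := by rw [o3]; ring
  have e1 : o 1 - t = y * q := by rw [o1]; ring
  have eb : b₁ - t = -(v₁ * q) := by rw [hb₁']; ring
  have hb₁K : t - K * q ≤ b₁ ∧ b₁ ≤ t + K * q := by
    rw [hb₁']
    constructor <;> linarith
  have dbN := dL (r + 1) le_rfl b₁ hb₁K.1 hb₁K.2
  have dbu := dL r (by omega) b₁ hb₁K.1 hb₁K.2
  rw [← hb, eb] at dbN
  rw [← hs, eb] at dbu
  have d3N := dk (r + 1) le_rfl 3 (by norm_num)
  have d1N := dk (r + 1) le_rfl 1 (by norm_num)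
  have d3u := dk r (by omega) 3 (by norm_num)
  have d1u := dk r (by omega) 1 (by norm_num)
  rw [← hb, e3] at d3N
  rw [← hb, e1] at d1N
  rw [← hs, e3] at d3u
  rw [← hs, e1] at d1u
  have lowN : ∀ {x : ℝ}, 0 ≤ x → x ≤ 1 → ∀ l ≤ r + 1, x ≤ L l x x := fun h0 h1 l hl =>
    R.low_at (i := l) (by omega) h0 le_rfl h1
  have lowP : ∀ {x x' : ℝ}, 0 ≤ x → x ≤ x' → x' ≤ 1 → x' ≤ L (r + 1) x' x := fun h0 h1 h2 =>
    R.low_at (i := r + 1) hrm h0 h1 h2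
  -- the rows of `N`
  obtain ⟨j0, hj0, hA0, hV0⟩ := hp0
  obtain ⟨j1, hj1, hA1, hV1⟩ := hp1
  have rowa : L (r + 1) t t + 2 * (a * q) - 2 * e ≤ L (r + 1) (t + a * q) t := by
    have h5 := hkdT (t + a * q) t (by linarith) (by linarith) (by linarith)
    have h6 := (R.TL _ hj0 (r + 1) hrm).1
    rw [hA0, hV0, zero_mul, add_zero] at h6
    have h7 := abs_le.1 (R.dT (r + 1) hrm t (by rw [sub_self, abs_zero]; linarith))
    rw [sub_self, mul_zero, ← he] at h7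
    rw [← he] at h5
    linarith [h7.1]
  have rowu : L (r + 1) t t - b * (v₁ * q) + 2 * (au * q + v₁ * q) - 2 * e ≤
      L (r + 1) (t + au * q) b₁ := by
    have h5 := hkdT (t + au * q) b₁ (by linarith [hb₁K.1]) (by rw [hb₁']; linarith) (by linarith)
    have h6 := (R.TL _ hj1 (r + 1) hrm).1
    rw [hA1, hV1, ← hb₁] at h6
    have h7 := abs_le.1 (R.dT (r + 1) hrm b₁ (hxK b₁ hb₁K.1 hb₁K.2))
    rw [← hb, eb, ← he] at h7
    rw [← he] at h5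
    have e4 : t + au * q - b₁ = au * q + v₁ * q := by rw [hb₁']; ring
    rw [e4] at h5
    linarith [h7.1]
  have hCη' : C' * (η' * q) ≤ hh * q := by
    have := mq hCη
    linarith
  refine hhn (S := S) (P := P) (c := c) (Pt := L (r + 1))
    (R := fun l => κ l = .one ∨ κ l = .thin) (Rw := fun l => κ l = .one ∨ κ l = .thin)
    (a := t + a * q) (au := t + au * q) (Eb := Eb (r + 1)) (Eu := Eu)
    (ε₁ := ε₁) (ε₀ := ε₀) (η₀ := hh * q) (η' := η' * q) (χ := X * q) (mb := Sl (r + 1) * q)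
    (w := w) (o := o) (o' := fun k => t + Wv k * q) (Θ := Θ) (be' := be') (b' := b')
    Dr N₁ N₂ Nw i₀ j₀ hN₁ hN₂ hDu hiN hjN (by rw [o1, hWj]) hK₁
    (R.inj.mono fun x hx => by
      rw [Set.mem_Iio] at hx ⊢
      omega) (fun l hl => ?_) hC' (mul_pos hη' hq) hCη' ?_ ?_ ?_ (by linarith)
    (fun l hl => Or.inl (hκ l hl)) ?_ ?_ ?_ ?_ (by linarith)
    (fun hR => absurd (by rcases hκu with h | h <;> simp [h]) hR) ?_ ?_ ?_ ?_
    (fun k hk j hj => ?_) ?_ ?_ ?_ ?_ ?_ (fun l hl => rfl) (fun l hl => ?_) ?_ ?_ ?_ ?_ hΘs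
    hRw κ'
  · rcases Nat.lt_or_ge l r with h | h
    · exact Or.inl (hκ l h)
    · have : l = r := by omega
      rw [this]
      exact hκu.symm
  · rw [← hH, ← hXX]
    linarith
  · rw [hWi, ← hb₁, ← hH]
    have := lowP (x := b₁) (x' := t + au * q) (by rw [hb₁']; linarith) (by rw [hb₁']; linarith)
      (by linarith)
    linarith
  · rw [o1, ← hH]
    linarith
  · rw [o0, ← hH]
    have := lowP (x := t) (x' := t + a * q) (by linarith) (by linarith) (by linarith)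
    linarith
  · rw [hlv _ le_rfl, o0]
    have := lowN (x := t) (by linarith) (by linarith) (r + 1) le_rfl
    linarith
  · rw [hlv _ (by omega), o0]
    have := lowN (x := t) (by linarith) (by linarith) r (by omega)
    linarith
  · rw [o1, ← hH]
    linarith
  · rw [o2, o3, o0, ← hb]
    linarith
  · rw [o3, o0, ← hb]
    linarith
  · rw [o3, o0, ← hH]
    linarith
  · rw [o3, o1, ← hH]
    linarith
  · -- the levels of the frame
    rw [hlv j (by omega), hlv j (by omega), ← hH]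
    have h4 := dk j (by omega) k hk
    rw [sl1 j hj] at h4
    rw [o0]
    rw [abs_le]
    constructor <;> linarith [h4.1, h4.2]
  · rw [hlv r (by omega), hlv r (by omega), o0, ← hH]
    rw [o3] at d3u ⊢
    linarith [d3u.2]
  · rw [hlv r (by omega), hlv r (by omega), ← hH]
    have e6 : o 1 - o 3 = y * q - q := by rw [o1, o3]; ring
    rw [e6]
    linarith [d3u.1, d1u.2]
  · rw [hlv _ le_rfl, hlv _ le_rfl, o0, ← hH, ← hb]
    linarith [d3N.2]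
  · rw [hlv _ le_rfl, hlv _ le_rfl, ← hH, ← hb]
    have e6 : o 1 - o 0 = y * q := by rw [o1, o0]; ring
    have e7 : o 3 - o 0 = q := by rw [o3, o0]; ring
    rw [e6, e7, o0]
    linarith [d1N.2]
  · rw [hlv _ le_rfl, ← hH, ← hb]
    have e7 : o 3 - o 0 = q := by rw [o3, o0]; ring
    rw [e7, o0]
    linarith
  · rw [hlv l (by omega), ← hH]
    have e6 : o 1 - o 0 = y * q := by rw [o1, o0]; ring
    rw [e6]
    have := lowN (x := o 1) (by rw [o1]; linarith) (by rw [o1]; linarith) l (by omega)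
    have e8 := o1
    linarith
  · rw [hWi, ← hb₁, hlv _ le_rfl, ← hH]
    have e8 := o1
    linarith [d1N.1]
  · rw [hWi, ← hb₁, o0, hb₁']
    linarith
  · rw [hWi, ← hb₁, hb₁']
    linarith
  · rw [hlv r (by omega), hlv _ le_rfl, ← hH, ← hb, ← hXX]
    have e7 : o 3 - o 0 = q := by rw [o3, o0]; ring
    rw [e7, o0]
    linarith [dbu.1, dbN.2]

end Pool.ALT
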