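import Pool.Agent.H80.DIC.Mono

/-!
# The record at a coarser scale with another centre

`RecG.scs`: the record of the windows `t + A q` is a record of the scale `C q` with the centre
`t + V₀ q`, for the windows of its lists.
-/

set_option autoImplicit false

namespace Pool.PKG

open Finset Real
open Pool.Agent.H49.Ent Pool.Agent.H32.Dense Pool.STK Pool.KA Pool.KSAT Pool.K2S Pool.PB
open Pool.GEN Pool.S6C Pool.STAT Pool.CHT Pool.GRW Pool.ONE Pool.STA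
open Pool.LBT (LSys ThrOf)
open Pool.LEV (Law)
open Pool.ALL (RateOf)
open Pool.ISO (PtD lvN WinD)

/-- The box of the coarser scale is in the box. -/
theorem scs_box {t K q C V₀ K₁ : ℝ} (hq : 0 ≤ q) (hK : K₁ * C + |V₀| ≤ K) :
    t - K * q ≤ t + V₀ * q - K₁ * (C * q) ∧ t + V₀ * q + K₁ * (C * q) ≤ t + K * q := by
  have h1 := mul_le_mul_of_nonneg_right hK hq
  have h2 := mul_le_mul_of_nonneg_right (neg_abs_le V₀) hq
  have h3 := mul_le_mul_of_nonneg_right (le_abs_self V₀) hq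
  constructor <;> linarith

/-- The numbers of a kind at the coarser scale. -/
theorem KgQ.scs {k : Kg} {L T : ℝ → ℝ → ℝ} {s t K q ε C V₀ K₁ ε₁ : ℝ} (h : KgQ k L T s t K q ε)
    (hq : 0 ≤ q) (hK : K₁ * C + |V₀| ≤ K) (hε : ε ≤ ε₁ * C) :
    KgQ k L T s (t + V₀ * q) K₁ (C * q) ε₁ := by
  obtain ⟨b1, b2⟩ := scs_box (t := t) hq hK
  have h1 : ε * q ≤ ε₁ * (C * q) := by
    have := mul_le_mul_of_nonneg_right hε hq
    linarith
  cases k with
  | one => exact h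
  | thin =>
    exact ⟨h.1, fun a w hw hwa ha => (h.2 a w (b1.trans hw) hwa (ha.trans b2)).trans
      (by linarith)⟩
  | sta =>
    exact ⟨h.1, fun a w hw hwa ha => (h.2 a w (b1.trans hw) hwa (ha.trans b2)).trans
      (by linarith)⟩
  | stp =>
    exact ⟨h.1, fun a w hw hwa ha => (h.2 a w (b1.trans hw) hwa (ha.trans b2)).trans
      (by linarith)⟩
  | any => trivial

/-- **The record of one target at the coarser scale.** -/
theorem RecT.scs {m : ℕ} {S : PCl m} {P P₂ : List (Fin m) × Fin m → ℝ → ℝ → ℝ} {θ θ₂ : ℝ}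
    {c : ℕ → Fin m} {l : ℕ} {L : ℕ → ℝ → ℝ → ℝ} {S₀ N N₁ : ℕ} {A V A₁ V₁ : ℕ → ℝ}
    {S₂ N' N₁' : ℕ} {V' V₁' : ℕ → ℝ} {Eb e₂ K q t C V₀ K₁ : ℝ}
    (h : RecT S P P₂ θ θ₂ c l L S₀ N A V S₂ N' V' Eb e₂ K q t) (hq : 0 ≤ q)
    (hK : K₁ * C + |V₀| ≤ K)
    (hN : ∀ k < N₁, ∃ j < N, A₁ k * C + V₀ = A j ∧ V₁ k * C + V₀ = V j)
    (hN' : ∀ k < N₁', ∃ j < N', V₁' k * C + V₀ = V' j) :
    RecT S P P₂ θ θ₂ c l L S₀ N₁ A₁ V₁ S₂ N₁' V₁' Eb e₂ K₁ (C * q) (t + V₀ * q) := by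
  obtain ⟨b1, b2⟩ := scs_box (t := t) hq hK
  have h1 : K₁ * (C * q) ≤ K * q := by
    have := mul_le_mul_of_nonneg_right hK hq
    have := mul_nonneg (abs_nonneg V₀) hq
    linarith
  have hx : ∀ x : ℝ, |x - (t + V₀ * q)| ≤ K₁ * (C * q) → |x - t| ≤ K * q := by
    intro x hx
    rw [abs_le] at hx ⊢
    constructor <;> linarith [hx.1, hx.2]
  have ew : ∀ a b : ℝ, a * C + V₀ = b → t + V₀ * q + a * (C * q) = t + b * q := by
    rintro a b rfl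
    ring
  refine ⟨h.thr₂, h.th₂0, h.Eb0, ?_, fun x hx' => h.eθ x (hx x hx'),
    fun j hj x hx' => ?_, fun k hk => ?_, fun k hk => ?_, fun k hk => ?_, fun k hk => ?_⟩
  · linarith [h.Ebe]
  · have := h.room j hj x (hx x hx')
    linarith
  · obtain ⟨j, hj, e1, e2⟩ := hN k hk
    rw [ew _ _ e1, ew _ _ e2]
    exact h.pt j hj
  · obtain ⟨j, hj, e1, e2⟩ := hN k hk
    rw [ew _ _ e1, ew _ _ e2]
    exact h.rat j hj
  · obtain ⟨j, hj, e1⟩ := hN' k hk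
    rw [ew _ _ e1]
    exact h.ptc j hj
  · obtain ⟨j, hj, e1⟩ := hN' k hk
    rw [ew _ _ e1]
    exact h.ratc j hj

/-- **The record at a coarser scale with another centre.** -/
theorem RecG.scs {m : ℕ} {S : PCl m} {al : ℝ} {g₀ : ℝ → ℝ}
    {P : List (Fin m) × Fin m → ℝ → ℝ → ℝ} {θ : ℝ}
    {P₂ : ℕ → List (Fin m) × Fin m → ℝ → ℝ → ℝ} {θ₂ Eb e₂ : ℕ → ℝ}
    {c : ℕ → Fin m} {Pt : ℝ → ℝ → ℝ} {r : ℝ → ℝ} {h K₀ K₀' g : ℝ} {L T : ℕ → ℝ → ℝ → ℝ}
    {Sl : ℕ → ℝ} {κ : ℕ → Kg} {G : Set ℝ} {S₀ N N₁ : ℕ} {A V A₁ V₁ : ℕ → ℝ} {S₂ N' N₁' : ℕ}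
    {V' V₁' : ℕ → ℝ} {K K₁ ε ε₁ q t C V₀ B : ℝ}
    (R : RecG S al g₀ P θ P₂ θ₂ Eb e₂ c Pt r h K₀ g L T Sl κ G S₀ N A V S₂ N' V' K ε q t)
    (hm : 0 < m) (hC : 1 ≤ C) (hB : |Sl (m - 1)| ≤ B) (hε0 : 0 ≤ ε) (hε1 : ε ≤ 1) (hK₁ : 0 ≤ K₁)
    (hK : K₁ * C + |V₀| + B * |V₀| + 1 ≤ K) (hε : 2 * ε ≤ ε₁ * C) (hK₀ : K₀ + |V₀| ≤ K₀' * C)
    (hN : ∀ k < N₁, ∃ j < N, A₁ k * C + V₀ = A j ∧ V₁ k * C + V₀ = V j)
    (hN' : ∀ k < N₁', ∃ j < N', V₁' k * C + V₀ = V' j) :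
    RecG S al g₀ P θ P₂ θ₂ Eb e₂ c Pt r h K₀' g L T Sl κ G S₀ N₁ A₁ V₁ S₂ N₁' V₁' K₁ ε₁ (C * q)
      (t + V₀ * q) := by
  have hq := R.q0
  have hV0 := abs_nonneg V₀
  have hB0 : 0 ≤ B := (abs_nonneg _).trans hB
  have hBV : 0 ≤ B * |V₀| := mul_nonneg hB0 hV0
  have hKC : 0 ≤ K₁ * C := mul_nonneg hK₁ (by linarith)
  have hK' : K₁ * C + |V₀| ≤ K := by linarith
  have hVK : |V₀| ≤ K := by linarith
  obtain ⟨b1, b2⟩ := scs_box (t := t) hq.le hK'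
  have hVq : |t + V₀ * q - t| ≤ K * q := by
    rw [add_sub_cancel_left, abs_mul, abs_of_pos hq]
    exact mul_le_mul_of_nonneg_right hVK hq.le
  have hx : ∀ x : ℝ, |x - (t + V₀ * q)| ≤ K₁ * (C * q) → |x - t| ≤ K * q := by
    intro x hx
    rw [abs_le] at hx ⊢
    constructor <;> linarith [hx.1, hx.2]
  have hεq : 2 * (ε * q) ≤ ε₁ * (C * q) := by
    have := mul_le_mul_of_nonneg_right hε hq.le
    linarith
  have hεq0 : 0 ≤ ε * q := mul_nonneg hε0 hq.le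
  have ew : ∀ a b : ℝ, a * C + V₀ = b → t + V₀ * q + a * (C * q) = t + b * q := by
    rintro a b rfl
    ring
  refine ⟨R.ne, R.al0, R.g₀pos, R.clx, R.thr, R.th0, R.tgs, R.rate, R.inj, R.c0, R.law, R.lv,
    R.lawL, by positivity, ?_, ?_, ?_, ⟨fun k hk => ?_, fun k hk => ?_⟩, fun k hk => ?_,
    fun k hk => ?_, fun l hl x hx' => ?_, fun l hl x hx' => ?_, R.s0, fun x hx' => ?_,
    fun l hl => (R.kd l hl).scs hq.le hK' (by linarith), fun x y hx' hy hxy => ?_,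
    fun l h1 h2 => (R.tg l h1 h2).scs hq.le hK' hN hN', R.tgl⟩
  · have := R.t0
    linarith
  · have := R.t1
    linarith
  · have h1 := R.near
    have h2 := mul_le_mul_of_nonneg_right hK₀ hq.le
    have h3 : t + V₀ * q - g = (t - g) + V₀ * q := by ring
    rw [h3]
    refine (abs_add_le _ _).trans ?_
    rw [abs_mul, abs_of_pos hq]
    linarith
  · obtain ⟨j, hj, e1, e2⟩ := hN k hk
    rw [ew _ _ e1, ew _ _ e2]
    exact R.memG.1 j hj
  · obtain ⟨j, hj, e1⟩ := hN' k hk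
    rw [ew _ _ e1]
    exact R.memG.2 j hj
  · obtain ⟨j, hj, e1, e2⟩ := hN k hk
    rw [ew _ _ e1, ew _ _ e2]
    exact R.TL j hj
  · obtain ⟨j, hj, e1⟩ := hN' k hk
    rw [ew _ _ e1]
    exact R.TLc j hj
  · have h1 := R.dL l hl x (hx x hx')
    have h2 := R.dL l hl _ hVq
    have h3 : L l x x - L l (t + V₀ * q) (t + V₀ * q) - Sl l * (x - (t + V₀ * q)) =
        (L l x x - L l t t - Sl l * (x - t)) -
        (L l (t + V₀ * q) (t + V₀ * q) - L l t t - Sl l * (t + V₀ * q - t)) := by ring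
    rw [h3]
    refine (abs_sub _ _).trans ?_
    linarith
  · have h1 := R.dT l hl x (hx x hx')
    have h2 := R.dL l hl _ hVq
    have h3 : T l x x - L l (t + V₀ * q) (t + V₀ * q) - Sl l * (x - (t + V₀ * q)) =
        (T l x x - L l t t - Sl l * (x - t)) -
        (L l (t + V₀ * q) (t + V₀ * q) - L l t t - Sl l * (t + V₀ * q - t)) := by ring
    rw [h3]
    refine (abs_sub _ _).trans ?_
    linarith
  · have h1 := R.l0 x (hx x hx')
    linarith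
  · have h1 := R.dL (m - 1) (by omega) _ hVq
    have h2 : |L (m - 1) (t + V₀ * q) (t + V₀ * q) - L (m - 1) t t| ≤
        B * |V₀| * q + ε * q := by
      have h3 : L (m - 1) (t + V₀ * q) (t + V₀ * q) - L (m - 1) t t =
          Sl (m - 1) * V₀ * q + (L (m - 1) (t + V₀ * q) (t + V₀ * q) - L (m - 1) t t -
            Sl (m - 1) * (t + V₀ * q - t)) := by ring
      rw [h3]
      refine (abs_add_le _ _).trans (add_le_add ?_ h1)
      rw [abs_mul, abs_mul, abs_of_pos hq]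
      exact mul_le_mul_of_nonneg_right (mul_le_mul_of_nonneg_right hB hV0) hq.le
    have h4 : K₁ * (C * q) + (B * |V₀| * q + ε * q) ≤ K * q := by
      have h5 := mul_le_mul_of_nonneg_right hK hq.le
      have h6 := mul_le_mul_of_nonneg_right hε1 hq.le
      have h7 := mul_nonneg hV0 hq.le
      linarith
    have h5 : ∀ z : ℝ, |z - L (m - 1) (t + V₀ * q) (t + V₀ * q)| ≤ K₁ * (C * q) →
        |z - L (m - 1) t t| ≤ K * q := by
      intro z hz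
      have h6 : z - L (m - 1) t t = (z - L (m - 1) (t + V₀ * q) (t + V₀ * q)) +
          (L (m - 1) (t + V₀ * q) (t + V₀ * q) - L (m - 1) t t) := by ring
      rw [h6]
      exact (abs_add_le _ _).trans ((add_le_add hz h2).trans h4)
    refine (R.row x y (h5 x hx') (h5 y hy) hxy).trans ?_
    linarith

end Pool.PKG
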