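import Pool.Agent.H73.D2.Tvb
import Pool.Agent.H5.PN.Fav

/-!
# The context of the chain with one more coordinate, from the far digits and its first jet

`far_ctxU`: the context of the chain and one more coordinate at the window `v`, given the far digits of
the chain over the labels of the window `w`, if the first jet of the coordinate at the window `v` is few
bits given the first jets of the chain.
-/

set_option autoImplicit false

namespace Pool.AJW

open Finset Real MvPolynomial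
open Pool.Agent.H49.Ent Pool.Agent.H32.Dense Pool.STK Pool.KA Pool.KSAT Pool.K2S Pool.PB Pool.GEN
open Pool.S6C Pool.RCD Pool.LA91 Pool.OWN68 Pool.CHT
open Pool.GRD (LbP)
open Pool.AJX (FwX ctx_f1)

variable {m : ℕ} {S : PCl m} {C₀ : ℝ} {α γ : ∀ J : ℕ, Fam m J → Type}
  {f : ∀ (J : ℕ) (F : Fam m J), F.Ω → α J F} {y : ∀ (J : ℕ) (F : Fam m J), F.Ω → γ J F}
  {c : ℕ → Fin m} {r₀ r : ℕ} {v w lam σ : ℝ} {v₀ P₀ p s pf n lv lw : ℕ → ℝ} {Nf : ℕ → ℕ → ℝ}

/-- **The value of one more coordinate over the labels of `v`**, from its natural value over the labels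
of `w`. -/
theorem far_val (htm : TmC S C₀) (H : FarV S c r₀ r v₀ v w lam σ P₀ p s pf n lv lw Nf)
    (hf : ∀ (J : ℕ) (F : Fam m J), ∃ φ : α J F → PtT F, ∀ ω, ptr F J ω = φ (f J F ω))
    (hy : Kn ((range r₀).image c) (v + lam) lam y) {k : Fin m} {pv pw Nu rk : ℝ} (hw1 : w < 1)
    (hrk : 0 ≤ rk) (hatt : Att S ((range r).image c) k w pw rk) (hN : Nu + σ ≤ pw)
    (h2 : Nu + σ ≤ min pw pv + (v + lam - w))
    (h3 : ∀ l, r₀ ≤ l → l < r → Nu + σ ≤ min pw pv + lw l) {δ : ℝ} (hδ : 0 < δ) :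
    F1 S f (vg w) y (qJets m c r₀ r 1 (fun _ _ => w) (fun l _ => pf l) Nf)
      (qJet m ((range r).image c) k 0 v pv Nu) (σ / 8) δ := by
  obtain ⟨u₁, rw, hcw, hrw⟩ := H.cw
  have hσ := H.σ0
  have hvw := H.vw
  have hwl := H.wl
  have hv := H.vn
  have hlam : 0 < lam := by linarith
  have hmin : min lam (v + lam - w) = v + lam - w := min_eq_right (by linarith)
  have a1 : F1 S f (vg w) y (qJets m c r₀ r 1 (fun _ _ => w) (fun l _ => pf l) Nf)
      (qJet m ((range r).image c) k 0 w pw Nu) (σ / 8) (δ / 2) :=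
    F1.of0 htm ((few0_room htm (hv.trans hvw) hw1 hσ (by
      rw [Nat.cast_zero, zero_mul, add_zero]
      exact hN) f (vg w) y (half_pos hδ)).mono (by linarith) le_rfl)
  have a2 : F1 S f (vg w) y ((qJets m c r₀ r 1 (fun _ _ => w) (fun l _ => pf l) Nf).prod
      (qJet m ((range r).image c) k 0 w pw Nu))
      (qJet m ((range r).image c) k 0 v pv Nu) (σ / 8) (δ / 2) := by
    have key := jetN_F1 (y := y) (f := f) htm hcw (k := k) (j := 0) (lv := lw) (p₀ := v + lam)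
      (lam := lam) (σ₀ := σ) (w₁ := w) (w₂ := v) (p₁ := pw) (p₂ := pv) (N₁ := Nu) (N₂ := Nu)
      (wv := fun _ _ => w) (pv := fun l _ => pf l) (Nv := Nf) (fun _ _ _ _ _ => le_rfl) le_rfl hvw
      hwl H.l1 hlam hσ H.w0 (fun i x y j' hj' => H.w1 i x y j' (by omega))
      (fun i x y j' _ => by
        rw [hmin]
        exact H.w2 i x y)
      (fun i x y j' _ l' x' y' => H.w3 i x y l' x' y') le_rfl
      (by
        rw [hmin, Nat.cast_zero, zero_mul, add_zero]
        exact h2)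
      (fun l' x y => by
        rw [Nat.cast_zero, zero_mul, add_zero]
        exact h3 l' x y) hf hy (half_pos hδ)
    refine F1.pull htm (Q₁ := (qJets m c r₀ r 0 (fun _ _ => w) (fun l _ => pf l) Nf).prod
      (qJet m ((range r).image c) k 0 w pw Nu))
      (fun u => ((fun i' j' => if i' < r ∧ j' ≤ 0 then u.1 i' j' else 0), u.2)) ?_ key
    intro K e J F A u hu
    refine ⟨⟨fun i' a b' j' c' => ?_, fun ω hω i' j' h' => ?_⟩, hu.2⟩
    · have e1 := hu.1.1 i' a b' j' (c'.trans zero_le_one)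
      show (qJet m _ _ _ _ _ _).P K e J F A (fun ω => if i' < r ∧ j' ≤ 0 then (u ω).1 i' j' else 0)
      simp only [if_pos (show i' < r ∧ j' ≤ 0 from ⟨b', c'⟩)]
      exact e1
    · show (if i' < r ∧ j' ≤ 0 then (u ω).1 i' j' else 0) = 0
      split_ifs with h4
      · exact hu.1.2 ω hω i' j' fun h5 => h' ⟨h5.1, h4.1, h4.2⟩
      · rfl
  have b := F1.cut htm (exs_jet hrk hatt) (by positivity) a1 a2
  rwa [add_halves] at b

/-- **The context of the chain with one more coordinate**, from the far digits of the chain and the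
first jet of the coordinate. -/
theorem far_ctxU (K : ℕ) {ε : ℝ} (hε : 0 < ε) : ∃ δ : ℝ, 0 < δ ∧
    ∀ {m : ℕ} {S : PCl m} {C₀ : ℝ} {c : ℕ → Fin m} {r : ℕ} {v w lam σ : ℝ}
      {v₀ P₀ p s pf n lv lw : ℕ → ℝ} {Nf : ℕ → ℕ → ℝ} (_ : TmC S C₀)
      (_ : FarV S c 0 r v₀ v w lam σ P₀ p s pf n lv lw Nf) {E rd N : ℕ → ℝ}
      {N₁ pw μ e₁ rk : ℝ} (_ : w < 1) (_ : 0 ≤ rk)
      (_ : Att S ((range r).image c) (c r) w pw rk) (_ : n r + σ ≤ pw)
      (_ : n r + σ ≤ min pw (p r) + (v + lam - w)) (_ : ∀ l < r, n r + σ ≤ min pw (p r) + lw l)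
      (_ : 0 < μ) (_ : v + μ ≤ 1) (_ : n r + σ ≤ p r + μ) (_ : n r - v ≤ N₁)
      (_ : ∀ i < r + 1, E i ≤ 1) (_ : ∀ i < r + 1, 0 ≤ rd i) (_ : ∀ i < r, N i ≤ n i)
      (_ : 0 < e₁),
      F1 S (fun J F => ptr F J) (vg v) (fun _ F => F.T)
        (qJets m c 0 r 1 (fun _ _ => v) (fun l _ => p l) (fun l j => N l - (j : ℕ) * v))
        (qJet m ((range r).image c) (c r) 1 v (p r) N₁) e₁ (δ * μ) →
      ∀ e : ℝ, 0 < e → e ≤ σ / 8 → e ≤ e₁ →
      FwX S (fun J F => ptr F J) (vg w) (fun _ F => F.T)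
        (qJets m c 0 r 1 (fun _ _ => w) (fun l _ => pf l) Nf) c 0 (r + 1) K E v rd p
        (ctx c 0 (r + 1) K v lam n) e (ε * μ) := by
  obtain ⟨δ, hδ, key⟩ := ctx_f1 K hε
  refine ⟨δ, hδ, ?_⟩
  intro m S C₀ c r v w lam σ v₀ P₀ p s pf n lv lw Nf htm H E rd N N₁ pw μ e₁ rk hw1 hrk hatt hnw
    hn2 hn3 hμ hμ1 hnp hN₁ hE hrd hNn he₁ h1 e he heσ hee
  have hσ := H.σ0
  have hvw := H.vw
  have hf : ∀ (J : ℕ) (F : Fam m J), ∃ φ : PtT F → PtT F, ∀ ω, ptr F J ω = φ (ptr F J ω) :=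
    fun J F => ⟨id, fun ω => rfl⟩
  have hy : Kn ((range 0).image c) (v + lam) lam (fun (J : ℕ) (F : Fam m J) => F.T) := by
    intro J F
    refine ⟨fun t => (t, fun _ => 0, fun _ => 0), fun ω => ?_⟩
    simp only [Finset.range_zero, Finset.image_empty, Finset.notMem_empty, if_false]
  refine key htm (Nat.zero_le r) le_rfl (w := v) (a := w) (lam := lam) (σ₀ := σ) (N := N)
    (fun i _ hi => hE i hi) H.vn hvw hw1.le hμ hμ1 hσ he (by linarith) hnp
    (fun i _ hi => hrd i hi) (fun i _ hi => hNn i hi) hN₁ hf (fun J F => ⟨id, fun ω => rfl⟩) ?_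
    (h1.mono hee le_rfl) ?_
  · exact (far_ctxX htm H le_rfl hw1.le hf hy (fun i _ hi => hE i (by omega))
      (fun i _ hi => hrd i (by omega)) (by positivity) (Nat.le_succ r) he heσ)
  · exact (far_val htm H hf hy hw1 hrk hatt hnw hn2 (fun l _ hl => hn3 l hl)
      (by positivity)).mono heσ le_rfl

end Pool.AJW
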