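import Pool.Agent.H60.ALT.Nzw
import Pool.Agent.H42.D2.Npa
import Pool.Agent.H99.D2.Bld

/-!
# The own height over a blind label

`blC_of_blB`: the slopes of a blind family at the rounded samples, from the exact ones. `vad_win`: the own
height over a blind label of the window `w` is a polynomial of the chain closed at a later window `a`, up to
the precision of the labels of the window `a`.
-/

set_option autoImplicit false

namespace Pool.ALT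

open Finset Real MvPolynomial
open Pool.Agent.H49.Ent Pool.Agent.H32.Dense Pool.STK Pool.KA Pool.KSAT Pool.K2S Pool.PB Pool.S6C
  Pool.GEN Pool.RCD Pool.LA91 Pool.OWN68
open Pool.UNJ (ceI)
open Pool.GRW (xr xr_near)
open Pool.BFL (Pb)
open Pool.GRD (LbP)
open Pool.NPZ (VaD)

variable {m : ℕ}

/-- The probability of the complement of a part. -/
theorem pb_compl {Ω : Type} [Fintype Ω] {p : Ω → ℝ} (h0 : ∀ ω, 0 ≤ p ω) {A B : Ω → Prop}
    (hA : 0 < Pe p A) (hB : Sub B A) {η : ℝ} (h : (1 - η) * Pe p A ≤ Pe p B) :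
    Pb (Pool.Agent.H49.Ent.cond p A True) (fun ω => ¬ B ω) ≤ η := by
  classical
  rw [Pb_cond hA, div_le_iff₀ hA]
  have h5 : Pe p (fun ω => A ω ∧ ¬ B ω) + Pe p B ≤ Pe p A := by
    rw [Pe_eq, Pe_eq, Pe_eq, ← Finset.sum_add_distrib]
    refine Finset.sum_le_sum fun ω _ => ?_
    have h6 := h0 ω
    by_cases g1 : A ω <;> by_cases g2 : B ω
    · simp [g1, g2]
    · simp [g1, g2]
    · exact absurd (hB ω g2) g1
    · simp [g1, g2]
  linarith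

/-- **The slopes of a blind family at the rounded samples**, from the exact ones. -/
theorem blC_of_blB {S : PCl m} {C₀ : ℝ} (hC₀ : 0 ≤ C₀) (htm : TmC S C₀)
    (hpos : ∀ (τ : ℝ) (J : ℕ) (F : Fam m J) (A : F.Ω → Prop), S.St τ J F A → 0 < Pe F.p A)
    {c : ℕ → Fin m} {r : ℕ} {κ : Fin m} {w v u : ℝ} (hwv : w ≤ v) (hvu : v ≤ u) (hu0 : 0 ≤ u)
    (hu : u < 1) (hful : Pool.TOP.Ful S ((range (r + 1)).image c) v u) {K K₁ Ku : ℕ}
    {p₁ p₂ x₀ x : ℝ} (hx : x₀ < x)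
    {Ψ : ∀ (J : ℕ) (F : Fam m J), (F.Ω → Prop) → ∀ V : Type, (PtT F → V) → (LnT F → V) →
      (V → MvPolynomial (Option (Fin m)) ℝ) → Prop}
    (hΨd : ∀ (J : ℕ) (F : Fam m J) (A : F.Ω → Prop) (V : Type) (z : PtT F → V) (z' : LnT F → V)
      (G : V → MvPolynomial (Option (Fin m)) ℝ), Ψ J F A V z z' G →
      (∀ y, (G y).totalDegree ≤ K) ∧ (∀ y, DpI ((range (r + 1)).image c) (G y)) ∧
      ∀ ω, A ω → z (ptr F J ω) = z' (slam F ⌊w * J⌋₊ ω))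
    (h : BlB S c r κ w v K₁ Ku p₁ p₂ x₀ Ψ) : BlC S c r κ w v K₁ Ku p₁ p₂ x Ψ := by
  classical
  intro η χ hη hχ
  have hl2 : 0 < Real.log 2 := Real.log_pos one_lt_two
  obtain ⟨h₁, hh₁⟩ : ∃ h₁ : ℝ, h₁ = (x - x₀) * Real.log 2 / 2 := ⟨_, rfl⟩
  have hh0 : 0 < h₁ := by
    rw [hh₁]
    have : 0 < x - x₀ := by linarith
    positivity
  obtain ⟨η', hη'⟩ : ∃ η' : ℝ, η' = min η 1 / 2 := ⟨_, rfl⟩
  have hη0 : 0 < η' := by
    rw [hη']
    exact half_pos (lt_min hη one_pos)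
  have hη1 : η' ≤ 1 / 2 := by
    rw [hη']
    linarith [min_le_right η 1]
  have hηη : 2 * η' ≤ η := by
    rw [hη']
    linarith [min_le_left η 1]
  refine Bas.mono 1 (((h η' χ hη0 hχ).and (Pool.GRW.bas_part (Pool.TOP.uni_cls hC₀ htm
    ((range (r + 1)).image c) hvu hu0 hu hful (max K K₁) hh0 hη0 (by linarith))
    (c := 2) (by norm_num))).and (pos_bas hpos)) ?_
  rintro J hJ F A ⟨⟨H1, H2⟩, hA⟩ V z z' G hΨ P₁ V₁ z₁ z₁' G₁ hG₁ hP₁ P₂ V₂ z₂ z₂' H₂ hH hP₂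
  have hJ1 : (1 : ℝ) ≤ J := by exact_mod_cast hJ
  have hv1 : v ≤ 1 := hvu.trans hu.le
  obtain ⟨f1, f2⟩ := floorw hwv hv1 J
  obtain ⟨hGd, hGp, hGc⟩ := hΨd J F A V z z' G hΨ
  have h3 := H1 V z z' G hΨ P₁ V₁ z₁ z₁' G₁ hG₁ hP₁ P₂ V₂ z₂ z₂' H₂ hH hP₂
  have h4 := pe_part F.isLaw.nonneg hA _ h3
  obtain ⟨A', hA'⟩ : ∃ A' : F.Ω → Prop, A' = fun ω => A ω ∧ ¬ (2 : ℝ) ^ (x₀ * J) <
        |eval (bt F ω) (pderiv (some (c r)) (G₁ (z₁' (slam F ⌊v * J⌋₊ ω)) -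
          G (z' (slam F ⌊w * J⌋₊ ω))))| := ⟨_, rfl⟩
  rw [← hA'] at h4
  have hA'A : Sub A' A := fun ω hω => by
    rw [hA'] at hω
    exact hω.1
  have h5 : Pe F.p A ≤ 2 * Pe F.p A' := by nlinarith [hA.le]
  obtain ⟨B, b1, b2, b3⟩ := H2 A' hA'A h5 (V₁ × V) (fun y => (z₁ y, z y))
    (fun y => (z₁' y, wz z' ⌊w * J⌋₊ ⌊v * J⌋₊ y))
    (fun y => pderiv (some (c r)) (G₁ y.1 - G y.2)) (fun _ => (2 : ℝ) ^ (x₀ * J))
    (fun y => (pd_dg _ _).trans ((totalDegree_sub _ _).trans (max_le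
      ((hG₁.deg _).trans (le_max_right _ _)) ((hGd _).trans (le_max_left _ _)))))
    (fun y b b' h0 hb => by
      have hsub : DpI ((range (r + 1)).image c) (G₁ y.1 - G y.2) := DpI.sub (hG₁.dep _) (hGp _)
      have h9 : Pool.GEN.DepC c (r + 1) (G₁ y.1 - G y.2) := fun a a' ha hb' =>
        hsub a a' ha fun i hi => by
          obtain ⟨l, hl, rfl⟩ := mem_image.1 hi
          exact hb' l (mem_range.1 hl)
      exact (h9.pderiv _) b b' h0 fun l hl => hb _ (mem_image_of_mem _ (mem_range.2 hl)))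
    (fun ω hω => by
      refine Prod.ext (hG₁.cls ω (hA'A ω hω)) ?_
      show z (ptr F J ω) = wz z' ⌊w * J⌋₊ ⌊v * J⌋₊ (slam F ⌊v * J⌋₊ ω)
      rw [wz_slam z' f1 f2]
      exact hGc ω (hA'A ω hω))
    (fun _ => Real.rpow_pos_of_pos (by norm_num) _) (fun ω hω => by
      rw [hA'] at hω
      have h6 := hω.2
      push Not at h6
      show |eval (bt F ω) (pderiv (some (c r)) (G₁ (z₁' (slam F ⌊v * J⌋₊ ω)) -
          G (wz z' ⌊w * J⌋₊ ⌊v * J⌋₊ (slam F ⌊v * J⌋₊ ω))))| ≤ _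
      rw [wz_slam z' f1 f2]
      exact h6)
  have hBA : Sub B A := fun ω hω => hA'A ω (b1 ω hω)
  have h7 : (1 - 2 * η') * Pe F.p A ≤ Pe F.p B := by
    have h8 : (1 - η') * ((1 - η') * Pe F.p A) ≤ (1 - η') * Pe F.p A' :=
      mul_le_mul_of_nonneg_left h4 (by linarith)
    have h9 : 0 ≤ η' * η' * Pe F.p A := by positivity
    nlinarith
  obtain ⟨q', hq'⟩ : ∃ q' : F.Ω → ℝ, q' = Pool.Agent.H49.Ent.cond F.p A True := ⟨_, rfl⟩
  have hq'l : IsLaw q' := by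
    rw [hq']
    exact isLaw_cond F.isLaw hA
  have hB := pb_compl F.isLaw.nonneg hA hBA h7
  rw [← hq'] at hB ⊢
  refine le_trans (Pool.GRD.Pb_mono_pos hq'l.nonneg fun ω hω0 hω => ?_) (hB.trans hηη)
  intro hBω
  have h8 := b3 ω hBω (xr F ω) fun o => by
    refine (xr_near F ω o).trans ?_
    have h10 : ⌊u * J⌋₊ ≤ J := floor_le hu.le J
    have h11 : (1 : ℝ) / 2 ^ J ≤ 1 / 2 ^ ⌊u * J⌋₊ := inv_mono h10
    have h12 : (0 : ℝ) < 1 / 2 ^ ⌊u * J⌋₊ := by positivity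
    linarith
  simp only at h8
  rw [wz_slam z' f1 f2] at h8
  have h9 : Real.exp (h₁ * J) * (2 : ℝ) ^ (x₀ * J) < 2 ^ (x * J) := by
    have e1 : (2 : ℝ) ^ (x₀ * J) = Real.exp (x₀ * Real.log 2 * J) := Pool.CR99.rp_exp x₀ J
    have e2 : (2 : ℝ) ^ (x * J) = Real.exp (x * Real.log 2 * J) := Pool.CR99.rp_exp x J
    rw [e1, e2, ← Real.exp_add]
    refine Real.exp_lt_exp.2 ?_
    have h10 : h₁ * J < (x - x₀) * Real.log 2 * J := by
      rw [hh₁]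
      have : 0 < (x - x₀) * Real.log 2 * J := by
        have : 0 < x - x₀ := by linarith
        positivity
      linarith
    linarith
  exact absurd hω (not_le.2 (lt_of_le_of_lt h8 h9))

/-- **The own height over a blind label of the window `w`**: a polynomial of the chain closed at the window
`a`, up to the precision of the labels of the window `a`. -/
theorem vad_win {S : PCl m} {C₀ : ℝ} (hC₀ : 0 ≤ C₀) (htm : TmC S C₀)
    (hpos : ∀ (τ : ℝ) (J : ℕ) (F : Fam m J) (A : F.Ω → Prop), S.St τ J F A → 0 < Pe F.p A)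
    {c : ℕ → Fin m} {r : ℕ} {κ : Fin m} {D K : ℕ} (hinj : Set.InjOn c (Set.Iio (r + 1)))
    {w a pκ pu E Eu u : ℝ} (W : AlW S c r κ D a pκ pu E Eu u) (hw0 : 0 ≤ w) (hwa : w ≤ a)
    {pa p₁ x : ℝ} (hpa0 : 0 ≤ pa) (hpa : pa < pκ) (hp₁ : p₁ < pκ) (hx : x + pa < pu)
    {Ψ : ∀ (J : ℕ) (F : Fam m J), (F.Ω → Prop) → ∀ V : Type, (PtT F → V) → (LnT F → V) →
      (V → MvPolynomial (Option (Fin m)) ℝ) → Prop}
    (hΨd : ∀ (J : ℕ) (F : Fam m J) (A : F.Ω → Prop) (V : Type) (z : PtT F → V) (z' : LnT F → V)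
      (G : V → MvPolynomial (Option (Fin m)) ℝ), Ψ J F A V z z' G →
      (∀ y, (G y).totalDegree ≤ K) ∧ (∀ y, DpI ((range (r + 1)).image c) (G y)) ∧
      ∀ ω, A ω → z (ptr F J ω) = z' (slam F ⌊w * J⌋₊ ω))
    (hΨs : ∀ (J : ℕ) (F : Fam m J) (A B : F.Ω → Prop) (V : Type) (z : PtT F → V)
      (z' : LnT F → V) (G : V → MvPolynomial (Option (Fin m)) ℝ), Sub B A →
      Ψ J F A V z z' G → Ψ J F B V z z' G)
    (hbl : ∀ p₂ : ℝ, BlB S c r κ w a D D p₁ p₂ x Ψ) :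
    Bas S (fun J F A => ∀ (V : Type) (z : PtT F → V) (z' : LnT F → V)
      (G : V → MvPolynomial (Option (Fin m)) ℝ), Ψ J F A V z z' G →
      ∃ B : F.Ω → Prop, Sub B A ∧ Pe F.p A ≤ 2 * Pe F.p B ∧
        VaD F c r κ (max K D * max 1 D) w a pa B z' G) := by
  classical
  obtain ⟨C, hC, hnz⟩ := nz_p r K D
  have hC0 : 0 < C := by linarith
  have ha0 := W.w0
  have hau := W.wu
  have hu1 := W.u1
  have hE0 := W.E0
  have hEu0 := W.Eu0
  have hpE := W.pE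
  have hpEu := W.pEu
  have hrE := W.rE
  have hrEu := W.rEu
  have hpk0 := W.pk0
  have hpu0 := W.pu0
  have hu0 : 0 ≤ u := ha0.trans hau
  -- the error of the boxes
  obtain ⟨ε, hε⟩ : ∃ ε : ℝ, ε = min (pu - (x + pa)) (min (1 - u) (1 - (Eu + pu))) / 8 := ⟨_, rfl⟩
  have hε0 : 0 < ε := by
    rw [hε]
    exact div_pos (lt_min (by linarith) (lt_min (by linarith) (by linarith))) (by norm_num)
  have k1 : 8 * ε ≤ pu - (x + pa) := by
    rw [hε, mul_div_cancel₀ _ (by norm_num)]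
    exact min_le_left _ _
  have k2 : 8 * ε ≤ 1 - u := by
    rw [hε, mul_div_cancel₀ _ (by norm_num)]
    exact (min_le_right _ _).trans (min_le_left _ _)
  have k3 : 8 * ε ≤ 1 - (Eu + pu) := by
    rw [hε, mul_div_cancel₀ _ (by norm_num)]
    exact (min_le_right _ _).trans (min_le_right _ _)
  -- the error of the charts
  obtain ⟨t, ht⟩ : ∃ t : ℝ, t = min (min (ε / C) ε) pu / 4 := ⟨_, rfl⟩
  have ht0 : 0 < t := by
    rw [ht]
    exact div_pos (lt_min (lt_min (by positivity) hε0) hpu0) (by norm_num)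
  have t1 : 4 * t ≤ ε / C := by
    rw [ht, mul_div_cancel₀ _ (by norm_num)]
    exact (min_le_left _ _).trans (min_le_left _ _)
  have t2 : 4 * t ≤ ε := by
    rw [ht, mul_div_cancel₀ _ (by norm_num)]
    exact (min_le_left _ _).trans (min_le_right _ _)
  have t3 : 4 * t ≤ pu := by
    rw [ht, mul_div_cancel₀ _ (by norm_num)]
    exact min_le_right _ _
  have hCt : C * (2 * t) ≤ ε := by
    have h7 : 2 * t ≤ ε / C := by linarith
    rw [le_div_iff₀ hC0] at h7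
    linarith
  obtain ⟨χ, hχ⟩ : ∃ χ : ℝ, χ = min t ((pκ - max p₁ pa) / 2) := ⟨_, rfl⟩
  have hmx : max p₁ pa < pκ := max_lt hp₁ hpa
  have hχ0 : 0 < χ := by
    rw [hχ]
    exact lt_min ht0 (by linarith)
  have hχt : χ ≤ t := by rw [hχ]; exact min_le_left _ _
  have hχp : χ ≤ (pκ - max p₁ pa) / 2 := by rw [hχ]; exact min_le_right _ _
  obtain ⟨pg, hpg⟩ : ∃ pg : ℝ, pg = (pκ + max p₁ pa) / 2 := ⟨_, rfl⟩
  have hpg1 : pg < pκ := by rw [hpg]; linarith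
  have hpg2 : p₁ + χ ≤ pg := by
    rw [hpg]
    linarith [le_max_left p₁ pa]
  have hpg3 : pa < pg := by
    rw [hpg]
    linarith [le_max_right p₁ pa]
  have U₂ := W.upu hpos (K := D) le_rfl (u' := u + t) (p := pu - 2 * t) (e := Eu + 4 * t)
    (by linarith) (by linarith) (by linarith) (by linarith) (by linarith) (by linarith)
  have hblC := blC_of_blB hC₀ htm hpos hwa hau hu0 hu1 W.fI (x := x + ε) (by linarith) hΨd
    (hbl (pu - 2 * t))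
  have hn := hnz htm hpos (κ := κ) hinj W.ful W.fI0 U₂ hw0 hwa hau (by linarith) ε hε0
    (by
      have e1 : pu - (pu - 2 * t) = 2 * t := by ring
      rw [e1]
      exact hCt) (by linarith) (by linarith) (x + ε) p₁ (1 / 2) χ (by norm_num) hχ0 Ψ hΨd hΨs hblC
  obtain ⟨J₁, hJ₁⟩ := exists_nat_ge (1 / (pg - pa))
  obtain ⟨J₂, hJ₂⟩ := exists_nat_ge (1 / ε)
  refine Bas.mono (max J₁ J₂) ((hn.and (pos_bas hpos)).and ((W.ch1 hpg1).and
    (W.ch2 (p := pu - t) (by linarith)))) ?_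
  rintro J hJ F A ⟨⟨H1, hA⟩, ⟨P₁, V₁, z₁, z₁', G₁, hG₁, hP₁⟩, P₂, V₂, z₂, z₂', H₂, hH, hP₂⟩ V z z' G
    hΨ
  have hJ0 : (0 : ℝ) ≤ J := Nat.cast_nonneg J
  have hJ1 : 1 ≤ (pg - pa) * J := by
    have e1 : (J₁ : ℝ) ≤ J := by exact_mod_cast (le_max_left _ _).trans hJ
    have e2 := hJ₁.trans e1
    rw [div_le_iff₀ (by linarith)] at e2
    linarith
  have hJ2 : 1 ≤ ε * J := by
    have e1 : (J₂ : ℝ) ≤ J := by exact_mod_cast (le_max_right _ _).trans hJ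
    have e2 := hJ₂.trans e1
    rw [div_le_iff₀ hε0] at e2
    linarith
  have mulJ : ∀ {x y : ℝ}, x ≤ y → x * J ≤ y * J := fun h => mul_le_mul_of_nonneg_right h hJ0
  have ha1 : a ≤ 1 := hau.trans hu1.le
  obtain ⟨f1, f2⟩ := floorw hwa ha1 J
  obtain ⟨hGd, hGp, hGc⟩ := hΨd J F A V z z' G hΨ
  have h3 := H1 V z z' G hΨ P₁ V₁ z₁ z₁' G₁ hG₁ ((mulJ hpg2).trans hP₁) P₂ V₂ z₂ z₂' H₂ hH
    ((mulJ (by linarith)).trans hP₂)
  have h4 := pe_part F.isLaw.nonneg hA _ h3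
  refine ⟨fun ω => A ω ∧ ¬ ¬ |F.x ω κ - eval (bt F ω) (G (z' (slam F ⌊w * J⌋₊ ω)) +
          sbu (c r) (H₂ (z₂' (slam F ⌊a * J⌋₊ ω)))
            (G₁ (z₁' (slam F ⌊a * J⌋₊ ω)) - G (z' (slam F ⌊w * J⌋₊ ω))))| ≤
          1 / 2 ^ P₁ + 2 ^ (ε * J) * 2 ^ ((x + ε) * J) * (1 / 2 ^ P₂), fun ω hω => hω.1,
    by linarith, V × (V₁ × V₂), fun y => (z y, (z₁ y, z₂ y)),
    fun y => (wz z' ⌊w * J⌋₊ ⌊a * J⌋₊ y, (z₁' y, z₂' y)),
    fun y => sbu (c r) (H₂ y.2.2) (G₁ y.2.1 - G y.1), fun y => ?_, fun y => ?_, fun ω hω => ?_,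
    fun ω hω => ?_⟩
  · exact sbu_deg (c r) (hH.deg _) ((totalDegree_sub _ _).trans (max_le
      ((hG₁.deg _).trans (le_max_right _ _)) ((hGd _).trans (le_max_left _ _))))
  · exact sbu_dep (DpI.sub (hG₁.dep _) (hGp _)) (hH.dep _)
  · refine Prod.ext ?_ (Prod.ext (hG₁.cls ω hω.1) (hH.cls ω hω.1))
    show z (ptr F J ω) = wz z' ⌊w * J⌋₊ ⌊a * J⌋₊ (slam F ⌊a * J⌋₊ ω)
    rw [wz_slam z' f1 f2]
    exact hGc ω hω.1
  · have h6 := not_not.1 hω.2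
    have e1 : ojet F κ 0 (G (z' (slam F ⌊w * J⌋₊ ω))) ω =
        F.x ω κ - eval (bt F ω) (G (z' (slam F ⌊w * J⌋₊ ω))) := hgt_eq F κ z' _ G ω
    show |ojet F κ 0 (G (z' (slam F ⌊w * J⌋₊ ω))) ω - eval (bt F ω)
      (sbu (c r) (H₂ (z₂' (slam F ⌊a * J⌋₊ ω))) (G₁ (z₁' (slam F ⌊a * J⌋₊ ω)) -
        G (wz z' ⌊w * J⌋₊ ⌊a * J⌋₊ (slam F ⌊a * J⌋₊ ω))))| ≤ _
    rw [wz_slam z' f1 f2, e1, sub_sub, ← map_add]
    refine h6.trans ?_
    rw [← Real.rpow_add (by norm_num)]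
    have hfl : ((⌊pa * J⌋₊ : ℕ) : ℝ) ≤ pa * J := Nat.floor_le (mul_nonneg hpa0 hJ0)
    refine nz_acc (J := J) ?_ ?_
    · have : ((⌊pa * J⌋₊ + 1 : ℕ) : ℝ) ≤ P₁ := by
        push_cast
        linarith
      exact_mod_cast this
    · have h8 := mulJ (show ε + (x + ε) + pa + ε ≤ pu - t by linarith)
      linarith

end Pool.ALT
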